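import Pool.Agent.M3.FPInfo
import Pool.Agent.M3.Indep

/-!
# GMC/Disc: interval discrepancy of a class inside a dyadic cell (C2, Lemma D, part 1; helper45)

`v : Om → ℕ` position, cell of exponent `σ` = `v / 2^σ`, `L : Om → ι` class (may contain the node).
`pb v σ = ±1` the bit of the position revealed between `σ + 1` and `σ`, `bb` its bias given class and cell.
`GG L v τ` = irregularity of the class inside the cell of exponent `τ` (a function of class and cell):
* `pre_sq_le`: for every end point `e` the square of `P(v < e | class, cell) - uniform proportion` is at most `GG`;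
* `koksma`: the same for functions of bounded variation;
* `E_GG_le`: `E GG τ ≤ 8 ∑ j, (7/8)^j (rr (τ-j) - rr (τ-1-j))`, `rr σ = H(class | N, cell of exponent σ)`, `N` = path;
* `sum_GG_le` (LEMMA D): `∑ τ ≤ K, E GG (L τ) τ ≤ 64 (H(L K | N, C_K) + ∑ τ < K, H(L τ | N, L (τ+1), C_τ))`;
* `GG_node`: conditioning on the full path or on the current node is the same if the position is independent of the path.
-/

set_option autoImplicit false
set_option linter.unusedSectionVars false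

namespace Pool.Agent.GMC

open Finset Pool.Agent.PWZ Pool.Agent.M3 Pool.Agent.M3.FP

noncomputable section

variable {Om ι : Type*} [Fintype Om]

/-- class and cell of exponent `σ` -/
def XC (L : Om → ι) (v : Om → ℕ) (σ : ℕ) (w : Om) : ι × ℕ := (L w, v w / 2 ^ σ)

/-- the bit of the position between the exponents `σ + 1` and `σ` -/
def pb (v : Om → ℕ) (σ : ℕ) (w : Om) : ℝ := if v w / 2 ^ σ % 2 = 0 then 1 else -1

/-- bias of the bit given class and cell of exponent `σ + 1` -/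
def bb (P : FP Om) (L : Om → ι) (v : Om → ℕ) (σ : ℕ) : Om → ℝ := P.ce (XC L v (σ + 1)) (pb v σ)

/-- uniform proportion of the points of the cell below `e` -/
def uu (v : Om → ℕ) (e σ : ℕ) (w : Om) : ℝ :=
  if v w / 2 ^ σ < e / 2 ^ σ then 1 else if v w / 2 ^ σ = e / 2 ^ σ then ((e % 2 ^ σ : ℕ) : ℝ) / 2 ^ σ else 0

/-- irregularity of the class inside the cell of exponent `τ` -/
def GG (P : FP Om) (L : Om → ι) (v : Om → ℕ) (τ : ℕ) (w : Om) : ℝ :=
  ∑ j ∈ range τ, (7 / 8 : ℝ) ^ j * (4 * P.ce (XC L v τ) (fun u => bb P L v (τ - 1 - j) u ^ 2) w)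

theorem pb_cases (v : Om → ℕ) (σ : ℕ) (w : Om) : pb v σ w = 1 ∨ pb v σ w = -1 := by
  unfold pb
  split_ifs
  · exact Or.inl rfl
  · exact Or.inr rfl

theorem XC_fac_succ (L : Om → ι) (v : Om → ℕ) (σ : ℕ) : Fac (XC L v σ) (XC L v (σ + 1)) := by
  intro x y h
  unfold XC at h ⊢
  rw [Prod.mk.injEq] at h ⊢
  refine ⟨h.1, ?_⟩
  rw [pow_succ, ← Nat.div_div_eq_div_mul, ← Nat.div_div_eq_div_mul, h.2]

theorem XC_fac_le (L : Om → ι) (v : Om → ℕ) {σ τ : ℕ} (h : σ ≤ τ) : Fac (XC L v σ) (XC L v τ) := by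
  induction τ, h using Nat.le_induction with
  | base => exact Fac.refl _
  | succ n _ ih => exact ih.trans (XC_fac_succ L v n)

theorem GG_fac (P : FP Om) (L : Om → ι) (v : Om → ℕ) (τ : ℕ) : Fac (XC L v τ) (GG P L v τ) := by
  unfold GG
  refine Fac.finsum _ (fun j _ => ?_)
  exact (P.ce_fac (XC L v τ) _).comp (fun x => (7 / 8 : ℝ) ^ j * (4 * x))

theorem GG_nonneg (P : FP Om) (L : Om → ι) (v : Om → ℕ) (τ : ℕ) (w : Om) : 0 ≤ GG P L v τ w := by
  unfold GG
  refine Finset.sum_nonneg (fun j _ => ?_)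
  have h := P.ce_nonneg (X := XC L v τ) (f := fun u => bb P L v (τ - 1 - j) u ^ 2) (fun u _ => sq_nonneg _) w
  positivity

/-- recursion of the irregularity -/
theorem GG_succ (P : FP Om) (L : Om → ι) (v : Om → ℕ) (τ : ℕ) {w : Om} (hw : P.p w ≠ 0) :
    GG P L v (τ + 1) w = 4 * bb P L v τ w ^ 2 + 7 / 8 * P.ce (XC L v (τ + 1)) (GG P L v τ) w := by
  have h0 : P.ce (XC L v (τ + 1)) (fun u => bb P L v τ u ^ 2) w = bb P L v τ w ^ 2 := by
    refine P.ce_of_fac (X := XC L v (τ + 1)) (h := fun u => bb P L v τ u ^ 2) ?_ hw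
    exact (P.ce_fac (XC L v (τ + 1)) (pb v τ)).comp (fun x => x ^ 2)
  have h1 : P.ce (XC L v (τ + 1)) (GG P L v τ) w = ∑ j ∈ range τ, (7 / 8 : ℝ) ^ j *
      (4 * P.ce (XC L v (τ + 1)) (fun u => bb P L v (τ - 1 - j) u ^ 2) w) := by
    have e1 : (GG P L v τ) = fun u => ∑ j ∈ range τ, (fun j u => (7 / 8 : ℝ) ^ j *
        (4 * P.ce (XC L v τ) (fun u => bb P L v (τ - 1 - j) u ^ 2) u)) j u := rfl
    rw [e1, P.ce_sum]
    refine Finset.sum_congr rfl (fun j _ => ?_)
    rw [P.ce_smul, P.ce_smul, P.ce_tower (XC_fac_succ L v τ)]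
  have h2 : GG P L v (τ + 1) w = ∑ j ∈ range (τ + 1), (7 / 8 : ℝ) ^ j *
      (4 * P.ce (XC L v (τ + 1)) (fun u => bb P L v (τ + 1 - 1 - j) u ^ 2) w) := rfl
  rw [h2, Finset.sum_range_succ', h1, Finset.mul_sum]
  have h3 : ∀ j ∈ range τ, (7 / 8 : ℝ) ^ (j + 1) *
      (4 * P.ce (XC L v (τ + 1)) (fun u => bb P L v (τ + 1 - 1 - (j + 1)) u ^ 2) w) =
      7 / 8 * ((7 / 8 : ℝ) ^ j * (4 * P.ce (XC L v (τ + 1)) (fun u => bb P L v (τ - 1 - j) u ^ 2) w)) := by
    intro j _
    have e2 : τ + 1 - 1 - (j + 1) = τ - 1 - j := by omega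
    rw [e2, pow_succ]
    ring
  rw [Finset.sum_congr rfl h3]
  simp only [pow_zero, one_mul, Nat.add_sub_cancel, Nat.sub_zero]
  rw [h0]
  ring

/-- the uniform proportions form a martingale for a fair bit -/
theorem uu_step (v : Om → ℕ) (e σ : ℕ) : ∃ r : Om → ℝ, Fac (fun w => v w / 2 ^ (σ + 1)) r ∧ (∀ w, 0 ≤ r w ∧ r w ≤ 1 / 2) ∧
    ∀ w, uu v e σ w = uu v e (σ + 1) w + pb v σ w * r w := by
  set s : ℕ := e / 2 ^ σ % 2 with hs
  set q : ℝ := ((e % 2 ^ σ : ℕ) : ℝ) / 2 ^ σ with hq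
  have hq0 : 0 ≤ q := by positivity
  have hq1 : q ≤ 1 := by
    rw [hq, div_le_one (by positivity)]
    exact_mod_cast (Nat.mod_lt _ (Nat.two_pow_pos σ)).le
  have hdd : ∀ x : ℕ, x / 2 ^ (σ + 1) = x / 2 ^ σ / 2 := fun x => by
    rw [Nat.div_div_eq_div_mul, pow_succ]
  have hemod : ((e % 2 ^ (σ + 1) : ℕ) : ℝ) / 2 ^ (σ + 1) = (s + q) / 2 := by
    have h1 : e % 2 ^ (σ + 1) = 2 ^ σ * (e / 2 ^ σ % 2) + e % 2 ^ σ := by
      rw [pow_succ, Nat.mod_mul]
      ring
    have h2 : (2 : ℝ) ^ σ ≠ 0 := by positivity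
    rw [h1, hq, ← hs, pow_succ]
    push_cast
    field_simp
  refine ⟨fun w => if v w / 2 ^ (σ + 1) = e / 2 ^ (σ + 1) then (if s = 0 then q / 2 else (1 - q) / 2) else 0,
    ?_, ?_, ?_⟩
  · intro x y h
    simp only at h ⊢
    rw [h]
  · intro w
    simp only
    split_ifs
    · exact ⟨by linarith, by linarith⟩
    · exact ⟨by linarith, by linarith⟩
    · exact ⟨le_refl _, by norm_num⟩
  · intro w
    have hs2 : s = 0 ∨ s = 1 := by omega
    unfold uu pb
    simp only []
    rw [hdd (v w), hdd e, hemod, ← hq]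
    set a : ℕ := v w / 2 ^ σ with ha
    set b : ℕ := e / 2 ^ σ with hb
    rcases hs2 with h0 | h0
    · -- the bit of `e` is `0`
      rw [h0]
      rcases Nat.lt_trichotomy (a / 2) (b / 2) with h | h | h
      · have h1 : a < b := by omega
        have h2 : ¬ a / 2 = b / 2 := by omega
        simp only [h, h1, h2, if_true, if_false]
        ring
      · by_cases h2 : a % 2 = 0
        · have h3 : a = b := by omega
          have h4 : ¬ a / 2 < b / 2 := by omega
          have h5 : ¬ a < b := by omega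
          simp only [h3, if_true, if_false, lt_irrefl, CharP.cast_eq_zero]
          simp only [← h3, h2, if_true]
          ring
        · have h3 : ¬ a = b := by omega
          have h4 : ¬ a / 2 < b / 2 := by omega
          have h5 : ¬ a < b := by omega
          simp only [h, h2, h3, h5, if_true, if_false, lt_irrefl, CharP.cast_eq_zero]
          ring
      · have h1 : ¬ a < b := by omega
        have h2 : ¬ a = b := by omega
        have h3 : ¬ a / 2 < b / 2 := by omega
        have h4 : ¬ a / 2 = b / 2 := by omega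
        simp only [h1, h2, h3, h4, if_false]
        ring
    · rw [h0]
      rcases Nat.lt_trichotomy (a / 2) (b / 2) with h | h | h
      · have h1 : a < b := by omega
        have h2 : ¬ a / 2 = b / 2 := by omega
        simp only [h, h1, h2, if_true, if_false]
        ring
      · by_cases h2 : a % 2 = 0
        · have h3 : a < b := by omega
          have h4 : ¬ a / 2 < b / 2 := by omega
          simp only [h, h2, h3, if_true, if_false, lt_irrefl, one_ne_zero, Nat.cast_one]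
          ring
        · have h3 : a = b := by omega
          have h2' : ¬ b % 2 = 0 := by omega
          simp only [h3, h2', if_true, if_false, lt_irrefl, one_ne_zero, Nat.cast_one]
          ring
      · have h1 : ¬ a < b := by omega
        have h2 : ¬ a = b := by omega
        have h3 : ¬ a / 2 < b / 2 := by omega
        have h4 : ¬ a / 2 = b / 2 := by omega
        simp only [h1, h2, h3, h4, if_false]
        ring

theorem uu_nonneg (v : Om → ℕ) (e σ : ℕ) (w : Om) : 0 ≤ uu v e σ w := by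
  unfold uu
  split_ifs <;> positivity

theorem uu_le_one (v : Om → ℕ) (e σ : ℕ) (w : Om) : uu v e σ w ≤ 1 := by
  unfold uu
  split_ifs
  · exact le_refl _
  · rw [div_le_one (by positivity)]
    exact_mod_cast (Nat.mod_lt _ (Nat.two_pow_pos σ)).le
  · norm_num

/-- discrepancy of an initial segment -/
def ff (P : FP Om) (L : Om → ι) (v : Om → ℕ) (e σ : ℕ) (w : Om) : ℝ :=
  P.ce (XC L v σ) (fun u => ind (v u < e)) w - uu v e σ w

theorem ff_fac (P : FP Om) (L : Om → ι) (v : Om → ℕ) (e σ : ℕ) : Fac (XC L v σ) (ff P L v e σ) := by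
  unfold ff
  refine (P.ce_fac _ _).sub ?_
  intro x y h
  unfold XC at h
  rw [Prod.mk.injEq] at h
  unfold uu
  rw [h.2]

theorem ff_abs_le (P : FP Om) (L : Om → ι) (v : Om → ℕ) (e σ : ℕ) {w : Om} (hw : P.p w ≠ 0) :
    |ff P L v e σ w| ≤ 1 := by
  have h1 : 0 ≤ P.ce (XC L v σ) (fun u => ind (v u < e)) w := P.ce_nonneg (fun u _ => ind_nonneg _) w
  have h2 : P.ce (XC L v σ) (fun u => ind (v u < e)) w ≤ 1 := P.ce_le_const (fun u _ => ind_le_one _) hw
  have h3 := uu_nonneg v e σ w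
  have h4 := uu_le_one v e σ w
  unfold ff
  rw [abs_le]
  constructor <;> linarith

/-- outside the cell of the end point the discrepancy vanishes -/
theorem ff_eq_zero (P : FP Om) (L : Om → ι) (v : Om → ℕ) (e σ : ℕ) {w : Om} (hw : P.p w ≠ 0)
    (h : v w / 2 ^ σ ≠ e / 2 ^ σ) : ff P L v e σ w = 0 := by
  have hF : Fac (XC L v σ) (fun u => ind (v u / 2 ^ σ < e / 2 ^ σ)) := by
    refine Fac.ind (fun x y hxy => ?_)
    unfold XC at hxy
    rw [Prod.mk.injEq] at hxy
    rw [hxy.2]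
  have key : P.ce (XC L v σ) (fun u => ind (v u < e)) w = ind (v w / 2 ^ σ < e / 2 ^ σ) := by
    have h1 : P.ce (XC L v σ) (fun u => ind (v u < e)) w =
        P.ce (XC L v σ) (fun u => ind (v u / 2 ^ σ < e / 2 ^ σ)) w := by
      unfold ce
      congr 1
      refine P.E_congr (fun u hu => ?_)
      by_cases hX : XC L v σ u = XC L v σ w
      · congr 1
        have h2 : v u / 2 ^ σ = v w / 2 ^ σ := by
          unfold XC at hX
          exact (Prod.mk.injEq _ _ _ _ ▸ hX).2
        have h3 : (v u < e) ↔ (v u / 2 ^ σ < e / 2 ^ σ) := by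
          constructor
          · intro h4
            have h5 := Nat.div_le_div_right (c := 2 ^ σ) h4.le
            rw [h2] at h5 ⊢
            omega
          · intro h4
            by_contra h5
            have h6 := Nat.div_le_div_right (c := 2 ^ σ) (not_lt.mp h5)
            omega
        show ind (v u < e) = ind (v u / 2 ^ σ < e / 2 ^ σ)
        by_cases h7 : v u < e
        · rw [ind_of h7, ind_of (h3.mp h7)]
        · rw [ind_not h7, ind_not (fun h8 => h7 (h3.mpr h8))]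
      · rw [ind_not hX]
        ring
    rw [h1, P.ce_of_fac hF hw]
  unfold ff
  rw [key]
  unfold uu
  by_cases h1 : v w / 2 ^ σ < e / 2 ^ σ
  · rw [if_pos h1, ind_of h1]; ring
  · rw [if_neg h1, if_neg h, ind_not h1]; ring

/-- one step -/
theorem ff_step (P : FP Om) (L : Om → ι) (v : Om → ℕ) (e σ : ℕ) {w : Om} (hw : P.p w ≠ 0) :
    ff P L v e (σ + 1) w ^ 2 ≤ 4 * bb P L v σ w ^ 2 +
      7 / 8 * P.ce (XC L v (σ + 1)) (fun u => ff P L v e σ u ^ 2) w := by
  set X := XC L v (σ + 1) with hX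
  have hce0 : 0 ≤ P.ce X (fun u => ff P L v e σ u ^ 2) w := P.ce_nonneg (fun u _ => sq_nonneg _) w
  by_cases hcell : v w / 2 ^ (σ + 1) = e / 2 ^ (σ + 1)
  swap
  · rw [ff_eq_zero P L v e (σ + 1) hw hcell]
    have := sq_nonneg (bb P L v σ w)
    nlinarith
  obtain ⟨r, hrF, hr, hrs⟩ := uu_step v e σ
  have hrX : Fac X r := by
    refine Fac.trans ?_ hrF
    intro x y h
    rw [hX] at h
    unfold XC at h
    exact (Prod.mk.injEq _ _ _ _ ▸ h).2
  set b := bb P L v σ w with hb
  have hbdef : P.ce X (pb v σ) w = b := rfl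
  -- martingale identity
  have hid : ff P L v e (σ + 1) w = P.ce X (ff P L v e σ) w + r w * b := by
    have e1 : P.ce X (ff P L v e σ) w = P.ce X (P.ce (XC L v σ) (fun u => ind (v u < e))) w -
        P.ce X (uu v e σ) w := by
      rw [← P.ce_sub]
      rfl
    have e2 : P.ce X (uu v e σ) w = uu v e (σ + 1) w + r w * b := by
      have e3 : (uu v e σ) = fun u => uu v e (σ + 1) u + r u * pb v σ u := by
        funext u
        rw [hrs u]
        ring
      have hU : Fac X (uu v e (σ + 1)) := by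
        intro x y h
        rw [hX] at h
        unfold XC at h
        have h2 := (Prod.mk.injEq _ _ _ _ ▸ h).2
        unfold uu
        rw [h2]
      rw [e3, P.ce_add, P.ce_mul hrX, P.ce_of_fac hU hw, hbdef]
    rw [e1, e2, P.ce_tower (XC_fac_succ L v σ)]
    unfold ff
    ring
  have hb1 : |b| ≤ 1 := P.abs_ce_le_one (fun u _ => by
    rcases pb_cases v σ u with h | h <;> rw [h] <;> norm_num) X w
  by_cases hbig : 1 / 2 < |b|
  · have h1 := ff_abs_le P L v e (σ + 1) hw
    have h2 : ff P L v e (σ + 1) w ^ 2 ≤ 1 := by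
      have := (sq_le_one_iff_abs_le_one _).mpr h1
      exact this
    have h3 : 1 ≤ 4 * b ^ 2 := by
      have : (1 / 2) ^ 2 < |b| ^ 2 := by
        apply pow_lt_pow_left₀ hbig (by norm_num) (by norm_num)
      rw [sq_abs] at this
      linarith
    linarith
  have hb2 : |b| ≤ 1 / 2 := not_lt.mp hbig
  -- Cauchy-Schwarz with the indicator of the child cell which contains `e`
  set g : Om → ℝ := fun u => ind (v u / 2 ^ σ = e / 2 ^ σ) with hg
  have hg0 : ∀ u, 0 ≤ g u := fun u => ind_nonneg _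
  have hcs : P.ce X (ff P L v e σ) w ^ 2 ≤ P.ce X g w * P.ce X (fun u => ff P L v e σ u ^ 2) w := by
    have h1 := P.ce_mul_sq_le X g (ff P L v e σ) w
    have h2 : P.ce X (fun u => g u * ff P L v e σ u) w = P.ce X (ff P L v e σ) w := by
      refine P.ce_congr (fun u hu => ?_) w
      by_cases h3 : v u / 2 ^ σ = e / 2 ^ σ
      · rw [hg]; simp only; rw [ind_of h3, one_mul]
      · rw [ff_eq_zero P L v e σ hu h3, mul_zero]
    have h4 : P.ce X (fun u => g u ^ 2) w = P.ce X g w := by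
      refine P.ce_congr (fun u _ => ?_) w
      rw [hg]
      simp only
      by_cases h3 : v u / 2 ^ σ = e / 2 ^ σ
      · rw [ind_of h3]; norm_num
      · rw [ind_not h3]; norm_num
    rw [h2, h4] at h1
    exact h1
  have hp : P.ce X g w ≤ 3 / 4 := by
    -- `g = (1 ± D)/2` on the cell
    set sg : ℝ := if e / 2 ^ σ % 2 = 0 then 1 else -1 with hsg
    have h1 : P.ce X g w = (1 + sg * b) / 2 := by
      have h2 : P.ce X g w = P.ce X (fun u => (1 : ℝ) / 2 + sg / 2 * pb v σ u) w := by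
        unfold ce
        congr 1
        refine P.E_congr (fun u _ => ?_)
        by_cases hXu : X u = X w
        · congr 1
          have h3 : v u / 2 ^ (σ + 1) = e / 2 ^ (σ + 1) := by
            rw [← hcell]
            rw [hX] at hXu
            unfold XC at hXu
            exact (Prod.mk.injEq _ _ _ _ ▸ hXu).2
          rw [pow_succ, ← Nat.div_div_eq_div_mul, ← Nat.div_div_eq_div_mul] at h3
          rw [hg, hsg]
          simp only
          unfold pb
          by_cases h4 : v u / 2 ^ σ = e / 2 ^ σ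
          · rw [ind_of h4, h4]
            split_ifs <;> norm_num
          · rw [ind_not h4]
            by_cases h5 : e / 2 ^ σ % 2 = 0
            · rw [if_pos h5, if_neg (by omega)]; norm_num
            · rw [if_neg h5, if_pos (by omega)]; norm_num
        · rw [ind_not hXu]; ring
      rw [h2, P.ce_add, P.ce_const X _ hw, P.ce_smul, hbdef]
      ring
    rw [h1]
    have h5 : sg * b ≤ |b| := by
      rw [hsg]
      split_ifs
      · rw [one_mul]; exact le_abs_self b
      · have := neg_abs_le b; linarith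
    linarith
  have hF2 : P.ce X (ff P L v e σ) w ^ 2 ≤ 3 / 4 * P.ce X (fun u => ff P L v e σ u ^ 2) w :=
    hcs.trans (mul_le_mul_of_nonneg_right hp hce0)
  rw [hid]
  have hrb : (r w * b) ^ 2 ≤ b ^ 2 / 4 := by
    have h1 := hr w
    have h2 : r w ^ 2 ≤ 1 / 4 := by nlinarith [h1.1, h1.2]
    rw [mul_pow]
    nlinarith [sq_nonneg b]
  nlinarith [sq_nonneg (P.ce X (ff P L v e σ) w - 6 * (r w * b)), sq_nonneg b]

/-- DISCREPANCY OF INITIAL SEGMENTS: at most `GG`, for all end points at once -/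
theorem pre_sq_le (P : FP Om) (L : Om → ι) (v : Om → ℕ) (e τ : ℕ) : ∀ w, P.p w ≠ 0 →
    ff P L v e τ w ^ 2 ≤ GG P L v τ w := by
  induction τ with
  | zero =>
    intro w hw
    have h1 : ff P L v e 0 w = 0 := by
      by_cases h : v w / 2 ^ 0 = e / 2 ^ 0
      · have hF : Fac (XC L v 0) (fun u => ind (v u < e)) := by
          refine Fac.ind (fun x y hxy => ?_)
          unfold XC at hxy
          rw [Prod.mk.injEq, pow_zero, Nat.div_one, Nat.div_one] at hxy
          rw [hxy.2]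
        unfold ff
        rw [P.ce_of_fac hF hw]
        unfold uu
        rw [pow_zero, Nat.div_one, Nat.div_one] at *
        rw [if_neg (by omega), if_pos h, ind_not (by omega), Nat.mod_one]
        simp
      · exact ff_eq_zero P L v e 0 hw h
    rw [h1]
    simp only [ne_eq, OfNat.ofNat_ne_zero, not_false_eq_true, zero_pow]
    exact GG_nonneg P L v 0 w
  | succ σ ih =>
    intro w hw
    rw [GG_succ P L v σ hw]
    refine (ff_step P L v e σ hw).trans ?_
    have h := P.ce_mono (X := XC L v (σ + 1)) (f := fun u => ff P L v e σ u ^ 2) (g := GG P L v σ) ih w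
    linarith

theorem pre_abs_le (P : FP Om) (L : Om → ι) (v : Om → ℕ) (e τ : ℕ) {w : Om} (hw : P.p w ≠ 0) :
    |ff P L v e τ w| ≤ Real.sqrt (GG P L v τ w) :=
  Real.abs_le_sqrt (pre_sq_le P L v e τ w hw)

/-- KOKSMA: a function of bounded variation of the position -/
theorem koksma (P : FP Om) (L : Om → ι) (v : Om → ℕ) (τ : ℕ) (φ : ℕ → ℝ) {w : Om} (hw : P.p w ≠ 0) :
    |P.ce (XC L v τ) (fun u => φ (v u)) w -
        ((2 : ℝ) ^ τ)⁻¹ * ∑ i ∈ range (2 ^ τ), φ (v w / 2 ^ τ * 2 ^ τ + i)| ≤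
      (∑ i ∈ range (2 ^ τ - 1), |φ (v w / 2 ^ τ * 2 ^ τ + i + 1) - φ (v w / 2 ^ τ * 2 ^ τ + i)|) *
        Real.sqrt (GG P L v τ w) := by
  set c : ℕ := v w / 2 ^ τ * 2 ^ τ with hc
  set n : ℕ := 2 ^ τ - 1 with hn
  have hn1 : 2 ^ τ = n + 1 := by
    have := Nat.two_pow_pos τ
    omega
  -- Abel summation
  have habel : ∀ i ≤ n, φ (c + i) = φ (c + n) - ∑ j ∈ range n, (φ (c + j + 1) - φ (c + j)) * ind (i < j + 1) := by
    intro i hi
    have h1 : ∑ j ∈ range n, (φ (c + j + 1) - φ (c + j)) * ind (i < j + 1) =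
        ∑ j ∈ Ico i n, (φ (c + j + 1) - φ (c + j)) := by
      rw [← Finset.sum_subset (s₁ := Ico i n) (s₂ := range n)]
      · refine Finset.sum_congr rfl (fun j hj => ?_)
        rw [Finset.mem_Ico] at hj
        rw [ind_of (by omega), mul_one]
      · intro j hj
        rw [Finset.mem_Ico] at hj
        exact Finset.mem_range.mpr hj.2
      · intro j hj hj'
        rw [Finset.mem_range] at hj
        rw [Finset.mem_Ico] at hj'
        rw [ind_not (by omega), mul_zero]
    rw [h1]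
    have h2 := Finset.sum_Ico_consecutive (fun j => φ (c + j + 1) - φ (c + j)) (Nat.zero_le i) hi
    have h3 : ∀ m : ℕ, ∑ j ∈ Ico 0 m, (φ (c + j + 1) - φ (c + j)) = φ (c + m) - φ c := by
      intro m
      rw [← Finset.range_eq_Ico]
      have h4 := Finset.sum_range_sub (fun j => φ (c + j)) m
      simp only [Nat.add_zero] at h4
      rw [← h4]
      refine Finset.sum_congr rfl (fun j _ => ?_)
      rw [Nat.add_assoc]
    rw [h3, h3] at h2
    linarith
  have hvw : ∀ u, XC L v τ u = XC L v τ w → v u = c + v u % 2 ^ τ ∧ v u % 2 ^ τ ≤ n := by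
    intro u hu
    unfold XC at hu
    have h1 := (Prod.mk.injEq _ _ _ _ ▸ hu).2
    refine ⟨?_, ?_⟩
    · rw [hc, ← h1]
      exact (Nat.div_add_mod' _ _).symm
    · have := Nat.mod_lt (v u) (Nat.two_pow_pos τ)
      omega
  have hL : P.ce (XC L v τ) (fun u => φ (v u)) w = φ (c + n) -
      ∑ j ∈ range n, (φ (c + j + 1) - φ (c + j)) * P.ce (XC L v τ) (fun u => ind (v u < c + j + 1)) w := by
    have h1 : P.ce (XC L v τ) (fun u => φ (v u)) w = P.ce (XC L v τ) (fun u => φ (c + n) -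
        ∑ j ∈ range n, (φ (c + j + 1) - φ (c + j)) * ind (v u < c + j + 1)) w := by
      unfold ce
      congr 1
      refine P.E_congr (fun u _ => ?_)
      by_cases hX : XC L v τ u = XC L v τ w
      · congr 1
        obtain ⟨h2, h3⟩ := hvw u hX
        have h4 := habel (v u % 2 ^ τ) h3
        rw [← h2] at h4
        show φ (v u) = φ (c + n) - ∑ j ∈ range n, (φ (c + j + 1) - φ (c + j)) * ind (v u < c + j + 1)
        rw [h4]
        congr 1
        refine Finset.sum_congr rfl (fun j _ => ?_)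
        congr 1
        by_cases h5 : v u % 2 ^ τ < j + 1
        · rw [ind_of h5, ind_of (by omega)]
        · rw [ind_not h5, ind_not (by omega)]
      · rw [ind_not hX]; ring
    rw [h1, P.ce_sub, P.ce_const _ _ hw]
    congr 1
    have h6 := P.ce_sum (XC L v τ) (range n) (fun j u => (φ (c + j + 1) - φ (c + j)) * ind (v u < c + j + 1)) w
    rw [h6]
    refine Finset.sum_congr rfl (fun j _ => ?_)
    rw [P.ce_smul]
  have hU : ((2 : ℝ) ^ τ)⁻¹ * ∑ i ∈ range (2 ^ τ), φ (c + i) = φ (c + n) -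
      ∑ j ∈ range n, (φ (c + j + 1) - φ (c + j)) * (((j + 1 : ℕ) : ℝ) / 2 ^ τ) := by
    have h1 : ∑ i ∈ range (2 ^ τ), φ (c + i) = ∑ i ∈ range (2 ^ τ), (φ (c + n) -
        ∑ j ∈ range n, (φ (c + j + 1) - φ (c + j)) * ind (i < j + 1)) := by
      refine Finset.sum_congr rfl (fun i hi => ?_)
      rw [Finset.mem_range] at hi
      exact habel i (by omega)
    rw [h1, Finset.sum_sub_distrib, Finset.sum_const, Finset.card_range, nsmul_eq_mul, Finset.sum_comm]
    have h2 : ∀ j ∈ range n, ∑ i ∈ range (2 ^ τ), (φ (c + j + 1) - φ (c + j)) * ind (i < j + 1) =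
        (φ (c + j + 1) - φ (c + j)) * ((j + 1 : ℕ) : ℝ) := by
      intro j hj
      rw [Finset.mem_range] at hj
      rw [← Finset.mul_sum]
      congr 1
      have h3 : ∑ i ∈ range (2 ^ τ), ind (i < j + 1) = ∑ i ∈ range (j + 1), (1 : ℝ) := by
        rw [← Finset.sum_subset (s₁ := range (j + 1)) (s₂ := range (2 ^ τ))]
        · refine Finset.sum_congr rfl (fun i hi => ?_)
          rw [Finset.mem_range] at hi
          rw [ind_of hi]
        · intro i hi
          rw [Finset.mem_range] at hi ⊢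
          omega
        · intro i _ hi
          rw [Finset.mem_range] at hi
          rw [ind_not hi]
      rw [h3]
      simp
    rw [Finset.sum_congr rfl h2]
    have h4 : (2 : ℝ) ^ τ ≠ 0 := by positivity
    push_cast
    rw [mul_sub, ← mul_assoc, inv_mul_cancel₀ h4, one_mul, Finset.mul_sum]
    congr 1
    refine Finset.sum_congr rfl (fun j _ => ?_)
    field_simp
  rw [hL, hU]
  have h5 : φ (c + n) - ∑ j ∈ range n, (φ (c + j + 1) - φ (c + j)) *
      P.ce (XC L v τ) (fun u => ind (v u < c + j + 1)) w -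
      (φ (c + n) - ∑ j ∈ range n, (φ (c + j + 1) - φ (c + j)) * (((j + 1 : ℕ) : ℝ) / 2 ^ τ)) =
      - ∑ j ∈ range n, (φ (c + j + 1) - φ (c + j)) * ff P L v (c + j + 1) τ w := by
    have h6 : ∀ j ∈ range n, (φ (c + j + 1) - φ (c + j)) * ff P L v (c + j + 1) τ w =
        (φ (c + j + 1) - φ (c + j)) * P.ce (XC L v τ) (fun u => ind (v u < c + j + 1)) w -
        (φ (c + j + 1) - φ (c + j)) * (((j + 1 : ℕ) : ℝ) / 2 ^ τ) := by
      intro j hj
      rw [Finset.mem_range] at hj
      have h7 : (c + j + 1) / 2 ^ τ = v w / 2 ^ τ := by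
        rw [hc, Nat.add_assoc, Nat.add_comm, Nat.add_mul_div_right _ _ (Nat.two_pow_pos τ),
          Nat.div_eq_of_lt (by omega), Nat.zero_add]
      have h8 : (c + j + 1) % 2 ^ τ = j + 1 := by
        rw [hc, Nat.add_assoc, Nat.add_comm, Nat.add_mul_mod_self_right, Nat.mod_eq_of_lt (by omega)]
      unfold ff uu
      rw [h7, h8, if_neg (lt_irrefl _), if_pos rfl]
      ring
    rw [Finset.sum_congr rfl h6, Finset.sum_sub_distrib]
    ring
  rw [h5, abs_neg]
  refine (Finset.abs_sum_le_sum_abs _ _).trans ?_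
  rw [Finset.sum_mul]
  refine Finset.sum_le_sum (fun j _ => ?_)
  rw [abs_mul]
  exact mul_le_mul_of_nonneg_left (pre_abs_le P L v _ τ hw) (abs_nonneg _)

/-! ## entropies: Lemma D -/

section entropy

variable {κ : Type*}

/-- entropy of the class given the path and the cell of exponent `σ` -/
def rr (P : FP Om) (N : Om → κ) (L : Om → ι) (v : Om → ℕ) (σ : ℕ) : ℝ := P.Hc L (fun w => (N w, v w / 2 ^ σ))

theorem E_GG (P : FP Om) (L : Om → ι) (v : Om → ℕ) (τ : ℕ) :
    P.E (GG P L v τ) = ∑ j ∈ range τ, (7 / 8 : ℝ) ^ j * (4 * P.E (fun u => bb P L v (τ - 1 - j) u ^ 2)) := by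
  have e1 : (GG P L v τ) = fun u => ∑ j ∈ range τ, (fun j u => (7 / 8 : ℝ) ^ j *
      (4 * P.ce (XC L v τ) (fun u => bb P L v (τ - 1 - j) u ^ 2) u)) j u := rfl
  rw [e1, P.E_sum]
  refine Finset.sum_congr rfl (fun j _ => ?_)
  rw [P.E_smul, P.E_smul, P.E_ce]

/-- the energy of the bias of one bit is at most twice the information -/
theorem E_bb_le (P : FP Om) (N : Om → κ) (L : Om → ι) (v : Om → ℕ) (σ : ℕ)
    (hfair : ∀ w, P.p w ≠ 0 → P.ce (fun w => (N w, v w / 2 ^ (σ + 1))) (pb v σ) w = 0) :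
    P.E (fun u => bb P (fun w => (N w, L w)) v σ u ^ 2) ≤ 2 * (rr P N L v (σ + 1) - rr P N L v σ) := by
  have h := P.I_digit_ge (D := pb v σ) (fun w _ => pb_cases v σ w) L (fun w => (N w, v w / 2 ^ (σ + 1)))
  have h1 : P.E (fun w => (P.ce (fun u => (L u, (fun w => (N w, v w / 2 ^ (σ + 1))) u)) (pb v σ) w -
      P.ce (fun w => (N w, v w / 2 ^ (σ + 1))) (pb v σ) w) ^ 2) =
      P.E (fun u => bb P (fun w => (N w, L w)) v σ u ^ 2) := by
    refine P.E_congr (fun w hw => ?_)
    rw [hfair w hw, sub_zero]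
    unfold bb
    congr 1
    refine P.ce_congr_map ?_ ?_ _ w
    · intro x y hxy
      unfold XC
      simp only [Prod.mk.injEq] at hxy ⊢
      tauto
    · intro x y hxy
      unfold XC at hxy
      simp only [Prod.mk.injEq] at hxy ⊢
      tauto
  rw [h1] at h
  refine h.trans (le_of_eq ?_)
  congr 1
  rw [P.I_eq_Hc']
  unfold rr
  congr 1
  refine P.Hc_congr (Fac.fst _ _) ?_ (Fac.fst _ _) ?_
  · intro x y hxy
    simp only [Prod.mk.injEq] at hxy ⊢
    obtain ⟨h2, h3, h4⟩ := hxy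
    refine ⟨h3, ?_⟩
    rw [pow_succ, ← Nat.div_div_eq_div_mul, ← Nat.div_div_eq_div_mul] at h4
    unfold pb at h2
    by_cases h5 : v x / 2 ^ σ % 2 = 0
    · by_cases h6 : v y / 2 ^ σ % 2 = 0
      · omega
      · rw [if_pos h5, if_neg h6] at h2
        norm_num at h2
    · by_cases h6 : v y / 2 ^ σ % 2 = 0
      · rw [if_neg h5, if_pos h6] at h2
        norm_num at h2
      · omega
  · intro x y hxy
    simp only [Prod.mk.injEq] at hxy ⊢
    obtain ⟨h3, h4⟩ := hxy
    refine ⟨?_, h3, ?_⟩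
    · unfold pb
      rw [h4]
    · rw [pow_succ, ← Nat.div_div_eq_div_mul, ← Nat.div_div_eq_div_mul, h4]

theorem rr_nonneg (P : FP Om) (N : Om → κ) (L : Om → ι) (v : Om → ℕ) (σ : ℕ) : 0 ≤ rr P N L v σ := P.Hc_nonneg _ _

theorem cell_fac (N : Om → κ) (v : Om → ℕ) {σ τ : ℕ} (h : σ ≤ τ) :
    Fac (fun w => (N w, v w / 2 ^ σ)) (fun w => (N w, v w / 2 ^ τ)) := by
  intro x y hxy
  simp only [Prod.mk.injEq] at hxy ⊢
  refine ⟨hxy.1, ?_⟩
  obtain ⟨d, rfl⟩ := Nat.exists_eq_add_of_le h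
  rw [pow_add, ← Nat.div_div_eq_div_mul, ← Nat.div_div_eq_div_mul, hxy.2]

theorem rr_mono (P : FP Om) (N : Om → κ) (L : Om → ι) (v : Om → ℕ) {σ τ : ℕ} (h : σ ≤ τ) :
    rr P N L v σ ≤ rr P N L v τ := P.Hc_anti L (cell_fac N v h)

theorem E_GG_le (P : FP Om) (N : Om → κ) (L : Om → ι) (v : Om → ℕ) (τ : ℕ)
    (hfair : ∀ σ < τ, ∀ w, P.p w ≠ 0 → P.ce (fun w => (N w, v w / 2 ^ (σ + 1))) (pb v σ) w = 0) :
    P.E (GG P (fun w => (N w, L w)) v τ) ≤
      8 * ∑ j ∈ range τ, (7 / 8 : ℝ) ^ j * (rr P N L v (τ - j) - rr P N L v (τ - 1 - j)) := by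
  rw [E_GG, Finset.mul_sum]
  refine Finset.sum_le_sum (fun j hj => ?_)
  rw [Finset.mem_range] at hj
  have h := E_bb_le P N L v (τ - 1 - j) (hfair _ (by omega))
  have e1 : τ - 1 - j + 1 = τ - j := by omega
  rw [e1] at h
  have h2 : (0 : ℝ) ≤ (7 / 8 : ℝ) ^ j := by positivity
  nlinarith [mul_le_mul_of_nonneg_left h h2]

/-- LEMMA D.  `L τ` = class at the level with cells of exponent `τ` (time runs from `K` down to `0`), refined in time;
`N` = path; the bits of the position are fair given the path. -/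
theorem sum_GG_le (P : FP Om) (N : Om → κ) (L : ℕ → Om → ι) (v : Om → ℕ) (K : ℕ)
    (hfair : ∀ σ < K, ∀ w, P.p w ≠ 0 → P.ce (fun w => (N w, v w / 2 ^ (σ + 1))) (pb v σ) w = 0)
    (hL : ∀ τ < K, Fac (fun w => (N w, L τ w)) (L (τ + 1))) :
    ∑ τ ∈ range (K + 1), P.E (GG P (fun w => (N w, L τ w)) v τ) ≤
      64 * (rr P N (L K) v K +
        ∑ τ ∈ range K, P.Hc (L τ) (fun w => ((N w, L (τ + 1) w), v w / 2 ^ τ))) := by
  set S : ℝ := rr P N (L K) v K + ∑ τ ∈ range K, P.Hc (L τ) (fun w => ((N w, L (τ + 1) w), v w / 2 ^ τ)) with hS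
  -- refinement
  have hstep : ∀ τ < K, ∀ σ ≤ τ, rr P N (L τ) v σ ≤ rr P N (L (τ + 1)) v σ +
      P.Hc (L τ) (fun w => ((N w, L (τ + 1) w), v w / 2 ^ τ)) := by
    intro τ hτ σ hσ
    unfold rr
    have h1 : P.Hc (L τ) (fun w => (N w, v w / 2 ^ σ)) =
        P.Hc (fun w => (L τ w, L (τ + 1) w)) (fun w => (N w, v w / 2 ^ σ)) := by
      refine P.Hc_congr ?_ (Fac.refl _) ?_ (Fac.refl _)
      · intro x y hxy
        simp only [Prod.mk.injEq] at hxy ⊢
        exact ⟨hxy.1, hL τ hτ x y (by simp only [Prod.mk.injEq]; exact ⟨hxy.2.1, hxy.1⟩)⟩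
      · intro x y hxy
        simp only [Prod.mk.injEq] at hxy
        exact hxy.1.1
    rw [h1, P.Hc_chain]
    have h2 : P.Hc (L τ) (fun w => (L (τ + 1) w, (fun w => (N w, v w / 2 ^ σ)) w)) ≤
        P.Hc (L τ) (fun w => ((N w, L (τ + 1) w), v w / 2 ^ τ)) := by
      refine P.Hc_anti _ ?_
      intro x y hxy
      simp only [Prod.mk.injEq] at hxy ⊢
      have h3 := cell_fac N v hσ x y (by simp only [Prod.mk.injEq]; exact hxy.2)
      simp only [Prod.mk.injEq] at h3
      exact ⟨⟨h3.1, hxy.1⟩, h3.2⟩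
    linarith
  -- one offset
  have hoff : ∀ j < K, ∑ τ ∈ Ico (j + 1) (K + 1), (rr P N (L τ) v (τ - j) - rr P N (L τ) v (τ - 1 - j)) ≤ S := by
    intro j hj
    have h1 : ∀ n, j ≤ n → n ≤ K →
        ∑ τ ∈ Ico (j + 1) (n + 1), (rr P N (L τ) v (τ - j) - rr P N (L τ) v (τ - 1 - j)) ≤
          rr P N (L n) v (n - j) + ∑ τ ∈ range n, P.Hc (L τ) (fun w => ((N w, L (τ + 1) w), v w / 2 ^ τ)) := by
      intro n hjn
      induction n, hjn using Nat.le_induction with
      | base =>
        intro _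
        rw [Finset.Ico_self, Finset.sum_empty]
        have h2 := rr_nonneg P N (L j) v (j - j)
        have h3 : 0 ≤ ∑ τ ∈ range j, P.Hc (L τ) (fun w => ((N w, L (τ + 1) w), v w / 2 ^ τ)) :=
          Finset.sum_nonneg (fun τ _ => P.Hc_nonneg _ _)
        linarith
      | succ n hjn ih =>
        intro hnK
        have h2 := ih (by omega)
        rw [Finset.sum_Ico_succ_top (by omega), Finset.sum_range_succ]
        have h3 := hstep n (by omega) (n - j) (by omega)
        have e1 : n + 1 - 1 - j = n - j := by omega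
        rw [e1]
        linarith
    refine (h1 K hj.le le_rfl).trans ?_
    have h2 := rr_mono P N (L K) v (σ := K - j) (τ := K) (by omega)
    rw [hS]
    linarith
  have hgeo : ∑ j ∈ range K, (7 / 8 : ℝ) ^ j ≤ 8 := by
    rw [geom_sum_eq (by norm_num)]
    have h1 : (0 : ℝ) ≤ (7 / 8 : ℝ) ^ K := by positivity
    rw [div_le_iff_of_neg (by norm_num)]
    linarith
  have hS0 : 0 ≤ S := by
    have h2 := rr_nonneg P N (L K) v K
    have h3 : 0 ≤ ∑ τ ∈ range K, P.Hc (L τ) (fun w => ((N w, L (τ + 1) w), v w / 2 ^ τ)) :=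
      Finset.sum_nonneg (fun τ _ => P.Hc_nonneg _ _)
    rw [hS]; linarith
  calc ∑ τ ∈ range (K + 1), P.E (GG P (fun w => (N w, L τ w)) v τ)
      ≤ ∑ τ ∈ range (K + 1), 8 * ∑ j ∈ range τ, (7 / 8 : ℝ) ^ j *
          (rr P N (L τ) v (τ - j) - rr P N (L τ) v (τ - 1 - j)) := by
        refine Finset.sum_le_sum (fun τ hτ => ?_)
        rw [Finset.mem_range] at hτ
        exact E_GG_le P N (L τ) v τ (fun σ hσ => hfair σ (by omega))
    _ = 8 * ∑ j ∈ range K, ∑ τ ∈ Ico (j + 1) (K + 1), (7 / 8 : ℝ) ^ j *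
          (rr P N (L τ) v (τ - j) - rr P N (L τ) v (τ - 1 - j)) := by
        rw [← Finset.mul_sum]
        congr 1
        refine Finset.sum_comm' (fun τ j => ?_)
        simp only [Finset.mem_range, Finset.mem_Ico]
        omega
    _ ≤ 8 * ∑ j ∈ range K, (7 / 8 : ℝ) ^ j * S := by
        refine mul_le_mul_of_nonneg_left (Finset.sum_le_sum (fun j hj => ?_)) (by norm_num)
        rw [← Finset.mul_sum]
        rw [Finset.mem_range] at hj
        exact mul_le_mul_of_nonneg_left (hoff j hj) (by positivity)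
    _ ≤ 64 * S := by
        rw [← Finset.sum_mul]
        nlinarith

end entropy

/-! ## full path or current node -/

theorem num_pair (P : FP Om) {κ β : Type*} (Q : Om → κ) (χ : Om → β) (f : Om → ℝ) (w : Om) :
    P.E (fun v => ind ((Q v, χ v) = (Q w, χ w)) * f v) = P.E (fun v => ind (χ v = χ w) * (ind (Q v = Q w) * f v)) := by
  refine P.E_congr (fun v _ => ?_)
  rw [Prod.mk.injEq, ind_and]
  ring

theorem m_pair (P : FP Om) {κ β : Type*} (Q : Om → κ) (χ : Om → β) (w : Om) :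
    P.m (fun v => (Q v, χ v)) w = P.E (fun v => ind (χ v = χ w) * ind (Q v = Q w)) := by
  unfold FP.m
  refine P.E_congr (fun v _ => ?_)
  rw [Prod.mk.injEq, ind_and]
  ring

/-- conditional expectations of functions of (`X`, node) given (`K`, full path) or (`K`, node) agree -/
theorem ce_node (P : FP Om) {κ ι₁ ι₂ ι₃ ι₄ : Type*} {X : Om → κ} {Y : Om → ι₁} (h : P.Indep X Y) {φ : Om → ι₂}
    {ψ : Om → ι₃} (hψ : Fac Y ψ) (hφ : Fac ψ φ) {Q : Om → ι₄} (hQ : Fac (fun w => (X w, φ w)) Q) {f : Om → ℝ}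
    (hf : Fac (fun w => (X w, φ w)) f) {w : Om} (hw : P.p w ≠ 0) :
    P.ce (fun v => (Q v, ψ v)) f w = P.ce (fun v => (Q v, φ v)) f w := by
  have key : ∀ g : Om → ℝ, Fac (fun w => (X w, φ w)) g →
      P.E (fun v => ind (ψ v = ψ w) * g v) / P.m ψ w = P.E (fun v => ind (φ v = φ w) * g v) / P.m φ w := by
    intro g hg
    have h1 := P.ce_indep_eq h (ζ := fun _ => ()) (Fac.const X ()) hψ hφ hg hw
    have h2 : P.ce (fun v => ((), ψ v)) g w = P.ce ψ g w :=
      P.ce_congr_map (Fac.snd _ _) ((Fac.const ψ ()).prod (Fac.refl ψ)) g w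
    have h3 : P.ce (fun v => ((), φ v)) g w = P.ce φ g w :=
      P.ce_congr_map (Fac.snd _ _) ((Fac.const φ ()).prod (Fac.refl φ)) g w
    rw [h2, h3] at h1
    exact h1
  have hind : Fac (fun w => (X w, φ w)) (fun v => ind (Q v = Q w)) :=
    Fac.ind (fun x y hxy => by rw [hQ x y hxy])
  have e1 := key (fun v => ind (Q v = Q w) * f v) (Fac.mul hind hf)
  have e2 := key (fun v => ind (Q v = Q w)) hind
  have m1 := (P.m_pos ψ hw).ne'
  have m2 := (P.m_pos φ hw).ne'
  have c1 : P.ce (fun v => (Q v, ψ v)) f w = P.E (fun v => ind (ψ v = ψ w) * (ind (Q v = Q w) * f v)) /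
      P.E (fun v => ind (ψ v = ψ w) * ind (Q v = Q w)) := by
    rw [← num_pair P Q ψ f w, ← m_pair P Q ψ w]
    rfl
  have c2 : P.ce (fun v => (Q v, φ v)) f w = P.E (fun v => ind (φ v = φ w) * (ind (Q v = Q w) * f v)) /
      P.E (fun v => ind (φ v = φ w) * ind (Q v = Q w)) := by
    rw [← num_pair P Q φ f w, ← m_pair P Q φ w]
    rfl
  rw [c1, c2]
  rw [div_eq_div_iff m1 m2] at e1 e2
  have p1 : P.E (fun v => ind (ψ v = ψ w) * ind (Q v = Q w)) ≠ 0 := by
    rw [← m_pair P Q ψ w]; exact (P.m_pos _ hw).ne'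
  have p2 : P.E (fun v => ind (φ v = φ w) * ind (Q v = Q w)) ≠ 0 := by
    rw [← m_pair P Q φ w]; exact (P.m_pos _ hw).ne'
  rw [div_eq_div_iff p1 p2]
  have e3 : P.E (fun v => ind (ψ v = ψ w) * (ind (Q v = Q w) * f v)) =
      P.E (fun v => ind (φ v = φ w) * (ind (Q v = Q w) * f v)) * P.m ψ w / P.m φ w := by
    rw [eq_div_iff m2]
    exact e1
  have e4 : P.E (fun v => ind (ψ v = ψ w) * ind (Q v = Q w)) =
      P.E (fun v => ind (φ v = φ w) * ind (Q v = Q w)) * P.m ψ w / P.m φ w := by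
    rw [eq_div_iff m2]
    exact e2
  rw [e3, e4]
  ring

theorem XC_pair {β : Type*} (χ : Om → β) (L : Om → ι) (v : Om → ℕ) (σ : ℕ) :
    Fac (XC (fun w => (χ w, L w)) v σ) (fun w => ((L w, v w / 2 ^ σ), χ w)) := by
  intro x y hxy
  unfold XC at hxy
  simp only [Prod.mk.injEq] at hxy ⊢
  tauto

theorem XC_pair' {β : Type*} (χ : Om → β) (L : Om → ι) (v : Om → ℕ) (σ : ℕ) :
    Fac (fun w => ((L w, v w / 2 ^ σ), χ w)) (XC (fun w => (χ w, L w)) v σ) := by
  intro x y hxy
  unfold XC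
  simp only [Prod.mk.injEq] at hxy ⊢
  tauto

/-- the irregularity given the full path `ψ` or the current node `φ` -/
theorem GG_node (P : FP Om) {κ ι₁ ι₂ ι₃ : Type*} {X : Om → κ} {Y : Om → ι₁} (h : P.Indep X Y) {φ : Om → ι₂}
    {ψ : Om → ι₃} (hψ : Fac Y ψ) (hφ : Fac ψ φ) {L : Om → ι} (hL : Fac (fun w => (X w, φ w)) L) {v : Om → ℕ}
    (hv : Fac X v) (τ : ℕ) {w : Om} (hw : P.p w ≠ 0) :
    GG P (fun w => (ψ w, L w)) v τ w = GG P (fun w => (φ w, L w)) v τ w := by
  have hv' : Fac (fun w => (X w, φ w)) v := (Fac.fst X φ).trans hv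
  have hQ : ∀ σ, Fac (fun w => (X w, φ w)) (fun w => (L w, v w / 2 ^ σ)) := by
    intro σ
    exact hL.prod (hv'.comp (fun x => x / 2 ^ σ))
  have hb : ∀ σ, ∀ u, P.p u ≠ 0 → bb P (fun w => (ψ w, L w)) v σ u = bb P (fun w => (φ w, L w)) v σ u := by
    intro σ u hu
    unfold bb
    rw [P.ce_congr_map (XC_pair ψ L v (σ + 1)) (XC_pair' ψ L v (σ + 1)),
      P.ce_congr_map (XC_pair φ L v (σ + 1)) (XC_pair' φ L v (σ + 1))]
    refine ce_node P h hψ hφ (hQ (σ + 1)) ?_ hu
    intro x y hxy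
    unfold pb
    rw [hv' x y hxy]
  have hbF : ∀ σ, Fac (fun w => (X w, φ w)) (bb P (fun w => (φ w, L w)) v σ) := by
    intro σ
    refine Fac.trans ?_ (P.ce_fac (XC (fun w => (φ w, L w)) v (σ + 1)) (pb v σ))
    unfold XC
    exact Fac.prod ((Fac.snd X φ).prod hL) (hv'.comp (fun x => x / 2 ^ (σ + 1)))
  unfold GG
  refine Finset.sum_congr rfl (fun j _ => ?_)
  congr 2
  rw [P.ce_congr (X := XC (fun w => (ψ w, L w)) v τ) (f := fun u => bb P (fun w => (ψ w, L w)) v (τ - 1 - j) u ^ 2)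
    (g := fun u => bb P (fun w => (φ w, L w)) v (τ - 1 - j) u ^ 2) (fun u hu => by rw [hb _ u hu])]
  rw [P.ce_congr_map (XC_pair ψ L v τ) (XC_pair' ψ L v τ), P.ce_congr_map (XC_pair φ L v τ) (XC_pair' φ L v τ)]
  exact ce_node P h hψ hφ (hQ τ) ((hbF _).comp (fun x => x ^ 2)) hw

end

end Pool.Agent.GMC
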