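import Pool.Agent.M3.KL
import Pool.Agent.GMC.Disc

/-!
# GMC/Hp: entropies and informations AT A POINT of a known variable (row C, C3.3; helper45)

`hp P X Z N w` = entropy of `X` given `Z` under the law given `N = N w` (a function of `N`; the potentials of rows C and L
use such values at the point `(x_1, .., x_k, Q_t)`); `ip P X Y Z N w = hp X Z N w - hp X (Y,Z) N w` = information at the point.

* `hp_eq_cond`, `ip_eq_cond` : entropy / information of the conditional law, so everything of FPInfo holds at every point;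
* `E_hp`, `E_ip` : the means are `Hc X (Z,N)`, `I X Y (Z,N)`;
* `ce_hp`, `ce_ip` (TOWER): `ce N (hp X Z K) = hp X (Z,K) N` if `N` is a function of `K` (one digit more, known to everybody);
* `hp_chain`, `hp_nonneg`, `hp_anti`, `hp_mono`, `hp_congr`, `ip_nonneg`, `ip_comm`, `ip_chain`, `ip_le_hp`, `ip_mono`;
* `hp_node` : an independent part of the known variable can be forgotten.
-/

set_option autoImplicit false
set_option linter.unusedSectionVars false

namespace Pool.Agent.GMC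

open Finset Pool.Agent.PWZ Pool.Agent.M3 Pool.Agent.M3.FP

noncomputable section

variable {Om : Type*} [Fintype Om] (P : FP Om)
variable {κ κ' ι ι' ι'' ν ν' : Type*}

/-- entropy of `X` given `Z` at the point `N w` of the known variable -/
def hp (X : Om → κ) (Z : Om → ι) (N : Om → ν) (w : Om) : ℝ :=
  P.ce N (fun v => - Real.log (P.m (fun u => (X u, Z u, N u)) v / P.m (fun u => (Z u, N u)) v)) w

/-- information of `X` and `Y` given `Z` at the point `N w` -/
def ip (X : Om → κ) (Y : Om → κ') (Z : Om → ι) (N : Om → ν) (w : Om) : ℝ :=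
  hp P X Z N w - hp P X (fun u => (Y u, Z u)) N w

/-- the law given the value of `N` at `w` -/
abbrev at_ (N : Om → ν) (w : Om) : FP Om := P.cond (fun v => N v = N w)

theorem hp_fac (X : Om → κ) (Z : Om → ι) (N : Om → ν) : Fac N (hp P X Z N) := P.ce_fac N _

theorem ip_fac (X : Om → κ) (Y : Om → κ') (Z : Om → ι) (N : Om → ν) : Fac N (ip P X Y Z N) :=
  (hp_fac P X Z N).sub (hp_fac P X _ N)

theorem hp_eq_cond (X : Om → κ) (Z : Om → ι) (N : Om → ν) {w : Om} (hw : P.p w ≠ 0) :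
    hp P X Z N w = (at_ P N w).Hc X Z := by
  unfold hp
  rw [P.ce_eq_cond N _ hw]
  unfold FP.Hc FP.H
  rw [← FP.E_sub]
  refine FP.E_congr _ (fun v hv => ?_)
  obtain ⟨hN, hpv⟩ := (cond_p_ne (P.m_pos N hw).ne').1 hv
  rw [P.cond_m_fibre (fun u => (X u, Z u)) N hw hN, P.cond_m_fibre Z N hw hN]
  have e1 : P.m (fun u => ((X u, Z u), N u)) v = P.m (fun u => (X u, Z u, N u)) v :=
    P.m_congr (fun x y h => by simp only [Prod.mk.injEq] at h ⊢; tauto)
      (fun x y h => by simp only [Prod.mk.injEq] at h ⊢; tauto) v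
  rw [e1]
  have a := (P.m_pos (fun u => (X u, Z u, N u)) hpv).ne'
  have b := (P.m_pos (fun u => (Z u, N u)) hpv).ne'
  have c := (P.m_pos N hw).ne'
  rw [Real.log_div a b, Real.log_div a c, Real.log_div b c]
  ring

theorem ip_eq_cond (X : Om → κ) (Y : Om → κ') (Z : Om → ι) (N : Om → ν) {w : Om} (hw : P.p w ≠ 0) :
    ip P X Y Z N w = (at_ P N w).I X Y Z := by
  unfold ip
  rw [hp_eq_cond P X Z N hw, hp_eq_cond P X _ N hw, FP.I_eq_Hc]

theorem E_hp (X : Om → κ) (Z : Om → ι) (N : Om → ν) : P.E (hp P X Z N) = P.Hc X (fun w => (Z w, N w)) := by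
  unfold hp
  rw [P.E_ce]
  unfold FP.Hc FP.H
  rw [← P.E_sub]
  refine P.E_congr (fun w hw => ?_)
  have a := (P.m_pos (fun u => (X u, Z u, N u)) hw).ne'
  have b := (P.m_pos (fun u => (Z u, N u)) hw).ne'
  rw [Real.log_div a b]
  ring

theorem E_ip (X : Om → κ) (Y : Om → κ') (Z : Om → ι) (N : Om → ν) :
    P.E (ip P X Y Z N) = P.I X Y (fun w => (Z w, N w)) := by
  unfold ip
  rw [P.E_sub, E_hp, E_hp, P.I_eq_Hc]
  congr 1
  exact P.Hc_congr (Fac.fst _ _) (fun x y h => by simp only [Prod.mk.injEq] at h ⊢; tauto)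
    (Fac.fst _ _) (fun x y h => by simp only [Prod.mk.injEq] at h ⊢; tauto)

/-- TOWER -/
theorem ce_hp (X : Om → κ) (Z : Om → ι) {N : Om → ν} {K : Om → ν'} (h : Fac K N) (w : Om) :
    P.ce N (hp P X Z K) w = hp P X (fun u => (Z u, K u)) N w := by
  unfold hp
  rw [P.ce_tower h]
  refine P.ce_congr (fun v _ => ?_) w
  have e1 : P.m (fun u => (X u, Z u, K u)) v = P.m (fun u => (X u, (Z u, K u), N u)) v := by
    refine P.m_congr (fun x y hxy => ?_) (fun x y hxy => ?_) v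
    · simp only [Prod.mk.injEq] at hxy ⊢
      exact ⟨hxy.1, ⟨hxy.2.1, hxy.2.2⟩, h x y hxy.2.2⟩
    · simp only [Prod.mk.injEq] at hxy ⊢
      tauto
  have e2 : P.m (fun u => (Z u, K u)) v = P.m (fun u => ((Z u, K u), N u)) v := by
    refine P.m_congr (fun x y hxy => ?_) (fun x y hxy => ?_) v
    · simp only [Prod.mk.injEq] at hxy ⊢
      exact ⟨⟨hxy.1, hxy.2⟩, h x y hxy.2⟩
    · simp only [Prod.mk.injEq] at hxy ⊢
      tauto
  rw [e1, e2]

theorem hp_nonneg (X : Om → κ) (Z : Om → ι) (N : Om → ν) {w : Om} (hw : P.p w ≠ 0) : 0 ≤ hp P X Z N w := by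
  rw [hp_eq_cond P X Z N hw]; exact FP.Hc_nonneg _ _ _

theorem ip_nonneg (X : Om → κ) (Y : Om → κ') (Z : Om → ι) (N : Om → ν) {w : Om} (hw : P.p w ≠ 0) :
    0 ≤ ip P X Y Z N w := by
  rw [ip_eq_cond P X Y Z N hw]; exact FP.I_nonneg _ _ _ _

/-- chain rule -/
theorem hp_chain (X : Om → κ) (Y : Om → κ') (Z : Om → ι) (N : Om → ν) {w : Om} (hw : P.p w ≠ 0) :
    hp P (fun u => (X u, Y u)) Z N w = hp P Y Z N w + hp P X (fun u => (Y u, Z u)) N w := by
  rw [hp_eq_cond P _ Z N hw, hp_eq_cond P Y Z N hw, hp_eq_cond P X _ N hw, FP.Hc_chain]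

/-- more conditioning (known by everybody or not) reduces the entropy -/
theorem hp_anti (X : Om → κ) {Z : Om → ι} {Z' : Om → ι'} (N : Om → ν) (h : Fac (fun u => (Z u, N u)) Z') {w : Om}
    (hw : P.p w ≠ 0) : hp P X Z N w ≤ hp P X Z' N w := by
  have h1 : hp P X Z N w = hp P X (fun u => (Z u, Z' u)) N w := by
    unfold hp
    refine P.ce_congr (fun v _ => ?_) w
    rw [P.m_congr (X := fun u => (X u, Z u, N u)) (Y := fun u => (X u, (Z u, Z' u), N u)) ?_ ?_ v,
      P.m_congr (X := fun u => (Z u, N u)) (Y := fun u => ((Z u, Z' u), N u)) ?_ ?_ v]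
    · intro x y hxy
      have h2 := h x y hxy
      simp only [Prod.mk.injEq] at hxy ⊢
      exact ⟨⟨hxy.1, h2⟩, hxy.2⟩
    · intro x y hxy
      simp only [Prod.mk.injEq] at hxy ⊢
      tauto
    · intro x y hxy
      have h2 := h x y (Prod.mk.injEq _ _ _ _ ▸ hxy : _ ∧ _).2
      simp only [Prod.mk.injEq] at hxy ⊢
      exact ⟨hxy.1, ⟨hxy.2.1, h2⟩, hxy.2.2⟩
    · intro x y hxy
      simp only [Prod.mk.injEq] at hxy ⊢
      tauto
  rw [h1, hp_eq_cond P X _ N hw, hp_eq_cond P X Z' N hw]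
  exact FP.Hc_anti _ X (Fac.snd Z Z')

/-- the entropy depends on the partitions only -/
theorem hp_congr {X : Om → κ} {X' : Om → κ'} {Z : Om → ι} {Z' : Om → ι'} {N : Om → ν} {N' : Om → ν'}
    (h1 : Fac (fun u => (X u, Z u, N u)) X') (h2 : Fac (fun u => (Z u, N u)) Z') (h3 : Fac N N')
    (h4 : Fac (fun u => (X' u, Z' u, N' u)) X) (h5 : Fac (fun u => (Z' u, N' u)) Z) (h6 : Fac N' N) (w : Om) :
    hp P X Z N w = hp P X' Z' N' w := by
  unfold hp
  rw [P.ce_congr_map h3 h6]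
  refine P.ce_congr (fun v _ => ?_) w
  rw [P.m_congr (X := fun u => (X u, Z u, N u)) (Y := fun u => (X' u, Z' u, N' u)) ?_ ?_ v,
    P.m_congr (X := fun u => (Z u, N u)) (Y := fun u => (Z' u, N' u)) ?_ ?_ v]
  · exact h2.prod ((Fac.snd Z N).trans h3)
  · exact h5.prod ((Fac.snd Z' N').trans h6)
  · refine h1.prod (Fac.prod ?_ ?_)
    · exact (Fac.snd X (fun u => (Z u, N u))).trans h2
    · exact (Fac.snd X (fun u => (Z u, N u))).trans ((Fac.snd Z N).trans h3)
  · refine h4.prod (Fac.prod ?_ ?_)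
    · exact (Fac.snd X' (fun u => (Z' u, N' u))).trans h5
    · exact (Fac.snd X' (fun u => (Z' u, N' u))).trans ((Fac.snd Z' N').trans h6)

theorem hp_mono {X : Om → κ} {X' : Om → κ'} (Z : Om → ι) (N : Om → ν) (h : Fac (fun u => (X u, Z u, N u)) X') {w : Om}
    (hw : P.p w ≠ 0) : hp P X' Z N w ≤ hp P X Z N w := by
  have h1 := hp_chain P X X' Z N hw
  have h2 : hp P (fun u => (X u, X' u)) Z N w = hp P X Z N w := by
    refine hp_congr P ?_ (Fac.fst _ _) (Fac.refl _) ?_ (Fac.fst _ _) (Fac.refl _) w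
    · exact (Fac.fst _ _).trans (Fac.fst X X')
    · exact (Fac.fst _ _).prod h
  have h3 := hp_nonneg P X (fun u => (X' u, Z u)) N hw
  linarith

theorem ip_congr {X : Om → κ} {Y : Om → κ'} {Z : Om → ι} {N : Om → ν} {κ₁ κ₂ ι₁ ν₁ : Type*} {X' : Om → κ₁} {Y' : Om → κ₂}
    {Z' : Om → ι₁} {N' : Om → ν₁}
    (h1 : Fac (fun u => (X u, Z u, N u)) X') (h0 : Fac (fun u => (Y u, Z u, N u)) Y') (h2 : Fac (fun u => (Z u, N u)) Z')
    (h3 : Fac N N') (h4 : Fac (fun u => (X' u, Z' u, N' u)) X) (h7 : Fac (fun u => (Y' u, Z' u, N' u)) Y)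
    (h5 : Fac (fun u => (Z' u, N' u)) Z) (h6 : Fac N' N) (w : Om) :
    ip P X Y Z N w = ip P X' Y' Z' N' w := by
  unfold ip
  rw [hp_congr P h1 h2 h3 h4 h5 h6 w]
  congr 1
  refine hp_congr P ?_ ?_ h3 ?_ ?_ h6 w
  · intro x y hxy
    simp only [Prod.mk.injEq] at hxy
    exact h1 x y (by simp only [Prod.mk.injEq]; exact ⟨hxy.1, hxy.2.1.2, hxy.2.2⟩)
  · intro x y hxy
    simp only [Prod.mk.injEq] at hxy ⊢
    exact ⟨h0 x y (by simp only [Prod.mk.injEq]; exact ⟨hxy.1.1, hxy.1.2, hxy.2⟩),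
      h2 x y (by simp only [Prod.mk.injEq]; exact ⟨hxy.1.2, hxy.2⟩)⟩
  · intro x y hxy
    simp only [Prod.mk.injEq] at hxy
    exact h4 x y (by simp only [Prod.mk.injEq]; exact ⟨hxy.1, hxy.2.1.2, hxy.2.2⟩)
  · intro x y hxy
    simp only [Prod.mk.injEq] at hxy ⊢
    exact ⟨h7 x y (by simp only [Prod.mk.injEq]; exact ⟨hxy.1.1, hxy.1.2, hxy.2⟩),
      h5 x y (by simp only [Prod.mk.injEq]; exact ⟨hxy.1.2, hxy.2⟩)⟩

theorem ip_comm (X : Om → κ) (Y : Om → κ') (Z : Om → ι) (N : Om → ν) {w : Om} (hw : P.p w ≠ 0) :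
    ip P X Y Z N w = ip P Y X Z N w := by
  rw [ip_eq_cond P X Y Z N hw, ip_eq_cond P Y X Z N hw, FP.I_comm]

/-- chain rule for the information -/
theorem ip_chain (X : Om → κ) (X' : Om → ι') (Y : Om → κ') (Z : Om → ι) (N : Om → ν) {w : Om} (hw : P.p w ≠ 0) :
    ip P (fun u => (X u, X' u)) Y Z N w = ip P X' Y Z N w + ip P X Y (fun u => (X' u, Z u)) N w := by
  rw [ip_eq_cond P _ Y Z N hw, ip_eq_cond P X' Y Z N hw, ip_eq_cond P X Y _ N hw, FP.I_chain]

theorem ip_le_hp (X : Om → κ) (Y : Om → κ') (Z : Om → ι) (N : Om → ν) {w : Om} (hw : P.p w ≠ 0) :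
    ip P X Y Z N w ≤ hp P X Z N w := by
  unfold ip
  have := hp_nonneg P X (fun u => (Y u, Z u)) N hw
  linarith

/-- data processing -/
theorem ip_mono {X : Om → κ} {X' : Om → ι'} (Y : Om → κ') (Z : Om → ι) (N : Om → ν)
    (h : Fac (fun u => (X u, Z u, N u)) X') {w : Om} (hw : P.p w ≠ 0) : ip P X' Y Z N w ≤ ip P X Y Z N w := by
  have h1 := ip_chain P X X' Y Z N hw
  have h2 : ip P (fun u => (X u, X' u)) Y Z N w = ip P X Y Z N w := by
    refine ip_congr P ?_ (Fac.fst _ _) (Fac.fst _ _) (Fac.refl _) ?_ (Fac.fst _ _) (Fac.fst _ _) (Fac.refl _) w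
    · exact (Fac.fst _ _).trans (Fac.fst X X')
    · exact (Fac.fst _ _).prod h
  have h3 := ip_nonneg P X Y (fun u => (X' u, Z u)) N hw
  linarith

/-- tower for the information: the new known variable `K` is conditioned on -/
theorem ce_ip (X : Om → κ) (Y : Om → κ') (Z : Om → ι) {N : Om → ν} {K : Om → ν'} (h : Fac K N) (w : Om) :
    P.ce N (ip P X Y Z K) w = ip P X Y (fun u => (Z u, K u)) N w := by
  have e1 : (ip P X Y Z K) = fun u => hp P X Z K u - hp P X (fun u => (Y u, Z u)) K u := rfl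
  rw [e1, P.ce_sub, ce_hp P X Z h, ce_hp P X _ h]
  unfold ip
  congr 1
  refine hp_congr P (Fac.fst _ _) ?_ (Fac.refl _) (Fac.fst _ _) ?_ (Fac.refl _) w
  · intro x y hxy; simp only [Prod.mk.injEq] at hxy ⊢; tauto
  · intro x y hxy; simp only [Prod.mk.injEq] at hxy ⊢; tauto

/-- an independent part of the known variable can be forgotten: `X`, `Z` functions of (`A`, `φ`), `A` independent of
`Y ⊇ ψ ⊇ φ` -/
theorem hp_node {A : Om → κ'} {Y : Om → ι'} (h : P.Indep A Y) {φ : Om → ν} {ψ : Om → ν'} (hψ : Fac Y ψ) (hφ : Fac ψ φ)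
    {X : Om → κ} {Z : Om → ι} (hX : Fac (fun w => (A w, φ w)) X) (hZ : Fac (fun w => (A w, φ w)) Z) {w : Om}
    (hw : P.p w ≠ 0) : hp P X Z ψ w = hp P X Z φ w := by
  have hr : ∀ v, P.p v ≠ 0 → P.m (fun u => (X u, Z u, ψ u)) v / P.m (fun u => (Z u, ψ u)) v =
      P.m (fun u => (X u, Z u, φ u)) v / P.m (fun u => (Z u, φ u)) v := by
    intro v hv
    have hi : Fac (fun w => (A w, φ w)) (fun u => ind (X u = X v)) := Fac.ind (fun x y hxy => by rw [hX x y hxy])
    have e := ce_node P h hψ hφ (Q := Z) hZ (f := fun u => ind (X u = X v)) hi hv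
    have e3 : P.ce (fun u => (Z u, ψ u)) (fun u => ind (X u = X v)) v =
        P.m (fun u => (X u, Z u, ψ u)) v / P.m (fun u => (Z u, ψ u)) v := by
      unfold FP.ce
      congr 1
      unfold FP.m
      refine P.E_congr (fun u _ => ?_)
      rw [← ind_and]
      congr 1
      simp only [Prod.mk.injEq]
      exact propext ⟨fun h => ⟨h.2, h.1⟩, fun h => ⟨h.2, h.1⟩⟩
    have e4 : P.ce (fun u => (Z u, φ u)) (fun u => ind (X u = X v)) v =
        P.m (fun u => (X u, Z u, φ u)) v / P.m (fun u => (Z u, φ u)) v := by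
      unfold FP.ce
      congr 1
      unfold FP.m
      refine P.E_congr (fun u _ => ?_)
      rw [← ind_and]
      congr 1
      simp only [Prod.mk.injEq]
      exact propext ⟨fun h => ⟨h.2, h.1⟩, fun h => ⟨h.2, h.1⟩⟩
    rw [← e3, ← e4, e]
  unfold hp
  rw [P.ce_congr (f := fun v => - Real.log (P.m (fun u => (X u, Z u, ψ u)) v / P.m (fun u => (Z u, ψ u)) v))
    (g := fun v => - Real.log (P.m (fun u => (X u, Z u, φ u)) v / P.m (fun u => (Z u, φ u)) v))
    (fun v hv => by rw [hr v hv]) w]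
  have hf : Fac (fun w => (A w, φ w))
      (fun v => - Real.log (P.m (fun u => (X u, Z u, φ u)) v / P.m (fun u => (Z u, φ u)) v)) := by
    have h1 : Fac (fun w => (A w, φ w)) (fun u => (X u, Z u, φ u)) := hX.prod (hZ.prod (Fac.snd A φ))
    have h2 : Fac (fun w => (A w, φ w)) (fun u => (Z u, φ u)) := hZ.prod (Fac.snd A φ)
    intro x y hxy
    simp only
    rw [P.Fac_m (fun u => (X u, Z u, φ u)) x y (h1 x y hxy), P.Fac_m (fun u => (Z u, φ u)) x y (h2 x y hxy)]
  have e := P.ce_indep_eq h (ζ := fun _ => ()) (Fac.const A ()) hψ hφ hf hw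
  have h2 : ∀ g : Om → ℝ, P.ce (fun v => ((), ψ v)) g w = P.ce ψ g w := fun g =>
    P.ce_congr_map (Fac.snd _ _) ((Fac.const ψ ()).prod (Fac.refl ψ)) g w
  have h3 : ∀ g : Om → ℝ, P.ce (fun v => ((), φ v)) g w = P.ce φ g w := fun g =>
    P.ce_congr_map (Fac.snd _ _) ((Fac.const φ ()).prod (Fac.refl φ)) g w
  rw [h2, h3] at e
  exact e

end

end Pool.Agent.GMC
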