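import Pool.Agent.GMC.Bridge
import Pool.Agent.GM.Geo
import Pool.Agent.GM.SMI

/-!
# GMC/PairPT: the tests and the changes of the instance of C2 from `Rare` and `Future` of `binSys` (helper48)

* `PTm wx a h N R θ r` : product tests of the face `a` (all `R ξ` miss `a`) at all EXACT nodes, all small cells, coins
  averaged, tests coin-free; `PTm.toPTcB`, `PTm.toPTcA` : the form `PTc` of `GMC/Bridge` for the families of `b`, `a`;
* `famS N h F th ξ` : a moving face `F` of `binSys` as a family of `GM/Model`, for fixed public randomness and coin (zero at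
  nodes which are not reached); `pq` : forget the coins; `fv_famS` : same values at sample points;
* `E_pq` : the coin and the projection are independent, the coin is uniform;
* `rare_PTm` : FROM `Rare`;  `chg_famS` : FROM `Future`.
-/

set_option autoImplicit false
set_option linter.unusedSectionVars false

namespace Pool.Agent.GMC

open Finset Pool.Agent.PWZ Pool.Agent.M3 Pool.Agent.M3.Bin Pool.Agent.M3.Mod

noncomputable section

variable {k N n : ℕ} {ι Θ P Ξ Q : Type} [Fintype ι] [DecidableEq ι]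

/-! ## product tests of a face, coins averaged, exact nodes -/

/-- PRODUCT TESTS of the face `a` at all exact nodes, coins averaged -/
def PTm [Fintype P] [Fintype Ξ] (wx : Ξ → ℝ) (a : ι) (h N : ℕ) (R : Ξ → GM.Fam k ι P) (θ r : ℝ) : Prop :=
  ∀ e ≤ N, ∀ g : V k × ℕ, ∀ (c : ι → V k) (v : ι → (ι → P × V k) → V k → ℝ),
    (∀ w, w ≠ a → DependsOn (v w) ({a, w}ᶜ : Set ι)) → (∀ w x d, |v w x d| ≤ 1) →
    ∑ ξ, wx ξ * (((GM.SCm (P := P) h e c).filter fun x =>
      r ≤ |av e g.1 (fun d => R ξ e (coar h e g) x d * ∏ w ∈ univ.erase a, v w x d)|).card : ℝ) ≤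
      θ * (GM.SCm (P := P) h e c).card

section pt

variable [Fintype P] [Nonempty P] [Fintype Ξ]

/-- the offset sits in the argument and in the node -/
theorem PTc.offset {h' : ℕ} {wx : Ξ → ℝ} {G : Ξ → Fm k n P} {θ r : ℝ} (hPT : PTc wx h' N G θ r) (s : V k) :
    PTc wx h' N (fun ξ e g b x d => G ξ e (g.1 + s, g.2) b x (d + s)) θ r := by
  intro e he g cb co v0 v hv0 hv hvi
  have h1 := hPT e he (g.1 + s, g.2) cb co (fun x d => v0 x (d - s)) (fun i b x d => v i b x (d - s))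
    (fun x d => hv0 _ _) (fun i b x d => hv _ _ _ _) (fun i b x y hxy d => hvi _ _ _ _ hxy _)
  refine le_trans (le_of_eq ?_) h1
  refine Finset.sum_congr rfl fun ξ _ => ?_
  congr 4
  funext q
  rw [← av_shift e g.1 s]
  simp only [add_sub_cancel_right]

/-- finer cells -/
theorem PTc.finer {h h' N : ℕ} (hh : h ≤ h') (hN : N ≤ k) {wx : Ξ → ℝ} (hw : ∀ ξ, 0 ≤ wx ξ) {G : Ξ → Fm k n P}
    {θ r : ℝ} (hθ : 0 ≤ θ) (hPT : PTc wx h N G θ r) : PTc wx h' N G (θ * 2 ^ ((h' - h) * (n + 1))) r := by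
  classical
  intro e he g cb co v0 v hv0 hv hvi
  have h1 := hPT e he g cb co v0 v hv0 hv hvi
  refine le_trans (Finset.sum_le_sum fun ξ _ => mul_le_mul_of_nonneg_left ?_ (hw ξ)) (h1.trans ?_)
  · rw [Nat.cast_le]
    refine Finset.card_le_card fun q hq => ?_
    rw [Finset.mem_filter, Finset.mem_product, Fintype.mem_piFinset] at hq ⊢
    refine ⟨⟨?_, fun i => ?_⟩, hq.2⟩
    · have h2 := hq.1.1
      unfold SC at h2 ⊢
      rw [Finset.mem_filter] at h2 ⊢
      exact ⟨h2.1, flr_mono_eq (by omega) h2.2⟩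
    · have h2 := hq.1.2 i
      unfold SC at h2 ⊢
      rw [Finset.mem_filter] at h2 ⊢
      exact ⟨h2.1, flr_mono_eq (by omega) h2.2⟩
  · rw [mul_assoc]
    refine mul_le_mul_of_nonneg_left ?_ hθ
    rw [Finset.card_product, Finset.card_product, Fintype.card_piFinset, Fintype.card_piFinset]
    push_cast
    have h6 : ∀ v : V k, ((SC (P := P) h e v).card : ℝ) ≤ 2 ^ (h' - h) * (SC (P := P) h' e v).card := by
      intro v
      rw [card_SC (he.trans hN), card_SC (he.trans hN)]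
      have h7 : (2 : ℝ) ^ (e - (h + 3)) ≤ 2 ^ (e - (h' + 3)) * 2 ^ (h' - h) := by
        rw [← pow_add]
        exact pow_le_pow_right₀ (by norm_num) (by omega)
      calc (Fintype.card P : ℝ) * 2 ^ (e - (h + 3)) ≤ (Fintype.card P : ℝ) * (2 ^ (e - (h' + 3)) * 2 ^ (h' - h)) :=
            mul_le_mul_of_nonneg_left h7 (by positivity)
        _ = _ := by ring
    calc ((SC (P := P) h e cb).card : ℝ) * ∏ i, ((SC (P := P) h e (co i)).card : ℝ)
        ≤ (2 ^ (h' - h) * (SC (P := P) h' e cb).card) * ∏ i, (2 ^ (h' - h) * ((SC (P := P) h' e (co i)).card : ℝ)) :=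
          mul_le_mul (h6 _) (Finset.prod_le_prod (fun i _ => Nat.cast_nonneg _) fun i _ => h6 _)
            (Finset.prod_nonneg fun i _ => Nat.cast_nonneg _) (by positivity)
      _ = _ := by
          rw [Finset.prod_mul_distrib, Finset.prod_const, Finset.card_univ, Fintype.card_fin, ← pow_mul, mul_add, mul_one,
            pow_add]
          ring

/-- PRODUCT TESTS of the face `a` give the product tests in (`b`, others) -/
theorem PTm.toB {h : ℕ} {a b : ι} (hab : a ≠ b) (o : Enu n a b) {wx : Ξ → ℝ} {R : Ξ → GM.Fam k ι P}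
    (hR : ∀ ξ, GM.FOn ({a}ᶜ : Set ι) (R ξ)) {θ r : ℝ} (hPT : PTm wx a h N R θ r) :
    PTc wx h N (fun ξ e g y x d => R ξ e (coar h e g) (gl o y y x) d) θ r := by
  classical
  intro e he g cb co v0 v hv0 hv hvi
  set c : ι → V k := fun w => if hw : w ≠ a ∧ w ≠ b then co (o.symm ⟨w, hw⟩) else cb with hc
  set vv : ι → (ι → P × V k) → V k → ℝ := fun w y d => if hw : w ≠ a ∧ w ≠ b then
    v (o.symm ⟨w, hw⟩) (y b) (fun l => y (o l).1) d else if w = b then v0 (fun l => y (o l).1) d else 1 with hvv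
  have hca : c a = cb := dif_neg fun h => h.1 rfl
  have hcb : c b = cb := dif_neg fun h => h.2 rfl
  have hco : ∀ l, c (o l).1 = co l := by
    intro l
    simp only [hc]
    rw [dif_pos (o l).2]
    congr 1
    exact o.symm_apply_apply l
  have hva : ∀ y d, vv a y d = 1 := by
    intro y d
    simp only [hvv]
    rw [dif_neg (fun h => h.1 rfl), if_neg hab]
  have hvb : ∀ y d, vv b y d = v0 (fun l => y (o l).1) d := by
    intro y d
    show (if hw : b ≠ a ∧ b ≠ b then _ else if b = b then v0 (fun l => y (o l).1) d else 1) = _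
    rw [dif_neg (fun h => h.2 rfl), if_pos rfl]
  have hvo : ∀ y d l, vv (o l).1 y d = v l (y b) (fun l => y (o l).1) d := by
    intro y d l
    simp only [hvv]
    rw [dif_pos (o l).2]
    have h1 : o.symm ⟨(o l).1, (o l).2⟩ = l := o.symm_apply_apply l
    rw [h1]
  have hdep : ∀ w, w ≠ a → DependsOn (vv w) ({a, w}ᶜ : Set ι) := by
    intro w hw y y' hyy
    have hyo : ∀ l, (o l).1 ≠ w → y (o l).1 = y' (o l).1 := fun l hl => hyy _ fun h => by
      rcases h with h | h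
      · exact (o l).2.1 h
      · exact hl h
    rcases cases_o o w with h1 | h1 | ⟨l, h1⟩
    · exact absurd h1 hw
    · funext d
      rw [h1, hvb, hvb]
      congr 1
      funext l
      exact hyo l fun h => (o l).2.2 (h.trans h1)
    · funext d
      rw [h1, hvo, hvo]
      have h2 : y b = y' b := hyy _ fun h => by
        rcases h with h | h
        · exact hab h.symm
        · exact (o l).2.2 (h1.symm.trans h.symm)
      rw [h2]
      refine hvi l _ _ _ (fun j hj => hyo j fun h => ?_) d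
      exact hj (o.injective (Subtype.ext (h.trans h1)))
  have hbd : ∀ w y d, |vv w y d| ≤ 1 := by
    intro w y d
    rcases cases_o o w with h1 | h1 | ⟨l, h1⟩
    · rw [h1, hva]
      simp
    · rw [h1, hvb]
      exact hv0 _ _
    · rw [h1, hvo]
      exact hv _ _ _ _
  have h1 := hPT e he g c vv hdep hbd
  set bad : Ξ → (P × V k) × (Fin n → P × V k) → Prop := fun ξ q =>
    r ≤ |av e g.1 (fun d => R ξ e (coar h e g) (gl o q.1 q.1 q.2) d * (v0 q.2 d * ∏ i, v i q.1 q.2 d))| with hbad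
  have hcond : ∀ (ξ : Ξ) (y : ι → P × V k), (r ≤ |av e g.1 (fun d => R ξ e (coar h e g) y d *
      ∏ w ∈ univ.erase a, vv w y d)|) ↔ bad ξ (y b, fun l => y (o l).1) := by
    intro ξ y
    have h2 : R ξ e (coar h e g) y = R ξ e (coar h e g) (gl o (y b) (y b) (fun l => y (o l).1)) := by
      refine hR ξ e _ fun i hi => ?_
      rcases cases_o o i with h3 | h3 | ⟨l, h3⟩
      · exact absurd h3 hi
      · rw [h3, gl_b hab]
      · rw [h3, gl_o]
    have h3 : ∀ d, ∏ w ∈ univ.erase a, vv w y d = v0 (fun l => y (o l).1) d * ∏ i, v i (y b) (fun l => y (o l).1) d := by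
      intro d
      have h4 := Finset.prod_erase (univ : Finset ι) (f := fun w => vv w y d) (a := a) (hva y d)
      have h5 := prod_gl hab o (fun w => vv w y d)
      simp only [hva, hvb, hvo, one_mul] at h4 h5
      rw [h4, h5]
    simp only [hbad, h3]
    rw [← h2]
  -- the count
  have hcount : ∀ B : (P × V k) × (Fin n → P × V k) → Prop, ((GM.SCm (P := P) h e c).filter fun y =>
      B (y b, fun l => y (o l).1)).card = (SC (P := P) h e cb).card *
      ((SC (P := P) h e cb ×ˢ Fintype.piFinset fun i => SC (P := P) h e (co i)).filter B).card := by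
    intro B
    rw [← Finset.card_product]
    refine Finset.card_nbij' (fun y => (y a, (y b, fun l => y (o l).1))) (fun q => gl o q.1 q.2.1 q.2.2) ?_ ?_ ?_ ?_
    · intro y hy
      rw [Finset.mem_coe, Finset.mem_filter, GM.mem_SCm] at hy
      rw [Finset.mem_coe, Finset.mem_product, Finset.mem_filter, Finset.mem_product, Fintype.mem_piFinset]
      unfold SC
      simp only [Finset.mem_filter, Finset.mem_univ, true_and]
      refine ⟨?_, ⟨?_, fun l => ?_⟩, hy.2⟩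
      · have h2 := hy.1 a
        rw [hca] at h2
        exact h2
      · have h2 := hy.1 b
        rw [hcb] at h2
        exact h2
      · have h2 := hy.1 (o l).1
        rw [hco] at h2
        exact h2
    · intro q hq
      rw [Finset.mem_coe, Finset.mem_product, Finset.mem_filter, Finset.mem_product, Fintype.mem_piFinset] at hq
      unfold SC at hq
      simp only [Finset.mem_filter, Finset.mem_univ, true_and] at hq
      rw [Finset.mem_coe, Finset.mem_filter, GM.mem_SCm]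
      refine ⟨fun w => ?_, ?_⟩
      · show flr (e - (h + 3)) (gl o q.1 q.2.1 q.2.2 w).2 = flr (e - (h + 3)) (c w)
        rcases cases_o o w with h3 | h3 | ⟨l, h3⟩
        · rw [h3, gl_a, hca]
          exact hq.1
        · rw [h3, gl_b hab, hcb]
          exact hq.2.1.1
        · rw [h3, gl_o, hco]
          exact hq.2.1.2 l
      · simp only [gl_b hab, gl_o]
        exact hq.2.2
    · intro y _
      exact gl_eta o y
    · intro q _
      simp only [gl_a, gl_b hab, gl_o]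
  have hfil : ∀ ξ, ((GM.SCm (P := P) h e c).filter fun y =>
      r ≤ |av e g.1 (fun d => R ξ e (coar h e g) y d * ∏ w ∈ univ.erase a, vv w y d)|) =
      ((GM.SCm (P := P) h e c).filter fun y => bad ξ (y b, fun l => y (o l).1)) :=
    fun ξ => Finset.filter_congr fun y _ => hcond ξ y
  have htot : (GM.SCm (P := P) h e c).card = (SC (P := P) h e cb).card *
      (SC (P := P) h e cb ×ˢ Fintype.piFinset fun i => SC (P := P) h e (co i)).card := by
    have h2 := hcount (fun _ => True)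
    simpa only [Finset.filter_true] using h2
  simp only [hfil, hcount, htot] at h1
  push_cast at h1
  have hpos : (0 : ℝ) < (SC (P := P) h e cb).card := by
    rw [Nat.cast_pos, Finset.card_pos]
    refine ⟨(Classical.arbitrary P, cb), ?_⟩
    unfold SC
    simp
  have h4 : ((SC (P := P) h e cb).card : ℝ) * ∑ ξ, wx ξ *
      (((SC (P := P) h e cb ×ˢ Fintype.piFinset fun i => SC (P := P) h e (co i)).filter (bad ξ)).card : ℝ) ≤
      ((SC (P := P) h e cb).card : ℝ) *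
      (θ * ((SC (P := P) h e cb ×ˢ Fintype.piFinset fun i => SC (P := P) h e (co i)).card : ℝ)) := by
    refine le_trans (le_of_eq ?_) (h1.trans (le_of_eq ?_))
    · rw [Finset.mul_sum]
      exact Finset.sum_congr rfl fun ξ _ => by ring
    · ring
  exact le_of_mul_le_mul_left h4 hpos

/-- THE FORM OF `brH`, family of `b` (face `a`) -/
theorem PTm.toPTcB {h h' : ℕ} (hh : h ≤ h') (hN : N ≤ k) {a b : ι} (hab : a ≠ b) (o : Enu n a b) (s : V k)
    {wx : Ξ → ℝ} (hw : ∀ ξ, 0 ≤ wx ξ) {R : Ξ → GM.Fam k ι P} (hR : ∀ ξ, GM.FOn ({a}ᶜ : Set ι) (R ξ)) {θ r : ℝ}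
    (hθ : 0 ≤ θ) (hPT : PTm wx a h N R θ r) :
    PTc wx h' N (fun ξ => FmB o s h (R ξ)) (θ * 2 ^ ((h' - h) * (n + 1))) r :=
  ((hPT.toB hab o hR).finer hh hN hw hθ).offset s

/-- THE FORM OF `brH`, family of `a` (face `b`) -/
theorem PTm.toPTcA {h h' : ℕ} (hh : h ≤ h') (hN : N ≤ k) {a b : ι} (hab : a ≠ b) (o : Enu n a b) (s : V k)
    {wx : Ξ → ℝ} (hw : ∀ ξ, 0 ≤ wx ξ) {R : Ξ → GM.Fam k ι P} (hR : ∀ ξ, GM.FOn ({b}ᶜ : Set ι) (R ξ)) {θ r : ℝ}
    (hθ : 0 ≤ θ) (hPT : PTm wx b h N R θ r) :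
    PTc wx h' N (fun ξ => FmA o s h (R ξ)) (θ * 2 ^ ((h' - h) * (n + 1))) r := by
  have h1 := hPT.toPTcB hh hN hab.symm o.swap s hw hR hθ
  have h2 : (fun ξ => FmB o.swap s h (R ξ)) = fun ξ => FmA o s h (R ξ) := by
    funext ξ e g y x z
    unfold FmB FmA
    rw [gl_swap o y y hab]
  rw [h2] at h1
  exact h1

end pt

/-! ## moving faces of `binSys` as families -/

theorem sum_ind_cd {σ : Type*} [Fintype σ] (p : σ → Prop) (S : Finset σ) (h : ∀ x, p x ↔ x ∈ S) :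
    ∑ x, ind (p x) = (S.card : ℝ) := by
  classical
  have h1 : ∀ x, ind (p x) = if x ∈ S then (1 : ℝ) else 0 := by
    intro x
    by_cases hx : x ∈ S
    · rw [if_pos hx, ind_of ((h x).2 hx)]
    · rw [if_neg hx, ind_not fun h' => hx ((h x).1 h')]
  rw [Finset.sum_congr rfl fun x _ => h1 x, Finset.sum_ite_mem, Finset.univ_inter, Finset.sum_const, nsmul_eq_mul,
    mul_one]

/-- nodes which are reached -/
def Rch (N h e : ℕ) (g : V k × ℕ) : Prop := flr (e - h) g.1 = g.1 ∧ g.2 < 2 ^ (N - e)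

open Classical in
/-- a moving face of `binSys` as a family, for fixed public randomness and coin -/
def famS (N h : ℕ) (F : GM.Mov Ξ ι (Q × V k) (Θ × (V k × ℕ)) (V k → ℝ)) (θ : Θ) (ξ : Ξ) : GM.Fam k ι Q :=
  fun e g x d => if e ≤ N ∧ Rch N h e g then F (N - e) (θ, g) ξ x d else 0

omit [Fintype ι] in
theorem famS_on {F : GM.Mov Ξ ι (Q × V k) (Θ × (V k × ℕ)) (V k → ℝ)} {I : Set ι} (h : ℕ)
    (hF : ∀ t g ξ, DependsOn (F t g ξ) I) (θ : Θ) (ξ : Ξ) : GM.FOn I (famS N h F θ ξ) := by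
  intro e g x y hxy
  funext d
  unfold famS
  split_ifs
  · rw [hF _ _ _ hxy]
  · rfl

omit [Fintype ι] [DecidableEq ι] in
theorem famS_le {F : GM.Mov Ξ ι (Q × V k) (Θ × (V k × ℕ)) (V k → ℝ)} {X : ℝ} (hX : 0 ≤ X) (h : ℕ)
    (hF : ∀ t g ξ x d, |F t g ξ x d| ≤ X) (θ : Θ) (ξ : Ξ) : GM.FLe X (famS N h F θ ξ) := by
  intro e g x d
  unfold famS
  split_ifs
  · exact hF _ _ _ _ _
  · rw [abs_zero]
    exact hX

omit [Fintype ι] [DecidableEq ι] in
theorem famS_coin {F : GM.Mov Ξ ι (Q × V k) (Θ × (V k × ℕ)) (V k → ℝ)} (h : ℕ)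
    (hF : ∀ t g ξ ξ', F t g ξ = F t g ξ') (θ : Θ) (ξ ξ' : Ξ) : famS N h F θ ξ = famS N h F θ ξ' := by
  funext e g x d
  unfold famS
  rw [hF _ _ ξ ξ']

/-- forget the coins -/
def pq (w : GM.Sq k N ι Θ (Ξ × Q)) : GM.Sq k N ι Θ Q := (w.1, fun j => GM.vm w j, w.2.2)

omit [Fintype ι] [DecidableEq ι] in
theorem th_pq (w : GM.Sq k N ι Θ (Ξ × Q)) : GM.th (pq w) = GM.th w := rfl

omit [Fintype ι] [DecidableEq ι] in
theorem vs_pq (w : GM.Sq k N ι Θ (Ξ × Q)) : GM.vs (pq w) = GM.vm w := rfl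

omit [Fintype ι] [DecidableEq ι] in
theorem nz_pq (w : GM.Sq k N ι Θ (Ξ × Q)) : GM.nz (pq w) = GM.nz w := rfl

theorem ctr_pq (σ : V k) (w : GM.Sq k N ι Θ (Ξ × Q)) : GM.ctr σ (pq w) = GM.ctr σ w := rfl

theorem Gm_pq (σ : V k) (h e : ℕ) (w : GM.Sq k N ι Θ (Ξ × Q)) : GM.Gm σ h e (pq w) = GM.Gm σ h e w := rfl

theorem Yn_pq (σ : V k) (e : ℕ) (w : GM.Sq k N ι Θ (Ξ × Q)) : GM.Yn σ e (pq w) = GM.Yn σ e w := rfl

theorem rch_Gm {P : Type} (σ : V k) (h : ℕ) {e : ℕ} (he : e ≤ N) (w : GM.Sq k N ι Θ P) : Rch N h e (GM.Gm σ h e w) := by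
  refine ⟨flr_flr le_rfl _, ?_⟩
  show GM.nz w / 2 ^ e < 2 ^ (N - e)
  rw [Nat.div_lt_iff_lt_mul (by positivity), ← pow_add, Nat.sub_add_cancel he]
  exact w.2.2.isLt

/-- every such node is reached -/
theorem exists_node [Nonempty Q] [Nonempty Ξ] (σ : V k) (i : ι) {h e : ℕ} (he : e ≤ N) {g : V k × ℕ}
    (hg : Rch N h e g) (θ : Θ) : ∃ w : GM.Sq k N ι Θ (Ξ × Q), GM.gv σ h e w = (θ, g) := by
  classical
  obtain ⟨ξ0⟩ := (inferInstance : Nonempty (Ξ × Q))
  have hlt : g.2 * 2 ^ e < 2 ^ N := by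
    have h1 := hg.2
    calc g.2 * 2 ^ e < 2 ^ (N - e) * 2 ^ e := Nat.mul_lt_mul_of_pos_right h1 (by positivity)
      _ = 2 ^ N := by rw [← pow_add, Nat.sub_add_cancel he]
  refine ⟨(θ, fun j => (ξ0, if j = i then g.1 - σ else 0), ⟨g.2 * 2 ^ e, hlt⟩), ?_⟩
  refine Prod.ext rfl ?_
  show G h e (∑ j, (if j = i then g.1 - σ else 0) + σ) (g.2 * 2 ^ e) = g
  rw [Finset.sum_ite_eq' univ i, if_pos (mem_univ i), sub_add_cancel]
  unfold G gam Bin.pos
  rw [Nat.mul_mod_left, Nat.cast_zero, add_zero, hg.1, Nat.mul_div_cancel _ (by positivity)]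

section law

variable [Fintype Θ] [Nonempty Θ] [Fintype Ξ] [Nonempty Ξ] [Fintype Q] [Nonempty Q]

/-- same values at the sample points -/
theorem fv_famS (σ : V k) (i : ι) (hN : N ≤ k) (h : ℕ) (F : GM.Mov Ξ ι (Q × V k) (Θ × (V k × ℕ)) (V k → ℝ)) {e : ℕ}
    (he : e ≤ N) (w : GM.Sq k N ι Θ (Ξ × Q)) :
    GM.fv σ h (famS N h F (GM.th w) (GM.xm i w)) e (pq w) =
      (GM.binSys Θ Ξ Q σ i hN h).at' F (N - e) w := by
  funext d
  unfold GM.fv famS
  rw [Gm_pq, vs_pq, if_pos ⟨he, rch_Gm σ h he w⟩]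
  show F (N - e) (GM.th w, GM.Gm σ h e w) (GM.xm i w) (GM.vm w) d =
    F (N - e) (GM.gv σ h (ex N (N - e)) w) (GM.xm i w) (GM.vm w) d
  have h1 : ex N (N - e) = e := by
    unfold ex
    omega
  rw [h1]
  rfl

/-- the coin is uniform and independent of the projection -/
theorem E_pq (i : ι) (f : Ξ → GM.Sq k N ι Θ Q → ℝ) :
    (GM.PM k N ι Θ Ξ Q).E (fun w => f (GM.xm i w) (pq w)) =
      ∑ ξ, (Fintype.card Ξ : ℝ)⁻¹ * (GM.Pm : FP (GM.Sq k N ι Θ Q)).E (f ξ) := by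
  classical
  let e : GM.Sq k N ι Θ (Ξ × Q) ≃ (ι → Ξ) × GM.Sq k N ι Θ Q :=
    { toFun := fun w => (fun j => (w.2.1 j).1.1, pq w)
      invFun := fun q => (q.2.1, fun j => ((q.1 j, (q.2.2.1 j).1), (q.2.2.1 j).2), q.2.2.2)
      left_inv := fun w => rfl
      right_inv := fun q => rfl }
  have hX : (Fintype.card Ξ : ℝ) ≠ 0 := Nat.cast_ne_zero.mpr Fintype.card_ne_zero
  have hXi : (Fintype.card (ι → Ξ) : ℝ) ≠ 0 := Nat.cast_ne_zero.mpr Fintype.card_ne_zero
  have hS : (Fintype.card (GM.Sq k N ι Θ Q) : ℝ) ≠ 0 := Nat.cast_ne_zero.mpr Fintype.card_ne_zero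
  unfold GM.PM GM.Pm
  rw [FP.unif_E, Fintype.card_congr e, Fintype.card_prod]
  have h1 : ∑ w : GM.Sq k N ι Θ (Ξ × Q), f (GM.xm i w) (pq w) =
      ∑ q : (ι → Ξ) × GM.Sq k N ι Θ Q, f (q.1 i) q.2 := Fintype.sum_equiv e _ _ fun w => rfl
  rw [h1, Fintype.sum_prod_type]
  have h2 := GM.resample i (fun c : ι → Ξ => ∑ v : GM.Sq k N ι Θ Q, f (c i) v)
  simp only [Function.update_self, Finset.sum_const, Finset.card_univ, nsmul_eq_mul] at h2
  have h3 : ∀ ξ, (Fintype.card Ξ : ℝ)⁻¹ * (FP.unif (GM.Sq k N ι Θ Q)).E (f ξ) =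
      (Fintype.card Ξ : ℝ)⁻¹ * (Fintype.card (GM.Sq k N ι Θ Q) : ℝ)⁻¹ * ∑ v, f ξ v := by
    intro ξ
    rw [FP.unif_E]
    ring
  rw [Finset.sum_congr rfl fun ξ _ => h3 ξ, ← Finset.mul_sum]
  push_cast
  rw [div_eq_iff (mul_ne_zero hXi hS)]
  have h4 : ∑ c : ι → Ξ, ∑ v : GM.Sq k N ι Θ Q, f (c i) v =
      (Fintype.card Ξ : ℝ)⁻¹ * ((Fintype.card (ι → Ξ) : ℝ) * ∑ a, ∑ v, f a v) := by
    rw [← h2]
    field_simp
  rw [h4]
  field_simp

/-- the same for events -/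
theorem Pr_pq (i : ι) (A : Ξ → GM.Sq k N ι Θ Q → Prop) :
    (GM.PM k N ι Θ Ξ Q).Pr (fun w => A (GM.xm i w) (pq w)) =
      ∑ ξ, (Fintype.card Ξ : ℝ)⁻¹ * (GM.Pm : FP (GM.Sq k N ι Θ Q)).Pr (A ξ) :=
  E_pq i fun ξ v => ind (A ξ v)

/-- **PRODUCT TESTS FROM `Rare`**, at fixed public randomness, coins averaged -/
theorem rare_PTm (σ : V k) (i : ι) (hN : N ≤ k) (h : ℕ) {F : GM.Mov Ξ ι (Q × V k) (Θ × (V k × ℕ)) (V k → ℝ)}
    {a : ι} {θ acc : ℝ} (hF1 : ∀ t g ξ x d, |F t g ξ x d| ≤ 1) (hθ : 0 ≤ θ) (hacc : 0 ≤ acc)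
    (hR : (GM.binSys Θ Ξ Q σ i hN h).Rare univ a F θ acc) (θ0 : Θ) :
    PTm (fun _ => (Fintype.card Ξ : ℝ)⁻¹) a h N (famS N h F θ0) θ (acc + 8 * ((2 : ℝ) ^ h)⁻¹) := by
  classical
  intro e he g c v hv hv1
  have hcard : (0 : ℝ) < Fintype.card Ξ := Nat.cast_pos.mpr Fintype.card_pos
  by_cases hg : Rch N h e (coar h e g)
  · obtain ⟨w0, hw0⟩ := exists_node (Ξ := Ξ) (Q := Q) σ i he hg θ0
    have hex : ex N (N - e) = e := by
      unfold ex
      omega
    set y : ι → Q × V k := fun l => (Classical.arbitrary Q, c l) with hy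
    have h1 := hR (N - e) (Nat.sub_le N e) w0 y v (fun w hw => ?_) hv1
    swap
    · intro x x' hxx
      refine hv w (Finset.ne_of_mem_erase hw) fun l hl => hxx l ?_
      have hl' : l ≠ a ∧ l ≠ w := by
        refine ⟨fun h => hl (Or.inl h), fun h => hl (Or.inr h)⟩
      exact Finset.mem_erase.mpr ⟨hl'.2, Finset.mem_erase.mpr ⟨hl'.1, mem_univ l⟩⟩
    have hgm : (GM.binSys Θ Ξ Q σ i hN h).gm (N - e) w0 = (θ0, coar h e g) := by
      show GM.gv σ h (ex N (N - e)) w0 = _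
      rw [hex, hw0]
    have hrho : (GM.binSys Θ Ξ Q σ i hN h).ρ (N - e) (θ0, coar h e g) = rho h e (flr (e - h) g.1) := by
      show rho h (ex N (N - e)) (coar h e g).1 = _
      rw [hex]
      rfl
    have hbox : ∀ z : ι → Q × V k, (GM.binSys Θ Ξ Q σ i hN h).Box univ (N - e) y z ↔ z ∈ GM.SCm (P := Q) h e c := by
      intro z
      rw [GM.mem_SCm]
      constructor
      · rintro ⟨_, h2⟩ l
        have h3 : flr (ex N (N - e) - (h + 3)) (z l).2 = flr (ex N (N - e) - (h + 3)) (y l).2 := h2 l (mem_univ l)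
        rwa [hex] at h3
      · intro h2
        refine ⟨fun l hl => absurd (mem_univ l) hl, fun l _ => ?_⟩
        show flr (ex N (N - e) - (h + 3)) (z l).2 = flr (ex N (N - e) - (h + 3)) (y l).2
        rw [hex]
        exact h2 l
    rw [hgm, hrho] at h1
    have hsum : ∑ z : ι → Q × V k, ind ((GM.binSys Θ Ξ Q σ i hN h).Box univ (N - e) y z) =
        ((GM.SCm (P := Q) h e c).card : ℝ) := sum_ind_cd _ _ hbox
    rw [Finset.sum_const, Finset.card_univ, nsmul_eq_mul, hsum] at h1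
    have h2 : ∀ ξ, (((GM.SCm (P := Q) h e c).filter fun x => acc + 8 * ((2 : ℝ) ^ h)⁻¹ ≤
        |av e g.1 (fun d => famS N h F θ0 ξ e (coar h e g) x d * ∏ w ∈ univ.erase a, v w x d)|).card : ℝ) ≤
        ∑ z : ι → Q × V k, ind ((GM.binSys Θ Ξ Q σ i hN h).Box univ (N - e) y z ∧
          acc ≤ |TS.iw (rho h e (flr (e - h) g.1)) (F (N - e) (θ0, coar h e g) ξ z)
            (fun d => ∏ j ∈ univ.erase a, v j z d)|) := by
      intro ξ
      rw [← sum_ind_cd (fun z => z ∈ (GM.SCm (P := Q) h e c).filter fun x => acc + 8 * ((2 : ℝ) ^ h)⁻¹ ≤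
        |av e g.1 (fun d => famS N h F θ0 ξ e (coar h e g) x d * ∏ w ∈ univ.erase a, v w x d)|) _ fun z => Iff.rfl]
      refine Finset.sum_le_sum fun z _ => ind_mono fun hz => ?_
      rw [Finset.mem_filter] at hz
      refine ⟨(hbox z).2 hz.1, ?_⟩
      have h3 := hz.2
      have h4 : ∀ d, famS N h F θ0 ξ e (coar h e g) z d = F (N - e) (θ0, coar h e g) ξ z d := by
        intro d
        unfold famS
        rw [if_pos ⟨he, hg⟩]
      simp only [h4] at h3
      have h5 : av e g.1 (fun d => F (N - e) (θ0, coar h e g) ξ z d * ∏ w ∈ univ.erase a, v w z d) =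
          TS.iw (Wd e g.1) (F (N - e) (θ0, coar h e g) ξ z) (fun d => ∏ w ∈ univ.erase a, v w z d) := by
        rw [iw_Wd]
        rfl
      rw [h5] at h3
      have h6 := iw_near h e (he.trans hN) g.1 (F (N - e) (θ0, coar h e g) ξ z) (fun d => ∏ w ∈ univ.erase a, v w z d)
        (fun d => (hF1 _ _ _ _ _).trans one_le_two) (fun d => by
          rw [Finset.abs_prod]
          exact (Finset.prod_le_one (fun _ _ => abs_nonneg _) fun j _ => hv1 _ _ _).trans one_le_two)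
      have h7 := abs_sub_abs_le_abs_sub
        (TS.iw (Wd e g.1) (F (N - e) (θ0, coar h e g) ξ z) (fun d => ∏ w ∈ univ.erase a, v w z d))
        (TS.iw (rho h e (flr (e - h) g.1)) (F (N - e) (θ0, coar h e g) ξ z) (fun d => ∏ w ∈ univ.erase a, v w z d))
      linarith
    calc ∑ ξ, (Fintype.card Ξ : ℝ)⁻¹ * (((GM.SCm (P := Q) h e c).filter fun x => acc + 8 * ((2 : ℝ) ^ h)⁻¹ ≤
          |av e g.1 (fun d => famS N h F θ0 ξ e (coar h e g) x d * ∏ w ∈ univ.erase a, v w x d)|).card : ℝ)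
        ≤ ∑ ξ, (Fintype.card Ξ : ℝ)⁻¹ * ∑ z : ι → Q × V k,
          ind ((GM.binSys Θ Ξ Q σ i hN h).Box univ (N - e) y z ∧
          acc ≤ |TS.iw (rho h e (flr (e - h) g.1)) (F (N - e) (θ0, coar h e g) ξ z)
            (fun d => ∏ j ∈ univ.erase a, v j z d)|) :=
          Finset.sum_le_sum fun ξ _ => mul_le_mul_of_nonneg_left (h2 ξ) (by positivity)
      _ = (Fintype.card Ξ : ℝ)⁻¹ * ∑ ξ, ∑ z : ι → Q × V k,
          ind ((GM.binSys Θ Ξ Q σ i hN h).Box univ (N - e) y z ∧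
          acc ≤ |TS.iw (rho h e (flr (e - h) g.1)) (F (N - e) (θ0, coar h e g) ξ z)
            (fun d => ∏ j ∈ univ.erase a, v j z d)|) := by rw [Finset.mul_sum]
      _ ≤ (Fintype.card Ξ : ℝ)⁻¹ * (θ * (Fintype.card Ξ * ((GM.SCm (P := Q) h e c).card : ℝ))) :=
          mul_le_mul_of_nonneg_left h1 (by positivity)
      _ = θ * (GM.SCm (P := Q) h e c).card := by field_simp
  · have h0 : ∀ ξ x d, famS N h F θ0 ξ e (coar h e g) x d = 0 := by
      intro ξ x d
      unfold famS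
      rw [if_neg fun h => hg h.2]
    have h1 : ∀ ξ, ((GM.SCm (P := Q) h e c).filter fun x => acc + 8 * ((2 : ℝ) ^ h)⁻¹ ≤
        |av e g.1 (fun d => famS N h F θ0 ξ e (coar h e g) x d * ∏ w ∈ univ.erase a, v w x d)|) = ∅ := by
      intro ξ
      rw [Finset.filter_eq_empty_iff]
      intro x _ hx
      simp only [h0, zero_mul] at hx
      rw [av_const, abs_zero] at hx
      have : (0 : ℝ) < 8 * ((2 : ℝ) ^ h)⁻¹ := by positivity
      linarith
    simp only [h1, Finset.card_empty, Nat.cast_zero, mul_zero, Finset.sum_const_zero]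
    positivity

/-- fixed public randomness -/
theorem E_th {R : Type} [Fintype R] [Nonempty R] (θ0 : Θ) (g : R → ℝ) :
    (FP.unif (Θ × R)).E (fun w => ind (w.1 = θ0) * g w.2) = (Fintype.card Θ : ℝ)⁻¹ * (FP.unif R).E g := by
  classical
  rw [FP.unif_E, FP.unif_E, Fintype.sum_prod_type, Fintype.card_prod, Finset.sum_comm]
  have h1 : ∀ x : R, ∑ t : Θ, ind (t = θ0) * g x = g x := by
    intro x
    rw [← Finset.sum_mul, GM.sum_ind_one, one_mul]
  rw [Finset.sum_congr rfl fun x _ => h1 x]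
  have h2 : (Fintype.card Θ : ℝ) ≠ 0 := Nat.cast_ne_zero.mpr Fintype.card_ne_zero
  push_cast
  field_simp

/-- events which do not see the public randomness -/
theorem E_snd {R : Type} [Fintype R] [Nonempty R] (g : R → ℝ) :
    (FP.unif (Θ × R)).E (fun w => g w.2) = (FP.unif R).E g := by
  rw [FP.unif_E, FP.unif_E, Fintype.sum_prod_type, Fintype.card_prod]
  simp only [Finset.sum_const, Finset.card_univ, nsmul_eq_mul]
  have h2 : (Fintype.card Θ : ℝ) ≠ 0 := Nat.cast_ne_zero.mpr Fintype.card_ne_zero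
  push_cast
  field_simp

/-- **THE NUMBER OF CHANGES FROM `Future`**, at fixed public randomness, coins averaged -/
theorem chg_famS (σ : V k) (i : ι) (hN : N ≤ k) (h : ℕ) {F : GM.Mov Ξ ι (Q × V k) (Θ × (V k × ℕ)) (V k → ℝ)}
    {I : Finset ι} {m0 : ℝ} (hF : (GM.binSys Θ Ξ Q σ i hN h).Future I F m0) (Θ' : Type) [Fintype Θ'] [Nonempty Θ']
    (θ0 : Θ) : chg N Θ' Q σ h (fun _ => (Fintype.card Ξ : ℝ)⁻¹) (famS N h F θ0) ≤ m0 := by
  classical
  have hcT : (0 : ℝ) < Fintype.card Θ := Nat.cast_pos.mpr Fintype.card_pos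
  set S := GM.binSys Θ Ξ Q σ i hN h with hS
  set B : ℕ → Ξ → (ι → Q × V k) × Fin (2 ^ N) → Prop := fun e ξ z =>
    GM.fv σ h (famS N h F θ0 ξ) (e + 1) ((θ0, z) : GM.Sq k N ι Θ Q) ≠
      GM.fv σ h (famS N h F θ0 ξ) e ((θ0, z) : GM.Sq k N ι Θ Q) with hB
  have h1 := hF 0 (fun w => ind (GM.th w = θ0)) ?_ fun w => ind_nonneg _
  swap
  · intro v w hvw
    have h2 : GM.gv σ h (ex N 0) v = GM.gv σ h (ex N 0) w := congrArg (fun z => z.2.2) hvw
    have h3 : GM.th v = GM.th w := congrArg (fun z : Θ × (V k × ℕ) => z.1) h2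
    show ind (GM.th v = θ0) = ind (GM.th w = θ0)
    rw [h3]
  have hE1 : S.P.E (fun w => ind (GM.th w = θ0)) = (Fintype.card Θ : ℝ)⁻¹ := by
    have h2 := E_th (Θ := Θ) (R := (ι → (Ξ × Q) × V k) × Fin (2 ^ N)) θ0 fun _ => (1 : ℝ)
    rw [(FP.unif _).E_const, mul_one] at h2
    rw [← h2]
    exact FP.E_congr _ fun w _ => (mul_one _).symm
  have hE2 : ∀ u ∈ Finset.Ico 0 S.n, S.P.E (fun w => ind (GM.th w = θ0) * ind (S.at' F (u + 1) w ≠ S.at' F u w)) =
      (Fintype.card Θ : ℝ)⁻¹ * ∑ ξ, (Fintype.card Ξ : ℝ)⁻¹ *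
        (FP.unif ((ι → Q × V k) × Fin (2 ^ N))).Pr (B (N - 1 - u) ξ) := by
    intro u hu
    have huN : u < N := (Finset.mem_Ico.1 hu).2
    have e1 : N - (u + 1) = N - 1 - u := by omega
    have e2 : N - u = N - 1 - u + 1 := by omega
    have h2 : S.P.E (fun w => ind (GM.th w = θ0) * ind (S.at' F (u + 1) w ≠ S.at' F u w)) =
        (GM.PM k N ι Θ Ξ Q).E (fun w => (fun (ξ : Ξ) (v : GM.Sq k N ι Θ Q) =>
          ind (v.1 = θ0) * ind (B (N - 1 - u) ξ v.2)) (GM.xm i w) (pq w)) := by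
      refine FP.E_congr _ fun w _ => ?_
      show ind (GM.th w = θ0) * ind (S.at' F (u + 1) w ≠ S.at' F u w) =
        ind (GM.th w = θ0) * ind (B (N - 1 - u) (GM.xm i w) (pq w).2)
      by_cases hw : GM.th w = θ0
      · have h3 := fv_famS σ i hN h F (e := N - (u + 1)) (Nat.sub_le _ _) w
        have h4 := fv_famS σ i hN h F (e := N - u) (Nat.sub_le _ _) w
        have e3 : N - (N - (u + 1)) = u + 1 := by omega
        have e4 : N - (N - u) = u := by omega
        rw [e3, hw] at h3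
        rw [e4, hw] at h4
        have h5 : (S.at' F (u + 1) w ≠ S.at' F u w) ↔ B (N - 1 - u) (GM.xm i w) (pq w).2 := by
          rw [← h3, ← h4, e1, e2]
          have h6 : ((θ0, (pq w).2) : GM.Sq k N ι Θ Q) = pq w := by
            rw [← hw]
            rfl
          show _ ↔ GM.fv σ h (famS N h F θ0 (GM.xm i w)) (N - 1 - u + 1) ((θ0, (pq w).2) : GM.Sq k N ι Θ Q) ≠
            GM.fv σ h (famS N h F θ0 (GM.xm i w)) (N - 1 - u) ((θ0, (pq w).2) : GM.Sq k N ι Θ Q)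
          rw [h6]
          exact ⟨fun h => h.symm, fun h => h.symm⟩
        congr 1
        exact congrArg ind (propext h5)
      · rw [ind_not hw, zero_mul, zero_mul]
    rw [h2, E_pq (k := k) (N := N) (Θ := Θ) (Q := Q) i (fun (ξ : Ξ) (v : GM.Sq k N ι Θ Q) =>
      ind (v.1 = θ0) * ind (B (N - 1 - u) ξ v.2)), Finset.mul_sum]
    refine Finset.sum_congr rfl fun ξ _ => ?_
    have h3 := E_th (Θ := Θ) (R := (ι → Q × V k) × Fin (2 ^ N)) θ0 fun z => ind (B (N - 1 - u) ξ z)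
    have h4 : (GM.Pm : FP (GM.Sq k N ι Θ Q)).E (fun v => ind (v.1 = θ0) * ind (B (N - 1 - u) ξ v.2)) =
        (Fintype.card Θ : ℝ)⁻¹ * (FP.unif ((ι → Q × V k) × Fin (2 ^ N))).E fun z => ind (B (N - 1 - u) ξ z) := h3
    rw [h4]
    unfold FP.Pr
    ring
  rw [Finset.sum_congr rfl hE2, hE1, ← Finset.mul_sum, mul_comm m0] at h1
  have h2 := le_of_mul_le_mul_left h1 (inv_pos.mpr hcT)
  refine le_trans (le_of_eq ?_) h2
  unfold chg
  rw [← Finset.range_eq_Ico]
  show _ = ∑ u ∈ range N, ∑ ξ, (Fintype.card Ξ : ℝ)⁻¹ *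
        (FP.unif ((ι → Q × V k) × Fin (2 ^ N))).Pr (B (N - 1 - u) ξ)
  rw [Finset.sum_range_reflect (fun e => ∑ ξ, (Fintype.card Ξ : ℝ)⁻¹ *
        (FP.unif ((ι → Q × V k) × Fin (2 ^ N))).Pr (B e ξ)) N]
  refine Finset.sum_congr rfl fun e _ => Finset.sum_congr rfl fun ξ _ => ?_
  congr 1
  exact E_snd (Θ := Θ') (R := (ι → Q × V k) × Fin (2 ^ N)) fun z => ind (B e ξ z)

/-- **ALL HYPOTHESES OF C2 FROM `Rare` AND `Future` of `binSys`**, pair `{a, b}`, at fixed public randomness; the family of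
`a` is the face `b`, the family of `b` is the face `a`; coins averaged, at most one of the two faces sees the coin -/
theorem brMov {a b : ι} (hab : a ≠ b) (o : Enu n a b) (σ : V k) (i : ι) (hN : N ≤ k) {h h' : ℕ} (hhh : h ≤ h')
    (hh q L : ℕ) {r θ acc m0 : ℝ} {Fa Fb : GM.Mov Ξ ι (Q × V k) (Θ × (V k × ℕ)) (V k → ℝ)}
    (hda : ∀ t g ξ, DependsOn (Fa t g ξ) ({a}ᶜ : Set ι)) (hdb : ∀ t g ξ, DependsOn (Fb t g ξ) ({b}ᶜ : Set ι))
    (ha1 : ∀ t g ξ x d, |Fa t g ξ x d| ≤ 1) (hb1 : ∀ t g ξ x d, |Fb t g ξ x d| ≤ 1)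
    (hc : (∀ t g ξ ξ', Fa t g ξ = Fa t g ξ') ∨ ∀ t g ξ ξ', Fb t g ξ = Fb t g ξ')
    (hRa : (GM.binSys Θ Ξ Q σ i hN h).Rare univ a Fa θ acc) (hRb : (GM.binSys Θ Ξ Q σ i hN h).Rare univ b Fb θ acc)
    {Ia Ib : Finset ι} (hFa : (GM.binSys Θ Ξ Q σ i hN h).Future Ia Fa m0)
    (hFb : (GM.binSys Θ Ξ Q σ i hN h).Future Ib Fb m0)
    (hn : 4 * n ≤ 2 ^ hh) (hh3 : hh ≤ h' + 3) (q1 : 1 ≤ q) (hacc : 0 ≤ acc)
    (rr : 4 * (acc + 8 * ((2 : ℝ) ^ h)⁻¹) ^ (2 * q) ≤ r) (rpos : 0 < r) (r1 : r ≤ 1) (hθ : 0 < θ)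
    (th1 : θ * 2 ^ ((h' - h) * (n + 1)) < 1) (m00 : 0 ≤ m0) (θ0 : Θ) :
    InsH (brI o N σ h h' hh q L r (θ * 2 ^ ((h' - h) * (n + 1))) (fun _ : Ξ => (Fintype.card Ξ : ℝ)⁻¹)
      (famS N h Fb θ0) (famS N h Fa θ0)) m0 (acc + 8 * ((2 : ℝ) ^ h)⁻¹) := by
  have w0 : ∀ _ξ : Ξ, (0 : ℝ) ≤ (Fintype.card Ξ : ℝ)⁻¹ := fun _ => by positivity
  have w1 : ∑ _ξ : Ξ, (Fintype.card Ξ : ℝ)⁻¹ = 1 := by
    rw [Finset.sum_const, Finset.card_univ, nsmul_eq_mul]
    exact mul_inv_cancel₀ (Nat.cast_ne_zero.mpr Fintype.card_ne_zero)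
  have hA : ∀ ξ, GM.FOn ({b}ᶜ : Set ι) (famS N h Fb θ0 ξ) := famS_on h hdb θ0
  have hB : ∀ ξ, GM.FOn ({a}ᶜ : Set ι) (famS N h Fa θ0 ξ) := famS_on h hda θ0
  refine brH hab o Unit hN σ h h' hh q L w0 w1 hA hB (famS_le zero_le_one h hb1 θ0) (famS_le zero_le_one h ha1 θ0) ?_
    ((rare_PTm σ i hN h hb1 hθ.le hacc hRb θ0).toPTcA hhh hN hab o σ w0 hA hθ.le)
    ((rare_PTm σ i hN h ha1 hθ.le hacc hRa θ0).toPTcB hhh hN hab o σ w0 hB hθ.le)
    (chg_famS σ i hN h hFb Unit θ0) (chg_famS σ i hN h hFa Unit θ0) hn hh3 q1 (by positivity) rr rpos r1 (by positivity)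
    th1 m00
  rcases hc with hc | hc
  · exact Or.inr fun ξ ξ' => famS_coin h hc θ0 ξ ξ'
  · exact Or.inl fun ξ ξ' => famS_coin h hc θ0 ξ ξ'

end law

end

end Pool.Agent.GMC
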