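import Pool.Agent.GMC.Mod2

/-!
# GMC/Mod3: the model of C2, part 3 (helper27): the linear micro sequence and the weights of a node

* `parT N h n τ` node at `τ` from the node at `τ + 1`, `chT N h n τ b` the children, `sgT N h n τ` sign of the step
  (`0` on a trivial step); `parT_Nc`, `Nc_chT`, `fac_sgT`;
* `fair_a`, `fair_b`, `fair_nd`: next node fair given (node, `a`), (node, `b`), node; `m_a_le`, `m_b_le`: masses fall at
  most by 2;
* `unif_a`, `unif_b`: `a` uniform and independent of the node;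
* `wU c ν i` uniform weights of the cell, `uW c ν` uniform weights of the window; `wU_half`, `uW_half`, `wU_upd`,
  `wU_noise`, `uW_cell`, `av_uW`.
-/

set_option autoImplicit false
set_option linter.unusedSectionVars false

namespace Pool.Agent.GMC

open Finset Pool.Agent.PWZ Pool.Agent.M3 Pool.Agent.M3.Bin Pool.Agent.M3.Mod

noncomputable section

variable {k N n : ℕ} {P : Type}

/-! ## the linear sequence -/

/-- node at `τ` from the node at `τ + 1` -/
def parT (N h n τ : ℕ) (ν : Nd k n) : Nd k n :=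
  if cf N h n (τ + 1) = cf N h n τ then ν else prt (stp n τ) (cf N h n (τ + 1)) ν

/-- the children (equal on a trivial step) -/
def chT (N h n τ b : ℕ) (ν : Nd k n) : Nd k n :=
  if cf N h n (τ + 1) = cf N h n τ then ν else chd (stp n τ) (cf N h n (τ + 1)) b ν

/-- sign of the step, `0` on a trivial step -/
def sgT (N h n τ : ℕ) (ω : S2 k N n P) : ℝ :=
  if cf N h n (τ + 1) = cf N h n τ then 0 else sg (stp n τ) (cf N h n (τ + 1)) (Nc (cf N h n (τ + 1)) ω)

/-- a step which is not trivial -/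
theorem cf_step' {h τ : ℕ} (hN : N ≤ k) (hτ : τ < (n + 1) * N) (h0 : cf N h n (τ + 1) ≠ cf N h n τ) :
    up (stp n τ) (cf N h n (τ + 1)) = cf N h n τ ∧ Ok k N (stp n τ) (cf N h n (τ + 1)) := by
  rcases cf_step (n := n) (h := h) hN hτ with h1 | h1
  · exact ⟨h1.1.symm, h1.2⟩
  · exact absurd h1 h0

theorem parT_Nc {h τ : ℕ} (hN : N ≤ k) (hτ : τ < (n + 1) * N) (ω : S2 k N n P) :
    parT N h n τ (Nc (cf N h n (τ + 1)) ω) = Nc (cf N h n τ) ω := by
  unfold parT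
  split_ifs with h0
  · rw [h0]
  · have h1 := cf_step' hN hτ h0
    rw [prt_Nc, h1.1]

theorem sgT_val (h τ : ℕ) (ω : S2 k N n P) : sgT N h n τ ω = 0 ∨ sgT N h n τ ω = 1 ∨ sgT N h n τ ω = -1 := by
  unfold sgT
  split_ifs with h0
  · exact Or.inl rfl
  · exact Or.inr (sg_val _ _ _)

theorem fac_sgT (h τ : ℕ) : Fac (Nc (k := k) (N := N) (P := P) (cf N h n (τ + 1))) (sgT N h n τ) := by
  intro v w hvw
  unfold sgT
  rw [hvw]

/-- the next node is one of the two children, according to the sign -/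
theorem Nc_chT {h τ : ℕ} (hN : N ≤ k) (hτ : τ < (n + 1) * N) (ω : S2 k N n P) :
    Nc (cf N h n (τ + 1)) ω = chT N h n τ (if sgT N h n τ ω = -1 then 1 else 0) (Nc (cf N h n τ) ω) := by
  unfold chT sgT
  by_cases h0 : cf N h n (τ + 1) = cf N h n τ
  · rw [if_pos h0, h0]
  · rw [if_neg h0, if_neg h0]
    have h2 := cf_step' hN hτ h0
    have h3 : (up (stp n τ) (cf N h n (τ + 1))).1 ≤ N := by rw [h2.1]; exact cf_fst_le _ _ _
    rw [sg_Nc h2.2 h3]
    have h4 := bs_lt (stp n τ) (cf N h n (τ + 1)) ω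
    have h5 : (if (if bs (stp n τ) (cf N h n (τ + 1)) ω = 0 then (1 : ℝ) else -1) = -1 then 1 else 0) =
        bs (stp n τ) (cf N h n (τ + 1)) ω := by
      rcases (by omega : bs (stp n τ) (cf N h n (τ + 1)) ω = 0 ∨ bs (stp n τ) (cf N h n (τ + 1)) ω = 1) with h6 | h6
      · rw [h6, if_pos rfl, if_neg (by norm_num)]
      · rw [h6, if_neg one_ne_zero, if_pos rfl]
    rw [h5, ← h2.1]
    exact Nc_eq _ _ _

section law

variable [Fintype P] [Nonempty P]

theorem ce_self {κ : Type*} {X : S2 k N n P → κ} {f : S2 k N n P → ℝ} (hf : Fac X f) (ω0 : S2 k N n P) :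
    (Pu k N n P).ce X f ω0 = f ω0 := FP.ce_of_fac _ hf (Pu_ne ω0)

/-- next node given (node, `a`) -/
theorem fair_a {h τ : ℕ} (hN : N ≤ k) (hτ : τ < (n + 1) * N) (f : Nd k n → P × V k → ℝ) (ω0 : S2 k N n P) :
    (Pu k N n P).ce (fun ω => (Nc (cf N h n τ) ω, va ω)) (fun ω => f (Nc (cf N h n (τ + 1)) ω) (va ω)) ω0 =
      (f (chT N h n τ 0 (Nc (cf N h n τ) ω0)) (va ω0) + f (chT N h n τ 1 (Nc (cf N h n τ) ω0)) (va ω0)) / 2 := by
  unfold chT
  by_cases h0 : cf N h n (τ + 1) = cf N h n τ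
  · rw [if_pos h0, if_pos h0, h0]
    rw [ce_self (fun v w hvw => by simp only [Prod.mk.injEq] at hvw; rw [hvw.1, hvw.2])]
    ring
  · rw [if_neg h0, if_neg h0]
    have h2 := cf_step' hN hτ h0
    have h3 : (up (stp n τ) (cf N h n (τ + 1))).1 ≤ N := by rw [h2.1]; exact cf_fst_le _ _ _
    have h4 : ∀ i, (up (stp n τ) (cf N h n (τ + 1))).2 i ≤ k := by
      intro i; rw [h2.1]; exact (cf_snd_le _ _ _ _).trans hN
    have h5 := ce_fair_a h2.2 h3 hN h4 f ω0
    rw [h2.1] at h5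
    exact h5

/-- next node given (node, `b`) -/
theorem fair_b {h τ : ℕ} (hN : N ≤ k) (hτ : τ < (n + 1) * N) (f : Nd k n → P × V k → ℝ) (ω0 : S2 k N n P) :
    (Pu k N n P).ce (fun ω => (Nc (cf N h n τ) ω, vb ω)) (fun ω => f (Nc (cf N h n (τ + 1)) ω) (vb ω)) ω0 =
      (f (chT N h n τ 0 (Nc (cf N h n τ) ω0)) (vb ω0) + f (chT N h n τ 1 (Nc (cf N h n τ) ω0)) (vb ω0)) / 2 := by
  unfold chT
  by_cases h0 : cf N h n (τ + 1) = cf N h n τ
  · rw [if_pos h0, if_pos h0, h0]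
    rw [ce_self (fun v w hvw => by simp only [Prod.mk.injEq] at hvw; rw [hvw.1, hvw.2])]
    ring
  · rw [if_neg h0, if_neg h0]
    have h2 := cf_step' hN hτ h0
    have h3 : (up (stp n τ) (cf N h n (τ + 1))).1 ≤ N := by rw [h2.1]; exact cf_fst_le _ _ _
    have h4 : ∀ i, (up (stp n τ) (cf N h n (τ + 1))).2 i ≤ k := by
      intro i; rw [h2.1]; exact (cf_snd_le _ _ _ _).trans hN
    have h5 := ce_fair_b h2.2 h3 hN h4 f ω0
    rw [h2.1] at h5
    exact h5

/-- next node given the node -/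
theorem fair_nd {h τ : ℕ} (hN : N ≤ k) (hτ : τ < (n + 1) * N) (f : Nd k n → ℝ) (ω0 : S2 k N n P) :
    (Pu k N n P).ce (Nc (cf N h n τ)) (fun ω => f (Nc (cf N h n (τ + 1)) ω)) ω0 =
      (f (chT N h n τ 0 (Nc (cf N h n τ) ω0)) + f (chT N h n τ 1 (Nc (cf N h n τ) ω0))) / 2 := by
  unfold chT
  by_cases h0 : cf N h n (τ + 1) = cf N h n τ
  · rw [if_pos h0, if_pos h0, h0]
    rw [ce_self (fun v w hvw => by rw [hvw])]
    ring
  · rw [if_neg h0, if_neg h0]
    have h2 := cf_step' hN hτ h0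
    have h3 : (up (stp n τ) (cf N h n (τ + 1))).1 ≤ N := by rw [h2.1]; exact cf_fst_le _ _ _
    have h4 : ∀ i, (up (stp n τ) (cf N h n (τ + 1))).2 i ≤ k := by
      intro i; rw [h2.1]; exact (cf_snd_le _ _ _ _).trans hN
    have h5 := ce_fair h2.2 h3 hN h4 f ω0
    rw [h2.1] at h5
    exact h5

/-- the mass of (node, `a`) falls at most by 2 in a step -/
theorem m_a_le {h τ : ℕ} (hN : N ≤ k) (hτ : τ < (n + 1) * N) (ω0 : S2 k N n P) :
    (Pu k N n P).m (fun ω => (Nc (cf N h n τ) ω, va ω)) ω0 ≤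
      2 * (Pu k N n P).m (fun ω => (Nc (cf N h n (τ + 1)) ω, va ω)) ω0 := by
  have h1 := fair_a (h := h) hN hτ (fun ν a => ind ((ν, a) = (Nc (cf N h n (τ + 1)) ω0, va ω0))) ω0
  have h2 : (1 : ℝ) / 2 ≤ (ind ((chT N h n τ 0 (Nc (cf N h n τ) ω0), va ω0) = (Nc (cf N h n (τ + 1)) ω0, va ω0)) +
      ind ((chT N h n τ 1 (Nc (cf N h n τ) ω0), va ω0) = (Nc (cf N h n (τ + 1)) ω0, va ω0))) / 2 := by
    have h3 := Nc_chT (h := h) hN hτ ω0
    by_cases h4 : sgT N h n τ ω0 = -1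
    · rw [if_pos h4] at h3
      rw [← h3, ind_of (p := (Nc (cf N h n (τ + 1)) ω0, va ω0) = (Nc (cf N h n (τ + 1)) ω0, va ω0)) rfl]
      have := ind_nonneg ((chT N h n τ 0 (Nc (cf N h n τ) ω0), va ω0) = (Nc (cf N h n (τ + 1)) ω0, va ω0))
      linarith
    · rw [if_neg h4] at h3
      rw [← h3, ind_of (p := (Nc (cf N h n (τ + 1)) ω0, va ω0) = (Nc (cf N h n (τ + 1)) ω0, va ω0)) rfl]
      have := ind_nonneg ((chT N h n τ 1 (Nc (cf N h n τ) ω0), va ω0) = (Nc (cf N h n (τ + 1)) ω0, va ω0))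
      linarith
  rw [← h1] at h2
  unfold FP.ce at h2
  have hpos := (Pu k N n P).m_pos (fun ω => (Nc (cf N h n τ) ω, va ω)) (Pu_ne ω0)
  rw [div_le_div_iff₀ (by norm_num) hpos] at h2
  have h5 : (Pu k N n P).E (fun v => ind ((Nc (cf N h n τ) v, va v) = (Nc (cf N h n τ) ω0, va ω0)) *
      ind ((Nc (cf N h n (τ + 1)) v, va v) = (Nc (cf N h n (τ + 1)) ω0, va ω0))) ≤
      (Pu k N n P).m (fun ω => (Nc (cf N h n (τ + 1)) ω, va ω)) ω0 := by
    unfold FP.m
    refine FP.E_mono _ (fun v _ => ?_)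
    have e1 := ind_le_one ((Nc (cf N h n τ) v, va v) = (Nc (cf N h n τ) ω0, va ω0))
    have e2 := ind_nonneg ((Nc (cf N h n (τ + 1)) v, va v) = (Nc (cf N h n (τ + 1)) ω0, va ω0))
    nlinarith
  linarith

/-- the mass of (node, `b`) falls at most by 2 in a step -/
theorem m_b_le {h τ : ℕ} (hN : N ≤ k) (hτ : τ < (n + 1) * N) (ω0 : S2 k N n P) :
    (Pu k N n P).m (fun ω => (Nc (cf N h n τ) ω, vb ω)) ω0 ≤
      2 * (Pu k N n P).m (fun ω => (Nc (cf N h n (τ + 1)) ω, vb ω)) ω0 := by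
  have h1 := fair_b (h := h) hN hτ (fun ν a => ind ((ν, a) = (Nc (cf N h n (τ + 1)) ω0, vb ω0))) ω0
  have h2 : (1 : ℝ) / 2 ≤ (ind ((chT N h n τ 0 (Nc (cf N h n τ) ω0), vb ω0) = (Nc (cf N h n (τ + 1)) ω0, vb ω0)) +
      ind ((chT N h n τ 1 (Nc (cf N h n τ) ω0), vb ω0) = (Nc (cf N h n (τ + 1)) ω0, vb ω0))) / 2 := by
    have h3 := Nc_chT (h := h) hN hτ ω0
    by_cases h4 : sgT N h n τ ω0 = -1
    · rw [if_pos h4] at h3
      rw [← h3, ind_of (p := (Nc (cf N h n (τ + 1)) ω0, vb ω0) = (Nc (cf N h n (τ + 1)) ω0, vb ω0)) rfl]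
      have := ind_nonneg ((chT N h n τ 0 (Nc (cf N h n τ) ω0), vb ω0) = (Nc (cf N h n (τ + 1)) ω0, vb ω0))
      linarith
    · rw [if_neg h4] at h3
      rw [← h3, ind_of (p := (Nc (cf N h n (τ + 1)) ω0, vb ω0) = (Nc (cf N h n (τ + 1)) ω0, vb ω0)) rfl]
      have := ind_nonneg ((chT N h n τ 1 (Nc (cf N h n τ) ω0), vb ω0) = (Nc (cf N h n (τ + 1)) ω0, vb ω0))
      linarith
  rw [← h1] at h2
  unfold FP.ce at h2
  have hpos := (Pu k N n P).m_pos (fun ω => (Nc (cf N h n τ) ω, vb ω)) (Pu_ne ω0)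
  rw [div_le_div_iff₀ (by norm_num) hpos] at h2
  have h5 : (Pu k N n P).E (fun v => ind ((Nc (cf N h n τ) v, vb v) = (Nc (cf N h n τ) ω0, vb ω0)) *
      ind ((Nc (cf N h n (τ + 1)) v, vb v) = (Nc (cf N h n (τ + 1)) ω0, vb ω0))) ≤
      (Pu k N n P).m (fun ω => (Nc (cf N h n (τ + 1)) ω, vb ω)) ω0 := by
    unfold FP.m
    refine FP.E_mono _ (fun v _ => ?_)
    have e1 := ind_le_one ((Nc (cf N h n τ) v, vb v) = (Nc (cf N h n τ) ω0, vb ω0))
    have e2 := ind_nonneg ((Nc (cf N h n (τ + 1)) v, vb v) = (Nc (cf N h n (τ + 1)) ω0, vb ω0))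
    nlinarith
  linarith

/-! ## uniform laws -/

/-- mean over an independent uniform coordinate, abstract form -/
theorem unif_of_equiv {O1 O2 ι : Type*} [Fintype O1] [Nonempty O1] [Fintype O2]
    (e : S2 k N n P ≃ O1 × O2) {X : S2 k N n P → ι} (hX : ∀ v w, (e v).2 = (e w).2 → X v = X w) (F : ι → O1 → ℝ) :
    (Pu k N n P).E (fun ω => F (X ω) (e ω).1) =
      (Pu k N n P).E (fun ω => (Fintype.card O1 : ℝ)⁻¹ * ∑ v, F (X ω) v) := by
  have hO1 : (Fintype.card O1 : ℝ) ≠ 0 := Nat.cast_ne_zero.mpr Fintype.card_ne_zero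
  unfold Pu
  rw [FP.unif_E, FP.unif_E]
  congr 1
  rw [← e.symm.sum_comp, ← e.symm.sum_comp (fun ω => (Fintype.card O1 : ℝ)⁻¹ * ∑ v, F (X ω) v),
    Fintype.sum_prod_type_right, Fintype.sum_prod_type_right]
  refine Finset.sum_congr rfl fun y _ => ?_
  obtain ⟨x0⟩ := (inferInstance : Nonempty O1)
  have h1 : ∀ x, X (e.symm (x, y)) = X (e.symm (x0, y)) := fun x => hX _ _ (by simp)
  have h2 : ∑ x, F (X (e.symm (x, y))) (e (e.symm (x, y))).1 = ∑ x, F (X (e.symm (x0, y))) x := by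
    refine Finset.sum_congr rfl fun x _ => ?_
    rw [h1 x]
    simp
  have h3 : ∑ x, (Fintype.card O1 : ℝ)⁻¹ * ∑ v, F (X (e.symm (x, y))) v =
      ∑ _x : O1, (Fintype.card O1 : ℝ)⁻¹ * ∑ v, F (X (e.symm (x0, y))) v :=
    Finset.sum_congr rfl fun x _ => by rw [h1 x]
  rw [h2, h3, Finset.sum_const, Finset.card_univ, nsmul_eq_mul, ← mul_assoc, mul_inv_cancel₀ hO1, one_mul]

/-- `a` is uniform and independent of every function of (centre, noise, other vertices) -/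
theorem unif_a {ι : Type*} {X : S2 k N n P → ι} (hX : Fac (fun ω : S2 k N n P => (ct ω, vo ω, nw ω)) X)
    (F : ι → P × V k → ℝ) :
    (Pu k N n P).E (fun ω => F (X ω) (va ω)) =
      (Pu k N n P).E (fun ω => (Fintype.card (P × V k) : ℝ)⁻¹ * ∑ v, F (X ω) v) := by
  refine unif_of_equiv (eqA (k := k) (N := N) (n := n) (P := P)) (fun v w h => hX v w ?_) F
  simp only [eqA, Equiv.coe_fn_mk, Prod.mk.injEq] at h
  obtain ⟨_, h2, h3, h4⟩ := h
  exact Prod.ext h2 (Prod.ext h3 (congrArg Fin.val h4))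

/-- `b` is uniform and independent of every function of (centre, noise, other vertices) -/
theorem unif_b {ι : Type*} {X : S2 k N n P → ι} (hX : Fac (fun ω : S2 k N n P => (ct ω, vo ω, nw ω)) X)
    (F : ι → P × V k → ℝ) :
    (Pu k N n P).E (fun ω => F (X ω) (vb ω)) =
      (Pu k N n P).E (fun ω => (Fintype.card (P × V k) : ℝ)⁻¹ * ∑ v, F (X ω) v) := by
  refine unif_of_equiv (eqB (k := k) (N := N) (n := n) (P := P)) (fun v w h => hX v w ?_) F
  simp only [eqB, Equiv.coe_fn_mk, Prod.mk.injEq] at h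
  obtain ⟨_, h2, h3, h4⟩ := h
  exact Prod.ext h2 (Prod.ext h3 (congrArg Fin.val h4))

/-! ## the weights of a node -/

/-- uniform weights of the cell of the vertex `i` -/
def wU (c : Cfg n) (ν : Nd k n) (i : Fin n) (x : P × V k) : ℝ :=
  if flr (c.2 i) x.2 = flr (c.2 i) (ν.2 i) then ((Fintype.card P : ℝ) * 2 ^ c.2 i)⁻¹ else 0

/-- uniform weights of the window -/
def uW (c : Cfg n) (ν : Nd k n) (z : V k) : ℝ :=
  if (ν.1.1 - z).val < 2 ^ c.1 then ((2 : ℝ) ^ c.1)⁻¹ else 0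

omit [Nonempty P] in
theorem wU_nonneg (c : Cfg n) (ν : Nd k n) (i : Fin n) (x : P × V k) : 0 ≤ wU c ν i x := by
  unfold wU
  split_ifs <;> positivity

omit [Fintype P] [Nonempty P] in
theorem uW_nonneg (c : Cfg n) (ν : Nd k n) (z : V k) : 0 ≤ uW c ν z := by
  unfold uW
  split_ifs <;> positivity

theorem wU_sum {c : Cfg n} (hs : ∀ i, c.2 i ≤ k) (ν : Nd k n) (i : Fin n) : ∑ x : P × V k, wU c ν i x = 1 := by
  unfold wU
  rw [← Finset.sum_filter, Finset.sum_const, nsmul_eq_mul]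
  have h1 := card_CL (P := P) (hs i) (ν.2 i)
  unfold CL at h1
  rw [h1]
  push_cast
  have h2 : (Fintype.card P : ℝ) ≠ 0 := Nat.cast_ne_zero.mpr Fintype.card_ne_zero
  exact mul_inv_cancel₀ (mul_ne_zero h2 (by positivity))

theorem uW_sum {c : Cfg n} (hc : c.1 ≤ k) (ν : Nd k n) : ∑ z : V k, uW c ν z = 1 := by
  unfold uW
  rw [← Finset.sum_filter, Finset.sum_const, nsmul_eq_mul, card_win hc]
  push_cast
  exact mul_inv_cancel₀ (by positivity)

/-- the window average -/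
theorem av_uW {c : Cfg n} (hc : c.1 ≤ k) (ν : Nd k n) (f : V k → ℝ) :
    ∑ z : V k, uW c ν z * f z = av c.1 ν.1.1 f := by
  have hle : (2 : ℕ) ^ c.1 ≤ 2 ^ k := Nat.pow_le_pow_right (by norm_num) hc
  unfold uW av
  simp only [ite_mul, zero_mul]
  rw [← Finset.sum_filter, Finset.mul_sum]
  refine Finset.sum_nbij' (fun z => (ν.1.1 - z).val) (fun m : ℕ => ν.1.1 - (m : V k)) ?_ ?_ ?_ ?_ ?_
  · intro z hz
    exact Finset.mem_range.mpr (Finset.mem_filter.mp hz).2
  · intro m hm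
    rw [Finset.mem_filter]
    refine ⟨Finset.mem_univ _, ?_⟩
    have := Finset.mem_range.mp hm
    rw [sub_sub_cancel, ZMod.val_natCast_of_lt (lt_of_lt_of_le this hle)]
    exact this
  · intro z _
    rw [ZMod.natCast_zmod_val, sub_sub_cancel]
  · intro m hm
    have := Finset.mem_range.mp hm
    rw [sub_sub_cancel, ZMod.val_natCast_of_lt (lt_of_lt_of_le this hle)]
  · intro z _
    rw [ZMod.natCast_zmod_val, sub_sub_cancel]

/-- NOISE STEP: the window is the union of its two halves -/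
theorem uW_half {c : Cfg n} (hc : c.1 + 1 ≤ k) (ν : Nd k n) (z : V k) :
    uW (up none c) ν z = (uW c (chd none c 0 ν) z + uW c (chd none c 1 ν) z) / 2 := by
  have hk : 2 ^ (c.1 + 1) ≤ 2 ^ k := Nat.pow_le_pow_right (by norm_num) hc
  have hk' : (2 : ℕ) ^ (c.1 + 1) = 2 ^ c.1 + 2 ^ c.1 := by rw [pow_succ]; ring
  unfold uW up chd
  simp only [zero_mul, Nat.cast_zero, sub_zero, one_mul]
  set x : V k := ν.1.1 - z with hx
  have hx1 : ν.1.1 - ((2 ^ c.1 : ℕ) : V k) - z = x - ((2 ^ c.1 : ℕ) : V k) := by rw [hx]; abel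
  rw [hx1]
  have hxk := ZMod.val_lt x
  have h2 : (2 : ℝ) ^ (c.1 + 1) = 2 * 2 ^ c.1 := by rw [pow_succ]; ring
  rcases Nat.lt_or_ge x.val (2 ^ c.1) with h | h
  · have h3 : ¬ (x - ((2 ^ c.1 : ℕ) : V k)).val < 2 ^ c.1 := by
      have h4 : x - ((2 ^ c.1 : ℕ) : V k) = ((x.val + (2 ^ k - 2 ^ c.1) : ℕ) : V k) := by
        rw [Nat.cast_add, Nat.cast_sub (by omega), ZMod.natCast_zmod_val, ZMod.natCast_self]
        ring
      rw [h4, ZMod.val_natCast_of_lt (by omega)]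
      omega
    rw [if_pos (by omega), if_pos h, if_neg h3, h2, mul_inv]
    ring
  · have h4 : x - ((2 ^ c.1 : ℕ) : V k) = ((x.val - 2 ^ c.1 : ℕ) : V k) := by
      rw [Nat.cast_sub h, ZMod.natCast_zmod_val]
    rw [h4, ZMod.val_natCast_of_lt ((Nat.sub_le _ _).trans_lt hxk), if_neg (not_lt.mpr h)]
    by_cases h5 : x.val < 2 ^ (c.1 + 1)
    · rw [if_pos h5, if_pos (by omega), h2, mul_inv]
      ring
    · rw [if_neg h5, if_neg (by omega)]
      ring

omit [Nonempty P] in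
/-- NOISE STEP: the cells do not change -/
theorem wU_noise (c : Cfg n) (b : ℕ) (ν : Nd k n) :
    wU (P := P) c (chd none c b ν) = wU (up none c) ν := rfl

/-- CELL STEP: the window does not change -/
theorem uW_cell (i : Fin n) (c : Cfg n) (b : ℕ) (ν : Nd k n) : uW c (chd (some i) c b ν) = uW (up (some i) c) ν := rfl

omit [Nonempty P] in
/-- CELL STEP: the other cells do not change -/
theorem wU_upd (i : Fin n) (c : Cfg n) (b : ℕ) (ν : Nd k n) :
    wU (P := P) c (chd (some i) c b ν) =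
      Function.update (wU (up (some i) c) ν) i (wU c (chd (some i) c b ν) i) := by
  funext l x
  by_cases hl : l = i
  · subst hl
    rw [Function.update_self]
  · rw [Function.update_of_ne hl]
    unfold wU up chd
    simp only [Function.update_of_ne hl]

omit [Nonempty P] in
/-- CELL STEP: the cell is the union of its two halves -/
theorem wU_half {i : Fin n} {c : Cfg n} (hok : c.2 i + 1 ≤ k) {ν : Nd k n}
    (hν : flr (c.2 i + 1) (ν.2 i) = ν.2 i) (x : P × V k) :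
    wU (up (some i) c) ν i x = (wU c (chd (some i) c 0 ν) i x + wU c (chd (some i) c 1 ν) i x) / 2 := by
  unfold wU up chd
  simp only [Function.update_self, zero_mul, Nat.cast_zero, add_zero, one_mul]
  have h0 : flr (c.2 i) (ν.2 i) = ν.2 i := flr_al_le (Nat.le_succ _) hν
  have h1 : flr (c.2 i) (ν.2 i + ((2 ^ c.2 i : ℕ) : V k)) = ν.2 i + ((2 ^ c.2 i : ℕ) : V k) := by
    have := flr_add_mul (j := c.2 i) (i := c.2 i) le_rfl (ν.2 i) 1
    rw [one_mul] at this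
    rw [this, h0]
  have h2 : flr (c.2 i) x.2 = flr (c.2 i + 1) x.2 + ((bit (c.2 i) x.2.val * 2 ^ c.2 i : ℕ) : V k) := flr_half _ _
  have h3 : (2 : ℝ) ^ (c.2 i + 1) = 2 * 2 ^ c.2 i := by rw [pow_succ]; ring
  have h4 : ((2 ^ c.2 i : ℕ) : V k) ≠ 0 := two_pow_ne_zero hok
  have hb : bit (c.2 i) x.2.val = 0 ∨ bit (c.2 i) x.2.val = 1 := by unfold bit; omega
  rw [h0, h1, hν, h3]
  by_cases h5 : flr (c.2 i + 1) x.2 = ν.2 i
  · rw [if_pos h5, h2, h5]
    rcases hb with hb | hb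
    · rw [hb, zero_mul, Nat.cast_zero, add_zero, if_pos rfl, if_neg (fun h => h4 (left_eq_add.mp h))]
      rw [mul_inv, mul_inv, mul_inv]
      ring
    · rw [hb, one_mul, if_neg (fun h => h4 (add_eq_left.mp h)), if_pos rfl]
      rw [mul_inv, mul_inv, mul_inv]
      ring
  · rw [if_neg h5, if_neg, if_neg]
    · ring
    · intro h6
      refine h5 ?_
      rw [← flr_flr (Nat.le_succ (c.2 i)) x.2, h6]
      have h7 : (2 : ℕ) ^ c.2 i < 2 ^ (c.2 i + 1) := Nat.pow_lt_pow_right (by norm_num) (Nat.lt_succ_self _)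
      exact flr_aligned_add hok _ hν _ h7
    · intro h6
      refine h5 ?_
      rw [← flr_flr (Nat.le_succ (c.2 i)) x.2, h6]
      exact hν

end law

end

end Pool.Agent.GMC
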