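import Pool.Agent.GMC.Bri
import Pool.Agent.GM99.Kern

/-!
# GMC/Rare: RAR of C2.1 at every micro node, from the product tests of `GM/Model` (helper18)

Case without coins (`Xi = Unit`); with coins: `GMC/IH`.
* `PTn h N G θ r` : product tests of `G : Fm k n P` (Bri) at all ROUNDED nodes and all small cells (tests bounded by one:
  `v0` misses the vertex, `v i` misses the `i`-th other vertex);
* `PTx h' N G θ r` : the same at EXACT nodes, small cells of the rounding `h' ≥ h` (`PTn.exact`: factor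
  `2^((h'-h)(n+1))`, `2 * 2^-h`);
* `PTx_A`, `PTx_B` : FROM `GM.PT` (any offset `s`, the families `FmA`, `FmB` of Bri);
* `PTx.big` : all products of cells which are not smaller; `PTx.sum_pm` : the hypothesis of `GM99.rar` at a micro node;
* `rare_cell` : RAR in every cell; `rar_b`, `rar_a` : RAR given (node, other vertex): probability at most `8 θ / r'`.
-/

set_option autoImplicit false
set_option linter.unusedSectionVars false

namespace Pool.Agent.GMC

open Finset Pool.Agent.PWZ Pool.Agent.M3 Pool.Agent.M3.Bin Pool.Agent.M3.Mod Pool.Agent.GM99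

noncomputable section

variable {k N n : ℕ} {P : Type}

/-- counting on fibres -/
theorem count_fib {α κ : Type*} [DecidableEq κ] (full : Finset α) (bad : α → Prop) [DecidablePred bad] (π : α → κ)
    {θ : ℝ} (h : ∀ x ∈ full, (((full.filter fun y => π y = π x).filter bad).card : ℝ) ≤
      θ * (full.filter fun y => π y = π x).card) :
    ((full.filter bad).card : ℝ) ≤ θ * full.card := by
  classical
  have h1 : (full.filter bad).card = ∑ t ∈ full.image π, ((full.filter bad).filter fun y => π y = t).card :=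
    Finset.card_eq_sum_card_fiberwise fun x hx => Finset.mem_image_of_mem _ (Finset.mem_filter.mp hx).1
  have h2 : full.card = ∑ t ∈ full.image π, (full.filter fun y => π y = t).card :=
    Finset.card_eq_sum_card_fiberwise fun x hx => Finset.mem_image_of_mem _ hx
  rw [h1, h2]
  push_cast
  rw [Finset.mul_sum]
  refine Finset.sum_le_sum fun t ht => ?_
  obtain ⟨x, hx, rfl⟩ := Finset.mem_image.mp ht
  have h3 := h x hx
  rw [Finset.filter_filter] at h3 ⊢
  simp only [and_comm] at h3 ⊢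
  exact h3

section law

variable [Fintype P]

/-- product tests at all rounded nodes and all small cells -/
def PTn (h N : ℕ) (G : Fm k n P) (θ r : ℝ) : Prop :=
  ∀ e ≤ N, ∀ g : V k × ℕ, flr (e - h) g.1 = g.1 → ∀ (cb : V k) (co : Fin n → V k)
    (v0 : (Fin n → P × V k) → V k → ℝ) (v : Fin n → P × V k → (Fin n → P × V k) → V k → ℝ),
    (∀ x d, |v0 x d| ≤ 1) → (∀ i b x d, |v i b x d| ≤ 1) →
    (∀ i b x y, (∀ j, j ≠ i → x j = y j) → ∀ d, v i b x d = v i b y d) →
    (((SC (P := P) h e cb ×ˢ Fintype.piFinset fun i => SC (P := P) h e (co i)).filter fun q =>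
      r ≤ |av e g.1 (fun d => G e g q.1 q.2 d * (v0 q.2 d * ∏ i, v i q.1 q.2 d))|).card : ℝ) ≤
    θ * (SC (P := P) h e cb ×ˢ Fintype.piFinset fun i => SC (P := P) h e (co i)).card

/-- product tests at all EXACT nodes, small cells of the rounding `h'` -/
def PTx (h' N : ℕ) (G : Fm k n P) (θ r : ℝ) : Prop :=
  ∀ e ≤ N, ∀ g : V k × ℕ, ∀ (cb : V k) (co : Fin n → V k)
    (v0 : (Fin n → P × V k) → V k → ℝ) (v : Fin n → P × V k → (Fin n → P × V k) → V k → ℝ),
    (∀ x d, |v0 x d| ≤ 1) → (∀ i b x d, |v i b x d| ≤ 1) →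
    (∀ i b x y, (∀ j, j ≠ i → x j = y j) → ∀ d, v i b x d = v i b y d) →
    (((SC (P := P) h' e cb ×ˢ Fintype.piFinset fun i => SC (P := P) h' e (co i)).filter fun q =>
      r ≤ |av e g.1 (fun d => G e g q.1 q.2 d * (v0 q.2 d * ∏ i, v i q.1 q.2 d))|).card : ℝ) ≤
    θ * (SC (P := P) h' e cb ×ˢ Fintype.piFinset fun i => SC (P := P) h' e (co i)).card

/-- exact windows, finer cells -/
theorem PTn.exact [Nonempty P] {h h' N : ℕ} (hh : h ≤ h') (hN : N ≤ k) {G : Fm k n P} {θ r : ℝ} (hPT : PTn h N G θ r)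
    (hθ : 0 ≤ θ) (hG : ∀ e g b x d, |G e g b x d| ≤ 1) :
    PTx h' N (fun e g => G e (coar h e g)) (θ * 2 ^ ((h' - h) * (n + 1))) (r + 2 * ((2 : ℝ) ^ h)⁻¹) := by
  classical
  intro e he g cb co v0 v hv0 hv hvi
  have h1 := hPT e he (coar h e g) (flr_flr le_rfl g.1) cb co v0 v hv0 hv hvi
  have hsub : ((SC (P := P) h' e cb ×ˢ Fintype.piFinset fun i => SC (P := P) h' e (co i)).filter fun q =>
      r + 2 * ((2 : ℝ) ^ h)⁻¹ ≤ |av e g.1 (fun d => G e (coar h e g) q.1 q.2 d * (v0 q.2 d * ∏ i, v i q.1 q.2 d))|) ⊆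
      ((SC (P := P) h e cb ×ˢ Fintype.piFinset fun i => SC (P := P) h e (co i)).filter fun q =>
      r ≤ |av e (coar h e g).1 (fun d => G e (coar h e g) q.1 q.2 d * (v0 q.2 d * ∏ i, v i q.1 q.2 d))|) := by
    intro q hq
    rw [Finset.mem_filter, Finset.mem_product, Fintype.mem_piFinset] at hq ⊢
    refine ⟨⟨?_, fun i => ?_⟩, ?_⟩
    · have h2 := hq.1.1
      unfold SC at h2 ⊢
      rw [Finset.mem_filter] at h2 ⊢
      exact ⟨h2.1, flr_mono_eq (by omega) h2.2⟩
    · have h2 := hq.1.2 i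
      unfold SC at h2 ⊢
      rw [Finset.mem_filter] at h2 ⊢
      exact ⟨h2.1, flr_mono_eq (by omega) h2.2⟩
    · have h3 := ip_round h e g.1 (fun d => G e (coar h e g) q.1 q.2 d)
        (fun d => v0 q.2 d * ∏ i, v i q.1 q.2 d) 1 (fun d => by
          rw [abs_mul, abs_mul, Finset.abs_prod]
          exact mul_le_one₀ (hG _ _ _ _ _) (by positivity) (mul_le_one₀ (hv0 _ _) (by positivity)
            (Finset.prod_le_one (fun _ _ => abs_nonneg _) fun i _ => hv _ _ _ _)))
      have e1 : av e g.1 (fun d => G e (coar h e g) q.1 q.2 d * (v0 q.2 d * ∏ i, v i q.1 q.2 d)) =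
          ip e g.1 (fun d => G e (coar h e g) q.1 q.2 d) (fun d => v0 q.2 d * ∏ i, v i q.1 q.2 d) := rfl
      have e2 : av e (coar h e g).1 (fun d => G e (coar h e g) q.1 q.2 d * (v0 q.2 d * ∏ i, v i q.1 q.2 d)) =
          ip e (flr (e - h) g.1) (fun d => G e (coar h e g) q.1 q.2 d) (fun d => v0 q.2 d * ∏ i, v i q.1 q.2 d) := rfl
      have h4 := hq.2
      rw [e1] at h4
      rw [e2]
      have h5 := abs_sub_abs_le_abs_sub
        (ip e g.1 (fun d => G e (coar h e g) q.1 q.2 d) (fun d => v0 q.2 d * ∏ i, v i q.1 q.2 d))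
        (ip e (flr (e - h) g.1) (fun d => G e (coar h e g) q.1 q.2 d) (fun d => v0 q.2 d * ∏ i, v i q.1 q.2 d))
      linarith
  refine (le_trans (Nat.cast_le.mpr (Finset.card_le_card hsub)) h1).trans ?_
  rw [mul_assoc]
  refine mul_le_mul_of_nonneg_left ?_ hθ
  rw [Finset.card_product, Finset.card_product, Fintype.card_piFinset, Fintype.card_piFinset]
  push_cast
  have h6 : ∀ v : V k, ((SC (P := P) h e v).card : ℝ) ≤ 2 ^ (h' - h) * (SC (P := P) h' e v).card := by
    intro v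
    rw [card_SC (he.trans hN), card_SC (he.trans hN)]
    have h7 : (2 : ℝ) ^ (e - (h + 3)) ≤ 2 ^ (e - (h' + 3)) * 2 ^ (h' - h) := by
      rw [← pow_add]
      exact pow_le_pow_right₀ (by norm_num) (by omega)
    calc (Fintype.card P : ℝ) * 2 ^ (e - (h + 3)) ≤ (Fintype.card P : ℝ) * (2 ^ (e - (h' + 3)) * 2 ^ (h' - h)) :=
          mul_le_mul_of_nonneg_left h7 (by positivity)
      _ = _ := by ring
  calc ((SC (P := P) h e cb).card : ℝ) * ∏ i, ((SC (P := P) h e (co i)).card : ℝ)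
      ≤ (2 ^ (h' - h) * (SC (P := P) h' e cb).card) * ∏ i, (2 ^ (h' - h) * ((SC (P := P) h' e (co i)).card : ℝ)) :=
        mul_le_mul (h6 _) (Finset.prod_le_prod (fun i _ => Nat.cast_nonneg _) fun i _ => h6 _)
          (Finset.prod_nonneg fun i _ => Nat.cast_nonneg _) (by positivity)
    _ = _ := by
        rw [Finset.prod_mul_distrib, Finset.prod_const, Finset.card_univ, Fintype.card_fin, ← pow_mul, mul_add, mul_one,
          pow_add]
        ring

/-- all products of cells which are not smaller than the small cells -/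
theorem PTx.big {h' N : ℕ} {G : Fm k n P} {θ r : ℝ} (hPT : PTx h' N G θ r) {e : ℕ} (he : e ≤ N)
    (g : V k × ℕ) {jb : ℕ} (hjb : e - (h' + 3) ≤ jb) {s : Fin n → ℕ}
    (hs : ∀ i, e - (h' + 3) ≤ s i) (cb : V k) (co : Fin n → V k) (v0 : (Fin n → P × V k) → V k → ℝ)
    (v : Fin n → P × V k → (Fin n → P × V k) → V k → ℝ) (hv0 : ∀ x d, |v0 x d| ≤ 1)
    (hv : ∀ i b x d, |v i b x d| ≤ 1) (hvi : ∀ i b x y, (∀ j, j ≠ i → x j = y j) → ∀ d, v i b x d = v i b y d) :
    (((CL (P := P) jb cb ×ˢ fib P s co).filter fun q =>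
      r ≤ |av e g.1 (fun d => G e g q.1 q.2 d * (v0 q.2 d * ∏ i, v i q.1 q.2 d))|).card : ℝ) ≤
    θ * (CL (P := P) jb cb ×ˢ fib P s co).card := by
  classical
  refine count_fib (CL (P := P) jb cb ×ˢ fib P s co) _
    (fun y : (P × V k) × (Fin n → P × V k) => (flr (e - (h' + 3)) y.1.2, fun i => flr (e - (h' + 3)) (y.2 i).2)) ?_
  intro x hx
  have hfull : ((CL (P := P) jb cb ×ˢ fib P s co).filter fun y : (P × V k) × (Fin n → P × V k) =>
        (flr (e - (h' + 3)) y.1.2, fun i => flr (e - (h' + 3)) (y.2 i).2) =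
          (flr (e - (h' + 3)) x.1.2, fun i => flr (e - (h' + 3)) (x.2 i).2)) =
      SC (P := P) h' e x.1.2 ×ˢ Fintype.piFinset fun i => SC (P := P) h' e (x.2 i).2 := by
    rw [Finset.mem_product, mem_fib] at hx
    unfold CL at hx
    ext y
    rw [Finset.mem_filter, Finset.mem_product, Finset.mem_product, mem_fib, Fintype.mem_piFinset]
    unfold CL SC
    simp only [Finset.mem_filter, Finset.mem_univ, true_and, Prod.mk.injEq, funext_iff] at hx ⊢
    constructor
    · rintro ⟨_, h1, h2⟩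
      exact ⟨h1, h2⟩
    · rintro ⟨h1, h2⟩
      exact ⟨⟨(flr_mono_eq hjb h1).trans hx.1, fun i => (flr_mono_eq (hs i) (h2 i)).trans (hx.2 i)⟩, h1, h2⟩
  rw [hfull]
  exact hPT e he g x.1.2 (fun i => (x.2 i).2) v0 v hv0 hv hvi

/-- the mean over the weights of a node is a count -/
theorem pm_wUr {c : Cfg n} (ν : Nd k n) (f : (Fin n → P × V k) → ℝ) :
    pm (wU c ν) f = (∏ i, ((Fintype.card P : ℝ) * 2 ^ c.2 i)⁻¹) * ∑ x ∈ fib P c.2 ν.2, f x := by
  classical
  unfold pm
  rw [Finset.mul_sum, ← Finset.sum_subset (Finset.subset_univ (fib P c.2 ν.2))]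
  · refine Finset.sum_congr rfl fun x hx => ?_
    rw [mem_fib] at hx
    congr 1
    refine Finset.prod_congr rfl fun i _ => ?_
    unfold wU
    rw [if_pos (hx i)]
  · intro x _ hx
    rw [mem_fib, not_forall] at hx
    obtain ⟨i, hi⟩ := hx
    rw [Finset.prod_eq_zero (Finset.mem_univ i), zero_mul]
    unfold wU
    rw [if_neg hi]

variable [Nonempty P]

/-- THE HYPOTHESIS OF `GM99.rar` AT A MICRO NODE -/
theorem PTx.sum_pm {h' N : ℕ} {G : Fm k n P} {θ r : ℝ} (hPT : PTx h' N G θ r) (hN : N ≤ k)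
    {c : Cfg n} (hc : c.1 ≤ N) (hs0 : ∀ i, c.1 - (h' + 3) ≤ c.2 i) (hs : ∀ i, c.2 i ≤ k) (ν : Nd k n)
    {jb : ℕ} (hjb : c.1 - (h' + 3) ≤ jb) (cb : V k) (v0 : (Fin n → P × V k) → V k → ℝ)
    (v : Fin n → P × V k → (Fin n → P × V k) → V k → ℝ) (hv0 : ∀ x d, |v0 x d| ≤ 1)
    (hv : ∀ i b x d, |v i b x d| ≤ 1) (hvi : ∀ i b x y, (∀ j, j ≠ i → x j = y j) → ∀ d, v i b x d = v i b y d) :
    ∑ b ∈ CL (P := P) jb cb, pm (wU c ν) (fun x => if r < |∑ z, uW c ν z *
      (G c.1 ν.1 b x z * (v0 x z * ∏ i, v i b x z))| then (1 : ℝ) else 0) ≤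
      θ * ((CL (P := P) jb cb).card : ℝ) := by
  classical
  have h1 := hPT.big hc ν.1 hjb hs0 cb ν.2 v0 v hv0 hv hvi
  have hcard : ((fib P c.2 ν.2).card : ℝ) = ∏ i, ((Fintype.card P : ℝ) * 2 ^ c.2 i) := by
    rw [card_fib hs]
    push_cast
    rfl
  have hpos : 0 < ((fib P c.2 ν.2).card : ℝ) := Nat.cast_pos.mpr (card_fib_pos hs _)
  have hW : (∏ i, ((Fintype.card P : ℝ) * 2 ^ c.2 i)⁻¹) = ((fib P c.2 ν.2).card : ℝ)⁻¹ := by
    rw [hcard, Finset.prod_inv_distrib]
  have h2 : ∑ b ∈ CL (P := P) jb cb, pm (wU c ν) (fun x => if r < |∑ z, uW c ν z *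
      (G c.1 ν.1 b x z * (v0 x z * ∏ i, v i b x z))| then (1 : ℝ) else 0) ≤
      ((fib P c.2 ν.2).card : ℝ)⁻¹ * (((CL (P := P) jb cb ×ˢ fib P c.2 ν.2).filter fun q =>
      r ≤ |av c.1 ν.1.1 (fun d => G c.1 ν.1 q.1 q.2 d * (v0 q.2 d * ∏ i, v i q.1 q.2 d))|).card : ℝ) := by
    rw [Finset.sum_congr rfl fun b _ => pm_wUr ν _, hW, ← Finset.mul_sum]
    refine mul_le_mul_of_nonneg_left ?_ (by positivity)
    rw [Finset.card_filter, Finset.sum_product]
    push_cast
    refine Finset.sum_le_sum fun b _ => Finset.sum_le_sum fun x _ => ?_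
    rw [av_uW (hc.trans hN) ν]
    split_ifs with h3 h4
    · exact le_refl _
    · exact absurd h3.le h4
    · exact zero_le_one
    · exact le_refl _
  refine h2.trans ?_
  rw [inv_mul_le_iff₀ hpos]
  refine h1.trans (le_of_eq ?_)
  rw [Finset.card_product]
  push_cast
  ring

/-- RAR in every cell: arbitrary averages of arbitrary bounded functions on the other side -/
theorem rare_cell {h' N : ℕ} {G : Fm k n P} {θ r : ℝ} (hPT : PTx h' N G θ r) (hN : N ≤ k)
    (hG : ∀ e g b x d, |G e g b x d| ≤ 1) {c : Cfg n} (hc : c.1 ≤ N) (hs0 : ∀ i, c.1 - (h' + 3) ≤ c.2 i)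
    (hs : ∀ i, c.2 i ≤ k) (ν : Nd k n) {jb : ℕ} (hjb : c.1 - (h' + 3) ≤ jb) (cb : V k) {q : ℕ} {r' : ℝ}
    (hr : 2 * r ^ (2 * q) ≤ r') (hr0 : 0 < r') {κ : Type*} (I : Finset κ) (p : κ → ℝ) (hp : ∀ j ∈ I, 0 ≤ p j)
    (hp1 : ∑ j ∈ I, p j = 1) (F : κ → (Fin n → P × V k) → V k → ℝ) (hF : ∀ j x z, |F j x z| ≤ 1) :
    (((CL (P := P) jb cb).filter fun b => r' ≤ ∑ j ∈ I, p j *
      kap (wU c ν) (uW c ν) q (fun x z => F j x z * G c.1 ν.1 b x z)).card : ℝ) ≤
      2 * θ / r' * ((CL (P := P) jb cb).card : ℝ) := by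
  classical
  exact rar (wU c ν) (wU_nonneg c ν) (wU_sum hs ν) (uW c ν) (uW_nonneg c ν) (uW_sum (hc.trans hN) ν) q F hF
    (fun b x z => G c.1 ν.1 b x z) (fun b x z => hG _ _ _ _ _) I p hp hp1 (CL (P := P) jb cb) r θ r' hr hr0
    fun v0 v hv0 hv hvi => hPT.sum_pm hN hc hs0 hs ν hjb cb v0 v hv0 hv hvi

/-- RAR given (node, `a`): the average may depend on (node, `a`) -/
theorem rar_b {h' : ℕ} {G : Fm k n P} {θ r : ℝ} (hPT : PTx h' N G θ r) (hθ : 0 ≤ θ) (hN : N ≤ k)
    (hG : ∀ e g b x d, |G e g b x d| ≤ 1) {c : Cfg n} (hc : c.1 ≤ N) (hs0 : ∀ i, c.1 - (h' + 3) ≤ c.2 i)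
    (hs : ∀ i, c.2 i ≤ k) (hR : Rs c.2 ≤ 2 ^ c.1) {q : ℕ} {r' : ℝ} (hr : 2 * r ^ (2 * q) ≤ r') (hr0 : 0 < r')
    {κ : Type*} (I : Nd k n → P × V k → Finset κ) (p : Nd k n → P × V k → κ → ℝ)
    (hp : ∀ ν a, ∀ j ∈ I ν a, 0 ≤ p ν a j) (hp1 : ∀ ν a, ∑ j ∈ I ν a, p ν a j = 1)
    (F : Nd k n → P × V k → κ → (Fin n → P × V k) → V k → ℝ) (hF : ∀ ν a j x z, |F ν a j x z| ≤ 1)
    (ω0 : S2 k N n P) :
    (Pu k N n P).ce (fun ω => (Nc c ω, va ω)) (fun ω => ind (r' ≤ ∑ j ∈ I (Nc c ω) (va ω), p (Nc c ω) (va ω) j *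
      kap (wU c (Nc c ω)) (uW c (Nc c ω)) q (fun x z => F (Nc c ω) (va ω) j x z *
        G c.1 (Nc c ω).1 (vb ω) x z))) ω0 ≤ 4 * (2 * θ / r') := by
  classical
  have h1 := ce_b_le (P := P) hc hN hs hR (j := c.1) (by omega) (hc.trans hN)
    (fun ν a => univ.filter fun b : P × V k => r' ≤ ∑ j ∈ I ν a, p ν a j *
      kap (wU c ν) (uW c ν) q (fun x z => F ν a j x z * G c.1 ν.1 b x z)) (x := 2 * θ / r')
    (by positivity) ω0 ?_
  · refine le_trans (le_of_eq ?_) h1
    congr 1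
    funext ω
    congr 1
    simp only [Finset.mem_filter, Finset.mem_univ, true_and]
  · intro z
    have h2 := rare_cell hPT hN hG hc hs0 hs (Nc c ω0) (jb := c.1) (by omega) z hr hr0 (I (Nc c ω0) (va ω0))
      (p (Nc c ω0) (va ω0)) (hp _ _) (hp1 _ _) (F (Nc c ω0) (va ω0)) (hF _ _)
    rw [card_CL (hc.trans hN)] at h2
    push_cast at h2
    refine le_trans (le_of_eq ?_) h2
    congr 2
    unfold CL
    ext b
    simp only [Finset.mem_filter, Finset.mem_univ, true_and]
    rw [and_comm]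

/-- RAR given (node, `b`): the average may depend on (node, `b`) -/
theorem rar_a {h' : ℕ} {F : Fm k n P} {θ r : ℝ} (hPT : PTx h' N F θ r) (hθ : 0 ≤ θ) (hN : N ≤ k)
    (hF : ∀ e g a x d, |F e g a x d| ≤ 1) {c : Cfg n} (hc : c.1 ≤ N) (hs0 : ∀ i, c.1 - (h' + 3) ≤ c.2 i)
    (hs : ∀ i, c.2 i ≤ k) (hR : Rs c.2 ≤ 2 ^ c.1) {q : ℕ} {r' : ℝ} (hr : 2 * r ^ (2 * q) ≤ r') (hr0 : 0 < r')
    {κ : Type*} (I : Nd k n → P × V k → Finset κ) (p : Nd k n → P × V k → κ → ℝ)
    (hp : ∀ ν b, ∀ j ∈ I ν b, 0 ≤ p ν b j) (hp1 : ∀ ν b, ∑ j ∈ I ν b, p ν b j = 1)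
    (G : Nd k n → P × V k → κ → (Fin n → P × V k) → V k → ℝ) (hG : ∀ ν b j x z, |G ν b j x z| ≤ 1)
    (ω0 : S2 k N n P) :
    (Pu k N n P).ce (fun ω => (Nc c ω, vb ω)) (fun ω => ind (r' ≤ ∑ j ∈ I (Nc c ω) (vb ω), p (Nc c ω) (vb ω) j *
      kap (wU c (Nc c ω)) (uW c (Nc c ω)) q (fun x z => F c.1 (Nc c ω).1 (va ω) x z *
        G (Nc c ω) (vb ω) j x z))) ω0 ≤ 4 * (2 * θ / r') := by
  classical
  have h1 := ce_a_le (P := P) hc hN hs hR (j := c.1) (by omega) (hc.trans hN)
    (fun ν b => univ.filter fun a : P × V k => r' ≤ ∑ j ∈ I ν b, p ν b j *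
      kap (wU c ν) (uW c ν) q (fun x z => F c.1 ν.1 a x z * G ν b j x z)) (x := 2 * θ / r')
    (by positivity) ω0 ?_
  · refine le_trans (le_of_eq ?_) h1
    congr 1
    funext ω
    congr 1
    simp only [Finset.mem_filter, Finset.mem_univ, true_and]
  · intro z
    have h2 := rare_cell hPT hN hF hc hs0 hs (Nc c ω0) (jb := c.1) (by omega) z hr hr0 (I (Nc c ω0) (vb ω0))
      (p (Nc c ω0) (vb ω0)) (hp _ _) (hp1 _ _) (G (Nc c ω0) (vb ω0)) (hG _ _)
    rw [card_CL (hc.trans hN)] at h2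
    push_cast at h2
    refine le_trans (le_of_eq ?_) h2
    congr 2
    unfold CL
    ext a
    simp only [Finset.mem_filter, Finset.mem_univ, true_and]
    rw [and_comm]
    simp only [mul_comm (F c.1 _ _ _ _)]

/-! ## shift of the vertex (offset of the centre) -/

/-- a shifted cell meets two cells -/
theorem flr_shift {m : ℕ} (hm : m ≤ k) (cb s v : V k) (hv : flr m v = flr m cb) :
    flr m (v - s) = flr m (flr m cb - s) ∨ flr m (v - s) = flr m (flr m cb - s + ((1 * 2 ^ m : ℕ) : V k)) := by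
  obtain ⟨ρ, hρ, h1⟩ := flr_add_rem m v
  obtain ⟨σ, hσ, h2⟩ := flr_add_rem m (flr m cb - s)
  have h3 : v - s = flr m (flr m cb - s) + ((σ + ρ : ℕ) : V k) := by
    calc v - s = (flr m v + (ρ : V k)) - s := by rw [← h1]
      _ = (flr m cb - s) + (ρ : V k) := by rw [hv]; abel
      _ = (flr m (flr m cb - s) + (σ : V k)) + (ρ : V k) := by rw [← h2]
      _ = _ := by push_cast; abel
  by_cases h4 : σ + ρ < 2 ^ m
  · left
    rw [h3]
    exact flr_aligned_add hm _ (flr_flr le_rfl _) _ h4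
  · right
    obtain ⟨τ, hτ⟩ := Nat.exists_eq_add_of_le (not_lt.1 h4)
    have h5 : v - s = (flr m (flr m cb - s) + ((1 * 2 ^ m : ℕ) : V k)) + (τ : V k) := by
      rw [h3, hτ]
      push_cast
      ring
    have h6 : flr m (flr m (flr m cb - s) + ((1 * 2 ^ m : ℕ) : V k)) =
        flr m (flr m cb - s) + ((1 * 2 ^ m : ℕ) : V k) := by
      rw [flr_add_mul le_rfl, flr_flr le_rfl]
    rw [h5, flr_aligned_add hm _ h6 _ (by omega), flr_add_mul le_rfl]

/-- a shifted vertex: factor 2 -/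
theorem PTx.shift {h' : ℕ} (hN : N ≤ k) {G : Fm k n P} {θ r : ℝ} (hPT : PTx h' N G θ r) (s : V k) :
    PTx h' N (fun e g b x d => G e g (b.1, b.2 - s) x d) (2 * θ) r := by
  classical
  intro e he g cb co v0 v hv0 hv hvi
  set m := e - (h' + 3) with hm
  -- the two cells
  set T : V k → Finset ((P × V k) × (Fin n → P × V k)) := fun cc =>
    (SC (P := P) h' e cc ×ˢ Fintype.piFinset fun i => SC (P := P) h' e (co i)).filter fun q =>
      r ≤ |av e g.1 (fun d => G e g q.1 q.2 d * (v0 q.2 d * ∏ i, v i (q.1.1, q.1.2 + s) q.2 d))| with hT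
  have hb : ∀ cc, ((T cc).card : ℝ) ≤ θ * (SC (P := P) h' e cb ×ˢ Fintype.piFinset fun i => SC (P := P) h' e (co i)).card := by
    intro cc
    have h1 := hPT e he g cc co v0 (fun i b x d => v i (b.1, b.2 + s) x d) hv0 (fun i b x d => hv _ _ _ _)
      (fun i b x y hxy d => hvi _ _ _ _ hxy d)
    refine h1.trans (le_of_eq ?_)
    congr 1
    rw [Finset.card_product, Finset.card_product]
    push_cast
    rw [card_SC (he.trans hN), card_SC (he.trans hN)]
  have hmap : ((SC (P := P) h' e cb ×ˢ Fintype.piFinset fun i => SC (P := P) h' e (co i)).filter fun q =>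
      r ≤ |av e g.1 (fun d => G e g (q.1.1, q.1.2 - s) q.2 d * (v0 q.2 d * ∏ i, v i q.1 q.2 d))|).card ≤
      (T (flr m cb - s) ∪ T (flr m cb - s + ((1 * 2 ^ m : ℕ) : V k))).card := by
    refine Finset.card_le_card_of_injOn (fun q => ((q.1.1, q.1.2 - s), q.2)) ?_ ?_
    · intro q hq
      rw [Finset.mem_coe, Finset.mem_filter, Finset.mem_product] at hq
      obtain ⟨⟨h1, h2⟩, h3⟩ := hq
      unfold SC at h1
      rw [Finset.mem_filter] at h1
      rw [Finset.mem_coe, Finset.mem_union, hT]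
      simp only [Finset.mem_filter, Finset.mem_product, sub_add_cancel]
      rcases flr_shift (by omega : m ≤ k) cb s q.1.2 h1.2 with h4 | h4
      · left
        refine ⟨⟨?_, h2⟩, h3⟩
        unfold SC
        rw [Finset.mem_filter]
        exact ⟨Finset.mem_univ _, h4⟩
      · right
        refine ⟨⟨?_, h2⟩, h3⟩
        unfold SC
        rw [Finset.mem_filter]
        exact ⟨Finset.mem_univ _, h4⟩
    · intro q _ q' _ hqq
      simp only [Prod.mk.injEq, sub_left_inj] at hqq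
      exact Prod.ext (Prod.ext hqq.1.1 hqq.1.2) hqq.2
  have h5 : ((T (flr m cb - s) ∪ T (flr m cb - s + ((1 * 2 ^ m : ℕ) : V k))).card : ℝ) ≤
      ((T (flr m cb - s)).card : ℝ) + ((T (flr m cb - s + ((1 * 2 ^ m : ℕ) : V k))).card : ℝ) := by
    exact_mod_cast Finset.card_union_le _ _
  have h6 := hb (flr m cb - s)
  have h7 := hb (flr m cb - s + ((1 * 2 ^ m : ℕ) : V k))
  have h8 : ((((SC (P := P) h' e cb ×ˢ Fintype.piFinset fun i => SC (P := P) h' e (co i)).filter fun q =>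
      r ≤ |av e g.1 (fun d => G e g (q.1.1, q.1.2 - s) q.2 d * (v0 q.2 d * ∏ i, v i q.1 q.2 d))|).card : ℕ) : ℝ) ≤
      ((T (flr m cb - s) ∪ T (flr m cb - s + ((1 * 2 ^ m : ℕ) : V k))).card : ℝ) := Nat.cast_le.mpr hmap
  linarith

/-! ## from the product tests of a face of `GM/Model` -/

/-- the offset sits in the argument and in the node -/
theorem PTx.offset {h' : ℕ} {G : Fm k n P} {θ r : ℝ} (hPT : PTx h' N G θ r) (s : V k) :
    PTx h' N (fun e g b x d => G e (g.1 + s, g.2) b x (d + s)) θ r := by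
  intro e he g cb co v0 v hv0 hv hvi
  have h1 := hPT e he (g.1 + s, g.2) cb co (fun x d => v0 x (d - s)) (fun i b x d => v i b x (d - s))
    (fun x d => hv0 _ _) (fun i b x d => hv _ _ _ _) (fun i b x y hxy d => hvi _ _ _ _ hxy _)
  refine le_trans (le_of_eq ?_) h1
  congr 3
  funext q
  rw [← av_shift e g.1 s]
  simp only [add_sub_cancel_right]

section face

variable {ι : Type} [Fintype ι] [DecidableEq ι]

/-- the enumeration of the others does not depend on the order of `a`, `b` -/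
def Enu.swap {a b : ι} (o : Enu n a b) : Enu n b a := o.trans (Equiv.subtypeEquivRight fun _ => and_comm)

omit [Fintype P] [Nonempty P] [Fintype ι] in
theorem gl_swap {a b : ι} (o : Enu n a b) (xa xb : P × V k) (hab : a ≠ b) (x : Fin n → P × V k) :
    gl o.swap xb xa x = gl o xa xb x := by
  funext i
  unfold gl
  by_cases h : i ≠ a ∧ i ≠ b
  · rw [dif_pos h, dif_pos ⟨h.2, h.1⟩]
    rfl
  · rw [dif_neg h, dif_neg (fun h' => h ⟨h'.2, h'.1⟩)]
    rcases not_and_or.mp h with h1 | h1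
    · rw [not_not] at h1
      rw [if_pos h1, if_neg (fun h2 => hab (h1.symm.trans h2))]
    · rw [not_not] at h1
      rw [if_pos h1, if_neg (fun h2 => hab (h2.symm.trans h1))]

/-- PRODUCT TESTS of the face `a` give the product tests in (`b`, others) -/
theorem PTn_B {h : ℕ} {a b : ι} (hab : a ≠ b) (o : Enu n a b) {R : GM.Fam k ι P}
    (hR : GM.FOn ({a}ᶜ : Set ι) R) {θ r H : ℝ} (hH : 1 ≤ H) (hPT : GM.PT a h N R θ r H) :
    PTn h N (fun e g y x d => R e g (gl o y y x) d) θ r := by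
  classical
  intro e he g hg cb co v0 v hv0 hv hvi
  set c : ι → V k := fun w => if hw : w ≠ a ∧ w ≠ b then co (o.symm ⟨w, hw⟩) else cb with hc
  set vv : ι → (ι → P × V k) → V k → ℝ := fun w y d => if hw : w ≠ a ∧ w ≠ b then
    v (o.symm ⟨w, hw⟩) (y b) (fun l => y (o l).1) d else if w = b then v0 (fun l => y (o l).1) d else 1 with hvv
  have hca : c a = cb := dif_neg fun h => h.1 rfl
  have hcb : c b = cb := dif_neg fun h => h.2 rfl
  have hco : ∀ l, c (o l).1 = co l := by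
    intro l
    simp only [hc]
    rw [dif_pos (o l).2]
    congr 1
    exact o.symm_apply_apply l
  have hva : ∀ y d, vv a y d = 1 := by
    intro y d
    simp only [hvv]
    rw [dif_neg (fun h => h.1 rfl), if_neg hab]
  have hvb : ∀ y d, vv b y d = v0 (fun l => y (o l).1) d := by
    intro y d
    show (if hw : b ≠ a ∧ b ≠ b then _ else if b = b then v0 (fun l => y (o l).1) d else 1) = _
    rw [dif_neg (fun h => h.2 rfl), if_pos rfl]
  have hvo : ∀ y d l, vv (o l).1 y d = v l (y b) (fun l => y (o l).1) d := by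
    intro y d l
    simp only [hvv]
    rw [dif_pos (o l).2]
    have h1 : o.symm ⟨(o l).1, (o l).2⟩ = l := o.symm_apply_apply l
    rw [h1]
  have hdep : ∀ w, w ≠ a → DependsOn (vv w) ({a, w}ᶜ : Set ι) := by
    intro w hw y y' hyy
    have hyo : ∀ l, (o l).1 ≠ w → y (o l).1 = y' (o l).1 := fun l hl => hyy _ fun h => by
      rcases h with h | h
      · exact (o l).2.1 h
      · exact hl h
    rcases cases_o o w with h1 | h1 | ⟨l, h1⟩
    · exact absurd h1 hw
    · funext d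
      rw [h1, hvb, hvb]
      congr 1
      funext l
      exact hyo l fun h => (o l).2.2 (h.trans h1)
    · funext d
      rw [h1, hvo, hvo]
      have h2 : y b = y' b := hyy _ fun h => by
        rcases h with h | h
        · exact hab h.symm
        · exact (o l).2.2 (h1.symm.trans h.symm)
      rw [h2]
      refine hvi l _ _ _ (fun j hj => hyo j fun h => ?_) d
      exact hj (o.injective (Subtype.ext (h.trans h1)))
  have hbd : ∀ w y d, |vv w y d| ≤ H := by
    intro w y d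
    refine le_trans ?_ hH
    rcases cases_o o w with h1 | h1 | ⟨l, h1⟩
    · rw [h1, hva]
      simp
    · rw [h1, hvb]
      exact hv0 _ _
    · rw [h1, hvo]
      exact hv _ _ _ _
  have h1 := hPT e he g hg c vv hdep hbd
  set bad : (P × V k) × (Fin n → P × V k) → Prop := fun q =>
    r ≤ |av e g.1 (fun d => R e g (gl o q.1 q.1 q.2) d * (v0 q.2 d * ∏ i, v i q.1 q.2 d))| with hbad
  have hcond : ∀ y : ι → P × V k, (r ≤ |av e g.1 (fun d => R e g y d * ∏ w ∈ univ.erase a, vv w y d)|) ↔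
      bad (y b, fun l => y (o l).1) := by
    intro y
    have h2 : R e g y = R e g (gl o (y b) (y b) (fun l => y (o l).1)) := by
      refine hR e g fun i hi => ?_
      rcases cases_o o i with h3 | h3 | ⟨l, h3⟩
      · exact absurd h3 hi
      · rw [h3, gl_b hab]
      · rw [h3, gl_o]
    have h3 : ∀ d, ∏ w ∈ univ.erase a, vv w y d = v0 (fun l => y (o l).1) d * ∏ i, v i (y b) (fun l => y (o l).1) d := by
      intro d
      have h4 := Finset.prod_erase (univ : Finset ι) (f := fun w => vv w y d) (a := a) (hva y d)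
      have h5 := prod_gl hab o (fun w => vv w y d)
      simp only [hva, hvb, hvo, one_mul] at h4 h5
      rw [h4, h5]
    simp only [hbad, h3]
    rw [← h2]
  -- the count
  have hcount : ∀ B : (P × V k) × (Fin n → P × V k) → Prop, ((GM.SCm (P := P) h e c).filter fun y =>
      B (y b, fun l => y (o l).1)).card = (SC (P := P) h e cb).card *
      ((SC (P := P) h e cb ×ˢ Fintype.piFinset fun i => SC (P := P) h e (co i)).filter B).card := by
    intro B
    rw [← Finset.card_product]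
    refine Finset.card_nbij' (fun y => (y a, (y b, fun l => y (o l).1))) (fun q => gl o q.1 q.2.1 q.2.2) ?_ ?_ ?_ ?_
    · intro y hy
      rw [Finset.mem_coe, Finset.mem_filter, GM.mem_SCm] at hy
      rw [Finset.mem_coe, Finset.mem_product, Finset.mem_filter, Finset.mem_product, Fintype.mem_piFinset]
      unfold SC
      simp only [Finset.mem_filter, Finset.mem_univ, true_and]
      refine ⟨?_, ⟨?_, fun l => ?_⟩, hy.2⟩
      · have h2 := hy.1 a
        rw [hca] at h2
        exact h2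
      · have h2 := hy.1 b
        rw [hcb] at h2
        exact h2
      · have h2 := hy.1 (o l).1
        rw [hco] at h2
        exact h2
    · intro q hq
      rw [Finset.mem_coe, Finset.mem_product, Finset.mem_filter, Finset.mem_product, Fintype.mem_piFinset] at hq
      unfold SC at hq
      simp only [Finset.mem_filter, Finset.mem_univ, true_and] at hq
      rw [Finset.mem_coe, Finset.mem_filter, GM.mem_SCm]
      refine ⟨fun w => ?_, ?_⟩
      · show flr (e - (h + 3)) (gl o q.1 q.2.1 q.2.2 w).2 = flr (e - (h + 3)) (c w)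
        rcases cases_o o w with h3 | h3 | ⟨l, h3⟩
        · rw [h3, gl_a, hca]
          exact hq.1
        · rw [h3, gl_b hab, hcb]
          exact hq.2.1.1
        · rw [h3, gl_o, hco]
          exact hq.2.1.2 l
      · simp only [gl_b hab, gl_o]
        exact hq.2.2
    · intro y _
      exact gl_eta o y
    · intro q _
      simp only [gl_a, gl_b hab, gl_o]
  have hfil : ((GM.SCm (P := P) h e c).filter fun y =>
      r ≤ |av e g.1 (fun d => R e g y d * ∏ w ∈ univ.erase a, vv w y d)|) =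
      ((GM.SCm (P := P) h e c).filter fun y => bad (y b, fun l => y (o l).1)) :=
    Finset.filter_congr fun y _ => hcond y
  have htot : (GM.SCm (P := P) h e c).card = (SC (P := P) h e cb).card *
      (SC (P := P) h e cb ×ˢ Fintype.piFinset fun i => SC (P := P) h e (co i)).card := by
    have h2 := hcount (fun _ => True)
    simpa only [Finset.filter_true] using h2
  rw [hfil, hcount bad, htot] at h1
  push_cast at h1
  have hpos : (0 : ℝ) < (SC (P := P) h e cb).card := by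
    rw [Nat.cast_pos, Finset.card_pos]
    refine ⟨(Classical.arbitrary P, cb), ?_⟩
    unfold SC
    simp
  have h4 : ((SC (P := P) h e cb).card : ℝ) *
      (((SC (P := P) h e cb ×ˢ Fintype.piFinset fun i => SC (P := P) h e (co i)).filter bad).card : ℝ) ≤
      ((SC (P := P) h e cb).card : ℝ) *
      (θ * ((SC (P := P) h e cb ×ˢ Fintype.piFinset fun i => SC (P := P) h e (co i)).card : ℝ)) := by
    refine h1.trans (le_of_eq ?_)
    ring
  exact le_of_mul_le_mul_left h4 hpos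

/-- FROM `GM.PT` : the face `a`, family of `b` -/
theorem PTx_B {h h' : ℕ} (hh : h ≤ h') (hN : N ≤ k) {a b : ι} (hab : a ≠ b) (o : Enu n a b) (s : V k)
    {R : GM.Fam k ι P} (hR : GM.FOn ({a}ᶜ : Set ι) R) (hR1 : GM.FLe 1 R) {θ r H : ℝ} (hθ : 0 ≤ θ) (hH : 1 ≤ H)
    (hPT : GM.PT a h N R θ r H) :
    PTx h' N (FmB o s h R) (θ * 2 ^ ((h' - h) * (n + 1))) (r + 2 * ((2 : ℝ) ^ h)⁻¹) :=
  ((PTn_B hab o hR hH hPT).exact hh hN hθ fun _ _ _ _ _ => hR1 _ _ _ _).offset s

/-- FROM `GM.PT` : the face `b`, family of `a` -/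
theorem PTx_A {h h' : ℕ} (hh : h ≤ h') (hN : N ≤ k) {a b : ι} (hab : a ≠ b) (o : Enu n a b) (s : V k)
    {R : GM.Fam k ι P} (hR : GM.FOn ({b}ᶜ : Set ι) R) (hR1 : GM.FLe 1 R) {θ r H : ℝ} (hθ : 0 ≤ θ) (hH : 1 ≤ H)
    (hPT : GM.PT b h N R θ r H) :
    PTx h' N (FmA o s h R) (θ * 2 ^ ((h' - h) * (n + 1))) (r + 2 * ((2 : ℝ) ^ h)⁻¹) := by
  have h1 := PTx_B hh hN hab.symm o.swap s hR hR1 hθ hH hPT
  have h2 : FmB o.swap s h R = FmA o s h R := by
    funext e g y x z
    unfold FmB FmA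
    rw [gl_swap o y y hab]
  rw [h2] at h1
  exact h1

end face

end law

end

end Pool.Agent.GMC
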