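import Pool.Agent.GMC.Inst
import Pool.Agent.GMC.Rare

/-!
# GMC/Bridge: from the model `GM/Sq` (any number of vertices, offset `s`) to the instance `Ins` of C2 (helper48)

`a ≠ b` vertices, `o : Enu n a b`; `RA` (misses `b`), `RB` (misses `a`): families, one for each value of the coin `ξ : Ξ`
(`Ξ = Unit`: no coin); public randomness is fixed (the families may depend on it).
* `prj hab o : Sq → S2`, `E_prj`, `Pr_prj` : the projection preserves the law; `va_prj`, `vb_prj`, `vo_prj`;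
* `brI` : the instance; `brI.ver`;
* `PTc` : product tests at exact nodes, coins averaged, tests coin-free; `PTc.of_PTx` : coin-free families;
* `ver_brA`, `ver_brB` : the changes of version are those of the families of `GM/Model` along the path of the faces;
* `brH` : ALL HYPOTHESES `InsH`, from `PTc` of both faces (at most one of them has coins);
* `brU`, `brUH` : WITHOUT COINS, from `GM.PT` of both faces.
-/

set_option autoImplicit false
set_option linter.unusedSectionVars false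

namespace Pool.Agent.GMC

open Finset Pool.Agent.PWZ Pool.Agent.M3 Pool.Agent.M3.Bin Pool.Agent.M3.Mod

noncomputable section

variable {k N n : ℕ} {ι Θ P Ξ : Type} [Fintype ι] [DecidableEq ι]

/-! ## the projection -/

/-- the point of `S2` -/
def prj {a b : ι} (hab : a ≠ b) (o : Enu n a b) (w : GM.Sq k N ι Θ P) : S2 k N n P := (brE hab o w).2

theorem prj_ptS {a b : ι} (hab : a ≠ b) (o : Enu n a b) (θ : Θ) (ω : S2 k N n P) : prj hab o (ptS hab o θ ω) = ω := by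
  show (brE hab o ((brE hab o).symm (θ, ω))).2 = ω
  rw [Equiv.apply_symm_apply]

theorem ptS_prj {a b : ι} (hab : a ≠ b) (o : Enu n a b) (w : GM.Sq k N ι Θ P) : ptS hab o (GM.th w) (prj hab o w) = w := by
  show (brE hab o).symm ((brE hab o w).1, (brE hab o w).2) = w
  exact (brE hab o).symm_apply_apply w

theorem va_prj {a b : ι} (hab : a ≠ b) (o : Enu n a b) (w : GM.Sq k N ι Θ P) : va (prj hab o w) = GM.vx a w := rfl

theorem vb_prj {a b : ι} (hab : a ≠ b) (o : Enu n a b) (w : GM.Sq k N ι Θ P) : vb (prj hab o w) = GM.vx b w := rfl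

theorem vo_prj {a b : ι} (hab : a ≠ b) (o : Enu n a b) (w : GM.Sq k N ι Θ P) (j : Fin n) :
    vo (prj hab o w) j = GM.vx (o j).1 w := rfl

theorem nw_prj {a b : ι} (hab : a ≠ b) (o : Enu n a b) (w : GM.Sq k N ι Θ P) : nw (prj hab o w) = GM.nz w := rfl

theorem ct_prj {a b : ι} (hab : a ≠ b) (o : Enu n a b) (s : V k) (w : GM.Sq k N ι Θ P) :
    ct (prj hab o w) + s = GM.ctr s w := by
  rw [← ctr_pt hab o s (GM.th w) (prj hab o w), ptS_prj]

/-- the exact node of `Sq` is the exact node of `S2` moved by `s` -/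
theorem Yn_prj {a b : ι} (hab : a ≠ b) (o : Enu n a b) (s : V k) (e : ℕ) (w : GM.Sq k N ι Θ P) :
    GM.Yn s e w = ((nd e (ct (prj hab o w)) (nw (prj hab o w))).1 + s,
      (nd e (ct (prj hab o w)) (nw (prj hab o w))).2) := by
  rw [← Yn_pt hab o s (GM.th w) e (prj hab o w), ptS_prj]

section law

variable [Fintype Θ] [Nonempty Θ] [Fintype P] [Nonempty P]

/-- the projection preserves the law -/
theorem E_prj {a b : ι} (hab : a ≠ b) (o : Enu n a b) (f : S2 k N n P → ℝ) :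
    (GM.Pm : FP (GM.Sq k N ι Θ P)).E (fun w => f (prj hab o w)) = (Pu k N n P).E f := by
  rw [E_bri hab o]
  have h1 : ∀ θ : Θ, (Pu k N n P).E (fun ω => f (prj hab o (ptS hab o θ ω))) = (Pu k N n P).E f := by
    intro θ
    refine (Pu k N n P).E_congr fun ω _ => ?_
    rw [prj_ptS]
  rw [(FP.unif Θ).E_congr fun θ _ => h1 θ]
  exact (FP.unif Θ).E_const _

theorem Pr_prj {a b : ι} (hab : a ≠ b) (o : Enu n a b) (A : S2 k N n P → Prop) :
    (GM.Pm : FP (GM.Sq k N ι Θ P)).Pr (fun w => A (prj hab o w)) = (Pu k N n P).Pr A :=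
  E_prj hab o fun ω => ind (A ω)

/-- events which do not see the public randomness -/
theorem Pr_pt {a b : ι} (hab : a ≠ b) (o : Enu n a b) (A : GM.Sq k N ι Θ P → Prop)
    (hA : ∀ (θ θ' : Θ) ω, A (ptS hab o θ ω) ↔ A (ptS hab o θ' ω)) (θ : Θ) :
    (Pu k N n P).Pr (fun ω => A (ptS hab o θ ω)) = (GM.Pm : FP (GM.Sq k N ι Θ P)).Pr A := by
  rw [← Pr_prj (Θ := Θ) hab o]
  refine FP.Pr_congr _ fun w _ => ?_
  rw [hA θ (GM.th w), ptS_prj]

end law

/-! ## sums over the micro steps -/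

theorem sum_micro {g : ℕ → ℝ} (hg : ∀ t, t % (n + 1) ≠ 0 → g t = 0) (N : ℕ) :
    ∑ t ∈ range ((n + 1) * N), g t = ∑ τ ∈ range N, g ((n + 1) * τ) := by
  induction N with
  | zero => simp
  | succ N ih =>
    rw [Nat.mul_succ, Finset.sum_range_add, ih, Finset.sum_range_succ _ N]
    congr 1
    rw [Finset.sum_eq_single 0]
    · rw [Nat.add_zero]
    · intro j hj hj0
      refine hg _ ?_
      rw [Nat.mul_add_mod, Nat.mod_eq_of_lt (Finset.mem_range.1 hj)]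
      exact hj0
    · intro h
      exact absurd (Finset.mem_range.2 (Nat.succ_pos n)) h

/-! ## the instance -/

/-- THE INSTANCE: product tests on cells of scale `e - (h' + 3)`, rounding `h` of the families -/
def brI {a b : ι} (o : Enu n a b) (N : ℕ) (s : V k) (h h' hh q L : ℕ) (r th : ℝ) (wx : Ξ → ℝ)
    (RA RB : Ξ → GM.Fam k ι P) : Ins k N n P Ξ where
  h := h'
  hh := hh
  q := q
  L := L
  r := r
  th := th
  wx := wx
  FA := fun e g x y ξ z => FmA o s h (RA ξ) e g x y z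
  FB := fun e g x y ξ z => FmB o s h (RB ξ) e g x y z

/-- PRODUCT TESTS at all exact nodes, small cells of the rounding `h'`, coins averaged, tests coin-free -/
def PTc [Fintype P] [Fintype Ξ] (wx : Ξ → ℝ) (h' N : ℕ) (G : Ξ → Fm k n P) (θ r : ℝ) : Prop :=
  ∀ e ≤ N, ∀ g : V k × ℕ, ∀ (cb : V k) (co : Fin n → V k)
    (v0 : (Fin n → P × V k) → V k → ℝ) (v : Fin n → P × V k → (Fin n → P × V k) → V k → ℝ),
    (∀ x d, |v0 x d| ≤ 1) → (∀ i b x d, |v i b x d| ≤ 1) →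
    (∀ i b x y, (∀ j, j ≠ i → x j = y j) → ∀ d, v i b x d = v i b y d) →
    ∑ ξ, wx ξ * (((SC (P := P) h' e cb ×ˢ Fintype.piFinset fun i => SC (P := P) h' e (co i)).filter fun q =>
      r ≤ |av e g.1 (fun d => G ξ e g q.1 q.2 d * (v0 q.2 d * ∏ i, v i q.1 q.2 d))|).card : ℝ) ≤
    θ * (SC (P := P) h' e cb ×ˢ Fintype.piFinset fun i => SC (P := P) h' e (co i)).card

theorem PTc.of_PTx [Fintype P] [Fintype Ξ] {wx : Ξ → ℝ} (h0 : ∀ ξ, 0 ≤ wx ξ) (h1 : ∑ ξ, wx ξ = 1) {h' N : ℕ}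
    {G : Ξ → Fm k n P} {θ r : ℝ} (hPT : ∀ ξ, PTx h' N (G ξ) θ r) : PTc wx h' N G θ r := by
  intro e he g cb co v0 v hv0 hv hvi
  refine le_trans (Finset.sum_le_sum fun ξ _ =>
    mul_le_mul_of_nonneg_left (hPT ξ e he g cb co v0 v hv0 hv hvi) (h0 ξ)) ?_
  rw [← Finset.sum_mul, h1, one_mul]

/-- the tests of `FaceH` for a face `F` and the other face `G`: `F` with coins, `G` without, or `F` without coins -/
theorem pt_of_PTc [Fintype P] [Nonempty P] [Fintype Ξ] {I : Ins k N n P Ξ} {F G : Ξ → Fm k n P} {eps0 : ℝ}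
    (h0 : ∀ ξ, 0 ≤ I.wx ξ) (h1 : ∑ ξ, I.wx ξ = 1) (hG : ∀ ξ e g x y z, |G ξ e g x y z| ≤ 1)
    (hPT : PTc I.wx I.h N F I.th eps0) (hc : (∀ ξ ξ', F ξ = F ξ') ∨ ∀ ξ ξ', G ξ = G ξ') :
    ∀ e ≤ N, ∀ (g : V k × ℕ) (a' : P × V k) (ca : V k) (c : Fin n → V k)
    (v : Fin n → P × V k → (Fin n → P × V k) → V k → ℝ),
    (∀ i a x z, |v i a x z| ≤ 1) →
    (∀ i a x y, (∀ j, j ≠ i → x j = y j) → ∀ z, v i a x z = v i a y z) →
    ∑ a ∈ SC (P := P) I.h e ca, ∑ x ∈ Fintype.piFinset fun i => SC (P := P) I.h e (c i), ∑ ξ, I.wx ξ *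
      ind (eps0 ≤ |av e g.1 (fun d => F ξ e g a x d * G ξ e g a' x d * ∏ i, v i a x d)|) ≤
    I.th * ((SC (P := P) I.h e ca).card * (Fintype.piFinset fun i => SC (P := P) I.h e (c i)).card) := by
  classical
  intro e he g a' ca c v hv hvi
  have hne : Nonempty Ξ := by
    by_contra hcon
    rw [not_nonempty_iff] at hcon
    rw [Finset.univ_eq_empty, Finset.sum_empty] at h1
    exact zero_ne_one h1
  -- the sum as a sum over the coins of counts
  have hsw : ∀ (bad : Ξ → (P × V k) × (Fin n → P × V k) → Prop),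
      ∑ a ∈ SC (P := P) I.h e ca, ∑ x ∈ Fintype.piFinset fun i => SC (P := P) I.h e (c i), ∑ ξ, I.wx ξ *
        ind (bad ξ (a, x)) =
      ∑ ξ, I.wx ξ * (((SC (P := P) I.h e ca ×ˢ Fintype.piFinset fun i => SC (P := P) I.h e (c i)).filter
        (bad ξ)).card : ℝ) := by
    intro bad
    have e1 : ∀ ξ, (((SC (P := P) I.h e ca ×ˢ Fintype.piFinset fun i => SC (P := P) I.h e (c i)).filter
        (bad ξ)).card : ℝ) = ∑ a ∈ SC (P := P) I.h e ca, ∑ x ∈ Fintype.piFinset fun i => SC (P := P) I.h e (c i),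
        ind (bad ξ (a, x)) := by
      intro ξ
      rw [Finset.card_filter, Finset.sum_product]
      push_cast
      refine Finset.sum_congr rfl fun a _ => Finset.sum_congr rfl fun x _ => ?_
      by_cases h : bad ξ (a, x)
      · rw [if_pos h, ind_of h]
      · rw [if_neg h, ind_not h]
    simp only [e1, Finset.mul_sum]
    rw [Finset.sum_congr rfl fun a _ => Finset.sum_comm]
    rw [Finset.sum_comm]
  have hmain : ∀ (v0 : Ξ → (Fin n → P × V k) → V k → ℝ), (∀ ξ x d, |v0 ξ x d| ≤ 1) →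
      ((∀ ξ ξ', F ξ = F ξ') ∨ ∀ ξ ξ', v0 ξ = v0 ξ') →
      ∑ ξ, I.wx ξ * (((SC (P := P) I.h e ca ×ˢ Fintype.piFinset fun i => SC (P := P) I.h e (c i)).filter
        fun q => eps0 ≤ |av e g.1 (fun d => F ξ e g q.1 q.2 d * (v0 ξ q.2 d * ∏ i, v i q.1 q.2 d))|).card : ℝ) ≤
      I.th * (SC (P := P) I.h e ca ×ˢ Fintype.piFinset fun i => SC (P := P) I.h e (c i)).card := by
    intro v0 hv0 hcc
    have ξ0 : Ξ := Classical.arbitrary Ξ
    rcases hcc with hF | hv0'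
    · -- `F` without coins
      have e1 : ∀ ξ', (((SC (P := P) I.h e ca ×ˢ Fintype.piFinset fun i => SC (P := P) I.h e (c i)).filter
          fun q => eps0 ≤ |av e g.1 (fun d => F ξ' e g q.1 q.2 d * (v0 ξ' q.2 d * ∏ i, v i q.1 q.2 d))|).card : ℝ) ≤
          I.th * (SC (P := P) I.h e ca ×ˢ Fintype.piFinset fun i => SC (P := P) I.h e (c i)).card := by
        intro ξ'
        have h2 := hPT e he g ca c (v0 ξ') v (hv0 ξ') hv hvi
        have e2 : ∀ ξ, F ξ = F ξ' := fun ξ => hF ξ ξ'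
        simp only [e2] at h2
        rw [← Finset.sum_mul, h1, one_mul] at h2
        exact h2
      refine le_trans (Finset.sum_le_sum fun ξ _ => mul_le_mul_of_nonneg_left (e1 ξ) (h0 ξ)) ?_
      rw [← Finset.sum_mul, h1, one_mul]
    · have h2 := hPT e he g ca c (v0 ξ0) v (hv0 ξ0) hv hvi
      have e2 : ∀ ξ, v0 ξ = v0 ξ0 := fun ξ => hv0' ξ ξ0
      simp only [e2]
      exact h2
  have h3 := hmain (fun ξ x d => G ξ e g a' x d) (fun ξ x d => hG _ _ _ _ _ _) (by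
    rcases hc with h | h
    · exact Or.inl h
    · refine Or.inr fun ξ ξ' => ?_
      simp only [h ξ ξ'])
  have h4 := hsw fun ξ q => eps0 ≤ |av e g.1 (fun d => F ξ e g q.1 q.2 d * G ξ e g a' q.2 d * ∏ i, v i q.1 q.2 d)|
  rw [h4]
  refine le_trans (le_of_eq ?_) (h3.trans (le_of_eq ?_))
  · refine Finset.sum_congr rfl fun ξ _ => ?_
    congr 3
    refine Finset.filter_congr fun q _ => ?_
    have e5 : (fun d => F ξ e g q.1 q.2 d * G ξ e g a' q.2 d * ∏ i, v i q.1 q.2 d) =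
        fun d => F ξ e g q.1 q.2 d * (G ξ e g a' q.2 d * ∏ i, v i q.1 q.2 d) := by
      funext d
      ring
    rw [e5]
  · rw [Finset.card_product]
    push_cast
    ring

/-! ## the changes of version -/

section ver

variable {a b : ι} (hab : a ≠ b) (o : Enu n a b) (s : V k) (h h' hh q L : ℕ) (r th : ℝ) (wx : Ξ → ℝ)
  (RA RB : Ξ → GM.Fam k ι P)

theorem cf_fst_macro (N hh t : ℕ) (τ : ℕ) (ht : t = (n + 1) * τ) : (cf N hh n t).1 = N - τ := by
  subst ht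
  rw [cf_macro]

theorem cf_fst_macro' (N hh : ℕ) (τ : ℕ) : (cf N hh n ((n + 1) * τ + 1)).1 = N - τ - 1 := by
  rw [cf_fst_succ, cf_macro, if_pos (Nat.mul_mod_right _ _)]

/-- the version of `RA` along the path of the faces -/
theorem verA (hR : ∀ ξ, GM.FOn ({b}ᶜ : Set ι) (RA ξ)) (θ : Θ) (t : ℕ) (ω : S2 k N n P) (ξ : Ξ) (z : V k) :
    (brI o N s h h' hh q L r th wx RA RB).ver (brI o N s h h' hh q L r th wx RA RB).FA t
      ((brI o N s h h' hh q L r th wx RA RB).nu t ω) (va ω) (vo ω) ξ z =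
    GM.fv s h (RA ξ) (cf N hh n t).1 (ptS hab o θ ω) (z + s) := by
  rw [fv_A hab o s θ h (cf N hh n t).1 (hR ξ) ω z]
  rfl

/-- the version of `RB` along the path of the faces -/
theorem verB (hR : ∀ ξ, GM.FOn ({a}ᶜ : Set ι) (RB ξ)) (θ : Θ) (t : ℕ) (ω : S2 k N n P) (ξ : Ξ) (z : V k) :
    (brI o N s h h' hh q L r th wx RA RB).ver (brI o N s h h' hh q L r th wx RA RB).FB t
      ((brI o N s h h' hh q L r th wx RA RB).nu t ω) (vb ω) (vo ω) ξ z =
    GM.fv s h (RB ξ) (cf N hh n t).1 (ptS hab o θ ω) (z + s) := by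
  rw [fv_B hab o s θ h (cf N hh n t).1 (hR ξ) ω z]
  rfl

end ver

section law

variable [Fintype Θ] [Nonempty Θ] [Fintype P] [Nonempty P] [Fintype Ξ]

/-- mean number of changes of the families `R ξ` along the path of the faces, coins averaged -/
def chg (N : ℕ) (Θ P : Type) [Fintype Θ] [Nonempty Θ] [Fintype P] [Nonempty P] (s : V k) (h : ℕ) (wx : Ξ → ℝ)
    (R : Ξ → GM.Fam k ι P) : ℝ :=
  ∑ e ∈ range N, ∑ ξ, wx ξ * (GM.Pm : FP (GM.Sq k N ι Θ P)).Pr (fun w =>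
    GM.fv s h (R ξ) (e + 1) w ≠ GM.fv s h (R ξ) e w)

/-- the abstract count: a function `A t ω ξ` which is the value of `R ξ` at the exponent of `t` -/
theorem ver_abs {a b : ι} (hab : a ≠ b) (o : Enu n a b) (s : V k) (h hh : ℕ) {wx : Ξ → ℝ} (h0 : ∀ ξ, 0 ≤ wx ξ)
    (R : Ξ → GM.Fam k ι P) (θ : Θ) (A : ℕ → S2 k N n P → Ξ → V k → ℝ)
    (hA : ∀ t ω ξ z, A t ω ξ z = GM.fv s h (R ξ) (cf N hh n t).1 (ptS hab o θ ω) (z + s)) :
    ∑ t ∈ range ((n + 1) * N), (Pu k N n P).E (fun ω => ∑ ξ, wx ξ * ind (A t ω ξ ≠ A (t + 1) ω ξ)) ≤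
      chg N Θ P s h wx R := by
  have hAf : ∀ t ω ξ, A t ω ξ = fun z => GM.fv s h (R ξ) (cf N hh n t).1 (ptS hab o θ ω) (z + s) := fun t ω ξ =>
    funext fun z => hA t ω ξ z
  rw [sum_micro (n := n) (g := fun t => (Pu k N n P).E (fun ω => ∑ ξ, wx ξ * ind (A t ω ξ ≠ A (t + 1) ω ξ))) ?_ N]
  swap
  · intro t ht
    have h1 : (cf N hh n (t + 1)).1 = (cf N hh n t).1 := by
      rw [cf_fst_succ, if_neg ht, Nat.sub_zero]
    have h2 : ∀ ω, ∑ ξ, wx ξ * ind (A t ω ξ ≠ A (t + 1) ω ξ) = 0 := by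
      intro ω
      refine Finset.sum_eq_zero fun ξ _ => ?_
      rw [ind_not, mul_zero]
      rw [hAf, hAf, h1]
      exact fun hne => hne rfl
    show (Pu k N n P).E (fun ω => ∑ ξ, wx ξ * ind (A t ω ξ ≠ A (t + 1) ω ξ)) = 0
    rw [(Pu k N n P).E_congr fun ω _ => h2 ω]
    exact (Pu k N n P).E_const 0
  unfold chg
  rw [← Finset.sum_range_reflect (fun e => ∑ ξ, wx ξ * (GM.Pm : FP (GM.Sq k N ι Θ P)).Pr (fun w =>
    GM.fv s h (R ξ) (e + 1) w ≠ GM.fv s h (R ξ) e w)) N]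
  refine Finset.sum_le_sum fun τ hτ => ?_
  have hτN : τ < N := Finset.mem_range.1 hτ
  rw [(Pu k N n P).E_sum]
  refine Finset.sum_le_sum fun ξ _ => ?_
  rw [(Pu k N n P).E_smul]
  refine mul_le_mul_of_nonneg_left ?_ (h0 ξ)
  rw [← Pr_pt hab o (fun w => GM.fv s h (R ξ) (N - 1 - τ + 1) w ≠ GM.fv s h (R ξ) (N - 1 - τ) w)
    (fun θ θ' ω => Iff.rfl) θ]
  refine (Pu k N n P).E_mono fun ω _ => ind_mono fun hne => ?_
  rw [hAf, hAf, cf_fst_macro N hh _ τ rfl, cf_fst_macro'] at hne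
  have e1 : N - 1 - τ + 1 = N - τ := by omega
  have e2 : N - 1 - τ = N - τ - 1 := by omega
  show GM.fv s h (R ξ) (N - 1 - τ + 1) (ptS hab o θ ω) ≠ GM.fv s h (R ξ) (N - 1 - τ) (ptS hab o θ ω)
  rw [e1, e2]
  intro heq
  apply hne
  rw [heq]

/-- **ALL HYPOTHESES OF C2** for the instance `brI`; at most one face has coins -/
theorem brH {a b : ι} (hab : a ≠ b) (o : Enu n a b) (Θ : Type) [Fintype Θ] [Nonempty Θ] (hN : N ≤ k) (s : V k)
    (h h' hh q L : ℕ) {r th p eps0 : ℝ} {wx : Ξ → ℝ} (wx0 : ∀ ξ, 0 ≤ wx ξ) (wx1 : ∑ ξ, wx ξ = 1)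
    {RA RB : Ξ → GM.Fam k ι P} (hA : ∀ ξ, GM.FOn ({b}ᶜ : Set ι) (RA ξ)) (hB : ∀ ξ, GM.FOn ({a}ᶜ : Set ι) (RB ξ))
    (hA1 : ∀ ξ, GM.FLe 1 (RA ξ)) (hB1 : ∀ ξ, GM.FLe 1 (RB ξ))
    (hc : (∀ ξ ξ', RA ξ = RA ξ') ∨ ∀ ξ ξ', RB ξ = RB ξ')
    (hPA : PTc wx h' N (fun ξ => FmA o s h (RA ξ)) th eps0) (hPB : PTc wx h' N (fun ξ => FmB o s h (RB ξ)) th eps0)
    (hvA : chg N Θ P s h wx RA ≤ p) (hvB : chg N Θ P s h wx RB ≤ p)
    (hn : 4 * n ≤ 2 ^ hh) (hh3 : hh ≤ h' + 3) (q1 : 1 ≤ q) (eps00 : 0 ≤ eps0) (rr : 4 * eps0 ^ (2 * q) ≤ r)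
    (rpos : 0 < r) (r1 : r ≤ 1) (thpos : 0 < th) (th1 : th < 1) (p0 : 0 ≤ p) :
    InsH (brI o N s h h' hh q L r th wx RA RB) p eps0 where
  hN := hN
  hn := hn
  hh := hh3
  q1 := q1
  eps00 := eps00
  rr := rr
  rpos := rpos
  r1 := r1
  thpos := thpos
  th1 := th1
  p0 := p0
  wx0 := wx0
  wx1 := wx1
  a := {
    le := fun e g x y ξ z => hA1 ξ _ _ _ _
    ver := by
      have θ : Θ := Classical.arbitrary Θ
      exact (ver_abs hab o s h hh wx0 RA θ (fun t ω ξ =>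
        (brI o N s h h' hh q L r th wx RA RB).ver (brI o N s h h' hh q L r th wx RA RB).FA t
          ((brI o N s h h' hh q L r th wx RA RB).nu t ω) (va ω) (vo ω) ξ)
        (fun t ω ξ z => verA hab o s h h' hh q L r th wx RA RB hA θ t ω ξ z)).trans hvA
    pt := by
      refine pt_of_PTc (I := brI o N s h h' hh q L r th wx RA RB) (F := fun ξ => FmA o s h (RA ξ))
        (G := fun ξ => FmB o s h (RB ξ)) wx0 wx1 (fun ξ e g x y z => hB1 ξ _ _ _ _) hPA ?_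
      rcases hc with hc | hc
      · exact Or.inl fun ξ ξ' => by
          show FmA o s h (RA ξ) = FmA o s h (RA ξ')
          rw [hc ξ ξ']
      · exact Or.inr fun ξ ξ' => by
          show FmB o s h (RB ξ) = FmB o s h (RB ξ')
          rw [hc ξ ξ'] }
  b := {
    le := fun e g x y ξ z => hB1 ξ _ _ _ _
    ver := by
      have θ : Θ := Classical.arbitrary Θ
      exact (ver_abs hab o s h hh wx0 RB θ (fun t ω ξ =>
        (brI o N s h h' hh q L r th wx RA RB).ver (brI o N s h h' hh q L r th wx RA RB).FB t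
          ((brI o N s h h' hh q L r th wx RA RB).nu t ω) (vb ω) (vo ω) ξ)
        (fun t ω ξ z => verB hab o s h h' hh q L r th wx RA RB hB θ t ω ξ z)).trans hvB
    pt := by
      refine pt_of_PTc (I := brI o N s h h' hh q L r th wx RA RB) (F := fun ξ => FmB o s h (RB ξ))
        (G := fun ξ => FmA o s h (RA ξ)) wx0 wx1 (fun ξ e g x y z => hA1 ξ _ _ _ _) hPB ?_
      rcases hc with hc | hc
      · exact Or.inr fun ξ ξ' => by
          show FmA o s h (RA ξ) = FmA o s h (RA ξ')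
          rw [hc ξ ξ']
      · exact Or.inl fun ξ ξ' => by
          show FmB o s h (RB ξ) = FmB o s h (RB ξ')
          rw [hc ξ ξ'] }

/-! ## without coins -/

/-- the instance without coins -/
def brU {a b : ι} (o : Enu n a b) (N : ℕ) (s : V k) (h h' hh q L : ℕ) (r th : ℝ) (Ra Rb : GM.Fam k ι P) :
    Ins k N n P Unit :=
  brI o N s h h' hh q L r th (fun _ => 1) (fun _ => Ra) fun _ => Rb

/-- mean number of changes of one family along the path of the faces -/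
def chg1 (N : ℕ) (Θ P : Type) [Fintype Θ] [Nonempty Θ] [Fintype P] [Nonempty P] (s : V k) (h : ℕ)
    (R : GM.Fam k ι P) : ℝ :=
  ∑ e ∈ range N, (GM.Pm : FP (GM.Sq k N ι Θ P)).Pr (fun w => GM.fv s h R (e + 1) w ≠ GM.fv s h R e w)

/-- **ALL HYPOTHESES OF C2, WITHOUT COINS, FROM `GM.PT`** : `th = θ 2^((h'-h)(n+1))`, `eps0 = r0 + 2 * 2^-h` -/
theorem brUH {a b : ι} (hab : a ≠ b) (o : Enu n a b) (Θ : Type) [Fintype Θ] [Nonempty Θ] (hN : N ≤ k) (s : V k)
    {h h' : ℕ} (hhh : h ≤ h') (hh q L : ℕ) {r θ p r0 H : ℝ} {Ra Rb : GM.Fam k ι P}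
    (hA : GM.FOn ({b}ᶜ : Set ι) Ra) (hB : GM.FOn ({a}ᶜ : Set ι) Rb) (hA1 : GM.FLe 1 Ra) (hB1 : GM.FLe 1 Rb)
    (hH : 1 ≤ H) (hPA : GM.PT b h N Ra θ r0 H) (hPB : GM.PT a h N Rb θ r0 H)
    (hvA : chg1 N Θ P s h Ra ≤ p) (hvB : chg1 N Θ P s h Rb ≤ p)
    (hn : 4 * n ≤ 2 ^ hh) (hh3 : hh ≤ h' + 3) (q1 : 1 ≤ q) (hr0 : 0 ≤ r0)
    (rr : 4 * (r0 + 2 * ((2 : ℝ) ^ h)⁻¹) ^ (2 * q) ≤ r)
    (rpos : 0 < r) (r1 : r ≤ 1) (hθ : 0 < θ) (th1 : θ * 2 ^ ((h' - h) * (n + 1)) < 1) (p0 : 0 ≤ p) :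
    InsH (brU o N s h h' hh q L r (θ * 2 ^ ((h' - h) * (n + 1))) Ra Rb) p (r0 + 2 * ((2 : ℝ) ^ h)⁻¹) := by
  have w0 : ∀ _ξ : Unit, (0 : ℝ) ≤ 1 := fun _ => zero_le_one
  have w1 : ∑ _ξ : Unit, (1 : ℝ) = 1 := by simp
  refine brH hab o Θ hN s h h' hh q L w0 w1 (fun _ => hA) (fun _ => hB) (fun _ => hA1) (fun _ => hB1)
    (Or.inl fun _ _ => rfl) (PTc.of_PTx w0 w1 fun _ => PTx_A hhh hN hab o s hA hA1 hθ.le hH hPA)
    (PTc.of_PTx w0 w1 fun _ => PTx_B hhh hN hab o s hB hB1 hθ.le hH hPB) (le_trans (le_of_eq ?_) hvA)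
    (le_trans (le_of_eq ?_) hvB) hn hh3 q1 (by positivity) rr rpos r1 (by positivity) th1 p0
  · unfold chg chg1
    simp
  · unfold chg chg1
    simp

end law

end

end Pool.Agent.GMC
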