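import Pool.Agent.GMC.Mod3
import Pool.Agent.GM.Model

/-!
# GMC/Bri: bridge from the model of every `m` with an offset (`GM/Sq`, helper11) to the space `S2` of C2 (helper27)

`a ≠ b` two vertices, `o : Fin n ≃ {i // i ≠ a ∧ i ≠ b}` an enumeration of the others.  `brE` : `Sq k N ι Θ P` is
`Θ × S2 k N n P`; `gl` glues `x_a`, `x_b` and the others; `E_bri`, `Pr_bri`: fix the public randomness; `Yn_bri`: the exact
node of `Sq` (with the offset `s`) is the exact node of `S2` moved by `s`.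
-/

set_option autoImplicit false
set_option linter.unusedSectionVars false

namespace Pool.Agent.GMC

open Finset Pool.Agent.PWZ Pool.Agent.M3 Pool.Agent.M3.Bin Pool.Agent.M3.Mod

noncomputable section

variable {k N n : ℕ} {ι Θ P : Type} [Fintype ι] [DecidableEq ι]

/-- enumeration of the other vertices -/
abbrev Enu (n : ℕ) {ι : Type} (a b : ι) := Fin n ≃ {i : ι // i ≠ a ∧ i ≠ b}

/-- all vertices from `x_a`, `x_b` and the others -/
def gl {a b : ι} (o : Enu n a b) (xa xb : P × V k) (x : Fin n → P × V k) (i : ι) : P × V k :=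
  if h : i ≠ a ∧ i ≠ b then x (o.symm ⟨i, h⟩) else if i = a then xa else xb

theorem gl_a {a b : ι} (o : Enu n a b) (xa xb : P × V k) (x : Fin n → P × V k) : gl o xa xb x a = xa := by
  unfold gl
  rw [dif_neg (fun h => h.1 rfl), if_pos rfl]

theorem gl_b {a b : ι} (hab : a ≠ b) (o : Enu n a b) (xa xb : P × V k) (x : Fin n → P × V k) :
    gl o xa xb x b = xb := by
  unfold gl
  rw [dif_neg (fun h => h.2 rfl), if_neg hab.symm]

theorem gl_o {a b : ι} (o : Enu n a b) (xa xb : P × V k) (x : Fin n → P × V k) (j : Fin n) :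
    gl o xa xb x (o j).1 = x j := by
  unfold gl
  rw [dif_pos (o j).2]
  congr 1
  exact o.symm_apply_apply j

theorem gl_eta {a b : ι} (o : Enu n a b) (y : ι → P × V k) :
    gl o (y a) (y b) (fun j => y (o j).1) = y := by
  funext i
  unfold gl
  split_ifs with h1 h2
  · show y (o (o.symm ⟨i, h1⟩)).1 = y i
    rw [o.apply_symm_apply]
  · rw [h2]
  · have h3 : i = b := by
      by_contra h4
      exact h1 ⟨h2, h4⟩
    rw [h3]

/-- a vertex is `a`, `b` or one of the others -/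
theorem cases_o {a b : ι} (o : Enu n a b) (i : ι) : i = a ∨ i = b ∨ ∃ j, i = (o j).1 := by
  by_cases h1 : i = a
  · exact Or.inl h1
  · by_cases h2 : i = b
    · exact Or.inr (Or.inl h2)
    · exact Or.inr (Or.inr ⟨o.symm ⟨i, h1, h2⟩, by rw [o.apply_symm_apply]⟩)

/-- sums over all vertices -/
theorem sum_gl {a b : ι} (hab : a ≠ b) (o : Enu n a b) {M : Type*} [AddCommMonoid M] (f : ι → M) :
    ∑ i, f i = f a + f b + ∑ j, f (o j).1 := by
  rw [← Finset.add_sum_erase univ f (mem_univ a),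
    ← Finset.add_sum_erase (univ.erase a) f (Finset.mem_erase.mpr ⟨hab.symm, mem_univ b⟩), ← add_assoc]
  congr 1
  rw [Equiv.sum_comp o (fun i : {i : ι // i ≠ a ∧ i ≠ b} => f i.1)]
  refine Finset.sum_subtype _ (fun i => ?_) f
  rw [Finset.mem_erase, Finset.mem_erase]
  constructor
  · rintro ⟨h1, h2, _⟩
    exact ⟨h2, h1⟩
  · rintro ⟨h1, h2⟩
    exact ⟨h2, h1, mem_univ i⟩

/-- products over all vertices -/
theorem prod_gl {a b : ι} (hab : a ≠ b) (o : Enu n a b) {M : Type*} [CommMonoid M] (f : ι → M) :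
    ∏ i, f i = f a * f b * ∏ j, f (o j).1 := by
  rw [← Finset.mul_prod_erase univ f (mem_univ a),
    ← Finset.mul_prod_erase (univ.erase a) f (Finset.mem_erase.mpr ⟨hab.symm, mem_univ b⟩), ← mul_assoc]
  congr 1
  rw [Equiv.prod_comp o (fun i : {i : ι // i ≠ a ∧ i ≠ b} => f i.1)]
  refine Finset.prod_subtype _ (fun i => ?_) f
  rw [Finset.mem_erase, Finset.mem_erase]
  constructor
  · rintro ⟨h1, h2, _⟩
    exact ⟨h2, h1⟩
  · rintro ⟨h1, h2⟩
    exact ⟨h2, h1, mem_univ i⟩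

/-- `Sq` is `Θ × S2` -/
def brE {a b : ι} (hab : a ≠ b) (o : Enu n a b) : GM.Sq k N ι Θ P ≃ Θ × S2 k N n P where
  toFun ω := (ω.1, ((ω.2.1 a, ω.2.1 b, fun j => ω.2.1 (o j).1), ω.2.2))
  invFun q := (q.1, gl o q.2.1.1 q.2.1.2.1 q.2.1.2.2, q.2.2)
  left_inv ω := Prod.ext rfl (Prod.ext (gl_eta o ω.2.1) rfl)
  right_inv q := by
    obtain ⟨θ, ⟨xa, xb, x⟩, w⟩ := q
    refine Prod.ext rfl (Prod.ext (Prod.ext ?_ (Prod.ext ?_ ?_)) rfl)
    · exact gl_a o xa xb x
    · exact gl_b hab o xa xb x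
    · funext j
      exact gl_o o xa xb x j

/-- the point of `Sq` -/
def ptS {a b : ι} (hab : a ≠ b) (o : Enu n a b) (θ : Θ) (ω : S2 k N n P) : GM.Sq k N ι Θ P := (brE hab o).symm (θ, ω)

theorem th_pt {a b : ι} (hab : a ≠ b) (o : Enu n a b) (θ : Θ) (ω : S2 k N n P) : GM.th (ptS hab o θ ω) = θ := rfl

theorem vs_pt {a b : ι} (hab : a ≠ b) (o : Enu n a b) (θ : Θ) (ω : S2 k N n P) :
    GM.vs (ptS hab o θ ω) = gl o (va ω) (vb ω) (vo ω) := rfl

theorem nz_pt {a b : ι} (hab : a ≠ b) (o : Enu n a b) (θ : Θ) (ω : S2 k N n P) :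
    GM.nz (ptS hab o θ ω) = nw ω := rfl

theorem vx_pt_a {a b : ι} (hab : a ≠ b) (o : Enu n a b) (θ : Θ) (ω : S2 k N n P) :
    GM.vx a (ptS hab o θ ω) = va ω := gl_a o _ _ _

theorem vx_pt_b {a b : ι} (hab : a ≠ b) (o : Enu n a b) (θ : Θ) (ω : S2 k N n P) :
    GM.vx b (ptS hab o θ ω) = vb ω := gl_b hab o _ _ _

theorem vx_pt_o {a b : ι} (hab : a ≠ b) (o : Enu n a b) (θ : Θ) (ω : S2 k N n P) (j : Fin n) :
    GM.vx (o j).1 (ptS hab o θ ω) = vo ω j := gl_o o _ _ _ j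

theorem ctr_pt {a b : ι} (hab : a ≠ b) (o : Enu n a b) (s : V k) (θ : Θ) (ω : S2 k N n P) :
    GM.ctr s (ptS hab o θ ω) = ct ω + s := by
  unfold GM.ctr ct so
  rw [sum_gl hab o, vx_pt_a, vx_pt_b]
  simp only [vx_pt_o]

theorem nd_add (e : ℕ) (z s : V k) (w : ℕ) : nd e (z + s) w = ((nd e z w).1 + s, (nd e z w).2) := by
  unfold nd
  rw [pos_add]

/-- THE EXACT NODE with the offset -/
theorem Yn_pt {a b : ι} (hab : a ≠ b) (o : Enu n a b) (s : V k) (θ : Θ) (e : ℕ) (ω : S2 k N n P) :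
    GM.Yn s e (ptS hab o θ ω) = ((nd e (ct ω) (nw ω)).1 + s, (nd e (ct ω) (nw ω)).2) := by
  unfold GM.Yn
  rw [ctr_pt, nz_pt, nd_add]

/-- THE ROUNDED NODE with the offset -/
theorem Gm_pt {a b : ι} (hab : a ≠ b) (o : Enu n a b) (s : V k) (θ : Θ) (h e : ℕ) (ω : S2 k N n P) :
    GM.Gm s h e (ptS hab o θ ω) = (flr (e - h) ((nd e (ct ω) (nw ω)).1 + s), (nd e (ct ω) (nw ω)).2) := by
  unfold GM.Gm Bin.G gam
  rw [ctr_pt, nz_pt]
  have h1 := pos_add e (ct ω) s (nw ω)
  rw [h1]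
  rfl

/-! ## families of one line as functions of the EXACT node (the offset and the rounding are inside) -/

/-- families in the form of C2: exponent, exact node `(y, digits above)`, ONE vertex, the others, argument -/
abbrev Fm (k n : ℕ) (P : Type) : Type := ℕ → V k × ℕ → P × V k → (Fin n → P × V k) → V k → ℝ

/-- the rounded node of `Sq` from the exact node of `S2` -/
def rnd (s : V k) (h e : ℕ) (g : V k × ℕ) : V k × ℕ := (flr (e - h) (g.1 + s), g.2)

/-- the family of `a` (it misses `b`) -/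
def FmA {a b : ι} (o : Enu n a b) (s : V k) (h : ℕ) (R : GM.Fam k ι P) : Fm k n P :=
  fun e g xa x z => R e (rnd s h e g) (gl o xa xa x) (z + s)

/-- the family of `b` (it misses `a`) -/
def FmB {a b : ι} (o : Enu n a b) (s : V k) (h : ℕ) (R : GM.Fam k ι P) : Fm k n P :=
  fun e g xb x z => R e (rnd s h e g) (gl o xb xb x) (z + s)

theorem Gm_pt' {a b : ι} (hab : a ≠ b) (o : Enu n a b) (s : V k) (θ : Θ) (h e : ℕ) (ω : S2 k N n P) :
    GM.Gm s h e (ptS hab o θ ω) = rnd s h e (nd e (ct ω) (nw ω)) := Gm_pt hab o s θ h e ω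

/-- value of a family which misses `b` at the sample point -/
theorem fv_A {a b : ι} (hab : a ≠ b) (o : Enu n a b) (s : V k) (θ : Θ) (h e : ℕ) {R : GM.Fam k ι P}
    (hR : GM.FOn ({b}ᶜ : Set ι) R) (ω : S2 k N n P) (z : V k) :
    GM.fv s h R e (ptS hab o θ ω) (z + s) = FmA o s h R e (nd e (ct ω) (nw ω)) (va ω) (vo ω) z := by
  unfold GM.fv FmA
  rw [Gm_pt', vs_pt]
  refine congrFun (hR e _ fun i hi => ?_) _
  rcases cases_o o i with h1 | h1 | ⟨j, h1⟩
  · rw [h1, gl_a, gl_a]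
  · exact absurd h1 hi
  · rw [h1, gl_o, gl_o]

/-- value of a family which misses `a` at the sample point -/
theorem fv_B {a b : ι} (hab : a ≠ b) (o : Enu n a b) (s : V k) (θ : Θ) (h e : ℕ) {R : GM.Fam k ι P}
    (hR : GM.FOn ({a}ᶜ : Set ι) R) (ω : S2 k N n P) (z : V k) :
    GM.fv s h R e (ptS hab o θ ω) (z + s) = FmB o s h R e (nd e (ct ω) (nw ω)) (vb ω) (vo ω) z := by
  unfold GM.fv FmB
  rw [Gm_pt', vs_pt]
  refine congrFun (hR e _ fun i hi => ?_) _
  rcases cases_o o i with h1 | h1 | ⟨j, h1⟩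
  · exact absurd h1 hi
  · rw [h1, gl_b hab, gl_b hab]
  · rw [h1, gl_o, gl_o]

section law

variable [Fintype Θ] [Nonempty Θ] [Fintype P] [Nonempty P]

/-- FIX THE PUBLIC RANDOMNESS -/
theorem E_bri {a b : ι} (hab : a ≠ b) (o : Enu n a b) (f : GM.Sq k N ι Θ P → ℝ) :
    (GM.Pm : FP (GM.Sq k N ι Θ P)).E f =
      (FP.unif Θ).E (fun θ => (Pu k N n P).E (fun ω => f (ptS hab o θ ω))) := by
  unfold GM.Pm Pu
  rw [FP.unif_E, FP.unif_E]
  simp only [FP.unif_E]
  rw [← Finset.sum_div, div_div]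
  congr 1
  · rw [← (brE hab o).symm.sum_comp f, Fintype.sum_prod_type]
    rfl
  · rw [Fintype.card_congr (brE (k := k) (N := N) (Θ := Θ) (P := P) hab o), Fintype.card_prod]
    push_cast
    ring

/-- probability bounds for every value of the public randomness -/
theorem Pr_bri {a b : ι} (hab : a ≠ b) (o : Enu n a b) {A : GM.Sq k N ι Θ P → Prop} {x : ℝ}
    (hx : ∀ θ : Θ, (Pu k N n P).Pr (fun ω => A (ptS hab o θ ω)) ≤ x) :
    (GM.Pm : FP (GM.Sq k N ι Θ P)).Pr A ≤ x := by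
  unfold FP.Pr
  rw [E_bri hab o]
  exact FP.E_le_const _ fun θ _ => hx θ

end law

/-! ## windows and weights with the offset -/

/-- the mean over a window moved by the offset -/
theorem av_shift (e : ℕ) (y s : V k) (f : V k → ℝ) : av e y (fun z => f (z + s)) = av e (y + s) f := by
  unfold av
  congr 1
  refine Finset.sum_congr rfl fun m _ => ?_
  have h1 : y - (m : V k) + s = y + s - (m : V k) := by abel
  simp only [h1]

end

end Pool.Agent.GMC
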