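import Pool.Agent.M3.FPMart

/-!
# GMC/Pot: the potential lemma of C2.4 (pairs are cold, every m), abstract form (helper41)

`P` finite probability space, `F t` the filtration (index of the potential), `X t` the value at the SATURATED state of the
time `t`, `Y (t+1)` the value after the next bit with the old versions and the old classes, `be2 t` = square of the bias of
the bit, `d (t+1)` the loss by versions and removals, `ent (t+1)` an entry (of either vertex), `hot t` = some killing index
has been hot at a time `<= t`, `dr t` = times at which the potential is dropped (bias of a killing index > 1/2, or a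
continuing child of a killing index is hot), `act t` = not hot and `c < X t`.

* `pot` : the potential inequality;
* `pre_count` : mean number of the times with a hot continuing child `<= 4 (1 + E #entries)`;
* `bad_count` : mean number of the times with bias > 1/2 is `<= 4 sum E be^2`;
* `wtx`, `wt_le`, `ce_two` : sparse weights.
-/

set_option autoImplicit false
set_option linter.unusedSectionVars false

namespace Pool.Agent.GMC

open Finset Pool.Agent.PWZ Pool.Agent.M3

noncomputable section

variable {Om : Type*} [Fintype Om]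

/-- active: not killed and above the level `c` -/
def act (X : ℕ → Om → ℝ) (hot : ℕ → Om → Prop) (c : ℝ) (t : ℕ) (w : Om) : Prop := ¬ hot t w ∧ c < X t w

/-- the level `R` has been reached before a killing -/
def hit (X : ℕ → Om → ℝ) (hot : ℕ → Om → Prop) (R : ℝ) (t : ℕ) (w : Om) : Prop := ∃ s ≤ t, R ≤ X s w ∧ ¬ hot s w

/-- the potential -/
def psi (X : ℕ → Om → ℝ) (hot : ℕ → Om → Prop) (c : ℝ) (t : ℕ) (w : Om) : ℝ := ind (¬ hot t w) * max (X t w - c) 0

theorem psi_nonneg (X : ℕ → Om → ℝ) (hot : ℕ → Om → Prop) (c : ℝ) (t : ℕ) (w : Om) : 0 ≤ psi X hot c t w :=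
  mul_nonneg (ind_nonneg _) (le_max_right _ _)

theorem psi_act {X : ℕ → Om → ℝ} {hot : ℕ → Om → Prop} {c : ℝ} {t : ℕ} {w : Om} :
    psi X hot c t w = ind (act X hot c t w) * (X t w - c) := by
  unfold psi act
  by_cases h : hot t w
  · have h3 : ind (¬ hot t w ∧ c < X t w) = 0 := ind_not (fun h' => h'.1 h)
    rw [ind_not (not_not_intro h), h3]; ring
  · by_cases h2 : c < X t w
    · rw [ind_of h, ind_of ⟨h, h2⟩, max_eq_left (by linarith)]
    · have h3 : ind (¬ hot t w ∧ c < X t w) = 0 := ind_not (fun h' => h2 h'.2)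
      rw [h3, max_eq_right (by linarith)]; ring

theorem psi_le_act {X : ℕ → Om → ℝ} {hot : ℕ → Om → Prop} {c : ℝ} {t : ℕ} {w : Om} (hX : X t w ≤ 1) (hc : 0 ≤ c) :
    psi X hot c t w ≤ ind (act X hot c t w) := by
  rw [psi_act]
  have h := ind_nonneg (act X hot c t w)
  nlinarith

theorem hit_mono {X : ℕ → Om → ℝ} {hot : ℕ → Om → Prop} {R : ℝ} {t : ℕ} {w : Om} (h : hit X hot R t w) :
    hit X hot R (t + 1) w := by
  obtain ⟨s, hs, h1, h2⟩ := h
  exact ⟨s, by omega, h1, h2⟩

theorem hit_new {X : ℕ → Om → ℝ} {hot : ℕ → Om → Prop} {R : ℝ} {t : ℕ} {w : Om} (h : hit X hot R (t + 1) w)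
    (hn : ¬ hit X hot R t w) : R ≤ X (t + 1) w ∧ ¬ hot (t + 1) w := by
  obtain ⟨s, hs, h1, h2⟩ := h
  have hst : s = t + 1 := by
    by_contra hne
    exact hn ⟨s, by omega, h1, h2⟩
  subst hst
  exact ⟨h1, h2⟩

theorem le_psi {X : ℕ → Om → ℝ} {hot : ℕ → Om → Prop} {c R : ℝ} {t : ℕ} {w : Om} (h1 : R ≤ X t w) (h2 : ¬ hot t w) :
    R - c ≤ psi X hot c t w := by
  unfold psi
  rw [ind_of h2, one_mul]
  exact (by linarith : R - c ≤ X t w - c).trans (le_max_left _ _)

/-- THE POTENTIAL LEMMA -/
theorem pot (P : FP Om) {κ : Type*} (F : ℕ → Om → κ) (T : ℕ) (X Y d be2 : ℕ → Om → ℝ) (hot dr ent : ℕ → Om → Prop)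
    (q c R : ℝ) (hc : 0 ≤ c) (hq : 0 ≤ q)
    (hF : ∀ s t, s ≤ t → t ≤ T → Fac (F t) (F s))
    (hXF : ∀ t ≤ T, Fac (F t) (X t))
    (hhotF : ∀ t ≤ T, ∀ v w, F t v = F t w → (hot t v ↔ hot t w))
    (hdrF : ∀ t ≤ T, ∀ v w, F t v = F t w → (dr t v ↔ dr t w))
    (hX1 : ∀ t w, X t w ≤ 1) (hY1 : ∀ t w, Y t w ≤ 1) (hd : ∀ t w, 0 ≤ d t w) (hbe : ∀ t w, 0 ≤ be2 t w)
    (h1 : ∀ t < T, ∀ w, P.p w ≠ 0 → act X hot c t w → ¬ dr t w →
      X t w - q * be2 t w ≤ P.ce (F t) (Y (t + 1)) w)
    (h2 : ∀ t < T, ∀ w, P.p w ≠ 0 → act X hot c t w → ¬ dr t w → ¬ ent (t + 1) w →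
      ¬ hot (t + 1) w ∧ Y (t + 1) w - d (t + 1) w ≤ X (t + 1) w) :
    (R - c) * P.Pr (fun w => ∃ t ≤ T, R ≤ X t w ∧ ¬ hot t w) ≤
      P.Pr (fun w => act X hot c T w) +
        ∑ t ∈ range T, P.E (fun w => ind (act X hot c t w) *
          (q * be2 t w + d (t + 1) w + ind (ent (t + 1) w) + ind (dr t w))) := by
  set loss : ℕ → ℝ := fun t => P.E (fun w => ind (act X hot c t w) *
          (q * be2 t w + d (t + 1) w + ind (ent (t + 1) w) + ind (dr t w))) with hloss
  -- the hitting event is a function of the filtration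
  have hhitF : ∀ t ≤ T, ∀ v w, F t v = F t w → (hit X hot R t v ↔ hit X hot R t w) := by
    intro t ht v w hvw
    unfold hit
    refine exists_congr fun s => ?_
    constructor
    · rintro ⟨hs, ha, hb⟩
      have hs' : F s v = F s w := hF s t hs ht v w hvw
      exact ⟨hs, by rw [← hXF s (hs.trans ht) v w hs']; exact ha,
        fun h => hb ((hhotF s (hs.trans ht) v w hs').2 h)⟩
    · rintro ⟨hs, ha, hb⟩
      have hs' : F s v = F s w := hF s t hs ht v w hvw
      exact ⟨hs, by rw [hXF s (hs.trans ht) v w hs']; exact ha,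
        fun h => hb ((hhotF s (hs.trans ht) v w hs').1 h)⟩
  have hactF : ∀ t ≤ T, ∀ v w, F t v = F t w → (act X hot c t v ↔ act X hot c t w) := by
    intro t ht v w hvw
    unfold act
    rw [hXF t ht v w hvw, hhotF t ht v w hvw]
  -- one step
  have step : ∀ t < T, P.E (fun w => ind (hit X hot R t w) * psi X hot c t w) - loss t ≤
      P.E (fun w => ind (hit X hot R t w) * psi X hot c (t + 1) w) := by
    intro t ht
    set G : Om → ℝ := fun w => ind (hit X hot R t w ∧ act X hot c t w ∧ ¬ dr t w) with hG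
    have hGF : Fac (F t) G := Fac.ind (fun v w hvw => by
      rw [hhitF t ht.le v w hvw, hactF t ht.le v w hvw, hdrF t ht.le v w hvw])
    have hG0 : ∀ w, 0 ≤ G w := fun w => ind_nonneg _
    have hGact : ∀ w, G w ≤ ind (act X hot c t w) := fun w => ind_mono (fun h => h.2.1)
    have hG1 : ∀ w, G w = 0 ∨ (G w = 1 ∧ hit X hot R t w ∧ act X hot c t w ∧ ¬ dr t w) := by
      intro w
      by_cases h : hit X hot R t w ∧ act X hot c t w ∧ ¬ dr t w
      · exact Or.inr ⟨ind_of h, h⟩
      · exact Or.inl (ind_not h)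
    -- lower bound of the new value
    have e1 : P.E (fun w => G w * (Y (t + 1) w - c)) - P.E (fun w => G w * (d (t + 1) w + ind (ent (t + 1) w))) ≤
        P.E (fun w => ind (hit X hot R t w) * psi X hot c (t + 1) w) := by
      rw [← P.E_sub]
      refine P.E_mono (fun w hw => ?_)
      rcases hG1 w with h | ⟨hg, hh, ha, hdr⟩
      · rw [h]
        have := mul_nonneg (ind_nonneg (hit X hot R t w)) (psi_nonneg X hot c (t + 1) w)
        linarith
      · rw [hg, ind_of hh]
        have hdd := hd (t + 1) w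
        by_cases he : ent (t + 1) w
        · rw [ind_of he]
          have := psi_nonneg X hot c (t + 1) w
          have := hY1 (t + 1) w
          linarith
        · rw [ind_not he]
          obtain ⟨hnh, hle⟩ := h2 t ht w hw ha hdr he
          have := le_psi (c := c) hle hnh
          linarith
    have e2 : P.E (fun w => G w * (X t w - q * be2 t w - c)) ≤ P.E (fun w => G w * (Y (t + 1) w - c)) := by
      have ha : P.E (fun w => G w * (Y (t + 1) w - c)) = P.E (fun w => G w * (P.ce (F t) (Y (t + 1)) w)) -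
          P.E (fun w => G w * c) := by
        rw [P.E_mul_ce hGF, ← P.E_sub]
        refine P.E_congr (fun w _ => by ring)
      rw [ha, ← P.E_sub]
      refine P.E_mono (fun w hw => ?_)
      rcases hG1 w with h | ⟨hg, hh, ha', hdr⟩
      · rw [h]; simp
      · rw [hg]
        have := h1 t ht w hw ha' hdr
        linarith
    have e3 : P.E (fun w => ind (hit X hot R t w) * psi X hot c t w) ≤
        P.E (fun w => G w * (X t w - q * be2 t w - c)) + P.E (fun w => G w * (q * be2 t w)) +
          P.E (fun w => ind (act X hot c t w) * ind (dr t w)) := by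
      rw [← P.E_add, ← P.E_add]
      refine P.E_mono (fun w _ => ?_)
      rw [psi_act]
      by_cases hh : hit X hot R t w
      · by_cases ha : act X hot c t w
        · by_cases hdr : dr t w
          · have hg : G w = 0 := ind_not (fun h => h.2.2 hdr)
            rw [hg, ind_of hh, ind_of ha, ind_of hdr]
            have := hX1 t w
            linarith
          · have hg : G w = 1 := ind_of ⟨hh, ha, hdr⟩
            rw [hg, ind_of hh, ind_of ha, ind_not hdr]
            linarith
        · have hg : G w = 0 := ind_not (fun h => ha h.2.1)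
          rw [hg, ind_not ha]; simp
      · have hg : G w = 0 := ind_not (fun h => hh h.1)
        rw [hg, ind_not hh]
        have := mul_nonneg (ind_nonneg (act X hot c t w)) (ind_nonneg (dr t w))
        simp only [zero_mul, zero_add]
        exact this
    have e4 : P.E (fun w => G w * (q * be2 t w)) + P.E (fun w => ind (act X hot c t w) * ind (dr t w)) +
        P.E (fun w => G w * (d (t + 1) w + ind (ent (t + 1) w))) ≤ loss t := by
      rw [hloss, ← P.E_add, ← P.E_add]
      refine P.E_mono (fun w _ => ?_)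
      have hb := mul_nonneg hq (hbe t w)
      have hdd := hd (t + 1) w
      have hi := ind_nonneg (ent (t + 1) w)
      have ha := hGact w
      have h3 : G w * (q * be2 t w) ≤ ind (act X hot c t w) * (q * be2 t w) := mul_le_mul_of_nonneg_right ha hb
      have h4 : G w * (d (t + 1) w + ind (ent (t + 1) w)) ≤
          ind (act X hot c t w) * (d (t + 1) w + ind (ent (t + 1) w)) :=
        mul_le_mul_of_nonneg_right ha (by linarith)
      linarith
    linarith
  -- induction
  have key : ∀ t ≤ T, (R - c) * P.Pr (fun w => hit X hot R t w) ≤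
      P.E (fun w => ind (hit X hot R t w) * psi X hot c t w) + ∑ s ∈ range t, loss s := by
    intro t
    induction t with
    | zero =>
      intro _
      rw [Finset.sum_range_zero, add_zero]
      unfold FP.Pr
      rw [← P.E_smul]
      refine P.E_mono (fun w _ => ?_)
      by_cases hh : hit X hot R 0 w
      · obtain ⟨s, hs, ha, hb⟩ := hh
        have hs0 : s = 0 := by omega
        subst hs0
        rw [ind_of (show hit X hot R 0 w from ⟨0, le_refl _, ha, hb⟩), mul_one, one_mul]
        exact le_psi ha hb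
      · rw [ind_not hh]; simp
    | succ t ih =>
      intro ht
      have h3 := ih (by omega)
      have h4 := step t (by omega)
      rw [Finset.sum_range_succ]
      have h5 : (R - c) * P.Pr (fun w => hit X hot R (t + 1) w) - (R - c) * P.Pr (fun w => hit X hot R t w) ≤
          P.E (fun w => ind (hit X hot R (t + 1) w) * psi X hot c (t + 1) w) -
            P.E (fun w => ind (hit X hot R t w) * psi X hot c (t + 1) w) := by
        unfold FP.Pr
        rw [← P.E_smul, ← P.E_smul, ← P.E_sub, ← P.E_sub]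
        refine P.E_mono (fun w _ => ?_)
        by_cases hh : hit X hot R t w
        · rw [ind_of hh, ind_of (hit_mono hh)]; linarith
        · by_cases hh' : hit X hot R (t + 1) w
          · obtain ⟨ha, hb⟩ := hit_new hh' hh
            rw [ind_of hh', ind_not hh]
            have := le_psi (c := c) ha hb
            linarith
          · rw [ind_not hh, ind_not hh']; simp
      linarith
  have hfin := key T (le_refl _)
  have hlast : P.E (fun w => ind (hit X hot R T w) * psi X hot c T w) ≤ P.Pr (fun w => act X hot c T w) := by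
    unfold FP.Pr
    refine P.E_mono (fun w _ => ?_)
    have ha := psi_le_act (hot := hot) (t := T) (w := w) (hX1 T w) hc
    have hb := psi_nonneg X hot c T w
    have hi := ind_nonneg (hit X hot R T w)
    have hj := ind_le_one (hit X hot R T w)
    nlinarith
  have hE : (fun w => hit X hot R T w) = (fun w => ∃ t ≤ T, R ≤ X t w ∧ ¬ hot t w) := rfl
  rw [hE] at hfin
  linarith

/-- mean number of the times at which a continuing child is hot: `kil t` = the index has been hot at a time `<= t`,
`pre t` implies that the next state is killed or an entry with conditional probability `>= 1/4` -/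
theorem pre_count (P : FP Om) {κ : Type*} (I : ℕ → Om → κ) (T : ℕ) (kil pre ent : ℕ → Om → Prop)
    (hmono : ∀ t < T, ∀ w, kil t w → kil (t + 1) w)
    (hkF : ∀ t ≤ T, ∀ v w, I t v = I t w → (kil t v ↔ kil t w))
    (hpF : ∀ t ≤ T, ∀ v w, I t v = I t w → (pre t v ↔ pre t w))
    (h : ∀ t < T, ∀ w, P.p w ≠ 0 → ¬ kil t w → pre t w →
      1 / 4 ≤ P.ce (I t) (fun v => ind (kil (t + 1) v ∨ ent (t + 1) v)) w) :
    ∑ t ∈ range T, P.Pr (fun w => ¬ kil t w ∧ pre t w) ≤ 4 * (1 + ∑ t ∈ range T, P.Pr (fun w => ent (t + 1) w)) := by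
  have h1 : ∀ t < T, P.Pr (fun w => ¬ kil t w ∧ pre t w) ≤
      4 * (P.Pr (fun w => kil (t + 1) w) - P.Pr (fun w => kil t w) + P.Pr (fun w => ent (t + 1) w)) := by
    intro t ht
    set G : Om → ℝ := fun w => ind (¬ kil t w ∧ pre t w) with hG
    have hGF : Fac (I t) G := Fac.ind (fun v w hvw => by
      rw [hkF t ht.le v w hvw, hpF t ht.le v w hvw])
    have e1 : P.Pr (fun w => ¬ kil t w ∧ pre t w) ≤
        4 * P.E (fun w => G w * ind (kil (t + 1) w ∨ ent (t + 1) w)) := by
      rw [← P.E_mul_ce hGF, ← P.E_smul]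
      unfold FP.Pr
      refine P.E_mono (fun w hw => ?_)
      show G w ≤ _
      by_cases hh : ¬ kil t w ∧ pre t w
      · have hg : G w = 1 := ind_of hh
        rw [hg]
        have := h t ht w hw hh.1 hh.2
        linarith
      · have hg : G w = 0 := ind_not hh
        rw [hg]; simp
    have e2 : P.E (fun w => G w * ind (kil (t + 1) w ∨ ent (t + 1) w)) ≤
        P.Pr (fun w => kil (t + 1) w) - P.Pr (fun w => kil t w) + P.Pr (fun w => ent (t + 1) w) := by
      unfold FP.Pr
      rw [← P.E_sub, ← P.E_add]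
      refine P.E_mono (fun w _ => ?_)
      have hor := ind_or_le (kil (t + 1) w) (ent (t + 1) w)
      have hi := ind_nonneg (ent (t + 1) w)
      have hj := ind_nonneg (kil (t + 1) w)
      by_cases hk : kil t w
      · have hg : G w = 0 := ind_not (fun h => h.1 hk)
        rw [hg, ind_of hk, ind_of (hmono t ht w hk)]
        linarith
      · rw [ind_not hk]
        have hg0 : 0 ≤ G w := ind_nonneg _
        have hg1 : G w ≤ 1 := ind_le_one _
        have h5 := ind_nonneg (kil (t + 1) w ∨ ent (t + 1) w)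
        have h6 : G w * ind (kil (t + 1) w ∨ ent (t + 1) w) ≤ 1 * ind (kil (t + 1) w ∨ ent (t + 1) w) :=
          mul_le_mul_of_nonneg_right hg1 h5
        linarith
    linarith
  have h2 : ∑ t ∈ range T, P.Pr (fun w => ¬ kil t w ∧ pre t w) ≤
      ∑ t ∈ range T, 4 * (P.Pr (fun w => kil (t + 1) w) - P.Pr (fun w => kil t w) + P.Pr (fun w => ent (t + 1) w)) :=
    Finset.sum_le_sum (fun t ht => h1 t (Finset.mem_range.mp ht))
  have h3 : ∑ t ∈ range T, (P.Pr (fun w => kil (t + 1) w) - P.Pr (fun w => kil t w)) =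
      P.Pr (fun w => kil T w) - P.Pr (fun w => kil 0 w) :=
    Finset.sum_range_sub (fun t => P.Pr (fun w => kil t w)) T
  rw [← Finset.mul_sum, Finset.sum_add_distrib, h3] at h2
  have h4 := P.Pr_le_one (fun w => kil T w)
  have h5 := P.Pr_nonneg (fun w => kil 0 w)
  linarith

/-- mean number of the times with a large bias -/
theorem bad_count (P : FP Om) (T : ℕ) (be : ℕ → Om → ℝ) :
    ∑ t ∈ range T, P.Pr (fun w => 1 / 2 < |be t w|) ≤ 4 * ∑ t ∈ range T, P.E (fun w => be t w ^ 2) := by
  rw [Finset.mul_sum]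
  refine Finset.sum_le_sum (fun t _ => ?_)
  rw [← P.E_smul]
  unfold FP.Pr
  refine P.E_mono (fun w _ => ?_)
  by_cases h : 1 / 2 < |be t w|
  · rw [ind_of h]
    have h1 : (1 / 2 : ℝ) ^ 2 ≤ |be t w| ^ 2 := by gcongr
    rw [sq_abs] at h1
    linarith
  · rw [ind_not h]
    have := sq_nonneg (be t w)
    linarith

/-- sparse weights: `f` is a function of `G`, the event `s` has conditional probability `≤ x` given `G` -/
theorem wtx (P : FP Om) {ι : Type*} {G : Om → ι} {f : Om → ℝ} (hf : Fac G f) (hf0 : ∀ w, 0 ≤ f w) {s : Om → Prop} {x : ℝ}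
    (hs : ∀ w, P.p w ≠ 0 → 0 < f w → P.ce G (fun v => ind (s v)) w ≤ x) :
    P.E (fun w => f w * ind (s w)) ≤ x * P.E f := by
  rw [← P.E_mul_ce hf, ← P.E_smul]
  refine P.E_mono (fun w hw => ?_)
  rcases (hf0 w).lt_or_eq with h | h
  · have := mul_le_mul_of_nonneg_left (hs w hw h) (hf0 w)
    linarith
  · rw [← h]; simp

/-- sparse weights for a function which is only bounded by a function of `G` -/
theorem wt_le (P : FP Om) {ι : Type*} {G : Om → ι} {f g : Om → ℝ} (hf : Fac G f) (hf0 : ∀ w, 0 ≤ f w) {s : Om → Prop}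
    {x : ℝ} (hg : ∀ w, P.p w ≠ 0 → s w → g w ≤ f w)
    (hs : ∀ w, P.p w ≠ 0 → 0 < f w → P.ce G (fun v => ind (s v)) w ≤ x) :
    P.E (fun w => ind (s w) * g w) ≤ x * P.E f := by
  refine le_trans (P.E_mono (g := fun w => f w * ind (s w)) (fun w hw => ?_)) (wtx P hf hf0 hs)
  by_cases h : s w
  · rw [ind_of h, one_mul, mul_one]; exact hg w hw h
  · rw [ind_not h]; simp

/-- one more fair bit multiplies a conditional probability by at most two -/
theorem ce_two (P : FP Om) {ι ι' : Type*} {G : Om → ι} {G' : Om → ι'} (hGG : Fac G' G) {f : Om → ℝ}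
    (hf : ∀ w, P.p w ≠ 0 → 0 ≤ f w) {w : Om} (hw : P.p w ≠ 0) (hm : P.m G w ≤ 2 * P.m G' w) :
    P.ce G' f w ≤ 2 * P.ce G f w := by
  have hpos : 0 < P.m G' w := P.m_pos G' hw
  have hpos' : 0 < P.m G w := P.m_pos G hw
  unfold FP.ce
  have h1 : P.E (fun v => ind (G' v = G' w) * f v) ≤ P.E (fun v => ind (G v = G w) * f v) := by
    refine P.E_mono (fun v hv => ?_)
    exact mul_le_mul_of_nonneg_right (ind_mono (fun h => hGG v w h)) (hf v hv)
  have h0 : 0 ≤ P.E (fun v => ind (G v = G w) * f v) :=
    P.E_nonneg (fun v hv => mul_nonneg (ind_nonneg _) (hf v hv))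
  calc P.E (fun v => ind (G' v = G' w) * f v) / P.m G' w ≤ P.E (fun v => ind (G v = G w) * f v) / P.m G' w := by
        gcongr
    _ ≤ P.E (fun v => ind (G v = G w) * f v) / (P.m G w / 2) := by
        gcongr
        linarith
    _ = 2 * (P.E (fun v => ind (G v = G w) * f v) / P.m G w) := by
        field_simp

end

end Pool.Agent.GMC
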