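import Pool.Agent.GM99.Kern
import Pool.Agent.GMC.Pot

/-!
# GMC/Bit: one bit, versions and removals for the values `X^(i,j)` of the pairs system (helper67)

`X`, `Z` finite, `w i` weights of the small cells, `u` weights of the window, classes `S`, `T` are Finsets (a point =
a singleton).

* `kap_le_one`, `kap_ver` : `|kap f - kap g| ≤ 2^n pm w 1[f x ≠ g x]` (versions);
* `kA` : value of a pair of classes, `kA_nonneg`, `kA_le_one`;
* `kA_bit`, `kA_win`, `kA_bit'`, `kA_win'` : one bit with bias `be`;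
* `avs` : average over a class, `vloss` : version loss, `kA_ver`, `kA_rem`, `kA_loss` : versions and removals;
* `ce_bit`, `psd_ce`, `psd_triv` : the step in terms of conditional expectations.
-/

set_option autoImplicit false
set_option linter.unusedSectionVars false

namespace Pool.Agent.GMC

open Finset Pool.Agent.PWZ Pool.Agent.M3 Pool.Agent.GM99

noncomputable section

/-! ## means -/

section kern

variable {X Z : Type*} [Fintype X] [Fintype Z] {n : ℕ}

theorem pm_nonneg (w : Fin n → X → ℝ) (hw : ∀ i x, 0 ≤ w i x) {f : (Fin n → X) → ℝ} (h : ∀ x, 0 ≤ f x) :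
    0 ≤ pm w f :=
  Finset.sum_nonneg fun x _ => mul_nonneg (Finset.prod_nonneg fun i _ => hw i _) (h x)

theorem pm_sub (w : Fin n → X → ℝ) (f g : (Fin n → X) → ℝ) : pm w (fun x => f x - g x) = pm w f - pm w g := by
  unfold pm
  rw [← Finset.sum_sub_distrib]
  exact Finset.sum_congr rfl fun x _ => by ring

theorem abs_pm_le (w : Fin n → X → ℝ) (hw : ∀ i x, 0 ≤ w i x) (f : (Fin n → X) → ℝ) : |pm w f| ≤ pm w fun x => |f x| := by
  unfold pm
  refine (Finset.abs_sum_le_sum_abs _ _).trans (Finset.sum_le_sum fun x _ => ?_)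
  rw [abs_mul, abs_of_nonneg (Finset.prod_nonneg fun i _ => hw i _)]

/-- a mixed point of two independent points has the law of a point -/
theorem pm_mixp (w : Fin n → X → ℝ) (hs : ∀ i, ∑ x, w i x = 1) (e : Fin n → Bool) (g : (Fin n → X) → ℝ) :
    (pm w fun x => pm w fun y => g (mixp x y e)) = pm w g := by
  induction n with
  | zero =>
    simp only [pm, Finset.univ_unique, Finset.univ_eq_empty, Finset.prod_empty, one_mul, Finset.sum_singleton]
    refine congrArg g ?_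
    funext i
    exact i.elim0
  | succ n ih =>
    rw [pm_succ, pm_succ]
    have h1 : ∀ a : X, (pm (fun i : Fin n => w i.succ) fun x => pm w fun y => g (mixp (Fin.cons a x) y e)) =
        ∑ b : X, w 0 b * pm (fun i : Fin n => w i.succ) fun x =>
          g (Fin.cons (if e 0 then b else a) x) := by
      intro a
      have h2 : ∀ x : Fin n → X, (pm w fun y => g (mixp (Fin.cons a x) y e)) =
          ∑ b : X, w 0 b * pm (fun i : Fin n => w i.succ) fun y =>
            g (Fin.cons (if e 0 then b else a) (mixp x y fun i => e i.succ)) := by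
        intro x
        rw [pm_succ]
        refine Finset.sum_congr rfl fun b _ => ?_
        congr 1
        refine pm_congr _ fun y => congrArg g ?_
        funext i
        refine Fin.cases ?_ (fun i => ?_) i
        · simp [mixp]
        · simp [mixp]
      rw [pm_congr _ h2, pm_sum]
      refine Finset.sum_congr rfl fun b _ => ?_
      rw [pm_mul_left, ih (fun i : Fin n => w i.succ) (fun i => hs _) (fun i => e i.succ)
        (fun x => g (Fin.cons (if e 0 then b else a) x))]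
    rw [Finset.sum_congr rfl fun a _ => by rw [h1 a]]
    by_cases he : e 0 = true
    · simp only [he, if_true]
      rw [← Finset.sum_mul, hs, one_mul]
    · simp only [he, Bool.false_eq_true, if_false]
      refine Finset.sum_congr rfl fun a _ => ?_
      rw [← Finset.sum_mul, hs, one_mul]

theorem kap_le_one (w : Fin n → X → ℝ) (hw : ∀ i x, 0 ≤ w i x) (hs : ∀ i, ∑ x, w i x = 1) (u : Z → ℝ)
    (hu : ∀ z, 0 ≤ u z) (hu1 : ∑ z, u z = 1) (q : ℕ) (f : (Fin n → X) → Z → ℝ) (hf : ∀ x z, |f x z| ≤ 1) :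
    kap w u q f ≤ 1 := by
  have h1 : kap w u q f ≤ pm w fun _ => pm w fun _ => (1 : ℝ) := by
    unfold kap
    refine pm_mono _ hw fun x => pm_mono _ hw fun y => ?_
    rw [← (even_two_mul q).pow_abs]
    refine pow_le_one₀ (abs_nonneg _) ?_
    refine (Finset.abs_sum_le_sum_abs _ _).trans ?_
    rw [← hu1]
    refine Finset.sum_le_sum fun z _ => ?_
    rw [abs_mul, abs_of_nonneg (hu z), Finset.abs_prod]
    exact mul_le_of_le_one_right (hu z) (Finset.prod_le_one (fun _ _ => abs_nonneg _) fun e _ => hf _ _)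
  refine h1.trans (le_of_eq ?_)
  rw [pm_congr w fun _ => pm_const w hs 1, pm_const w hs]

/-- VERSIONS: the kernels of two functions differ at most by `2^n` times the mass of the points at which the functions
are different -/
theorem kap_ver (w : Fin n → X → ℝ) (hw : ∀ i x, 0 ≤ w i x) (hs : ∀ i, ∑ x, w i x = 1) (u : Z → ℝ)
    (hu : ∀ z, 0 ≤ u z) (hu1 : ∑ z, u z = 1) (q : ℕ) (f g : (Fin n → X) → Z → ℝ) (hf : ∀ x z, |f x z| ≤ 1)
    (hg : ∀ x z, |g x z| ≤ 1) :
    |kap w u q f - kap w u q g| ≤ 2 ^ n * pm w fun x => ind (f x ≠ g x) := by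
  have hY : ∀ (h : (Fin n → X) → Z → ℝ), (∀ x z, |h x z| ≤ 1) → ∀ x y : Fin n → X,
      |∑ z, u z * ∏ e : Fin n → Bool, h (mixp x y e) z| ≤ 1 := by
    intro h hh x y
    refine (Finset.abs_sum_le_sum_abs _ _).trans ?_
    rw [← hu1]
    refine Finset.sum_le_sum fun z _ => ?_
    rw [abs_mul, abs_of_nonneg (hu z), Finset.abs_prod]
    exact mul_le_of_le_one_right (hu z) (Finset.prod_le_one (fun _ _ => abs_nonneg _) fun e _ => hh _ _)
  have hP : ∀ (h : (Fin n → X) → Z → ℝ), (∀ x z, |h x z| ≤ 1) → ∀ x y : Fin n → X,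
      0 ≤ (∑ z, u z * ∏ e : Fin n → Bool, h (mixp x y e) z) ^ (2 * q) ∧
        (∑ z, u z * ∏ e : Fin n → Bool, h (mixp x y e) z) ^ (2 * q) ≤ 1 := by
    intro h hh x y
    refine ⟨(even_two_mul q).pow_nonneg _, ?_⟩
    rw [← (even_two_mul q).pow_abs]
    exact pow_le_one₀ (abs_nonneg _) (hY h hh x y)
  have hpt : ∀ x y : Fin n → X, |(∑ z, u z * ∏ e : Fin n → Bool, f (mixp x y e) z) ^ (2 * q) -
      (∑ z, u z * ∏ e : Fin n → Bool, g (mixp x y e) z) ^ (2 * q)| ≤
        ∑ e : Fin n → Bool, ind (f (mixp x y e) ≠ g (mixp x y e)) := by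
    intro x y
    by_cases h : ∀ e : Fin n → Bool, f (mixp x y e) = g (mixp x y e)
    · have h1 : (∑ z, u z * ∏ e : Fin n → Bool, f (mixp x y e) z) =
          ∑ z, u z * ∏ e : Fin n → Bool, g (mixp x y e) z := by
        refine Finset.sum_congr rfl fun z _ => ?_
        congr 1
        exact Finset.prod_congr rfl fun e _ => by rw [h e]
      rw [h1, sub_self, abs_zero]
      exact Finset.sum_nonneg fun e _ => ind_nonneg _
    · push Not at h
      obtain ⟨e, he⟩ := h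
      have h1 : (1 : ℝ) ≤ ∑ e : Fin n → Bool, ind (f (mixp x y e) ≠ g (mixp x y e)) := by
        rw [← ind_of he]
        exact Finset.single_le_sum (f := fun e : Fin n → Bool => ind (f (mixp x y e) ≠ g (mixp x y e)))
          (fun e _ => ind_nonneg _) (Finset.mem_univ e)
      refine le_trans ?_ h1
      obtain ⟨a1, a2⟩ := hP f hf x y
      obtain ⟨b1, b2⟩ := hP g hg x y
      rw [abs_le]
      constructor <;> linarith
  have h1 : |kap w u q f - kap w u q g| ≤
      pm w fun x => pm w fun y => ∑ e : Fin n → Bool, ind (f (mixp x y e) ≠ g (mixp x y e)) := by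
    unfold kap
    rw [← pm_sub]
    refine (abs_pm_le w hw _).trans (pm_mono _ hw fun x => ?_)
    rw [← pm_sub]
    exact (abs_pm_le w hw _).trans (pm_mono _ hw fun y => hpt x y)
  refine h1.trans (le_of_eq ?_)
  have h2 : (pm w fun x => pm w fun y => ∑ e : Fin n → Bool, ind (f (mixp x y e) ≠ g (mixp x y e))) =
      ∑ e : Fin n → Bool, pm w fun x => pm w fun y => ind (f (mixp x y e) ≠ g (mixp x y e)) := by
    rw [← pm_sum]
    exact pm_congr w fun x => pm_sum _ w _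
  rw [h2, Finset.sum_congr rfl fun e _ => pm_mixp w hs e (fun x => ind (f x ≠ g x)), Finset.sum_const,
    Finset.card_univ, nsmul_eq_mul]
  simp

/-- one bit of one coordinate, additive form -/
theorem kap_bit' (w : Fin n → X → ℝ) (hw : ∀ i x, 0 ≤ w i x) (hs : ∀ i, ∑ x, w i x = 1) (p : Fin n) (w1 w2 : X → ℝ)
    (h12 : ∀ x, w p x = (w1 x + w2 x) / 2) (be : ℝ) (u : Z → ℝ) (hu : ∀ z, 0 ≤ u z) (hu1 : ∑ z, u z = 1) {q : ℕ}
    (hq : 1 ≤ q) (f : (Fin n → X) → Z → ℝ) (hf : ∀ x z, |f x z| ≤ 1) :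
    kap w u q f - q * be ^ 2 ≤ (1 + be) / 2 * kap (Function.update w p w1) u q f +
      (1 - be) / 2 * kap (Function.update w p w2) u q f := by
  refine le_trans ?_ (kap_bit w hw p w1 w2 h12 be u hu q f)
  have h1 := kap_le_one w hw hs u hu hu1 q f hf
  have h2 := kap_nonneg w hw u q f
  have h3 : (1 : ℝ) ≤ q := by exact_mod_cast hq
  nlinarith [sq_nonneg be, mul_nonneg (sq_nonneg be) (sub_nonneg.2 h1), mul_nonneg (sq_nonneg be) (sub_nonneg.2 h3)]

/-- the bit of the window, additive form -/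
theorem kap_win' (w : Fin n → X → ℝ) (hw : ∀ i x, 0 ≤ w i x) (hs : ∀ i, ∑ x, w i x = 1) (u u1 u2 : Z → ℝ)
    (h12 : ∀ z, u z = (u1 z + u2 z) / 2) (hu : ∀ z, 0 ≤ u z) (hu1 : ∑ z, u z = 1) (be : ℝ) (hbe : |be| ≤ 1) (q : ℕ)
    (f : (Fin n → X) → Z → ℝ) (hf : ∀ x z, |f x z| ≤ 1) :
    kap w u q f - q * be ^ 2 ≤ (1 + be) / 2 * kap w u1 q f + (1 - be) / 2 * kap w u2 q f := by
  refine le_trans ?_ (kap_win w hw u u1 u2 h12 be hbe q f)
  have h1 := kap_le_one w hw hs u hu hu1 q f hf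
  have h2 := kap_nonneg w hw u q f
  have h3 : be ^ 2 ≤ 1 := by rw [← sq_abs]; exact pow_le_one₀ (abs_nonneg _) hbe
  have h4 : 1 + (q : ℝ) * (-be ^ 2) ≤ (1 + -be ^ 2) ^ q := one_add_mul_le_pow (by linarith) q
  have h5 : (1 - be ^ 2) ^ q = (1 + -be ^ 2) ^ q := by ring
  rw [h5]
  have h6 : (1 + (q : ℝ) * (-be ^ 2)) * kap w u q f ≤ (1 + -be ^ 2) ^ q * kap w u q f :=
    mul_le_mul_of_nonneg_right h4 h2
  have h7 : 0 ≤ (q : ℝ) * be ^ 2 * (1 - kap w u q f) :=
    mul_nonneg (mul_nonneg (Nat.cast_nonneg _) (sq_nonneg _)) (by linarith)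
  nlinarith

end kern

/-! ## averages over classes -/

section avg

variable {A : Type*}

/-- average over a class -/
def avs (S : Finset A) (g : A → ℝ) : ℝ := (S.card : ℝ)⁻¹ * ∑ a ∈ S, g a

theorem avs_mono {S : Finset A} {g h : A → ℝ} (hgh : ∀ a ∈ S, g a ≤ h a) : avs S g ≤ avs S h :=
  mul_le_mul_of_nonneg_left (Finset.sum_le_sum hgh) (inv_nonneg.2 (Nat.cast_nonneg _))

theorem avs_nonneg {S : Finset A} {g : A → ℝ} (h : ∀ a ∈ S, 0 ≤ g a) : 0 ≤ avs S g :=
  mul_nonneg (inv_nonneg.2 (Nat.cast_nonneg _)) (Finset.sum_nonneg h)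

theorem avs_const {S : Finset A} (hS : S.Nonempty) (c : ℝ) : avs S (fun _ => c) = c := by
  unfold avs
  have h : (S.card : ℝ) ≠ 0 := by exact_mod_cast hS.card_pos.ne'
  rw [Finset.sum_const, nsmul_eq_mul]
  field_simp

theorem avs_le_const {S : Finset A} {g : A → ℝ} {c : ℝ} (hc : 0 ≤ c) (h : ∀ a ∈ S, g a ≤ c) : avs S g ≤ c := by
  rcases S.eq_empty_or_nonempty with h0 | h0
  · unfold avs
    rw [h0]
    simpa using hc
  · exact (avs_mono h).trans_eq (avs_const h0 c)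

theorem avs_add (S : Finset A) (g h : A → ℝ) : avs S (fun a => g a + h a) = avs S g + avs S h := by
  unfold avs
  rw [Finset.sum_add_distrib, mul_add]

theorem avs_sub (S : Finset A) (g h : A → ℝ) : avs S (fun a => g a - h a) = avs S g - avs S h := by
  unfold avs
  rw [Finset.sum_sub_distrib, mul_sub]

theorem avs_smul (S : Finset A) (c : ℝ) (g : A → ℝ) : avs S (fun a => c * g a) = c * avs S g := by
  unfold avs
  rw [← Finset.mul_sum]
  ring

theorem avs_singleton (a : A) (g : A → ℝ) : avs {a} g = g a := by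
  unfold avs
  simp

theorem avs_congr {S : Finset A} {g h : A → ℝ} (hgh : ∀ a ∈ S, g a = h a) : avs S g = avs S h := by
  unfold avs
  rw [Finset.sum_congr rfl hgh]

theorem avs_comm {B : Type*} (S : Finset A) (T : Finset B) (g : A → B → ℝ) :
    avs S (fun a => avs T (fun b => g a b)) = avs T (fun b => avs S (fun a => g a b)) := by
  unfold avs
  simp only [Finset.mul_sum]
  rw [Finset.sum_comm]
  refine Finset.sum_congr rfl fun b _ => Finset.sum_congr rfl fun a _ => ?_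
  ring

theorem abs_avs_le (S : Finset A) (g : A → ℝ) : |avs S g| ≤ avs S fun a => |g a| := by
  unfold avs
  rw [abs_mul, abs_of_nonneg (inv_nonneg.2 (Nat.cast_nonneg S.card : (0 : ℝ) ≤ S.card))]
  exact mul_le_mul_of_nonneg_left (Finset.abs_sum_le_sum_abs _ _) (inv_nonneg.2 (Nat.cast_nonneg _))

/-- relative removal -/
def rmv (S S' : Finset A) : ℝ := 1 - (S'.card : ℝ) / S.card

theorem rmv_nonneg {S S' : Finset A} (h : S' ⊆ S) : 0 ≤ rmv S S' := by
  unfold rmv
  have h1 : (S'.card : ℝ) / S.card ≤ 1 :=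
    div_le_one_of_le₀ (by exact_mod_cast Finset.card_le_card h) (Nat.cast_nonneg _)
  linarith

/-- a smaller class: the average falls at most by the relative removal -/
theorem avs_rem {S S' : Finset A} (h : S' ⊆ S) (h0 : S'.Nonempty) {g : A → ℝ} (hg : ∀ a ∈ S, 0 ≤ g a)
    (hg1 : ∀ a ∈ S, g a ≤ 1) : avs S g ≤ avs S' g + rmv S S' := by
  classical
  have hS' : (0 : ℝ) < S'.card := by exact_mod_cast h0.card_pos
  have hS : (0 : ℝ) < S.card := by exact_mod_cast (h0.mono h).card_pos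
  have hc : ((S \ S').card : ℝ) = S.card - S'.card := by
    rw [Finset.card_sdiff_of_subset h, Nat.cast_sub (Finset.card_le_card h)]
  have h1 : ∑ a ∈ S, g a = ∑ a ∈ S \ S', g a + ∑ a ∈ S', g a := (Finset.sum_sdiff h).symm
  have h2 : ∑ a ∈ S \ S', g a ≤ S.card - S'.card := by
    rw [← hc]
    have := Finset.sum_le_sum (s := S \ S') (f := g) (g := fun _ => (1 : ℝ))
      (fun a ha => hg1 a (Finset.mem_sdiff.1 ha).1)
    simpa using this
  have h3 : 0 ≤ ∑ a ∈ S', g a := Finset.sum_nonneg fun a ha => hg a (h ha)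
  have h4 : (S'.card : ℝ) ≤ S.card := by exact_mod_cast Finset.card_le_card h
  have h5 : (S.card : ℝ)⁻¹ * ∑ a ∈ S', g a ≤ (S'.card : ℝ)⁻¹ * ∑ a ∈ S', g a :=
    mul_le_mul_of_nonneg_right (inv_anti₀ hS' h4) h3
  have h6 : (S.card : ℝ)⁻¹ * ∑ a ∈ S \ S', g a ≤ (S.card : ℝ)⁻¹ * (S.card - S'.card) :=
    mul_le_mul_of_nonneg_left h2 (inv_nonneg.2 hS.le)
  have h7 : (S.card : ℝ)⁻¹ * (S.card - S'.card) = 1 - (S'.card : ℝ) / S.card := by
    field_simp
  unfold avs rmv
  rw [h1, mul_add]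
  linarith

end avg

/-! ## values of pairs of classes -/

section kA

variable {X Z A B : Type*} [Fintype X] [Fintype Z] {n : ℕ}

/-- VALUE OF A PAIR OF CLASSES -/
def kA (w : Fin n → X → ℝ) (u : Z → ℝ) (q : ℕ) (F : A → (Fin n → X) → Z → ℝ) (G : B → (Fin n → X) → Z → ℝ)
    (S : Finset A) (T : Finset B) : ℝ :=
  avs S fun a => avs T fun b => kap w u q fun x z => F a x z * G b x z

/-- version loss of a class -/
def vloss (w : Fin n → X → ℝ) (F F' : A → (Fin n → X) → Z → ℝ) (S : Finset A) : ℝ :=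
  avs S fun a => 2 ^ n * pm w fun x => ind (F a x ≠ F' a x)

theorem kA_single (w : Fin n → X → ℝ) (u : Z → ℝ) (q : ℕ) (F : A → (Fin n → X) → Z → ℝ)
    (G : B → (Fin n → X) → Z → ℝ) (a : A) (b : B) :
    kA w u q F G {a} {b} = kap w u q fun x z => F a x z * G b x z := by
  unfold kA
  rw [avs_singleton, avs_singleton]

theorem kA_nonneg (w : Fin n → X → ℝ) (hw : ∀ i x, 0 ≤ w i x) (u : Z → ℝ) (q : ℕ)
    (F : A → (Fin n → X) → Z → ℝ) (G : B → (Fin n → X) → Z → ℝ) (S : Finset A) (T : Finset B) :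
    0 ≤ kA w u q F G S T :=
  avs_nonneg fun _ _ => avs_nonneg fun _ _ => kap_nonneg w hw u q _

theorem abs_mul_le_one' {x y : ℝ} (hx : |x| ≤ 1) (hy : |y| ≤ 1) : |x * y| ≤ 1 := by
  rw [abs_mul]
  exact mul_le_one₀ hx (abs_nonneg _) hy

theorem kA_le_one (w : Fin n → X → ℝ) (hw : ∀ i x, 0 ≤ w i x) (hs : ∀ i, ∑ x, w i x = 1) (u : Z → ℝ)
    (hu : ∀ z, 0 ≤ u z) (hu1 : ∑ z, u z = 1) (q : ℕ) (F : A → (Fin n → X) → Z → ℝ) (G : B → (Fin n → X) → Z → ℝ)
    (hF : ∀ a x z, |F a x z| ≤ 1) (hG : ∀ b x z, |G b x z| ≤ 1) (S : Finset A) (T : Finset B) :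
    kA w u q F G S T ≤ 1 :=
  avs_le_const zero_le_one fun _ _ => avs_le_const zero_le_one fun _ _ =>
    kap_le_one w hw hs u hu hu1 q _ fun _ _ => abs_mul_le_one' (hF _ _ _) (hG _ _ _)

/-- a function of `kap` which is bounded below by a linear combination of kernels: the same for the averages -/
theorem kA_lin {w w1 w2 : Fin n → X → ℝ} {u u1 u2 : Z → ℝ} {q : ℕ} {F : A → (Fin n → X) → Z → ℝ}
    {G : B → (Fin n → X) → Z → ℝ} {S : Finset A} {T : Finset B} {d c1 c2 : ℝ} (hd : 0 ≤ d)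
    (h : ∀ a ∈ S, ∀ b ∈ T, kap w u q (fun x z => F a x z * G b x z) - d ≤
      c1 * kap w1 u1 q (fun x z => F a x z * G b x z) + c2 * kap w2 u2 q (fun x z => F a x z * G b x z)) :
    kA w u q F G S T - d ≤ c1 * kA w1 u1 q F G S T + c2 * kA w2 u2 q F G S T := by
  have h1 : kA w u q F G S T ≤ avs S fun a => avs T fun b =>
      ((c1 * kap w1 u1 q (fun x z => F a x z * G b x z) + c2 * kap w2 u2 q (fun x z => F a x z * G b x z)) + d) :=
    avs_mono fun a ha => avs_mono fun b hb => by have := h a ha b hb; linarith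
  have h2 : (avs S fun a => avs T fun b =>
      ((c1 * kap w1 u1 q (fun x z => F a x z * G b x z) + c2 * kap w2 u2 q (fun x z => F a x z * G b x z)) + d)) =
      c1 * kA w1 u1 q F G S T + c2 * kA w2 u2 q F G S T + avs S fun _ => avs T fun _ => d := by
    unfold kA
    rw [← avs_smul, ← avs_smul, ← avs_add, ← avs_add]
    refine avs_congr fun a _ => ?_
    rw [← avs_smul, ← avs_smul, ← avs_add, ← avs_add]
  have h3 : (avs S fun _ => avs T fun _ => d) ≤ d :=
    avs_le_const hd fun _ _ => avs_le_const hd fun _ _ => le_rfl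
  linarith

/-- ONE BIT of one coordinate, value of a pair of classes -/
theorem kA_bit (w : Fin n → X → ℝ) (hw : ∀ i x, 0 ≤ w i x) (hs : ∀ i, ∑ x, w i x = 1) (p : Fin n) (w1 w2 : X → ℝ)
    (h12 : ∀ x, w p x = (w1 x + w2 x) / 2) (be : ℝ) (u : Z → ℝ) (hu : ∀ z, 0 ≤ u z) (hu1 : ∑ z, u z = 1) {q : ℕ}
    (hq : 1 ≤ q) (F : A → (Fin n → X) → Z → ℝ) (G : B → (Fin n → X) → Z → ℝ)
    (hF : ∀ a x z, |F a x z| ≤ 1) (hG : ∀ b x z, |G b x z| ≤ 1) (S : Finset A) (T : Finset B) :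
    kA w u q F G S T - q * be ^ 2 ≤ (1 + be) / 2 * kA (Function.update w p w1) u q F G S T +
      (1 - be) / 2 * kA (Function.update w p w2) u q F G S T :=
  kA_lin (mul_nonneg (Nat.cast_nonneg _) (sq_nonneg _)) fun _ _ _ _ =>
    kap_bit' w hw hs p w1 w2 h12 be u hu hu1 hq _ fun _ _ => abs_mul_le_one' (hF _ _ _) (hG _ _ _)

/-- THE BIT OF THE WINDOW, value of a pair of classes -/
theorem kA_win (w : Fin n → X → ℝ) (hw : ∀ i x, 0 ≤ w i x) (hs : ∀ i, ∑ x, w i x = 1) (u u1 u2 : Z → ℝ)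
    (h12 : ∀ z, u z = (u1 z + u2 z) / 2) (hu : ∀ z, 0 ≤ u z) (hu1 : ∑ z, u z = 1) (be : ℝ) (hbe : |be| ≤ 1) (q : ℕ)
    (F : A → (Fin n → X) → Z → ℝ) (G : B → (Fin n → X) → Z → ℝ)
    (hF : ∀ a x z, |F a x z| ≤ 1) (hG : ∀ b x z, |G b x z| ≤ 1) (S : Finset A) (T : Finset B) :
    kA w u q F G S T - q * be ^ 2 ≤ (1 + be) / 2 * kA w u1 q F G S T + (1 - be) / 2 * kA w u2 q F G S T :=
  kA_lin (mul_nonneg (Nat.cast_nonneg _) (sq_nonneg _)) fun _ _ _ _ =>
    kap_win' w hw hs u u1 u2 h12 hu hu1 be hbe q _ fun _ _ => abs_mul_le_one' (hF _ _ _) (hG _ _ _)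

theorem vloss_nonneg (w : Fin n → X → ℝ) (hw : ∀ i x, 0 ≤ w i x) (F F' : A → (Fin n → X) → Z → ℝ) (S : Finset A) :
    0 ≤ vloss w F F' S :=
  avs_nonneg fun _ _ => mul_nonneg (by positivity) (pm_nonneg w hw fun _ => ind_nonneg _)

/-- VERSIONS, value of a pair of classes -/
theorem kA_ver (w : Fin n → X → ℝ) (hw : ∀ i x, 0 ≤ w i x) (hs : ∀ i, ∑ x, w i x = 1) (u : Z → ℝ)
    (hu : ∀ z, 0 ≤ u z) (hu1 : ∑ z, u z = 1) (q : ℕ) (F F' : A → (Fin n → X) → Z → ℝ)
    (G G' : B → (Fin n → X) → Z → ℝ) (hF : ∀ a x z, |F a x z| ≤ 1) (hG : ∀ b x z, |G b x z| ≤ 1)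
    (hF' : ∀ a x z, |F' a x z| ≤ 1) (hG' : ∀ b x z, |G' b x z| ≤ 1) (S : Finset A) (T : Finset B) :
    |kA w u q F G S T - kA w u q F' G' S T| ≤ vloss w F F' S + vloss w G G' T := by
  have h0 : ∀ a b, |kap w u q (fun x z => F a x z * G b x z) - kap w u q (fun x z => F' a x z * G' b x z)| ≤
      2 ^ n * (pm w fun x => ind (F a x ≠ F' a x)) + 2 ^ n * (pm w fun x => ind (G b x ≠ G' b x)) := by
    intro a b
    refine (kap_ver w hw hs u hu hu1 q _ _ (fun _ _ => abs_mul_le_one' (hF _ _ _) (hG _ _ _))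
      (fun _ _ => abs_mul_le_one' (hF' _ _ _) (hG' _ _ _))).trans ?_
    rw [← mul_add, ← pm_add]
    refine mul_le_mul_of_nonneg_left (pm_mono w hw fun x => ?_) (by positivity)
    refine (ind_mono fun h => ?_).trans (ind_or_le _ _)
    by_contra hc
    push Not at hc
    exact h (by rw [hc.1, hc.2])
  have h1 : |kA w u q F G S T - kA w u q F' G' S T| ≤ avs S fun a => avs T fun b =>
      (2 ^ n * (pm w fun x => ind (F a x ≠ F' a x)) + 2 ^ n * (pm w fun x => ind (G b x ≠ G' b x))) := by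
    unfold kA
    rw [← avs_sub]
    refine (abs_avs_le _ _).trans (avs_mono fun a _ => ?_)
    rw [← avs_sub]
    exact (abs_avs_le _ _).trans (avs_mono fun b _ => h0 a b)
  refine h1.trans ?_
  have h2 : (avs S fun a => avs T fun b =>
      (2 ^ n * (pm w fun x => ind (F a x ≠ F' a x)) + 2 ^ n * (pm w fun x => ind (G b x ≠ G' b x)))) =
      (avs S fun a => avs T fun _ => 2 ^ n * (pm w fun x => ind (F a x ≠ F' a x))) +
        avs S fun _ => avs T fun b => 2 ^ n * (pm w fun x => ind (G b x ≠ G' b x)) := by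
    rw [← avs_add]
    exact avs_congr fun a _ => avs_add _ _ _
  rw [h2]
  refine add_le_add ?_ ?_
  · refine avs_mono fun a _ => ?_
    exact avs_le_const (mul_nonneg (by positivity) (pm_nonneg w hw fun _ => ind_nonneg _)) fun _ _ => le_rfl
  · exact avs_le_const (vloss_nonneg w hw G G' T) fun _ _ => le_rfl

/-- REMOVALS, value of a pair of classes -/
theorem kA_rem (w : Fin n → X → ℝ) (hw : ∀ i x, 0 ≤ w i x) (hs : ∀ i, ∑ x, w i x = 1) (u : Z → ℝ)
    (hu : ∀ z, 0 ≤ u z) (hu1 : ∑ z, u z = 1) (q : ℕ) (F : A → (Fin n → X) → Z → ℝ) (G : B → (Fin n → X) → Z → ℝ)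
    (hF : ∀ a x z, |F a x z| ≤ 1) (hG : ∀ b x z, |G b x z| ≤ 1) {S S' : Finset A} {T T' : Finset B}
    (hS : S' ⊆ S) (hS0 : S'.Nonempty) (hT : T' ⊆ T) (hT0 : T'.Nonempty) :
    kA w u q F G S T ≤ kA w u q F G S' T' + (rmv S S' + rmv T T') := by
  have hk0 : ∀ a b, 0 ≤ kap w u q (fun x z => F a x z * G b x z) := fun a b => kap_nonneg w hw u q _
  have hk1 : ∀ a b, kap w u q (fun x z => F a x z * G b x z) ≤ 1 := fun a b =>
    kap_le_one w hw hs u hu hu1 q _ fun _ _ => abs_mul_le_one' (hF _ _ _) (hG _ _ _)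
  have h1 : kA w u q F G S T ≤ kA w u q F G S' T + rmv S S' :=
    avs_rem hS hS0 (fun a _ => avs_nonneg fun b _ => hk0 a b)
      (fun a _ => avs_le_const zero_le_one fun b _ => hk1 a b)
  have h2 : kA w u q F G S' T ≤ kA w u q F G S' T' + rmv T T' := by
    unfold kA
    rw [avs_comm, avs_comm (S := S') (T := T')]
    exact avs_rem hT hT0 (fun b _ => avs_nonneg fun a _ => hk0 a b)
      (fun b _ => avs_le_const zero_le_one fun a _ => hk1 a b)
  linarith

/-- LOSS OF A STEP: old versions and old classes against new versions and smaller classes -/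
theorem kA_loss (w : Fin n → X → ℝ) (hw : ∀ i x, 0 ≤ w i x) (hs : ∀ i, ∑ x, w i x = 1) (u : Z → ℝ)
    (hu : ∀ z, 0 ≤ u z) (hu1 : ∑ z, u z = 1) (q : ℕ) (F F' : A → (Fin n → X) → Z → ℝ)
    (G G' : B → (Fin n → X) → Z → ℝ) (hF : ∀ a x z, |F a x z| ≤ 1) (hG : ∀ b x z, |G b x z| ≤ 1)
    (hF' : ∀ a x z, |F' a x z| ≤ 1) (hG' : ∀ b x z, |G' b x z| ≤ 1) {S S' : Finset A} {T T' : Finset B}
    (hS : S' ⊆ S) (hS0 : S'.Nonempty) (hT : T' ⊆ T) (hT0 : T'.Nonempty) :
    kA w u q F G S T - ((vloss w F F' S + rmv S S') + (vloss w G G' T + rmv T T')) ≤ kA w u q F' G' S' T' := by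
  have h1 := kA_ver w hw hs u hu hu1 q F F' G G' hF hG hF' hG' S T
  have h2 := kA_rem w hw hs u hu hu1 q F' G' hF' hG' hS hS0 hT hT0
  have h3 := (abs_le.1 h1).2
  linarith

end kA

/-! ## the step in terms of conditional expectations -/

section ce

variable {Om : Type*} [Fintype Om] (P : FP Om) {κ : Type*}

/-- the conditional expectation depends on the values on the fibre only -/
theorem ce_eq_fib {I : Om → κ} {f g : Om → ℝ} {w : Om} (h : ∀ v, P.p v ≠ 0 → I v = I w → f v = g v) :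
    P.ce I f w = P.ce I g w := by
  unfold FP.ce
  congr 1
  refine P.E_congr fun v hv => ?_
  by_cases hI : I v = I w
  · rw [h v hv hI]
  · rw [ind_not hI, zero_mul, zero_mul]

theorem ce_le_fib {I : Om → κ} {f g : Om → ℝ} {w : Om} (h : ∀ v, P.p v ≠ 0 → I v = I w → f v ≤ g v) :
    P.ce I f w ≤ P.ce I g w := by
  unfold FP.ce
  refine div_le_div_of_nonneg_right (P.E_mono fun v hv => ?_) (P.m_nonneg I w)
  by_cases hI : I v = I w
  · rw [ind_of hI, one_mul, one_mul]; exact h v hv hI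
  · rw [ind_not hI, zero_mul, zero_mul]

/-- a conditional mean with two values -/
theorem ce_bit {I : Om → κ} {D Y : Om → ℝ} {w : Om} (hw : P.p w ≠ 0) {y1 y2 : ℝ}
    (hD : ∀ v, P.p v ≠ 0 → I v = I w → (D v = 1 ∧ Y v = y1) ∨ (D v = -1 ∧ Y v = y2)) :
    P.ce I Y w = (1 + P.ce I D w) / 2 * y1 + (1 - P.ce I D w) / 2 * y2 := by
  have h1 : P.ce I Y w = P.ce I (fun v => (y1 + y2) / 2 + (y1 - y2) / 2 * D v) w := by
    refine ce_eq_fib P fun v hv0 hv => ?_
    rcases hD v hv0 hv with ⟨h1, h2⟩ | ⟨h1, h2⟩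
    · rw [h1, h2]; ring
    · rw [h1, h2]; ring
  rw [h1, FP.ce_add, FP.ce_const _ _ _ hw, FP.ce_smul]
  ring

theorem abs_ce_le_one {I : Om → κ} {D : Om → ℝ} {w : Om} (hw : P.p w ≠ 0)
    (hD : ∀ v, P.p v ≠ 0 → I v = I w → |D v| ≤ 1) : |P.ce I D w| ≤ 1 := by
  refine (FP.abs_ce_le _ I D w).trans ?_
  rw [← P.ce_const I 1 hw]
  exact ce_le_fib P fun v hv0 hv => hD v hv0 hv

/-- ONE BIT: `x` = value before, `y1`, `y2` = values after -/
theorem psd_ce {I : Om → κ} {D Y : Om → ℝ} {w : Om} (hw : P.p w ≠ 0) {x q y1 y2 : ℝ}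
    (hD : ∀ v, P.p v ≠ 0 → I v = I w → (D v = 1 ∧ Y v = y1) ∨ (D v = -1 ∧ Y v = y2))
    (h : ∀ be : ℝ, |be| ≤ 1 → x - q * be ^ 2 ≤ (1 + be) / 2 * y1 + (1 - be) / 2 * y2) :
    x - q * P.ce I D w ^ 2 ≤ P.ce I Y w := by
  rw [ce_bit P hw hD]
  refine h _ (abs_ce_le_one P hw fun v hv0 hv => ?_)
  rcases hD v hv0 hv with ⟨h1, _⟩ | ⟨h1, _⟩ <;> rw [h1] <;> norm_num

/-- a step without a bit -/
theorem psd_triv {I : Om → κ} {D Y : Om → ℝ} {w : Om} (hw : P.p w ≠ 0) {x q : ℝ} (hq : 0 ≤ q)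
    (hY : ∀ v, P.p v ≠ 0 → I v = I w → Y v = x) :
    x - q * P.ce I D w ^ 2 ≤ P.ce I Y w := by
  rw [ce_eq_fib P (g := fun _ => x) hY, P.ce_const _ _ hw]
  have := mul_nonneg hq (sq_nonneg (P.ce I D w))
  linarith

end ce

end

end Pool.Agent.GMC
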