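import Pool.Agent.GMC.Mod3
import Pool.Agent.GMC.Bit
import Pool.Agent.GM99.Split

/-!
# GMC/Wgt: means at a node, law of the others, one micro step of the values `kA` (helper28)

* `pm_wU` : mean over the completions; `ce_ao`, `E_ao`, `ce_bo`, `E_bo` : law of the others given (node, one vertex);
* `kap_step`, `kA_step` : ONE MICRO STEP with bias `be`, in both forms of `st`; `kA_stepT` : along the linear sequence
  (trivial steps included); `parT_chT`.
-/

set_option autoImplicit false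
set_option linter.unusedSectionVars false

namespace Pool.Agent.GMC

open Finset Pool.Agent.PWZ Pool.Agent.M3 Pool.Agent.M3.Bin Pool.Agent.M3.Mod Pool.Agent.GM99

noncomputable section

variable {k N n : ℕ} {P : Type} [Fintype P] [Nonempty P]

/-- mean over the completions -/
theorem pm_wU {c : Cfg n} (hs : ∀ i, c.2 i ≤ k) (ν : Nd k n) (g : (Fin n → P × V k) → ℝ) :
    pm (wU c ν) g = ((fib P c.2 ν.2).card : ℝ)⁻¹ * ∑ o ∈ fib P c.2 ν.2, g o := by
  classical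
  have h1 : ∀ x : Fin n → P × V k, ∏ i, wU c ν i (x i) =
      if x ∈ fib P c.2 ν.2 then ((fib P c.2 ν.2).card : ℝ)⁻¹ else 0 := by
    intro x
    by_cases hx : x ∈ fib P c.2 ν.2
    · rw [if_pos hx]
      have h2 := (mem_fib (P := P) c.2 ν.2 x).1 hx
      have h3 : ∀ i, wU c ν i (x i) = ((Fintype.card P : ℝ) * 2 ^ c.2 i)⁻¹ := fun i => by
        unfold wU
        rw [if_pos (h2 i)]
      rw [Finset.prod_congr rfl fun i _ => h3 i, Finset.prod_inv_distrib, card_fib hs]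
      push_cast
      rfl
    · rw [if_neg hx]
      rw [mem_fib] at hx
      push Not at hx
      obtain ⟨i, hi⟩ := hx
      refine Finset.prod_eq_zero (Finset.mem_univ i) ?_
      unfold wU
      rw [if_neg hi]
  unfold pm
  rw [Finset.mul_sum, ← Finset.sum_subset (Finset.subset_univ (fib P c.2 ν.2))]
  · refine Finset.sum_congr rfl fun x hx => ?_
    rw [h1, if_pos hx]
  · intro x _ hx
    rw [h1, if_neg hx, zero_mul]

/-! ## one micro step -/

/-- ONE MICRO STEP, any bias -/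
theorem kA_step {A B : Type*} {st : Option (Fin n)} {c : Cfg n} (hok : Ok k N st c) (hN : N ≤ k)
    (hc : (up st c).1 ≤ N) (hs : ∀ i, (up st c).2 i ≤ k) {ν : Nd k n}
    (hν : Val N (up st c).1 (up st c).2 ν) {be : ℝ} (hbe : |be| ≤ 1) {q : ℕ} (hq : 1 ≤ q)
    (F : A → (Fin n → P × V k) → V k → ℝ) (G : B → (Fin n → P × V k) → V k → ℝ)
    (hF : ∀ a x z, |F a x z| ≤ 1) (hG : ∀ b x z, |G b x z| ≤ 1) (S : Finset A) (T : Finset B) :
    kA (wU (up st c) ν) (uW (up st c) ν) q F G S T - q * be ^ 2 ≤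
      (1 + be) / 2 * kA (wU c (chd st c 0 ν)) (uW c (chd st c 0 ν)) q F G S T +
      (1 - be) / 2 * kA (wU c (chd st c 1 ν)) (uW c (chd st c 1 ν)) q F G S T := by
  have hw : ∀ i (x : P × V k), 0 ≤ wU (up st c) ν i x := fun i x => wU_nonneg _ _ i x
  have hw1 : ∀ i, ∑ x : P × V k, wU (up st c) ν i x = 1 := fun i => wU_sum hs ν i
  have hu : ∀ z, 0 ≤ uW (up st c) ν z := fun z => uW_nonneg _ _ z
  have hu1 : ∑ z, uW (up st c) ν z = 1 := uW_sum (hc.trans hN) ν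
  cases st with
  | none =>
    have hok' : c.1 + 1 ≤ N := hok
    exact kA_win (wU (up none c) ν) hw hw1 (uW (up none c) ν)
      (uW c (chd none c 0 ν)) (uW c (chd none c 1 ν)) (uW_half (by omega) ν) hu hu1 be hbe q F G hF hG S T
  | some i =>
    have hok' : c.2 i + 1 ≤ k := hok
    have hν' : flr (c.2 i + 1) (ν.2 i) = ν.2 i := by
      have := hν.2 i
      unfold up at this
      simpa using this
    have h := kA_bit (wU (up (some i) c) ν) hw hw1 i
      (wU c (chd (some i) c 0 ν) i) (wU c (chd (some i) c 1 ν) i) (wU_half hok' hν') be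
      (uW (up (some i) c) ν) hu hu1 hq F G hF hG S T
    rw [← wU_upd, ← wU_upd] at h
    exact h

/-- the parent of a child, realised nodes, along the linear sequence -/
theorem parT_chT {h τ b : ℕ} (hb : b < 2) (hN : N ≤ k) (hτ : τ < (n + 1) * N) (ω : S2 k N n P) :
    parT N h n τ (chT N h n τ b (Nc (cf N h n τ) ω)) = Nc (cf N h n τ) ω := by
  unfold parT chT
  by_cases h0 : cf N h n (τ + 1) = cf N h n τ
  · rw [if_pos h0, if_pos h0]
  · rw [if_neg h0, if_neg h0]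
    have h2 := cf_step' hN hτ h0
    refine prt_chd h2.2 ?_ hb
    rw [h2.1]
    exact val_Nn (cf_fst_le _ _ _) _ ω

/-- ONE STEP OF THE LINEAR SEQUENCE, any bias -/
theorem kA_stepT {A B : Type*} {h τ : ℕ} (hN : N ≤ k) (hτ : τ < (n + 1) * N) (ω : S2 k N n P)
    {be : ℝ} (hbe : |be| ≤ 1) {q : ℕ} (hq : 1 ≤ q)
    (F : A → (Fin n → P × V k) → V k → ℝ) (G : B → (Fin n → P × V k) → V k → ℝ)
    (hF : ∀ a x z, |F a x z| ≤ 1) (hG : ∀ b x z, |G b x z| ≤ 1) (S : Finset A) (T : Finset B) :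
    kA (wU (cf N h n τ) (Nc (cf N h n τ) ω)) (uW (cf N h n τ) (Nc (cf N h n τ) ω)) q F G S T - q * be ^ 2 ≤
      (1 + be) / 2 * kA (wU (cf N h n (τ + 1)) (chT N h n τ 0 (Nc (cf N h n τ) ω)))
        (uW (cf N h n (τ + 1)) (chT N h n τ 0 (Nc (cf N h n τ) ω))) q F G S T +
      (1 - be) / 2 * kA (wU (cf N h n (τ + 1)) (chT N h n τ 1 (Nc (cf N h n τ) ω)))
        (uW (cf N h n (τ + 1)) (chT N h n τ 1 (Nc (cf N h n τ) ω))) q F G S T := by
  unfold chT
  by_cases h0 : cf N h n (τ + 1) = cf N h n τ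
  · rw [if_pos h0, if_pos h0, h0]
    have : 0 ≤ (q : ℝ) * be ^ 2 := by positivity
    linarith
  · rw [if_neg h0, if_neg h0]
    have h2 := cf_step' hN hτ h0
    have h3 := kA_step (P := P) h2.2 hN (by rw [h2.1]; exact cf_fst_le _ _ _)
      (fun i => by rw [h2.1]; exact (cf_snd_le _ _ _ _).trans hN) (ν := Nc (cf N h n τ) ω)
      (by rw [h2.1]; exact val_Nn (cf_fst_le _ _ _) _ ω) hbe hq F G hF hG S T
    rw [h2.1] at h3
    exact h3

/-! ## the law of the other vertices given the node and one vertex -/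

omit [Nonempty P] in
theorem sum_cond_ao {c : Cfg n} {ν : Nd k n} (hν : ∀ i, flr (c.2 i) (ν.2 i) = ν.2 i) (a : P × V k)
    (g : (Fin n → P × V k) → ℝ) :
    ∑ ω : S2 k N n P, ind ((Nc c ω, va ω) = (ν, a)) * g (vo ω) =
      ((Fintype.card P : ℝ) * ∑ z : V k, ∑ w : Fin (2 ^ N), ind (nd c.1 z w.val = ν.1)) * ∑ o ∈ fib P c.2 ν.2, g o := by
  classical
  have h1 : ∑ ω : S2 k N n P, ind ((Nc c ω, va ω) = (ν, a)) * g (vo ω) =
      ∑ q : (P × V k) × (P × V k × (Fin n → P × V k) × Fin (2 ^ N)),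
        (ind (q.1 = a) * (ind (nd c.1 q.2.2.1 q.2.2.2.2.val = ν.1) * (ind (q.2.2.2.1 ∈ fib P c.2 ν.2) * g q.2.2.2.1))) := by
    refine Fintype.sum_equiv eqA _ _ fun ω => ?_
    have h2 : ind ((Nc c ω, va ω) = (ν, a)) =
        ind (va ω = a) * (ind (nd c.1 (ct ω) (nw ω) = ν.1) * ind (vo ω ∈ fib P c.2 ν.2)) := by
      rw [← ind_and, ← ind_and]
      refine congrArg ind (propext ?_)
      rw [mem_fib, Prod.mk.injEq]
      unfold Nc Nn
      rw [Prod.ext_iff]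
      simp only [hν]
      constructor
      · rintro ⟨⟨h3, h4⟩, h5⟩
        exact ⟨h5, h3, fun i => congrFun h4 i⟩
      · rintro ⟨h5, h3, h4⟩
        exact ⟨⟨h3, funext h4⟩, h5⟩
    rw [h2]
    show _ = ind (va ω = a) * (ind (nd c.1 (ct ω) (nw ω) = ν.1) * (ind (vo ω ∈ fib P c.2 ν.2) * g (vo ω)))
    ring
  rw [h1, Fintype.sum_prod_type]
  rw [Finset.sum_eq_single a]
  · rw [Fintype.sum_prod_type]
    have h3 : ∀ p : P, ∑ y : V k × (Fin n → P × V k) × Fin (2 ^ N), ind ((a : P × V k) = a) *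
        (ind (nd c.1 y.1 y.2.2.val = ν.1) * (ind (y.2.1 ∈ fib P c.2 ν.2) * g y.2.1)) =
        (∑ z : V k, ∑ w : Fin (2 ^ N), ind (nd c.1 z w.val = ν.1)) * ∑ o ∈ fib P c.2 ν.2, g o := by
      intro p
      rw [Fintype.sum_prod_type, Finset.sum_mul]
      refine Finset.sum_congr rfl fun z _ => ?_
      rw [Fintype.sum_prod_type, Finset.sum_comm, Finset.sum_mul]
      refine Finset.sum_congr rfl fun w _ => ?_
      rw [Finset.mul_sum, ← Finset.sum_subset (Finset.subset_univ (fib P c.2 ν.2))]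
      · refine Finset.sum_congr rfl fun o ho => ?_
        rw [ind_of rfl, ind_of ho]
        ring
      · intro o _ ho
        rw [ind_not ho]
        ring
    rw [Finset.sum_congr rfl fun p _ => h3 p, Finset.sum_const, Finset.card_univ, nsmul_eq_mul, mul_assoc]
  · intro a' _ ha'
    refine Finset.sum_eq_zero fun y _ => ?_
    simp only
    rw [ind_not ha', zero_mul]
  · intro h
    exact absurd (Finset.mem_univ _) h

/-- exchange of the two vertices -/
def swAB : S2 k N n P ≃ S2 k N n P where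
  toFun ω := ((ω.1.2.1, ω.1.1, ω.1.2.2), ω.2)
  invFun ω := ((ω.1.2.1, ω.1.1, ω.1.2.2), ω.2)
  left_inv _ := rfl
  right_inv _ := rfl

omit [Fintype P] [Nonempty P] in
theorem va_sw (ω : S2 k N n P) : va (swAB ω) = vb ω := rfl

omit [Fintype P] [Nonempty P] in
theorem vb_sw (ω : S2 k N n P) : vb (swAB ω) = va ω := rfl

omit [Fintype P] [Nonempty P] in
theorem vo_sw (ω : S2 k N n P) : vo (swAB ω) = vo ω := rfl

omit [Fintype P] [Nonempty P] in
theorem ct_sw (ω : S2 k N n P) : ct (swAB ω) = ct ω := by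
  unfold ct
  rw [va_sw, vb_sw, vo_sw, add_comm (vb ω).2]

omit [Fintype P] [Nonempty P] in
theorem Nc_sw (c : Cfg n) (ω : S2 k N n P) : Nc c (swAB ω) = Nc c ω := by
  unfold Nc Nn
  rw [ct_sw, vo_sw]
  rfl

/-- the law is invariant under the exchange -/
theorem E_sw (f : S2 k N n P → ℝ) : (Pu k N n P).E (fun ω => f (swAB ω)) = (Pu k N n P).E f := by
  unfold Pu
  rw [FP.unif_E, FP.unif_E]
  congr 1
  exact Equiv.sum_comp swAB f

omit [Nonempty P] in
theorem sum_cond_bo {c : Cfg n} {ν : Nd k n} (hν : ∀ i, flr (c.2 i) (ν.2 i) = ν.2 i) (b : P × V k)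
    (g : (Fin n → P × V k) → ℝ) :
    ∑ ω : S2 k N n P, ind ((Nc c ω, vb ω) = (ν, b)) * g (vo ω) =
      ((Fintype.card P : ℝ) * ∑ z : V k, ∑ w : Fin (2 ^ N), ind (nd c.1 z w.val = ν.1)) * ∑ o ∈ fib P c.2 ν.2, g o := by
  rw [← sum_cond_ao hν b g, ← Equiv.sum_comp swAB]
  refine Finset.sum_congr rfl fun ω _ => ?_
  rw [Nc_sw, vb_sw, vo_sw]

theorem noise_pos (c : Cfg n) (ω0 : S2 k N n P) :
    (0 : ℝ) < ∑ z : V k, ∑ w : Fin (2 ^ N), ind (nd c.1 z w.val = (Nc c ω0).1) := by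
  have h3 : ind (nd c.1 (ct ω0) ω0.2.val = (Nc c ω0).1) ≤
      ∑ z : V k, ∑ w : Fin (2 ^ N), ind (nd c.1 z w.val = (Nc c ω0).1) := by
    refine le_trans ?_ (Finset.single_le_sum (f := fun z : V k => ∑ w : Fin (2 ^ N), ind (nd c.1 z w.val = (Nc c ω0).1))
      (fun z _ => Finset.sum_nonneg fun w _ => ind_nonneg _) (Finset.mem_univ (ct ω0)))
    exact Finset.single_le_sum (f := fun w : Fin (2 ^ N) => ind (nd c.1 (ct ω0) w.val = (Nc c ω0).1))
      (fun w _ => ind_nonneg _) (Finset.mem_univ ω0.2)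
  rw [ind_of (show nd c.1 (ct ω0) ω0.2.val = (Nc c ω0).1 from rfl)] at h3
  linarith

/-- LAW OF THE OTHERS given (node, `a`): uniform in their cells -/
theorem ce_ao {c : Cfg n} (hs : ∀ i, c.2 i ≤ k) (g : Nd k n → P × V k → (Fin n → P × V k) → ℝ) (ω0 : S2 k N n P) :
    (Pu k N n P).ce (fun ω => (Nc c ω, va ω)) (fun ω => g (Nc c ω) (va ω) (vo ω)) ω0 =
      pm (wU c (Nc c ω0)) (g (Nc c ω0) (va ω0)) := by
  have hν : ∀ i, flr (c.2 i) ((Nc c ω0).2 i) = (Nc c ω0).2 i := fun i => flr_flr le_rfl _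
  rw [ce_sum, pm_wU hs]
  have h1 : ∑ ω : S2 k N n P, ind ((Nc c ω, va ω) = (Nc c ω0, va ω0)) * g (Nc c ω) (va ω) (vo ω) =
      ∑ ω : S2 k N n P, ind ((Nc c ω, va ω) = (Nc c ω0, va ω0)) * g (Nc c ω0) (va ω0) (vo ω) := by
    refine Finset.sum_congr rfl fun ω _ => ?_
    by_cases h : (Nc c ω, va ω) = (Nc c ω0, va ω0)
    · rw [Prod.mk.injEq] at h
      rw [h.1, h.2]
    · rw [ind_not h, zero_mul, zero_mul]
  have h2 : ∑ ω : S2 k N n P, ind ((Nc c ω, va ω) = (Nc c ω0, va ω0)) =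
      ∑ ω : S2 k N n P, ind ((Nc c ω, va ω) = (Nc c ω0, va ω0)) * (fun _ => (1 : ℝ)) (vo ω) :=
    Finset.sum_congr rfl fun ω _ => (mul_one _).symm
  rw [h1, h2, sum_cond_ao hν (va ω0) (g (Nc c ω0) (va ω0)), sum_cond_ao hν (va ω0) (fun _ => (1 : ℝ)), Finset.sum_const,
    nsmul_eq_mul, mul_one]
  have hpos := noise_pos c ω0
  have hP : (0 : ℝ) < Fintype.card P := by exact_mod_cast Fintype.card_pos
  rw [mul_div_mul_left _ _ (mul_pos hP hpos).ne', div_eq_inv_mul]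

/-- LAW OF THE OTHERS given (node, `b`): uniform in their cells -/
theorem ce_bo {c : Cfg n} (hs : ∀ i, c.2 i ≤ k) (g : Nd k n → P × V k → (Fin n → P × V k) → ℝ) (ω0 : S2 k N n P) :
    (Pu k N n P).ce (fun ω => (Nc c ω, vb ω)) (fun ω => g (Nc c ω) (vb ω) (vo ω)) ω0 =
      pm (wU c (Nc c ω0)) (g (Nc c ω0) (vb ω0)) := by
  have hν : ∀ i, flr (c.2 i) ((Nc c ω0).2 i) = (Nc c ω0).2 i := fun i => flr_flr le_rfl _
  rw [ce_sum, pm_wU hs]
  have h1 : ∑ ω : S2 k N n P, ind ((Nc c ω, vb ω) = (Nc c ω0, vb ω0)) * g (Nc c ω) (vb ω) (vo ω) =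
      ∑ ω : S2 k N n P, ind ((Nc c ω, vb ω) = (Nc c ω0, vb ω0)) * g (Nc c ω0) (vb ω0) (vo ω) := by
    refine Finset.sum_congr rfl fun ω _ => ?_
    by_cases h : (Nc c ω, vb ω) = (Nc c ω0, vb ω0)
    · rw [Prod.mk.injEq] at h
      rw [h.1, h.2]
    · rw [ind_not h, zero_mul, zero_mul]
  have h2 : ∑ ω : S2 k N n P, ind ((Nc c ω, vb ω) = (Nc c ω0, vb ω0)) =
      ∑ ω : S2 k N n P, ind ((Nc c ω, vb ω) = (Nc c ω0, vb ω0)) * (fun _ => (1 : ℝ)) (vo ω) :=
    Finset.sum_congr rfl fun ω _ => (mul_one _).symm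
  rw [h1, h2, sum_cond_bo hν (vb ω0) (g (Nc c ω0) (vb ω0)), sum_cond_bo hν (vb ω0) (fun _ => (1 : ℝ)), Finset.sum_const,
    nsmul_eq_mul, mul_one]
  have hpos := noise_pos c ω0
  have hP : (0 : ℝ) < Fintype.card P := by exact_mod_cast Fintype.card_pos
  rw [mul_div_mul_left _ _ (mul_pos hP hpos).ne', div_eq_inv_mul]

/-- law of (node, `a`, others) -/
theorem E_ao {c : Cfg n} (hs : ∀ i, c.2 i ≤ k) (g : Nd k n → P × V k → (Fin n → P × V k) → ℝ) :
    (Pu k N n P).E (fun ω => pm (wU c (Nc c ω)) (g (Nc c ω) (va ω))) =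
      (Pu k N n P).E (fun ω => g (Nc c ω) (va ω) (vo ω)) := by
  rw [← (Pu k N n P).E_ce (fun ω => (Nc c ω, va ω)) (fun ω => g (Nc c ω) (va ω) (vo ω))]
  exact (Pu k N n P).E_congr fun ω _ => (ce_ao hs g ω).symm

/-- law of (node, `b`, others) -/
theorem E_bo {c : Cfg n} (hs : ∀ i, c.2 i ≤ k) (g : Nd k n → P × V k → (Fin n → P × V k) → ℝ) :
    (Pu k N n P).E (fun ω => pm (wU c (Nc c ω)) (g (Nc c ω) (vb ω))) =
      (Pu k N n P).E (fun ω => g (Nc c ω) (vb ω) (vo ω)) := by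
  rw [← (Pu k N n P).E_ce (fun ω => (Nc c ω, vb ω)) (fun ω => g (Nc c ω) (vb ω) (vo ω))]
  exact (Pu k N n P).E_congr fun ω _ => (ce_bo hs g ω).symm

end

end Pool.Agent.GMC
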