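import Pool.Agent.GMC.Inst
import Pool.Agent.GMC.Bri
import Pool.Agent.GMC.Wgt
import Pool.Agent.GM.Transfer2
import Pool.Agent.M3.Cold
import Pool.Agent.M3.Maj

/-!
# GMC/Node: export (G) of C2 (C2.1 GCS, C2.6): fraction of the others in a node which is not hot (helper99)

The faces may carry a coin of weights `v : Ξ → ℝ` (`Unit`: no coin); `f` = product of the faces of `a` and `b`, `H i` coin
free, misses the vertex `i`.
* `gfrac` : AT A NODE: kernel `≤ ρ ≤ (s^(2q) δ)^(2^n)` implies: fraction of (others, coin) with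
  `s ≤ |av (f ∏ H_i)|` at most `δ`;
* `block` : the same when the node is a function `Yf` of the others, all points with the same rounding `rd`;
* `ce_Zs`, `node_form` : class of everything but the others, of which only the cells are known: `P(B, not Hot | class) ≤ (Q+1) δ`;
* `ce_Ns`, `nat_form` : NATURAL VIEW of the hidden vertex `h0` (path of `h0`, cells of the others): `≤ 2 (Q+1) δ`;
* `nat_all` : for all times, Doob.
`Q + 1` bounds the number of rounded nodes in the class.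
-/

set_option autoImplicit false
set_option linter.unusedSectionVars false

namespace Pool.Agent.GMC

open Finset Pool.Agent.PWZ Pool.Agent.M3 Pool.Agent.M3.Bin Pool.Agent.M3.Mod
open Pool.Agent.GM99 (pm kapc pm_mono pm_const pm_sum pm_mul_left pm_congr)

noncomputable section

variable {k N n : ℕ} {P Ξ : Type} [Fintype P] [Nonempty P] [Fintype Ξ]

/-- AT A NODE: the fraction of (others, coin) -/
theorem gfrac {c : Cfg n} (he : c.1 ≤ k) (hs : ∀ i, c.2 i ≤ k) {v : Ξ → ℝ} (hv : ∀ ξ, 0 ≤ v ξ) {q : ℕ} (ν : Nd k n)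
    {f : (Fin n → P × V k) → Ξ → V k → ℝ} {H : Fin n → (Fin n → P × V k) → V k → ℝ} (hH : ∀ i x z, |H i x z| ≤ 1)
    (hI : ∀ i x y, (∀ j, j ≠ i → x j = y j) → ∀ z, H i x z = H i y z) {s ρ δ : ℝ} (hs0 : 0 < s) (hδ0 : 0 ≤ δ)
    (hK : kapc (wU c ν) v (uW c ν) q f ≤ ρ) (hδ : ρ ≤ (s ^ (2 * q) * δ) ^ (2 ^ n)) :
    pm (wU c ν) (fun x => ∑ ξ, v ξ * ind (s ≤ |av c.1 ν.1.1 (fun z => f x ξ z * ∏ i, H i x z)|)) ≤ δ := by
  classical
  have hm := GM99.gcs_markovc (wU c ν) (wU_nonneg c ν) (wU_sum hs ν) v hv (uW c ν) (uW_nonneg c ν) (uW_sum he ν) q f H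
    hH hI s hs0.le
  have h2 := (hm.trans hK).trans hδ
  have hs2 : 0 < s ^ (2 * q) := pow_pos hs0 _
  have h4 := le_of_pow_le_pow_left₀ (pow_ne_zero n two_ne_zero) (mul_nonneg hs2.le hδ0) h2
  have h5 := le_of_mul_le_mul_left h4 hs2
  refine le_trans (le_of_eq ?_) h5
  refine pm_congr _ fun x => Finset.sum_congr rfl fun ξ _ => ?_
  rw [av_uW he ν (fun z => f x ξ z * ∏ i, H i x z)]
  by_cases h6 : s ≤ |av c.1 ν.1.1 (fun z => f x ξ z * ∏ i, H i x z)|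
  · rw [ind_of h6, if_pos h6]
  · rw [ind_not h6, if_neg h6]

/-- ONE BLOCK: the node is a function of the others, one rounding -/
theorem block {c : Cfg n} (he : c.1 ≤ k) (hs : ∀ i, c.2 i ≤ k) {v : Ξ → ℝ} (hv : ∀ ξ, 0 ≤ v ξ) {q : ℕ}
    (Yf : (Fin n → P × V k) → V k × ℕ) {κ : Type*} (rd : V k × ℕ → κ) (kap : Fin n → V k) (y0 : V k × ℕ)
    {f : V k × ℕ → (Fin n → P × V k) → Ξ → V k → ℝ} {H : Fin n → V k × ℕ → (Fin n → P × V k) → V k → ℝ}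
    (hf : ∀ y x ξ z, |f y x ξ z| ≤ 1) (hfr : ∀ y y', rd y = rd y' → f y = f y')
    (hH : ∀ i y x z, |H i y x z| ≤ 1) (hHr : ∀ i y y', rd y = rd y' → H i y = H i y')
    (hI : ∀ i y x x', (∀ j, j ≠ i → x j = x' j) → ∀ z, H i y x z = H i y x' z) {s ρ δ η : ℝ}
    (hw : ∀ y y', rd y = rd y' → ∀ φ : V k → ℝ, (∀ d, |φ d| ≤ 1) → |av c.1 y.1 φ - av c.1 y'.1 φ| ≤ η)
    (hs0 : 0 < s) (hδ0 : 0 ≤ δ) (hδ : ρ ≤ (s ^ (2 * q) * δ) ^ (2 ^ n)) {Hot : (Fin n → P × V k) → Prop}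
    (hHot : ∀ x, (∀ i, flr (c.2 i) (x i).2 = flr (c.2 i) (kap i)) → ¬ Hot x →
      kapc (wU c (Yf x, kap)) v (uW c (Yf x, kap)) q (f (Yf x)) ≤ ρ) (g : κ) :
    pm (wU c (y0, kap)) (fun x => ∑ ξ, v ξ * ind (rd (Yf x) = g ∧ (s + η ≤ |av c.1 (Yf x).1
      (fun z => f (Yf x) x ξ z * ∏ i, H i (Yf x) x z)| ∧ ¬ Hot x))) ≤ δ := by
  classical
  by_cases hex : ∃ x : Fin n → P × V k, (∀ i, flr (c.2 i) (x i).2 = flr (c.2 i) (kap i)) ∧ rd (Yf x) = g ∧ ¬ Hot x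
  · obtain ⟨x0, hx0, hg0, hH0⟩ := hex
    have h1 := gfrac he hs hv (q := q) (Yf x0, kap) (f := f (Yf x0)) (H := fun i => H i (Yf x0)) (fun i x z => hH _ _ _ _)
      (fun i x y hxy z => hI i _ x y hxy z) hs0 hδ0 (hHot x0 hx0 hH0) hδ
    refine le_trans ?_ h1
    have h2 : (wU (P := P) c (y0, kap)) = wU c (Yf x0, kap) := rfl
    rw [h2]
    refine pm_mono _ (wU_nonneg c _) fun x => Finset.sum_le_sum fun ξ _ => mul_le_mul_of_nonneg_left (ind_mono ?_) (hv ξ)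
    rintro ⟨h3, h4, -⟩
    have h5 : rd (Yf x) = rd (Yf x0) := h3.trans hg0.symm
    rw [hfr _ _ h5] at h4
    simp only [hHr _ _ _ h5] at h4
    have h6 : ∀ d, |f (Yf x0) x ξ d * ∏ i, H i (Yf x0) x d| ≤ 1 := by
      intro d
      rw [abs_mul, Finset.abs_prod]
      exact mul_le_one₀ (hf _ _ _ _) (Finset.prod_nonneg fun _ _ => abs_nonneg _)
        (Finset.prod_le_one (fun _ _ => abs_nonneg _) fun i _ => hH _ _ _ _)
    have h7 := hw _ _ h5 _ h6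
    have h8 := abs_sub_abs_le_abs_sub (av c.1 (Yf x).1 (fun d => f (Yf x0) x ξ d * ∏ i, H i (Yf x0) x d))
      (av c.1 (Yf x0).1 (fun d => f (Yf x0) x ξ d * ∏ i, H i (Yf x0) x d))
    linarith
  · refine le_trans (le_of_eq ?_) hδ0
    unfold pm
    refine Finset.sum_eq_zero fun x _ => ?_
    by_cases hx : ∀ i, flr (c.2 i) (x i).2 = flr (c.2 i) (kap i)
    · have h1 : ∀ ξ, ind (rd (Yf x) = g ∧ (s + η ≤ |av c.1 (Yf x).1
          (fun z => f (Yf x) x ξ z * ∏ i, H i (Yf x) x z)| ∧ ¬ Hot x)) = 0 :=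
        fun ξ => ind_not fun h => hex ⟨x, hx, h.1, h.2.2⟩
      simp only [h1, mul_zero, Finset.sum_const_zero]
    · push Not at hx
      obtain ⟨i, hi⟩ := hx
      rw [Finset.prod_eq_zero (mem_univ i), zero_mul]
      unfold wU
      rw [if_neg hi]

/-- everything but the others, of which only the cells are known -/
def Zs (c : Cfg n) (ω : S2 k N n P) : (P × V k) × (P × V k) × ℕ × (Fin n → V k) :=
  (va ω, vb ω, nw ω, fun i => flr (c.2 i) (vo ω i).2)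

/-- the sample point, the others replaced -/
def rep (om : Fin n → P × V k) (ω : S2 k N n P) : S2 k N n P := ((va ω, vb ω, om), ω.2)

/-- the average given the class -/
theorem ce_Zs {c : Cfg n} (hs : ∀ i, c.2 i ≤ k) (f : S2 k N n P → ℝ) (ω : S2 k N n P) :
    (Pu k N n P).ce (Zs c) f ω = pm (wU c ((0, 0), fun i => flr (c.2 i) (vo ω i).2)) (fun om => f (rep om ω)) := by
  classical
  rw [pm_wU hs]
  unfold Pu
  refine ce_unif_image (φ := fun om => rep om ω) ?_ ?_ f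
  · intro x _ y _ hxy
    exact congrArg (fun v : S2 k N n P => vo v) hxy
  · intro v
    constructor
    · intro hv
      unfold Zs at hv
      simp only [Prod.mk.injEq] at hv
      obtain ⟨h1, h2, h3, h4⟩ := hv
      refine ⟨vo v, ?_, ?_⟩
      · rw [mem_fib]
        intro i
        simp only
        rw [flr_flr le_rfl]
        exact congrFun h4 i
      · exact Prod.ext (Prod.ext h1.symm (Prod.ext h2.symm rfl)) (Fin.ext h3.symm)
    · rintro ⟨x, hx, rfl⟩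
      rw [mem_fib] at hx
      unfold Zs
      refine Prod.ext rfl (Prod.ext rfl (Prod.ext rfl (funext fun i => ?_)))
      change flr (c.2 i) (x i).2 = _
      rw [hx i, flr_flr le_rfl]

/-- NODE FORM: everything but the others known, of which only the cells -/
theorem node_form {c : Cfg n} (he : c.1 ≤ k) (hs : ∀ i, c.2 i ≤ k) {v : Ξ → ℝ} (hv : ∀ ξ, 0 ≤ v ξ) {q : ℕ}
    {κ : Type*} (rd : V k × ℕ → κ)
    {f : V k × ℕ → P × V k → P × V k → (Fin n → P × V k) → Ξ → V k → ℝ}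
    {H : Fin n → V k × ℕ → P × V k → P × V k → (Fin n → P × V k) → V k → ℝ}
    (hf : ∀ y a b x ξ z, |f y a b x ξ z| ≤ 1) (hfr : ∀ y y', rd y = rd y' → f y = f y')
    (hH : ∀ i y a b x z, |H i y a b x z| ≤ 1) (hHr : ∀ i y y', rd y = rd y' → H i y = H i y')
    (hI : ∀ i y a b x x', (∀ j, j ≠ i → x j = x' j) → ∀ z, H i y a b x z = H i y a b x' z) {s ρ δ η : ℝ}
    (hw : ∀ y y', rd y = rd y' → ∀ φ : V k → ℝ, (∀ d, |φ d| ≤ 1) → |av c.1 y.1 φ - av c.1 y'.1 φ| ≤ η)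
    (hs0 : 0 < s) (hδ0 : 0 ≤ δ) (hδ : ρ ≤ (s ^ (2 * q) * δ) ^ (2 ^ n)) {Hot : S2 k N n P → Prop}
    (hHot : ∀ ω, ¬ Hot ω → kapc (wU c (Nc c ω)) v (uW c (Nc c ω)) q (f (Nc c ω).1 (va ω) (vb ω)) ≤ ρ)
    {Q : ℕ} (ω0 : S2 k N n P)
    (hQ : ∃ g : ℕ → κ, ∀ ω : S2 k N n P, Zs c ω = Zs c ω0 → ∃ j ∈ range (Q + 1), rd (Nc c ω).1 = g j) :
    (Pu k N n P).ce (Zs c) (fun ω => ∑ ξ, v ξ * ind (s + η ≤ |av c.1 (Nc c ω).1.1
      (fun z => f (Nc c ω).1 (va ω) (vb ω) (vo ω) ξ z * ∏ i, H i (Nc c ω).1 (va ω) (vb ω) (vo ω) z)| ∧ ¬ Hot ω)) ω0 ≤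
      (Q + 1) * δ := by
  classical
  obtain ⟨g, hg⟩ := hQ
  set B : S2 k N n P → Ξ → Prop := fun ω ξ => s + η ≤ |av c.1 (Nc c ω).1.1
      (fun z => f (Nc c ω).1 (va ω) (vb ω) (vo ω) ξ z * ∏ i, H i (Nc c ω).1 (va ω) (vb ω) (vo ω) z)| ∧ ¬ Hot ω with hB
  have h1 : (Pu k N n P).ce (Zs c) (fun ω => ∑ ξ, v ξ * ind (B ω ξ)) ω0 ≤
      (Pu k N n P).ce (Zs c) (fun ω => ∑ j ∈ range (Q + 1), ∑ ξ, v ξ * ind (rd (Nc c ω).1 = g j ∧ B ω ξ)) ω0 := by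
    refine ce_mono_fib _ ω0 fun w hw' => ?_
    obtain ⟨j, hj, h2⟩ := hg w hw'
    have h3 := Finset.single_le_sum (f := fun j => ∑ ξ, v ξ * ind (rd (Nc c w).1 = g j ∧ B w ξ))
      (fun j _ => Finset.sum_nonneg fun ξ _ => mul_nonneg (hv ξ) (ind_nonneg _)) hj
    refine le_trans (le_of_eq ?_) h3
    refine Finset.sum_congr rfl fun ξ _ => ?_
    congr 1
    by_cases h4 : B w ξ
    · rw [ind_of h4, ind_of ⟨h2, h4⟩]
    · rw [ind_not h4, ind_not fun h5 => h4 h5.2]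
  refine h1.trans ?_
  rw [FP.ce_sum]
  have hone : ∀ j ∈ range (Q + 1), (Pu k N n P).ce (Zs c) (fun ω => ∑ ξ, v ξ * ind (rd (Nc c ω).1 = g j ∧ B ω ξ)) ω0 ≤ δ := by
    intro j _
    rw [ce_Zs hs]
    refine block he hs hv (q := q) (fun x => (Nc c (rep x ω0)).1) rd (fun i => flr (c.2 i) (vo ω0 i).2) (0, 0)
      (f := fun y => f y (va ω0) (vb ω0)) (H := fun i y => H i y (va ω0) (vb ω0))
      (fun y x ξ z => hf _ _ _ _ _ _) (fun y y' h => by rw [hfr y y' h]) (fun i y x z => hH _ _ _ _ _ _)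
      (fun i y y' h => by rw [hHr i y y' h]) (fun i y x x' h z => hI _ _ _ _ _ _ h z) hw hs0 hδ0 hδ
      (Hot := fun x => Hot (rep x ω0)) (fun x hx hH0 => ?_) (g j)
    have h5 := hHot _ hH0
    have h6 : Nc c (rep x ω0) = ((Nc c (rep x ω0)).1, fun i => flr (c.2 i) (vo ω0 i).2) := by
      refine Prod.ext rfl (funext fun i => ?_)
      change flr (c.2 i) (x i).2 = _
      rw [hx i]
      simp only
      rw [flr_flr le_rfl]
    rw [h6] at h5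
    exact h5
  refine (Finset.sum_le_sum hone).trans (le_of_eq ?_)
  rw [Finset.sum_const, card_range, nsmul_eq_mul]
  push_cast
  ring

/-! ## the natural view of the vertex `h0` -/

/-- NATURAL VIEW: `a`, `b` exact, path of the hidden vertex `h0`, cells of the others -/
def Ns (c : Cfg n) (h0 : Fin n) (ω : S2 k N n P) :
    (P × V k) × (P × V k) × (V k × ℕ) × ({j : Fin n // j ≠ h0} → V k) :=
  (va ω, vb ω, nd c.1 (vo ω h0).2 (nw ω), fun j => flr (c.2 j) (vo ω j).2)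

theorem low_lt {e : ℕ} (he : e ≤ N) {u : ℕ} (hu : u < 2 ^ N) (r : ℕ) : u / 2 ^ e * 2 ^ e + r % 2 ^ e < 2 ^ N := by
  have hpow : 2 ^ (N - e) * 2 ^ e = 2 ^ N := by rw [← pow_add, Nat.sub_add_cancel he]
  have h2 : r % 2 ^ e < 2 ^ e := Nat.mod_lt _ (by positivity)
  have h3 : u / 2 ^ e < 2 ^ (N - e) := by
    rw [Nat.div_lt_iff_lt_mul (by positivity), hpow]
    exact hu
  calc u / 2 ^ e * 2 ^ e + r % 2 ^ e < u / 2 ^ e * 2 ^ e + 2 ^ e := by omega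
    _ = (u / 2 ^ e + 1) * 2 ^ e := by ring
    _ ≤ 2 ^ (N - e) * 2 ^ e := Nat.mul_le_mul_right _ h3
    _ = 2 ^ N := hpow

/-- the sample point with the others `om` and the same path of the vertex `h0` -/
def repN {c : Cfg n} (he : c.1 ≤ N) (h0 : Fin n) (om : Fin n → P × V k) (ω : S2 k N n P) : S2 k N n P :=
  ((va ω, vb ω, om), ⟨nw ω / 2 ^ c.1 * 2 ^ c.1 + ((nd c.1 (vo ω h0).2 (nw ω)).1 - (om h0).2).val % 2 ^ c.1,
    low_lt he (nw_lt ω) _⟩)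

/-- the others in the class of the natural view -/
def fibN (c : Cfg n) (h0 : Fin n) (ω : S2 k N n P) : Finset (Fin n → P × V k) :=
  Fintype.piFinset fun i => univ.filter fun x : P × V k =>
    (i = h0 → ((nd c.1 (vo ω h0).2 (nw ω)).1 - x.2).val < 2 ^ c.1) ∧ (i ≠ h0 → flr (c.2 i) x.2 = flr (c.2 i) (vo ω i).2)

theorem mem_fibN (c : Cfg n) (h0 : Fin n) (ω : S2 k N n P) (om : Fin n → P × V k) :
    om ∈ fibN c h0 ω ↔ ((nd c.1 (vo ω h0).2 (nw ω)).1 - (om h0).2).val < 2 ^ c.1 ∧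
      ∀ i, i ≠ h0 → flr (c.2 i) (om i).2 = flr (c.2 i) (vo ω i).2 := by
  unfold fibN
  rw [Fintype.mem_piFinset]
  constructor
  · intro h
    refine ⟨((Finset.mem_filter.mp (h h0)).2.1 rfl), fun i hi => (Finset.mem_filter.mp (h i)).2.2 hi⟩
  · rintro ⟨h1, h2⟩ i
    rw [Finset.mem_filter]
    refine ⟨Finset.mem_univ _, fun hi => ?_, fun hi => h2 i hi⟩
    rw [hi]
    exact h1

/-- the average in the natural view -/
theorem ce_Ns {c : Cfg n} (he : c.1 ≤ N) (hN : N ≤ k) (h0 : Fin n) (f : S2 k N n P → ℝ) (ω : S2 k N n P) :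
    (Pu k N n P).ce (Ns c h0) f ω = ((fibN c h0 ω).card : ℝ)⁻¹ * ∑ om ∈ fibN c h0 ω, f (repN he h0 om ω) := by
  classical
  have hle : (2 : ℕ) ^ c.1 ≤ 2 ^ k := Nat.pow_le_pow_right (by norm_num) (he.trans hN)
  unfold Pu
  refine ce_unif_image (φ := fun om => repN he h0 om ω) ?_ ?_ f
  · intro x _ y _ hxy
    exact congrArg (fun v : S2 k N n P => vo v) hxy
  · intro v
    constructor
    · intro hv
      unfold Ns at hv
      simp only [Prod.mk.injEq] at hv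
      obtain ⟨h1, h2, h3, h4⟩ := hv
      have h5 : (nd c.1 (vo ω h0).2 (nw ω)).1 - (vo v h0).2 = ((nw v % 2 ^ c.1 : ℕ) : V k) := by
        rw [← h3]
        unfold nd Bin.pos
        simp only
        abel
      have h6 : ((nd c.1 (vo ω h0).2 (nw ω)).1 - (vo v h0).2).val = nw v % 2 ^ c.1 := by
        rw [h5, ZMod.val_natCast_of_lt (lt_of_lt_of_le (Nat.mod_lt _ (by positivity)) hle)]
      have h7 : nw v / 2 ^ c.1 = nw ω / 2 ^ c.1 := congrArg Prod.snd h3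
      refine ⟨vo v, ?_, ?_⟩
      · rw [mem_fibN, h6]
        exact ⟨Nat.mod_lt _ (by positivity), fun i hi => congrFun h4 ⟨i, hi⟩⟩
      · refine Prod.ext (Prod.ext h1.symm (Prod.ext h2.symm rfl)) (Fin.ext ?_)
        change nw ω / 2 ^ c.1 * 2 ^ c.1 + ((nd c.1 (vo ω h0).2 (nw ω)).1 - (vo v h0).2).val % 2 ^ c.1 = nw v
        rw [h6, Nat.mod_mod, ← h7]
        exact Nat.div_add_mod' _ _
    · rintro ⟨x, hx, rfl⟩
      rw [mem_fibN] at hx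
      unfold Ns
      refine Prod.ext rfl (Prod.ext rfl (Prod.ext ?_ (funext fun i => hx.2 i.1 i.2)))
      change nd c.1 (x h0).2 (nw ω / 2 ^ c.1 * 2 ^ c.1 + ((nd c.1 (vo ω h0).2 (nw ω)).1 - (x h0).2).val % 2 ^ c.1) =
        nd c.1 (vo ω h0).2 (nw ω)
      set r := ((nd c.1 (vo ω h0).2 (nw ω)).1 - (x h0).2).val with hr
      have h8 : (nw ω / 2 ^ c.1 * 2 ^ c.1 + r % 2 ^ c.1) % 2 ^ c.1 = r := by
        rw [Nat.mul_comm, Nat.mul_add_mod, Nat.mod_mod, Nat.mod_eq_of_lt hx.1]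
      have h9 : (nw ω / 2 ^ c.1 * 2 ^ c.1 + r % 2 ^ c.1) / 2 ^ c.1 = nw ω / 2 ^ c.1 := by
        rw [Nat.mul_comm, Nat.mul_add_div (by positivity), Nat.div_eq_of_lt (Nat.mod_lt _ (by positivity)), Nat.add_zero]
      refine Prod.ext ?_ h9
      change (x h0).2 + (((nw ω / 2 ^ c.1 * 2 ^ c.1 + r % 2 ^ c.1) % 2 ^ c.1 : ℕ) : V k) = _
      rw [h8, hr, ZMod.natCast_zmod_val]
      abel

theorem card_fibN {c : Cfg n} (he : c.1 ≤ k) (hs : ∀ i, c.2 i ≤ k) {h0 : Fin n} (hs0 : c.2 h0 ≤ c.1) (ω : S2 k N n P) :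
    (fibN c h0 ω).card = 2 ^ (c.1 - c.2 h0) * ∏ i, Fintype.card P * 2 ^ c.2 i := by
  classical
  unfold fibN
  rw [Fintype.card_piFinset]
  have h1 : ∀ i, (univ.filter fun x : P × V k =>
      (i = h0 → ((nd c.1 (vo ω h0).2 (nw ω)).1 - x.2).val < 2 ^ c.1) ∧
      (i ≠ h0 → flr (c.2 i) x.2 = flr (c.2 i) (vo ω i).2)).card =
      (if i = h0 then 2 ^ (c.1 - c.2 h0) else 1) * (Fintype.card P * 2 ^ c.2 i) := by
    intro i
    by_cases hi : i = h0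
    · rw [if_pos hi]
      have h2 : (univ.filter fun x : P × V k =>
          (i = h0 → ((nd c.1 (vo ω h0).2 (nw ω)).1 - x.2).val < 2 ^ c.1) ∧
          (i ≠ h0 → flr (c.2 i) x.2 = flr (c.2 i) (vo ω i).2)) =
          (univ : Finset P) ×ˢ (univ.filter fun v : V k => ((nd c.1 (vo ω h0).2 (nw ω)).1 - v).val < 2 ^ c.1) := by
        ext x
        simp [hi]
      rw [h2, Finset.card_product, card_win he, Finset.card_univ, hi]
      have h3 : 2 ^ c.1 = 2 ^ (c.1 - c.2 h0) * 2 ^ c.2 h0 := by rw [← pow_add, Nat.sub_add_cancel hs0]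
      rw [h3]
      ring
    · rw [if_neg hi, one_mul]
      have h2 : (univ.filter fun x : P × V k =>
          (i = h0 → ((nd c.1 (vo ω h0).2 (nw ω)).1 - x.2).val < 2 ^ c.1) ∧
          (i ≠ h0 → flr (c.2 i) x.2 = flr (c.2 i) (vo ω i).2)) = CL (P := P) (c.2 i) (vo ω i).2 := by
        unfold CL
        ext x
        simp [hi]
      rw [h2, card_CL (hs i)]
  rw [Finset.prod_congr rfl fun i _ => h1 i, Finset.prod_mul_distrib, Finset.prod_ite_eq' univ h0, if_pos (mem_univ _)]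

/-- the cells which meet the window of the hidden vertex -/
def kapN (c : Cfg n) (h0 : Fin n) (ω : S2 k N n P) (m : ℕ) (i : Fin n) : V k :=
  if i = h0 then (nd c.1 (vo ω h0).2 (nw ω)).1 - ((m * 2 ^ c.2 h0 : ℕ) : V k) else (vo ω i).2

theorem cover_N {c : Cfg n} (hs : ∀ i, c.2 i ≤ k) {h0 : Fin n} (hs0 : c.2 h0 ≤ c.1) (ω : S2 k N n P)
    {om : Fin n → P × V k} (hom : om ∈ fibN c h0 ω) :
    ∃ m ∈ range (2 ^ (c.1 - c.2 h0) + 1), om ∈ fib P c.2 (kapN c h0 ω m) := by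
  rw [mem_fibN] at hom
  obtain ⟨h1, h2⟩ := hom
  set z := (nd c.1 (vo ω h0).2 (nw ω)).1 with hz
  set r := (z - (om h0).2).val with hr
  set S := c.2 h0 with hS
  have h3 : (om h0).2 = z - (r : V k) := by rw [hr, ZMod.natCast_zmod_val]; abel
  have h4 : r = r / 2 ^ S * 2 ^ S + r % 2 ^ S := (Nat.div_add_mod' _ _).symm
  have h5 : r % 2 ^ S < 2 ^ S := Nat.mod_lt _ (by positivity)
  have h6 : r / 2 ^ S < 2 ^ (c.1 - S) := by
    rw [Nat.div_lt_iff_lt_mul (by positivity), ← pow_add, Nat.sub_add_cancel hs0]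
    exact h1
  have h7 : (om h0).2 + ((r % 2 ^ S : ℕ) : V k) = z - ((r / 2 ^ S * 2 ^ S : ℕ) : V k) := by
    rw [h3]
    conv_lhs => rw [h4]
    rw [Nat.cast_add]
    have : ((r / 2 ^ S * 2 ^ S + r % 2 ^ S) % 2 ^ S : ℕ) = r % 2 ^ S := by rw [← h4]
    rw [this]
    abel
  have hcase : ∃ m ∈ range (2 ^ (c.1 - S) + 1), flr S (om h0).2 = flr S (z - ((m * 2 ^ S : ℕ) : V k)) := by
    rcases flr_add_lt' (hs h0) (om h0).2 h5 with h8 | h8
    · refine ⟨r / 2 ^ S, Finset.mem_range.mpr (by omega), ?_⟩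
      rw [← h7, h8]
    · refine ⟨r / 2 ^ S + 1, Finset.mem_range.mpr (by omega), ?_⟩
      have h9 := flr_add_mul (j := S) (i := S) le_rfl (z - (((r / 2 ^ S + 1) * 2 ^ S : ℕ) : V k)) 1
      have h10 : z - (((r / 2 ^ S + 1) * 2 ^ S : ℕ) : V k) + ((1 * 2 ^ S : ℕ) : V k) =
          z - ((r / 2 ^ S * 2 ^ S : ℕ) : V k) := by
        push_cast
        ring
      rw [h10, ← h7, h8, one_mul] at h9
      exact add_right_cancel h9
  obtain ⟨m, hm, h8⟩ := hcase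
  refine ⟨m, hm, ?_⟩
  rw [mem_fib]
  intro i
  unfold kapN
  by_cases hi : i = h0
  · rw [if_pos hi, hi]
    exact h8
  · rw [if_neg hi]
    exact h2 i hi

/-- NATURAL VIEW: from the products of cells -/
theorem ce_Ns_le {c : Cfg n} (he : c.1 ≤ N) (hN : N ≤ k) (hs : ∀ i, c.2 i ≤ k) {h0 : Fin n} (hs0 : c.2 h0 ≤ c.1)
    {f : S2 k N n P → ℝ} (hf : ∀ ω, 0 ≤ f ω) (ω : S2 k N n P) {x : ℝ} (hx0 : 0 ≤ x)
    (hx : ∀ m, pm (wU c ((0, 0), kapN c h0 ω m)) (fun om => f (repN he h0 om ω)) ≤ x) :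
    (Pu k N n P).ce (Ns c h0) f ω ≤ 2 * x := by
  classical
  rw [ce_Ns he hN, card_fibN (he.trans hN) hs hs0]
  set Φ : ℕ := ∏ i, Fintype.card P * 2 ^ c.2 i with hΦ
  have hΦ0 : (0 : ℝ) < Φ := by
    rw [hΦ, Nat.cast_pos]
    exact Finset.prod_pos fun i _ => Nat.mul_pos Fintype.card_pos (by positivity)
  set D : ℝ := 2 ^ (c.1 - c.2 h0) with hD
  have hD1 : 1 ≤ D := one_le_pow₀ (by norm_num)
  have hD0 : 0 < D := by linarith
  have h1 : ∑ om ∈ fibN c h0 ω, f (repN he h0 om ω) ≤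
      ∑ m ∈ range (2 ^ (c.1 - c.2 h0) + 1), ∑ om ∈ fib P c.2 (kapN c h0 ω m), f (repN he h0 om ω) := by
    have h2 : ∀ om ∈ fibN c h0 ω, f (repN he h0 om ω) ≤
        ∑ m ∈ range (2 ^ (c.1 - c.2 h0) + 1), ind (om ∈ fib P c.2 (kapN c h0 ω m)) * f (repN he h0 om ω) := by
      intro om hom
      obtain ⟨m, hm, h3⟩ := cover_N hs hs0 ω hom
      have h4 := Finset.single_le_sum (f := fun m => ind (om ∈ fib P c.2 (kapN c h0 ω m)) * f (repN he h0 om ω))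
        (fun m _ => mul_nonneg (ind_nonneg _) (hf _)) hm
      refine le_trans (le_of_eq ?_) h4
      beta_reduce
      rw [ind_of h3, one_mul]
    refine (Finset.sum_le_sum h2).trans ?_
    rw [Finset.sum_comm]
    refine Finset.sum_le_sum fun m _ => ?_
    calc ∑ om ∈ fibN c h0 ω, ind (om ∈ fib P c.2 (kapN c h0 ω m)) * f (repN he h0 om ω)
        ≤ ∑ om, ind (om ∈ fib P c.2 (kapN c h0 ω m)) * f (repN he h0 om ω) :=
          Finset.sum_le_sum_of_subset_of_nonneg (Finset.subset_univ _) fun om _ _ => mul_nonneg (ind_nonneg _) (hf _)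
      _ = ∑ om ∈ fib P c.2 (kapN c h0 ω m), f (repN he h0 om ω) := by
          rw [← Finset.sum_subset (Finset.subset_univ (fib P c.2 (kapN c h0 ω m)))]
          · exact Finset.sum_congr rfl fun om hom => by rw [ind_of hom, one_mul]
          · intro om _ hom
            rw [ind_not hom, zero_mul]
  have h2 : ∀ m, ∑ om ∈ fib P c.2 (kapN c h0 ω m), f (repN he h0 om ω) ≤ Φ * x := by
    intro m
    have h3 := hx m
    rw [pm_wU hs] at h3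
    simp only at h3
    rw [card_fib hs, ← hΦ] at h3
    calc ∑ om ∈ fib P c.2 (kapN c h0 ω m), f (repN he h0 om ω)
        = Φ * ((Φ : ℝ)⁻¹ * ∑ om ∈ fib P c.2 (kapN c h0 ω m), f (repN he h0 om ω)) := by
          rw [← mul_assoc, mul_inv_cancel₀ hΦ0.ne', one_mul]
      _ ≤ Φ * x := mul_le_mul_of_nonneg_left h3 hΦ0.le
  have h3 : ∑ om ∈ fibN c h0 ω, f (repN he h0 om ω) ≤ (D + 1) * (Φ * x) := by
    refine h1.trans ((Finset.sum_le_sum fun m _ => h2 m).trans (le_of_eq ?_))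
    rw [Finset.sum_const, card_range, nsmul_eq_mul, hD]
    push_cast
    ring
  push_cast
  calc (D * (Φ : ℝ))⁻¹ * ∑ om ∈ fibN c h0 ω, f (repN he h0 om ω)
      ≤ (D * (Φ : ℝ))⁻¹ * ((D + 1) * (Φ * x)) := mul_le_mul_of_nonneg_left h3 (by positivity)
    _ = (D + 1) / D * x := by
        field_simp
    _ ≤ 2 * x := by
        refine mul_le_mul_of_nonneg_right ?_ hx0
        rw [div_le_iff₀ hD0]
        linarith

/-- NATURAL FORM -/
theorem nat_form {c : Cfg n} (he : c.1 ≤ N) (hN : N ≤ k) (hs : ∀ i, c.2 i ≤ k) {h0 : Fin n} (hs0 : c.2 h0 ≤ c.1)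
    {v : Ξ → ℝ} (hv : ∀ ξ, 0 ≤ v ξ) {q : ℕ} {κ : Type*} (rd : V k × ℕ → κ)
    {f : V k × ℕ → P × V k → P × V k → (Fin n → P × V k) → Ξ → V k → ℝ}
    {H : Fin n → V k × ℕ → P × V k → P × V k → (Fin n → P × V k) → V k → ℝ}
    (hf : ∀ y a b x ξ z, |f y a b x ξ z| ≤ 1) (hfr : ∀ y y', rd y = rd y' → f y = f y')
    (hH : ∀ i y a b x z, |H i y a b x z| ≤ 1) (hHr : ∀ i y y', rd y = rd y' → H i y = H i y')
    (hI : ∀ i y a b x x', (∀ j, j ≠ i → x j = x' j) → ∀ z, H i y a b x z = H i y a b x' z) {s ρ δ η : ℝ}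
    (hw : ∀ y y', rd y = rd y' → ∀ φ : V k → ℝ, (∀ d, |φ d| ≤ 1) → |av c.1 y.1 φ - av c.1 y'.1 φ| ≤ η)
    (hs1 : 0 < s) (hδ0 : 0 ≤ δ) (hδ : ρ ≤ (s ^ (2 * q) * δ) ^ (2 ^ n)) {Hot : S2 k N n P → Prop}
    (hHot : ∀ ω, ¬ Hot ω → kapc (wU c (Nc c ω)) v (uW c (Nc c ω)) q (f (Nc c ω).1 (va ω) (vb ω)) ≤ ρ)
    {Q : ℕ} (ω0 : S2 k N n P)
    (hQ : ∃ g : ℕ → κ, ∀ ω : S2 k N n P, Ns c h0 ω = Ns c h0 ω0 → ∃ j ∈ range (Q + 1), rd (Nc c ω).1 = g j) :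
    (Pu k N n P).ce (Ns c h0) (fun ω => ∑ ξ, v ξ * ind (s + η ≤ |av c.1 (Nc c ω).1.1
      (fun z => f (Nc c ω).1 (va ω) (vb ω) (vo ω) ξ z * ∏ i, H i (Nc c ω).1 (va ω) (vb ω) (vo ω) z)| ∧ ¬ Hot ω)) ω0 ≤
      2 * ((Q + 1) * δ) := by
  classical
  obtain ⟨g, hg⟩ := hQ
  set B : S2 k N n P → Ξ → Prop := fun ω ξ => s + η ≤ |av c.1 (Nc c ω).1.1
      (fun z => f (Nc c ω).1 (va ω) (vb ω) (vo ω) ξ z * ∏ i, H i (Nc c ω).1 (va ω) (vb ω) (vo ω) z)| ∧ ¬ Hot ω with hB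
  have h1 : (Pu k N n P).ce (Ns c h0) (fun ω => ∑ ξ, v ξ * ind (B ω ξ)) ω0 ≤
      (Pu k N n P).ce (Ns c h0) (fun ω => ∑ j ∈ range (Q + 1), ∑ ξ, v ξ * ind (rd (Nc c ω).1 = g j ∧ B ω ξ)) ω0 := by
    refine ce_mono_fib _ ω0 fun w hw' => ?_
    obtain ⟨j, hj, h2⟩ := hg w hw'
    have h3 := Finset.single_le_sum (f := fun j => ∑ ξ, v ξ * ind (rd (Nc c w).1 = g j ∧ B w ξ))
      (fun j _ => Finset.sum_nonneg fun ξ _ => mul_nonneg (hv ξ) (ind_nonneg _)) hj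
    refine le_trans (le_of_eq ?_) h3
    refine Finset.sum_congr rfl fun ξ _ => ?_
    congr 1
    by_cases h4 : B w ξ
    · rw [ind_of h4, ind_of ⟨h2, h4⟩]
    · rw [ind_not h4, ind_not fun h5 => h4 h5.2]
  refine h1.trans (ce_Ns_le he hN hs hs0 (fun ω => Finset.sum_nonneg fun j _ => Finset.sum_nonneg fun ξ _ =>
    mul_nonneg (hv ξ) (ind_nonneg _)) ω0 (by positivity) fun m => ?_)
  rw [pm_sum]
  have hone : ∀ j ∈ range (Q + 1), pm (wU c ((0, 0), kapN c h0 ω0 m)) (fun om =>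
      ∑ ξ, v ξ * ind (rd (Nc c (repN he h0 om ω0)).1 = g j ∧ B (repN he h0 om ω0) ξ)) ≤ δ := by
    intro j _
    refine block (he.trans hN) hs hv (q := q) (fun x => (Nc c (repN he h0 x ω0)).1) rd (kapN c h0 ω0 m) (0, 0)
      (f := fun y => f y (va ω0) (vb ω0)) (H := fun i y => H i y (va ω0) (vb ω0))
      (fun y x ξ z => hf _ _ _ _ _ _) (fun y y' h => by rw [hfr y y' h]) (fun i y x z => hH _ _ _ _ _ _)
      (fun i y y' h => by rw [hHr i y y' h]) (fun i y x x' h z => hI _ _ _ _ _ _ h z) hw hs1 hδ0 hδ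
      (Hot := fun x => Hot (repN he h0 x ω0)) (fun x hx hH0 => ?_) (g j)
    have h5 := hHot _ hH0
    have h6 : (wU (P := P) c (Nc c (repN he h0 x ω0))) = wU c ((Nc c (repN he h0 x ω0)).1, kapN c h0 ω0 m) := by
      funext i y
      unfold wU
      have h7 : flr (c.2 i) ((Nc c (repN he h0 x ω0)).2 i) = flr (c.2 i) (kapN c h0 ω0 m i) := by
        change flr (c.2 i) (flr (c.2 i) (x i).2) = _
        rw [flr_flr le_rfl, hx i]
      simp only [h7]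
    rw [h6] at h5
    exact h5
  refine (Finset.sum_le_sum hone).trans (le_of_eq ?_)
  rw [Finset.sum_const, card_range, nsmul_eq_mul]
  push_cast
  ring

/-! ## the concrete rounding -/

omit [Fintype P] [Nonempty P] [Fintype Ξ] in
/-- the window moves little inside one rounding -/
theorem rnd_win (s0 : V k) (h e : ℕ) (y y' : V k × ℕ) (hy : rnd s0 h e y = rnd s0 h e y') (φ : V k → ℝ)
    (hφ : ∀ d, |φ d| ≤ 1) : |av e y.1 φ - av e y'.1 φ| ≤ 4 * ((2 : ℝ) ^ h)⁻¹ := by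
  have h1 : ∀ y : V k × ℕ, av e y.1 φ = av e (y.1 + s0) (fun d => φ (d - s0)) := by
    intro y
    rw [← av_shift e y.1 s0]
    simp only [add_sub_cancel_right]
  have h2 : flr (e - h) (y.1 + s0) = flr (e - h) (y'.1 + s0) := congrArg Prod.fst hy
  have h3 := av_round h e (y.1 + s0) (f := fun d => φ (d - s0)) (B := 1) (fun d => hφ _)
  have h4 := av_round h e (y'.1 + s0) (f := fun d => φ (d - s0)) (B := 1) (fun d => hφ _)
  rw [h1 y, h1 y']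
  rw [h2] at h3
  rw [abs_le] at h3 h4 ⊢
  constructor <;> linarith [h3.1, h3.2, h4.1, h4.2]

omit [Fintype P] [Nonempty P] [Fintype Ξ] in
/-- options, class `Zs` -/
theorem opts_Zs {c : Cfg n} (he : c.1 ≤ k) {h Q : ℕ} (hQ : ∑ i, 2 ^ c.2 i ≤ Q * 2 ^ (c.1 - h)) (s0 : V k)
    (ω0 : S2 k N n P) : ∃ g : ℕ → V k × ℕ, ∀ ω : S2 k N n P, Zs c ω = Zs c ω0 →
      ∃ j ∈ range (Q + 1), rnd s0 h c.1 (Nc c ω).1 = g j := by
  set b : V k := (va ω0).2 + (vb ω0).2 + ∑ i, flr (c.2 i) (vo ω0 i).2 + ((nw ω0 % 2 ^ c.1 : ℕ) : V k) + s0 with hb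
  refine ⟨fun q => (flr (c.1 - h) b + ((q * 2 ^ (c.1 - h) : ℕ) : V k), nw ω0 / 2 ^ c.1), fun v hv => ?_⟩
  unfold Zs at hv
  simp only [Prod.mk.injEq] at hv
  obtain ⟨h1, h2, h3, h4⟩ := hv
  obtain ⟨a, ha, h5⟩ := GM.sum_flr' c.2 univ (fun i => (vo ω0 i).2) (fun i => (vo v i).2) (fun i _ => congrFun h4 i)
  have h6 : (Nc c v).1 = (b - s0 + (a : V k), nw ω0 / 2 ^ c.1) := by
    unfold Nc Nn nd ct so Bin.pos
    simp only
    rw [h1, h2, h3, h5, hb]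
    refine Prod.ext ?_ rfl
    simp only
    ring
  obtain ⟨q, hq, h7⟩ := GM.flr_add_q (s := c.1 - h) (by omega) b (ha.trans hQ)
  refine ⟨q, Finset.mem_range.mpr (by omega), ?_⟩
  rw [h6]
  unfold rnd
  refine Prod.ext ?_ rfl
  simp only
  have h8 : b - s0 + (a : V k) + s0 = b + (a : V k) := by ring
  rw [h8]
  exact h7

omit [Fintype P] [Nonempty P] [Fintype Ξ] in
/-- options, natural view -/
theorem opts_Ns {c : Cfg n} (he : c.1 ≤ k) {h Q : ℕ} {h0 : Fin n} (hQ : ∑ i ∈ univ.erase h0, 2 ^ c.2 i ≤ Q * 2 ^ (c.1 - h))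
    (s0 : V k) (ω0 : S2 k N n P) : ∃ g : ℕ → V k × ℕ, ∀ ω : S2 k N n P, Ns c h0 ω = Ns c h0 ω0 →
      ∃ j ∈ range (Q + 1), rnd s0 h c.1 (Nc c ω).1 = g j := by
  set b : V k := (va ω0).2 + (vb ω0).2 + ∑ i ∈ univ.erase h0, flr (c.2 i) (vo ω0 i).2 +
    (nd c.1 (vo ω0 h0).2 (nw ω0)).1 + s0 with hb
  refine ⟨fun q => (flr (c.1 - h) b + ((q * 2 ^ (c.1 - h) : ℕ) : V k), nw ω0 / 2 ^ c.1), fun v hv => ?_⟩
  unfold Ns at hv
  simp only [Prod.mk.injEq] at hv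
  obtain ⟨h1, h2, h3, h4⟩ := hv
  obtain ⟨a, ha, h5⟩ := GM.sum_flr' c.2 (univ.erase h0) (fun i => (vo ω0 i).2) (fun i => (vo v i).2)
    (fun i hi => congrFun h4 ⟨i, Finset.ne_of_mem_erase hi⟩)
  have h6 : (Nc c v).1 = (b - s0 + (a : V k), nw ω0 / 2 ^ c.1) := by
    have h8 : nw v / 2 ^ c.1 = nw ω0 / 2 ^ c.1 := congrArg Prod.snd h3
    have h9 : (vo v h0).2 + ((nw v % 2 ^ c.1 : ℕ) : V k) = (nd c.1 (vo ω0 h0).2 (nw ω0)).1 := congrArg Prod.fst h3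
    refine Prod.ext ?_ h8
    change (va v).2 + (vb v).2 + so (vo v) + ((nw v % 2 ^ c.1 : ℕ) : V k) = b - s0 + (a : V k)
    unfold so
    rw [← Finset.add_sum_erase univ (fun i => (vo v i).2) (Finset.mem_univ h0), h5, h1, h2, hb, ← h9]
    ring
  obtain ⟨q, hq, h7⟩ := GM.flr_add_q (s := c.1 - h) (by omega) b (ha.trans hQ)
  refine ⟨q, Finset.mem_range.mpr (by omega), ?_⟩
  rw [h6]
  unfold rnd
  refine Prod.ext ?_ rfl
  simp only
  have h8 : b - s0 + (a : V k) + s0 = b + (a : V k) := by ring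
  rw [h8]
  exact h7

/-! ## the instance -/

omit [Fintype P] [Nonempty P] [Fintype Ξ] in
theorem fac_Ns {c c' : Cfg n} (h1 : c.1 ≤ c'.1) (h2 : ∀ i, c.2 i ≤ c'.2 i) (h0 : Fin n) :
    Fac (Ns (k := k) (N := N) (P := P) c h0) (Ns c' h0) := by
  intro v w h
  unfold Ns at h ⊢
  simp only [Prod.mk.injEq] at h
  obtain ⟨ha, hb, hc, hd⟩ := h
  refine Prod.ext ha (Prod.ext hb (Prod.ext (nd_le h1 hc) (funext fun j => ?_)))
  exact flr_mono_eq (h2 j) (congrFun hd j)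

/-- the natural view of the vertex `h0` at the full time `t` -/
def nv (hh : ℕ) (h0 : Fin n) (t : ℕ) (ω : S2 k N n P) :
    (P × V k) × (P × V k) × (V k × ℕ) × ({j : Fin n // j ≠ h0} → V k) :=
  Ns (N - t, fun _ => N - t - hh) h0 ω

omit [Fintype P] [Nonempty P] [Fintype Ξ] in
theorem filt_nv (hh : ℕ) (h0 : Fin n) : Filt (fun t (ω : S2 k N n P) => nv hh h0 t ω) := by
  intro t
  refine fac_Ns (c := (N - (t + 1), fun _ => N - (t + 1) - hh)) (c' := (N - t, fun _ => N - t - hh)) ?_ (fun _ => ?_) h0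
  · exact Nat.sub_le_sub_left (Nat.le_succ t) N
  · have : N - (t + 1) ≤ N - t := Nat.sub_le_sub_left (Nat.le_succ t) N
    simp only
    omega

namespace Ins

variable (I : Ins k N n P Ξ)

/-- coin free functions, each misses one of the other vertices: exponent, exact node, `a`, `b`, the others, argument -/
abbrev Tst (k n : ℕ) (P : Type) : Type :=
  Fin n → ℕ → V k × ℕ → P × V k → P × V k → (Fin n → P × V k) → V k → ℝ

/-- the value of the whole product at the time `t` (exact window) -/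
def val (H : Tst k n P) (t : ℕ) (ω : S2 k N n P) (ξ : Ξ) : ℝ :=
  av (I.cc t).1 (I.nu t ω).1.1 (fun z => I.ver I.FA t (I.nu t ω) (va ω) (GMC.vo ω) ξ z *
    I.ver I.FB t (I.nu t ω) (vb ω) (GMC.vo ω) ξ z * ∏ i, H i (I.cc t).1 (I.nu t ω).1 (va ω) (vb ω) (GMC.vo ω) z)

/-- admissible tests for the rounding `rnd s0 h` -/
structure TstH (s0 : V k) (h : ℕ) (H : Tst k n P) : Prop where
  le : ∀ i e y a b x z, |H i e y a b x z| ≤ 1
  rnd : ∀ i e y y', rnd s0 h e y = rnd s0 h e y' → H i e y = H i e y'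
  mis : ∀ i e y a b x x', (∀ j, j ≠ i → x j = x' j) → ∀ z, H i e y a b x z = H i e y a b x' z

/-- the faces are bounded functions of the rounded node -/
structure RndH (I : Ins k N n P Ξ) (s0 : V k) (h : ℕ) : Prop where
  leA : ∀ e g a x ξ z, |I.FA e g a x ξ z| ≤ 1
  leB : ∀ e g b x ξ z, |I.FB e g b x ξ z| ≤ 1
  rndA : ∀ e y y', rnd s0 h e y = rnd s0 h e y' → I.FA e y = I.FA e y'
  rndB : ∀ e y y', rnd s0 h e y = rnd s0 h e y' → I.FB e y = I.FB e y'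

variable {I}

/-- AT A MICRO NODE -/
theorem cold_at (hv : ∀ ξ, 0 ≤ I.wx ξ) (hN : N ≤ k) {s δ ρ : ℝ} (hs : 0 < s) (hδ0 : 0 ≤ δ)
    (hδ : ρ ≤ (s ^ (2 * I.q) * δ) ^ (2 ^ n)) (t : ℕ) (ν : Nd k n) (a b : P × V k)
    {H : Fin n → (Fin n → P × V k) → V k → ℝ} (hH : ∀ i x z, |H i x z| ≤ 1)
    (hI : ∀ i x y, (∀ j, j ≠ i → x j = y j) → ∀ z, H i x z = H i y z) (hK : I.K t ν a b ≤ ρ) :
    pm (wU (I.cc t) ν) (fun x => ∑ ξ, I.wx ξ * ind (s ≤ |av (I.cc t).1 ν.1.1 (fun z =>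
      I.ver I.FA t ν a x ξ z * I.ver I.FB t ν b x ξ z * ∏ i, H i x z)|)) ≤ δ :=
  gfrac (k := k) ((cf_fst_le _ _ _).trans hN) (fun i => (cf_snd_le _ _ _ i).trans hN) hv ν hH hI hs hδ0 hK hδ

/-- NODE FORM, every micro time -/
theorem cold_node (hv : ∀ ξ, 0 ≤ I.wx ξ) (hN : N ≤ k) {s0 : V k} {h : ℕ} (hR : I.RndH s0 h) {H : Tst k n P}
    (hH : TstH s0 h H) {s δ : ℝ} (hs : 0 < s) (hδ0 : 0 ≤ δ) (hδ : 2 * I.r ≤ (s ^ (2 * I.q) * δ) ^ (2 ^ n)) (t : ℕ)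
    {Q : ℕ} (hQ : ∑ i, 2 ^ (I.cc t).2 i ≤ Q * 2 ^ ((I.cc t).1 - h)) (ω0 : S2 k N n P) :
    (Pu k N n P).ce (Zs (I.cc t)) (fun ω => ∑ ξ, I.wx ξ * ind (s + 4 * ((2 : ℝ) ^ h)⁻¹ ≤ |I.val H t ω ξ| ∧
      ¬ 2 * I.r ≤ I.K t (I.nu t ω) (va ω) (vb ω))) ω0 ≤ (Q + 1) * δ :=
  node_form (c := I.cc t) ((cf_fst_le _ _ _).trans hN) (fun i => (cf_snd_le _ _ _ i).trans hN) hv (rnd s0 h (I.cc t).1)
    (f := fun y a b x ξ z => I.FA (I.cc t).1 y a x ξ z * I.FB (I.cc t).1 y b x ξ z)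
    (H := fun i y a b x z => H i (I.cc t).1 y a b x z)
    (fun y a b x ξ z => by
      rw [abs_mul]
      exact mul_le_one₀ (hR.leA _ _ _ _ _ _) (abs_nonneg _) (hR.leB _ _ _ _ _ _))
    (fun y y' hy => by rw [hR.rndA _ _ _ hy, hR.rndB _ _ _ hy])
    (fun i y a b x z => hH.le _ _ _ _ _ _ _) (fun i y y' hy => by rw [hH.rnd _ _ _ _ hy])
    (fun i y a b x x' hx z => hH.mis _ _ _ _ _ _ _ hx z)
    (fun y y' hy φ hφ => rnd_win s0 h _ y y' hy φ hφ) hs hδ0 hδ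
    (fun ω hω => (not_le.mp hω).le) ω0 (opts_Zs ((cf_fst_le _ _ _).trans hN) hQ s0 ω0)

/-- NATURAL FORM, every micro time -/
theorem cold_nat (hv : ∀ ξ, 0 ≤ I.wx ξ) (hN : N ≤ k) {s0 : V k} {h : ℕ} (hR : I.RndH s0 h) {H : Tst k n P}
    (hH : TstH s0 h H) {s δ : ℝ} (hs : 0 < s) (hδ0 : 0 ≤ δ) (hδ : 2 * I.r ≤ (s ^ (2 * I.q) * δ) ^ (2 ^ n)) (t : ℕ)
    {h0 : Fin n} (hs0 : (I.cc t).2 h0 ≤ (I.cc t).1) {Q : ℕ}
    (hQ : ∑ i ∈ univ.erase h0, 2 ^ (I.cc t).2 i ≤ Q * 2 ^ ((I.cc t).1 - h)) (ω0 : S2 k N n P) :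
    (Pu k N n P).ce (Ns (I.cc t) h0) (fun ω => ∑ ξ, I.wx ξ * ind (s + 4 * ((2 : ℝ) ^ h)⁻¹ ≤ |I.val H t ω ξ| ∧
      ¬ 2 * I.r ≤ I.K t (I.nu t ω) (va ω) (vb ω))) ω0 ≤ 2 * ((Q + 1) * δ) :=
  nat_form (c := I.cc t) (cf_fst_le _ _ _) hN (fun i => (cf_snd_le _ _ _ i).trans hN) hs0 hv (rnd s0 h (I.cc t).1)
    (f := fun y a b x ξ z => I.FA (I.cc t).1 y a x ξ z * I.FB (I.cc t).1 y b x ξ z)
    (H := fun i y a b x z => H i (I.cc t).1 y a b x z)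
    (fun y a b x ξ z => by
      rw [abs_mul]
      exact mul_le_one₀ (hR.leA _ _ _ _ _ _) (abs_nonneg _) (hR.leB _ _ _ _ _ _))
    (fun y y' hy => by rw [hR.rndA _ _ _ hy, hR.rndB _ _ _ hy])
    (fun i y a b x z => hH.le _ _ _ _ _ _ _) (fun i y y' hy => by rw [hH.rnd _ _ _ _ hy])
    (fun i y a b x x' hx z => hH.mis _ _ _ _ _ _ _ hx z)
    (fun y y' hy φ hφ => rnd_win s0 h _ y y' hy φ hφ) hs hδ0 hδ
    (fun ω hω => (not_le.mp hω).le) ω0 (opts_Ns ((cf_fst_le _ _ _).trans hN) hQ s0 ω0)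

/-- hot until the full time `t` -/
def hot (I : Ins k N n P Ξ) (t : ℕ) (ω : S2 k N n P) : Prop :=
  ∃ t' ≤ (n + 1) * t, 2 * I.r ≤ I.K t' (I.nu t' ω) (va ω) (vb ω)

/-- **C2.6**: all full times, natural view of any hidden vertex `h0` -/
theorem cold_all (hv : ∀ ξ, 0 ≤ I.wx ξ) (hv1 : ∑ ξ, I.wx ξ = 1) (hN : N ≤ k) {s0 : V k} {h : ℕ} (hR : I.RndH s0 h)
    (hhh : h ≤ I.hh) {H : Tst k n P} (hH : TstH s0 h H) {s δ ρ : ℝ} (hs : 0 < s) (hδ0 : 0 ≤ δ)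
    (hδ : 2 * I.r ≤ (s ^ (2 * I.q) * δ) ^ (2 ^ n)) (hρ : 2 * ((n + 1) * δ) < ρ / 2) (h0 : Fin n) :
    ρ / 2 * (Pu k N n P).Pr (fun ω => ∃ t ≤ N, ρ ≤ (Pu k N n P).ce (nv I.hh h0 t) (fun ω' => ∑ ξ, I.wx ξ *
      ind (s + 4 * ((2 : ℝ) ^ h)⁻¹ ≤ |I.val H ((n + 1) * t) ω' ξ|)) ω) ≤ (Pu k N n P).Pr (I.hot N) := by
  have h1 := (Pu k N n P).doob_inc (filt_nv (k := k) (N := N) (P := P) I.hh h0) (D := I.hot)
    (fun t w _ hw => by
      obtain ⟨t', ht', h2⟩ := hw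
      exact ⟨t', ht'.trans (Nat.mul_le_mul_left _ (Nat.le_succ t)), h2⟩) N (ρ / 2)
  refine le_trans (mul_le_mul_of_nonneg_left (FP.Pr_mono _ fun ω _ hω => ?_) ?_) h1
  · obtain ⟨t, ht, h2⟩ := hω
    refine ⟨t, ht, ?_⟩
    have hcc : I.cc ((n + 1) * t) = (N - t, fun _ => N - t - I.hh) := cf_macro _ _ _
    have hnat := cold_nat hv hN hR hH hs hδ0 hδ ((n + 1) * t) (h0 := h0) (by rw [hcc]; exact Nat.sub_le _ _) (Q := n) (by
      rw [hcc]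
      simp only
      calc ∑ i ∈ univ.erase h0, 2 ^ (N - t - I.hh) ≤ ∑ _i : Fin n, 2 ^ (N - t - I.hh) :=
            Finset.sum_le_sum_of_subset (Finset.subset_univ _)
        _ = n * 2 ^ (N - t - I.hh) := by rw [Finset.sum_const, Finset.card_univ, Fintype.card_fin, smul_eq_mul]
        _ ≤ n * 2 ^ (N - t - h) := Nat.mul_le_mul_left _ (Nat.pow_le_pow_right (by norm_num) (by omega))) ω
    have hns : Ns (k := k) (N := N) (P := P) (I.cc ((n + 1) * t)) h0 = nv I.hh h0 t := by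
      rw [hcc]
      rfl
    rw [hns] at hnat
    -- the conditional probability of the hot points
    have h3 : (Pu k N n P).ce (nv I.hh h0 t) (fun ω' => ∑ ξ, I.wx ξ *
        ind (s + 4 * ((2 : ℝ) ^ h)⁻¹ ≤ |I.val H ((n + 1) * t) ω' ξ|)) ω ≤
        (Pu k N n P).ce (nv I.hh h0 t) (fun ω' => ind (I.hot t ω') + ∑ ξ, I.wx ξ *
          ind (s + 4 * ((2 : ℝ) ^ h)⁻¹ ≤ |I.val H ((n + 1) * t) ω' ξ| ∧
          ¬ 2 * I.r ≤ I.K ((n + 1) * t) (I.nu ((n + 1) * t) ω') (va ω') (vb ω'))) ω := by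
      refine FP.ce_mono _ (fun ω' _ => ?_) ω
      by_cases h4 : 2 * I.r ≤ I.K ((n + 1) * t) (I.nu ((n + 1) * t) ω') (va ω') (vb ω')
      · have h5 : I.hot t ω' := ⟨(n + 1) * t, le_rfl, h4⟩
        rw [ind_of h5]
        have h6 : ∑ ξ, I.wx ξ * ind (s + 4 * ((2 : ℝ) ^ h)⁻¹ ≤ |I.val H ((n + 1) * t) ω' ξ|) ≤ ∑ ξ, I.wx ξ :=
          Finset.sum_le_sum fun ξ _ => mul_le_of_le_one_right (hv ξ) (ind_le_one _)
        have h7 : 0 ≤ ∑ ξ, I.wx ξ * ind (s + 4 * ((2 : ℝ) ^ h)⁻¹ ≤ |I.val H ((n + 1) * t) ω' ξ| ∧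
          ¬ 2 * I.r ≤ I.K ((n + 1) * t) (I.nu ((n + 1) * t) ω') (va ω') (vb ω')) :=
          Finset.sum_nonneg fun ξ _ => mul_nonneg (hv ξ) (ind_nonneg _)
        linarith
      · have h5 := ind_nonneg (I.hot t ω')
        have h6 : ∑ ξ, I.wx ξ * ind (s + 4 * ((2 : ℝ) ^ h)⁻¹ ≤ |I.val H ((n + 1) * t) ω' ξ|) ≤
            ∑ ξ, I.wx ξ * ind (s + 4 * ((2 : ℝ) ^ h)⁻¹ ≤ |I.val H ((n + 1) * t) ω' ξ| ∧
            ¬ 2 * I.r ≤ I.K ((n + 1) * t) (I.nu ((n + 1) * t) ω') (va ω') (vb ω')) :=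
          Finset.sum_le_sum fun ξ _ => mul_le_mul_of_nonneg_left (ind_mono fun h7 => ⟨h7, h4⟩) (hv ξ)
        linarith
    rw [FP.ce_add] at h3
    linarith
  · have h8 : 0 ≤ 2 * (((n : ℝ) + 1) * δ) := by positivity
    linarith

end Ins

end

end Pool.Agent.GMC
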