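import Pool.Agent.M3.Rec

/-!
# GMC.Ent: the entropy of the splits (C2.2 (c) of row C, general m; text of helper94)

Abstract form over a finite probability space.  `Nn` = the full micro path (in particular the node), `L k` = the class
of the hidden point after `k` splits, `C` = the cell of the hidden point in one grid.  A split is a finite family of
events `s k i` (the point enters the part which is cut off; `i` = node and class), each contained in an event `c k i`
which is decided by a map `Q k` coarser than `(Nn, L k, C)` (for the splits inherited from a smaller depth `Q k`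
contains the class of the smaller depth only), and `Pr (c k i) <= exp h * Pr (s k i)` (`exp h = 1 / x`, because
`|P''| > x |P cap N(alpha)|` and the cells which meet `alpha` lie in `N(alpha)`).

* `chain_le` : entropy of several refinements, each one given the finest information available before it;
* `block_le` : `H(L n | Nn, L 0, C) <= (1 + h) * sum_(k < n) sum_i Pr (s k i)`;
* `start_le` : the same when `L 0` is a function of `(Nn, C)` (trivial class at the start);
* `pr_ratio` : the density hypothesis when the hidden point is uniform and independent of the path.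
-/

set_option autoImplicit false
set_option linter.unusedSectionVars false

namespace Pool.Agent.GMC

open Finset Pool.Agent.PWZ Pool.Agent.M3

variable {Om : Type*} [Fintype Om] (P : FP Om)

/-- entropy of several refinements -/
theorem chain_le {κ ν γ : Type*} (Nn : Om → ν) (C : Om → γ) (L : ℕ → Om → κ) (n : ℕ) :
    P.Hc (L n) (fun w => (Nn w, L 0 w, C w)) ≤
      ∑ k ∈ range n, P.Hc (L (k + 1)) (fun w => (Nn w, L k w, C w)) := by
  induction n with
  | zero =>
    rw [sum_range_zero]
    have h := P.Hc_mono (X := fun _ => ()) (X' := L 0) (fun w => (Nn w, L 0 w, C w))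
      (fun v w h => by simp only [Prod.mk.injEq] at h; exact h.2.2.1)
    have h2 : P.Hc (fun _ : Om => ()) (fun w => (Nn w, L 0 w, C w)) ≤ 0 := by
      have h3 := P.Hc_le_H (fun _ : Om => ()) (fun w => (Nn w, L 0 w, C w))
      rw [P.H_const] at h3
      exact h3
    exact h.trans h2
  | succ n ih =>
    rw [sum_range_succ]
    set Z : Om → ν × κ × γ := fun w => (Nn w, L 0 w, C w) with hZ
    have h1 : P.Hc (L (n + 1)) Z ≤ P.Hc (fun w => (L (n + 1) w, L n w)) Z :=
      P.Hc_mono Z (fun v w h => by simp only [Prod.mk.injEq] at h; exact h.1.1)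
    rw [P.Hc_chain] at h1
    have h2 : P.Hc (L (n + 1)) (fun w => (L n w, Z w)) ≤ P.Hc (L (n + 1)) (fun w => (Nn w, L n w, C w)) :=
      P.Hc_anti _ (fun v w h => by
        simp only [hZ, Prod.mk.injEq] at h ⊢
        exact ⟨h.2.1, h.1, h.2.2.2⟩)
    linarith

/-- one split: several classes and nodes are treated at the same time -/
theorem split_le {κ ν γ μ α : Type*} {Nn : Om → ν} {C : Om → γ} {L L' : Om → κ} {Q : Om → μ} (I : Finset α)
    {s c : α → Om → Prop} {h : ℝ} (hQ : Fac (fun w => (Nn w, L w, C w)) Q)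
    (hL : Fac (fun w => ((fun i : I => s i w), Nn w, L w, C w)) L')
    (hc : ∀ i ∈ I, ∀ v w, Q v = Q w → (c i v ↔ c i w)) (hsc : ∀ i ∈ I, ∀ w, P.p w ≠ 0 → s i w → c i w)
    (hh : ∀ i ∈ I, P.Pr (c i) ≤ Real.exp h * P.Pr (s i)) :
    P.Hc L' (fun w => (Nn w, L w, C w)) ≤ (1 + h) * ∑ i ∈ I, P.Pr (s i) :=
  P.Hc_births_le I hQ hL hc hsc hh

/-- the entropy of a block of splits, given the class before the block and the (smaller) cell -/
theorem block_le {κ ν γ μ α : Type*} {Nn : Om → ν} {C : Om → γ} {L : ℕ → Om → κ} {Q : ℕ → Om → μ}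
    (I : ℕ → Finset α) {s c : ℕ → α → Om → Prop} {h : ℝ} (n : ℕ)
    (hQ : ∀ k < n, Fac (fun w => (Nn w, L k w, C w)) (Q k))
    (hL : ∀ k < n, Fac (fun w => ((fun i : I k => s k i w), Nn w, L k w, C w)) (L (k + 1)))
    (hc : ∀ k < n, ∀ i ∈ I k, ∀ v w, Q k v = Q k w → (c k i v ↔ c k i w))
    (hsc : ∀ k < n, ∀ i ∈ I k, ∀ w, P.p w ≠ 0 → s k i w → c k i w)
    (hh : ∀ k < n, ∀ i ∈ I k, P.Pr (c k i) ≤ Real.exp h * P.Pr (s k i)) :
    P.Hc (L n) (fun w => (Nn w, L 0 w, C w)) ≤ (1 + h) * ∑ k ∈ range n, ∑ i ∈ I k, P.Pr (s k i) := by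
  refine (chain_le P Nn C L n).trans ?_
  rw [mul_sum]
  refine sum_le_sum (fun k hk => ?_)
  have hk' := mem_range.mp hk
  exact split_le P (I k) (hQ k hk') (hL k hk') (hc k hk') (hsc k hk') (hh k hk')

/-- the first block: the class before it is a function of path and cell -/
theorem start_le {κ ν γ μ α : Type*} {Nn : Om → ν} {C : Om → γ} {L : ℕ → Om → κ} {Q : ℕ → Om → μ}
    (I : ℕ → Finset α) {s c : ℕ → α → Om → Prop} {h : ℝ} (n : ℕ)
    (h0 : Fac (fun w => (Nn w, C w)) (L 0))
    (hQ : ∀ k < n, Fac (fun w => (Nn w, L k w, C w)) (Q k))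
    (hL : ∀ k < n, Fac (fun w => ((fun i : I k => s k i w), Nn w, L k w, C w)) (L (k + 1)))
    (hc : ∀ k < n, ∀ i ∈ I k, ∀ v w, Q k v = Q k w → (c k i v ↔ c k i w))
    (hsc : ∀ k < n, ∀ i ∈ I k, ∀ w, P.p w ≠ 0 → s k i w → c k i w)
    (hh : ∀ k < n, ∀ i ∈ I k, P.Pr (c k i) ≤ Real.exp h * P.Pr (s k i)) :
    P.Hc (L n) (fun w => (Nn w, C w)) ≤ (1 + h) * ∑ k ∈ range n, ∑ i ∈ I k, P.Pr (s k i) := by
  have h1 : P.Hc (L n) (fun w => (Nn w, C w)) = P.Hc (L n) (fun w => (Nn w, L 0 w, C w)) := by
    refine P.Hc_congr (Fac.fst _ _) ?_ (Fac.fst _ _) ?_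
    · intro v w h
      have h2 := h0 v w h
      simp only [Prod.mk.injEq] at h ⊢
      exact ⟨h.1, h2, h.2⟩
    · intro v w h
      simp only [Prod.mk.injEq] at h ⊢
      exact ⟨h.1, h.2.2⟩
  rw [h1]
  exact block_le P I n hQ hL hc hsc hh

/-- monotonicity in the depth: the weights `h = log (1 / x)` grow with the depth -/
theorem rate_mono {s c : Om → Prop} {h h' : ℝ} (hle : h ≤ h') (hh : P.Pr c ≤ Real.exp h * P.Pr s) :
    P.Pr c ≤ Real.exp h' * P.Pr s :=
  hh.trans (mul_le_mul_of_nonneg_right (Real.exp_le_exp.mpr hle) (P.Pr_nonneg s))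

/-- the density hypothesis in the model: `a` is uniform on `V` and independent of the node `nd` -/
theorem pr_ratio {V κ : Type*} [Fintype V] {a : Om → V} {nd : Om → κ} {q : κ}
    (hind : ∀ v : V, P.Pr (fun w => nd w = q ∧ a w = v) = P.Pr (fun w => nd w = q) / Fintype.card V)
    {S T : Finset V} {x : ℝ} (hx : 0 < x) (hST : x * (T.card : ℝ) ≤ S.card) :
    P.Pr (fun w => nd w = q ∧ a w ∈ T) ≤ Real.exp (Real.log (1 / x)) * P.Pr (fun w => nd w = q ∧ a w ∈ S) := by
  classical
  have key : ∀ R : Finset V, P.Pr (fun w => nd w = q ∧ a w ∈ R) =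
      R.card * (P.Pr (fun w => nd w = q) / Fintype.card V) := by
    intro R
    have h1 : P.Pr (fun w => nd w = q ∧ a w ∈ R) = ∑ v ∈ R, P.Pr (fun w => nd w = q ∧ a w = v) := by
      unfold FP.Pr
      rw [← P.E_sum]
      refine P.E_congr (fun w _ => ?_)
      by_cases hq : nd w = q
      · by_cases hR : a w ∈ R
        · rw [ind_of ⟨hq, hR⟩, sum_eq_single_of_mem (a w) hR]
          · rw [ind_of ⟨hq, rfl⟩]
          · intro b _ hb
            exact ind_not (fun h => hb h.2.symm)
        · rw [ind_not (fun h => hR h.2)]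
          refine (sum_eq_zero (fun b hb => ?_)).symm
          exact ind_not (fun h => hR (by rw [h.2]; exact hb))
      · rw [ind_not (fun h => hq h.1)]
        exact (sum_eq_zero (fun b _ => ind_not (fun h => hq h.1))).symm
    rw [h1, sum_congr rfl (fun v _ => hind v), sum_const, nsmul_eq_mul]
  rw [key, key, Real.exp_log (by positivity)]
  have h2 : 0 ≤ P.Pr (fun w => nd w = q) / Fintype.card V := div_nonneg (P.Pr_nonneg _) (Nat.cast_nonneg _)
  have h3 : (T.card : ℝ) ≤ 1 / x * S.card := by
    rw [one_div, inv_mul_eq_div, le_div_iff₀ hx]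
    linarith
  calc (T.card : ℝ) * (P.Pr (fun w => nd w = q) / Fintype.card V)
      ≤ 1 / x * S.card * (P.Pr (fun w => nd w = q) / Fintype.card V) := mul_le_mul_of_nonneg_right h3 h2
    _ = 1 / x * (S.card * (P.Pr (fun w => nd w = q) / Fintype.card V)) := by ring

end Pool.Agent.GMC
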