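import Pool.Agent.GMC.Cls
import Pool.Agent.GMC.Ent

/-!
# GMC.ClsDyn: the classes along the path of the nodes (C2.2 of row C, general m)

`CSys V E Nd` = the data at all nodes: parents, vectors, small cells, neighbourhoods (functions of time and node), densities
`x j`, accuracies `eps j`, maximal depth `L`.  At every node the rule is applied to the state of the parent, in
`nm` slots.  `Y.st t ν` = SATURATED state at the node `ν` of the time `t`; `Y.pre t ν` = state of the parent;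
`Y.sl t ν s` = state after `s` slots; `Y.J t ν s`, `Y.TT t ν s` = depth and set of the split of the slot (`∅` if there is none).

NODE FACTS: `good_st`, `sat`, `sub_pre` (refinement), `stay_eq`, `cont` (non entering points), `ent k t ν a` = `a` enters at a split of depth `≤ k` of this node,
`own j`, `nent k` = numbers of entries, `rem k` = sum of the relative removals, `move` : non entering points move by
`≤ 2 rem`, `sum_rem`, `energy_node`.

PATH FACTS over a finite probability space, `Hyp` = the point `a` is uniform and independent of the node, energy hypothesis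
between the nodes: `own_le`, `nent_le`, `ent_le`, `rem_le` : all sums over the times are `≤ Nk k = ∑_(j≤k) (1 + cost) / eps_j^2`;
`ent_block`, `ent_start` : entropies of the classes `≤ (1 + log (1/x_k)) * (mean number of entries)`.
-/

set_option autoImplicit false
set_option linter.unusedSectionVars false

namespace Pool.Agent.GMC

open Finset Pool.Agent.PWZ Pool.Agent.M3

noncomputable section

/-- the data at all nodes -/
structure CSys (V E Nd : Type*) where
  /-- parent (node of the time `t`) of a node of the time `t + 1` -/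
  par : ℕ → Nd → Nd
  /-- vectors -/
  vec : ℕ → Nd → V → E
  /-- small cells -/
  al : ℕ → Nd → V → Finset V
  /-- neighbourhoods -/
  nb : ℕ → Nd → V → Finset V
  /-- densities -/
  x : ℕ → ℝ
  /-- accuracies -/
  eps : ℕ → ℝ
  /-- maximal depth -/
  L : ℕ

namespace CSys

variable {V : Type*} [Fintype V] [DecidableEq V] {E : Type*} [NormedAddCommGroup E] [InnerProductSpace ℝ E] {Nd : Type*}

/-- the data of the rule at one node -/
def dat (Y : CSys V E Nd) (t : ℕ) (ν : Nd) : Dat V E := ⟨Y.vec t ν, Y.al t ν, Y.nb t ν, Y.x, Y.eps, Y.L⟩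

/-- number of slots -/
def nm (Y : CSys V E Nd) : ℕ := nmax V Y.L

/-- the trivial state -/
def triv : St V := fun _ _ => univ

theorem good_triv : Good (triv : St V) := ⟨fun _ a => mem_univ a, fun _ _ _ _ => rfl, fun _ _ => subset_rfl⟩

/-- the saturated state at a node -/
def st (Y : CSys V E Nd) : ℕ → Nd → St V
  | 0, ν => (nxt (Y.dat 0 ν))^[nmax V Y.L] triv
  | t + 1, ν => (nxt (Y.dat (t + 1) ν))^[nmax V Y.L] (Y.st t (Y.par t ν))

/-- the state before the rule is applied at the node -/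
def pre (Y : CSys V E Nd) : ℕ → Nd → St V
  | 0, _ => triv
  | t + 1, ν => Y.st t (Y.par t ν)

/-- the state after `s` slots -/
def sl (Y : CSys V E Nd) (t : ℕ) (ν : Nd) (s : ℕ) : St V := (nxt (Y.dat t ν))^[s] (Y.pre t ν)

/-- depth of the split of the slot -/
def J (Y : CSys V E Nd) (t : ℕ) (ν : Nd) (s : ℕ) : ℕ := cj (Y.dat t ν) (Y.sl t ν s)

/-- set of the split of the slot -/
def TT (Y : CSys V E Nd) (t : ℕ) (ν : Nd) (s : ℕ) : Finset V := cT (Y.dat t ν) (Y.sl t ν s)

variable (Y : CSys V E Nd)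

theorem sl_zero (t : ℕ) (ν : Nd) : Y.sl t ν 0 = Y.pre t ν := rfl

theorem sl_succ (t : ℕ) (ν : Nd) (s : ℕ) : Y.sl t ν (s + 1) = spl (Y.sl t ν s) (Y.J t ν s) (Y.TT t ν s) := by
  unfold sl J TT sl
  rw [Function.iterate_succ_apply']
  rfl

theorem st_eq (t : ℕ) (ν : Nd) : Y.st t ν = Y.sl t ν Y.nm := by
  cases t <;> rfl

theorem good_st (t : ℕ) (ν : Nd) : Good (Y.st t ν) := by
  induction t generalizing ν with
  | zero => exact good_triv.iter _ _
  | succ t ih => exact (ih _).iter _ _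

theorem good_pre (t : ℕ) (ν : Nd) : Good (Y.pre t ν) := by
  cases t with
  | zero => exact good_triv
  | succ t => exact Y.good_st t _

theorem good_sl (t : ℕ) (ν : Nd) (s : ℕ) : Good (Y.sl t ν s) := (Y.good_pre t ν).iter _ _

/-- SATURATION at all nodes -/
theorem sat (hx : ∀ j, 0 ≤ Y.x j) (he : ∀ j, 0 < Y.eps j) (t : ℕ) (ν : Nd) : Sat (Y.dat t ν) (Y.st t ν) := by
  cases t with
  | zero => exact iter_sat (D := Y.dat 0 ν) hx he good_triv
  | succ t => exact iter_sat (D := Y.dat (t + 1) ν) hx he (Y.good_st t _)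

theorem sl_sub (t : ℕ) (ν : Nd) (s k : ℕ) (a : V) : Y.sl t ν s k a ⊆ Y.pre t ν k a := by
  induction s with
  | zero => exact subset_rfl
  | succ s ih => rw [sl_succ]; exact (spl_sub _ _ _ k a).trans ih

/-- refinement along the path -/
theorem sub_pre (t : ℕ) (ν : Nd) (k : ℕ) (a : V) : Y.st t ν k a ⊆ Y.pre t ν k a := by
  rw [st_eq]; exact Y.sl_sub t ν _ k a

theorem sub_par (t : ℕ) (ν : Nd) (k : ℕ) (a : V) : Y.st (t + 1) ν k a ⊆ Y.st t (Y.par t ν) k a :=
  Y.sub_pre (t + 1) ν k a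

/-! ## entries and removals at a node -/

/-- `a` enters at a split of depth `≤ k` of the node -/
def ent (k t : ℕ) (ν : Nd) (a : V) : Prop := ∃ s < Y.nm, Y.J t ν s ≤ k ∧ a ∈ Y.TT t ν s

/-- number of entries of depth `j` -/
def own (j t : ℕ) (ν : Nd) (a : V) : ℝ := ∑ s ∈ range Y.nm, if Y.J t ν s = j ∧ a ∈ Y.TT t ν s then 1 else 0

/-- number of entries of depth `≤ k` -/
def nent (k t : ℕ) (ν : Nd) (a : V) : ℝ := ∑ s ∈ range Y.nm, if Y.J t ν s ≤ k ∧ a ∈ Y.TT t ν s then 1 else 0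

/-- sum of the relative removals from the class of depth `k` -/
def rem (k t : ℕ) (ν : Nd) (a : V) : ℝ :=
  ∑ s ∈ range Y.nm, if Y.J t ν s ≤ k then lam (Y.sl t ν s) (Y.TT t ν s) k a else 0

theorem own_nonneg (j t : ℕ) (ν : Nd) (a : V) : 0 ≤ Y.own j t ν a :=
  sum_nonneg (fun s _ => by split_ifs <;> norm_num)

theorem nent_nonneg (k t : ℕ) (ν : Nd) (a : V) : 0 ≤ Y.nent k t ν a :=
  sum_nonneg (fun s _ => by split_ifs <;> norm_num)

theorem rem_nonneg (k t : ℕ) (ν : Nd) (a : V) : 0 ≤ Y.rem k t ν a :=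
  sum_nonneg (fun s _ => by
    split_ifs
    · exact lam_nonneg _ _ _ _
    · exact le_rfl)

theorem nent_eq (k t : ℕ) (ν : Nd) (a : V) : Y.nent k t ν a = ∑ j ∈ range (k + 1), Y.own j t ν a := by
  unfold nent own
  rw [sum_comm]
  refine sum_congr rfl (fun s _ => ?_)
  by_cases h : Y.J t ν s ≤ k ∧ a ∈ Y.TT t ν s
  · rw [if_pos h, sum_eq_single_of_mem (Y.J t ν s) (mem_range.mpr (by omega))]
    · rw [if_pos ⟨rfl, h.2⟩]
    · intro j _ hj
      rw [if_neg (fun h' => hj h'.1.symm)]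
  · rw [if_neg h]
    refine (sum_eq_zero (fun j hj => ?_)).symm
    rw [if_neg]
    rintro ⟨h1, h2⟩
    have := mem_range.mp hj
    exact h ⟨by omega, h2⟩

theorem one_le_nent {k t : ℕ} {ν : Nd} {a : V} (h : Y.ent k t ν a) : 1 ≤ Y.nent k t ν a := by
  obtain ⟨s, hs, h1⟩ := h
  unfold nent
  refine le_trans ?_ (single_le_sum (f := fun s => if Y.J t ν s ≤ k ∧ a ∈ Y.TT t ν s then (1 : ℝ) else 0)
    (fun s _ => by split_ifs <;> norm_num) (mem_range.mpr hs))
  rw [if_pos h1]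

theorem ent_mono {k l t : ℕ} (hkl : k ≤ l) {ν : Nd} {a : V} (h : Y.ent k t ν a) : Y.ent l t ν a := by
  obtain ⟨s, hs, h1, h2⟩ := h
  exact ⟨s, hs, h1.trans hkl, h2⟩

/-- the removals sum up to the entries -/
theorem sum_rem (k t : ℕ) (ν : Nd) : ∑ a, Y.rem k t ν a = ∑ a, Y.nent k t ν a := by
  unfold rem nent
  rw [sum_comm, sum_comm (s := univ)]
  refine sum_congr rfl (fun s _ => ?_)
  by_cases h : Y.J t ν s ≤ k
  · simp only [h, if_true, true_and]
    rw [sum_lam (Y.good_sl t ν s), ← sum_filter]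
    simp
  · simp only [h, if_false, false_and]

open Classical in
/-- the class of a point which does not enter = the non entering points of the old class -/
theorem stay_eq {k t : ℕ} {ν : Nd} {a : V} (h : ¬ Y.ent k t ν a) :
    Y.st t ν k a = (Y.pre t ν k a).filter fun u => ¬ Y.ent k t ν u := by
  have key : ∀ n ≤ Y.nm, Y.sl t ν n k a =
      (Y.pre t ν k a).filter fun u => ¬ ∃ s < n, Y.J t ν s ≤ k ∧ u ∈ Y.TT t ν s := by
    intro n
    induction n with
    | zero =>
      intro _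
      rw [sl_zero]
      ext u
      simp
    | succ n ih =>
      intro hn
      have h1 := ih (by omega)
      rw [sl_succ]
      by_cases hJ : Y.J t ν n ≤ k
      · rw [spl_notMem hJ (fun ha => h ⟨n, by omega, hJ, ha⟩), h1]
        ext u
        simp only [mem_sdiff, mem_filter]
        constructor
        · rintro ⟨⟨h2, h3⟩, h4⟩
          refine ⟨h2, ?_⟩
          rintro ⟨s, hs, h5, h6⟩
          rcases Nat.lt_succ_iff_lt_or_eq.mp hs with h7 | h7
          · exact h3 ⟨s, h7, h5, h6⟩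
          · rw [h7] at h6; exact h4 h6
        · rintro ⟨h2, h3⟩
          exact ⟨⟨h2, fun ⟨s, hs, h5⟩ => h3 ⟨s, by omega, h5⟩⟩, fun h4 => h3 ⟨n, by omega, hJ, h4⟩⟩
      · rw [spl_of_lt (not_le.mp hJ), h1]
        ext u
        simp only [mem_filter]
        refine and_congr_right (fun _ => not_congr ?_)
        constructor
        · rintro ⟨s, hs, h5⟩
          exact ⟨s, by omega, h5⟩
        · rintro ⟨s, hs, h5, h6⟩
          rcases Nat.lt_succ_iff_lt_or_eq.mp hs with h7 | h7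
          · exact ⟨s, h7, h5, h6⟩
          · rw [h7] at h5; exact absurd h5 hJ
  rw [st_eq, key Y.nm le_rfl]
  ext u
  simp only [mem_filter]
  exact Iff.rfl

/-- without an entry the new class is determined by the old class (and the node) -/
theorem cont {k t : ℕ} {ν : Nd} {a b : V} (hab : Y.pre t ν k a = Y.pre t ν k b) (ha : ¬ Y.ent k t ν a)
    (hb : ¬ Y.ent k t ν b) : Y.st t ν k a = Y.st t ν k b := by
  rw [Y.stay_eq ha, Y.stay_eq hb, hab]

/-- the class of a point which does not enter -/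
theorem move (hv : ∀ t ν a, ‖Y.vec t ν a‖ ≤ 1) {k t : ℕ} {ν : Nd} {a : V} (h : ¬ Y.ent k t ν a) :
    ‖mn (Y.vec t ν) (Y.st t ν k a) - mn (Y.vec t ν) (Y.pre t ν k a)‖ ≤ 2 * Y.rem k t ν a := by
  rw [st_eq]
  unfold rem
  have key : ∀ n ≤ Y.nm, ‖mn (Y.vec t ν) (Y.sl t ν n k a) - mn (Y.vec t ν) (Y.pre t ν k a)‖ ≤
      2 * ∑ s ∈ range n, if Y.J t ν s ≤ k then lam (Y.sl t ν s) (Y.TT t ν s) k a else 0 := by
    intro n
    induction n with
    | zero => intro _; rw [sl_zero]; simp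
    | succ n ih =>
      intro hn
      have h1 := ih (by omega)
      rw [sum_range_succ, mul_add]
      have h2 : ‖mn (Y.vec t ν) (Y.sl t ν (n + 1) k a) - mn (Y.vec t ν) (Y.sl t ν n k a)‖ ≤
          2 * (if Y.J t ν n ≤ k then lam (Y.sl t ν n) (Y.TT t ν n) k a else 0) := by
        rw [sl_succ]
        by_cases hJ : Y.J t ν n ≤ k
        · rw [if_pos hJ]
          exact mn_move (hv t ν) (Y.good_sl t ν n) hJ (fun ha => h ⟨n, by omega, hJ, ha⟩)
        · rw [if_neg hJ, spl_of_lt (not_le.mp hJ)]; simp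
      have h3 := norm_sub_le_norm_sub_add_norm_sub (mn (Y.vec t ν) (Y.sl t ν (n + 1) k a))
        (mn (Y.vec t ν) (Y.sl t ν n k a)) (mn (Y.vec t ν) (Y.pre t ν k a))
      linarith
  exact key Y.nm le_rfl

/-- energy at a node -/
theorem energy_node (hx : ∀ j, 0 ≤ Y.x j) (he : ∀ j, 0 < Y.eps j) (j t : ℕ) (ν : Nd) :
    eng (Y.vec t ν) (Y.pre t ν j) + Y.eps j ^ 2 * ∑ a, Y.own j t ν a ≤ eng (Y.vec t ν) (Y.st t ν j) := by
  rw [st_eq]
  unfold own
  rw [sum_comm]
  have key : ∀ n ≤ Y.nm, eng (Y.vec t ν) (Y.pre t ν j) + Y.eps j ^ 2 *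
      ∑ s ∈ range n, ∑ a, (if Y.J t ν s = j ∧ a ∈ Y.TT t ν s then (1 : ℝ) else 0) ≤
        eng (Y.vec t ν) (Y.sl t ν n j) := by
    intro n
    induction n with
    | zero => intro _; rw [sl_zero]; simp
    | succ n ih =>
      intro hn
      have h1 := ih (by omega)
      rw [sum_range_succ, mul_add]
      have h2 : eng (Y.vec t ν) (Y.sl t ν n j) + Y.eps j ^ 2 *
          ∑ a, (if Y.J t ν n = j ∧ a ∈ Y.TT t ν n then (1 : ℝ) else 0) ≤
            eng (Y.vec t ν) (Y.sl t ν (n + 1) j) := by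
        by_cases hJ : Y.J t ν n = j
        · rw [sl_succ]
          simp only [hJ, true_and]
          rw [← sum_filter]
          simp only [sum_const, nsmul_eq_mul, mul_one]
          have hf : univ.filter (fun a => a ∈ Y.TT t ν n) = Y.TT t ν n := by ext a; simp
          rw [hf]
          rcases cho_cases (Y.dat t ν) (Y.sl t ν n) with h3 | h3
          · have h4 : Y.TT t ν n = ∅ := h3
            rw [h4, card_empty, Nat.cast_zero, mul_zero, add_zero]
            have h5 : spl (Y.sl t ν n) j ∅ j = Y.sl t ν n j := by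
              funext a; unfold spl; simp
            rw [h5]
          · have h4 := energy_gain (D := Y.dat t ν) hx he (Y.good_sl t ν n) h3
            have h5 : cj (Y.dat t ν) (Y.sl t ν n) = j := hJ
            rw [h5] at h4
            have h6 : (Y.dat t ν).eps j = Y.eps j := rfl
            have h7 : (Y.dat t ν).vec = Y.vec t ν := rfl
            rw [h6, h7] at h4
            have h8 : cT (Y.dat t ν) (Y.sl t ν n) = Y.TT t ν n := rfl
            rw [h8] at h4
            linarith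
        · have h3 : ∑ a, (if Y.J t ν n = j ∧ a ∈ Y.TT t ν n then (1 : ℝ) else 0) = 0 :=
            sum_eq_zero (fun a _ => if_neg (fun h' => hJ h'.1))
          rw [h3, mul_zero, add_zero, sl_succ, energy_split _ (Y.good_sl t ν n) _ _ j]
          have := sum_nonneg (s := univ) (f := fun a =>
            ‖mn (Y.vec t ν) (spl (Y.sl t ν n) (Y.J t ν n) (Y.TT t ν n) j a) - mn (Y.vec t ν) (Y.sl t ν n j a)‖ ^ 2)
            (fun a _ => sq_nonneg _)
          linarith
      linarith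
  exact key Y.nm le_rfl

/-! ## along the path -/

section path

variable {Om : Type*} [Fintype Om]

/-- the hypotheses on the path: `a` is uniform and independent of the node, energy hypothesis between the nodes -/
structure Hyp (P : FP Om) (Y : CSys V E Nd) (T : ℕ) (a : Om → V) (nd : ℕ → Om → Nd) (cst : ℕ → Nd → V → ℝ)
    (Cp : ℝ) : Prop where
  par : ∀ t < T, ∀ w, Y.par t (nd (t + 1) w) = nd t w
  unif : ∀ t ≤ T, ∀ F : Nd → V → ℝ,
    P.E (fun w => F (nd t w) (a w)) = P.E (fun w => (Fintype.card V : ℝ)⁻¹ * ∑ v, F (nd t w) v)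
  hx : ∀ j, 0 < Y.x j
  hxa : ∀ j k, j ≤ k → Y.x k ≤ Y.x j
  he : ∀ j, 0 < Y.eps j
  hv : ∀ t ν a, ‖Y.vec t ν a‖ ≤ 1
  en : ∀ t < T, ∀ C : Finset V, C.Nonempty → ∀ w, P.p w ≠ 0 → ‖mn (Y.vec t (nd t w)) C‖ ^ 2 ≤
    P.ce (nd t) (fun w' => ‖mn (Y.vec (t + 1) (nd (t + 1) w')) C‖ ^ 2 +
      (C.card : ℝ)⁻¹ * ∑ v ∈ C, cst (t + 1) (nd (t + 1) w') v) w
  hc : ∑ t ∈ range T, P.E (fun w => cst (t + 1) (nd (t + 1) w) (a w)) ≤ Cp

theorem ce_congr_fib (P : FP Om) {κ : Type*} {X : Om → κ} {f g : Om → ℝ} (w : Om)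
    (h : ∀ v, X v = X w → f v = g v) : P.ce X f w = P.ce X g w := by
  unfold FP.ce
  congr 1
  refine P.E_congr (fun v _ => ?_)
  by_cases hv : X v = X w
  · rw [h v hv]
  · rw [ind_not hv, zero_mul, zero_mul]

/-- bound of the numbers of entries -/
def Nk (Y : CSys V E Nd) (Cp : ℝ) (k : ℕ) : ℝ := ∑ j ∈ range (k + 1), (1 + Cp) / Y.eps j ^ 2

namespace Hyp

variable {P : FP Om} {Y : CSys V E Nd} {T : ℕ} {a : Om → V} {nd : ℕ → Om → Nd} {cst : ℕ → Nd → V → ℝ} {Cp : ℝ}

theorem pre_succ (h : Hyp P Y T a nd cst Cp) {t : ℕ} (ht : t < T) (w : Om) :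
    Y.pre (t + 1) (nd (t + 1) w) = Y.st t (nd t w) := by
  show Y.st t (Y.par t (nd (t + 1) w)) = _
  rw [h.par t ht w]

theorem nonempty (_h : Hyp P Y T a nd cst Cp) : Nonempty V := by
  obtain ⟨w, _⟩ := P.exists_p_ne
  exact ⟨a w⟩

/-- ENERGY along the path, one depth -/
theorem own_le (h : Hyp P Y T a nd cst Cp) (j : ℕ) :
    Y.eps j ^ 2 * ∑ t ∈ range (T + 1), P.E (fun w => Y.own j t (nd t w) (a w)) ≤ 1 + Cp := by
  have := h.nonempty
  have hV : (0 : ℝ) < Fintype.card V := by exact_mod_cast Fintype.card_pos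
  set e : ℕ → ℝ := fun t => P.E (fun w => (Fintype.card V : ℝ)⁻¹ * eng (Y.vec t (nd t w)) (Y.st t (nd t w) j)) with he
  set e' : ℕ → ℝ := fun t => P.E (fun w => (Fintype.card V : ℝ)⁻¹ * eng (Y.vec t (nd t w)) (Y.pre t (nd t w) j)) with he'
  -- (1) gain at the nodes
  have h1 : ∀ t ≤ T, e' t + Y.eps j ^ 2 * P.E (fun w => Y.own j t (nd t w) (a w)) ≤ e t := by
    intro t ht
    rw [h.unif t ht (fun ν v => Y.own j t ν v), ← P.E_smul, he', he]
    simp only
    rw [← P.E_add]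
    refine P.E_mono (fun w _ => ?_)
    have h2 := Y.energy_node (fun j => (h.hx j).le) h.he j t (nd t w)
    have h3 := mul_le_mul_of_nonneg_left h2 (inv_pos.mpr hV).le
    rw [mul_add] at h3
    refine le_trans (le_of_eq ?_) h3
    ring
  -- (2) between the nodes
  have h2 : ∀ t < T, e t ≤ e' (t + 1) + P.E (fun w => cst (t + 1) (nd (t + 1) w) (a w)) := by
    intro t ht
    rw [h.unif (t + 1) ht (fun ν v => cst (t + 1) ν v), he', he]
    simp only
    rw [← P.E_add]
    have h3 : P.E (fun w => (Fintype.card V : ℝ)⁻¹ * eng (Y.vec t (nd t w)) (Y.st t (nd t w) j)) ≤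
        P.E (fun w => (Fintype.card V : ℝ)⁻¹ * ∑ v, P.ce (nd t) (fun w' =>
          ‖mn (Y.vec (t + 1) (nd (t + 1) w')) (Y.pre (t + 1) (nd (t + 1) w') j v)‖ ^ 2 +
          ((Y.pre (t + 1) (nd (t + 1) w') j v).card : ℝ)⁻¹ *
            ∑ u ∈ Y.pre (t + 1) (nd (t + 1) w') j v, cst (t + 1) (nd (t + 1) w') u) w) := by
      refine P.E_mono (fun w hw => mul_le_mul_of_nonneg_left ?_ (inv_pos.mpr hV).le)
      unfold eng
      refine sum_le_sum (fun v _ => ?_)
      refine (h.en t ht (Y.st t (nd t w) j v) ⟨v, (Y.good_st t _).self j v⟩ w hw).trans (le_of_eq ?_)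
      refine ce_congr_fib P w (fun w' hw' => ?_)
      rw [h.pre_succ ht w', hw']
    refine h3.trans (le_of_eq ?_)
    rw [P.E_smul]
    have h4 : ∀ G : V → Om → ℝ, P.E (fun w => ∑ v, P.ce (nd t) (G v) w) = P.E (fun w => ∑ v, G v w) := by
      intro G
      rw [P.E_sum, P.E_sum]
      exact sum_congr rfl (fun v _ => P.E_ce _ _)
    rw [h4, ← P.E_smul]
    refine P.E_congr (fun w _ => ?_)
    rw [sum_add_distrib, mul_add]
    congr 2
    exact sum_avg ((Y.good_pre (t + 1) (nd (t + 1) w)).self j) ((Y.good_pre (t + 1) (nd (t + 1) w)).cls j) _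
  have h5 : e T ≤ 1 := by
    rw [he]
    refine P.E_le_const (fun w _ => ?_)
    rw [inv_mul_le_one₀ hV]
    unfold eng
    calc ∑ v, ‖mn (Y.vec T (nd T w)) (Y.st T (nd T w) j v)‖ ^ 2 ≤ ∑ _v : V, (1 : ℝ) := by
          refine sum_le_sum (fun v _ => ?_)
          exact pow_le_one₀ (norm_nonneg _) (mn_norm_le (h.hv T _) _)
      _ = Fintype.card V := by simp
  have h6 : 0 ≤ e' 0 := by
    rw [he']
    refine P.E_nonneg (fun w _ => mul_nonneg (inv_pos.mpr hV).le (sum_nonneg (fun v _ => sq_nonneg _)))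
  have h7 : ∀ n ≤ T, e' 0 + Y.eps j ^ 2 * ∑ t ∈ range (n + 1), P.E (fun w => Y.own j t (nd t w) (a w)) ≤
      e n + ∑ t ∈ range n, P.E (fun w => cst (t + 1) (nd (t + 1) w) (a w)) := by
    intro n
    induction n with
    | zero =>
      intro _
      rw [sum_range_one, sum_range_zero, add_zero]
      exact h1 0 (Nat.zero_le _)
    | succ n ih =>
      intro hn
      have i1 := ih (by omega)
      have i2 := h1 (n + 1) hn
      have i3 := h2 n (by omega)
      rw [sum_range_succ (fun t => P.E (fun w => Y.own j t (nd t w) (a w))) (n + 1),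
        sum_range_succ (fun t => P.E (fun w => cst (t + 1) (nd (t + 1) w) (a w))) n, mul_add]
      linarith
  have h8 := h7 T le_rfl
  have h9 := h.hc
  linarith

theorem nent_le (h : Hyp P Y T a nd cst Cp) (k : ℕ) :
    ∑ t ∈ range (T + 1), P.E (fun w => Y.nent k t (nd t w) (a w)) ≤ Nk Y Cp k := by
  have h1 : ∀ t, P.E (fun w => Y.nent k t (nd t w) (a w)) =
      ∑ j ∈ range (k + 1), P.E (fun w => Y.own j t (nd t w) (a w)) := by
    intro t
    rw [← P.E_sum]
    exact P.E_congr (fun w _ => Y.nent_eq k t _ _)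
  rw [sum_congr rfl (fun t _ => h1 t), sum_comm]
  unfold Nk
  refine sum_le_sum (fun j _ => ?_)
  have h2 := h.own_le j
  rw [le_div_iff₀ (pow_pos (h.he j) 2)]
  linarith

theorem ent_le (h : Hyp P Y T a nd cst Cp) (k : ℕ) :
    ∑ t ∈ range (T + 1), P.Pr (fun w => Y.ent k t (nd t w) (a w)) ≤ Nk Y Cp k := by
  refine le_trans (sum_le_sum (fun t _ => ?_)) (h.nent_le k)
  refine P.E_mono (fun w _ => ?_)
  by_cases he : Y.ent k t (nd t w) (a w)
  · rw [ind_of he]; exact Y.one_le_nent he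
  · rw [ind_not he]; exact Y.nent_nonneg _ _ _ _

theorem rem_eq (h : Hyp P Y T a nd cst Cp) (k : ℕ) {t : ℕ} (ht : t ≤ T) :
    P.E (fun w => Y.rem k t (nd t w) (a w)) = P.E (fun w => Y.nent k t (nd t w) (a w)) := by
  rw [h.unif t ht (fun ν v => Y.rem k t ν v), h.unif t ht (fun ν v => Y.nent k t ν v)]
  exact P.E_congr (fun w _ => by rw [Y.sum_rem])

theorem rem_le (h : Hyp P Y T a nd cst Cp) (k : ℕ) :
    ∑ t ∈ range (T + 1), P.E (fun w => Y.rem k t (nd t w) (a w)) ≤ Nk Y Cp k := by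
  refine le_trans (le_of_eq (sum_congr rfl (fun t ht => ?_))) (h.nent_le k)
  exact h.rem_eq k (by have := mem_range.mp ht; omega)

end Hyp

/-! ## entropies -/

open Classical in
/-- a set of points, decided by class and cell, which contains the split set and has almost no larger density -/
def cov (Y : CSys V E Nd) {γ : Type*} (C : V → γ) (t : ℕ) (ν : Nd) (s : ℕ) : Finset V :=
  if h : ∃ q : V × V, (Y.TT t ν s ⊆ Y.sl t ν s (Y.J t ν s) q.1 ∧ Y.TT t ν s ⊆ Y.al t ν q.2) ∧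
      Y.x (Y.J t ν s) * ((Y.sl t ν s (Y.J t ν s) q.1 ∩ Y.nb t ν q.2).card : ℝ) < (Y.TT t ν s).card then
    univ.filter fun u => u ∈ Y.sl t ν s (Y.J t ν s) h.choose.1 ∧ ∃ u' ∈ Y.al t ν h.choose.2, C u' = C u
  else ∅

theorem cov_ex (hx : ∀ j, 0 < Y.x j) {t : ℕ} {ν : Nd} {s : ℕ} (h0 : (Y.TT t ν s).Nonempty) :
    ∃ q : V × V, (Y.TT t ν s ⊆ Y.sl t ν s (Y.J t ν s) q.1 ∧ Y.TT t ν s ⊆ Y.al t ν q.2) ∧
      Y.x (Y.J t ν s) * ((Y.sl t ν s (Y.J t ν s) q.1 ∩ Y.nb t ν q.2).card : ℝ) < (Y.TT t ν s).card := by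
  rcases cho_cases (Y.dat t ν) (Y.sl t ν s) with h | h
  · exact absurd h h0.ne_empty
  · obtain ⟨a0, h1, ⟨i, h2, h3⟩, _⟩ := h.mean (fun j => (hx j).le)
    exact ⟨(a0, i), ⟨h1, h2⟩, h3⟩

theorem TT_sub_cov (hx : ∀ j, 0 < Y.x j) {γ : Type*} (C : V → γ) (t : ℕ) (ν : Nd) (s : ℕ) :
    Y.TT t ν s ⊆ Y.cov C t ν s := by
  classical
  intro u hu
  have h := Y.cov_ex hx (t := t) (ν := ν) (s := s) ⟨u, hu⟩
  unfold cov
  rw [dif_pos h, mem_filter]
  exact ⟨mem_univ u, h.choose_spec.1.1 hu, u, h.choose_spec.1.2 hu, rfl⟩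

theorem card_cov (hx : ∀ j, 0 < Y.x j) {γ : Type*} {C : V → γ} {t : ℕ} {ν : Nd}
    (hC : ∀ i, ∀ u ∈ Y.al t ν i, ∀ v, C u = C v → v ∈ Y.nb t ν i) (s : ℕ) :
    Y.x (Y.J t ν s) * ((Y.cov C t ν s).card : ℝ) ≤ (Y.TT t ν s).card := by
  classical
  unfold cov
  split_ifs with h
  · refine le_trans (mul_le_mul_of_nonneg_left ?_ (hx _).le) h.choose_spec.2.le
    have h1 : univ.filter (fun u => u ∈ Y.sl t ν s (Y.J t ν s) h.choose.1 ∧ ∃ u' ∈ Y.al t ν h.choose.2, C u' = C u) ⊆
        Y.sl t ν s (Y.J t ν s) h.choose.1 ∩ Y.nb t ν h.choose.2 := by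
      intro u hu
      obtain ⟨_, h2, u', h3, h4⟩ := mem_filter.mp hu
      exact mem_inter.mpr ⟨h2, hC _ u' h3 u h4⟩
    exact_mod_cast card_le_card h1
  · simp

theorem cov_fac {γ : Type*} (C : V → γ) (t : ℕ) (ν : Nd) (s : ℕ) {k : ℕ} (hk : Y.J t ν s ≤ k) {u v : V}
    (hcl : Y.sl t ν s k u = Y.sl t ν s k v) (hcell : C u = C v) : u ∈ Y.cov C t ν s ↔ v ∈ Y.cov C t ν s := by
  classical
  have hg := Y.good_sl t ν s
  have h1 : u ∈ Y.sl t ν s k v := by rw [← hcl]; exact hg.self k u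
  have h2 : Y.sl t ν s (Y.J t ν s) u = Y.sl t ν s (Y.J t ν s) v := hg.cls _ _ _ (hg.nest_le hk v h1)
  have h3 : ∀ a0, (u ∈ Y.sl t ν s (Y.J t ν s) a0 ↔ v ∈ Y.sl t ν s (Y.J t ν s) a0) := by
    intro a0
    rw [hg.mem_iff (a := a0) (b := u), hg.mem_iff (a := a0) (b := v), h2]
  unfold cov
  split_ifs with h
  · rw [mem_filter, mem_filter, h3, hcell]
    simp
  · simp

namespace Hyp

variable {P : FP Om} {Y : CSys V E Nd} {T : ℕ} {a : Om → V} {nd : ℕ → Om → Nd} {cst : ℕ → Nd → V → ℝ} {Cp : ℝ}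

/-- ENTROPY of the splits of one node, given the path, the old class and the cell -/
theorem ent_node (h : Hyp P Y T a nd cst Cp) {κ γ : Type*} {N : Om → κ} {C : V → γ} {t : ℕ} (ht : t ≤ T)
    (hN : Fac N (nd t)) (hC : ∀ w i, ∀ u ∈ Y.al t (nd t w) i, ∀ v, C u = C v → v ∈ Y.nb t (nd t w) i) (k : ℕ) :
    P.Hc (fun w => Y.st t (nd t w) k (a w)) (fun w => (N w, Y.pre t (nd t w) k (a w), C (a w))) ≤
      (1 + Real.log (1 / Y.x k)) * P.E (fun w => Y.nent k t (nd t w) (a w)) := by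
  have hxk := h.hx k
  have key := block_le P (Nn := N) (C := fun w => C (a w)) (L := fun s w => Y.sl t (nd t w) s k (a w))
    (Q := fun s w => (N w, Y.sl t (nd t w) s k (a w), C (a w))) (fun _ => {()})
    (s := fun s _ w => Y.J t (nd t w) s ≤ k ∧ a w ∈ Y.TT t (nd t w) s)
    (c := fun s _ w => Y.J t (nd t w) s ≤ k ∧ a w ∈ Y.cov C t (nd t w) s) (h := Real.log (1 / Y.x k)) Y.nm
    (fun s _ => Fac.refl _)
    (by
      intro s _ v w hvw
      simp only [Prod.mk.injEq] at hvw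
      obtain ⟨h1, h2, h3, h4⟩ := hvw
      have hnd := hN v w h2
      have h5 : (Y.J t (nd t v) s ≤ k ∧ a v ∈ Y.TT t (nd t v) s) =
          (Y.J t (nd t w) s ≤ k ∧ a w ∈ Y.TT t (nd t w) s) := congrFun h1 ⟨(), mem_singleton_self ()⟩
      show Y.sl t (nd t v) (s + 1) k (a v) = Y.sl t (nd t w) (s + 1) k (a w)
      rw [sl_succ, sl_succ, hnd]
      rw [hnd] at h3 h5
      by_cases hJ : Y.J t (nd t w) s ≤ k
      · by_cases hv : a v ∈ Y.TT t (nd t w) s
        · have hw : a w ∈ Y.TT t (nd t w) s := (h5 ▸ (⟨hJ, hv⟩ : Y.J t (nd t w) s ≤ k ∧ a v ∈ Y.TT t (nd t w) s)).2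
          rw [spl_mem hJ hv, spl_mem hJ hw, h3]
        · have hw : a w ∉ Y.TT t (nd t w) s := fun hw' =>
            hv (h5.symm ▸ (⟨hJ, hw'⟩ : Y.J t (nd t w) s ≤ k ∧ a w ∈ Y.TT t (nd t w) s)).2
          rw [spl_notMem hJ hv, spl_notMem hJ hw, h3]
      · rw [spl_of_lt (not_le.mp hJ), spl_of_lt (not_le.mp hJ), h3])
    (by
      intro s _ i _ v w hvw
      simp only [Prod.mk.injEq] at hvw
      obtain ⟨h2, h3, h4⟩ := hvw
      have hnd := hN v w h2
      rw [hnd] at h3 ⊢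
      refine and_congr_right (fun hJ => ?_)
      exact Y.cov_fac C t (nd t w) s hJ h3 h4)
    (fun s _ i _ w _ hs => ⟨hs.1, Y.TT_sub_cov h.hx C t _ s hs.2⟩)
    (by
      intro s _ i _
      have e1 : P.Pr (fun w => Y.J t (nd t w) s ≤ k ∧ a w ∈ Y.cov C t (nd t w) s) =
          P.E (fun w => (Fintype.card V : ℝ)⁻¹ * ∑ v, ind (Y.J t (nd t w) s ≤ k ∧ v ∈ Y.cov C t (nd t w) s)) :=
        h.unif t ht (fun ν v => ind (Y.J t ν s ≤ k ∧ v ∈ Y.cov C t ν s))
      have e2 : P.Pr (fun w => Y.J t (nd t w) s ≤ k ∧ a w ∈ Y.TT t (nd t w) s) =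
          P.E (fun w => (Fintype.card V : ℝ)⁻¹ * ∑ v, ind (Y.J t (nd t w) s ≤ k ∧ v ∈ Y.TT t (nd t w) s)) :=
        h.unif t ht (fun ν v => ind (Y.J t ν s ≤ k ∧ v ∈ Y.TT t ν s))
      have e3 : ∀ (R : Finset V), ∑ v, ind (v ∈ R) = (R.card : ℝ) := by
        intro R
        have : ∀ v, ind (v ∈ R) = if v ∈ R then (1 : ℝ) else 0 := by
          intro v
          by_cases hv : v ∈ R
          · rw [ind_of hv, if_pos hv]
          · rw [ind_not hv, if_neg hv]
        rw [sum_congr rfl (fun v _ => this v), ← sum_filter]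
        simp
      rw [e1, e2, Real.exp_log (by positivity), ← P.E_smul]
      refine P.E_mono (fun w _ => ?_)
      by_cases hJ : Y.J t (nd t w) s ≤ k
      · simp only [hJ, true_and]
        rw [e3, e3]
        have h1 := Y.card_cov h.hx (hC w) s
        have h2 : Y.x k * ((Y.cov C t (nd t w) s).card : ℝ) ≤ (Y.TT t (nd t w) s).card :=
          le_trans (mul_le_mul_of_nonneg_right (h.hxa _ _ hJ) (Nat.cast_nonneg _)) h1
        have h3 : ((Y.cov C t (nd t w) s).card : ℝ) ≤ 1 / Y.x k * (Y.TT t (nd t w) s).card := by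
          rw [one_div, inv_mul_eq_div, le_div_iff₀ hxk]; linarith
        have h4 := mul_le_mul_of_nonneg_left h3 (inv_nonneg.mpr (Nat.cast_nonneg (Fintype.card V)) : (0 : ℝ) ≤ (Fintype.card V : ℝ)⁻¹)
        refine h4.trans (le_of_eq ?_)
        ring
      · have e4 : ∀ R : Finset V, ∑ v, ind (Y.J t (nd t w) s ≤ k ∧ v ∈ R) = 0 := fun R =>
          sum_eq_zero (fun v _ => ind_not (fun h' => hJ h'.1))
        rw [e4, e4]
        simp)
  have e0 : (fun w => Y.sl t (nd t w) Y.nm k (a w)) = fun w => Y.st t (nd t w) k (a w) := by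
    funext w; rw [st_eq]
  simp only [e0, sl_zero] at key
  refine key.trans (le_of_eq ?_)
  congr 1
  have e4 : ∀ w, Y.nent k t (nd t w) (a w) =
      ∑ s ∈ range Y.nm, ind (Y.J t (nd t w) s ≤ k ∧ a w ∈ Y.TT t (nd t w) s) := by
    intro w
    unfold nent
    refine sum_congr rfl (fun s _ => ?_)
    by_cases hs : Y.J t (nd t w) s ≤ k ∧ a w ∈ Y.TT t (nd t w) s
    · rw [if_pos hs, ind_of hs]
    · rw [if_neg hs, ind_not hs]
  rw [P.E_congr (fun w _ => e4 w), P.E_sum]
  refine sum_congr rfl (fun s _ => ?_)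
  rw [sum_singleton]
  rfl

/-- ENTROPY of the splits of the times `t1 < t ≤ t1 + n`, given the path, the class at `t1` and the cell -/
theorem ent_block (h : Hyp P Y T a nd cst Cp) {κ γ : Type*} {N : Om → κ} {C : V → γ} {t1 n : ℕ} (ht : t1 + n ≤ T)
    (hN : ∀ t ≤ T, Fac N (nd t))
    (hC : ∀ t, t1 < t → t ≤ t1 + n → ∀ w i, ∀ u ∈ Y.al t (nd t w) i, ∀ v, C u = C v → v ∈ Y.nb t (nd t w) i) (k : ℕ) :
    P.Hc (fun w => Y.st (t1 + n) (nd (t1 + n) w) k (a w))
        (fun w => (N w, Y.st t1 (nd t1 w) k (a w), C (a w))) ≤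
      (1 + Real.log (1 / Y.x k)) *
        ∑ i ∈ range n, P.E (fun w => Y.nent k (t1 + i + 1) (nd (t1 + i + 1) w) (a w)) := by
  refine (chain_le P N (fun w => C (a w)) (fun i w => Y.st (t1 + i) (nd (t1 + i) w) k (a w)) n).trans ?_
  rw [mul_sum]
  refine sum_le_sum (fun i hi => ?_)
  have hi' := mem_range.mp hi
  have h1 := h.ent_node (t := t1 + i + 1) (by omega) (hN _ (by omega)) (hC (t1 + i + 1) (by omega) (by omega)) k
  have h2 : (fun w => (N w, Y.pre (t1 + i + 1) (nd (t1 + i + 1) w) k (a w), C (a w))) =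
      fun w => (N w, Y.st (t1 + i) (nd (t1 + i) w) k (a w), C (a w)) := by
    funext w
    rw [h.pre_succ (t := t1 + i) (by omega) w]
  rw [h2] at h1
  exact h1

/-- ENTROPY of all the splits up to the time `n`, given the path and the cell -/
theorem ent_start (h : Hyp P Y T a nd cst Cp) {κ γ : Type*} {N : Om → κ} {C : V → γ} {n : ℕ} (ht : n ≤ T)
    (hN : ∀ t ≤ T, Fac N (nd t))
    (hC : ∀ t ≤ n, ∀ w i, ∀ u ∈ Y.al t (nd t w) i, ∀ v, C u = C v → v ∈ Y.nb t (nd t w) i) (k : ℕ) :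
    P.Hc (fun w => Y.st n (nd n w) k (a w)) (fun w => (N w, C (a w))) ≤
      (1 + Real.log (1 / Y.x k)) * ∑ t ∈ range (n + 1), P.E (fun w => Y.nent k t (nd t w) (a w)) := by
  set L : ℕ → Om → Finset V := fun i w => if i = 0 then univ else Y.st (i - 1) (nd (i - 1) w) k (a w) with hL
  have h2 : P.Hc (fun w => Y.st n (nd n w) k (a w)) (fun w => (N w, C (a w))) =
      P.Hc (L (n + 1)) (fun w => (N w, L 0 w, C (a w))) := by
    have e1 : L (n + 1) = fun w => Y.st n (nd n w) k (a w) := by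
      funext w; simp [hL]
    rw [e1]
    refine P.Hc_congr (Fac.fst _ _) ?_ (Fac.fst _ _) ?_
    · intro v w hvw
      simp only [Prod.mk.injEq] at hvw
      simp only [hL, if_true, Prod.mk.injEq, true_and]
      exact hvw
    · intro v w hvw
      simp only [Prod.mk.injEq] at hvw ⊢
      exact ⟨hvw.1, hvw.2.2⟩
  rw [h2]
  refine (chain_le P N (fun w => C (a w)) L (n + 1)).trans ?_
  rw [mul_sum]
  refine sum_le_sum (fun i hi => ?_)
  have hi' := mem_range.mp hi
  have h3 := h.ent_node (t := i) (by omega) (hN _ (by omega)) (hC i (by omega)) k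
  have h4 : (fun w => (N w, Y.pre i (nd i w) k (a w), C (a w))) = fun w => (N w, L i w, C (a w)) := by
    funext w
    cases i with
    | zero => simp only [hL, if_true]; rfl
    | succ i =>
      rw [h.pre_succ (t := i) (by omega) w]
      simp [hL]
  have h5 : L (i + 1) = fun w => Y.st i (nd i w) k (a w) := by
    funext w; simp [hL]
  rw [h4] at h3
  rw [h5]
  exact h3

end Hyp

end path

end CSys

end

end Pool.Agent.GMC
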