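import Pool.Agent.GMC.Bias
import Pool.Agent.GMC.Disc
import Pool.Agent.M3.Indep

/-!
# Biases of the bits: the link with the irregularity `GG`

`D2 P L X e w` = sum over the two grids of the irregularity of the class of `w` in its cell of length `2^e`.
`bias_fp`: for a sample point `w` in the arc the bias of the bit given the class is at most `1024 * sqrt D2`;
`bias_unif` the same for the uniform law on a finite set `A` (sums over the members of the class),
`bias_unif_one`, `bias_unif_avg` = forms averaged over the class and over both classes.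
-/

set_option autoImplicit false

namespace Pool.Agent.GMC

open Finset Pool.Agent.PWZ Pool.Agent.M3 Pool.Agent.M3.Bin

noncomputable section

variable {k : ℕ} {Om ι : Type*} [Fintype Om]

/-- square of the discrepancy of the class of `w`, both grids -/
def D2 (P : FP Om) (L : Om → ι) (X : Om → V k) (e : ℕ) (w : Om) : ℝ :=
  ∑ s : Fin 2, GG P L (fun u => gp k s (X u)) e w

theorem D2_nonneg (P : FP Om) (L : Om → ι) (X : Om → V k) (e : ℕ) (w : Om) : 0 ≤ D2 P L X e w :=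
  Finset.sum_nonneg fun _ _ => GG_nonneg _ _ _ _ _

theorem GG_le_D2 (P : FP Om) (L : Om → ι) (X : Om → V k) (e : ℕ) (w : Om) (s : Fin 2) :
    GG P L (fun u => gp k s (X u)) e w ≤ D2 P L X e w :=
  Finset.single_le_sum (f := fun s => GG P L (fun u => gp k s (X u)) e w)
    (fun _ _ => GG_nonneg _ _ _ _ _) (Finset.mem_univ s)

/-- the point number `n` of the grid `s` -/
def pt (k : ℕ) (s : Fin 2) (n : ℕ) : V k := (n : V k) + gsh k s

theorem gp_pt {s : Fin 2} {n : ℕ} (h : n < 2 ^ k) : gp k s (pt k s n) = n := by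
  unfold gp pt
  rw [add_sub_cancel_right, ZMod.val_cast_of_lt h]

theorem pt_gp (s : Fin 2) (v : V k) : pt k s (gp k s v) = v := gp_inv s v

theorem pt_succ (s : Fin 2) (n : ℕ) : pt k s (n + 1) = pt k s n + 1 := by
  unfold pt; push_cast; ring

theorem cell_bd {e : ℕ} (he : e ≤ k) (s : Fin 2) (v : V k) {i : ℕ} (hi : i < 2 ^ e) :
    gp k s v / 2 ^ e * 2 ^ e + i < 2 ^ k := by
  have hEpos : 0 < 2 ^ e := by positivity
  have h1 : gp k s v / 2 ^ e < 2 ^ (k - e) := by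
    rw [Nat.div_lt_iff_lt_mul hEpos, ← pow_add, show k - e + e = k by omega]
    exact gp_lt s v
  have h2 : 2 ^ k = 2 ^ (k - e) * 2 ^ e := by rw [← pow_add]; congr 1; omega
  rw [h2]
  have h3 : (gp k s v / 2 ^ e + 1) * 2 ^ e ≤ 2 ^ (k - e) * 2 ^ e := Nat.mul_le_mul_right _ h1
  rw [Nat.add_mul, Nat.one_mul] at h3
  omega

/-- sum over a cell -/
theorem sum_gc {e : ℕ} (he : e ≤ k) (s : Fin 2) (v0 : V k) (f : V k → ℝ) :
    ∑ v ∈ gc k s e v0, f v = ∑ i ∈ range (2 ^ e), f (pt k s (gp k s v0 / 2 ^ e * 2 ^ e + i)) := by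
  have hEpos : 0 < 2 ^ e := by positivity
  symm
  refine Finset.sum_nbij' (i := fun i => pt k s (gp k s v0 / 2 ^ e * 2 ^ e + i))
    (j := fun v => gp k s v % 2 ^ e) ?_ ?_ ?_ ?_ ?_
  · intro i hi
    have hi' := Finset.mem_range.mp hi
    rw [mem_gc, gp_pt (cell_bd he s v0 hi')]
    rw [Nat.add_comm, Nat.add_mul_div_right _ _ hEpos, Nat.div_eq_of_lt hi', Nat.zero_add]
  · intro v _
    exact Finset.mem_range.mpr (Nat.mod_lt _ hEpos)
  · intro i hi
    have hi' := Finset.mem_range.mp hi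
    show gp k s (pt k s (gp k s v0 / 2 ^ e * 2 ^ e + i)) % 2 ^ e = i
    rw [gp_pt (cell_bd he s v0 hi'), Nat.add_comm, Nat.add_mul_mod_self_right, Nat.mod_eq_of_lt hi']
  · intro v hv
    have hv' := mem_gc.mp hv
    show pt k s (gp k s v0 / 2 ^ e * 2 ^ e + gp k s v % 2 ^ e) = v
    rw [← hv', Nat.div_add_mod' (gp k s v) (2 ^ e)]
    exact pt_gp s v
  · intro i _; rfl

/-- variation inside a cell -/
theorem var_cell_le {e : ℕ} (he : e ≤ k) (s : Fin 2) (v0 : V k) (f : V k → ℝ) :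
    ∑ i ∈ range (2 ^ e - 1), |f (pt k s (gp k s v0 / 2 ^ e * 2 ^ e + i + 1)) -
      f (pt k s (gp k s v0 / 2 ^ e * 2 ^ e + i))| ≤ TV f := by
  classical
  have h1 : ∑ i ∈ range (2 ^ e - 1), |f (pt k s (gp k s v0 / 2 ^ e * 2 ^ e + i + 1)) -
      f (pt k s (gp k s v0 / 2 ^ e * 2 ^ e + i))| ≤
      ∑ i ∈ range (2 ^ e), |f (pt k s (gp k s v0 / 2 ^ e * 2 ^ e + i + 1)) -
        f (pt k s (gp k s v0 / 2 ^ e * 2 ^ e + i))| :=
    Finset.sum_le_sum_of_subset_of_nonneg (Finset.range_mono (Nat.sub_le _ _))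
      (fun _ _ _ => abs_nonneg _)
  refine h1.trans ?_
  simp only [pt_succ]
  rw [← sum_gc he s v0 (fun v => |f (v + 1) - f v|)]
  exact Finset.sum_le_sum_of_subset_of_nonneg (Finset.subset_univ _) (fun _ _ _ => abs_nonneg _)

/-- weights of the class of `w0` over the circle -/
def wt (P : FP Om) (L : Om → ι) (X : Om → V k) (w0 : Om) (v : V k) : ℝ :=
  P.E (fun u => ind (L u = L w0) * ind (X u = v))

theorem wt_nonneg (P : FP Om) (L : Om → ι) (X : Om → V k) (w0 : Om) (v : V k) : 0 ≤ wt P L X w0 v :=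
  P.E_nonneg fun _ _ => mul_nonneg (ind_nonneg _) (ind_nonneg _)

theorem sum_wt (P : FP Om) (L : Om → ι) (X : Om → V k) (w0 : Om) (T : Finset (V k)) (f : V k → ℝ) :
    ∑ v ∈ T, wt P L X w0 v * f v = P.E (fun u => ind (L u = L w0 ∧ X u ∈ T) * f (X u)) := by
  unfold wt
  have h1 : ∀ v ∈ T, P.E (fun u => ind (L u = L w0) * ind (X u = v)) * f v =
      P.E (fun u => (fun v u => ind (L u = L w0) * ind (X u = v) * f v) v u) := by
    intro v _
    rw [← P.E_mul_const]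
  rw [Finset.sum_congr rfl h1, ← P.E_sum]
  refine P.E_congr (fun u _ => ?_)
  by_cases hu : X u ∈ T
  · have h2 : ∑ v ∈ T, ind (L u = L w0) * ind (X u = v) * f v = ind (L u = L w0) * f (X u) := by
      rw [Finset.sum_eq_single_of_mem (X u) hu]
      · rw [ind_of rfl, mul_one]
      · intro v _ hv
        rw [ind_not (show ¬ (X u = v) from fun h => hv h.symm)]; ring
    rw [h2, ind_and, ind_of hu, mul_one]
  · have h2 : ∑ v ∈ T, ind (L u = L w0) * ind (X u = v) * f v = 0 := by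
      refine Finset.sum_eq_zero (fun v hv => ?_)
      rw [ind_not (show ¬ (X u = v) from fun h => hu (by rw [h]; exact hv))]; ring
    rw [h2, ind_not (fun h => hu h.2), zero_mul]

theorem kok (P : FP Om) (L : Om → ι) (X : Om → V k) {e : ℕ} (he : e ≤ k) {w0 : Om} (hw : P.p w0 ≠ 0)
    (s : Fin 2) : Kok (wt P L X w0) s e (X w0) (Real.sqrt (D2 P L X e w0)) := by
  intro f
  have h1 := koksma P L (fun u => gp k s (X u)) e (fun n => f (pt k s n)) hw
  have h2 : ∀ g : V k → ℝ, ∑ v ∈ gc k s e (X w0), wt P L X w0 v * g v =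
      P.E (fun u => ind (XC L (fun u => gp k s (X u)) e u = XC L (fun u => gp k s (X u)) e w0) * g (X u)) := by
    intro g
    rw [sum_wt]
    refine P.E_congr (fun u _ => ?_)
    congr 2
    unfold XC
    rw [Prod.mk.injEq, mem_gc]
  have h3 : ∑ v ∈ gc k s e (X w0), wt P L X w0 v = P.m (XC L (fun u => gp k s (X u)) e) w0 := by
    have := h2 (fun _ => 1)
    simp only [mul_one] at this
    rw [this]; rfl
  rw [h2, h3, sum_gc he, div_eq_inv_mul (∑ i ∈ range (2 ^ e), _) _]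
  have h4 : P.E (fun u => ind (XC L (fun u => gp k s (X u)) e u = XC L (fun u => gp k s (X u)) e w0) * f (X u)) /
      P.m (XC L (fun u => gp k s (X u)) e) w0 =
      P.ce (XC L (fun u => gp k s (X u)) e) (fun u => f (pt k s (gp k s (X u)))) w0 := by
    unfold FP.ce
    simp only [pt_gp]
  rw [h4]
  refine h1.trans ?_
  refine mul_le_mul (var_cell_le he s (X w0) f) (Real.sqrt_le_sqrt (GG_le_D2 P L X e w0 s))
    (Real.sqrt_nonneg _) (TV_nonneg f)

/-- the bias of a bit given the class, for every sample point of the class which lies in the arc -/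
theorem bias_fp (P : FP Om) (L : Om → ι) (X : Om → V k) {e l : ℕ} (he : e ≤ k) (hl : 4 * l ≤ 2 ^ e)
    {psi phi : V k → ℝ} {x : V k} (hψ : SuppArc psi x l) (hφ : SuppArc phi x l)
    (hψ1 : ∑ v, psi v = 2 ^ e / 128) (hφ0 : ∑ v, phi v = 0) (hTψ : TV psi ≤ 2) (hTφ : TV phi ≤ 4)
    (hle : ∀ v, |phi v| ≤ psi v) {w0 : Om} (hw : P.p w0 ≠ 0) (hx : ∃ i < l, X w0 = x + (i : V k)) :
    |P.E (fun u => ind (L u = L w0) * phi (X u))| ≤
      1024 * Real.sqrt (D2 P L X e w0) * P.E (fun u => ind (L u = L w0) * psi (X u)) := by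
  obtain ⟨i0, hi0, hX⟩ := hx
  have e1 : ∀ g : V k → ℝ, ∑ v, wt P L X w0 v * g v = P.E (fun u => ind (L u = L w0) * g (X u)) := by
    intro g
    rw [sum_wt]
    refine P.E_congr (fun u _ => ?_)
    congr 2
    simp
  have h := bias_kernel he hl (wt_nonneg P L X w0) hψ hφ hψ1 hφ0 hTψ hTφ ?_ hi0
    (Real.sqrt_nonneg (D2 P L X e w0)) (fun s => by rw [← hX]; exact kok P L X he hw s)
  · rw [e1, e1] at h
    exact h
  · refine (Finset.abs_sum_le_sum_abs _ _).trans (Finset.sum_le_sum fun v _ => ?_)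
    rw [abs_mul, abs_of_nonneg (wt_nonneg P L X w0 v)]
    exact mul_le_mul_of_nonneg_left (hle v) (wt_nonneg P L X w0 v)

/-- conditional form -/
theorem bias_ce (P : FP Om) (L : Om → ι) (X : Om → V k) {e l : ℕ} (he : e ≤ k) (hl : 4 * l ≤ 2 ^ e)
    {psi phi : V k → ℝ} {x : V k} (hψ : SuppArc psi x l) (hφ : SuppArc phi x l)
    (hψ1 : ∑ v, psi v = 2 ^ e / 128) (hφ0 : ∑ v, phi v = 0) (hTψ : TV psi ≤ 2) (hTφ : TV phi ≤ 4)
    (hle : ∀ v, |phi v| ≤ psi v) {w0 : Om} (hw : P.p w0 ≠ 0) (hx : ∃ i < l, X w0 = x + (i : V k)) :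
    |P.ce L (fun u => phi (X u)) w0| ≤
      1024 * Real.sqrt (D2 P L X e w0) * P.ce L (fun u => psi (X u)) w0 := by
  have h := bias_fp P L X he hl hψ hφ hψ1 hφ0 hTψ hTφ hle hw hx
  unfold FP.ce
  have hm := P.m_pos L hw
  rw [abs_div, abs_of_pos hm, div_le_iff₀ hm]
  refine h.trans (le_of_eq ?_)
  field_simp

/-! ## uniform law -/

variable {A B : Type*} [Fintype A] [Nonempty A]

theorem bias_unif (cls : A → ι) (X : A → V k) {e l : ℕ} (he : e ≤ k) (hl : 4 * l ≤ 2 ^ e)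
    {psi phi : V k → ℝ} {x : V k} (hψ : SuppArc psi x l) (hφ : SuppArc phi x l)
    (hψ1 : ∑ v, psi v = 2 ^ e / 128) (hφ0 : ∑ v, phi v = 0) (hTψ : TV psi ≤ 2) (hTφ : TV phi ≤ 4)
    (hle : ∀ v, |phi v| ≤ psi v) {a0 : A} (hx : ∃ i < l, X a0 = x + (i : V k)) {T : Finset A}
    (hT : ∀ a, a ∈ T ↔ cls a = cls a0) :
    |∑ a ∈ T, phi (X a)| ≤ 1024 * Real.sqrt (D2 (FP.unif A) cls X e a0) * ∑ a ∈ T, psi (X a) := by
  classical
  have h := bias_fp (FP.unif A) cls X he hl hψ hφ hψ1 hφ0 hTψ hTφ hle (FP.unif_ne A a0) hx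
  rw [FP.unif_E, FP.unif_E] at h
  have e1 : ∀ g : V k → ℝ, ∑ u, ind (cls u = cls a0) * g (X u) = ∑ a ∈ T, g (X a) := by
    intro g
    rw [← Finset.sum_subset (Finset.subset_univ T)]
    · refine Finset.sum_congr rfl fun a ha => ?_
      rw [ind_of ((hT a).mp ha), one_mul]
    · intro a _ ha
      rw [ind_not (fun h => ha ((hT a).mpr h)), zero_mul]
  rw [e1, e1] at h
  have hc : (0 : ℝ) < Fintype.card A := Nat.cast_pos.mpr Fintype.card_pos
  rw [abs_div, abs_of_pos hc, div_le_iff₀ hc] at h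
  refine h.trans (le_of_eq ?_)
  field_simp

/-- averaged over the class, `b` known: `phi`, `psi` = kernels of one point `b` -/
theorem bias_unif_one (cls : A → ι) (X : A → V k) {e l : ℕ} (he : e ≤ k) (hl : 4 * l ≤ 2 ^ e)
    {psi phi : V k → ℝ} {x : V k} (hψ : SuppArc psi x l) (hφ : SuppArc phi x l)
    (hψ1 : ∑ v, psi v = 2 ^ e / 128) (hφ0 : ∑ v, phi v = 0) (hTψ : TV psi ≤ 2) (hTφ : TV phi ≤ 4)
    (hle : ∀ v, |phi v| ≤ psi v) {c : ι} {T : Finset A} (hT : ∀ a, a ∈ T ↔ cls a = c) :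
    (∑ a ∈ T, phi (X a)) ^ 2 ≤
      (∑ a ∈ T, psi (X a)) * (2 ^ 20 * ∑ a ∈ T, psi (X a) * D2 (FP.unif A) cls X e a) := by
  have h := bias_one T (psi := fun a => psi (X a)) (phi := fun a => phi (X a))
    (fun a => (abs_nonneg _).trans (hle (X a))) (K := 1024)
    (D := fun a => Real.sqrt (D2 (FP.unif A) cls X e a)) ?_ ?_
  · have e1 : ∀ a, Real.sqrt (D2 (FP.unif A) cls X e a) ^ 2 = D2 (FP.unif A) cls X e a := fun a =>
      Real.sq_sqrt (D2_nonneg _ _ _ _ _)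
    simp only [e1] at h
    norm_num at h ⊢
    exact h
  · intro a0 ha0 hne
    refine bias_unif cls X he hl hψ hφ hψ1 hφ0 hTψ hTφ hle (hψ _ hne) (fun a => ?_)
    rw [hT, (hT a0).mp ha0]
  · exact (Finset.abs_sum_le_sum_abs _ _).trans (Finset.sum_le_sum fun a _ => hle (X a))

/-- averaged over both classes: kernels `psi b`, `phi b` for `b` in `T'` -/
theorem bias_unif_avg (cls : A → ι) (X : A → V k) {e l : ℕ} (he : e ≤ k) (hl : 4 * l ≤ 2 ^ e)
    {psi phi : B → V k → ℝ} {x : B → V k} {T' : Finset B} (hψ : ∀ b ∈ T', SuppArc (psi b) (x b) l)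
    (hφ : ∀ b ∈ T', SuppArc (phi b) (x b) l)
    (hψ1 : ∀ b ∈ T', ∑ v, psi b v = 2 ^ e / 128) (hφ0 : ∀ b ∈ T', ∑ v, phi b v = 0)
    (hTψ : ∀ b ∈ T', TV (psi b) ≤ 2) (hTφ : ∀ b ∈ T', TV (phi b) ≤ 4)
    (hle : ∀ b, ∀ v, |phi b v| ≤ psi b v) {c : ι} {T : Finset A} (hT : ∀ a, a ∈ T ↔ cls a = c) :
    (∑ b ∈ T', ∑ a ∈ T, phi b (X a)) ^ 2 ≤
      (∑ b ∈ T', ∑ a ∈ T, psi b (X a)) *
        (2 ^ 20 * ∑ b ∈ T', ∑ a ∈ T, psi b (X a) * D2 (FP.unif A) cls X e a) := by
  have h := bias_avg T T' (psi := fun a b => psi b (X a)) (phi := fun a b => phi b (X a))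
    (fun a b => (abs_nonneg _).trans (hle b (X a))) (K := 1024)
    (D := fun a => Real.sqrt (D2 (FP.unif A) cls X e a)) ?_ ?_
  · have e1 : ∀ a, Real.sqrt (D2 (FP.unif A) cls X e a) ^ 2 = D2 (FP.unif A) cls X e a := fun a =>
      Real.sq_sqrt (D2_nonneg _ _ _ _ _)
    simp only [e1] at h
    norm_num at h ⊢
    exact h
  · intro b hb a0 ha0 hne
    refine bias_unif cls X he hl (hψ b hb) (hφ b hb) (hψ1 b hb) (hφ0 b hb) (hTψ b hb) (hTφ b hb) (hle b)
      (hψ b hb _ hne) (fun a => ?_)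
    rw [hT, (hT a0).mp ha0]
  · intro b _
    exact (Finset.abs_sum_le_sum_abs _ _).trans (Finset.sum_le_sum fun a _ => hle b (X a))

end

end Pool.Agent.GMC
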