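import Pool.Agent.GMC.Reg
import Pool.Agent.GMC.BiasF

/-!
# GMC/RegB: regular classes, member level (C2.3 (b), (c); helper30)

`B` finite line, `cls : B → ι` class, `X : B → V k` position, `mc cls X b0` = number of members of the class of `b0` over a
position, small cell of `b` = `flr σ (X b)`, `N(β(b))` = arc `flr σ (X b) - R`, length `2^σ + 2R`.
`REG` : all cells (exponent `E`, both grids) which meet `N(β(b))` are regular for the class of `b`.
* `reg_of_D2` : `D2 b ≤ 2^(-20)` gives regularity of the cells of `b`;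
* `lemR` : LEMMA R, static form; * `regS` : C2.3 (c), sparseness given the other vertex.
-/

set_option autoImplicit false
set_option linter.unusedSectionVars false

namespace Pool.Agent.GMC

open Finset Pool.Agent.PWZ Pool.Agent.M3 Pool.Agent.M3.Bin

noncomputable section

variable {k : ℕ}

theorem grids {E : ℕ} (hE : E ≤ k) : Grids (k := k) E (gsh k) := fun x _ hl => arc_cell hE hl x

/-! ## discrepancy gives regularity -/

theorem cl_pt (E : ℕ) (s : Fin 2) (v : V k) (i : ℕ) :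
    cl (gsh k s) E v + (i : V k) = pt k s (gp k s v / 2 ^ E * 2 ^ E + i) := by
  have h1 := pt_gp s v
  have h2 : gp k s v / 2 ^ E * 2 ^ E + gp k s v % 2 ^ E = gp k s v := Nat.div_add_mod' _ _
  have h3 : cl (gsh k s) E v + ((gp k s v % 2 ^ E : ℕ) : V k) = v := cl_add _ _ _
  have h4 : pt k s (gp k s v / 2 ^ E * 2 ^ E + gp k s v % 2 ^ E) = v := by rw [h2, h1]
  unfold pt at h4 ⊢
  rw [Nat.cast_add] at h4 ⊢
  have h5 : cl (gsh k s) E v = v - ((gp k s v % 2 ^ E : ℕ) : V k) := eq_sub_of_add_eq h3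
  rw [h5]
  nth_rewrite 1 [← h4]
  ring

variable {Om ι : Type*} [Fintype Om]

/-- discrepancy of the initial segments of the cell -/
theorem prefix_le (P : FP Om) (L : Om → ι) (X : Om → V k) {E : ℕ} (hE : E ≤ k) {w0 : Om} (hw : P.p w0 ≠ 0)
    (s : Fin 2) {o : ℕ} (ho : o ≤ 2 ^ E) :
    |wa (wt P L X w0) (cl (gsh k s) E (X w0)) o - (o : ℝ) / 2 ^ E * wa (wt P L X w0) (cl (gsh k s) E (X w0)) (2 ^ E)| ≤
      Real.sqrt (D2 P L X E w0) * wa (wt P L X w0) (cl (gsh k s) E (X w0)) (2 ^ E) := by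
  have hp : 0 < 2 ^ E := Nat.two_pow_pos E
  set q := gp k s (X w0) / 2 ^ E with hq
  set c := cl (gsh k s) E (X w0) with hc
  set m := wt P L X w0 with hm
  set v : Om → ℕ := fun u => gp k s (X u) with hv
  have hA : ∀ g : V k → ℝ, ∑ i ∈ range (2 ^ E), m (c + (i : V k)) * g (c + (i : V k)) =
      P.E (fun u => ind (XC L v E u = XC L v E w0) * g (X u)) := by
    intro g
    have h1 := sum_wt P L X w0 (gc k s E (X w0)) g
    rw [sum_gc hE s (X w0) (fun v => wt P L X w0 v * g v)] at h1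
    have h2 : ∑ i ∈ range (2 ^ E), m (c + (i : V k)) * g (c + (i : V k)) =
        ∑ i ∈ range (2 ^ E), wt P L X w0 (pt k s (q * 2 ^ E + i)) * g (pt k s (q * 2 ^ E + i)) :=
      Finset.sum_congr rfl fun i _ => by rw [hc, cl_pt]
    rw [h2, h1]
    refine P.E_congr (fun u _ => ?_)
    congr 2
    unfold XC
    rw [Prod.mk.injEq, mem_gc]
  have hm0 : P.m (XC L v E) w0 = wa m c (2 ^ E) := by
    have h1 := hA (fun _ => 1)
    simp only [mul_one] at h1
    unfold wa
    rw [h1]; rfl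
  have hpos : 0 < wa m c (2 ^ E) := by rw [← hm0]; exact P.m_pos _ hw
  -- the end point
  have hpre : P.E (fun u => ind (XC L v E u = XC L v E w0) * ind (v u < q * 2 ^ E + o)) = wa m c o := by
    have h1 := hA (fun x => ind (gp k s x < q * 2 ^ E + o))
    rw [← h1]
    unfold wa
    have h2 : ∀ i ∈ range (2 ^ E), m (c + (i : V k)) * ind (gp k s (c + (i : V k)) < q * 2 ^ E + o) =
        if i < o then m (c + (i : V k)) else 0 := by
      intro i hi
      have hi' := Finset.mem_range.mp hi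
      have h3 : gp k s (c + (i : V k)) = q * 2 ^ E + i := by
        rw [hc, cl_pt, gp_pt (cell_bd hE s (X w0) hi')]
      rw [h3]
      by_cases h4 : i < o
      · rw [if_pos h4, ind_of (by omega), mul_one]
      · rw [if_neg h4, ind_not (by omega), mul_zero]
    rw [Finset.sum_congr rfl h2, ← Finset.sum_filter]
    refine Finset.sum_congr ?_ fun _ _ => rfl
    ext i
    rw [Finset.mem_filter, Finset.mem_range, Finset.mem_range]
    constructor
    · exact fun h => h.2
    · exact fun h => ⟨by omega, h⟩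
  have huu : uu v (q * 2 ^ E + o) E w0 = (o : ℝ) / 2 ^ E := by
    unfold uu
    have h1 : v w0 / 2 ^ E = q := rfl
    rw [h1]
    rcases Nat.eq_or_lt_of_le ho with h2 | h2
    · have h3 : (q * 2 ^ E + o) / 2 ^ E = q + 1 := by
        rw [h2, show q * 2 ^ E + 2 ^ E = (q + 1) * 2 ^ E by ring, Nat.mul_div_cancel _ hp]
      rw [h3, if_pos (Nat.lt_succ_self q), h2]
      push_cast
      rw [div_self (by positivity)]
    · have h3 : (q * 2 ^ E + o) / 2 ^ E = q := by
        rw [Nat.add_comm, Nat.add_mul_div_right _ _ hp, Nat.div_eq_of_lt h2, Nat.zero_add]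
      have h4 : (q * 2 ^ E + o) % 2 ^ E = o := by
        rw [Nat.add_comm, Nat.add_mul_mod_self_right, Nat.mod_eq_of_lt h2]
      rw [h3, h4, if_neg (lt_irrefl q), if_pos rfl]
  have h1 := pre_abs_le P L v (q * 2 ^ E + o) E hw
  have h2 : ff P L v (q * 2 ^ E + o) E w0 = wa m c o / wa m c (2 ^ E) - (o : ℝ) / 2 ^ E := by
    unfold ff
    rw [huu]
    congr 1
    unfold FP.ce
    rw [hpre, hm0]
  rw [h2] at h1
  have h3 : Real.sqrt (GG P L v E w0) ≤ Real.sqrt (D2 P L X E w0) := Real.sqrt_le_sqrt (GG_le_D2 P L X E w0 s)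
  have h4 : wa m c o - (o : ℝ) / 2 ^ E * wa m c (2 ^ E) =
      (wa m c o / wa m c (2 ^ E) - (o : ℝ) / 2 ^ E) * wa m c (2 ^ E) := by
    field_simp
  rw [h4, abs_mul, abs_of_pos hpos]
  exact mul_le_mul_of_nonneg_right (h1.trans h3) hpos.le

/-- small discrepancy gives a regular cell -/
theorem RgC_of_D2 (P : FP Om) (L : Om → ι) (X : Om → V k) {E : ℕ} (hE : E ≤ k) {w0 : Om} (hw : P.p w0 ≠ 0)
    (hD : D2 P L X E w0 ≤ 1 / 2 ^ 20) (s : Fin 2) :
    RgC (2 ^ 9) (2 ^ (E - 8)) E (gsh k s) (wt P L X w0) (X w0) := by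
  intro o l hol hl
  set c := cl (gsh k s) E (X w0) with hc
  set m := wt P L X w0 with hm
  set W := wa m c (2 ^ E) with hW
  have hW0 : 0 ≤ W := wa_nonneg (wt_nonneg P L X w0) _ _
  have hδ : Real.sqrt (D2 P L X E w0) ≤ 1 / 2 ^ 10 := by
    rw [show (1 : ℝ) / 2 ^ 10 = Real.sqrt ((1 / 2 ^ 10) ^ 2) by rw [Real.sqrt_sq (by positivity)]]
    refine Real.sqrt_le_sqrt (hD.trans (le_of_eq ?_))
    norm_num
  have h1 := prefix_le P L X hE hw s (o := o + l) hol
  have h2 := prefix_le P L X hE hw s (o := o) (by omega)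
  rw [← hc, ← hm, ← hW] at h1 h2
  have h3 : wa m c (o + l) = wa m c o + wa m (c + (o : V k)) l := by
    rw [wa_sub]
    unfold wa
    rw [Finset.range_eq_Ico, Finset.range_eq_Ico]
    exact (Finset.sum_Ico_consecutive _ (Nat.zero_le _) (Nat.le_add_right _ _)).symm
  have h4 := mul_le_mul_of_nonneg_right hδ hW0
  have h5 := (abs_le.mp h1).1
  have h6 := (abs_le.mp h2).2
  have h7 : (1 : ℝ) / 2 ^ 8 ≤ (l : ℝ) / 2 ^ E := by
    have h8 : 2 ^ E ≤ 2 ^ 8 * l := by
      calc 2 ^ E ≤ 2 ^ (8 + (E - 8)) := Nat.pow_le_pow_right (by norm_num) (by omega)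
        _ = 2 ^ 8 * 2 ^ (E - 8) := by rw [pow_add]
        _ ≤ 2 ^ 8 * l := Nat.mul_le_mul_left _ hl
    rw [div_le_div_iff₀ (by positivity) (by positivity)]
    have h9 : ((2 ^ E : ℕ) : ℝ) ≤ ((2 ^ 8 * l : ℕ) : ℝ) := by exact_mod_cast h8
    push_cast at h9
    linarith
  have h10 : ((o + l : ℕ) : ℝ) / 2 ^ E = (o : ℝ) / 2 ^ E + (l : ℝ) / 2 ^ E := by
    push_cast; ring
  rw [h10] at h5
  have h11 := mul_le_mul_of_nonneg_right h7 hW0
  nlinarith

/-! ## the member level -/

variable {B : Type*} [Fintype B]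

open Classical in
/-- number of members of the class of `b0` over a position -/
def mc (cls : B → ι) (X : B → V k) (b0 : B) (v : V k) : ℝ :=
  ((univ.filter fun b => cls b = cls b0 ∧ X b = v).card : ℝ)

theorem mc_nonneg (cls : B → ι) (X : B → V k) (b0 : B) (v : V k) : 0 ≤ mc cls X b0 v := Nat.cast_nonneg _

theorem mc_congr {cls : B → ι} (X : B → V k) {b b' : B} (h : cls b = cls b') : mc cls X b = mc cls X b' := by
  funext v
  unfold mc
  rw [h]

theorem mc_eq_wt [Nonempty B] (cls : B → ι) (X : B → V k) (b0 : B) :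
    mc cls X b0 = fun v => (Fintype.card B : ℝ) * wt (FP.unif B) cls X b0 v := by
  classical
  funext v
  unfold mc wt
  rw [FP.unif_E, mul_div_cancel₀ _ (Nat.cast_ne_zero.mpr Fintype.card_ne_zero)]
  rw [Finset.card_filter]
  push_cast
  refine Finset.sum_congr rfl fun b _ => ?_
  by_cases h1 : cls b = cls b0
  · by_cases h2 : X b = v
    · rw [if_pos ⟨h1, h2⟩, ind_of h1, ind_of h2, mul_one]
    · rw [if_neg (fun h => h2 h.2), ind_not h2, mul_zero]
  · rw [if_neg (fun h => h1 h.1), ind_not h1, zero_mul]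

theorem wa_smul (c : ℝ) (m : V k → ℝ) (x : V k) (l : ℕ) : wa (fun v => c * m v) x l = c * wa m x l := by
  unfold wa
  rw [Finset.mul_sum]

theorem RgC_smul {K : ℝ} {lmin E : ℕ} {σ : V k} {m : V k → ℝ} {v : V k} {c : ℝ} (hc : 0 ≤ c)
    (h : RgC K lmin E σ m v) : RgC K lmin E σ (fun v => c * m v) v := by
  intro o l hol hl
  rw [wa_smul, wa_smul]
  have := mul_le_mul_of_nonneg_left (h o l hol hl) hc
  calc c * wa m (cl σ E v) (2 ^ E) ≤ _ := this
    _ = _ := by ring

/-- small discrepancy of a member gives regular cells -/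
theorem reg_of_D2 [Nonempty B] (cls : B → ι) (X : B → V k) {E : ℕ} (hE : E ≤ k) {b : B}
    (hD : D2 (FP.unif B) cls X E b ≤ 1 / 2 ^ 20) (s : Fin 2) :
    RgC (2 ^ 9) (2 ^ (E - 8)) E (gsh k s) (mc cls X b) (X b) := by
  rw [mc_eq_wt]
  exact RgC_smul (Nat.cast_nonneg _) (RgC_of_D2 (FP.unif B) cls X hE (FP.unif_ne B b) hD s)

/-- mass of an arc as a number of members -/
theorem wa_mc (cls : B → ι) (X : B → V k) (b0 : B) (x : V k) (l : ℕ) :
    wa (mc cls X b0) x l = ∑ b, ∑ i ∈ range l, ind (cls b = cls b0) * ind (X b = x + (i : V k)) := by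
  classical
  unfold wa mc
  rw [Finset.sum_comm]
  refine Finset.sum_congr rfl fun i _ => ?_
  rw [Finset.card_filter]
  push_cast
  refine Finset.sum_congr rfl fun b _ => ?_
  by_cases h1 : cls b = cls b0
  · by_cases h2 : X b = x + (i : V k)
    · rw [if_pos ⟨h1, h2⟩, ind_of h1, ind_of h2, mul_one]
    · rw [if_neg (fun h => h2 h.2), ind_not h2, mul_zero]
  · rw [if_neg (fun h => h1 h.1), ind_not h1, zero_mul]

/-- left end of the neighbourhood of the small cell -/
def nx (σ R : ℕ) (v : V k) : V k := flr σ v - (R : V k)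

/-- the class of `b` is regular in all cells which meet the neighbourhood of the small cell of `b` -/
def REG (cls : B → ι) (X : B → V k) (E σ R : ℕ) (b : B) : Prop :=
  ∀ i : ℕ, i < 2 ^ σ + 2 * R → ∀ s, RgC (2 ^ 9) (2 ^ (E - 8)) E (gsh k s) (mc cls X b) (nx σ R (X b) + (i : V k))

theorem chain_num {E : ℕ} (hE7 : 7 ≤ E) : 2 ^ (E + 6) ≤ 512 * (2 ^ (E - 2) - 2 ^ (E - 8)) := by
  rcases Nat.eq_or_lt_of_le hE7 with h | h
  · rw [← h]; norm_num
  · obtain ⟨F, hF⟩ : ∃ F, E = F + 8 := ⟨E - 8, by omega⟩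
    rw [hF, show F + 8 - 2 = F + 6 by omega, Nat.add_sub_cancel, show F + 8 + 6 = F + 14 by ring, pow_add, pow_add]
    have : 0 < 2 ^ F := Nat.two_pow_pos F
    omega

theorem const_num : (2 ^ 9 + 2 : ℝ) ^ (2 * 512) ≤ 2 ^ 10240 := by
  have h := pow_le_pow_left₀ (a := (2 ^ 9 + 2 : ℝ)) (b := 2 ^ 10) (by norm_num) (by norm_num) (2 * 512)
  rw [← pow_mul] at h
  exact h

/-- REGULAR CASE: the neighbourhood against an arc of length `2^(E-8)` -/
theorem reg_arc {cls : B → ι} {X : B → V k} {E σ R : ℕ} (hE : E ≤ k) (hE7 : 7 ≤ E)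
    (hn : 2 ^ σ + 2 * R ≤ 2 ^ (E + 6)) {b : B} (hR : REG cls X E σ R b) {o : ℕ}
    (ho : o + 2 ^ (E - 8) ≤ 2 ^ σ + 2 * R) :
    wa (mc cls X b) (nx σ R (X b)) (2 ^ σ + 2 * R) ≤
      2 ^ 10240 * wa (mc cls X b) (nx σ R (X b) + (o : V k)) (2 ^ (E - 8)) := by
  have h := chain_reg (grids hE) (mc_nonneg cls X b) (by norm_num : (0:ℝ) ≤ 2 ^ 9) (ℓ := 2 ^ (E - 2))
    (lmin := 2 ^ (E - 8)) (by
      have : 4 * 2 ^ (E - 2) = 2 ^ E := by
        rw [show (4:ℕ) = 2 ^ 2 by norm_num, ← pow_add]; congr 1; omega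
      omega) (Nat.pow_le_pow_right (by norm_num) (by omega)) hR (j := 512) (hn.trans (chain_num hE7)) ho le_rfl
  exact h.trans (mul_le_mul_of_nonneg_right const_num (wa_nonneg (mc_nonneg cls X b) _ _))

/-- NOT REGULAR -/
theorem not_reg_arc {cls : B → ι} {X : B → V k} {E σ R : ℕ} (hE : E ≤ k) (hE7 : 7 ≤ E)
    (hn : 2 ^ σ + 2 * R + 2 * 2 ^ E ≤ 2 ^ (E + 6)) {b : B} (hR : ¬ REG cls X E σ R b) :
    wa (mc cls X b) (nx σ R (X b)) (2 ^ σ + 2 * R) ≤
      2 ^ 10241 * wa (mi (2 ^ 9) (2 ^ (E - 8)) E (gsh k) (mc cls X b)) (nx σ R (X b) - ((2 ^ E : ℕ) : V k))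
        (2 ^ σ + 2 * R + 2 * 2 ^ E) := by
  have hR' : ∃ i : ℕ, i < 2 ^ σ + 2 * R ∧ irr (2 ^ 9) (2 ^ (E - 8)) E (gsh k) (mc cls X b)
      (nx σ R (X b) + (i : V k)) := by
    unfold REG at hR
    push Not at hR
    obtain ⟨i, hi, s, hs⟩ := hR
    exact ⟨i, hi, s, hs⟩
  have h := chain_not_reg hE (grids hE) (mc_nonneg cls X b) (by norm_num : (0:ℝ) ≤ 2 ^ 9) (ℓ := 2 ^ (E - 2))
    (lmin := 2 ^ (E - 8)) (by
      have : 4 * 2 ^ (E - 2) = 2 ^ E := by
        rw [show (4:ℕ) = 2 ^ 2 by norm_num, ← pow_add]; congr 1; omega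
      omega) (Nat.pow_le_pow_right (by norm_num) (by omega)) hR' (j := 512) (hn.trans (chain_num hE7))
  refine h.trans (mul_le_mul_of_nonneg_right ?_ (wa_nonneg (mi_nonneg (mc_nonneg cls X b)) _ _))
  have := const_num
  calc 2 * (2 ^ 9 + 2 : ℝ) ^ (2 * 512) ≤ 2 * 2 ^ 10240 := by linarith
    _ = 2 ^ 10241 := by rw [pow_succ' 2 10240]

/-! ## counting cells -/

theorem sum_mod_le (a r M : ℕ) : ∑ i ∈ range (a * M), ind (i % a = r) ≤ (M : ℝ) := by
  induction M with
  | zero => simp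
  | succ M ih =>
    rw [Nat.mul_succ, Finset.sum_range_add]
    push_cast
    refine add_le_add ih ?_
    have h1 : ∀ i ∈ range a, ind ((a * M + i) % a = r) = if i = r then 1 else 0 := by
      intro i hi
      rw [Nat.mul_add_mod, Nat.mod_eq_of_lt (Finset.mem_range.mp hi)]
      by_cases h : i = r
      · rw [if_pos h, ind_of h]
      · rw [if_neg h, ind_not h]
    rw [Finset.sum_congr rfl h1, Finset.sum_ite_eq']
    split_ifs <;> norm_num

/-- an aligned point at the distance `i` below `u`: `i` has a given residue -/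
theorem mod_of_aligned {σ : ℕ} (hσ : σ ≤ k) {u z : V k} (hz : flr σ z = z) {i : ℕ} (h : u = z + (i : V k)) :
    i % 2 ^ σ = u.val % 2 ^ σ := by
  have hc : z = ((2 ^ σ * (z.val / 2 ^ σ) : ℕ) : V k) := by
    have h1 := Pool.Agent.M3.Bin.flr_eq_cast σ z
    rw [hz] at h1
    rw [h1]
    congr 1
    have h2 := Nat.div_add_mod z.val (2 ^ σ)
    have h3 : (((z.val - z.val % 2 ^ σ : ℕ) : V k)).val / 2 ^ σ = z.val / 2 ^ σ := by rw [← h1]
    rw [h3]
    omega
  have h1 : u = ((2 ^ σ * (z.val / 2 ^ σ) + i : ℕ) : V k) := by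
    rw [h, Nat.cast_add, ← hc]
  rw [h1, ZMod.val_natCast, Nat.mod_mod_of_dvd _ (pow_dvd_pow 2 hσ), Nat.mul_add_mod]

/-- number of cells at distance less than `n` below `u` -/
theorem cnt_cells {σ n M : ℕ} (hσ : σ ≤ k) (hn : n ≤ 2 ^ σ * M) (u : V k) (Z : Finset (V k))
    (hZ : ∀ z ∈ Z, flr σ z = z) : ∑ z ∈ Z, ∑ i ∈ range n, ind (u = z + (i : V k)) ≤ (M : ℝ) := by
  classical
  rw [Finset.sum_comm]
  calc ∑ i ∈ range n, ∑ z ∈ Z, ind (u = z + (i : V k)) ≤ ∑ i ∈ range n, ind (i % 2 ^ σ = u.val % 2 ^ σ) := by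
        refine Finset.sum_le_sum fun i _ => ?_
        by_cases h : i % 2 ^ σ = u.val % 2 ^ σ
        · rw [ind_of h]
          have h1 : ∀ z ∈ Z, ind (u = z + (i : V k)) = if z = u - (i : V k) then 1 else 0 := by
            intro z _
            by_cases h2 : z = u - (i : V k)
            · rw [if_pos h2, ind_of (by rw [h2]; ring)]
            · rw [if_neg h2, ind_not (fun h3 => h2 (by rw [h3]; ring))]
          rw [Finset.sum_congr rfl h1, Finset.sum_ite_eq']
          split_ifs <;> norm_num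
        · rw [ind_not h]
          refine le_of_eq (Finset.sum_eq_zero fun z hz => ?_)
          exact ind_not fun h2 => h (mod_of_aligned hσ (hZ z hz) h2)
    _ ≤ ∑ i ∈ range (2 ^ σ * M), ind (i % 2 ^ σ = u.val % 2 ^ σ) :=
        Finset.sum_le_sum_of_subset_of_nonneg (Finset.range_subset_range.mpr hn) fun _ _ _ => ind_nonneg _
    _ ≤ (M : ℝ) := sum_mod_le _ _ _

open Classical in
/-- LEMMA R, static and local form (one node): the exceptional points whose class is not regular near their small cell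
against the irregular members near them -/
theorem lemR_loc [Nonempty B] {cls : B → ι} {X : B → V k} {E σ R M : ℕ} (hE : E ≤ k) (hE7 : 7 ≤ E) (hσ : σ ≤ k)
    (hn : 2 ^ σ + 2 * R + 2 * 2 ^ E ≤ 2 ^ (E + 6)) (hM : 2 ^ σ + 2 * R + 2 * 2 ^ E ≤ 2 ^ σ * M) {exc : B → Prop}
    {x : ℝ} (hx : 0 ≤ x)
    (hexc : ∀ b0, ((univ.filter fun b => exc b ∧ cls b = cls b0 ∧ flr σ (X b) = flr σ (X b0)).card : ℝ) ≤
      x * wa (mc cls X b0) (nx σ R (X b0)) (2 ^ σ + 2 * R)) :
    ((univ.filter fun b => exc b ∧ ¬ REG cls X E σ R b).card : ℝ) ≤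
      x * (2 ^ 10241 * M) * (univ.filter fun b => 1 / 2 ^ 20 < D2 (FP.unif B) cls X E b ∧
        ∃ b1, (exc b1 ∧ ¬ REG cls X E σ R b1) ∧ ∃ i : ℕ, i < 2 ^ σ + 2 * R + 2 * 2 ^ E ∧
          X b + ((R : V k) + ((2 ^ E : ℕ) : V k)) = flr σ (X b1) + (i : V k)).card := by
  set S : Finset B := univ.filter fun b => exc b ∧ ¬ REG cls X E σ R b with hS
  set I : Finset B := univ.filter fun b => 1 / 2 ^ 20 < D2 (FP.unif B) cls X E b with hI
  set key : B → ι × V k := fun b => (cls b, flr σ (X b)) with hkey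
  set n : ℕ := 2 ^ σ + 2 * R + 2 * 2 ^ E with hndef
  set D : V k := (R : V k) + ((2 ^ E : ℕ) : V k) with hD
  set J : Finset B := univ.filter fun b => 1 / 2 ^ 20 < D2 (FP.unif B) cls X E b ∧
        ∃ b1, (exc b1 ∧ ¬ REG cls X E σ R b1) ∧ ∃ i : ℕ, i < n ∧ X b + D = flr σ (X b1) + (i : V k) with hJ
  -- the bound for one class and one small cell
  have h1 : ∀ κ ∈ S.image key, ((S.filter fun b => key b = κ).card : ℝ) ≤
      x * 2 ^ 10241 * ∑ b ∈ I, ind (cls b = κ.1) * ∑ i ∈ range n, ind (X b + D = κ.2 + (i : V k)) := by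
    intro κ hκ
    obtain ⟨b0, hb0, rfl⟩ := Finset.mem_image.mp hκ
    have hb0' := (Finset.mem_filter.mp hb0).2
    have h2 : ((S.filter fun b => key b = key b0).card : ℝ) ≤
        ((univ.filter fun b => exc b ∧ cls b = cls b0 ∧ flr σ (X b) = flr σ (X b0)).card : ℝ) := by
      refine Nat.cast_le.mpr (Finset.card_le_card fun b hb => ?_)
      obtain ⟨hb1, hb2⟩ := Finset.mem_filter.mp hb
      have hb3 := (Finset.mem_filter.mp hb1).2
      simp only [hkey, Prod.mk.injEq] at hb2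
      exact Finset.mem_filter.mpr ⟨Finset.mem_univ b, hb3.1, hb2.1, hb2.2⟩
    have h3 := not_reg_arc hE hE7 hn hb0'.2
    have h4 : wa (mi (2 ^ 9) (2 ^ (E - 8)) E (gsh k) (mc cls X b0)) (nx σ R (X b0) - ((2 ^ E : ℕ) : V k)) n ≤
        ∑ b ∈ I, ind (cls b = cls b0) * ∑ i ∈ range n, ind (X b + D = flr σ (X b0) + (i : V k)) := by
      have h5 : ∀ v, mi (2 ^ 9) (2 ^ (E - 8)) E (gsh k) (mc cls X b0) v ≤
          ∑ b ∈ I, ind (cls b = cls b0) * ind (X b = v) := by
        intro v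
        by_cases hv : irr (2 ^ 9) (2 ^ (E - 8)) E (gsh k) (mc cls X b0) v
        · unfold mi
          rw [if_pos hv]
          unfold mc
          rw [Finset.card_filter]
          push_cast
          rw [← Finset.sum_subset (Finset.subset_univ I)]
          · refine Finset.sum_le_sum fun b _ => ?_
            by_cases h6 : cls b = cls b0 ∧ X b = v
            · rw [if_pos h6, ind_of h6.1, ind_of h6.2, mul_one]
            · rw [if_neg h6]
              exact mul_nonneg (ind_nonneg _) (ind_nonneg _)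
          · intro b _ hb
            rw [if_neg]
            rintro ⟨h6, h7⟩
            apply hb
            refine Finset.mem_filter.mpr ⟨Finset.mem_univ b, ?_⟩
            by_contra h8
            obtain ⟨s, hs⟩ := hv
            apply hs
            have h9 := reg_of_D2 cls X hE (not_lt.mp h8) s
            rw [mc_congr X h6, h7] at h9
            exact h9
        · unfold mi
          rw [if_neg hv]
          exact Finset.sum_nonneg fun _ _ => mul_nonneg (ind_nonneg _) (ind_nonneg _)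
      unfold wa
      refine (Finset.sum_le_sum fun i _ => h5 _).trans ?_
      rw [Finset.sum_comm]
      refine Finset.sum_le_sum fun b _ => ?_
      rw [← Finset.mul_sum]
      refine mul_le_mul_of_nonneg_left (Finset.sum_le_sum fun i _ => ?_) (ind_nonneg _)
      by_cases h6 : X b = nx σ R (X b0) - ((2 ^ E : ℕ) : V k) + (i : V k)
      · rw [ind_of h6, ind_of]
        rw [h6, hD]
        unfold nx
        ring
      · rw [ind_not h6]
        exact ind_nonneg _
    calc ((S.filter fun b => key b = key b0).card : ℝ) ≤ _ := h2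
      _ ≤ x * wa (mc cls X b0) (nx σ R (X b0)) (2 ^ σ + 2 * R) := hexc b0
      _ ≤ x * (2 ^ 10241 * ∑ b ∈ I, ind (cls b = cls b0) *
            ∑ i ∈ range n, ind (X b + D = flr σ (X b0) + (i : V k))) :=
          mul_le_mul_of_nonneg_left (h3.trans (mul_le_mul_of_nonneg_left h4 (by positivity))) hx
      _ = _ := by rw [← mul_assoc]
  -- sum over the classes and small cells
  have h2 : ∑ κ ∈ S.image key, ∑ b ∈ I, ind (cls b = κ.1) * ∑ i ∈ range n, ind (X b + D = κ.2 + (i : V k)) ≤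
      M * J.card := by
    rw [Finset.sum_comm]
    have hJI : J ⊆ I := by
      intro b hb
      exact Finset.mem_filter.mpr ⟨Finset.mem_univ b, (Finset.mem_filter.mp hb).2.1⟩
    rw [← Finset.sum_subset hJI, mul_comm, ← nsmul_eq_mul]
    swap
    · intro b hb hbJ
      refine Finset.sum_eq_zero fun κ hκ => ?_
      have h9 : ∑ i ∈ range n, ind (X b + D = κ.2 + (i : V k)) = 0 := by
        refine Finset.sum_eq_zero fun i hi => ind_not fun h10 => hbJ ?_
        obtain ⟨b1, hb1, rfl⟩ := Finset.mem_image.mp hκ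
        exact Finset.mem_filter.mpr ⟨Finset.mem_univ b, (Finset.mem_filter.mp hb).2, b1,
          (Finset.mem_filter.mp hb1).2, i, Finset.mem_range.mp hi, h10⟩
      rw [h9, mul_zero]
    refine Finset.sum_le_card_nsmul _ _ _ fun b _ => ?_
    have h3 : ∑ κ ∈ S.image key, ind (cls b = κ.1) * ∑ i ∈ range n, ind (X b + D = κ.2 + (i : V k)) =
        ∑ κ ∈ (S.image key).filter (fun κ => cls b = κ.1), ∑ i ∈ range n, ind (X b + D = κ.2 + (i : V k)) := by
      rw [Finset.sum_filter]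
      refine Finset.sum_congr rfl fun κ _ => ?_
      by_cases h4 : cls b = κ.1
      · rw [if_pos h4, ind_of h4, one_mul]
      · rw [if_neg h4, ind_not h4, zero_mul]
    rw [h3]
    have h4 : ∑ κ ∈ (S.image key).filter (fun κ => cls b = κ.1), ∑ i ∈ range n, ind (X b + D = κ.2 + (i : V k)) =
        ∑ z ∈ ((S.image key).filter (fun κ => cls b = κ.1)).image Prod.snd,
          ∑ i ∈ range n, ind (X b + D = z + (i : V k)) := by
      rw [Finset.sum_image]
      intro κ hκ κ' hκ' h5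
      have h6 := (Finset.mem_filter.mp hκ).2
      have h7 := (Finset.mem_filter.mp hκ').2
      exact Prod.ext (h6.symm.trans h7) h5
    rw [h4]
    refine cnt_cells hσ hM (X b + D) _ fun z hz => ?_
    obtain ⟨κ, hκ, rfl⟩ := Finset.mem_image.mp hz
    obtain ⟨b1, _, rfl⟩ := Finset.mem_image.mp (Finset.mem_filter.mp hκ).1
    exact Pool.Agent.M3.Bin.flr_flr le_rfl (X b1)
  calc (S.card : ℝ) = ∑ κ ∈ S.image key, ((S.filter fun b => key b = κ).card : ℝ) := by
        rw [Finset.card_eq_sum_card_image key S]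
        push_cast
        rfl
    _ ≤ ∑ κ ∈ S.image key, x * 2 ^ 10241 * ∑ b ∈ I, ind (cls b = κ.1) *
          ∑ i ∈ range n, ind (X b + D = κ.2 + (i : V k)) := Finset.sum_le_sum h1
    _ = x * 2 ^ 10241 * ∑ κ ∈ S.image key, ∑ b ∈ I, ind (cls b = κ.1) *
          ∑ i ∈ range n, ind (X b + D = κ.2 + (i : V k)) := by rw [Finset.mul_sum]
    _ ≤ x * 2 ^ 10241 * (M * J.card) := mul_le_mul_of_nonneg_left h2 (by positivity)
    _ = _ := by ring

open Classical in
/-- LEMMA R, static form (one node) -/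
theorem lemR [Nonempty B] {cls : B → ι} {X : B → V k} {E σ R M : ℕ} (hE : E ≤ k) (hE7 : 7 ≤ E) (hσ : σ ≤ k)
    (hn : 2 ^ σ + 2 * R + 2 * 2 ^ E ≤ 2 ^ (E + 6)) (hM : 2 ^ σ + 2 * R + 2 * 2 ^ E ≤ 2 ^ σ * M) {exc : B → Prop}
    {x : ℝ} (hx : 0 ≤ x)
    (hexc : ∀ b0, ((univ.filter fun b => exc b ∧ cls b = cls b0 ∧ flr σ (X b) = flr σ (X b0)).card : ℝ) ≤
      x * wa (mc cls X b0) (nx σ R (X b0)) (2 ^ σ + 2 * R)) :
    ((univ.filter fun b => exc b ∧ ¬ REG cls X E σ R b).card : ℝ) ≤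
      x * (2 ^ 10241 * M) * (univ.filter fun b => 1 / 2 ^ 20 < D2 (FP.unif B) cls X E b).card := by
  refine (lemR_loc hE hE7 hσ hn hM hx hexc).trans (mul_le_mul_of_nonneg_left ?_ (by positivity))
  refine Nat.cast_le.mpr (Finset.card_le_card fun b hb => ?_)
  exact Finset.mem_filter.mpr ⟨Finset.mem_univ b, (Finset.mem_filter.mp hb).2.1⟩

open Classical in
/-- C2.3 (c): given the other vertex (kernel `ψ`) the exceptional points of a class which is regular near them are
sparse in the law of the point -/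
theorem regS {cls : B → ι} {X : B → V k} {E σ R M lS : ℕ} (hE : E ≤ k) (hE7 : 7 ≤ E) (hσ : σ ≤ k)
    (hn : 2 ^ σ + 2 * R ≤ 2 ^ (E + 6)) (hM : lS + 2 ^ σ ≤ 2 ^ σ * M) {exc : B → Prop} {x : ℝ} (hx : 0 ≤ x)
    (hexc : ∀ b0, ((univ.filter fun b => exc b ∧ cls b = cls b0 ∧ flr σ (X b) = flr σ (X b0)).card : ℝ) ≤
      x * wa (mc cls X b0) (nx σ R (X b0)) (2 ^ σ + 2 * R))
    {ψ : B → ℝ} (h0 : ∀ b, 0 ≤ ψ b) (h1 : ∀ b, ψ b ≤ 1) {xS xI : V k}
    (hS : ∀ b, ψ b ≠ 0 → ∃ i : ℕ, i < lS ∧ X b = xS + (i : V k))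
    (hI : ∀ b, ∀ i : ℕ, i < 2 ^ (E - 8) → X b = xI + (i : V k) → 1 / 2 ≤ ψ b)
    (hIN : ∀ b, ψ b ≠ 0 → ∃ o : ℕ, xI = nx σ R (X b) + (o : V k) ∧ o + 2 ^ (E - 8) ≤ 2 ^ σ + 2 * R) (c : ι) :
    ∑ b ∈ univ.filter (fun b => cls b = c ∧ exc b ∧ REG cls X E σ R b), ψ b ≤
      x * (2 ^ 10241 * M) * ∑ b ∈ univ.filter (fun b => cls b = c), ψ b := by
  set T : Finset B := univ.filter fun b => cls b = c with hT
  set S : Finset B := univ.filter fun b => (cls b = c ∧ exc b ∧ REG cls X E σ R b) ∧ ψ b ≠ 0 with hSdef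
  set Y : ℝ := ∑ b ∈ T, ψ b with hY
  have hY0 : 0 ≤ Y := Finset.sum_nonneg fun b _ => h0 b
  have hsum : ∑ b ∈ univ.filter (fun b => cls b = c ∧ exc b ∧ REG cls X E σ R b), ψ b ≤ S.card := by
    rw [← Finset.sum_filter_ne_zero]
    refine (Finset.sum_le_sum fun b _ => h1 b).trans ?_
    rw [Finset.sum_const, nsmul_eq_mul, mul_one]
    refine Nat.cast_le.mpr (Finset.card_le_card fun b hb => ?_)
    obtain ⟨hb1, hb2⟩ := Finset.mem_filter.mp hb
    exact Finset.mem_filter.mpr ⟨Finset.mem_univ b, (Finset.mem_filter.mp hb1).2, hb2⟩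
  -- one small cell
  have hcell : ∀ z ∈ S.image (fun b => flr σ (X b)), ((S.filter fun b => flr σ (X b) = z).card : ℝ) ≤
      x * 2 ^ 10241 * Y := by
    intro z hz
    obtain ⟨b0, hb0, rfl⟩ := Finset.mem_image.mp hz
    obtain ⟨⟨hc0, _, hR0⟩, hψ0⟩ := (Finset.mem_filter.mp hb0).2
    have h2 : ((S.filter fun b => flr σ (X b) = flr σ (X b0)).card : ℝ) ≤
        ((univ.filter fun b => exc b ∧ cls b = cls b0 ∧ flr σ (X b) = flr σ (X b0)).card : ℝ) := by
      refine Nat.cast_le.mpr (Finset.card_le_card fun b hb => ?_)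
      obtain ⟨hb1, hb2⟩ := Finset.mem_filter.mp hb
      obtain ⟨⟨hb3, hb4, _⟩, _⟩ := (Finset.mem_filter.mp hb1).2
      exact Finset.mem_filter.mpr ⟨Finset.mem_univ b, hb4, hb3.trans hc0.symm, hb2⟩
    obtain ⟨o, ho1, ho2⟩ := hIN b0 hψ0
    have h3 := reg_arc hE hE7 hn hR0 ho2
    rw [← ho1] at h3
    have h4 : wa (mc cls X b0) xI (2 ^ (E - 8)) ≤ 2 * Y := by
      rw [wa_mc, hY, Finset.mul_sum, hT, Finset.sum_filter]
      refine Finset.sum_le_sum fun b _ => ?_
      by_cases hb : cls b = c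
      · rw [if_pos hb, ind_of (hb.trans hc0.symm)]
        simp only [one_mul]
        by_cases hex : ∃ i : ℕ, i < 2 ^ (E - 8) ∧ X b = xI + (i : V k)
        · obtain ⟨i, hi, hXi⟩ := hex
          have h5 := hI b i hi hXi
          have h6 : ∑ j ∈ range (2 ^ (E - 8)), ind (X b = xI + (j : V k)) = 1 := by
            rw [Finset.sum_eq_single_of_mem i (Finset.mem_range.mpr hi)]
            · exact ind_of hXi
            · intro j hj hji
              refine ind_not fun h7 => hji ?_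
              rw [hXi] at h7
              have h8 := add_left_cancel h7
              have h9 : 2 ^ (E - 8) ≤ 2 ^ k := Nat.pow_le_pow_right (by norm_num) (by omega)
              have h10 := congrArg ZMod.val h8
              rw [ZMod.val_cast_of_lt (by omega), ZMod.val_cast_of_lt (by
                have := Finset.mem_range.mp hj; omega)] at h10
              exact h10.symm
          rw [h6]
          linarith
        · have h6 : ∑ j ∈ range (2 ^ (E - 8)), ind (X b = xI + (j : V k)) = 0 :=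
            Finset.sum_eq_zero fun j hj => ind_not fun h7 => hex ⟨j, Finset.mem_range.mp hj, h7⟩
          rw [h6]
          have := h0 b
          linarith
      · rw [if_neg hb, ind_not (fun h => hb (h.trans hc0))]
        simp
    calc ((S.filter fun b => flr σ (X b) = flr σ (X b0)).card : ℝ) ≤ _ := h2
      _ ≤ x * wa (mc cls X b0) (nx σ R (X b0)) (2 ^ σ + 2 * R) := hexc b0
      _ ≤ x * (2 ^ 10240 * (2 * Y)) :=
          mul_le_mul_of_nonneg_left (h3.trans (mul_le_mul_of_nonneg_left h4 (by positivity))) hx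
      _ = _ := by rw [pow_succ (2:ℝ) 10240]; ring
  -- number of small cells
  have hnum : ((S.image fun b => flr σ (X b)).card : ℝ) ≤ M := by
    refine le_trans ?_ (cnt_cells hσ hM (xS + (lS : V k)) (S.image fun b => flr σ (X b)) ?_)
    · rw [Finset.card_eq_sum_ones, Nat.cast_sum]
      refine Finset.sum_le_sum fun z hz => ?_
      obtain ⟨b, hb, rfl⟩ := Finset.mem_image.mp hz
      obtain ⟨i, hi, hXi⟩ := hS b (Finset.mem_filter.mp hb).2.2
      obtain ⟨r, hr, hXr⟩ := Pool.Agent.M3.Bin.flr_add_rem σ (X b)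
      have h2 : lS - i + r < lS + 2 ^ σ := by omega
      have h3 : xS + (lS : V k) = flr σ (X b) + ((lS - i + r : ℕ) : V k) := by
        rw [Nat.cast_add, Nat.cast_sub hi.le]
        have h4 : flr σ (X b) = X b - (r : V k) := eq_sub_of_add_eq hXr.symm
        rw [h4, hXi]
        ring
      rw [Nat.cast_one]
      calc (1 : ℝ) = ind (xS + (lS : V k) = flr σ (X b) + ((lS - i + r : ℕ) : V k)) := (ind_of h3).symm
        _ ≤ ∑ j ∈ range (lS + 2 ^ σ), ind (xS + (lS : V k) = flr σ (X b) + (j : V k)) :=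
            Finset.single_le_sum (f := fun j : ℕ => ind (xS + (lS : V k) = flr σ (X b) + (j : V k)))
              (fun _ _ => ind_nonneg _) (Finset.mem_range.mpr h2)
    · intro z hz
      obtain ⟨b, _, rfl⟩ := Finset.mem_image.mp hz
      exact Pool.Agent.M3.Bin.flr_flr le_rfl (X b)
  refine hsum.trans ?_
  have hxY : 0 ≤ x * 2 ^ 10241 * Y := by positivity
  calc (S.card : ℝ) = ∑ z ∈ S.image (fun b => flr σ (X b)), ((S.filter fun b => flr σ (X b) = z).card : ℝ) := by
        rw [Finset.card_eq_sum_card_image (fun b => flr σ (X b)) S]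
        push_cast
        rfl
    _ ≤ ∑ _z ∈ S.image (fun b => flr σ (X b)), x * 2 ^ 10241 * Y := Finset.sum_le_sum hcell
    _ = (S.image fun b => flr σ (X b)).card * (x * 2 ^ 10241 * Y) := by rw [Finset.sum_const, nsmul_eq_mul]
    _ ≤ M * (x * 2 ^ 10241 * Y) := mul_le_mul_of_nonneg_right hnum hxY
    _ = _ := by ring

end

end Pool.Agent.GMC
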