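import Pool.Agent.GMC.Chain
import Pool.Agent.GMC.Pot

/-!
# GMC/Sys: THE INTERFACE between the class side (Mod, Split, Cls, Disc, Ent, Bias, Reg, Kern) and the steps (StepA, StepB)

(helper91)  One finite probability space `P : FP Om`, micro times `t = 0, .., T` (always SATURATED states).
A DEPTH is `i : ℕ∞`: `i = k` (`k ≤ L`) or `i = ⊤` (exact point).

* `nu t` = micro node; `D (t+1)` = the bit between `t` and `t+1` (`1`, `-1`; `0` = a step without a bit);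
* `PA i t` = class of `a` of depth `i` at the time `t` (`PA ⊤ t` = the point `a`), `PB j t` = class of `b`;
* `Ix i j t = (nu t, PA i t, PB j t)` = index of the process `X i j t = X^(i,j)`; `GA t = (nu t, PA ⊤ t)` (exact `a`), `GB t`;
* `Y i j (t+1)` = value after the bit with the OLD classes and the OLD versions;
* `entA i (t+1)` = `a` enters a new class of depth `<= i` at the time `t+1`; `dA i (t+1)` = loss by versions and removals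
  (for `i = ⊤`: versions only), a function of `GA (t+1)`;
* `bB j t` >= square of the bias of `D (t+1)` given `(a, nu, P'^j)`, a function of `GB t`; `bA i t` the same for `(nu, P^i, b)`;
* `regB l t` = REG(beta(b), P'^l(b)) at the time `t`; `exB i j t` = `b` is exceptional of depth `j` for the vector of `a` of
  depth `i` = `eps_j ≤ |X^(i,j) - X^(i,⊤)|`.

NUMBERS: `x k` = bound `x~_k` of the exceptional sets, `bud k` = budget of the depth `k`, `bv` = budget of the versions,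
`y0` = rarity (RAR), `nr j l` = sum of Lemma R.
-/

set_option autoImplicit false
set_option linter.unusedSectionVars false

namespace Pool.Agent.GMC

open Finset Pool.Agent.PWZ Pool.Agent.M3

noncomputable section

variable {Om : Type*} [Fintype Om]

/-- the data of a system of classes along the micro path -/
structure Sys (Om : Type*) (Nd κA κB : Type*) where
  nu : ℕ → Om → Nd
  D : ℕ → Om → ℝ
  PA : ℕ∞ → ℕ → Om → κA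
  PB : ℕ∞ → ℕ → Om → κB
  X : ℕ∞ → ℕ∞ → ℕ → Om → ℝ
  Y : ℕ∞ → ℕ∞ → ℕ → Om → ℝ
  entA : ℕ∞ → ℕ → Om → Prop
  entB : ℕ∞ → ℕ → Om → Prop
  dA : ℕ∞ → ℕ → Om → ℝ
  dB : ℕ∞ → ℕ → Om → ℝ
  bA : ℕ → ℕ → Om → ℝ
  bB : ℕ → ℕ → Om → ℝ
  regA : ℕ → ℕ → Om → Prop
  regB : ℕ → ℕ → Om → Prop

variable {Nd κA κB : Type*}

/-- exact `a` -/
def Sys.GA (S : Sys Om Nd κA κB) (t : ℕ) (w : Om) : Nd × κA := (S.nu t w, S.PA ⊤ t w)

/-- exact `b` -/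
def Sys.GB (S : Sys Om Nd κA κB) (t : ℕ) (w : Om) : Nd × κB := (S.nu t w, S.PB ⊤ t w)

/-- index of the process `X i j` -/
def Sys.Ix (S : Sys Om Nd κA κB) (i j : ℕ∞) (t : ℕ) (w : Om) : Nd × κA × κB := (S.nu t w, S.PA i t w, S.PB j t w)

/-- `b` is exceptional of depth `j` for the vector of `a` of depth `i` -/
def Sys.exB (S : Sys Om Nd κA κB) (r : ℝ) (i : ℕ∞) (j : ℕ) (t : ℕ) (w : Om) : Prop :=
  epk r j ≤ |S.X i j t w - S.X i ⊤ t w|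

/-- `a` is exceptional of depth `i` for the vector of `b` of depth `j` -/
def Sys.exA (S : Sys Om Nd κA κB) (r : ℝ) (i : ℕ) (j : ℕ∞) (t : ℕ) (w : Om) : Prop :=
  epk r i ≤ |S.X i j t w - S.X ⊤ j t w|

/-- admissible depths -/
def okd (L : ℕ) (i : ℕ∞) : Prop := i = ⊤ ∨ ∃ k : ℕ, k ≤ L ∧ i = k

/-- ALL HYPOTHESES -/
structure Sys.Hyp (S : Sys Om Nd κA κB) (P : FP Om) (T L : ℕ) (r q y0 bv : ℝ) (x bud : ℕ → ℝ) (nr : ℕ → ℕ → ℝ) :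
    Prop where
  -- refining and nested
  nuF : ∀ t < T, Fac (S.nu (t + 1)) (S.nu t)
  refA : ∀ i, okd L i → ∀ t < T, Fac (fun w => (S.nu (t + 1) w, S.PA i (t + 1) w)) (S.PA i t)
  refB : ∀ j, okd L j → ∀ t < T, Fac (fun w => (S.nu (t + 1) w, S.PB j (t + 1) w)) (S.PB j t)
  nestA : ∀ i j, okd L i → okd L j → i ≤ j → ∀ t ≤ T, Fac (fun w => (S.nu t w, S.PA j t w)) (S.PA i t)
  nestB : ∀ i j, okd L i → okd L j → i ≤ j → ∀ t ≤ T, Fac (fun w => (S.nu t w, S.PB j t w)) (S.PB i t)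
  -- bits
  DF : ∀ t < T, Fac (S.nu (t + 1)) (S.D (t + 1))
  nuD : ∀ t < T, ∀ v w, S.nu t v = S.nu t w → S.D (t + 1) v = S.D (t + 1) w → S.nu (t + 1) v = S.nu (t + 1) w
  D01 : ∀ t < T, ∀ w, (∀ v, S.nu t v = S.nu t w → S.D (t + 1) v = 0) ∨
    (∀ v, S.nu t v = S.nu t w → S.D (t + 1) v = 1 ∨ S.D (t + 1) v = -1)
  fairA : ∀ t < T, ∀ w, P.p w ≠ 0 → P.m (S.GA t) w ≤ 2 * P.m (S.GA (t + 1)) w
  fairB : ∀ t < T, ∀ w, P.p w ≠ 0 → P.m (S.GB t) w ≤ 2 * P.m (S.GB (t + 1)) w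
  -- the processes
  XF : ∀ i j, okd L i → okd L j → ∀ t ≤ T, Fac (S.Ix i j t) (S.X i j t)
  X0 : ∀ i j t w, 0 ≤ S.X i j t w
  X1 : ∀ i j t w, S.X i j t w ≤ 1
  Y1 : ∀ i j t w, S.Y i j t w ≤ 1
  q0 : 0 ≤ q
  psd : ∀ i j, okd L i → okd L j → ∀ t < T, ∀ w, P.p w ≠ 0 →
    S.X i j t w - q * P.ce (S.Ix i j t) (S.D (t + 1)) w ^ 2 ≤ P.ce (S.Ix i j t) (S.Y i j (t + 1)) w
  -- entries: without an entry the class at `t+1` is determined by the class at `t` and the node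
  contA : ∀ i, okd L i → ∀ t < T, ∀ v w, S.nu (t + 1) v = S.nu (t + 1) w → S.PA i t v = S.PA i t w →
    ¬ S.entA i (t + 1) v → ¬ S.entA i (t + 1) w → S.PA i (t + 1) v = S.PA i (t + 1) w
  contB : ∀ j, okd L j → ∀ t < T, ∀ v w, S.nu (t + 1) v = S.nu (t + 1) w → S.PB j t v = S.PB j t w →
    ¬ S.entB j (t + 1) v → ¬ S.entB j (t + 1) w → S.PB j (t + 1) v = S.PB j (t + 1) w
  entAF : ∀ i, okd L i → ∀ t < T, ∀ v w, S.GA (t + 1) v = S.GA (t + 1) w → (S.entA i (t + 1) v ↔ S.entA i (t + 1) w)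
  entBF : ∀ j, okd L j → ∀ t < T, ∀ v w, S.GB (t + 1) v = S.GB (t + 1) w → (S.entB j (t + 1) v ↔ S.entB j (t + 1) w)
  entAtop : ∀ t w, ¬ S.entA ⊤ t w
  entBtop : ∀ t w, ¬ S.entB ⊤ t w
  entAmono : ∀ i j, okd L i → okd L j → i ≤ j → j ≠ ⊤ → ∀ t w, S.entA i t w → S.entA j t w
  entBmono : ∀ i j, okd L i → okd L j → i ≤ j → j ≠ ⊤ → ∀ t w, S.entB i t w → S.entB j t w
  -- losses by versions and removals
  loss : ∀ i j, okd L i → okd L j → ∀ t < T, ∀ w, P.p w ≠ 0 → ¬ S.entA i (t + 1) w → ¬ S.entB j (t + 1) w →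
    S.Y i j (t + 1) w - (S.dA i (t + 1) w + S.dB j (t + 1) w) ≤ S.X i j (t + 1) w
  dA0 : ∀ i t w, 0 ≤ S.dA i t w
  dB0 : ∀ j t w, 0 ≤ S.dB j t w
  dAF : ∀ i, okd L i → ∀ t < T, Fac (S.GA (t + 1)) (S.dA i (t + 1))
  dBF : ∀ j, okd L j → ∀ t < T, Fac (S.GB (t + 1)) (S.dB j (t + 1))
  -- biases
  bAF : ∀ i ≤ L, ∀ t < T, Fac (S.GA t) (S.bA i t)
  bBF : ∀ j ≤ L, ∀ t < T, Fac (S.GB t) (S.bB j t)
  biasA : ∀ i ≤ L, ∀ t < T, ∀ w, P.p w ≠ 0 → P.ce (S.Ix i ⊤ t) (S.D (t + 1)) w ^ 2 ≤ S.bA i t w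
  biasB : ∀ j ≤ L, ∀ t < T, ∀ w, P.p w ≠ 0 → P.ce (S.Ix ⊤ j t) (S.D (t + 1)) w ^ 2 ≤ S.bB j t w
  -- budgets
  bud_mono : ∀ k l, k ≤ l → bud k ≤ bud l
  bv0 : 0 ≤ bv
  sbA : ∀ i ≤ L, ∑ t ∈ range T, P.E (S.bA i t) ≤ bud i
  sbB : ∀ j ≤ L, ∑ t ∈ range T, P.E (S.bB j t) ≤ bud j
  seA : ∀ i ≤ L, ∑ t ∈ range T, P.Pr (S.entA i (t + 1)) ≤ bud i
  seB : ∀ j ≤ L, ∑ t ∈ range T, P.Pr (S.entB j (t + 1)) ≤ bud j
  sdA : ∀ i : ℕ, i ≤ L → ∑ t ∈ range T, P.E (S.dA i (t + 1)) ≤ bud i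
  sdB : ∀ j : ℕ, j ≤ L → ∑ t ∈ range T, P.E (S.dB j (t + 1)) ≤ bud j
  svA : ∑ t ∈ range T, P.E (S.dA ⊤ (t + 1)) ≤ bv
  svB : ∑ t ∈ range T, P.E (S.dB ⊤ (t + 1)) ≤ bv
  -- exceptional sets: (C2.3 (a)), the regular case (C2.3 (c)), Lemma R
  x0 : ∀ k, 0 ≤ x k
  x_anti : ∀ k l, k ≤ l → x l ≤ x k
  exA_le : ∀ i ≤ L, ∀ j, okd L j → ∀ t ≤ T, ∀ w, P.p w ≠ 0 → P.ce (S.GB t) (fun v => ind (S.exA r i j t v)) w ≤ x i
  exB_le : ∀ i, okd L i → ∀ j ≤ L, ∀ t ≤ T, ∀ w, P.p w ≠ 0 → P.ce (S.GA t) (fun v => ind (S.exB r i j t v)) w ≤ x j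
  exA_reg : ∀ l i, l ≤ i → i ≤ L → ∀ j, okd L j → ∀ t ≤ T, ∀ w, P.p w ≠ 0 →
    P.ce (S.Ix l ⊤ t) (fun v => ind (S.exA r i j t v ∧ S.regA l t v)) w ≤ x i
  exB_reg : ∀ i, okd L i → ∀ l j, l ≤ j → j ≤ L → ∀ t ≤ T, ∀ w, P.p w ≠ 0 →
    P.ce (S.Ix ⊤ l t) (fun v => ind (S.exB r i j t v ∧ S.regB l t v)) w ≤ x j
  exA_nr : ∀ l i, l ≤ i → i ≤ L → ∀ j, okd L j →
    ∑ t ∈ range (T + 1), P.Pr (fun w => S.exA r i j t w ∧ ¬ S.regA l t w) ≤ nr i l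
  exB_nr : ∀ i, okd L i → ∀ l j, l ≤ j → j ≤ L →
    ∑ t ∈ range (T + 1), P.Pr (fun w => S.exB r i j t w ∧ ¬ S.regB l t w) ≤ nr j l
  -- rarity (RAR)
  y00 : 0 ≤ y0
  rarA : ∀ i, okd L i → ∀ t ≤ T, ∀ w, P.p w ≠ 0 → P.ce (S.GA t) (fun v => ind (99 / 100 * r ≤ S.X i ⊤ t v)) w ≤ y0
  rarB : ∀ j, okd L j → ∀ t ≤ T, ∀ w, P.p w ≠ 0 → P.ce (S.GB t) (fun v => ind (99 / 100 * r ≤ S.X ⊤ j t v)) w ≤ y0

end

end Pool.Agent.GMC
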