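import Pool.Agent.GMC.Mod3
import Pool.Agent.GMC.Sys
import Pool.Agent.GMC.ClsDyn
import Pool.Agent.GMC.RegB
import Pool.Agent.GM99.Split

/-!
# GMC/Inst: THE CONCRETE INSTANCE of `Sys` on `S2 k N n P` (definitions; helper41, captain of C2)

* `Face` : a face in split form: exponent, EXACT node `(y, digits above)` (rounding and offset are inside the family, see Bri),
  the exact vertex, the others, the coin (`Ξ`; `Unit` = no coin), argument;
* from Mod3: `wU c ν`, `uW c ν` : uniform weights of the cells / of the window of the node `ν` of the configuration `c`;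
  `parT N hh n t ν` : parent (time `t`) of the node `ν` (time `t+1`), `sgT N hh n t ω` : sign of the step `t → t+1`;
* `Ins k N n P Ξ` : the data (`h`: product tests on cells of scale `e - (h+3)`, `hh` = micro cells of scale `e - hh`, `q`, `L`, `r`, `th`, faces
  `FA` (`a` exact, misses `b`), `FB`);
* `I.nu t`, `I.ver F t` (current version), `I.vc F t ν a` (current vector), `I.vo F t ν a` (at the node `ν` of the time `t+1`, OLD
  version), `I.cv F t ν a` (cost of the change of version between `t` and `t+1`);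
* `I.Y F` : the class system of the side `F` (`CSys` of ClsDyn), small cells of scale `sgm t = (cf t).1 - hh`,
  neighbourhoods with `R = 2^((cf t).1 + 7)`; `I.clx F i t ν a` : class of depth `i : ℕ∞` (`{a}` for `⊤`);
* `I.d2 F l t ν a`, `I.Reg F l t ν a` : irregularity, regularity;
* numbers of `Sys.Hyp`: `x = I.xt`, `bud = I.bud p`, `bv = 2^n * p`, `y0 = I.y0`, `nr = I.nr p`;
* `I.sys : Sys ...` : THE INSTANCE; `I.swap` : the roles of `a` and `b` exchanged, `sw` : exchange of `a` and `b` in the sample.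
-/

set_option autoImplicit false
set_option linter.unusedSectionVars false

namespace Pool.Agent.GMC

open Finset Pool.Agent.PWZ Pool.Agent.M3 Pool.Agent.M3.Bin Pool.Agent.M3.Mod
open Pool.Agent.GM99 (Ohc pm kapc)

noncomputable section

/-- a face in split form: exponent, EXACT node `(y, digits above)`, the exact vertex, the others, the coin of the exact point, argument -/
abbrev Face (k n : ℕ) (P Ξ : Type) : Type := ℕ → V k × ℕ → P × V k → (Fin n → P × V k) → Ξ → V k → ℝ

variable {k N n : ℕ} {P Ξ : Type}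

/-- the data -/
structure Ins (k N n : ℕ) (P Ξ : Type) where
  /-- the product tests hold on products of cells of scale `e - (h + 3)` -/
  h : ℕ
  /-- micro cells of the others: scale `e - hh` -/
  hh : ℕ
  /-- half of the exponent -/
  q : ℕ
  /-- maximal depth -/
  L : ℕ
  /-- heat -/
  r : ℝ
  /-- smallness of the product tests -/
  th : ℝ
  /-- weights of the coin -/
  wx : Ξ → ℝ
  /-- the face of `a` (misses `b`) -/
  FA : Face k n P Ξ
  /-- the face of `b` (misses `a`) -/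
  FB : Face k n P Ξ

/-- the Hilbert space of all vectors -/
abbrev EE (k n : ℕ) (P Ξ : Type) [Fintype P] [Fintype Ξ] (q : ℕ) : Type :=
  EuclideanSpace ℝ (Ohc (P × V k) Ξ (V k) n q)

namespace Ins

variable (I : Ins k N n P Ξ)

/-- configuration of the time `t` -/
def cc (t : ℕ) : Cfg n := cf N I.hh n t

/-- number of micro steps -/
def T (_I : Ins k N n P Ξ) : ℕ := (n + 1) * N

/-- the node of the time `t` -/
def nu (t : ℕ) (ω : S2 k N n P) : Nd k n := Nc (I.cc t) ω

/-- the version of the face at the node `ν` of the time `t` -/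
def ver (F : Face k n P Ξ) (t : ℕ) (ν : Nd k n) : P × V k → (Fin n → P × V k) → Ξ → V k → ℝ :=
  F (I.cc t).1 ν.1

/-- scale of the small cells of `a`, `b` -/
def sgm (t : ℕ) : ℕ := (I.cc t).1 - I.hh

/-- radius of the neighbourhoods -/
def RR (t : ℕ) : ℕ := 2 ^ ((I.cc t).1 + 7)

/-- exponent of the grid cells -/
def Ex (t : ℕ) : ℕ := (I.cc t).1 + 7

/-- roles of `a` and `b` exchanged -/
def swap : Ins k N n P Ξ := { I with FA := I.FB, FB := I.FA }

section fin

variable [Fintype P] [Fintype Ξ]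

/-- current vector of the point `a` at the node `ν` of the time `t` -/
def vc (F : Face k n P Ξ) (t : ℕ) (ν : Nd k n) (a : P × V k) : EE k n P Ξ I.q :=
  GM99.vecc (wU (I.cc t) ν) I.wx (uW (I.cc t) ν) I.q (I.ver F t ν a)

/-- vector of `a` at the node `ν` of the time `t + 1`, OLD version -/
def vo (F : Face k n P Ξ) (t : ℕ) (ν : Nd k n) (a : P × V k) : EE k n P Ξ I.q :=
  GM99.vecc (wU (I.cc (t + 1)) ν) I.wx (uW (I.cc (t + 1)) ν) I.q (I.ver F t (parT N I.hh n t ν) a)

/-- cost of the change of version between `t` and `t + 1` at the node `ν` of the time `t + 1` -/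
def cv (F : Face k n P Ξ) (t : ℕ) (ν : Nd k n) (a : P × V k) : ℝ :=
  2 ^ n * pm (wU (I.cc (t + 1)) ν) (fun x => ∑ ξ, I.wx ξ *
    ind (I.ver F t (parT N I.hh n t ν) a x ξ ≠ I.ver F (t + 1) ν a x ξ))

variable [DecidableEq P]

/-- THE CLASS SYSTEM of the side `F` -/
def Y (F : Face k n P Ξ) : CSys (P × V k) (EE k n P Ξ I.q) (Nd k n) where
  par := parT N I.hh n
  vec := I.vc F
  al t _ i := univ.filter fun u => flr (I.sgm t) u.2 = flr (I.sgm t) i.2
  nb t _ i := univ.filter fun u => (u.2 - nx (I.sgm t) (I.RR t) i.2).val < 2 ^ I.sgm t + 2 * I.RR t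
  x := xk I.th
  eps := epk I.r
  L := I.L

/-- class of depth `i : ℕ∞` of the point `a` at the node `ν` of the time `t` -/
def clx (F : Face k n P Ξ) (i : ℕ∞) (t : ℕ) (ν : Nd k n) (a : P × V k) : Finset (P × V k) :=
  if i = ⊤ then {a} else (I.Y F).st t ν i.toNat a

/-- entry of depth `≤ i` at the node `ν` of the time `t` -/
def en (F : Face k n P Ξ) (i : ℕ∞) (t : ℕ) (ν : Nd k n) (a : P × V k) : Prop :=
  i ≠ ⊤ ∧ (I.Y F).ent i.toNat t ν a

/-- loss of the depth `i` between `t` and `t + 1`, at the node `ν` of the time `t + 1`: versions and entries of the members of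
the OLD class -/
def ls (F : Face k n P Ξ) (i : ℕ∞) (t : ℕ) (ν : Nd k n) (a : P × V k) : ℝ :=
  ((I.clx F i t (parT N I.hh n t ν) a).card : ℝ)⁻¹ *
    ∑ u ∈ I.clx F i t (parT N I.hh n t ν) a, (I.cv F t ν u + ind (I.en F i (t + 1) ν u))

/-- irregularity of the class of depth `l` at the point `a` -/
def d2 [Nonempty P] (F : Face k n P Ξ) (l t : ℕ) (ν : Nd k n) (a : P × V k) : ℝ :=
  D2 (FP.unif (P × V k)) ((I.Y F).st t ν l) Prod.snd (I.Ex t) a

/-- bound of the squared bias; at the top levels `1` -/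
def bb2 [Nonempty P] (F : Face k n P Ξ) (l t : ℕ) (ν : Nd k n) (a : P × V k) : ℝ :=
  if I.Ex t ≤ k then 2 ^ 20 * I.d2 F l t ν a else 1

/-- regularity; false at the top levels -/
def Reg (F : Face k n P Ξ) (l t : ℕ) (ν : Nd k n) (a : P × V k) : Prop :=
  I.Ex t ≤ k ∧ REG ((I.Y F).st t ν l) Prod.snd (I.Ex t) (I.sgm t) (I.RR t) a

variable [Nonempty P]

/-- THE INSTANCE -/
def sys : Sys (S2 k N n P) (Nd k n) (Finset (P × V k)) (Finset (P × V k)) where
  nu := I.nu
  D
    | 0, _ => 0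
    | t + 1, ω => sgT N I.hh n t ω
  PA i t ω := I.clx I.FA i t (I.nu t ω) (va ω)
  PB j t ω := I.clx I.FB j t (I.nu t ω) (vb ω)
  X i j t ω := inner ℝ (mn (I.vc I.FA t (I.nu t ω)) (I.clx I.FA i t (I.nu t ω) (va ω)))
    (mn (I.vc I.FB t (I.nu t ω)) (I.clx I.FB j t (I.nu t ω) (vb ω)))
  Y i j
    | 0, _ => 0
    | t + 1, ω => inner ℝ (mn (I.vo I.FA t (I.nu (t + 1) ω)) (I.clx I.FA i t (I.nu t ω) (va ω)))
        (mn (I.vo I.FB t (I.nu (t + 1) ω)) (I.clx I.FB j t (I.nu t ω) (vb ω)))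
  entA i t ω := I.en I.FA i t (I.nu t ω) (va ω)
  entB j t ω := I.en I.FB j t (I.nu t ω) (vb ω)
  dA i
    | 0, _ => 0
    | t + 1, ω => I.ls I.FA i t (I.nu (t + 1) ω) (va ω)
  dB j
    | 0, _ => 0
    | t + 1, ω => I.ls I.FB j t (I.nu (t + 1) ω) (vb ω)
  bA l t ω := I.bb2 I.FA l t (I.nu t ω) (va ω)
  bB l t ω := I.bb2 I.FB l t (I.nu t ω) (vb ω)
  regA l t ω := I.Reg I.FA l t (I.nu t ω) (va ω)
  regB l t ω := I.Reg I.FB l t (I.nu t ω) (vb ω)

/-- THE KERNEL at the node `ν` of the time `t` -/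
def K (t : ℕ) (ν : Nd k n) (a b : P × V k) : ℝ :=
  kapc (wU (I.cc t) ν) I.wx (uW (I.cc t) ν) I.q (fun x ξ z => I.ver I.FA t ν a x ξ z * I.ver I.FB t ν b x ξ z)

end fin

end Ins

/-- exchange of `a` and `b` -/
def sw (ω : S2 k N n P) : S2 k N n P := ((vb ω, va ω, vo ω), ω.2)

/-- HYPOTHESES ON ONE FACE `F` (`G` = the other face): bounded, changes of version (coin averaged), product tests (small cells of
scale `e - (h+3)`, windows at exact nodes; the tests are the other face at an exact point `a'` and coin free functions which miss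
one of the other vertices) -/
structure FaceH [Fintype P] [Nonempty P] [Fintype Ξ] (I : Ins k N n P Ξ) (vx : S2 k N n P → P × V k) (F G : Face k n P Ξ)
    (p eps0 : ℝ) : Prop where
  le : ∀ e g a x ξ z, |F e g a x ξ z| ≤ 1
  ver : ∑ t ∈ range I.T, (Pu k N n P).E (fun ω => ∑ ξ, I.wx ξ *
    ind (I.ver F t (I.nu t ω) (vx ω) (vo ω) ξ ≠ I.ver F (t + 1) (I.nu (t + 1) ω) (vx ω) (vo ω) ξ)) ≤ p
  pt : ∀ e ≤ N, ∀ (g : V k × ℕ) (a' : P × V k) (ca : V k) (c : Fin n → V k)
    (v : Fin n → P × V k → (Fin n → P × V k) → V k → ℝ),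
    (∀ i a x z, |v i a x z| ≤ 1) →
    (∀ i a x y, (∀ j, j ≠ i → x j = y j) → ∀ z, v i a x z = v i a y z) →
    ∑ a ∈ SC (P := P) I.h e ca, ∑ x ∈ Fintype.piFinset fun i => SC (P := P) I.h e (c i), ∑ ξ, I.wx ξ *
      ind (eps0 ≤ |av e g.1 (fun d => F e g a x ξ d * G e g a' x ξ d * ∏ i, v i a x d)|) ≤
    I.th * ((SC (P := P) I.h e ca).card * (Fintype.piFinset fun i => SC (P := P) I.h e (c i)).card)

/-! ## the numbers of `Sys.Hyp` -/

/-- universal constant of the exceptional sets (constants of RegB) -/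
def CX : ℝ := 2 ^ 10300

/-- constant of the budgets -/
def CB (n : ℕ) : ℝ := 2 ^ (n + 60) * ((n : ℝ) + 1)

/-- `S = CX 2^hh`, the third number of `Qb` -/
def Ins.SS (I : Ins k N n P Ξ) : ℝ := CX * 2 ^ I.hh

/-- bound of the exceptional sets of depth `j` -/
def Ins.xt (I : Ins k N n P Ξ) (j : ℕ) : ℝ := I.SS * xk I.th j

/-- budget of the depth `l` (`p` = mean number of changes of version) -/
def Ins.bud (I : Ins k N n P Ξ) (p : ℝ) (l : ℕ) : ℝ := Bk (CB n) I.r p I.th l

/-- rarity -/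
def Ins.y0 (I : Ins k N n P Ξ) : ℝ := 10 * I.th / I.r

/-- sums of Lemma R -/
def Ins.nr (I : Ins k N n P Ξ) (p : ℝ) (i l : ℕ) : ℝ := I.xt i * I.bud p l

/-- ALL HYPOTHESES of C2 -/
structure InsH [Fintype P] [Nonempty P] [Fintype Ξ] (I : Ins k N n P Ξ) (p eps0 : ℝ) : Prop where
  hN : N ≤ k
  hn : 4 * n ≤ 2 ^ I.hh
  hh : I.hh ≤ I.h + 3
  q1 : 1 ≤ I.q
  eps00 : 0 ≤ eps0
  rr : 4 * eps0 ^ (2 * I.q) ≤ I.r
  rpos : 0 < I.r
  r1 : I.r ≤ 1
  thpos : 0 < I.th
  th1 : I.th < 1
  p0 : 0 ≤ p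
  wx0 : ∀ ξ, 0 ≤ I.wx ξ
  wx1 : ∑ ξ, I.wx ξ = 1
  a : FaceH I va I.FA I.FB p eps0
  b : FaceH I vb I.FB I.FA p eps0

end

end Pool.Agent.GMC
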