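import Pool.Agent.GMC.DSumM
import Pool.Agent.GMC.Inst

/-!
# GMC/BiasI: the fields `biasA`, `biasB`, `sbA`, `sbB` of `Sys.Hyp` for the instance `Ins.sys` (helper24)
-/

set_option autoImplicit false
set_option linter.unusedSectionVars false

namespace Pool.Agent.GMC

open Finset Pool.Agent.PWZ Pool.Agent.M3 Pool.Agent.M3.Bin Pool.Agent.M3.Mod

noncomputable section

variable {k N n : ℕ} {P Ξ : Type}

/-! ## bounds of the discrepancies -/

theorem GG_le_32 {Om ι : Type*} [Fintype Om] (Q : FP Om) (L : Om → ι) (v : Om → ℕ) (τ : ℕ) {w : Om}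
    (hw : Q.p w ≠ 0) : GG Q L v τ w ≤ 32 := by
  unfold GG
  have h1 : ∀ j ∈ range τ, (7 / 8 : ℝ) ^ j * (4 * Q.ce (XC L v τ) (fun u => bb Q L v (τ - 1 - j) u ^ 2) w) ≤
      (7 / 8 : ℝ) ^ j * 4 := by
    intro j _
    have h2 : Q.ce (XC L v τ) (fun u => bb Q L v (τ - 1 - j) u ^ 2) w ≤ 1 := by
      refine Q.ce_le_const (fun u hu => ?_) hw
      have h3 : bb Q L v (τ - 1 - j) u ≤ 1 := by
        refine Q.ce_le_const (fun x _ => ?_) hu
        rcases pb_cases v (τ - 1 - j) x with h | h <;> rw [h] <;> norm_num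
      have h4 : -1 ≤ bb Q L v (τ - 1 - j) u := by
        have h5 : Q.ce (XC L v (τ - 1 - j + 1)) (fun x => - pb v (τ - 1 - j) x) u ≤ 1 := by
          refine Q.ce_le_const (fun x _ => ?_) hu
          rcases pb_cases v (τ - 1 - j) x with h | h <;> rw [h] <;> norm_num
        rw [Q.ce_neg] at h5
        unfold bb
        linarith
      nlinarith
    have h6 : (0 : ℝ) ≤ (7 / 8) ^ j := by positivity
    nlinarith
  refine (Finset.sum_le_sum h1).trans ?_
  rw [← Finset.sum_mul]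
  have h7 : ∑ j ∈ range τ, (7 / 8 : ℝ) ^ j ≤ 8 := by
    rw [geom_sum_eq (by norm_num)]
    have : (0 : ℝ) ≤ (7 / 8) ^ τ := by positivity
    rw [div_le_iff_of_neg (by norm_num)]
    linarith
  linarith

theorem D2_le_64 {Om ι : Type*} [Fintype Om] (Q : FP Om) (L : Om → ι) (X : Om → V k) (e : ℕ) {w : Om}
    (hw : Q.p w ≠ 0) : D2 Q L X e w ≤ 64 := by
  unfold D2
  rw [Fin.sum_univ_two]
  have h1 := GG_le_32 Q L (fun u => gp k 0 (X u)) e hw
  have h2 := GG_le_32 Q L (fun u => gp k 1 (X u)) e hw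
  linarith

/-! ## neighbourhoods -/

/-- two points of the same cell are near -/
theorem gp_near {s : Fin 2} {e : ℕ} {u v : V k} (h : gp k s u / 2 ^ e = gp k s v / 2 ^ e) :
    ∃ d : ℕ, d < 2 ^ e ∧ (v = u + (d : V k) ∨ v = u - (d : V k)) := by
  have hp : 0 < 2 ^ e := by positivity
  have h1 := Nat.div_add_mod (gp k s u) (2 ^ e)
  have h2 := Nat.div_add_mod (gp k s v) (2 ^ e)
  have h3 := Nat.mod_lt (gp k s u) hp
  have h4 := Nat.mod_lt (gp k s v) hp
  rw [h] at h1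
  rcases le_total (gp k s u) (gp k s v) with h5 | h5
  · refine ⟨gp k s v - gp k s u, by omega, Or.inl ?_⟩
    rw [Nat.cast_sub h5, ← gp_inv s v, ← gp_inv s u]
    simp only [gp_inv]
    rw [eq_comm]
    have := gp_inv s v
    have h6 := gp_inv s u
    linear_combination this - h6
  · refine ⟨gp k s u - gp k s v, by omega, Or.inr ?_⟩
    rw [Nat.cast_sub h5]
    have := gp_inv s v
    have h6 := gp_inv s u
    linear_combination h6 - this

theorem nb_of_cell {σ e : ℕ} {s : Fin 2} {u v i : V k} (h1 : flr σ u = flr σ i)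
    (h2 : gp k s u / 2 ^ e = gp k s v / 2 ^ e) : (v - nx σ (2 ^ e) i).val < 2 ^ σ + 2 * 2 ^ e := by
  obtain ⟨r, hr, hu⟩ := flr_add_rem σ u
  obtain ⟨d, hd, hv⟩ := gp_near h2
  have h3 : ∃ m : ℕ, m < 2 ^ σ + 2 * 2 ^ e ∧ v - nx σ (2 ^ e) i = (m : V k) := by
    rcases hv with hv | hv
    · refine ⟨r + d + 2 ^ e, by omega, ?_⟩
      rw [hv]
      unfold nx
      rw [← h1]
      push_cast
      linear_combination hu
    · refine ⟨r + (2 ^ e - d), by omega, ?_⟩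
      rw [hv]
      unfold nx
      rw [← h1]
      push_cast [Nat.cast_sub hd.le]
      linear_combination hu
  obtain ⟨m, hm, h4⟩ := h3
  rw [h4, ZMod.val_natCast]
  exact lt_of_le_of_lt (Nat.mod_le _ _) hm

namespace Ins

variable [Fintype P] [Fintype Ξ] [DecidableEq P] [Nonempty P] (I : Ins k N n P Ξ)

theorem hnbI (F : Face k n P Ξ) : ∀ t ≤ (n + 1) * N, ∀ w : S2 k N n P, ∀ (i u v : P × V k) (s : Fin 2),
    u ∈ (I.Y F).al t (Nc (cf N I.hh n t) w) i →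
      gp k s u.2 / 2 ^ ((cf N I.hh n t).1 + 7) = gp k s v.2 / 2 ^ ((cf N I.hh n t).1 + 7) →
      v ∈ (I.Y F).nb t (Nc (cf N I.hh n t) w) i := by
  intro t _ w i u v s hu huv
  have h1 : flr (I.sgm t) u.2 = flr (I.sgm t) i.2 := (Finset.mem_filter.mp hu).2
  refine Finset.mem_filter.mpr ⟨Finset.mem_univ _, ?_⟩
  exact nb_of_cell h1 huv

theorem bb2_nonneg (F : Face k n P Ξ) (l t : ℕ) (ν : Nd k n) (a : P × V k) : 0 ≤ I.bb2 F l t ν a := by
  unfold bb2
  split_ifs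
  · exact mul_nonneg (by norm_num) (D2_nonneg _ _ _ _ _)
  · norm_num

/-- FIELD `biasA` -/
theorem biasA {p eps0 : ℝ} (hI : InsH I p eps0) (i : ℕ) {t : ℕ} (ht : t < I.T) (w : S2 k N n P) :
    (Pu k N n P).ce (I.sys.Ix i ⊤ t) (I.sys.D (t + 1)) w ^ 2 ≤ I.sys.bA i t w := by
  have hh : 2 * n ≤ 2 ^ I.hh := by have := hI.hn; omega
  have hX : (Pu k N n P).ce (I.sys.Ix i ⊤ t) (I.sys.D (t + 1)) w =
      (Pu k N n P).ce (fun ω => (Nc (cf N I.hh n t) ω, ((I.Y I.FA).st t (Nc (cf N I.hh n t) ω) i (va ω), vb ω)))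
        (sgT N I.hh n t) w := by
    refine FP.ce_congr_map _ ?_ ?_ _ w
    · intro v w hvw
      simp only [Sys.Ix, sys, nu, clx, Prod.mk.injEq, ENat.natCast_ne_top, if_false, if_true, ENat.toNat_natCast,
        Finset.singleton_inj] at hvw
      simp only [Prod.mk.injEq]
      exact ⟨hvw.1, hvw.2.1, hvw.2.2⟩
    · intro v w hvw
      simp only [Prod.mk.injEq] at hvw
      simp only [Sys.Ix, sys, nu, clx, Prod.mk.injEq, ENat.natCast_ne_top, if_false, if_true, ENat.toNat_natCast,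
        Finset.singleton_inj]
      exact ⟨hvw.1, hvw.2.1, hvw.2.2⟩
  rw [hX]
  show _ ≤ I.bb2 I.FA i t (I.nu t w) (va w)
  by_cases h0 : cf N I.hh n (t + 1) = cf N I.hh n t
  · have h1 : (sgT N I.hh n t : S2 k N n P → ℝ) = fun _ => 0 := by
      funext ω; unfold sgT; rw [if_pos h0]
    rw [h1, (Pu k N n P).ce_const _ 0 (Pu_ne w)]
    norm_num
    exact I.bb2_nonneg _ _ _ _ _
  unfold bb2
  split_ifs with h7
  · have hso := stepOk_cf (n := n) (k := k) hI.hN hh ht h0 h7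
    have h1 := bias_A hso (fun ν a => (I.Y I.FA).st t ν i a) w
    rw [(cf_step' (k := k) hI.hN ht h0).1] at h1
    rw [sgT_eq hI.hN ht h0]
    exact h1
  · exact ce_sgT_sq_le_one _ _ _

/-- FIELD `biasB` -/
theorem biasB {p eps0 : ℝ} (hI : InsH I p eps0) (j : ℕ) {t : ℕ} (ht : t < I.T) (w : S2 k N n P) :
    (Pu k N n P).ce (I.sys.Ix ⊤ j t) (I.sys.D (t + 1)) w ^ 2 ≤ I.sys.bB j t w := by
  have hh : 2 * n ≤ 2 ^ I.hh := by have := hI.hn; omega
  have hX : (Pu k N n P).ce (I.sys.Ix ⊤ j t) (I.sys.D (t + 1)) w =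
      (Pu k N n P).ce (fun ω => (Nc (cf N I.hh n t) ω, (va ω, (I.Y I.FB).st t (Nc (cf N I.hh n t) ω) j (vb ω))))
        (sgT N I.hh n t) w := by
    refine FP.ce_congr_map _ ?_ ?_ _ w
    · intro v w hvw
      simp only [Sys.Ix, sys, nu, clx, Prod.mk.injEq, ENat.natCast_ne_top, if_false, if_true, ENat.toNat_natCast,
        Finset.singleton_inj] at hvw
      simp only [Prod.mk.injEq]
      exact ⟨hvw.1, hvw.2.1, hvw.2.2⟩
    · intro v w hvw
      simp only [Prod.mk.injEq] at hvw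
      simp only [Sys.Ix, sys, nu, clx, Prod.mk.injEq, ENat.natCast_ne_top, if_false, if_true, ENat.toNat_natCast,
        Finset.singleton_inj]
      exact ⟨hvw.1, hvw.2.1, hvw.2.2⟩
  rw [hX]
  show _ ≤ I.bb2 I.FB j t (I.nu t w) (vb w)
  by_cases h0 : cf N I.hh n (t + 1) = cf N I.hh n t
  · have h1 : (sgT N I.hh n t : S2 k N n P → ℝ) = fun _ => 0 := by
      funext ω; unfold sgT; rw [if_pos h0]
    rw [h1, (Pu k N n P).ce_const _ 0 (Pu_ne w)]
    norm_num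
    exact I.bb2_nonneg _ _ _ _ _
  unfold bb2
  split_ifs with h7
  · have hso := stepOk_cf (n := n) (k := k) hI.hN hh ht h0 h7
    have h1 := bias_B hso (fun ν a => (I.Y I.FB).st t ν j a) w
    rw [(cf_step' (k := k) hI.hN ht h0).1] at h1
    rw [sgT_eq hI.hN ht h0]
    exact h1
  · exact ce_sgT_sq_le_one _ _ _

/-- numbers: `Nk` of the class system is at most `Nk (CB n)` -/
theorem NkY_le (F : Face k n P Ξ) {p : ℝ} (hr : 0 < I.r) (hp : 0 ≤ p) (i : ℕ) :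
    CSys.Nk (I.Y F) (2 ^ (n + 1) * p) i ≤ Nk (CB n) I.r p i := by
  unfold CSys.Nk Nk
  refine Finset.sum_le_sum fun j _ => ?_
  have h1 : 0 < epk I.r j := by unfold epk; positivity
  have h2 : (1 : ℝ) + 2 ^ (n + 1) * p ≤ CB n * (1 + p) := by
    unfold CB
    have h3 : (2 : ℝ) ^ (n + 1) ≤ 2 ^ (n + 60) := pow_le_pow_right₀ (by norm_num) (by omega)
    have h4 : (1 : ℝ) ≤ 2 ^ (n + 60) := one_le_pow₀ (by norm_num)
    have h5 : (0 : ℝ) ≤ n := Nat.cast_nonneg n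
    have h6 : (2 : ℝ) ^ (n + 60) ≤ 2 ^ (n + 60) * ((n : ℝ) + 1) := by nlinarith
    calc (1 : ℝ) + 2 ^ (n + 1) * p ≤ 2 ^ (n + 60) + 2 ^ (n + 60) * p :=
          add_le_add h4 (mul_le_mul_of_nonneg_right h3 hp)
      _ = 2 ^ (n + 60) * (1 + p) := by ring
      _ ≤ _ := mul_le_mul_of_nonneg_right h6 (by linarith)
  show (1 + 2 ^ (n + 1) * p) / epk I.r j ^ 2 ≤ _
  gcongr

/-- the sum of the bounds of one side -/
theorem sum_bb2 {p eps0 : ℝ} (hI : InsH I p eps0) {F : Face k n P Ξ} {x : S2 k N n P → P × V k}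
    {cst : ℕ → Nd k n → P × V k → ℝ} (H : CSys.Hyp (Pu k N n P) (I.Y F) I.T x I.nu cst (2 ^ (n + 1) * p))
    (hUI : ∀ c : Cfg n, UI (Pu k N n P) x (Nc c)) (i : ℕ) :
    ∑ t ∈ range I.T, (Pu k N n P).E (fun w => I.bb2 F i t (I.nu t w) (x w)) ≤ I.bud p i := by
  have hp := hI.p0
  have hr := hI.rpos
  have hxk1 : ∀ j, xk I.th j ≤ 1 := fun j => by
    unfold xk; exact pow_le_one₀ hI.thpos.le hI.th1.le
  have hxk0 : ∀ j, 0 < xk I.th j := fun j => by unfold xk; exact pow_pos hI.thpos _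
  have hs : ∑ t ∈ range ((n + 1) * N), (Pu k N n P).E (fun w => bvv N I.hh n (I.Y F) i t (Nc (cf N I.hh n t) w) (x w)) ≤
      2 ^ 27 * (n + 1) * ((1 + Real.log (1 / (I.Y F).x i)) * CSys.Nk (I.Y F) (2 ^ (n + 1) * p) i) + (7 * (n + 1) + 1) :=
    sum_bvv H hUI hI.hN (by positivity) hxk1 (I.hnbI F) i
  have h1 : ∀ t ∈ range I.T, (Pu k N n P).E (fun w => I.bb2 F i t (I.nu t w) (x w)) ≤
      (Pu k N n P).E (fun w => bvv N I.hh n (I.Y F) i t (Nc (cf N I.hh n t) w) (x w)) + (if t = 0 then 2 ^ 26 else 0) := by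
    intro t ht
    have ht' : t < (n + 1) * N := Finset.mem_range.mp ht
    by_cases h0 : t = 0
    · rw [if_pos h0]
      have h2 : (Pu k N n P).E (fun w => I.bb2 F i t (I.nu t w) (x w)) ≤ 2 ^ 26 := by
        refine (Pu k N n P).E_le_const (fun w _ => ?_)
        unfold bb2
        split_ifs
        · unfold d2
          have h3 := D2_le_64 (FP.unif (P × V k)) ((I.Y F).st t (I.nu t w) i) (Prod.snd : P × V k → V k) (I.Ex t)
            (w := x w) (FP.unif_ne _ _)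
          linarith
        · norm_num
      have h4 : 0 ≤ (Pu k N n P).E (fun w => bvv N I.hh n (I.Y F) i t (Nc (cf N I.hh n t) w) (x w)) :=
        (Pu k N n P).E_nonneg fun w _ => bvv_nonneg _ _ _ _ _ _ _ _
      linarith
    · rw [if_neg h0, add_zero]
      refine le_of_eq ((Pu k N n P).E_congr fun w _ => ?_)
      have hN1 : 1 ≤ N := by
        rcases Nat.eq_zero_or_pos N with h4 | h4
        · rw [h4, Nat.mul_zero] at ht'; omega
        · exact h4
      have h5 : (cf N I.hh n t).1 < N := by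
        have h6 : (cf N I.hh n t).1 = N - (t + n) / (n + 1) := rfl
        have h7 : 1 ≤ (t + n) / (n + 1) := by
          rw [Nat.le_div_iff_mul_le (Nat.succ_pos n)]; omega
        omega
      unfold bb2 bvv
      have h8 : (I.Ex t ≤ k) = ((cf N I.hh n t).1 + 7 ≤ k ∧ (cf N I.hh n t).1 < N) := by
        refine propext ⟨fun h => ⟨h, h5⟩, fun h => h.1⟩
      simp only [h8]
      rfl
  refine (Finset.sum_le_sum h1).trans ?_
  rw [Finset.sum_add_distrib]
  have h2 : ∑ t ∈ range I.T, (if t = 0 then (2 : ℝ) ^ 26 else 0) ≤ 2 ^ 26 := by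
    rw [Finset.sum_ite_eq']
    split_ifs <;> norm_num
  have hNk := I.NkY_le F hr hp i
  have hNk0 : 0 ≤ CSys.Nk (I.Y F) (2 ^ (n + 1) * p) i := by
    unfold CSys.Nk
    refine Finset.sum_nonneg fun j _ => ?_
    show 0 ≤ (1 + 2 ^ (n + 1) * p) / epk I.r j ^ 2
    positivity
  set A : ℝ := 1 + Real.log (1 / xk I.th i) with hA
  have hA1 : 1 ≤ A := by
    have : 0 ≤ Real.log (1 / xk I.th i) :=
      Real.log_nonneg (by rw [le_div_iff₀ (hxk0 i)]; linarith [hxk1 i])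
    linarith
  have hs' : ∑ t ∈ range I.T, (Pu k N n P).E (fun w => bvv N I.hh n (I.Y F) i t (Nc (cf N I.hh n t) w) (x w)) ≤
      2 ^ 27 * (n + 1) * (A * CSys.Nk (I.Y F) (2 ^ (n + 1) * p) i) + (7 * (n + 1) + 1) := hs
  show _ ≤ CB n * (1 + Nk (CB n) I.r p i) * A
  set M := Nk (CB n) I.r p i
  set m := CSys.Nk (I.Y F) (2 ^ (n + 1) * p) i
  have hn0 : (0 : ℝ) ≤ n := Nat.cast_nonneg n
  have hCB : 2 ^ 60 * ((n : ℝ) + 1) ≤ CB n := by
    unfold CB
    refine mul_le_mul_of_nonneg_right (pow_le_pow_right₀ (by norm_num) (by omega)) (by linarith)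
  have h3 : A * m ≤ A * M := mul_le_mul_of_nonneg_left hNk (by linarith)
  have h4 : 0 ≤ A * M := mul_nonneg (by linarith) (hNk0.trans hNk)
  have h5 : 2 ^ 60 * ((n : ℝ) + 1) * (A + A * M) ≤ CB n * (1 + M) * A := by
    have : CB n * (1 + M) * A = CB n * (A + A * M) := by ring
    rw [this]
    exact mul_le_mul_of_nonneg_right hCB (by linarith)
  have h6 : 2 ^ 27 * ((n : ℝ) + 1) * (A * m) ≤ 2 ^ 27 * ((n : ℝ) + 1) * (A * M) :=
    mul_le_mul_of_nonneg_left h3 (by positivity)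
  have h7 : 2 ^ 27 * ((n : ℝ) + 1) * (A * M) ≤ 2 ^ 60 * ((n : ℝ) + 1) * (A * M) := by
    have : 0 ≤ ((n : ℝ) + 1) * (A * M) := by positivity
    nlinarith
  have h8 : (7 * ((n : ℝ) + 1) + 1) + 2 ^ 26 ≤ 2 ^ 60 * ((n : ℝ) + 1) * A := by
    have : ((n : ℝ) + 1) * 1 ≤ ((n : ℝ) + 1) * A := mul_le_mul_of_nonneg_left hA1 (by linarith)
    nlinarith
  nlinarith

/-- FIELD `sbA` -/
theorem sbA {p eps0 : ℝ} (hI : InsH I p eps0) {cst : ℕ → Nd k n → P × V k → ℝ}
    (H : CSys.Hyp (Pu k N n P) (I.Y I.FA) I.T va I.nu cst (2 ^ (n + 1) * p)) (i : ℕ) :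
    ∑ t ∈ range I.T, (Pu k N n P).E (I.sys.bA i t) ≤ I.bud p i :=
  I.sum_bb2 hI H UI_a i

/-- FIELD `sbB` -/
theorem sbB {p eps0 : ℝ} (hI : InsH I p eps0) {cst : ℕ → Nd k n → P × V k → ℝ}
    (H : CSys.Hyp (Pu k N n P) (I.Y I.FB) I.T vb I.nu cst (2 ^ (n + 1) * p)) (j : ℕ) :
    ∑ t ∈ range I.T, (Pu k N n P).E (I.sys.bB j t) ≤ I.bud p j :=
  I.sum_bb2 hI H UI_b j

end Ins

end

end Pool.Agent.GMC
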