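import Pool.Agent.GMC.Ener

/-!
# GMC/EnerF: versions which depend on the exponent and the exact node of the noise only (helper28)

`sum_macro` : a sum over the micro times with zero terms outside the noise steps; `sum_ver` : number of changes along the
micro path = number of changes along the exponents `N, N-1, .., 0`.
-/

set_option autoImplicit false
set_option linter.unusedSectionVars false

namespace Pool.Agent.GMC

open Finset Pool.Agent.PWZ Pool.Agent.M3 Pool.Agent.M3.Bin Pool.Agent.M3.Mod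

noncomputable section

variable {k N n : ℕ} {P : Type} [Fintype P] [Nonempty P]

theorem sum_macro (n T : ℕ) (g : ℕ → ℝ) (hg : ∀ τ, τ % (n + 1) ≠ 0 → g τ = 0) :
    ∑ τ ∈ range ((n + 1) * T), g τ = ∑ j ∈ range T, g ((n + 1) * j) := by
  induction T with
  | zero => simp
  | succ T ih =>
    rw [Nat.mul_succ, Finset.sum_range_add, ih, Finset.sum_range_succ _ T, Finset.sum_range_succ' _ n]
    have h1 : ∑ i ∈ range n, g ((n + 1) * T + (i + 1)) = 0 := by
      refine Finset.sum_eq_zero fun i hi => hg _ ?_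
      rw [Nat.mul_add_mod, Nat.mod_eq_of_lt (by have := Finset.mem_range.1 hi; omega)]
      omega
    rw [h1, zero_add]
    rfl

/-- families: exponent, EXACT node (position, digits above), one vertex, the others, argument -/
abbrev FmE (k n : ℕ) (P : Type) := ℕ → V k × ℕ → P × V k → (Fin n → P × V k) → V k → ℝ

/-- the family at the micro times -/
def toT (N h : ℕ) (FA : FmE k n P) : FacT k n P := fun t ν => FA (cf N h n t).1 ν.1

/-- NUMBER OF CHANGES along the micro path -/
theorem sum_ver (h : ℕ) (FA : FmE k n P) (x : S2 k N n P → P × V k) :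
    ∑ t ∈ range ((n + 1) * N), (Pu k N n P).Pr (fun ω =>
      toT N h FA t (Nc (cf N h n t) ω) (x ω) (vo ω) ≠ toT N h FA (t + 1) (Nc (cf N h n (t + 1)) ω) (x ω) (vo ω)) =
    ∑ e ∈ range N, (Pu k N n P).Pr (fun ω =>
      FA (e + 1) (nd (e + 1) (ct ω) (nw ω)) (x ω) (vo ω) ≠ FA e (nd e (ct ω) (nw ω)) (x ω) (vo ω)) := by
  rw [sum_macro n N]
  · rw [← Finset.sum_range_reflect]
    refine Finset.sum_congr rfl fun j hj => ?_
    have hj' := Finset.mem_range.1 hj
    refine FP.Pr_congr _ fun ω _ => ?_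
    unfold toT
    have h1 := cf_macro (n := n) N h (N - 1 - j)
    have h2 := cf_fst_succ (n := n) N h ((n + 1) * (N - 1 - j))
    rw [Nat.mul_mod_right, if_pos rfl, h1] at h2
    have h3 : N - (N - 1 - j) = j + 1 := by omega
    simp only at h2
    rw [h3] at h2
    have h4 : (cf N h n ((n + 1) * (N - 1 - j))).1 = j + 1 := by rw [h1]; exact h3
    have h5 : (cf N h n ((n + 1) * (N - 1 - j) + 1)).1 = j := by rw [h2]; rfl
    show FA (cf N h n ((n + 1) * (N - 1 - j))).1 (nd (cf N h n ((n + 1) * (N - 1 - j))).1 (ct ω) (nw ω)) (x ω) (vo ω) ≠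
      FA (cf N h n ((n + 1) * (N - 1 - j) + 1)).1 (nd (cf N h n ((n + 1) * (N - 1 - j) + 1)).1 (ct ω) (nw ω))
        (x ω) (vo ω) ↔ _
    rw [h4, h5]
  · intro τ hτ
    have h1 := cf_fst_succ (n := n) N h τ
    rw [if_neg hτ, Nat.sub_zero] at h1
    have h2 : ∀ ω : S2 k N n P, toT N h FA τ (Nc (cf N h n τ) ω) (x ω) (vo ω) =
        toT N h FA (τ + 1) (Nc (cf N h n (τ + 1)) ω) (x ω) (vo ω) := by
      intro ω
      show FA (cf N h n τ).1 (nd (cf N h n τ).1 (ct ω) (nw ω)) (x ω) (vo ω) =
        FA (cf N h n (τ + 1)).1 (nd (cf N h n (τ + 1)).1 (ct ω) (nw ω)) (x ω) (vo ω)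
      rw [h1]
    unfold FP.Pr
    have h3 : (fun ω : S2 k N n P => ind (toT N h FA τ (Nc (cf N h n τ) ω) (x ω) (vo ω) ≠
        toT N h FA (τ + 1) (Nc (cf N h n (τ + 1)) ω) (x ω) (vo ω))) = fun _ => 0 := by
      funext ω
      exact ind_not (fun hne => hne (h2 ω))
    rw [h3, FP.E_const]

end

end Pool.Agent.GMC
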