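import Pool.Agent.GMC.Inst
import Pool.Agent.GMC.EnerF

/-!
# GMC/EnerX: energy and costs of the versions for the instance, with coins (helper28)

* `kapc_chg` : change of the functions costs `2^n P(change)` (coin averaged);
* `inn_step`, `inn_stepT` : ONE STEP, any bias: ` (1 - q be^2) <m_S, m_T> ≤ (1+be)/2 <.,.>_0 + (1-be)/2 <.,.>_1` for arbitrary
  functions and classes with the weights of the node (children `chT`);
* `Ins.cst` : costs of `CSys.Hyp`; `Ins.energy` : field `en`; `Ins.E_cv_a`, `Ins.sum_cv_a`, `Ins.sum_cst_a` : field `hc`;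
* `sys_svA` : `∑_t E dA ⊤ (t+1) ≤ 2^n p`.
-/

set_option autoImplicit false
set_option linter.unusedSectionVars false

namespace Pool.Agent.GMC

open Finset Pool.Agent.PWZ Pool.Agent.M3 Pool.Agent.M3.Bin Pool.Agent.M3.Mod Pool.Agent.GM99

noncomputable section

/-! ## change of the functions -/

section chg

variable {X Z Ξ : Type*} [Fintype X] [Fintype Z] [Fintype Ξ] {n : ℕ}

theorem pc_proj (v : Ξ → ℝ) (hv1 : ∑ ξ, v ξ = 1) (e0 : Fin n → Bool) (g : Ξ → ℝ) :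
    pc n v (fun ξ => g (ξ e0)) = ∑ ξ, v ξ * g ξ := by
  rw [pc_resample n v hv1 e0]
  simp only [Function.update_self]
  exact pc_const n v hv1 _

theorem kapc_chg (w : Fin n → X → ℝ) (hw : ∀ i x, 0 ≤ w i x) (hs : ∀ i, ∑ x, w i x = 1) (v : Ξ → ℝ) (hv : ∀ ξ, 0 ≤ v ξ)
    (hv1 : ∑ ξ, v ξ = 1) (u : Z → ℝ) (hu : ∀ z, 0 ≤ u z) (hu1 : ∑ z, u z = 1) (q : ℕ) (f g : (Fin n → X) → Ξ → Z → ℝ)
    (hf : ∀ x ξ z, |f x ξ z| ≤ 1) :
    kapc w v u q f ≤ kapc w v u q g + 2 ^ n * pm w fun x => ∑ ξ, v ξ * ind (f x ξ ≠ g x ξ) := by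
  have hpt : ∀ (x y : Fin n → X) (ξ : (Fin n → Bool) → Ξ),
      (∑ z, u z * ∏ e : Fin n → Bool, f (mixp x y e) (ξ e) z) ^ (2 * q) ≤
      (∑ z, u z * ∏ e : Fin n → Bool, g (mixp x y e) (ξ e) z) ^ (2 * q) +
        ∑ e : Fin n → Bool, ind (f (mixp x y e) (ξ e) ≠ g (mixp x y e) (ξ e)) := by
    intro x y ξ
    have h0 : (0 : ℝ) ≤ (∑ z, u z * ∏ e : Fin n → Bool, g (mixp x y e) (ξ e) z) ^ (2 * q) :=
      (even_two_mul q).pow_nonneg _
    by_cases h : ∃ e : Fin n → Bool, f (mixp x y e) (ξ e) ≠ g (mixp x y e) (ξ e)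
    · obtain ⟨e0, he0⟩ := h
      have h2 : ind (f (mixp x y e0) (ξ e0) ≠ g (mixp x y e0) (ξ e0)) ≤
          ∑ e : Fin n → Bool, ind (f (mixp x y e) (ξ e) ≠ g (mixp x y e) (ξ e)) :=
        Finset.single_le_sum (f := fun e : Fin n → Bool => ind (f (mixp x y e) (ξ e) ≠ g (mixp x y e) (ξ e)))
          (fun e _ => ind_nonneg _) (Finset.mem_univ e0)
      rw [ind_of he0] at h2
      have h3 : |∑ z, u z * ∏ e : Fin n → Bool, f (mixp x y e) (ξ e) z| ≤ 1 := by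
        refine (Finset.abs_sum_le_sum_abs _ _).trans ?_
        rw [← hu1]
        refine Finset.sum_le_sum fun z _ => ?_
        rw [abs_mul, abs_of_nonneg (hu z), Finset.abs_prod]
        refine mul_le_of_le_one_right (hu z) ?_
        exact Finset.prod_le_one (fun _ _ => abs_nonneg _) fun e _ => hf _ _ _
      have h4 : (∑ z, u z * ∏ e : Fin n → Bool, f (mixp x y e) (ξ e) z) ^ (2 * q) ≤ 1 := by
        rw [← (even_two_mul q).pow_abs]
        exact pow_le_one₀ (abs_nonneg _) h3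
      linarith
    · push Not at h
      have h2 : (0 : ℝ) ≤ ∑ e : Fin n → Bool, ind (f (mixp x y e) (ξ e) ≠ g (mixp x y e) (ξ e)) :=
        Finset.sum_nonneg fun e _ => ind_nonneg _
      have h3 : (∑ z, u z * ∏ e : Fin n → Bool, f (mixp x y e) (ξ e) z) =
          ∑ z, u z * ∏ e : Fin n → Bool, g (mixp x y e) (ξ e) z := by
        refine Finset.sum_congr rfl fun z _ => ?_
        congr 1
        exact Finset.prod_congr rfl fun e _ => by rw [h e]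
      rw [h3]
      linarith
  have h1 : kapc w v u q f ≤ pm w fun x => pm w fun y => pc n v fun ξ =>
      ((∑ z, u z * ∏ e : Fin n → Bool, g (mixp x y e) (ξ e) z) ^ (2 * q) +
        ∑ e : Fin n → Bool, ind (f (mixp x y e) (ξ e) ≠ g (mixp x y e) (ξ e))) :=
    GM99.pm_mono w hw fun x => GM99.pm_mono w hw fun y => pc_mono n v hv fun ξ => hpt x y ξ
  refine h1.trans (le_of_eq ?_)
  have h2 : ∀ x y : Fin n → X, (pc n v fun ξ => ((∑ z, u z * ∏ e : Fin n → Bool, g (mixp x y e) (ξ e) z) ^ (2 * q) +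
        ∑ e : Fin n → Bool, ind (f (mixp x y e) (ξ e) ≠ g (mixp x y e) (ξ e)))) =
      (pc n v fun ξ => (∑ z, u z * ∏ e : Fin n → Bool, g (mixp x y e) (ξ e) z) ^ (2 * q)) +
        ∑ e : Fin n → Bool, ∑ ξ, v ξ * ind (f (mixp x y e) ξ ≠ g (mixp x y e) ξ) := by
    intro x y
    rw [pc_add, pc_sum]
    congr 1
    exact Finset.sum_congr rfl fun e _ => pc_proj v hv1 e (fun ξ => ind (f (mixp x y e) ξ ≠ g (mixp x y e) ξ))
  have h3 : ∀ x : Fin n → X, (pm w fun y => pc n v fun ξ =>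
      ((∑ z, u z * ∏ e : Fin n → Bool, g (mixp x y e) (ξ e) z) ^ (2 * q) +
        ∑ e : Fin n → Bool, ind (f (mixp x y e) (ξ e) ≠ g (mixp x y e) (ξ e)))) =
      (pm w fun y => pc n v fun ξ => (∑ z, u z * ∏ e : Fin n → Bool, g (mixp x y e) (ξ e) z) ^ (2 * q)) +
        ∑ e : Fin n → Bool, pm w fun y => ∑ ξ, v ξ * ind (f (mixp x y e) ξ ≠ g (mixp x y e) ξ) := by
    intro x
    rw [← pm_sum, ← pm_add]
    exact GM99.pm_congr w fun y => h2 x y
  rw [GM99.pm_congr w h3, pm_add, pm_sum,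
    Finset.sum_congr rfl fun e _ => pm_mixp w hs e (fun x => ∑ ξ, v ξ * ind (f x ξ ≠ g x ξ)), Finset.sum_const,
    Finset.card_univ, nsmul_eq_mul]
  unfold kapc
  simp

/-- change of the functions in the square of the norm of a class mean -/
theorem norm_mS_chg {A : Type*} (w : Fin n → X → ℝ) (hw : ∀ i x, 0 ≤ w i x) (hs : ∀ i, ∑ x, w i x = 1) (v : Ξ → ℝ)
    (hv : ∀ ξ, 0 ≤ v ξ) (hv1 : ∑ ξ, v ξ = 1) (u : Z → ℝ) (hu : ∀ z, 0 ≤ u z) (hu1 : ∑ z, u z = 1) (q : ℕ)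
    (F G : A → (Fin n → X) → Ξ → Z → ℝ) (hF : ∀ a x ξ z, |F a x ξ z| ≤ 1) (S : Finset A) :
    ‖mS (fun a => vecc w v u q (F a)) S‖ ^ 2 ≤ ‖mS (fun a => vecc w v u q (G a)) S‖ ^ 2 +
      (S.card : ℝ)⁻¹ * ∑ a ∈ S, 2 * (2 ^ n * pm w fun x => ∑ ξ, v ξ * ind (F a x ξ ≠ G a x ξ)) := by
  set c : A → ℝ := fun a => 2 ^ n * pm w fun x => ∑ ξ, v ξ * ind (F a x ξ ≠ G a x ξ) with hc
  rw [← real_inner_self_eq_norm_sq, ← real_inner_self_eq_norm_sq, inner_mS_vecc w hw v hv u hu,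
    inner_mS_vecc w hw v hv u hu]
  rcases S.eq_empty_or_nonempty with hS | hS
  · subst hS
    simp
  have hcard : (0 : ℝ) < S.card := by exact_mod_cast hS.card_pos
  have h1 : ∀ a ∈ S, ∀ b ∈ S, kapc w v u q (fun x ξ z => F a x ξ z * F b x ξ z) ≤
      kapc w v u q (fun x ξ z => G a x ξ z * G b x ξ z) + (c a + c b) := by
    intro a _ b _
    refine (kapc_chg w hw hs v hv hv1 u hu hu1 q _ (fun x ξ z => G a x ξ z * G b x ξ z)
      (fun _ _ _ => abs_mul_le_one' (hF _ _ _ _) (hF _ _ _ _))).trans ?_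
    rw [hc]
    simp only
    rw [← mul_add, ← pm_add]
    refine add_le_add le_rfl (mul_le_mul_of_nonneg_left (GM99.pm_mono w hw fun x => ?_) (by positivity))
    rw [← Finset.sum_add_distrib]
    refine Finset.sum_le_sum fun ξ _ => ?_
    rw [← mul_add]
    refine mul_le_mul_of_nonneg_left ?_ (hv ξ)
    refine (ind_mono fun h => ?_).trans (ind_or_le _ _)
    by_contra hcon
    push Not at hcon
    exact h (by funext z; rw [hcon.1, hcon.2])
  have h2 : ∑ a ∈ S, ∑ b ∈ S, kapc w v u q (fun x ξ z => F a x ξ z * F b x ξ z) ≤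
      ∑ a ∈ S, ∑ b ∈ S, kapc w v u q (fun x ξ z => G a x ξ z * G b x ξ z) + 2 * (S.card * ∑ a ∈ S, c a) := by
    refine (Finset.sum_le_sum fun a ha => Finset.sum_le_sum fun b hb => h1 a ha b hb).trans (le_of_eq ?_)
    have h3 : ∀ a ∈ S, ∑ b ∈ S, (kapc w v u q (fun x ξ z => G a x ξ z * G b x ξ z) + (c a + c b)) =
        ∑ b ∈ S, kapc w v u q (fun x ξ z => G a x ξ z * G b x ξ z) + ((S.card : ℝ) * c a + ∑ b ∈ S, c b) := by
      intro a _
      rw [Finset.sum_add_distrib, Finset.sum_add_distrib, Finset.sum_const, nsmul_eq_mul]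
    rw [Finset.sum_congr rfl h3, Finset.sum_add_distrib, Finset.sum_add_distrib, Finset.sum_const, nsmul_eq_mul,
      ← Finset.mul_sum]
    ring
  have h3 : 0 ≤ (S.card : ℝ)⁻¹ * (S.card : ℝ)⁻¹ := by positivity
  have h4 := mul_le_mul_of_nonneg_left h2 h3
  refine h4.trans (le_of_eq ?_)
  have h5 : ∑ a ∈ S, 2 * (2 ^ n * pm w fun x => ∑ ξ, v ξ * ind (F a x ξ ≠ G a x ξ)) = 2 * ∑ a ∈ S, c a := by
    rw [Finset.mul_sum]
  rw [h5]
  field_simp

end chg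

/-! ## one step -/

section step

variable {k N n : ℕ} {P Ξ : Type} [Fintype P] [Nonempty P] [Fintype Ξ]

theorem inn_nonneg {A B : Type*} (c : Cfg n) (ν : Nd k n) (v : Ξ → ℝ) (hv : ∀ ξ, 0 ≤ v ξ) (q : ℕ)
    (F : A → (Fin n → P × V k) → Ξ → V k → ℝ) (G : B → (Fin n → P × V k) → Ξ → V k → ℝ) (S : Finset A) (T : Finset B) :
    0 ≤ inner ℝ (mS (fun a => vecc (wU c ν) v (uW c ν) q (F a)) S) (mS (fun b => vecc (wU c ν) v (uW c ν) q (G b)) T) := by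
  rw [inner_mS_vecc _ (fun i x => wU_nonneg _ _ i x) v hv _ (fun z => uW_nonneg _ _ z)]
  refine mul_nonneg (by positivity) (Finset.sum_nonneg fun a _ => Finset.sum_nonneg fun b _ => ?_)
  exact kapc_nonneg _ (fun i x => wU_nonneg _ _ i x) v hv _ _ _

/-- ONE MICRO STEP, any bias -/
theorem inn_step {A B : Type*} {st : Option (Fin n)} {c : Cfg n} (hok : Ok k N st c) (hN : N ≤ k) {ν : Nd k n}
    (hν : Val N (up st c).1 (up st c).2 ν) {be : ℝ} (hbe : |be| ≤ 1) {q : ℕ} (hq : 1 ≤ q)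
    (v : Ξ → ℝ) (hv : ∀ ξ, 0 ≤ v ξ) (F : A → (Fin n → P × V k) → Ξ → V k → ℝ) (G : B → (Fin n → P × V k) → Ξ → V k → ℝ)
    (S : Finset A) (T : Finset B) :
    (1 - q * be ^ 2) * inner ℝ (mS (fun a => vecc (wU (up st c) ν) v (uW (up st c) ν) q (F a)) S)
        (mS (fun b => vecc (wU (up st c) ν) v (uW (up st c) ν) q (G b)) T) ≤
      (1 + be) / 2 * inner ℝ (mS (fun a => vecc (wU c (chd st c 0 ν)) v (uW c (chd st c 0 ν)) q (F a)) S)
        (mS (fun b => vecc (wU c (chd st c 0 ν)) v (uW c (chd st c 0 ν)) q (G b)) T) +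
      (1 - be) / 2 * inner ℝ (mS (fun a => vecc (wU c (chd st c 1 ν)) v (uW c (chd st c 1 ν)) q (F a)) S)
        (mS (fun b => vecc (wU c (chd st c 1 ν)) v (uW c (chd st c 1 ν)) q (G b)) T) := by
  have hK := inn_nonneg (up st c) ν v hv q F G S T
  have hb2 : be ^ 2 ≤ 1 := by
    rw [← sq_abs]
    exact pow_le_one₀ (abs_nonneg _) hbe
  have hb0 : 0 ≤ be ^ 2 := sq_nonneg _
  cases st with
  | none =>
    have hok' : c.1 + 1 ≤ N := hok
    have h := mS_win (wU (up none c) ν) (fun i x => wU_nonneg _ _ i x) v hv (uW (up none c) ν)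
      (uW c (chd none c 0 ν)) (uW c (chd none c 1 ν)) (fun z => uW_nonneg _ _ z) (fun z => uW_nonneg _ _ z)
      (fun z => uW_nonneg _ _ z) (uW_half (by omega) ν) be hbe q F G S T
    have h2 : 1 - (q : ℝ) * be ^ 2 ≤ (1 - be ^ 2) ^ q := by
      have h3 := one_add_mul_le_pow (a := -be ^ 2) (by linarith) q
      calc 1 - (q : ℝ) * be ^ 2 = 1 + q * (-be ^ 2) := by ring
        _ ≤ (1 + -be ^ 2) ^ q := h3
        _ = _ := by ring_nf
    exact (mul_le_mul_of_nonneg_right h2 hK).trans h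
  | some i =>
    have hok' : c.2 i + 1 ≤ k := hok
    have hν' : flr (c.2 i + 1) (ν.2 i) = ν.2 i := by
      have := hν.2 i
      unfold up at this
      simpa using this
    have h := mS_bit (wU (up (some i) c) ν) (fun i x => wU_nonneg _ _ i x) i
      (wU c (chd (some i) c 0 ν) i) (wU c (chd (some i) c 1 ν) i) (fun x => wU_nonneg _ _ i x)
      (fun x => wU_nonneg _ _ i x) (wU_half hok' hν') be v hv
      (uW (up (some i) c) ν) (fun z => uW_nonneg _ _ z) q F G S T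
    rw [← wU_upd, ← wU_upd] at h
    have h2 : 1 - (q : ℝ) * be ^ 2 ≤ 1 - be ^ 2 := by
      have : (1 : ℝ) ≤ q := by exact_mod_cast hq
      nlinarith
    exact (mul_le_mul_of_nonneg_right h2 hK).trans h

/-- ONE STEP OF THE LINEAR SEQUENCE, any bias -/
theorem inn_stepT {A B : Type*} {h τ : ℕ} (hN : N ≤ k) (hτ : τ < (n + 1) * N) (ω : S2 k N n P)
    {be : ℝ} (hbe : |be| ≤ 1) {q : ℕ} (hq : 1 ≤ q)
    (v : Ξ → ℝ) (hv : ∀ ξ, 0 ≤ v ξ) (F : A → (Fin n → P × V k) → Ξ → V k → ℝ) (G : B → (Fin n → P × V k) → Ξ → V k → ℝ)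
    (S : Finset A) (T : Finset B) :
    (1 - q * be ^ 2) * inner ℝ
        (mS (fun a => vecc (wU (cf N h n τ) (Nc (cf N h n τ) ω)) v (uW (cf N h n τ) (Nc (cf N h n τ) ω)) q (F a)) S)
        (mS (fun b => vecc (wU (cf N h n τ) (Nc (cf N h n τ) ω)) v (uW (cf N h n τ) (Nc (cf N h n τ) ω)) q (G b)) T) ≤
      (1 + be) / 2 * inner ℝ
        (mS (fun a => vecc (wU (cf N h n (τ + 1)) (chT N h n τ 0 (Nc (cf N h n τ) ω))) v
          (uW (cf N h n (τ + 1)) (chT N h n τ 0 (Nc (cf N h n τ) ω))) q (F a)) S)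
        (mS (fun b => vecc (wU (cf N h n (τ + 1)) (chT N h n τ 0 (Nc (cf N h n τ) ω))) v
          (uW (cf N h n (τ + 1)) (chT N h n τ 0 (Nc (cf N h n τ) ω))) q (G b)) T) +
      (1 - be) / 2 * inner ℝ
        (mS (fun a => vecc (wU (cf N h n (τ + 1)) (chT N h n τ 1 (Nc (cf N h n τ) ω))) v
          (uW (cf N h n (τ + 1)) (chT N h n τ 1 (Nc (cf N h n τ) ω))) q (F a)) S)
        (mS (fun b => vecc (wU (cf N h n (τ + 1)) (chT N h n τ 1 (Nc (cf N h n τ) ω))) v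
          (uW (cf N h n (τ + 1)) (chT N h n τ 1 (Nc (cf N h n τ) ω))) q (G b)) T) := by
  unfold chT
  by_cases h0 : cf N h n (τ + 1) = cf N h n τ
  · rw [if_pos h0, if_pos h0, h0]
    have hK := inn_nonneg (cf N h n τ) (Nc (cf N h n τ) ω) v hv q F G S T
    have : 0 ≤ (q : ℝ) * be ^ 2 := by positivity
    nlinarith
  · rw [if_neg h0, if_neg h0]
    have h2 := cf_step' hN hτ h0
    have h3 := inn_step (P := P) h2.2 hN (ν := Nc (cf N h n τ) ω)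
      (by rw [h2.1]; exact val_Nn (cf_fst_le _ _ _) _ ω) hbe hq v hv F G S T
    rw [h2.1] at h3
    exact h3

end step

/-! ## the instance -/

section ins

variable {k N n : ℕ} {P Ξ : Type} [Fintype P] [Nonempty P] [Fintype Ξ]

theorem Ins.cv_nonneg (I : Ins k N n P Ξ) (hwx : ∀ ξ, 0 ≤ I.wx ξ) (F : Face k n P Ξ) (t : ℕ) (ν : Nd k n) (v : P × V k) :
    0 ≤ I.cv F t ν v := by
  unfold Ins.cv
  have := pm_nonneg (wU (I.cc (t + 1)) ν) (fun i x => wU_nonneg _ _ i x)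
    (f := fun x => ∑ ξ, I.wx ξ * ind (I.ver F t (parT N I.hh n t ν) v x ξ ≠ I.ver F (t + 1) ν v x ξ))
    (fun x => Finset.sum_nonneg fun ξ _ => mul_nonneg (hwx ξ) (ind_nonneg _))
  positivity

/-- the costs in the form of `CSys.Hyp` -/
def Ins.cst (I : Ins k N n P Ξ) (F : Face k n P Ξ) (τ : ℕ) (ν : Nd k n) (v : P × V k) : ℝ := 2 * I.cv F (τ - 1) ν v

theorem Ins.cst_succ (I : Ins k N n P Ξ) (F : Face k n P Ξ) (t : ℕ) (ν : Nd k n) (v : P × V k) :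
    I.cst F (t + 1) ν v = 2 * I.cv F t ν v := rfl

/-- THE ENERGY HYPOTHESIS for the instance -/
theorem Ins.energy (I : Ins k N n P Ξ) (F : Face k n P Ξ) (hN : N ≤ k) (hq : 1 ≤ I.q) (hwx : ∀ ξ, 0 ≤ I.wx ξ)
    (hwx1 : ∑ ξ, I.wx ξ = 1) (hF : ∀ e g a x ξ z, |F e g a x ξ z| ≤ 1)
    {t : ℕ} (ht : t < I.T) (C : Finset (P × V k)) (ω : S2 k N n P) :
    ‖mn (I.vc F t (I.nu t ω)) C‖ ^ 2 ≤
      (Pu k N n P).ce (I.nu t) (fun ω' => ‖mn (I.vc F (t + 1) (I.nu (t + 1) ω')) C‖ ^ 2 +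
        (C.card : ℝ)⁻¹ * ∑ v ∈ C, I.cst F (t + 1) (I.nu (t + 1) ω') v) ω := by
  have ht' : t < (n + 1) * N := ht
  have hfair := fair_nd (P := P) (h := I.hh) hN ht' (fun ν => ‖mn (I.vc F (t + 1) ν) C‖ ^ 2 +
        (C.card : ℝ)⁻¹ * ∑ v ∈ C, I.cst F (t + 1) ν v) ω
  refine le_trans ?_ (le_of_eq hfair.symm)
  have hb : ∀ b < 2, ‖mS (fun a => vecc (wU (I.cc (t + 1)) (chT N I.hh n t b (I.nu t ω))) I.wx
      (uW (I.cc (t + 1)) (chT N I.hh n t b (I.nu t ω))) I.q (I.ver F t (I.nu t ω) a)) C‖ ^ 2 ≤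
      ‖mn (I.vc F (t + 1) (chT N I.hh n t b (I.nu t ω))) C‖ ^ 2 +
        (C.card : ℝ)⁻¹ * ∑ v ∈ C, I.cst F (t + 1) (chT N I.hh n t b (I.nu t ω)) v := by
    intro b hb
    set ν' := chT N I.hh n t b (I.nu t ω) with hν'
    have hpar : parT N I.hh n t ν' = I.nu t ω := parT_chT hb hN ht' ω
    have h1 := norm_mS_chg (wU (I.cc (t + 1)) ν') (fun i x => wU_nonneg _ _ i x)
      (fun i => wU_sum (fun i => (cf_snd_le _ _ _ _).trans hN) ν' i) I.wx hwx hwx1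
      (uW (I.cc (t + 1)) ν') (fun z => uW_nonneg _ _ z) (uW_sum ((cf_fst_le _ _ _).trans hN) ν') I.q
      (fun a => I.ver F t (I.nu t ω) a) (fun a => I.ver F (t + 1) ν' a) (fun a x ξ z => hF _ _ a x ξ z) C
    refine h1.trans (le_of_eq ?_)
    congr 1
    congr 1
    refine Finset.sum_congr rfl fun v _ => ?_
    rw [Ins.cst_succ]
    unfold Ins.cv
    rw [hpar]
  have h0 := hb 0 (by norm_num)
  have h1 := hb 1 (by norm_num)
  have h2 := inn_stepT (h := I.hh) hN ht' ω (be := 0) (by norm_num) hq I.wx hwx (fun a => I.ver F t (I.nu t ω) a)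
    (fun a => I.ver F t (I.nu t ω) a) C C
  rw [real_inner_self_eq_norm_sq, real_inner_self_eq_norm_sq, real_inner_self_eq_norm_sq] at h2
  have h3 : (1 - (I.q : ℝ) * (0 : ℝ) ^ 2) = 1 := by ring
  rw [h3, one_mul] at h2
  have h4 : ‖mn (I.vc F t (I.nu t ω)) C‖ ^ 2 = ‖mS (fun a => vecc (wU (cf N I.hh n t) (Nc (cf N I.hh n t) ω)) I.wx
      (uW (cf N I.hh n t) (Nc (cf N I.hh n t) ω)) I.q (I.ver F t (I.nu t ω) a)) C‖ ^ 2 := rfl
  rw [h4]
  have h0' : ‖mS (fun a => vecc (wU (cf N I.hh n (t + 1)) (chT N I.hh n t 0 (Nc (cf N I.hh n t) ω))) I.wx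
      (uW (cf N I.hh n (t + 1)) (chT N I.hh n t 0 (Nc (cf N I.hh n t) ω))) I.q (I.ver F t (I.nu t ω) a)) C‖ ^ 2 ≤
      ‖mn (I.vc F (t + 1) (chT N I.hh n t 0 (I.nu t ω))) C‖ ^ 2 +
        (C.card : ℝ)⁻¹ * ∑ v ∈ C, I.cst F (t + 1) (chT N I.hh n t 0 (I.nu t ω)) v := h0
  have h1' : ‖mS (fun a => vecc (wU (cf N I.hh n (t + 1)) (chT N I.hh n t 1 (Nc (cf N I.hh n t) ω))) I.wx
      (uW (cf N I.hh n (t + 1)) (chT N I.hh n t 1 (Nc (cf N I.hh n t) ω))) I.q (I.ver F t (I.nu t ω) a)) C‖ ^ 2 ≤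
      ‖mn (I.vc F (t + 1) (chT N I.hh n t 1 (I.nu t ω))) C‖ ^ 2 +
        (C.card : ℝ)⁻¹ * ∑ v ∈ C, I.cst F (t + 1) (chT N I.hh n t 1 (I.nu t ω)) v := h1
  have e0 : (Nc (cf N I.hh n t) ω) = I.nu t ω := rfl
  rw [e0] at h2 h0' h1' ⊢
  linarith

/-! ### costs of the versions -/

theorem Ins.E_cv_a (I : Ins k N n P Ξ) (F : Face k n P Ξ) (hN : N ≤ k) {t : ℕ} (ht : t < I.T) :
    (Pu k N n P).E (fun ω => I.cv F t (I.nu (t + 1) ω) (va ω)) =
      2 ^ n * (Pu k N n P).E (fun ω => ∑ ξ, I.wx ξ *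
        ind (I.ver F t (I.nu t ω) (va ω) (GMC.vo ω) ξ ≠ I.ver F (t + 1) (I.nu (t + 1) ω) (va ω) (GMC.vo ω) ξ)) := by
  have ht' : t < (n + 1) * N := ht
  unfold Ins.cv
  rw [FP.E_smul]
  congr 1
  have h2 := E_ao (P := P) (k := k) (N := N) (c := I.cc (t + 1)) (fun i => (cf_snd_le _ _ _ _).trans hN)
    (fun ν a x => ∑ ξ, I.wx ξ * ind (I.ver F t (parT N I.hh n t ν) a x ξ ≠ I.ver F (t + 1) ν a x ξ))
  refine (show _ = _ from h2).trans ?_
  refine FP.E_congr _ fun ω _ => ?_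
  have h3 : parT N I.hh n t (Nc (I.cc (t + 1)) ω) = I.nu t ω := parT_Nc hN ht' ω
  rw [h3]
  rfl

theorem Ins.E_cv_b (I : Ins k N n P Ξ) (F : Face k n P Ξ) (hN : N ≤ k) {t : ℕ} (ht : t < I.T) :
    (Pu k N n P).E (fun ω => I.cv F t (I.nu (t + 1) ω) (vb ω)) =
      2 ^ n * (Pu k N n P).E (fun ω => ∑ ξ, I.wx ξ *
        ind (I.ver F t (I.nu t ω) (vb ω) (GMC.vo ω) ξ ≠ I.ver F (t + 1) (I.nu (t + 1) ω) (vb ω) (GMC.vo ω) ξ)) := by
  have ht' : t < (n + 1) * N := ht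
  unfold Ins.cv
  rw [FP.E_smul]
  congr 1
  have h2 := E_bo (P := P) (k := k) (N := N) (c := I.cc (t + 1)) (fun i => (cf_snd_le _ _ _ _).trans hN)
    (fun ν a x => ∑ ξ, I.wx ξ * ind (I.ver F t (parT N I.hh n t ν) a x ξ ≠ I.ver F (t + 1) ν a x ξ))
  refine (show _ = _ from h2).trans ?_
  refine FP.E_congr _ fun ω _ => ?_
  have h3 : parT N I.hh n t (Nc (I.cc (t + 1)) ω) = I.nu t ω := parT_Nc hN ht' ω
  rw [h3]
  rfl

/-- COST OF THE VERSIONS -/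
theorem Ins.sum_cv_a (I : Ins k N n P Ξ) {F G : Face k n P Ξ} {p eps0 : ℝ} (hN : N ≤ k) (h : FaceH I va F G p eps0) :
    ∑ t ∈ range I.T, (Pu k N n P).E (fun ω => I.cv F t (I.nu (t + 1) ω) (va ω)) ≤ 2 ^ n * p := by
  rw [Finset.sum_congr rfl fun t ht => I.E_cv_a F hN (Finset.mem_range.1 ht), ← Finset.mul_sum]
  exact mul_le_mul_of_nonneg_left h.ver (by positivity)

theorem Ins.sum_cv_b (I : Ins k N n P Ξ) {F G : Face k n P Ξ} {p eps0 : ℝ} (hN : N ≤ k) (h : FaceH I vb F G p eps0) :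
    ∑ t ∈ range I.T, (Pu k N n P).E (fun ω => I.cv F t (I.nu (t + 1) ω) (vb ω)) ≤ 2 ^ n * p := by
  rw [Finset.sum_congr rfl fun t ht => I.E_cv_b F hN (Finset.mem_range.1 ht), ← Finset.mul_sum]
  exact mul_le_mul_of_nonneg_left h.ver (by positivity)

/-- field `hc` of `CSys.Hyp` -/
theorem Ins.sum_cst_a (I : Ins k N n P Ξ) {F G : Face k n P Ξ} {p eps0 : ℝ} (hN : N ≤ k) (h : FaceH I va F G p eps0) :
    ∑ t ∈ range I.T, (Pu k N n P).E (fun ω => I.cst F (t + 1) (I.nu (t + 1) ω) (va ω)) ≤ 2 ^ (n + 1) * p := by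
  have h1 : ∀ t ∈ range I.T, (Pu k N n P).E (fun ω => I.cst F (t + 1) (I.nu (t + 1) ω) (va ω)) =
      2 * (Pu k N n P).E (fun ω => I.cv F t (I.nu (t + 1) ω) (va ω)) := fun t _ => FP.E_smul _ _ _
  rw [Finset.sum_congr rfl h1, ← Finset.mul_sum, pow_succ]
  have := I.sum_cv_a hN h
  linarith

theorem Ins.sum_cst_b (I : Ins k N n P Ξ) {F G : Face k n P Ξ} {p eps0 : ℝ} (hN : N ≤ k) (h : FaceH I vb F G p eps0) :
    ∑ t ∈ range I.T, (Pu k N n P).E (fun ω => I.cst F (t + 1) (I.nu (t + 1) ω) (vb ω)) ≤ 2 ^ (n + 1) * p := by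
  have h1 : ∀ t ∈ range I.T, (Pu k N n P).E (fun ω => I.cst F (t + 1) (I.nu (t + 1) ω) (vb ω)) =
      2 * (Pu k N n P).E (fun ω => I.cv F t (I.nu (t + 1) ω) (vb ω)) := fun t _ => FP.E_smul _ _ _
  rw [Finset.sum_congr rfl h1, ← Finset.mul_sum, pow_succ]
  have := I.sum_cv_b hN h
  linarith

/-- the changes of version along the exponents (for the bridge) -/
theorem Ins.ver_eq (I : Ins k N n P Ξ) (F : Face k n P Ξ) (x : S2 k N n P → P × V k) :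
    ∑ t ∈ range I.T, (Pu k N n P).E (fun ω => ∑ ξ, I.wx ξ *
      ind (I.ver F t (I.nu t ω) (x ω) (GMC.vo ω) ξ ≠ I.ver F (t + 1) (I.nu (t + 1) ω) (x ω) (GMC.vo ω) ξ)) =
    ∑ e ∈ range N, (Pu k N n P).E (fun ω => ∑ ξ, I.wx ξ *
      ind (F (e + 1) (nd (e + 1) (ct ω) (nw ω)) (x ω) (GMC.vo ω) ξ ≠ F e (nd e (ct ω) (nw ω)) (x ω) (GMC.vo ω) ξ)) := by
  unfold Ins.T
  rw [sum_macro n N]
  · rw [← Finset.sum_range_reflect]
    refine Finset.sum_congr rfl fun j hj => ?_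
    have hj' := Finset.mem_range.1 hj
    refine FP.E_congr _ fun ω _ => ?_
    have h1 := cf_macro (n := n) N I.hh (N - 1 - j)
    have h2 := cf_fst_succ (n := n) N I.hh ((n + 1) * (N - 1 - j))
    rw [Nat.mul_mod_right, if_pos rfl, h1] at h2
    have h3 : N - (N - 1 - j) = j + 1 := by omega
    simp only at h2
    rw [h3] at h2
    have h4 : (I.cc ((n + 1) * (N - 1 - j))).1 = j + 1 := by
      unfold Ins.cc
      rw [h1]; exact h3
    have h5 : (I.cc ((n + 1) * (N - 1 - j) + 1)).1 = j := by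
      unfold Ins.cc
      rw [h2]; rfl
    refine Finset.sum_congr rfl fun ξ _ => ?_
    show I.wx ξ * ind (F (I.cc ((n + 1) * (N - 1 - j))).1 (nd (I.cc ((n + 1) * (N - 1 - j))).1 (ct ω) (nw ω))
        (x ω) (GMC.vo ω) ξ ≠ F (I.cc ((n + 1) * (N - 1 - j) + 1)).1
          (nd (I.cc ((n + 1) * (N - 1 - j) + 1)).1 (ct ω) (nw ω)) (x ω) (GMC.vo ω) ξ) = _
    rw [h4, h5]
  · intro τ hτ
    have h1 : (I.cc (τ + 1)).1 = (I.cc τ).1 := by
      have := cf_fst_succ (n := n) N I.hh τ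
      rw [if_neg hτ, Nat.sub_zero] at this
      exact this
    have h3 : (fun ω : S2 k N n P => ∑ ξ, I.wx ξ *
        ind (I.ver F τ (I.nu τ ω) (x ω) (GMC.vo ω) ξ ≠ I.ver F (τ + 1) (I.nu (τ + 1) ω) (x ω) (GMC.vo ω) ξ)) =
        fun _ => 0 := by
      funext ω
      refine Finset.sum_eq_zero fun ξ _ => ?_
      have h2 : I.ver F τ (I.nu τ ω) (x ω) (GMC.vo ω) ξ = I.ver F (τ + 1) (I.nu (τ + 1) ω) (x ω) (GMC.vo ω) ξ := by
        show F (I.cc τ).1 (nd (I.cc τ).1 (ct ω) (nw ω)) (x ω) (GMC.vo ω) ξ =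
          F (I.cc (τ + 1)).1 (nd (I.cc (τ + 1)).1 (ct ω) (nw ω)) (x ω) (GMC.vo ω) ξ
        rw [h1]
      rw [ind_not (fun hne => hne h2), mul_zero]
    rw [h3, FP.E_const]

variable [DecidableEq P]

theorem Ins.ls_top (I : Ins k N n P Ξ) (F : Face k n P Ξ) (t : ℕ) (ν : Nd k n) (a : P × V k) :
    I.ls F ⊤ t ν a = I.cv F t ν a := by
  unfold Ins.ls Ins.clx Ins.en
  rw [if_pos rfl, Finset.sum_singleton, Finset.card_singleton, ind_not (fun h => h.1 rfl)]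
  simp

/-- field `svA` of `Sys.Hyp` -/
theorem sys_svA {I : Ins k N n P Ξ} {p eps0 : ℝ} (h : InsH I p eps0) :
    ∑ t ∈ range I.T, (Pu k N n P).E (I.sys.dA ⊤ (t + 1)) ≤ 2 ^ n * p := by
  refine le_trans (le_of_eq ?_) (I.sum_cv_a h.hN h.a)
  refine Finset.sum_congr rfl fun t _ => ?_
  refine FP.E_congr _ fun ω _ => ?_
  exact I.ls_top I.FA t (I.nu (t + 1) ω) (va ω)

end ins

end

end Pool.Agent.GMC
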