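import Pool.Agent.GMC.Inst

/-!
# GMC/IA: the fields nuF, refA, nestA, DF, nuD, D01, fairA of `Sys.Hyp` for the instance `I.sys`, and the numbers (helper27)
-/

set_option autoImplicit false
set_option linter.unusedSectionVars false

namespace Pool.Agent.GMC

open Finset Pool.Agent.PWZ Pool.Agent.M3 Pool.Agent.M3.Bin Pool.Agent.M3.Mod

noncomputable section

namespace Ins

variable {k N n : ℕ} {P Ξ : Type} [Fintype P] [Nonempty P] [DecidableEq P] [Fintype Ξ] (I : Ins k N n P Ξ) {p eps0 : ℝ}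

/-- the node at `t` from the node at `t + 1` -/
theorem par_nu (h : InsH I p eps0) {t : ℕ} (ht : t < I.T) (ω : S2 k N n P) :
    parT N I.hh n t (I.nu (t + 1) ω) = I.nu t ω := parT_Nc h.hN ht ω

theorem sys_nuF : ∀ t < I.T, Fac (I.sys.nu (t + 1)) (I.sys.nu t) := fun t _ => filt_cf N I.hh t

/-- equal classes at `t + 1` and equal nodes: equal classes at `t` -/
theorem clx_ref (F : Face k n P Ξ) (i : ℕ∞) (t : ℕ) (ν : Nd k n) {a b : P × V k}
    (hab : I.clx F i (t + 1) ν a = I.clx F i (t + 1) ν b) :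
    I.clx F i t (parT N I.hh n t ν) a = I.clx F i t (parT N I.hh n t ν) b := by
  unfold clx at hab ⊢
  split_ifs at hab ⊢ with h0
  · exact hab
  · have h1 : a ∈ (I.Y F).st (t + 1) ν i.toNat b := by
      rw [← hab]
      exact ((I.Y F).good_st (t + 1) ν).self _ _
    have h2 : a ∈ (I.Y F).st t ((I.Y F).par t ν) i.toNat b := (I.Y F).sub_par t ν _ _ h1
    exact ((I.Y F).good_st t _).cls _ _ _ h2

theorem sys_refA (h : InsH I p eps0) : ∀ i, okd I.L i → ∀ t < I.T,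
    Fac (fun w => (I.sys.nu (t + 1) w, I.sys.PA i (t + 1) w)) (I.sys.PA i t) := by
  intro i _ t ht v w hvw
  simp only [Prod.mk.injEq] at hvw
  obtain ⟨h1, h2⟩ := hvw
  change I.clx I.FA i t (I.nu t v) (va v) = I.clx I.FA i t (I.nu t w) (va w)
  change I.nu (t + 1) v = I.nu (t + 1) w at h1
  change I.clx I.FA i (t + 1) (I.nu (t + 1) v) (va v) = I.clx I.FA i (t + 1) (I.nu (t + 1) w) (va w) at h2
  rw [← I.par_nu h ht v, ← I.par_nu h ht w, ← h1]
  rw [← h1] at h2
  exact I.clx_ref I.FA i t _ h2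

/-- nested depths -/
theorem clx_nest (F : Face k n P Ξ) {i j : ℕ∞} (hij : i ≤ j) (t : ℕ) (ν : Nd k n) {a b : P × V k}
    (hab : I.clx F j t ν a = I.clx F j t ν b) : I.clx F i t ν a = I.clx F i t ν b := by
  unfold clx at hab ⊢
  by_cases hj : j = ⊤
  · rw [if_pos hj, if_pos hj, Finset.singleton_inj] at hab
    rw [hab]
  · have hi : i ≠ ⊤ := fun h => hj (top_le_iff.mp (h ▸ hij))
    rw [if_neg hj, if_neg hj] at hab
    rw [if_neg hi, if_neg hi]
    have h1 : a ∈ (I.Y F).st t ν j.toNat b := by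
      rw [← hab]
      exact ((I.Y F).good_st t ν).self _ _
    have h3 : i.toNat ≤ j.toNat := ENat.toNat_le_toNat hij hj
    have h2 : a ∈ (I.Y F).st t ν i.toNat b := ((I.Y F).good_st t ν).nest_le h3 b h1
    exact ((I.Y F).good_st t ν).cls _ _ _ h2

theorem sys_nestA : ∀ i j, okd I.L i → okd I.L j → i ≤ j → ∀ t ≤ I.T,
    Fac (fun w => (I.sys.nu t w, I.sys.PA j t w)) (I.sys.PA i t) := by
  intro i j _ _ hij t _ v w hvw
  simp only [Prod.mk.injEq] at hvw
  obtain ⟨h1, h2⟩ := hvw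
  change I.clx I.FA i t (I.nu t v) (va v) = I.clx I.FA i t (I.nu t w) (va w)
  change I.nu t v = I.nu t w at h1
  change I.clx I.FA j t (I.nu t v) (va v) = I.clx I.FA j t (I.nu t w) (va w) at h2
  rw [← h1] at h2 ⊢
  exact I.clx_nest I.FA hij t _ h2

theorem sys_DF : ∀ t < I.T, Fac (I.sys.nu (t + 1)) (I.sys.D (t + 1)) := fun t _ => fac_sgT I.hh t

theorem sys_nuD (h : InsH I p eps0) : ∀ t < I.T, ∀ v w, I.sys.nu t v = I.sys.nu t w →
    I.sys.D (t + 1) v = I.sys.D (t + 1) w → I.sys.nu (t + 1) v = I.sys.nu (t + 1) w := by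
  intro t ht v w h1 h2
  change I.nu (t + 1) v = I.nu (t + 1) w
  change I.nu t v = I.nu t w at h1
  change sgT N I.hh n t v = sgT N I.hh n t w at h2
  have e1 := Nc_chT (h := I.hh) h.hN ht v
  have e2 := Nc_chT (h := I.hh) h.hN ht w
  unfold nu cc at h1 ⊢
  rw [e1, e2, h1, h2]

theorem sys_D01 : ∀ t < I.T, ∀ w, (∀ v, I.sys.nu t v = I.sys.nu t w → I.sys.D (t + 1) v = 0) ∨
    (∀ v, I.sys.nu t v = I.sys.nu t w → I.sys.D (t + 1) v = 1 ∨ I.sys.D (t + 1) v = -1) := by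
  intro t _ w
  by_cases h0 : cf N I.hh n (t + 1) = cf N I.hh n t
  · left
    intro v _
    change sgT N I.hh n t v = 0
    unfold sgT
    rw [if_pos h0]
  · right
    intro v _
    change sgT N I.hh n t v = 1 ∨ sgT N I.hh n t v = -1
    unfold sgT
    rw [if_neg h0]
    exact sg_val _ _ _

theorem GA_iff (t : ℕ) (v w : S2 k N n P) : I.sys.GA t v = I.sys.GA t w ↔
    (Nc (cf N I.hh n t) v, va v) = (Nc (cf N I.hh n t) w, va w) := by
  have h1 : ∀ v : S2 k N n P, I.sys.GA t v = (Nc (cf N I.hh n t) v, {va v}) := fun v => rfl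
  rw [h1, h1]
  constructor
  · intro h
    have h2 := congrArg Prod.fst h
    have h3 := congrArg Prod.snd h
    exact Prod.ext h2 (Finset.singleton_inj.mp h3)
  · intro h
    have h2 := congrArg Prod.fst h
    have h3 := congrArg Prod.snd h
    simp only at h2 h3
    rw [h2, h3]

theorem sys_fairA (h : InsH I p eps0) : ∀ t < I.T, ∀ w, (Pu k N n P).p w ≠ 0 →
    (Pu k N n P).m (I.sys.GA t) w ≤ 2 * (Pu k N n P).m (I.sys.GA (t + 1)) w := by
  intro t ht w _
  have e : ∀ t, (Pu k N n P).m (I.sys.GA t) w = (Pu k N n P).m (fun v => (Nc (cf N I.hh n t) v, va v)) w := fun t =>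
    FP.m_congr _ (fun v w hvw => (I.GA_iff t v w).mp hvw) (fun v w hvw => (I.GA_iff t v w).mpr hvw) w
  rw [e, e]
  exact m_a_le h.hN ht w

/-! ## the numbers -/

theorem Nk_nonneg' {C0 r p : ℝ} (hC : 0 ≤ C0) (hp : 0 ≤ p) (l : ℕ) : 0 ≤ Nk C0 r p l :=
  Finset.sum_nonneg fun j _ => div_nonneg (mul_nonneg hC (by linarith)) (sq_nonneg _)

theorem Bk_mono' {C0 r p th : ℝ} (hC : 0 ≤ C0) (hp : 0 ≤ p) (h0 : 0 < th) (h1 : th ≤ 1) {j l : ℕ} (hjl : j ≤ l) :
    Bk C0 r p th j ≤ Bk C0 r p th l := by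
  have hN : Nk C0 r p j ≤ Nk C0 r p l :=
    Finset.sum_le_sum_of_subset_of_nonneg (Finset.range_subset_range.mpr (by omega)) fun i _ _ =>
      div_nonneg (mul_nonneg hC (by linarith)) (sq_nonneg _)
  have hN0 := Nk_nonneg' (r := r) hC hp j
  have hlog : 0 ≤ Real.log (1 / th) := Real.log_nonneg (by rw [le_div_iff₀ h0]; linarith)
  have hl : Real.log (1 / xk th j) ≤ Real.log (1 / xk th l) := by
    rw [log_inv_xk, log_inv_xk]
    refine mul_le_mul_of_nonneg_right ?_ hlog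
    exact pow_le_pow_right₀ (by norm_num) (by omega)
  have hl0 : 0 ≤ Real.log (1 / xk th j) := by
    rw [log_inv_xk]
    positivity
  unfold Bk
  have e1 : C0 * (1 + Nk C0 r p j) ≤ C0 * (1 + Nk C0 r p l) := mul_le_mul_of_nonneg_left (by linarith) hC
  have e2 : 0 ≤ C0 * (1 + Nk C0 r p j) := mul_nonneg hC (by linarith)
  exact mul_le_mul e1 (by linarith) (by linarith) (e2.trans e1)

theorem CB_nonneg (n : ℕ) : 0 ≤ CB n := by unfold CB; positivity

theorem bud_mono (h : InsH I p eps0) : ∀ j l, j ≤ l → I.bud p j ≤ I.bud p l := fun _ _ hjl =>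
  Bk_mono' (CB_nonneg n) h.p0 h.thpos h.th1.le hjl

theorem bv0 (h : InsH I p eps0) : 0 ≤ 2 ^ n * p := mul_nonneg (by positivity) h.p0

theorem SS_nonneg : 0 ≤ I.SS := by unfold SS CX; positivity

theorem x0 (h : InsH I p eps0) : ∀ j, 0 ≤ I.xt j := fun j => mul_nonneg I.SS_nonneg (xk_nonneg h.thpos.le j)

theorem x_anti (h : InsH I p eps0) : ∀ j l, j ≤ l → I.xt l ≤ I.xt j := fun _ _ hjl =>
  mul_le_mul_of_nonneg_left (xk_anti h.thpos.le h.th1.le hjl) I.SS_nonneg

theorem y00 (h : InsH I p eps0) : 0 ≤ I.y0 := by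
  unfold y0
  have := h.thpos
  have := h.rpos
  positivity

end Ins

end

end Pool.Agent.GMC
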