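import Pool.Agent.GMC.Clx

/-!
# GMC/IB: fields of `Sys.Hyp` for the instance (helper67): `sys_XF`, `sys_X0`, `sys_X1`, `sys_Y1`, `sys_psd`, `sys_loss`,
`sys_dA0`, `sys_dAF` (and the B side `sys_dB0`, `sys_dBF`)

`X_eq`, `Y_eq` : the values are `XVc`, `YVc` of BitX; `X_topK` : at two points the kernel.
-/

set_option autoImplicit false
set_option linter.unusedSectionVars false

namespace Pool.Agent.GMC

open Finset Pool.Agent.PWZ Pool.Agent.M3 Pool.Agent.M3.Bin Pool.Agent.M3.Mod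

noncomputable section

variable {k N n : ℕ} {P Ξ : Type} [Fintype P] [DecidableEq P] [Fintype Ξ] [Nonempty P]

namespace Ins

variable {I : Ins k N n P Ξ} {p eps0 : ℝ}

theorem X_eq (hwx : ∀ ξ, 0 ≤ I.wx ξ) (i j : ℕ∞) (t : ℕ) (ω : S2 k N n P) : I.sys.X i j t ω =
    XVc N I.hh I.q I.wx (I.ver I.FA) (I.ver I.FB) t (Nc (cf N I.hh n t) ω) (I.clx I.FA i t (I.nu t ω) (va ω))
      (I.clx I.FB j t (I.nu t ω) (vb ω)) :=
  inner_mn_vecc _ (wU_nonneg _ _) _ hwx _ (uW_nonneg _ _) _ _ _ _ _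

theorem Y_eq (hwx : ∀ ξ, 0 ≤ I.wx ξ) (i j : ℕ∞) (t : ℕ) (ω : S2 k N n P) : I.sys.Y i j (t + 1) ω =
    YVc N I.hh I.q I.wx (I.ver I.FA) (I.ver I.FB) t (Nc (cf N I.hh n (t + 1)) ω) (I.clx I.FA i t (I.nu t ω) (va ω))
      (I.clx I.FB j t (I.nu t ω) (vb ω)) :=
  inner_mn_vecc _ (wU_nonneg _ _) _ hwx _ (uW_nonneg _ _) _ _ _ _ _

/-- the value at two points is the kernel -/
theorem X_topK (hwx : ∀ ξ, 0 ≤ I.wx ξ) (t : ℕ) (ω : S2 k N n P) :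
    I.sys.X ⊤ ⊤ t ω = I.K t (I.nu t ω) (va ω) (vb ω) := by
  rw [X_eq hwx, Ck.clx_top, Ck.clx_top]
  exact kAc_single _ _ _ _ _ _ _ _

theorem sys_XF : ∀ i j, okd I.L i → okd I.L j → ∀ t ≤ I.T, Fac (I.sys.Ix i j t) (I.sys.X i j t) := by
  intro i j _ _ t _ v w hvw
  have h1 : I.nu t v = I.nu t w := congrArg Prod.fst hvw
  have h2 : I.clx I.FA i t (I.nu t v) (va v) = I.clx I.FA i t (I.nu t w) (va w) := congrArg (fun x => x.2.1) hvw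
  have h3 : I.clx I.FB j t (I.nu t v) (vb v) = I.clx I.FB j t (I.nu t w) (vb w) := congrArg (fun x => x.2.2) hvw
  show inner ℝ (mn (I.vc I.FA t (I.nu t v)) (I.clx I.FA i t (I.nu t v) (va v)))
    (mn (I.vc I.FB t (I.nu t v)) (I.clx I.FB j t (I.nu t v) (vb v))) = inner ℝ (mn (I.vc I.FA t (I.nu t w))
      (I.clx I.FA i t (I.nu t w) (va w))) (mn (I.vc I.FB t (I.nu t w)) (I.clx I.FB j t (I.nu t w) (vb w)))
  rw [h2, h3, h1]

theorem sys_X0 (h : InsH I p eps0) : ∀ i j t w, 0 ≤ I.sys.X i j t w := by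
  intro i j t w
  rw [X_eq h.wx0]
  exact XVc_nonneg _ _ h.wx0 _ _ _ _ _ _

theorem sys_X1 (h : InsH I p eps0) : ∀ i j t w, I.sys.X i j t w ≤ 1 := by
  intro i j t w
  rw [X_eq h.wx0]
  exact XVc_le_one h.hN h.wx0 h.wx1 (fun _ _ _ _ _ _ => h.a.le _ _ _ _ _ _) (fun _ _ _ _ _ _ => h.b.le _ _ _ _ _ _)
    _ _ _ _

theorem sys_Y1 (h : InsH I p eps0) : ∀ i j t w, I.sys.Y i j t w ≤ 1 := by
  intro i j t w
  cases t with
  | zero => exact zero_le_one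
  | succ t =>
    rw [Y_eq h.wx0]
    exact YVc_le_one h.hN h.wx0 h.wx1 (fun _ _ _ _ _ _ => h.a.le _ _ _ _ _ _)
      (fun _ _ _ _ _ _ => h.b.le _ _ _ _ _ _) _ _ _ _

/-- ONE BIT -/
theorem sys_psd (h : InsH I p eps0) : ∀ i j, okd I.L i → okd I.L j → ∀ t < I.T, ∀ w, (Pu k N n P).p w ≠ 0 →
    I.sys.X i j t w - (I.q : ℝ) * (Pu k N n P).ce (I.sys.Ix i j t) (I.sys.D (t + 1)) w ^ 2 ≤
      (Pu k N n P).ce (I.sys.Ix i j t) (I.sys.Y i j (t + 1)) w := by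
  intro i j _ _ t ht w _
  have h1 : I.sys.Y i j (t + 1) = fun ω => YVc N I.hh I.q I.wx (I.ver I.FA) (I.ver I.FB) t
      (Nc (cf N I.hh n (t + 1)) ω) (I.clx I.FA i t (I.nu t ω) (va ω)) (I.clx I.FB j t (I.nu t ω) (vb ω)) :=
    funext fun ω => Y_eq h.wx0 i j t ω
  rw [X_eq h.wx0, h1]
  exact psd_modelc (P := P) (I := I.sys.Ix i j t) (S := fun ω => I.clx I.FA i t (I.nu t ω) (va ω))
    (T := fun ω => I.clx I.FB j t (I.nu t ω) (vb ω)) h.hN ht h.q1 h.wx0 h.wx1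
    (fun _ _ _ _ _ _ => h.a.le _ _ _ _ _ _) (fun _ _ _ _ _ _ => h.b.le _ _ _ _ _ _)
    (fun v w hvw => congrArg Prod.fst hvw)
    (fun v w hvw => congrArg (fun x => x.2.1) hvw) (fun v w hvw => congrArg (fun x => x.2.2) hvw) w

/-- VERSIONS AND REMOVALS -/
theorem sys_loss (h : InsH I p eps0) : ∀ i j, okd I.L i → okd I.L j → ∀ t < I.T, ∀ w, (Pu k N n P).p w ≠ 0 →
    ¬ I.sys.entA i (t + 1) w → ¬ I.sys.entB j (t + 1) w →
    I.sys.Y i j (t + 1) w - (I.sys.dA i (t + 1) w + I.sys.dB j (t + 1) w) ≤ I.sys.X i j (t + 1) w := by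
  intro i j _ _ t ht w _ ha hb
  have ha' : ¬ I.en I.FA i (t + 1) (I.nu (t + 1) w) (va w) := ha
  have hb' : ¬ I.en I.FB j (t + 1) (I.nu (t + 1) w) (vb w) := hb
  have e6 : parT N I.hh n t (I.nu (t + 1) w) = I.nu t w := parT_Nc h.hN ht w
  have h1 : I.sys.dA i (t + 1) w = I.ls I.FA i t (I.nu (t + 1) w) (va w) := rfl
  have h2 : I.sys.dB j (t + 1) w = I.ls I.FB j t (I.nu (t + 1) w) (vb w) := rfl
  rw [X_eq h.wx0, Y_eq h.wx0, h1, h2, Ck.ls_rmv ha', Ck.ls_rmv hb', e6]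
  refine loss_modelc (P := P) h.hN h.wx0 h.wx1 (fun _ _ _ _ _ _ => h.a.le _ _ _ _ _ _)
    (fun _ _ _ _ _ _ => h.b.le _ _ _ _ _ _) (I.nu (t + 1) w) ?_ (Ck.clx_ne _ _ _ _ _) ?_ (Ck.clx_ne _ _ _ _ _)
  · have := Ck.clx_par (I := I) I.FA i t (I.nu (t + 1) w) (va w)
    rwa [e6] at this
  · have := Ck.clx_par (I := I) I.FB j t (I.nu (t + 1) w) (vb w)
    rwa [e6] at this

theorem sys_dA0 (h : InsH I p eps0) : ∀ i t w, 0 ≤ I.sys.dA i t w := by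
  intro i t w
  cases t with
  | zero => exact le_rfl
  | succ t => exact Ck.ls_nonneg h.wx0 _ _ _ _ _

theorem sys_dB0 (h : InsH I p eps0) : ∀ j t w, 0 ≤ I.sys.dB j t w := by
  intro i t w
  cases t with
  | zero => exact le_rfl
  | succ t => exact Ck.ls_nonneg h.wx0 _ _ _ _ _

theorem sys_dAF : ∀ i, okd I.L i → ∀ t < I.T, Fac (I.sys.GA (t + 1)) (I.sys.dA i (t + 1)) := by
  intro i _ t _ v w hvw
  have h1 : I.nu (t + 1) v = I.nu (t + 1) w := congrArg Prod.fst hvw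
  have h2 : I.clx I.FA ⊤ (t + 1) (I.nu (t + 1) v) (va v) = I.clx I.FA ⊤ (t + 1) (I.nu (t + 1) w) (va w) :=
    congrArg Prod.snd hvw
  rw [Ck.clx_top, Ck.clx_top, Finset.singleton_inj] at h2
  show I.ls I.FA i t (I.nu (t + 1) v) (va v) = I.ls I.FA i t (I.nu (t + 1) w) (va w)
  rw [h1, h2]

theorem sys_dBF : ∀ j, okd I.L j → ∀ t < I.T, Fac (I.sys.GB (t + 1)) (I.sys.dB j (t + 1)) := by
  intro i _ t _ v w hvw
  have h1 : I.nu (t + 1) v = I.nu (t + 1) w := congrArg Prod.fst hvw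
  have h2 : I.clx I.FB ⊤ (t + 1) (I.nu (t + 1) v) (vb v) = I.clx I.FB ⊤ (t + 1) (I.nu (t + 1) w) (vb w) :=
    congrArg Prod.snd hvw
  rw [Ck.clx_top, Ck.clx_top, Finset.singleton_inj] at h2
  show I.ls I.FB i t (I.nu (t + 1) v) (vb v) = I.ls I.FB i t (I.nu (t + 1) w) (vb w)
  rw [h1, h2]

end Ins

end

end Pool.Agent.GMC
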