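import Pool.Agent.GMC.Bit
import Pool.Agent.GMC.ClsDyn
import Pool.Agent.GM99.Split

/-!
# GMC/BitC: versions and removals of the class process (helper67)

* `inner_mn_vec` : the inner product of two class means is `kA`;
* `CSys.stay` : the points of the old class which do not enter, `st_stay` : new class of a point which does not enter;
* `CSys.lsc k t ν a` = loss of the class of `a` of depth `k` at the node: versions (average over the old class of a cost
  `cs`) and relative removal; `lsc_eq`, `E_avs`, `sum_lsc` : the sum over the times is at most `Nk + Cp`.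
-/

set_option autoImplicit false
set_option linter.unusedSectionVars false

namespace Pool.Agent.GMC

open Finset Pool.Agent.PWZ Pool.Agent.M3 Pool.Agent.GM99

noncomputable section

/-! ## inner products of class means -/

section inner

variable {X Z A B : Type*} [Fintype X] [Fintype Z] {n : ℕ}

theorem mn_eq_mS {V E : Type*} [NormedAddCommGroup E] [InnerProductSpace ℝ E] (vec : V → E) (S : Finset V) :
    mn vec S = mS vec S := rfl

/-- the inner product of two class means is the value of the pair of classes -/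
theorem inner_mn_vec (w : Fin n → X → ℝ) (hw : ∀ i x, 0 ≤ w i x) (u : Z → ℝ) (hu : ∀ z, 0 ≤ u z) (q : ℕ)
    (F : A → (Fin n → X) → Z → ℝ) (G : B → (Fin n → X) → Z → ℝ) (S : Finset A) (T : Finset B) :
    inner ℝ (mn (fun a => vec w u q (F a)) S) (mn (fun b => vec w u q (G b)) T) = kA w u q F G S T := by
  rw [mn_eq_mS, mn_eq_mS, inner_mS_vec w hw u hu]
  unfold kA avs
  simp only [Finset.mul_sum]
  refine Finset.sum_congr rfl fun a _ => Finset.sum_congr rfl fun b _ => ?_
  ring

/-- a point and a class -/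
theorem inner_vec_mn (w : Fin n → X → ℝ) (hw : ∀ i x, 0 ≤ w i x) (u : Z → ℝ) (hu : ∀ z, 0 ≤ u z) (q : ℕ)
    (F : A → (Fin n → X) → Z → ℝ) (G : B → (Fin n → X) → Z → ℝ) (a : A) (T : Finset B) :
    inner ℝ (vec w u q (F a)) (mn (fun b => vec w u q (G b)) T) = kA w u q F G {a} T := by
  rw [← inner_mn_vec w hw u hu]
  congr 1
  unfold mn
  simp

end inner

namespace CSys

variable {V : Type*} [Fintype V] [DecidableEq V] {E : Type*} [NormedAddCommGroup E] [InnerProductSpace ℝ E] {Nd : Type*}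

variable (Y : CSys V E Nd)

open Classical in
/-- the points of the old class of depth `k` which do not enter -/
def stay (k t : ℕ) (ν : Nd) (a : V) : Finset V := (Y.pre t ν k a).filter fun u => ¬ Y.ent k t ν u

open Classical in
theorem stay_sub (k t : ℕ) (ν : Nd) (a : V) : Y.stay k t ν a ⊆ Y.pre t ν k a := filter_subset _ _

theorem st_stay {k t : ℕ} {ν : Nd} {a : V} (h : ¬ Y.ent k t ν a) : Y.st t ν k a = Y.stay k t ν a := Y.stay_eq h

theorem stay_nonempty {k t : ℕ} {ν : Nd} {a : V} (h : ¬ Y.ent k t ν a) : (Y.stay k t ν a).Nonempty := by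
  classical
  exact ⟨a, mem_filter.2 ⟨(Y.good_pre t ν).self k a, h⟩⟩

theorem pre_nonempty (k t : ℕ) (ν : Nd) (a : V) : (Y.pre t ν k a).Nonempty := ⟨a, (Y.good_pre t ν).self k a⟩

/-- the relative removal is the proportion of the entering points -/
theorem rmv_stay (k t : ℕ) (ν : Nd) (a : V) :
    rmv (Y.pre t ν k a) (Y.stay k t ν a) = avs (Y.pre t ν k a) fun u => ind (Y.ent k t ν u) := by
  classical
  have h0 : (0 : ℝ) < (Y.pre t ν k a).card := by exact_mod_cast (Y.pre_nonempty k t ν a).card_pos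
  have h1 : ∑ u ∈ Y.pre t ν k a, ind (Y.ent k t ν u) = (((Y.pre t ν k a).filter fun u => Y.ent k t ν u).card : ℝ) := by
    rw [Finset.card_filter]
    push_cast
    refine Finset.sum_congr rfl fun u _ => ?_
    by_cases h : Y.ent k t ν u
    · rw [ind_of h, if_pos h]
    · rw [ind_not h, if_neg h]
  have h2 : (((Y.pre t ν k a).filter fun u => Y.ent k t ν u).card : ℝ) + ((Y.stay k t ν a).card : ℝ) =
      (Y.pre t ν k a).card := by
    have := Finset.card_filter_add_card_filter_not (s := Y.pre t ν k a) (fun u => Y.ent k t ν u)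
    unfold stay
    exact_mod_cast this
  unfold rmv avs
  rw [h1]
  field_simp
  linarith

/-- LOSS of the class of `a` of depth `k` at the node: versions (cost `cs`, averaged over the old class), removals -/
def lsc (cs : ℕ → Nd → V → ℝ) (k t : ℕ) (ν : Nd) (a : V) : ℝ :=
  avs (Y.pre t ν k a) (cs t ν) + rmv (Y.pre t ν k a) (Y.stay k t ν a)

theorem lsc_nonneg {cs : ℕ → Nd → V → ℝ} (hcs : ∀ t ν a, 0 ≤ cs t ν a) (k t : ℕ) (ν : Nd) (a : V) :
    0 ≤ Y.lsc cs k t ν a :=
  add_nonneg (avs_nonneg fun _ _ => hcs _ _ _) (rmv_nonneg (Y.stay_sub k t ν a))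

theorem lsc_eq (cs : ℕ → Nd → V → ℝ) (k t : ℕ) (ν : Nd) (a : V) :
    Y.lsc cs k t ν a = avs (Y.pre t ν k a) fun u => cs t ν u + ind (Y.ent k t ν u) := by
  unfold lsc
  rw [rmv_stay, ← avs_add]

/-- `lsc` depends on the old class only -/
theorem lsc_congr (cs : ℕ → Nd → V → ℝ) {k t : ℕ} {ν : Nd} {a b : V} (h : Y.pre t ν k a = Y.pre t ν k b) :
    Y.lsc cs k t ν a = Y.lsc cs k t ν b := by
  rw [lsc_eq, lsc_eq, h]

namespace Hyp

variable {Om : Type*} [Fintype Om] {P : FP Om} {Y : CSys V E Nd} {T : ℕ} {a : Om → V} {nd : ℕ → Om → Nd}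
  {cst : ℕ → Nd → V → ℝ} {Cp : ℝ}

/-- averages over the old class -/
theorem E_avs (h : Hyp P Y T a nd cst Cp) {t : ℕ} (ht : t ≤ T) (k : ℕ) (g : Nd → V → ℝ) :
    P.E (fun w => avs (Y.pre t (nd t w) k (a w)) (g (nd t w))) = P.E (fun w => g (nd t w) (a w)) := by
  rw [h.unif t ht (fun ν v => avs (Y.pre t ν k v) (g ν)), h.unif t ht g]
  refine P.E_congr fun w _ => ?_
  congr 1
  unfold avs
  exact sum_avg ((Y.good_pre t (nd t w)).self k) ((Y.good_pre t (nd t w)).cls k) _

/-- averages over the new class -/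
theorem E_avs_st (h : Hyp P Y T a nd cst Cp) {t : ℕ} (ht : t ≤ T) (k : ℕ) (g : Nd → V → ℝ) :
    P.E (fun w => avs (Y.st t (nd t w) k (a w)) (g (nd t w))) = P.E (fun w => g (nd t w) (a w)) := by
  rw [h.unif t ht (fun ν v => avs (Y.st t ν k v) (g ν)), h.unif t ht g]
  refine P.E_congr fun w _ => ?_
  congr 1
  unfold avs
  exact sum_avg ((Y.good_st t (nd t w)).self k) ((Y.good_st t (nd t w)).cls k) _

/-- one time -/
theorem E_lsc (h : Hyp P Y T a nd cst Cp) {t : ℕ} (ht : t ≤ T) (cs : ℕ → Nd → V → ℝ) (k : ℕ) :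
    P.E (fun w => Y.lsc cs k t (nd t w) (a w)) =
      P.E (fun w => cs t (nd t w) (a w)) + P.Pr (fun w => Y.ent k t (nd t w) (a w)) := by
  have h1 := h.E_avs ht k (fun ν u => cs t ν u + ind (Y.ent k t ν u))
  unfold FP.Pr
  rw [← P.E_add, ← h1]
  exact P.E_congr fun w _ => Y.lsc_eq cs k t _ _

/-- SUM OVER THE TIMES of the losses by versions and removals -/
theorem sum_lsc (h : Hyp P Y T a nd cst Cp) (cs : ℕ → Nd → V → ℝ) (k : ℕ) {Cv : ℝ}
    (hcs : ∑ t ∈ range T, P.E (fun w => cs (t + 1) (nd (t + 1) w) (a w)) ≤ Cv) :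
    ∑ t ∈ range T, P.E (fun w => Y.lsc cs k (t + 1) (nd (t + 1) w) (a w)) ≤ Cv + Nk Y Cp k := by
  have h1 : ∑ t ∈ range T, P.E (fun w => Y.lsc cs k (t + 1) (nd (t + 1) w) (a w)) =
      ∑ t ∈ range T, P.E (fun w => cs (t + 1) (nd (t + 1) w) (a w)) +
        ∑ t ∈ range T, P.Pr (fun w => Y.ent k (t + 1) (nd (t + 1) w) (a w)) := by
    rw [← Finset.sum_add_distrib]
    exact Finset.sum_congr rfl fun t ht => h.E_lsc (by have := mem_range.1 ht; omega) cs k
  have h2 : ∑ t ∈ range T, P.Pr (fun w => Y.ent k (t + 1) (nd (t + 1) w) (a w)) ≤ Nk Y Cp k := by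
    refine le_trans ?_ (h.ent_le k)
    rw [Finset.sum_range_succ' (fun t => P.Pr (fun w => Y.ent k t (nd t w) (a w))) T]
    have := P.Pr_nonneg (fun w => Y.ent k 0 (nd 0 w) (a w))
    linarith
  rw [h1]
  linarith

theorem sum_ent (h : Hyp P Y T a nd cst Cp) (k : ℕ) :
    ∑ t ∈ range T, P.Pr (fun w => Y.ent k (t + 1) (nd (t + 1) w) (a w)) ≤ Nk Y Cp k := by
  refine le_trans ?_ (h.ent_le k)
  rw [Finset.sum_range_succ' (fun t => P.Pr (fun w => Y.ent k t (nd t w) (a w))) T]
  have := P.Pr_nonneg (fun w => Y.ent k 0 (nd 0 w) (a w))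
  linarith

end Hyp

end CSys

end

end Pool.Agent.GMC
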