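import Pool.Agent.GMC.EnerX
import Pool.Agent.GMC.BitC

/-!
# GMC/IC: the class process of the side `a` in the instance `Ins` (helper22)

* `Ins.hypY` : `CSys.Hyp` for `I.Y F` (energy and costs from EnerX), `Ins.hypA`, `Ins.hypB` : the two sides;
* the fields `contA`, `entAF`, `entAtop`, `entAmono`, `seA`, `sdA` of `Sys.Hyp` for `I.sys`.
-/

set_option autoImplicit false
set_option linter.unusedSectionVars false

namespace Pool.Agent.GMC

open Finset Pool.Agent.PWZ Pool.Agent.M3 Pool.Agent.M3.Bin Pool.Agent.M3.Mod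
open Pool.Agent.GM99 (Ohc pm kapc)

noncomputable section

variable {k N n : ℕ} {P Ξ : Type} [Fintype P] [Fintype Ξ] [DecidableEq P] [Nonempty P]

namespace Ins

variable {I : Ins k N n P Ξ}

/-- bound of the numbers of entries -/
def Nb (I : Ins k N n P Ξ) (p : ℝ) (l : ℕ) : ℝ := ∑ j ∈ range (l + 1), (1 + 2 ^ (n + 1) * p) / epk I.r j ^ 2

theorem Nb_eq (F : Face k n P Ξ) (p : ℝ) (l : ℕ) : CSys.Nk (I.Y F) (2 ^ (n + 1) * p) l = I.Nb p l := rfl

/-- THE CLASS PROCESS of one side, for any vertex `x` which is uniform and independent of the nodes -/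
theorem hypY {p eps0 : ℝ} (h : InsH I p eps0) {x : S2 k N n P → P × V k} {F : Face k n P Ξ}
    (hF : ∀ e g a y ξ z, |F e g a y ξ z| ≤ 1)
    (hu : ∀ t, ∀ f : Nd k n → P × V k → ℝ, (Pu k N n P).E (fun w => f (I.nu t w) (x w)) =
      (Pu k N n P).E (fun w => (Fintype.card (P × V k) : ℝ)⁻¹ * ∑ v, f (I.nu t w) v))
    (hc : ∑ t ∈ range I.T, (Pu k N n P).E (fun ω => I.cst F (t + 1) (I.nu (t + 1) ω) (x ω)) ≤ 2 ^ (n + 1) * p) :
    CSys.Hyp (Pu k N n P) (I.Y F) I.T x I.nu (I.cst F) (2 ^ (n + 1) * p) where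
  par := fun t ht w => parT_Nc h.hN ht w
  unif := fun t _ f => hu t f
  hx := fun j => xk_pos h.thpos j
  hxa := fun j l hjl => xk_anti h.thpos.le h.th1.le hjl
  he := fun j => epk_pos h.rpos j
  hv := by
    intro t ν a
    have hs : ∀ i, (I.cc t).2 i ≤ k := fun i => (cf_snd_le N I.hh t i).trans h.hN
    have hc' : (I.cc t).1 ≤ k := (cf_fst_le N I.hh t).trans h.hN
    exact GM99.norm_vecc_le _ (wU_nonneg _ _) (fun i => wU_sum hs ν i) I.wx h.wx0 h.wx1 _ (uW_nonneg _ _)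
      (uW_sum hc' ν) I.q _ (fun y ξ z => hF _ _ a y ξ z)
  en := fun _ ht C _ w _ => I.energy F h.hN h.q1 h.wx0 h.wx1 hF ht C w
  hc := hc

/-- side `a` -/
theorem hypA {p eps0 : ℝ} (h : InsH I p eps0) :
    CSys.Hyp (Pu k N n P) (I.Y I.FA) I.T va I.nu (I.cst I.FA) (2 ^ (n + 1) * p) :=
  hypY h h.a.le (fun t f => unif_a (fac_Nc_ct (I.cc t)) f) (I.sum_cst_a h.hN h.a)

/-- side `b` -/
theorem hypB {p eps0 : ℝ} (h : InsH I p eps0) :
    CSys.Hyp (Pu k N n P) (I.Y I.FB) I.T vb I.nu (I.cst I.FB) (2 ^ (n + 1) * p) :=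
  hypY h h.b.le (fun t f => unif_b (fac_Nc_ct (I.cc t)) f) (I.sum_cst_b h.hN h.b)

/-! ## classes -/

theorem clx_top (F : Face k n P Ξ) (t : ℕ) (ν : Nd k n) (a : P × V k) : I.clx F ⊤ t ν a = {a} := by
  unfold clx
  rw [if_pos rfl]

theorem clx_coe (F : Face k n P Ξ) (l t : ℕ) (ν : Nd k n) (a : P × V k) :
    I.clx F (l : ℕ∞) t ν a = (I.Y F).st t ν l a := by
  unfold clx
  rw [if_neg (ENat.natCast_ne_top l), ENat.toNat_natCast]

theorem en_coe (F : Face k n P Ξ) (l t : ℕ) (ν : Nd k n) (a : P × V k) :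
    I.en F (l : ℕ∞) t ν a ↔ (I.Y F).ent l t ν a := by
  unfold en
  rw [ENat.toNat_natCast]
  simp

/-- (contA) without an entry the new class is determined by the old class and the node -/
theorem clx_cont {p eps0 : ℝ} (h : InsH I p eps0) (F : Face k n P Ξ) {i : ℕ∞} {t : ℕ} (ht : t < I.T) {v w : S2 k N n P}
    {a b : P × V k} (hν : I.nu (t + 1) v = I.nu (t + 1) w)
    (hcl : I.clx F i t (I.nu t v) a = I.clx F i t (I.nu t w) b)
    (ha : ¬ I.en F i (t + 1) (I.nu (t + 1) v) a) (hb : ¬ I.en F i (t + 1) (I.nu (t + 1) w) b) :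
    I.clx F i (t + 1) (I.nu (t + 1) v) a = I.clx F i (t + 1) (I.nu (t + 1) w) b := by
  by_cases hi : i = ⊤
  · subst hi
    simpa [clx_top] using hcl
  · lift i to ℕ using hi with l
    rw [clx_coe, clx_coe] at hcl ⊢
    rw [en_coe] at ha hb
    rw [hν] at ha ⊢
    have hpv : parT N I.hh n t (I.nu (t + 1) v) = I.nu t v := parT_Nc h.hN ht v
    have hpw : parT N I.hh n t (I.nu (t + 1) w) = I.nu t w := parT_Nc h.hN ht w
    refine (I.Y F).cont (t := t + 1) ?_ ha hb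
    show (I.Y F).st t (parT N I.hh n t (I.nu (t + 1) w)) l a = (I.Y F).st t (parT N I.hh n t (I.nu (t + 1) w)) l b
    have h2 : I.nu t v = I.nu t w := by rw [← hpv, ← hpw, hν]
    rw [hpw]
    rw [h2] at hcl
    exact hcl

theorem sys_contA {p eps0 : ℝ} (h : InsH I p eps0) : ∀ i, okd I.L i → ∀ t < I.T, ∀ v w,
    I.sys.nu (t + 1) v = I.sys.nu (t + 1) w → I.sys.PA i t v = I.sys.PA i t w →
    ¬ I.sys.entA i (t + 1) v → ¬ I.sys.entA i (t + 1) w → I.sys.PA i (t + 1) v = I.sys.PA i (t + 1) w :=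
  fun _ _ _ ht _ _ hν hcl ha hb => clx_cont h I.FA ht hν hcl ha hb

theorem sys_entAF : ∀ i, okd I.L i → ∀ t < I.T, ∀ v w,
    I.sys.GA (t + 1) v = I.sys.GA (t + 1) w → (I.sys.entA i (t + 1) v ↔ I.sys.entA i (t + 1) w) := by
  intro i _ t _ v w hvw
  unfold Sys.GA at hvw
  rw [Prod.mk.injEq] at hvw
  obtain ⟨h1, h2⟩ := hvw
  have h3 : va v = va w := by
    have h4 : I.clx I.FA ⊤ (t + 1) (I.nu (t + 1) v) (va v) = I.clx I.FA ⊤ (t + 1) (I.nu (t + 1) w) (va w) := h2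
    rw [clx_top, clx_top] at h4
    exact Finset.singleton_injective h4
  show I.en I.FA i (t + 1) (I.nu (t + 1) v) (va v) ↔ I.en I.FA i (t + 1) (I.nu (t + 1) w) (va w)
  have h5 : I.nu (t + 1) v = I.nu (t + 1) w := h1
  rw [h3, h5]

theorem sys_entAtop : ∀ t w, ¬ I.sys.entA ⊤ t w := fun _ _ h => h.1 rfl

theorem sys_entAmono : ∀ i j, okd I.L i → okd I.L j → i ≤ j → j ≠ ⊤ → ∀ t w, I.sys.entA i t w → I.sys.entA j t w := by
  intro i j _ _ hij hj t w he
  refine ⟨hj, ?_⟩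
  exact (I.Y I.FA).ent_mono (ENat.toNat_le_toNat hij hj) he.2

/-! ## budgets -/

theorem Nb_le {p eps0 : ℝ} (h : InsH I p eps0) (l : ℕ) :
    I.Nb p l + 2 ^ n * p ≤ I.bud p l := by
  have hp := h.p0
  have hr := h.rpos
  have hr1 := h.r1
  have hC : (2 : ℝ) ^ (n + 1) ≤ CB n := by
    unfold CB
    have h1 : (2 : ℝ) ^ (n + 1) ≤ 2 ^ (n + 60) := pow_le_pow_right₀ (by norm_num) (by omega)
    have h2 : (1 : ℝ) ≤ (n : ℝ) + 1 := by have := Nat.cast_nonneg (α := ℝ) n; linarith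
    calc (2 : ℝ) ^ (n + 1) ≤ 2 ^ (n + 60) * 1 := by linarith
      _ ≤ _ := mul_le_mul_of_nonneg_left h2 (by positivity)
  have hC1 : (1 : ℝ) ≤ CB n := le_trans (one_le_pow₀ (by norm_num)) hC
  have hC2 : (2 : ℝ) ^ n ≤ CB n := le_trans (pow_le_pow_right₀ (by norm_num) (by omega)) hC
  have hlog : 0 ≤ Real.log (1 / xk I.th l) := by
    apply Real.log_nonneg
    rw [le_div_iff₀ (xk_pos h.thpos l), one_mul]
    unfold xk
    exact pow_le_one₀ h.thpos.le h.th1.le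
  have h1 : I.Nb p l ≤ Nk (CB n) I.r p l := by
    unfold Nb Nk
    refine Finset.sum_le_sum fun j _ => ?_
    have he := epk_pos hr j
    refine div_le_div_of_nonneg_right ?_ (by positivity)
    nlinarith
  have h2 : 2 ^ n * p ≤ Nk (CB n) I.r p l := by
    unfold Nk
    have he := epk_pos hr 0
    have he1 : epk I.r 0 ≤ 1 := by
      unfold epk
      rw [div_le_one (by positivity)]
      norm_num
      linarith
    have h3 : 2 ^ n * p ≤ CB n * (1 + p) / epk I.r 0 ^ 2 := by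
      rw [le_div_iff₀ (by positivity)]
      have h4 : epk I.r 0 ^ 2 ≤ 1 := pow_le_one₀ he.le he1
      have h5 : (0 : ℝ) ≤ 2 ^ n * p := by positivity
      calc 2 ^ n * p * epk I.r 0 ^ 2 ≤ 2 ^ n * p * 1 := mul_le_mul_of_nonneg_left h4 h5
        _ ≤ CB n * (1 + p) := by nlinarith
    refine h3.trans ?_
    refine Finset.single_le_sum (f := fun j => CB n * (1 + p) / epk I.r j ^ 2) (fun j _ => ?_) (by simp)
    have := epk_pos hr j
    positivity
  have hN0 : 0 ≤ Nk (CB n) I.r p l := le_trans (by positivity) h2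
  have hC3 : (2 : ℝ) ≤ CB n := le_trans (by simpa using pow_le_pow_right₀ (by norm_num : (1 : ℝ) ≤ 2) (Nat.succ_le_succ (Nat.zero_le n))) hC
  unfold bud Bk
  have h6 : 2 * Nk (CB n) I.r p l ≤ CB n * (1 + Nk (CB n) I.r p l) * 1 := by nlinarith
  have h7 : CB n * (1 + Nk (CB n) I.r p l) * 1 ≤ CB n * (1 + Nk (CB n) I.r p l) * (1 + Real.log (1 / xk I.th l)) :=
    mul_le_mul_of_nonneg_left (by linarith) (by positivity)
  linarith

theorem sys_seA {p eps0 : ℝ} (h : InsH I p eps0) :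
    ∀ i ≤ I.L, ∑ t ∈ range I.T, (Pu k N n P).Pr (I.sys.entA i (t + 1)) ≤ I.bud p i := by
  intro i _
  have h1 := (hypA h).sum_ent i
  rw [Nb_eq] at h1
  have h2 : ∑ t ∈ range I.T, (Pu k N n P).Pr (I.sys.entA i (t + 1)) =
      ∑ t ∈ range I.T, (Pu k N n P).Pr (fun w => (I.Y I.FA).ent i (t + 1) (I.nu (t + 1) w) (va w)) :=
    Finset.sum_congr rfl fun t _ => FP.Pr_congr _ fun w _ => en_coe _ _ _ _ _
  rw [h2]
  have h3 : 0 ≤ 2 ^ n * p := by have := h.p0; positivity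
  linarith [Nb_le h i]

/-- the loss of the side `F` is `lsc` of the class system -/
theorem ls_eq (F : Face k n P Ξ) (l : ℕ) {t : ℕ} (ν : Nd k n)
    (a : P × V k) : I.ls F l t ν a = (I.Y F).lsc (fun s ν v => I.cv F (s - 1) ν v) l (t + 1) ν a := by
  rw [CSys.lsc_eq]
  unfold ls avs
  rw [clx_coe]
  simp only [en_coe]
  rfl

theorem sys_sdA {p eps0 : ℝ} (h : InsH I p eps0) :
    ∀ i : ℕ, i ≤ I.L → ∑ t ∈ range I.T, (Pu k N n P).E (I.sys.dA i (t + 1)) ≤ I.bud p i := by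
  intro i _
  have h1 := (hypA h).sum_lsc (fun s ν v => I.cv I.FA (s - 1) ν v) i (Cv := 2 ^ n * p) (I.sum_cv_a h.hN h.a)
  rw [Nb_eq] at h1
  have h2 : ∑ t ∈ range I.T, (Pu k N n P).E (I.sys.dA i (t + 1)) =
      ∑ t ∈ range I.T, (Pu k N n P).E (fun w =>
        (I.Y I.FA).lsc (fun s ν v => I.cv I.FA (s - 1) ν v) i (t + 1) (I.nu (t + 1) w) (va w)) :=
    Finset.sum_congr rfl fun t _ => (Pu k N n P).E_congr fun w _ => ls_eq I.FA i _ _
  rw [h2]
  linarith [Nb_le h i]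

end Ins

end

end Pool.Agent.GMC
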