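import Pool.Agent.GMC.Inst
import Pool.Agent.GMC.Rare

/-!
# GMC/IH: RAR at every micro node of the instance, with coins (helper18)

`Ins.sys_rarA` : the field `rarA` of `Sys.Hyp` for `I.sys` with `y0 = I.y0 = 10 th / r`.
-/

set_option autoImplicit false
set_option linter.unusedSectionVars false

namespace Pool.Agent.GMC

open Finset Pool.Agent.PWZ Pool.Agent.M3 Pool.Agent.M3.Bin Pool.Agent.M3.Mod
open Pool.Agent.GM99 (Ohc pm kapc rarc vecc mS inner_mS_vecc)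

noncomputable section

/-- sums on fibres -/
theorem sum_fib {α κ : Type*} [DecidableEq κ] (full : Finset α) (φ : α → ℝ) (π : α → κ) {θ : ℝ}
    (h : ∀ x ∈ full, ∑ y ∈ full.filter (fun y => π y = π x), φ y ≤ θ * (full.filter fun y => π y = π x).card) :
    ∑ x ∈ full, φ x ≤ θ * full.card := by
  classical
  have h1 : ∑ t ∈ full.image π, ∑ y ∈ full.filter (fun y => π y = t), φ y = ∑ x ∈ full, φ x :=
    Finset.sum_fiberwise_of_maps_to (fun x hx => Finset.mem_image_of_mem _ hx) _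
  have h2 : full.card = ∑ t ∈ full.image π, (full.filter fun y => π y = t).card :=
    Finset.card_eq_sum_card_fiberwise fun x hx => Finset.mem_image_of_mem _ hx
  rw [← h1, h2]
  push_cast
  rw [Finset.mul_sum]
  refine Finset.sum_le_sum fun t ht => ?_
  obtain ⟨x, hx, rfl⟩ := Finset.mem_image.mp ht
  exact h x hx

variable {k N n : ℕ} {P Ξ : Type} [Fintype P] [Nonempty P] [Fintype Ξ]

/-- product tests on all products of cells which are not smaller than the small cells -/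
theorem FaceH.big {I : Ins k N n P Ξ} {vx : S2 k N n P → P × V k} {F G : Face k n P Ξ} {p eps0 : ℝ}
    (hF : FaceH I vx F G p eps0) {e : ℕ} (he : e ≤ N) (g : V k × ℕ) (a' : P × V k) {jb : ℕ}
    (hjb : e - (I.h + 3) ≤ jb) {s : Fin n → ℕ} (hs : ∀ i, e - (I.h + 3) ≤ s i) (ca : V k) (co : Fin n → V k)
    (v : Fin n → P × V k → (Fin n → P × V k) → V k → ℝ) (hv : ∀ i a x z, |v i a x z| ≤ 1)
    (hvi : ∀ i a x y, (∀ j, j ≠ i → x j = y j) → ∀ z, v i a x z = v i a y z) :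
    ∑ q ∈ CL (P := P) jb ca ×ˢ fib P s co, ∑ ξ, I.wx ξ *
      ind (eps0 ≤ |av e g.1 (fun d => F e g q.1 q.2 ξ d * G e g a' q.2 ξ d * ∏ i, v i q.1 q.2 d)|) ≤
    I.th * (CL (P := P) jb ca ×ˢ fib P s co).card := by
  classical
  refine sum_fib (CL (P := P) jb ca ×ˢ fib P s co) _
    (fun y : (P × V k) × (Fin n → P × V k) => (flr (e - (I.h + 3)) y.1.2, fun i => flr (e - (I.h + 3)) (y.2 i).2)) ?_
  intro x hx
  have hfull : ((CL (P := P) jb ca ×ˢ fib P s co).filter fun y : (P × V k) × (Fin n → P × V k) =>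
        (flr (e - (I.h + 3)) y.1.2, fun i => flr (e - (I.h + 3)) (y.2 i).2) =
          (flr (e - (I.h + 3)) x.1.2, fun i => flr (e - (I.h + 3)) (x.2 i).2)) =
      SC (P := P) I.h e x.1.2 ×ˢ Fintype.piFinset fun i => SC (P := P) I.h e (x.2 i).2 := by
    rw [Finset.mem_product, mem_fib] at hx
    unfold CL at hx
    ext y
    rw [Finset.mem_filter, Finset.mem_product, Finset.mem_product, mem_fib, Fintype.mem_piFinset]
    unfold CL SC
    simp only [Finset.mem_filter, Finset.mem_univ, true_and, Prod.mk.injEq, funext_iff] at hx ⊢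
    constructor
    · rintro ⟨_, h1, h2⟩
      exact ⟨h1, h2⟩
    · rintro ⟨h1, h2⟩
      exact ⟨⟨(flr_mono_eq hjb h1).trans hx.1, fun i => (flr_mono_eq (hs i) (h2 i)).trans (hx.2 i)⟩, h1, h2⟩
  rw [hfull, Finset.sum_product, Finset.card_product]
  push_cast
  exact hF.pt e he g a' x.1.2 (fun i => (x.2 i).2) v hv hvi

/-- THE HYPOTHESIS OF `GM99.rarc` AT A MICRO NODE -/
theorem FaceH.sum_pm {I : Ins k N n P Ξ} {vx : S2 k N n P → P × V k} {F G : Face k n P Ξ} {p eps0 : ℝ}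
    (hF : FaceH I vx F G p eps0) (hw : ∀ ξ, 0 ≤ I.wx ξ) (hN : N ≤ k) {c : Cfg n} (hc : c.1 ≤ N)
    (hs0 : ∀ i, c.1 - (I.h + 3) ≤ c.2 i)
    (hs : ∀ i, c.2 i ≤ k) (ν : Nd k n) (a' : P × V k) {jb : ℕ} (hjb : c.1 - (I.h + 3) ≤ jb) (ca : V k)
    (v : Fin n → P × V k → (Fin n → P × V k) → V k → ℝ) (hv : ∀ i a x z, |v i a x z| ≤ 1)
    (hvi : ∀ i a x y, (∀ j, j ≠ i → x j = y j) → ∀ z, v i a x z = v i a y z) :
    ∑ a ∈ CL (P := P) jb ca, pm (wU c ν) (fun x => ∑ ξ, I.wx ξ * (if eps0 < |∑ z, uW c ν z *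
      (G c.1 ν.1 a' x ξ z * F c.1 ν.1 a x ξ z * ∏ i, v i a x z)| then (1 : ℝ) else 0)) ≤
      I.th * ((CL (P := P) jb ca).card : ℝ) := by
  classical
  have h1 := hF.big hc ν.1 a' hjb hs0 ca ν.2 v hv hvi
  have hcard : ((fib P c.2 ν.2).card : ℝ) = ∏ i, ((Fintype.card P : ℝ) * 2 ^ c.2 i) := by
    rw [card_fib hs]
    push_cast
    rfl
  have hpos : 0 < ((fib P c.2 ν.2).card : ℝ) := Nat.cast_pos.mpr (card_fib_pos hs _)
  have hW : (∏ i, ((Fintype.card P : ℝ) * 2 ^ c.2 i)⁻¹) = ((fib P c.2 ν.2).card : ℝ)⁻¹ := by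
    rw [hcard, Finset.prod_inv_distrib]
  have h2 : ∑ a ∈ CL (P := P) jb ca, pm (wU c ν) (fun x => ∑ ξ, I.wx ξ * (if eps0 < |∑ z, uW c ν z *
      (G c.1 ν.1 a' x ξ z * F c.1 ν.1 a x ξ z * ∏ i, v i a x z)| then (1 : ℝ) else 0)) ≤
      ((fib P c.2 ν.2).card : ℝ)⁻¹ * ∑ q ∈ CL (P := P) jb ca ×ˢ fib P c.2 ν.2, ∑ ξ, I.wx ξ *
      ind (eps0 ≤ |av c.1 ν.1.1 (fun d => F c.1 ν.1 q.1 q.2 ξ d * G c.1 ν.1 a' q.2 ξ d * ∏ i, v i q.1 q.2 d)|) := by
    rw [Finset.sum_congr rfl fun b _ => GMC.pm_wUr ν _, hW, ← Finset.mul_sum]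
    refine mul_le_mul_of_nonneg_left ?_ (by positivity)
    rw [Finset.sum_product]
    refine Finset.sum_le_sum fun b _ => Finset.sum_le_sum fun x _ => Finset.sum_le_sum fun ξ _ =>
      mul_le_mul_of_nonneg_left ?_ (hw ξ)
    rw [av_uW (hc.trans hN) ν]
    simp only [mul_comm (G c.1 ν.1 a' x ξ _)]
    split_ifs with h3
    · rw [ind_of h3.le]
    · exact ind_nonneg _
  refine h2.trans ?_
  rw [inv_mul_le_iff₀ hpos]
  refine h1.trans (le_of_eq ?_)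
  rw [Finset.card_product]
  push_cast
  ring

/-- RAR in every cell -/
theorem FaceH.rare {I : Ins k N n P Ξ} {vx : S2 k N n P → P × V k} {F G : Face k n P Ξ} {p eps0 : ℝ}
    (hF : FaceH I vx F G p eps0) (hG : ∀ e g a x ξ z, |G e g a x ξ z| ≤ 1) (hw : ∀ ξ, 0 ≤ I.wx ξ)
    (hw1 : ∑ ξ, I.wx ξ = 1) (hN : N ≤ k) {c : Cfg n} (hc : c.1 ≤ N)
    (hs0 : ∀ i, c.1 - (I.h + 3) ≤ c.2 i) (hs : ∀ i, c.2 i ≤ k) (ν : Nd k n) {jb : ℕ}
    (hjb : c.1 - (I.h + 3) ≤ jb) (ca : V k) {r' : ℝ} (hr : 2 * eps0 ^ (2 * I.q) ≤ r') (hr0 : 0 < r')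
    (S : Finset (P × V k)) (hS : S.Nonempty) :
    (((CL (P := P) jb ca).filter fun b => r' ≤ ∑ a ∈ S, (S.card : ℝ)⁻¹ *
      kapc (wU c ν) I.wx (uW c ν) I.q (fun x ξ z => G c.1 ν.1 a x ξ z * F c.1 ν.1 b x ξ z)).card : ℝ) ≤
      2 * I.th / r' * ((CL (P := P) jb ca).card : ℝ) := by
  classical
  have hS0 : (S.card : ℝ) ≠ 0 := Nat.cast_ne_zero.mpr (Finset.card_pos.mpr hS).ne'
  exact rarc (wU c ν) (wU_nonneg c ν) (wU_sum hs ν) I.wx hw hw1 (uW c ν) (uW_nonneg c ν) (uW_sum (hc.trans hN) ν) I.q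
    (fun a b x ξ z => G c.1 ν.1 a x ξ z * F c.1 ν.1 b x ξ z)
    (fun a b x ξ z => by
      rw [abs_mul]
      exact mul_le_one₀ (hG _ _ _ _ _ _) (abs_nonneg _) (hF.le _ _ _ _ _ _)) S (fun _ => (S.card : ℝ)⁻¹)
    (fun _ _ => by positivity) (by
      rw [Finset.sum_const, nsmul_eq_mul]
      exact mul_inv_cancel₀ hS0) (CL (P := P) jb ca) eps0 I.th r' hr hr0
    fun a _ v hv hvi => hF.sum_pm hw hN hc hs0 hs ν a hjb ca v hv hvi

variable [DecidableEq P]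

/-- RARITY (field `rarA`) -/
theorem Ins.sys_rarA (I : Ins k N n P Ξ) {p eps0 : ℝ} (h : InsH I p eps0) (i : ℕ∞) (t : ℕ)
    (w : S2 k N n P) :
    (Pu k N n P).ce (I.sys.GA t) (fun v => ind (99 / 100 * I.r ≤ I.sys.X i ⊤ t v)) w ≤ I.y0 := by
  classical
  set c := I.cc t with hc0
  have hc : c.1 ≤ N := cf_fst_le _ _ _
  have hs : ∀ i, c.2 i ≤ k := fun i => (cf_snd_le _ _ _ i).trans h.hN
  have hhh := h.hh
  have hs0 : ∀ i, c.1 - (I.h + 3) ≤ c.2 i := fun i =>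
    (Nat.sub_le_sub_left hhh c.1).trans (cf_scale (n := n) N I.hh t i).1
  have hR : Rs c.2 ≤ 2 ^ c.1 := Rs_cf (by have := h.hn; omega) t
  have hr0 : 0 < 99 / 100 * I.r := by have := h.rpos; linarith
  have hr : 2 * eps0 ^ (2 * I.q) ≤ 99 / 100 * I.r := by
    have h1 := h.rr
    have h2 := h.rpos
    linarith
  have hcl : ∀ (F : Face k n P Ξ) (ν : Nd k n) (a : P × V k), a ∈ I.clx F i t ν a := by
    intro F ν a
    unfold Ins.clx
    split_ifs
    · exact Finset.mem_singleton_self a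
    · exact ((I.Y F).good_st t ν).self _ _
  -- the process
  have hX : ∀ v : S2 k N n P, I.sys.X i ⊤ t v = ∑ a ∈ I.clx I.FA i t (Nc c v) (va v),
      ((I.clx I.FA i t (Nc c v) (va v)).card : ℝ)⁻¹ * kapc (wU c (Nc c v)) I.wx (uW c (Nc c v)) I.q
        (fun x ξ z => I.FA c.1 (Nc c v).1 a x ξ z * I.FB c.1 (Nc c v).1 (vb v) x ξ z) := by
    intro v
    have h1 := inner_mS_vecc (wU c (Nc c v)) (wU_nonneg c (Nc c v)) I.wx h.wx0 (uW c (Nc c v))
      (uW_nonneg c (Nc c v)) I.q (I.ver I.FA t (Nc c v)) (I.ver I.FB t (Nc c v))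
      (I.clx I.FA i t (Nc c v) (va v)) {vb v}
    have h2 : I.sys.X i ⊤ t v = inner ℝ
        (mS (fun a => vecc (wU c (Nc c v)) I.wx (uW c (Nc c v)) I.q (I.ver I.FA t (Nc c v) a))
          (I.clx I.FA i t (Nc c v) (va v)))
        (mS (fun b => vecc (wU c (Nc c v)) I.wx (uW c (Nc c v)) I.q (I.ver I.FB t (Nc c v) b)) {vb v}) := by
      show inner ℝ _ (mn _ (I.clx I.FB ⊤ t (I.nu t v) (vb v))) = _
      unfold Ins.clx
      rw [if_pos (rfl : (⊤ : ℕ∞) = ⊤)]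
      rfl
    rw [h2, h1, Finset.card_singleton, Nat.cast_one, inv_one, mul_one, Finset.mul_sum]
    refine Finset.sum_congr rfl fun a _ => ?_
    rw [Finset.sum_singleton]
    rfl
  have hmap1 : Fac (I.sys.GA t) (fun ω => (Nc c ω, va ω)) := by
    intro v v' hv
    have h1 : I.nu t v = I.nu t v' := (Prod.mk.injEq _ _ _ _).mp hv |>.1
    have h2 : I.clx I.FA ⊤ t (I.nu t v) (va v) = I.clx I.FA ⊤ t (I.nu t v') (va v') :=
      (Prod.mk.injEq _ _ _ _).mp hv |>.2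
    unfold Ins.clx at h2
    rw [if_pos (rfl : (⊤ : ℕ∞) = ⊤)] at h2
    exact Prod.ext h1 (Finset.singleton_inj.mp h2)
  have hmap2 : Fac (fun ω => (Nc c ω, va ω)) (I.sys.GA t) := by
    intro v v' hv
    have h1 : Nc c v = Nc c v' := (Prod.mk.injEq _ _ _ _).mp hv |>.1
    have h2 : va v = va v' := (Prod.mk.injEq _ _ _ _).mp hv |>.2
    show (Nc c v, I.clx I.FA ⊤ t (Nc c v) (va v)) = (Nc c v', I.clx I.FA ⊤ t (Nc c v') (va v'))
    rw [h1, h2]
  rw [(Pu k N n P).ce_congr_map hmap1 hmap2]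
  have h1 := ce_b_le (P := P) hc h.hN hs hR (j := c.1) (by omega) (hc.trans h.hN)
    (fun ν a => univ.filter fun b : P × V k => 99 / 100 * I.r ≤ ∑ a' ∈ I.clx I.FA i t ν a,
      ((I.clx I.FA i t ν a).card : ℝ)⁻¹ * kapc (wU c ν) I.wx (uW c ν) I.q
        (fun x ξ z => I.FA c.1 ν.1 a' x ξ z * I.FB c.1 ν.1 b x ξ z)) (x := 2 * I.th / (99 / 100 * I.r))
    (by have := h.thpos; positivity) w ?_
  · have h2 : (Pu k N n P).ce (fun ω => (Nc c ω, va ω)) (fun v => ind (99 / 100 * I.r ≤ I.sys.X i ⊤ t v)) w ≤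
        4 * (2 * I.th / (99 / 100 * I.r)) := by
      refine le_trans (le_of_eq ?_) h1
      congr 1
      funext v
      congr 1
      rw [hX v]
      simp only [Finset.mem_filter, Finset.mem_univ, true_and]
    refine h2.trans ?_
    unfold Ins.y0
    have h3 := h.rpos
    have h4 := h.thpos
    rw [show 4 * (2 * I.th / (99 / 100 * I.r)) = 800 / 99 * (I.th / I.r) by field_simp; ring, mul_div_assoc]
    have h5 : 0 < I.th / I.r := div_pos h4 h3
    nlinarith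
  · intro z
    have h2 := h.b.rare h.a.le h.wx0 h.wx1 h.hN hc hs0 hs (Nc c w) (jb := c.1) (by omega) z hr hr0
      (I.clx I.FA i t (Nc c w) (va w)) ⟨va w, hcl _ _ _⟩
    rw [card_CL (hc.trans h.hN)] at h2
    push_cast at h2
    refine le_trans (le_of_eq ?_) h2
    congr 2
    unfold CL
    ext b
    simp only [Finset.mem_filter, Finset.mem_univ, true_and]
    rw [and_comm]

end

end Pool.Agent.GMC
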