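import Pool.Agent.GMC.Mod

/-!
# GMC/Mod2: the model of C2, part 2 (helper27): independence, fairness, domination, supports, the micro sequence

* `indep_a`, `indep_b`: one of the two vertices exactly is independent of (centre, noise, other vertices), hence of the
  whole path of nodes;
* `ce_b`, `ce_a`: law of `b` given (node, `a`): density `cnt / (|P| 2^e0 |fib|)`, and the same for `a` given (node, `b`);
* `ce_fair_a`, `ce_fair_b`: one step ahead, given (node, `a`) the two children have the weights 1/2;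
* `sg` = sign of the step, read off the new node; `ce_sg` = BIAS of the step given (node, `Y`): `sum dif / sum cnt` over the
  pairs with the same `Y`, `dif` = difference of the two children: `sum_dif` = 0, `abs_dif_le`, `var_dif` (variation ≤ 4);
* `cnt_pos_arc`: `cnt ν t ≠ 0` only for `t` in an arc of length `2^e0 + Rs s`; `cnt_full`: `cnt = |fib|` in the middle;
* `ce_b_le`, `ce_a_le`: a set with at most `x |P| 2^j` points in every cell of scale `j ≤ e0 + 1` has conditional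
  probability at most `4 x`;
* `cf N h n τ`, `stp n τ`: the micro sequence, `τ ≤ (n+1) N`.
-/

set_option autoImplicit false
set_option linter.unusedSectionVars false

namespace Pool.Agent.GMC

open Finset Pool.Agent.PWZ Pool.Agent.M3 Pool.Agent.M3.Bin Pool.Agent.M3.Mod

noncomputable section

variable {k N n : ℕ} {P : Type}

section law

variable [Fintype P] [Nonempty P]

/-- total length of the cells (minus the number of cells) -/
def Rs (s : Fin n → ℕ) : ℕ := ∑ i, (2 ^ s i - 1)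

/-! ## independence -/

/-- coordinates: `a` and (private randomness of `b`, centre, other vertices, noise) -/
def eqA : S2 k N n P ≃ (P × V k) × (P × V k × (Fin n → P × V k) × Fin (2 ^ N)) where
  toFun ω := (va ω, ((vb ω).1, ct ω, vo ω, ω.2))
  invFun q := ((q.1, (q.2.1, q.2.2.1 - q.1.2 - so q.2.2.2.1), q.2.2.2.1), q.2.2.2.2)
  left_inv ω := by
    obtain ⟨⟨a, b, o⟩, w⟩ := ω
    refine Prod.ext (Prod.ext rfl (Prod.ext (Prod.ext rfl ?_) rfl)) rfl
    simp only [va, vb, vo, ct]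
    abel
  right_inv q := by
    obtain ⟨a, p, z, o, w⟩ := q
    refine Prod.ext rfl (Prod.ext rfl (Prod.ext ?_ rfl))
    simp only [va, vb, vo, ct]
    abel

/-- coordinates: `b` and (private randomness of `a`, centre, other vertices, noise) -/
def eqB : S2 k N n P ≃ (P × V k) × (P × V k × (Fin n → P × V k) × Fin (2 ^ N)) where
  toFun ω := (vb ω, ((va ω).1, ct ω, vo ω, ω.2))
  invFun q := (((q.2.1, q.2.2.1 - q.1.2 - so q.2.2.2.1), q.1, q.2.2.2.1), q.2.2.2.2)
  left_inv ω := by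
    obtain ⟨⟨a, b, o⟩, w⟩ := ω
    refine Prod.ext (Prod.ext (Prod.ext rfl ?_) rfl) rfl
    simp only [va, vb, vo, ct]
    abel
  right_inv q := by
    obtain ⟨b, p, z, o, w⟩ := q
    refine Prod.ext rfl (Prod.ext rfl (Prod.ext ?_ rfl))
    simp only [va, vb, vo, ct]
    abel

/-- `a` is independent of (private randomness of `b`, centre, other vertices, noise) -/
theorem indep_a : (Pu k N n P).Indep va (fun ω => ((vb ω).1, ct ω, vo ω, nw ω)) := by
  have h := FP.unif_indep (eqA (k := k) (N := N) (n := n) (P := P))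
  refine h.mono (fun v w hvw => hvw) ?_
  intro v w hvw
  simp only [eqA, Equiv.coe_fn_mk, Prod.mk.injEq] at hvw
  obtain ⟨h1, h2, h3, h4⟩ := hvw
  exact Prod.ext h1 (Prod.ext h2 (Prod.ext h3 (congrArg Fin.val h4)))

/-- `b` is independent of (private randomness of `a`, centre, other vertices, noise) -/
theorem indep_b : (Pu k N n P).Indep vb (fun ω => ((va ω).1, ct ω, vo ω, nw ω)) := by
  have h := FP.unif_indep (eqB (k := k) (N := N) (n := n) (P := P))
  refine h.mono (fun v w hvw => hvw) ?_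
  intro v w hvw
  simp only [eqB, Equiv.coe_fn_mk, Prod.mk.injEq] at hvw
  obtain ⟨h1, h2, h3, h4⟩ := hvw
  exact Prod.ext h1 (Prod.ext h2 (Prod.ext h3 (congrArg Fin.val h4)))

omit [Fintype P] [Nonempty P] in
theorem fac_Nc_ct (c : Cfg n) : Fac (fun ω : S2 k N n P => (ct ω, vo ω, nw ω)) (Nc c) := by
  intro v w h
  simp only [Prod.mk.injEq] at h
  unfold Nc Nn
  rw [h.1, h.2.1, h.2.2]

/-- `a` is independent of every node -/
theorem indep_a_Nc (c : Cfg n) : (Pu k N n P).Indep va (Nc c) := by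
  refine indep_a.mono (Fac.refl _) (Fac.trans ?_ (fac_Nc_ct c))
  intro v w h
  simp only [Prod.mk.injEq] at h ⊢
  exact h.2

/-- `b` is independent of every node -/
theorem indep_b_Nc (c : Cfg n) : (Pu k N n P).Indep vb (Nc c) := by
  refine indep_b.mono (Fac.refl _) (Fac.trans ?_ (fac_Nc_ct c))
  intro v w h
  simp only [Prod.mk.injEq] at h ⊢
  exact h.2

/-! ## the law of one vertex given the node and the other vertex -/

/-- total mass of a row -/
def mass (P : Type) [Fintype P] (c : Cfg n) (ν : Nd k n) : ℝ :=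
  (Fintype.card P : ℝ) * (2 ^ c.1 * ((fib P c.2 ν.2).card : ℝ))

theorem mass_pos {c : Cfg n} (hs : ∀ i, c.2 i ≤ k) (ν : Nd k n) : 0 < mass P c ν := by
  unfold mass
  have h1 : (0 : ℝ) < Fintype.card P := Nat.cast_pos.mpr Fintype.card_pos
  have h2 : (0 : ℝ) < ((fib P c.2 ν.2).card : ℝ) := Nat.cast_pos.mpr (card_fib_pos hs _)
  positivity

theorem sum_cnt_real {c : Cfg n} (he : c.1 ≤ k) (ν : Nd k n) (v : V k) :
    ∑ b : P × V k, (cnt P c.1 c.2 ν (v + b.2) : ℝ) = mass P c ν := by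
  have h := sum_cnt (P := P) he c.2 ν v
  unfold mass
  exact_mod_cast h

theorem sum_cnt_real' {c : Cfg n} (he : c.1 ≤ k) (ν : Nd k n) (v : V k) :
    ∑ a : P × V k, (cnt P c.1 c.2 ν (a.2 + v) : ℝ) = mass P c ν := by
  rw [← sum_cnt_real he ν v]
  exact Finset.sum_congr rfl fun a _ => by rw [add_comm]

/-- LAW OF `b` GIVEN (node, `a`) -/
theorem ce_b {c : Cfg n} (hc : c.1 ≤ N) (hN : N ≤ k) (f : Nd k n → P × V k → P × V k → ℝ) (ω0 : S2 k N n P) :
    (Pu k N n P).ce (fun ω => (Nc c ω, va ω)) (fun ω => f (Nc c ω) (va ω) (vb ω)) ω0 =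
      (∑ b, (cnt P c.1 c.2 (Nc c ω0) ((va ω0).2 + b.2) : ℝ) * f (Nc c ω0) (va ω0) b) / mass P c (Nc c ω0) := by
  have h := ce_ab hc hN c.2 (fun _ a _ => a) f ω0
  unfold Nc at h ⊢
  rw [h]
  congr 1
  · rw [Finset.sum_eq_single (va ω0)]
    · refine Finset.sum_congr rfl fun b _ => ?_
      rw [ind_of rfl, one_mul]
    · intro a _ ha
      refine Finset.sum_eq_zero fun b _ => ?_
      rw [ind_not ha]
      ring
    · intro h'
      exact absurd (Finset.mem_univ _) h'
  · rw [Finset.sum_eq_single (va ω0)]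
    · rw [← sum_cnt_real (hc.trans hN) (Nn c.1 c.2 ω0) (va ω0).2]
      refine Finset.sum_congr rfl fun b _ => ?_
      rw [ind_of rfl, mul_one]
    · intro a _ ha
      refine Finset.sum_eq_zero fun b _ => ?_
      rw [ind_not ha]
      ring
    · intro h'
      exact absurd (Finset.mem_univ _) h'

/-- LAW OF `a` GIVEN (node, `b`) -/
theorem ce_a {c : Cfg n} (hc : c.1 ≤ N) (hN : N ≤ k) (f : Nd k n → P × V k → P × V k → ℝ) (ω0 : S2 k N n P) :
    (Pu k N n P).ce (fun ω => (Nc c ω, vb ω)) (fun ω => f (Nc c ω) (va ω) (vb ω)) ω0 =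
      (∑ a, (cnt P c.1 c.2 (Nc c ω0) (a.2 + (vb ω0).2) : ℝ) * f (Nc c ω0) a (vb ω0)) / mass P c (Nc c ω0) := by
  have h := ce_ab hc hN c.2 (fun _ _ b => b) f ω0
  unfold Nc at h ⊢
  rw [h]
  congr 1
  · refine Finset.sum_congr rfl fun a _ => ?_
    rw [Finset.sum_eq_single (vb ω0)]
    · rw [ind_of rfl, one_mul]
    · intro b _ hb
      rw [ind_not hb]
      ring
    · intro h'
      exact absurd (Finset.mem_univ _) h'
  · rw [← sum_cnt_real' (hc.trans hN) (Nn c.1 c.2 ω0) (vb ω0).2]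
    refine Finset.sum_congr rfl fun a _ => ?_
    rw [Finset.sum_eq_single (vb ω0)]
    · rw [ind_of rfl, mul_one]
    · intro b _ hb
      rw [ind_not hb]
      ring
    · intro h'
      exact absurd (Finset.mem_univ _) h'

/-! ## fair bits -/

/-- scales of a configuration -/
def Sc (k N : ℕ) (c : Cfg n) : Prop := c.1 ≤ N ∧ ∀ i, c.2 i ≤ k

theorem fib_chd {st : Option (Fin n)} {c : Cfg n} (hs : ∀ i, (up st c).2 i ≤ k) (b : ℕ) (ν : Nd k n) :
    2 * (2 ^ c.1 * (fib P c.2 (chd st c b ν).2).card) = 2 ^ (up st c).1 * (fib P (up st c).2 ν.2).card := by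
  have hs' : ∀ i, c.2 i ≤ k := fun i => ((Nc_le_up st c).2 i).trans (hs i)
  rw [card_fib hs', card_fib hs]
  cases st with
  | none =>
    unfold up
    simp only
    rw [pow_succ]
    ring
  | some i =>
    unfold up
    simp only
    have h1 : ∏ l, (Fintype.card P * 2 ^ (Function.update c.2 i (c.2 i + 1) l)) =
        2 * ∏ l, (Fintype.card P * 2 ^ (c.2 l)) := by
      rw [← Finset.mul_prod_erase univ _ (Finset.mem_univ i),
        ← Finset.mul_prod_erase univ (fun l => Fintype.card P * 2 ^ (c.2 l)) (Finset.mem_univ i)]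
      rw [Function.update_self, pow_succ]
      have h2 : ∏ x ∈ univ.erase i, (Fintype.card P * 2 ^ (Function.update c.2 i (c.2 i + 1) x)) =
          ∏ x ∈ univ.erase i, (Fintype.card P * 2 ^ (c.2 x)) := by
        refine Finset.prod_congr rfl fun x hx => ?_
        rw [Function.update_of_ne (Finset.ne_of_mem_erase hx)]
      rw [h2]
      ring
    rw [h1]
    ring

/-- the children have half the mass -/
theorem mass_chd {st : Option (Fin n)} {c : Cfg n} (hs : ∀ i, (up st c).2 i ≤ k) (b : ℕ) (ν : Nd k n) :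
    2 * mass P c (chd st c b ν) = mass P (up st c) ν := by
  have h := fib_chd (P := P) hs b ν
  have h' : (2 : ℝ) * (2 ^ c.1 * ((fib P c.2 (chd st c b ν).2).card : ℝ)) =
      2 ^ (up st c).1 * ((fib P (up st c).2 ν.2).card : ℝ) := by exact_mod_cast h
  unfold mass
  rw [← h']
  ring

/-- ONE FAIR STEP given (node, `a`) -/
theorem ce_fair_a {st : Option (Fin n)} {c : Cfg n} (hok : Ok k N st c) (hc : (up st c).1 ≤ N) (hN : N ≤ k)
    (hs : ∀ i, (up st c).2 i ≤ k) (f : Nd k n → P × V k → ℝ) (ω0 : S2 k N n P) :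
    (Pu k N n P).ce (fun ω => (Nc (up st c) ω, va ω)) (fun ω => f (Nc c ω) (va ω)) ω0 =
      (f (chd st c 0 (Nc (up st c) ω0)) (va ω0) + f (chd st c 1 (Nc (up st c) ω0)) (va ω0)) / 2 := by
  have hc' : c.1 ≤ k := ((Nc_le_up st c).1.trans hc).trans hN
  have h := ce_ab_step hok hc hN (fun _ a _ => a) (fun ν' a _ => f ν' a) ω0
  rw [h]
  set ν := Nc (up st c) ω0 with hν
  have hnum : ∀ b : ℕ, ∑ a : P × V k, ∑ x : P × V k, (cnt P c.1 c.2 (chd st c b ν) (a.2 + x.2) : ℝ) * (ind (a = va ω0) * f (chd st c b ν) a) =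
      mass P c (chd st c b ν) * f (chd st c b ν) (va ω0) := by
    intro b
    rw [Finset.sum_eq_single (va ω0)]
    · rw [← sum_cnt_real hc' (chd st c b ν) (va ω0).2, Finset.sum_mul]
      refine Finset.sum_congr rfl fun x _ => ?_
      rw [ind_of rfl, one_mul]
    · intro a _ ha
      refine Finset.sum_eq_zero fun x _ => ?_
      rw [ind_not ha]
      ring
    · intro h'
      exact absurd (Finset.mem_univ _) h'
  have hden : ∑ a : P × V k, ∑ x : P × V k, (cnt P (up st c).1 (up st c).2 ν (a.2 + x.2) : ℝ) * ind (a = va ω0) = mass P (up st c) ν := by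
    rw [Finset.sum_eq_single (va ω0)]
    · rw [← sum_cnt_real (hc.trans hN) ν (va ω0).2]
      refine Finset.sum_congr rfl fun x _ => ?_
      rw [ind_of rfl, mul_one]
    · intro a _ ha
      refine Finset.sum_eq_zero fun x _ => ?_
      rw [ind_not ha]
      ring
    · intro h'
      exact absurd (Finset.mem_univ _) h'
  have hpos := mass_pos (P := P) hs ν
  rw [hnum 0, hnum 1, hden]
  have h0 := mass_chd (P := P) hs 0 ν
  have h1 := mass_chd (P := P) hs 1 ν
  rw [div_eq_div_iff hpos.ne' (by norm_num)]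
  rw [← h0]
  have h2 : mass P c (chd st c 1 ν) = mass P c (chd st c 0 ν) := by linarith
  rw [h2]
  ring

/-- ONE FAIR STEP given (node, `b`) -/
theorem ce_fair_b {st : Option (Fin n)} {c : Cfg n} (hok : Ok k N st c) (hc : (up st c).1 ≤ N) (hN : N ≤ k)
    (hs : ∀ i, (up st c).2 i ≤ k) (f : Nd k n → P × V k → ℝ) (ω0 : S2 k N n P) :
    (Pu k N n P).ce (fun ω => (Nc (up st c) ω, vb ω)) (fun ω => f (Nc c ω) (vb ω)) ω0 =
      (f (chd st c 0 (Nc (up st c) ω0)) (vb ω0) + f (chd st c 1 (Nc (up st c) ω0)) (vb ω0)) / 2 := by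
  have hc' : c.1 ≤ k := ((Nc_le_up st c).1.trans hc).trans hN
  have h := ce_ab_step hok hc hN (fun _ _ b => b) (fun ν' _ b => f ν' b) ω0
  rw [h]
  set ν := Nc (up st c) ω0 with hν
  have hnum : ∀ b : ℕ, ∑ a : P × V k, ∑ x : P × V k, (cnt P c.1 c.2 (chd st c b ν) (a.2 + x.2) : ℝ) * (ind (x = vb ω0) * f (chd st c b ν) x) =
      mass P c (chd st c b ν) * f (chd st c b ν) (vb ω0) := by
    intro b
    rw [← sum_cnt_real' hc' (chd st c b ν) (vb ω0).2, Finset.sum_mul]
    refine Finset.sum_congr rfl fun a _ => ?_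
    rw [Finset.sum_eq_single (vb ω0)]
    · rw [ind_of rfl, one_mul]
    · intro x _ hx
      rw [ind_not hx]
      ring
    · intro h'
      exact absurd (Finset.mem_univ _) h'
  have hden : ∑ a : P × V k, ∑ x : P × V k, (cnt P (up st c).1 (up st c).2 ν (a.2 + x.2) : ℝ) * ind (x = vb ω0) = mass P (up st c) ν := by
    rw [← sum_cnt_real' (hc.trans hN) ν (vb ω0).2]
    refine Finset.sum_congr rfl fun a _ => ?_
    rw [Finset.sum_eq_single (vb ω0)]
    · rw [ind_of rfl, mul_one]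
    · intro x _ hx
      rw [ind_not hx]
      ring
    · intro h'
      exact absurd (Finset.mem_univ _) h'
  have hpos := mass_pos (P := P) hs ν
  rw [hnum 0, hnum 1, hden]
  have h0 := mass_chd (P := P) hs 0 ν
  have h1 := mass_chd (P := P) hs 1 ν
  rw [div_eq_div_iff hpos.ne' (by norm_num)]
  rw [← h0]
  have h2 : mass P c (chd st c 1 ν) = mass P c (chd st c 0 ν) := by linarith
  rw [h2]
  ring

/-- ONE FAIR STEP given the node -/
theorem ce_fair {st : Option (Fin n)} {c : Cfg n} (hok : Ok k N st c) (hc : (up st c).1 ≤ N) (hN : N ≤ k)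
    (hs : ∀ i, (up st c).2 i ≤ k) (f : Nd k n → ℝ) (ω0 : S2 k N n P) :
    (Pu k N n P).ce (Nc (up st c)) (fun ω => f (Nc c ω)) ω0 =
      (f (chd st c 0 (Nc (up st c) ω0)) + f (chd st c 1 (Nc (up st c) ω0))) / 2 := by
  have h1 : Fac (fun ω : S2 k N n P => (Nc (up st c) ω, va ω)) (Nc (up st c)) := fun v w h =>
    (Prod.mk.injEq _ _ _ _ ▸ h : _ ∧ _).1
  rw [← FP.ce_tower (Pu k N n P) h1 (fun ω => f (Nc c ω)) ω0]
  have h2 : (Pu k N n P).ce (fun ω => (Nc (up st c) ω, va ω)) (fun ω => f (Nc c ω)) =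
      fun ω => (f (chd st c 0 (Nc (up st c) ω)) + f (chd st c 1 (Nc (up st c) ω))) / 2 :=
    funext fun ω => ce_fair_a hok hc hN hs (fun ν _ => f ν) ω
  rw [h2]
  exact FP.ce_of_fac _ (fun v w h => by rw [h]) (Pu_ne ω0)

/-! ## the sign of a step and its bias -/

/-- the sign of the step, read off the new node: `+1` = child `0`, `-1` = child `1` -/
def sg (st : Option (Fin n)) (c : Cfg n) (ν : Nd k n) : ℝ :=
  match st with
  | none => if ν.1.2 % 2 = 0 then 1 else -1
  | some i => if bit (c.2 i) (ν.2 i).val = 0 then 1 else -1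

omit [Fintype P] [Nonempty P] in
theorem sg_val (st : Option (Fin n)) (c : Cfg n) (ν : Nd k n) : sg st c ν = 1 ∨ sg st c ν = -1 := by
  unfold sg
  cases st <;> simp only <;> split_ifs <;> simp

theorem sg_chd {st : Option (Fin n)} {c : Cfg n} (hok : Ok k N st c) {ν : Nd k n}
    (hν : Val N (up st c).1 (up st c).2 ν) {b : ℕ} (hb : b < 2) :
    sg st c (chd st c b ν) = if b = 0 then 1 else -1 := by
  cases st with
  | none =>
    unfold sg chd
    simp only
    have h1 : (2 * ν.1.2 + b) % 2 = b := by omega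
    rw [h1]
  | some i =>
    unfold sg chd
    simp only [Function.update_self]
    have h3 := hν.2 i
    unfold up at h3
    simp only [Function.update_self] at h3
    have h4 : (ν.2 i).val % 2 ^ (c.2 i + 1) = 0 := by
      have h5 := flr_val (c.2 i + 1) (ν.2 i)
      rw [h3] at h5
      have := Nat.mod_le (ν.2 i).val (2 ^ (c.2 i + 1))
      omega
    have h6 : bit (c.2 i) (ν.2 i + ((b * 2 ^ c.2 i : ℕ) : V k)).val = b := by
      have h7 : ∀ w : ℕ, bit (c.2 i) w = (w % 2 ^ (c.2 i + 1)) / 2 ^ c.2 i := by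
        intro w
        unfold bit
        rw [pow_succ, Nat.mod_mul_right_div_self]
      have h8 : b * 2 ^ c.2 i < 2 ^ (c.2 i + 1) := by
        rw [pow_succ]
        nlinarith [Nat.two_pow_pos (c.2 i)]
      rw [h7, val_add_mod hok, Nat.add_mod, h4, zero_add, Nat.mod_mod, Nat.mod_eq_of_lt h8]
      exact Nat.mul_div_cancel _ (Nat.two_pow_pos _)
    rw [h6]

omit [Fintype P] [Nonempty P] in
/-- the sign of the new node is the sign of the bit -/
theorem sg_Nc {st : Option (Fin n)} {c : Cfg n} (hok : Ok k N st c) (hc : (up st c).1 ≤ N) (ω : S2 k N n P) :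
    sg st c (Nc c ω) = if bs st c ω = 0 then 1 else -1 := by
  rw [Nc_eq st c ω]
  exact sg_chd hok (val_Nn hc _ ω) (bs_lt st c ω)

/-- difference of the two children -/
def dif (P : Type) [Fintype P] (st : Option (Fin n)) (c : Cfg n) (ν : Nd k n) (t : V k) : ℝ :=
  (cnt P c.1 c.2 (chd st c 0 ν) t : ℝ) - cnt P c.1 c.2 (chd st c 1 ν) t

theorem abs_dif_le {st : Option (Fin n)} {c : Cfg n} (hok : Ok k N st c) (hc : (up st c).1 ≤ N) (hN : N ≤ k)
    {ν : Nd k n} (hν : Val N (up st c).1 (up st c).2 ν) (t : V k) :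
    |dif P st c ν t| ≤ cnt P (up st c).1 (up st c).2 ν t := by
  have h := cnt_step (P := P) hok hc hN hν t
  unfold dif
  rw [h, abs_le]
  push_cast
  constructor
  · have := Nat.cast_nonneg (α := ℝ) (cnt P c.1 c.2 (chd st c 0 ν) t)
    linarith
  · have := Nat.cast_nonneg (α := ℝ) (cnt P c.1 c.2 (chd st c 1 ν) t)
    linarith

/-- the difference has mean zero -/
theorem sum_dif {st : Option (Fin n)} {c : Cfg n} (hc : c.1 ≤ k) (hs : ∀ i, (up st c).2 i ≤ k) (ν : Nd k n) :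
    ∑ t : V k, dif P st c ν t = 0 := by
  unfold dif
  rw [Finset.sum_sub_distrib]
  have h1 : ∀ b : ℕ, ∑ t : V k, (cnt P c.1 c.2 (chd st c b ν) t : ℝ) =
      ((2 ^ c.1 * (fib P c.2 (chd st c b ν).2).card : ℕ) : ℝ) := by
    intro b
    rw [← sum_cnt_V hc c.2 (chd st c b ν)]
    push_cast
    rfl
  have h2 := fib_chd (P := P) hs 0 ν
  have h3 := fib_chd (P := P) hs 1 ν
  have h4 : 2 ^ c.1 * (fib P c.2 (chd st c 0 ν).2).card = 2 ^ c.1 * (fib P c.2 (chd st c 1 ν).2).card := by omega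
  rw [h1, h1, h4, sub_self]

/-- the children have at most as many completions of the cells as the parent -/
theorem fib_chd_le {st : Option (Fin n)} {c : Cfg n} (hs : ∀ i, (up st c).2 i ≤ k) (b : ℕ) (ν : Nd k n) :
    (fib P c.2 (chd st c b ν).2).card ≤ (fib P (up st c).2 ν.2).card := by
  rw [card_fib (fun i => ((Nc_le_up st c).2 i).trans (hs i)), card_fib hs]
  exact Finset.prod_le_prod' fun i _ =>
    Nat.mul_le_mul_left _ (Nat.pow_le_pow_right (by norm_num) ((Nc_le_up st c).2 i))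

/-- VARIATION of the difference on the circle -/
theorem var_dif {st : Option (Fin n)} {c : Cfg n} (hs : ∀ i, (up st c).2 i ≤ k) (ν : Nd k n) :
    ∑ t : V k, |dif P st c ν (t + 1) - dif P st c ν t| ≤ 4 * (fib P (up st c).2 ν.2).card := by
  have h0 := var_cnt (P := P) c.1 c.2 (chd st c 0 ν)
  have h1 := var_cnt (P := P) c.1 c.2 (chd st c 1 ν)
  have h2 : ∀ t : V k, |dif P st c ν (t + 1) - dif P st c ν t| ≤
      |(cnt P c.1 c.2 (chd st c 0 ν) (t + 1) : ℝ) - cnt P c.1 c.2 (chd st c 0 ν) t| +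
      |(cnt P c.1 c.2 (chd st c 1 ν) (t + 1) : ℝ) - cnt P c.1 c.2 (chd st c 1 ν) t| := by
    intro t
    unfold dif
    have e1 : (cnt P c.1 c.2 (chd st c 0 ν) (t + 1) : ℝ) - cnt P c.1 c.2 (chd st c 1 ν) (t + 1) -
        ((cnt P c.1 c.2 (chd st c 0 ν) t : ℝ) - cnt P c.1 c.2 (chd st c 1 ν) t) =
        ((cnt P c.1 c.2 (chd st c 0 ν) (t + 1) : ℝ) - cnt P c.1 c.2 (chd st c 0 ν) t) -
        ((cnt P c.1 c.2 (chd st c 1 ν) (t + 1) : ℝ) - cnt P c.1 c.2 (chd st c 1 ν) t) := by ring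
    rw [e1]
    exact abs_sub _ _
  refine (Finset.sum_le_sum fun t _ => h2 t).trans ?_
  rw [Finset.sum_add_distrib]
  have h3 : ((fib P c.2 (chd st c 0 ν).2).card : ℝ) ≤ (fib P (up st c).2 ν.2).card :=
    Nat.cast_le.mpr (fib_chd_le hs 0 ν)
  have h4 : ((fib P c.2 (chd st c 1 ν).2).card : ℝ) ≤ (fib P (up st c).2 ν.2).card :=
    Nat.cast_le.mpr (fib_chd_le hs 1 ν)
  linarith

/-- BIAS of the step given (node, `Y` (node, a, b)) -/
theorem ce_sg {st : Option (Fin n)} {c : Cfg n} (hok : Ok k N st c) (hc : (up st c).1 ≤ N) (hN : N ≤ k)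
    {κ : Type*} (Y : Nd k n → P × V k → P × V k → κ) (ω0 : S2 k N n P) :
    (Pu k N n P).ce (fun ω => (Nc (up st c) ω, Y (Nc (up st c) ω) (va ω) (vb ω)))
        (fun ω => sg st c (Nc c ω)) ω0 =
      (∑ a, ∑ b, dif P st c (Nc (up st c) ω0) (a.2 + b.2) *
        ind (Y (Nc (up st c) ω0) a b = Y (Nc (up st c) ω0) (va ω0) (vb ω0))) /
      ∑ a, ∑ b, (cnt P (up st c).1 (up st c).2 (Nc (up st c) ω0) (a.2 + b.2) : ℝ) *
        ind (Y (Nc (up st c) ω0) a b = Y (Nc (up st c) ω0) (va ω0) (vb ω0)) := by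
  have hν : Val N (up st c).1 (up st c).2 (Nc (up st c) ω0) := val_Nn hc _ ω0
  rw [ce_ab_step hok hc hN Y (fun ν' _ _ => sg st c ν') ω0]
  congr 1
  rw [sg_chd hok hν (by norm_num : (0 : ℕ) < 2), sg_chd hok hν (by norm_num : (1 : ℕ) < 2), if_pos rfl,
    if_neg one_ne_zero, ← Finset.sum_add_distrib]
  refine Finset.sum_congr rfl fun a _ => ?_
  rw [← Finset.sum_add_distrib]
  refine Finset.sum_congr rfl fun b _ => ?_
  unfold dif
  ring

/-! ## supports -/

omit [Nonempty P] in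
/-- the other vertices are at bounded distance of the left ends of their cells -/
theorem so_fib {s : Fin n → ℕ} {c : Fin n → V k} (hc : ∀ i, flr (s i) (c i) = c i) {o : Fin n → P × V k}
    (ho : o ∈ fib P s c) : ∃ r : ℕ, r ≤ Rs s ∧ so o = (∑ i, c i) + (r : V k) := by
  rw [mem_fib] at ho
  have h1 : ∀ i, ∃ r : ℕ, r < 2 ^ s i ∧ (o i).2 = c i + (r : V k) := by
    intro i
    obtain ⟨r, hr, hv⟩ := flr_add_rem (s i) (o i).2
    exact ⟨r, hr, by rw [← hc i, ← ho i]; exact hv⟩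
  choose r hr hv using h1
  refine ⟨∑ i, r i, ?_, ?_⟩
  · unfold Rs
    exact Finset.sum_le_sum fun i _ => by have := hr i; omega
  · unfold so
    rw [Nat.cast_sum, ← Finset.sum_add_distrib]
    exact Finset.sum_congr rfl fun i _ => hv i

omit [Nonempty P] in
/-- SUPPORT of the number of completions -/
theorem cnt_pos_arc {e0 : ℕ} {s : Fin n → ℕ} {ν : Nd k n} (hc : ∀ i, flr (s i) (ν.2 i) = ν.2 i) {t : V k}
    (ht : cnt P e0 s ν t ≠ 0) : (ν.1.1 - t - ∑ i, ν.2 i).val < 2 ^ e0 + Rs s := by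
  unfold cnt at ht
  obtain ⟨o, ho⟩ := Finset.card_ne_zero.mp ht
  rw [Finset.mem_filter] at ho
  obtain ⟨r, hr, hso⟩ := so_fib hc ho.1
  have h1 : ν.1.1 - t - ∑ i, ν.2 i = (((ν.1.1 - t - so o).val + r : ℕ) : V k) := by
    rw [Nat.cast_add, ZMod.natCast_zmod_val, hso]
    abel
  rw [h1, ZMod.val_natCast]
  exact lt_of_le_of_lt (Nat.mod_le _ _) (by omega)

omit [Nonempty P] in
/-- FULL MIDDLE PART -/
theorem cnt_full {e0 : ℕ} {s : Fin n → ℕ} {ν : Nd k n} (hc : ∀ i, flr (s i) (ν.2 i) = ν.2 i) {t : V k}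
    (h1 : Rs s ≤ (ν.1.1 - t - ∑ i, ν.2 i).val) (h2 : (ν.1.1 - t - ∑ i, ν.2 i).val < 2 ^ e0) :
    cnt P e0 s ν t = (fib P s ν.2).card := by
  unfold cnt
  congr 1
  refine Finset.filter_true_of_mem fun o ho => ?_
  obtain ⟨r, hr, hso⟩ := so_fib hc ho
  have h3 : ν.1.1 - t - so o = (((ν.1.1 - t - ∑ i, ν.2 i).val - r : ℕ) : V k) := by
    rw [Nat.cast_sub (hr.trans h1), ZMod.natCast_zmod_val, hso]
    abel
  rw [h3, ZMod.val_natCast]
  exact lt_of_le_of_lt (Nat.mod_le _ _) (by omega)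

/-! ## sparse sets of one line -/

omit [Nonempty P] in
/-- a set with at most `x |P| 2^j` points in every cell of scale `j` has at most `4 x |P| 2^e0` points in the support -/
theorem card_supp_le {e0 j : ℕ} (hj : j ≤ e0 + 1) (hjk : j ≤ k) {s : Fin n → ℕ} (hR : Rs s ≤ 2 ^ e0)
    {ν : Nd k n} (hc : ∀ i, flr (s i) (ν.2 i) = ν.2 i) (v : V k) (S : Finset (P × V k)) {x : ℝ} (hx : 0 ≤ x)
    (hS : ∀ z : V k, ((S.filter fun b => flr j b.2 = flr j z).card : ℝ) ≤ x * ((Fintype.card P : ℝ) * 2 ^ j)) :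
    ((S.filter fun b => cnt P e0 s ν (v + b.2) ≠ 0).card : ℝ) ≤ 4 * x * ((Fintype.card P : ℝ) * 2 ^ e0) := by
  classical
  set E : ℕ := min (e0 + 1) k with hE
  have hjE : j ≤ E := le_min hj hjk
  have hEk : E ≤ k := min_le_right _ _
  set z0 : V k := ν.1.1 - v - ∑ i, ν.2 i with hz0
  have hsub : S.filter (fun b => cnt P e0 s ν (v + b.2) ≠ 0) ⊆
      (range (2 ^ (E - j) + (if j = 0 then 0 else 1))).biUnion fun t =>
        S.filter fun b => flr j b.2 = flr j (z0 - ((t * 2 ^ j : ℕ) : V k)) := by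
    intro b hb
    rw [Finset.mem_filter] at hb
    have h1 := cnt_pos_arc hc hb.2
    have h2 : ν.1.1 - (v + b.2) - ∑ i, ν.2 i = z0 - b.2 := by rw [hz0]; abel
    rw [h2] at h1
    have h3 : (z0 - b.2).val < 2 ^ E := by
      rw [hE]
      rcases min_choice (e0 + 1) k with h4 | h4
      · rw [h4, pow_succ]
        omega
      · rw [h4]
        exact ZMod.val_lt _
    obtain ⟨t, ht, h5⟩ := win_cover hjE hEk z0 _ h3
    rw [ZMod.natCast_zmod_val, sub_sub_cancel] at h5
    rw [Finset.mem_biUnion]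
    exact ⟨t, ht, Finset.mem_filter.mpr ⟨hb.1, h5⟩⟩
  have h1 : ((S.filter fun b => cnt P e0 s ν (v + b.2) ≠ 0).card : ℝ) ≤
      ((2 ^ (E - j) + 1 : ℕ) : ℝ) * (x * ((Fintype.card P : ℝ) * 2 ^ j)) := by
    refine (Nat.cast_le.mpr ((Finset.card_le_card hsub).trans Finset.card_biUnion_le)).trans ?_
    rw [Nat.cast_sum]
    refine (Finset.sum_le_sum fun t _ => hS _).trans ?_
    rw [Finset.sum_const, card_range, nsmul_eq_mul]
    have h0 : 0 ≤ x * ((Fintype.card P : ℝ) * 2 ^ j) := by positivity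
    refine mul_le_mul_of_nonneg_right ?_ h0
    norm_cast
    split_ifs <;> omega
  refine h1.trans ?_
  have h2 : (2 ^ (E - j) + 1) * 2 ^ j ≤ 4 * 2 ^ e0 := by
    have h3 : 2 ^ (E - j) * 2 ^ j = 2 ^ E := by rw [← pow_add, Nat.sub_add_cancel hjE]
    have h4 : 2 ^ E ≤ 2 ^ (e0 + 1) := Nat.pow_le_pow_right (by norm_num) (min_le_left _ _)
    have h5 : 2 ^ j ≤ 2 ^ (e0 + 1) := Nat.pow_le_pow_right (by norm_num) hj
    rw [pow_succ] at h4 h5
    nlinarith
  have h6 : (((2 ^ (E - j) + 1 : ℕ) : ℝ)) * 2 ^ j ≤ 4 * 2 ^ e0 := by exact_mod_cast h2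
  have h7 : 0 ≤ x * (Fintype.card P : ℝ) := by positivity
  calc ((2 ^ (E - j) + 1 : ℕ) : ℝ) * (x * ((Fintype.card P : ℝ) * 2 ^ j))
      = x * (Fintype.card P : ℝ) * ((((2 ^ (E - j) + 1 : ℕ) : ℝ)) * 2 ^ j) := by ring
    _ ≤ x * (Fintype.card P : ℝ) * (4 * 2 ^ e0) := mul_le_mul_of_nonneg_left h6 h7
    _ = _ := by ring

/-- DOMINATION: `P(b in S | node, a) ≤ 4 x`; the set may depend on (node, `a`) -/
theorem ce_b_le {c : Cfg n} (hc : c.1 ≤ N) (hN : N ≤ k) (hs : ∀ i, c.2 i ≤ k) (hR : Rs c.2 ≤ 2 ^ c.1) {j : ℕ}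
    (hj : j ≤ c.1 + 1) (hjk : j ≤ k) (S : Nd k n → P × V k → Finset (P × V k)) {x : ℝ} (hx : 0 ≤ x) (ω0 : S2 k N n P)
    (hS : ∀ z : V k, (((S (Nc c ω0) (va ω0)).filter fun b => flr j b.2 = flr j z).card : ℝ) ≤
      x * ((Fintype.card P : ℝ) * 2 ^ j)) :
    (Pu k N n P).ce (fun ω => (Nc c ω, va ω)) (fun ω => ind (vb ω ∈ S (Nc c ω) (va ω))) ω0 ≤ 4 * x := by
  rw [ce_b hc hN (fun ν a b => ind (b ∈ S ν a)) ω0]
  have hal : ∀ i, flr (c.2 i) ((Nc c ω0).2 i) = (Nc c ω0).2 i := (val_Nn hc c.2 ω0).2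
  have hpos := mass_pos (P := P) hs (Nc c ω0)
  rw [div_le_iff₀ hpos]
  have h1 := card_supp_le hj hjk hR hal (va ω0).2 (S (Nc c ω0) (va ω0)) hx hS
  set T := (S (Nc c ω0) (va ω0)).filter fun b => cnt P c.1 c.2 (Nc c ω0) ((va ω0).2 + b.2) ≠ 0 with hT
  have h2 : ∑ b, (cnt P c.1 c.2 (Nc c ω0) ((va ω0).2 + b.2) : ℝ) * ind (b ∈ S (Nc c ω0) (va ω0)) ≤
      ∑ b ∈ T, ((fib P c.2 (Nc c ω0).2).card : ℝ) := by
    rw [← Finset.sum_subset (Finset.subset_univ T)]
    · refine Finset.sum_le_sum fun b hb => ?_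
      rw [hT, Finset.mem_filter] at hb
      rw [ind_of hb.1, mul_one]
      exact Nat.cast_le.mpr (cnt_le _ _ _ _)
    · intro b _ hb
      by_cases h3 : b ∈ S (Nc c ω0) (va ω0)
      · have h4 : cnt P c.1 c.2 (Nc c ω0) ((va ω0).2 + b.2) = 0 := by
          by_contra h5
          exact hb (Finset.mem_filter.mpr ⟨h3, h5⟩)
        rw [h4]
        simp
      · rw [ind_not h3, mul_zero]
  refine h2.trans ?_
  rw [Finset.sum_const, nsmul_eq_mul]
  have h3 : (0 : ℝ) ≤ ((fib P c.2 (Nc c ω0).2).card : ℝ) := Nat.cast_nonneg _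
  calc (T.card : ℝ) * ((fib P c.2 (Nc c ω0).2).card : ℝ)
      ≤ (4 * x * ((Fintype.card P : ℝ) * 2 ^ c.1)) * ((fib P c.2 (Nc c ω0).2).card : ℝ) :=
        mul_le_mul_of_nonneg_right h1 h3
    _ = 4 * x * mass P c (Nc c ω0) := by unfold mass; ring

/-- DOMINATION for `a` given (node, `b`) -/
theorem ce_a_le {c : Cfg n} (hc : c.1 ≤ N) (hN : N ≤ k) (hs : ∀ i, c.2 i ≤ k) (hR : Rs c.2 ≤ 2 ^ c.1) {j : ℕ}
    (hj : j ≤ c.1 + 1) (hjk : j ≤ k) (S : Nd k n → P × V k → Finset (P × V k)) {x : ℝ} (hx : 0 ≤ x) (ω0 : S2 k N n P)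
    (hS : ∀ z : V k, (((S (Nc c ω0) (vb ω0)).filter fun a => flr j a.2 = flr j z).card : ℝ) ≤
      x * ((Fintype.card P : ℝ) * 2 ^ j)) :
    (Pu k N n P).ce (fun ω => (Nc c ω, vb ω)) (fun ω => ind (va ω ∈ S (Nc c ω) (vb ω))) ω0 ≤ 4 * x := by
  rw [ce_a hc hN (fun ν a b => ind (a ∈ S ν b)) ω0]
  have hal : ∀ i, flr (c.2 i) ((Nc c ω0).2 i) = (Nc c ω0).2 i := (val_Nn hc c.2 ω0).2
  have hpos := mass_pos (P := P) hs (Nc c ω0)
  rw [div_le_iff₀ hpos]
  have h1 := card_supp_le hj hjk hR hal (vb ω0).2 (S (Nc c ω0) (vb ω0)) hx hS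
  set T := (S (Nc c ω0) (vb ω0)).filter fun a => cnt P c.1 c.2 (Nc c ω0) ((vb ω0).2 + a.2) ≠ 0 with hT
  have h2 : ∑ a, (cnt P c.1 c.2 (Nc c ω0) (a.2 + (vb ω0).2) : ℝ) * ind (a ∈ S (Nc c ω0) (vb ω0)) ≤
      ∑ a ∈ T, ((fib P c.2 (Nc c ω0).2).card : ℝ) := by
    rw [← Finset.sum_subset (Finset.subset_univ T)]
    · refine Finset.sum_le_sum fun a ha => ?_
      rw [hT, Finset.mem_filter] at ha
      rw [ind_of ha.1, mul_one]
      exact Nat.cast_le.mpr (cnt_le _ _ _ _)
    · intro a _ ha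
      by_cases h3 : a ∈ S (Nc c ω0) (vb ω0)
      · have h4 : cnt P c.1 c.2 (Nc c ω0) (a.2 + (vb ω0).2) = 0 := by
          by_contra h5
          rw [add_comm] at h5
          exact ha (Finset.mem_filter.mpr ⟨h3, h5⟩)
        rw [h4]
        simp
      · rw [ind_not h3, mul_zero]
  refine h2.trans ?_
  rw [Finset.sum_const, nsmul_eq_mul]
  have h3 : (0 : ℝ) ≤ ((fib P c.2 (Nc c ω0).2).card : ℝ) := Nat.cast_nonneg _
  calc (T.card : ℝ) * ((fib P c.2 (Nc c ω0).2).card : ℝ)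
      ≤ (4 * x * ((Fintype.card P : ℝ) * 2 ^ c.1)) * ((fib P c.2 (Nc c ω0).2).card : ℝ) :=
        mul_le_mul_of_nonneg_right h1 h3
    _ = 4 * x * mass P c (Nc c ω0) := by unfold mass; ring

end law

/-! ## the micro sequence: noise, then the cells of the vertices `0, ..., n-1`, and so on -/

/-- configuration at the micro time `τ = 0, ..., (n+1) N` -/
def cf (N h n τ : ℕ) : Cfg n :=
  (N - (τ + n) / (n + 1), fun i => N - (τ + (n - 1 - i.val)) / (n + 1) - h)

/-- the step from `τ` to `τ + 1` -/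
def stp (n τ : ℕ) : Option (Fin n) :=
  if h : τ % (n + 1) = 0 then none
  else some ⟨τ % (n + 1) - 1, by have := Nat.mod_lt τ (by omega : 0 < n + 1); omega⟩

theorem cf_zero (N h : ℕ) : cf N h n 0 = (N, fun _ => N - h) := by
  unfold cf
  refine Prod.ext ?_ (funext fun i => ?_)
  · simp only [zero_add]
    rw [Nat.div_eq_of_lt (Nat.lt_succ_self n), Nat.sub_zero]
  · simp only [zero_add]
    rw [Nat.div_eq_of_lt (by omega), Nat.sub_zero]

/-- macro times -/
theorem cf_macro (N h t : ℕ) : cf N h n ((n + 1) * t) = (N - t, fun _ => N - t - h) := by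
  unfold cf
  refine Prod.ext ?_ (funext fun i => ?_)
  · simp only
    rw [Nat.mul_add_div (Nat.succ_pos n), Nat.div_eq_of_lt (Nat.lt_succ_self n), Nat.add_zero]
  · simp only
    rw [Nat.mul_add_div (Nat.succ_pos n), Nat.div_eq_of_lt (by omega), Nat.add_zero]

theorem cf_fst_le (N h τ : ℕ) : (cf N h n τ).1 ≤ N := Nat.sub_le _ _

theorem cf_snd_le (N h τ : ℕ) (i : Fin n) : (cf N h n τ).2 i ≤ N := (Nat.sub_le _ _).trans (Nat.sub_le _ _)

/-- the cells: the scale is `e0 - h` or `e0 + 1 - h` -/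
theorem cf_scale (N h τ : ℕ) (i : Fin n) :
    (cf N h n τ).1 - h ≤ (cf N h n τ).2 i ∧ (cf N h n τ).2 i ≤ (cf N h n τ).1 + 1 - h := by
  unfold cf
  simp only
  have h1 : (τ + (n - 1 - i.val)) / (n + 1) ≤ (τ + n) / (n + 1) := Nat.div_le_div_right (by omega)
  have h2 : (τ + n) / (n + 1) ≤ (τ + (n - 1 - i.val)) / (n + 1) + 1 := by
    rw [← Nat.add_div_right _ (Nat.succ_pos n)]
    exact Nat.div_le_div_right (by omega)
  omega

/-- arithmetic of the quotients -/
theorem div_step (n τ j : ℕ) (hj : j ≤ n) :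
    (τ + 1 + (n - j)) / (n + 1) = (τ + (n - j)) / (n + 1) + (if τ % (n + 1) = j then 1 else 0) := by
  have hpos : 0 < n + 1 := Nat.succ_pos n
  have h1 := Nat.div_add_mod τ (n + 1)
  have h2 := Nat.mod_lt τ hpos
  set q := τ / (n + 1) with hq
  set r := τ % (n + 1) with hr
  have hτ : τ = (n + 1) * q + r := h1.symm
  have e1 : (τ + 1 + (n - j)) / (n + 1) = q + (r + 1 + (n - j)) / (n + 1) := by
    rw [hτ, show (n + 1) * q + r + 1 + (n - j) = (n + 1) * q + (r + 1 + (n - j)) by ring, Nat.mul_add_div hpos]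
  have e2 : (τ + (n - j)) / (n + 1) = q + (r + (n - j)) / (n + 1) := by
    rw [hτ, show (n + 1) * q + r + (n - j) = (n + 1) * q + (r + (n - j)) by ring, Nat.mul_add_div hpos]
  rw [e1, e2]
  rcases lt_trichotomy r j with h | h | h
  · rw [if_neg (by omega), Nat.div_eq_of_lt (by omega), Nat.div_eq_of_lt (by omega)]
  · rw [if_pos h, Nat.div_eq_of_lt (by omega : r + (n - j) < n + 1)]
    have : r + 1 + (n - j) = n + 1 := by omega
    rw [this, Nat.div_self hpos]
  · rw [if_neg (by omega)]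
    have h3 : (r + 1 + (n - j)) / (n + 1) = 1 :=
      Nat.div_eq_of_lt_le (by omega) (by omega)
    have h4 : (r + (n - j)) / (n + 1) = 1 :=
      Nat.div_eq_of_lt_le (by omega) (by omega)
    rw [h3, h4]

/-- the first exponent along the steps -/
theorem cf_fst_succ (N h τ : ℕ) : (cf N h n (τ + 1)).1 = (cf N h n τ).1 - (if τ % (n + 1) = 0 then 1 else 0) := by
  unfold cf
  simp only
  have h1 := div_step n τ 0 (Nat.zero_le _)
  rw [Nat.sub_zero] at h1
  rw [h1]
  omega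

/-- the scales along the steps -/
theorem cf_snd_succ (N h τ : ℕ) (i : Fin n) :
    (cf N h n (τ + 1)).2 i = (cf N h n τ).2 i - (if τ % (n + 1) = i.val + 1 then 1 else 0) := by
  unfold cf
  simp only
  have h1 := div_step n τ (i.val + 1) i.isLt
  have h2 : n - (i.val + 1) = n - 1 - i.val := by omega
  rw [h2] at h1
  rw [h1]
  omega

theorem cf_fst_pos {N h τ : ℕ} (hτ : τ < (n + 1) * N) (h0 : τ % (n + 1) = 0) : 1 ≤ (cf N h n τ).1 := by
  unfold cf
  simp only
  have h1 := Nat.div_add_mod τ (n + 1)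
  rw [h0, Nat.add_zero] at h1
  have h2 : (τ + n) / (n + 1) = τ / (n + 1) := by
    conv_lhs => rw [← h1]
    rw [Nat.mul_add_div (Nat.succ_pos n), Nat.div_eq_of_lt (Nat.lt_succ_self n), Nat.add_zero]
  have h3 : τ / (n + 1) < N := by
    rw [Nat.div_lt_iff_lt_mul (Nat.succ_pos n), mul_comm]
    exact hτ
  omega

/-- EVERY MICRO STEP is a step or trivial -/
theorem cf_step {N h τ : ℕ} (hN : N ≤ k) (hτ : τ < (n + 1) * N) :
    (cf N h n τ = up (stp n τ) (cf N h n (τ + 1)) ∧ Ok k N (stp n τ) (cf N h n (τ + 1))) ∨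
      cf N h n (τ + 1) = cf N h n τ := by
  by_cases h0 : τ % (n + 1) = 0
  · left
    have h1 := cf_fst_pos (h := h) hτ h0
    have h2 := cf_fst_succ (n := n) N h τ
    rw [if_pos h0] at h2
    have h3 : (cf N h n τ).1 = (cf N h n (τ + 1)).1 + 1 := by omega
    unfold stp
    rw [dif_pos h0]
    refine ⟨?_, ?_⟩
    · unfold up
      refine Prod.ext h3 (funext fun i => ?_)
      simp only
      rw [cf_snd_succ, if_neg (by omega), Nat.sub_zero]
    · unfold Ok
      simp only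
      rw [← h3]
      exact cf_fst_le N h τ
  · set i : Fin n := ⟨τ % (n + 1) - 1, by have := Nat.mod_lt τ (by omega : 0 < n + 1); omega⟩ with hi
    have hst : stp n τ = some i := by unfold stp; rw [dif_neg h0]
    have hiv : τ % (n + 1) = i.val + 1 := by rw [hi]; simp only; omega
    have h1 : (cf N h n (τ + 1)).1 = (cf N h n τ).1 := by rw [cf_fst_succ, if_neg h0, Nat.sub_zero]
    have h2 : ∀ l, l ≠ i → (cf N h n (τ + 1)).2 l = (cf N h n τ).2 l := by
      intro l hl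
      rw [cf_snd_succ, if_neg, Nat.sub_zero]
      intro h3
      exact hl (Fin.ext (by omega))
    have h4 := cf_snd_succ (n := n) N h τ i
    rw [if_pos hiv] at h4
    rcases Nat.eq_zero_or_pos ((cf N h n τ).2 i) with h5 | h5
    · right
      refine Prod.ext h1 (funext fun l => ?_)
      by_cases hl : l = i
      · rw [hl, h4, h5]
      · exact h2 l hl
    · left
      rw [hst]
      have h6 : (cf N h n (τ + 1)).2 i + 1 = (cf N h n τ).2 i := by omega
      refine ⟨?_, ?_⟩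
      · unfold up
        refine Prod.ext h1.symm (funext fun l => ?_)
        simp only
        by_cases hl : l = i
        · rw [hl, Function.update_self, h6]
        · rw [Function.update_of_ne hl, h2 l hl]
      · unfold Ok
        simp only
        rw [h6]
        exact (cf_snd_le N h τ i).trans hN

/-- the nodes form a filtration -/
theorem filt_cf (N h : ℕ) : Filt (fun τ (ω : S2 k N n P) => Nc (cf N h n τ) ω) := by
  intro τ
  refine fac_Nn ?_ fun i => ?_
  · rw [cf_fst_succ]; exact Nat.sub_le _ _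
  · rw [cf_snd_succ]; exact Nat.sub_le _ _

/-- the total length of the cells is at most the window, if `4 n ≤ 2^h` -/
theorem Rs_cf {N h : ℕ} (hh : 2 * n ≤ 2 ^ h) (τ : ℕ) : Rs (cf N h n τ).2 ≤ 2 ^ (cf N h n τ).1 := by
  unfold Rs
  have h1 : ∀ i : Fin n, n * (2 ^ (cf N h n τ).2 i - 1) ≤ 2 ^ (cf N h n τ).1 := by
    intro i
    have h2 := (cf_scale (n := n) N h τ i).2
    rcases Nat.lt_or_ge (cf N h n τ).1 h with h3 | h3
    · have h4 : (cf N h n τ).2 i = 0 := by omega
      rw [h4]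
      simp
    · obtain ⟨d, hd⟩ := Nat.exists_eq_add_of_le h3
      have h5 : (cf N h n τ).2 i ≤ d + 1 := by omega
      have h6 : 2 ^ (cf N h n τ).2 i ≤ 2 ^ (d + 1) := Nat.pow_le_pow_right (by norm_num) h5
      rw [pow_succ] at h6
      calc n * (2 ^ (cf N h n τ).2 i - 1) ≤ n * (2 ^ d * 2) := Nat.mul_le_mul_left _ (by omega)
        _ = 2 * n * 2 ^ d := by ring
        _ ≤ 2 ^ h * 2 ^ d := Nat.mul_le_mul_right _ hh
        _ = 2 ^ (cf N h n τ).1 := by rw [← pow_add, hd]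
  rcases Nat.eq_zero_or_pos n with hn | hn
  · subst hn
    simp
  · have h7 : n * ∑ i : Fin n, (2 ^ (cf N h n τ).2 i - 1) ≤ n * 2 ^ (cf N h n τ).1 := by
      rw [Finset.mul_sum]
      refine (Finset.sum_le_sum fun i _ => h1 i).trans (le_of_eq ?_)
      rw [Finset.sum_const, Finset.card_univ, Fintype.card_fin, smul_eq_mul]
    exact Nat.le_of_mul_le_mul_left h7 hn

end

end Pool.Agent.GMC
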