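import Pool.Agent.GMC.RegB
import Pool.Agent.GMC.Mod2
import Pool.Agent.GMC.ClsDyn

/-!
# GMC/RegM: exceptional sets in the model (C2.3 (a), (b), (c); helper30)

* `Sat.card_coarse` : saturation for unions of classes (coarser classes, the whole line);
* `nb_card_le` : members in the neighbourhood against `wa`;
* kernels `b ↦ cnt (v + b.2)` : `supp_arc`, `full_arc`, `arc_in`;
* `core_reg` (C2.3 (c)), `core_nr` (LEMMA R summed over the other vertex), as sums with the weights `cnt`;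
* `ce_regB`, `ce_regA`, `pr_nrB`, `pr_nrA` : the same on the sample space `S2`.
-/

set_option autoImplicit false
set_option linter.unusedSectionVars false

namespace Pool.Agent.GMC

open Finset Pool.Agent.PWZ Pool.Agent.M3 Pool.Agent.M3.Bin Pool.Agent.M3.Mod

noncomputable section

/-! ## coarse saturation -/

section cls

variable {V : Type*} [Fintype V] [DecidableEq V] {E : Type*} [NormedAddCommGroup E] [InnerProductSpace ℝ E]

open Classical in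
omit [Fintype V] in
/-- saturation for a union `Q` of classes of depth `j` -/
theorem Sat.card_coarse {D : Dat V E} {S : St V} (hS : Good S) (h : Sat D S) {j : ℕ} (hj : j ≤ D.L) (hx : 0 ≤ D.x j)
    (Q : Finset V) (hQ : ∀ b ∈ Q, S j b ⊆ Q) (i : V) {y : E} (hy : ‖y‖ ≤ 1) :
    (((Q ∩ D.al i).filter fun b => D.eps j ≤ |inner ℝ (D.vec b - mn D.vec (S j b)) y|).card : ℝ) ≤
      2 * D.x j * ((Q ∩ D.nb i).card : ℝ) := by
  set T := (Q ∩ D.al i).filter fun b => D.eps j ≤ |inner ℝ (D.vec b - mn D.vec (S j b)) y| with hT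
  have h1 : ∀ κ ∈ T.image (S j), ((T.filter fun b => S j b = κ).card : ℝ) ≤ 2 * D.x j * ((κ ∩ D.nb i).card : ℝ) := by
    intro κ hκ
    obtain ⟨b1, hb1, rfl⟩ := mem_image.mp hκ
    refine le_trans ?_ (h.card_le hj b1 i hy)
    refine Nat.cast_le.mpr (card_le_card fun b hb => ?_)
    obtain ⟨hb2, hb3⟩ := mem_filter.mp hb
    obtain ⟨hb4, hb5⟩ := mem_filter.mp hb2
    refine mem_filter.mpr ⟨mem_inter.mpr ⟨?_, (mem_inter.mp hb4).2⟩, ?_⟩
    · rw [← hb3]; exact hS.self j b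
    · rw [← hb3]; exact hb5
  have h2 : ∑ κ ∈ T.image (S j), ((κ ∩ D.nb i).card : ℝ) ≤ ((Q ∩ D.nb i).card : ℝ) := by
    have h3 : ((T.image (S j)).biUnion fun κ => κ ∩ D.nb i).card = ∑ κ ∈ T.image (S j), (κ ∩ D.nb i).card := by
      refine card_biUnion fun κ hκ κ' hκ' hne => ?_
      obtain ⟨b1, _, rfl⟩ := mem_image.mp hκ
      obtain ⟨b2, _, rfl⟩ := mem_image.mp hκ'
      show Disjoint (S j b1 ∩ D.nb i) (S j b2 ∩ D.nb i)
      rw [Finset.disjoint_left]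
      intro b hb hb'
      exact hne ((hS.cls j b1 b (mem_inter.mp hb).1).symm.trans (hS.cls j b2 b (mem_inter.mp hb').1))
    rw [← Nat.cast_sum, ← h3]
    refine Nat.cast_le.mpr (card_le_card fun b hb => ?_)
    obtain ⟨κ, hκ, hb1⟩ := mem_biUnion.mp hb
    obtain ⟨b1, hb2, rfl⟩ := mem_image.mp hκ
    obtain ⟨hb3, hb4⟩ := mem_inter.mp hb1
    exact mem_inter.mpr ⟨hQ b1 (mem_inter.mp (mem_filter.mp hb2).1).1 hb3, hb4⟩
  calc (T.card : ℝ) = ∑ κ ∈ T.image (S j), ((T.filter fun b => S j b = κ).card : ℝ) := by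
        rw [card_eq_sum_card_image (S j) T]
        push_cast
        rfl
    _ ≤ ∑ κ ∈ T.image (S j), 2 * D.x j * ((κ ∩ D.nb i).card : ℝ) := sum_le_sum h1
    _ = 2 * D.x j * ∑ κ ∈ T.image (S j), ((κ ∩ D.nb i).card : ℝ) := by rw [mul_sum]
    _ ≤ _ := mul_le_mul_of_nonneg_left h2 (by positivity)

end cls

/-! ## neighbourhoods -/

section nbr

variable {k : ℕ} {B ι : Type*} [Fintype B]

open Classical in
/-- members of the class of `b0` in the neighbourhood of the small cell of `i` -/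
theorem nb_card_le (cls : B → ι) (X : B → V k) (b0 : B) (x : V k) (l : ℕ) :
    ((univ.filter fun b => cls b = cls b0 ∧ (X b - x).val < l).card : ℝ) ≤ wa (mc cls X b0) x l := by
  rw [wa_mc, card_filter]
  push_cast
  refine sum_le_sum fun b _ => ?_
  by_cases h : cls b = cls b0 ∧ (X b - x).val < l
  · rw [if_pos h]
    have h1 : X b = x + (((X b - x).val : ℕ) : V k) := by rw [ZMod.natCast_zmod_val]; ring
    calc (1 : ℝ) = ind (cls b = cls b0) * ind (X b = x + (((X b - x).val : ℕ) : V k)) := by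
          rw [ind_of h.1, ind_of h1, mul_one]
      _ ≤ ∑ i ∈ range l, ind (cls b = cls b0) * ind (X b = x + (i : V k)) :=
          single_le_sum (f := fun i : ℕ => ind (cls b = cls b0) * ind (X b = x + (i : V k)))
            (fun _ _ => mul_nonneg (ind_nonneg _) (ind_nonneg _)) (mem_range.mpr h.2)
  · rw [if_neg h]
    exact sum_nonneg fun _ _ => mul_nonneg (ind_nonneg _) (ind_nonneg _)

end nbr

/-! ## the kernels `b ↦ cnt (v + b.2)` -/

variable {k N n : ℕ} {P : Type} [Fintype P]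

/-- upper end of the support -/
def zz (ν : Nd k n) (v : V k) : V k := ν.1.1 - ∑ i, ν.2 i - v

/-- support of the kernel: `b = zz - j`, `j < 2^e0 + Rs s` -/
theorem supp_j {e0 : ℕ} {s : Fin n → ℕ} {ν : Nd k n} (hc : ∀ i, flr (s i) (ν.2 i) = ν.2 i) {v b : V k}
    (h : cnt P e0 s ν (v + b) ≠ 0) : ∃ j : ℕ, j < 2 ^ e0 + Rs s ∧ b = zz ν v - (j : V k) := by
  refine ⟨(ν.1.1 - (v + b) - ∑ i, ν.2 i).val, cnt_pos_arc hc h, ?_⟩
  rw [ZMod.natCast_zmod_val]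
  unfold zz
  ring

theorem supp_arc {e0 : ℕ} {s : Fin n → ℕ} {ν : Nd k n} (hc : ∀ i, flr (s i) (ν.2 i) = ν.2 i) {v b : V k}
    (h : cnt P e0 s ν (v + b) ≠ 0) : ∃ i : ℕ, i < 2 ^ e0 + Rs s ∧
      b = zz ν v - ((2 ^ e0 + Rs s - 1 : ℕ) : V k) + (i : V k) := by
  obtain ⟨j, hj, hb⟩ := supp_j hc h
  refine ⟨2 ^ e0 + Rs s - 1 - j, by omega, ?_⟩
  rw [Nat.cast_sub (by omega : j ≤ 2 ^ e0 + Rs s - 1), hb]
  ring

/-- the kernel is full on an arc of length `l` with `Rs s + l ≤ 2^e0` -/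
theorem full_arc {e0 l : ℕ} (he : e0 ≤ k) {s : Fin n → ℕ} (hl : Rs s + l ≤ 2 ^ e0) {ν : Nd k n}
    (hc : ∀ i, flr (s i) (ν.2 i) = ν.2 i) {v b : V k} {i : ℕ} (hi : i < l)
    (hb : b = zz ν v - ((2 ^ e0 - 1 : ℕ) : V k) + (i : V k)) : cnt P e0 s ν (v + b) = (fib P s ν.2).card := by
  have h1 : ν.1.1 - (v + b) - ∑ i, ν.2 i = ((2 ^ e0 - 1 - i : ℕ) : V k) := by
    rw [Nat.cast_sub (by omega : i ≤ 2 ^ e0 - 1), hb]
    unfold zz
    ring
  have h2 : 2 ^ e0 ≤ 2 ^ k := Nat.pow_le_pow_right (by norm_num) he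
  have h3 : (ν.1.1 - (v + b) - ∑ i, ν.2 i).val = 2 ^ e0 - 1 - i := by
    rw [h1, ZMod.val_natCast_of_lt (by omega)]
  refine cnt_full hc ?_ ?_ <;> rw [h3] <;> omega

/-- the full arc lies in the neighbourhood of the small cell of every point of the support -/
theorem arc_in {e0 l σ R : ℕ} {s : Fin n → ℕ} (hl : Rs s + l ≤ 2 ^ e0) (hl0 : 0 < l) (hR : 2 ^ e0 ≤ R) {ν : Nd k n}
    (hc : ∀ i, flr (s i) (ν.2 i) = ν.2 i) {v b : V k} (h : cnt P e0 s ν (v + b) ≠ 0) :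
    ∃ o : ℕ, zz ν v - ((2 ^ e0 - 1 : ℕ) : V k) = nx σ R b + (o : V k) ∧ o + l ≤ 2 ^ σ + 2 * R := by
  obtain ⟨j, hj, hb⟩ := supp_j hc h
  obtain ⟨r, hr, hbr⟩ := flr_add_rem σ b
  refine ⟨j + r + R - (2 ^ e0 - 1), ?_, by omega⟩
  have h1 : flr σ b = b - (r : V k) := eq_sub_of_add_eq hbr.symm
  rw [Nat.cast_sub (by omega : 2 ^ e0 - 1 ≤ j + r + R)]
  unfold nx
  rw [h1, hb]
  push_cast
  ring

open Classical in
/-- C2.3 (c) with the weights `cnt` -/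
theorem core_reg {ι : Type*} {e0 E σ R M : ℕ} {s : Fin n → ℕ} (he : e0 ≤ k) (hE : E ≤ k) (hE7 : 7 ≤ E) (hσ : σ ≤ k)
    (hn : 2 ^ σ + 2 * R ≤ 2 ^ (E + 6)) (hl : Rs s + 2 ^ (E - 8) ≤ 2 ^ e0) (hR : 2 ^ e0 ≤ R)
    (hM : 2 ^ e0 + Rs s + 2 ^ σ ≤ 2 ^ σ * M) {ν : Nd k n} (hc : ∀ i, flr (s i) (ν.2 i) = ν.2 i) (v : V k)
    {cls : P × V k → ι} {exc : P × V k → Prop} {x : ℝ} (hx : 0 ≤ x)
    (hexc : ∀ b0 : P × V k, ((univ.filter fun b : P × V k => exc b ∧ cls b = cls b0 ∧ flr σ b.2 = flr σ b0.2).card : ℝ) ≤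
      x * wa (mc cls Prod.snd b0) (nx σ R b0.2) (2 ^ σ + 2 * R)) (c : ι) :
    ∑ b : P × V k, (cnt P e0 s ν (v + b.2) : ℝ) * (ind (cls b = c) * ind (exc b ∧ REG cls Prod.snd E σ R b)) ≤
      x * (2 ^ 10241 * M) * ∑ b : P × V k, (cnt P e0 s ν (v + b.2) : ℝ) * ind (cls b = c) := by
  rcases Nat.eq_zero_or_pos (fib P s ν.2).card with h0 | hpos
  · have h1 : ∀ t, cnt P e0 s ν t = 0 := fun t => by
      have := Finset.card_filter_le (fib P s ν.2) (fun o => (ν.1.1 - t - so o).val < 2 ^ e0)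
      unfold cnt
      omega
    simp [h1]
  set F : ℝ := ((fib P s ν.2).card : ℝ) with hF
  have hFpos : 0 < F := Nat.cast_pos.mpr hpos
  set ψ : P × V k → ℝ := fun b => (cnt P e0 s ν (v + b.2) : ℝ) / F with hψ
  have hcf : ∀ t, (cnt P e0 s ν t : ℝ) ≤ F := fun t => Nat.cast_le.mpr (Finset.card_filter_le _ _)
  have hne : ∀ b, ψ b ≠ 0 → cnt P e0 s ν (v + b.2) ≠ 0 := by
    intro b hb h1
    apply hb
    rw [hψ]
    simp only
    rw [h1]
    simp
  have h := regS (cls := cls) (X := Prod.snd) hE hE7 hσ hn hM hx hexc (ψ := ψ) (fun b => by positivity)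
    (fun b => by rw [hψ]; simp only; rw [div_le_one hFpos]; exact hcf _)
    (xS := zz ν v - ((2 ^ e0 + Rs s - 1 : ℕ) : V k)) (xI := zz ν v - ((2 ^ e0 - 1 : ℕ) : V k))
    (fun b hb => supp_arc hc (hne b hb))
    (fun b i hi hb => by
      have h1 := full_arc (P := P) he hl hc hi hb
      rw [hψ]
      simp only
      rw [h1, div_self hFpos.ne']
      norm_num)
    (fun b hb => arc_in hl (Nat.two_pow_pos _) hR hc (hne b hb)) c
  have h1 := mul_le_mul_of_nonneg_left h hFpos.le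
  calc ∑ b : P × V k, (cnt P e0 s ν (v + b.2) : ℝ) * (ind (cls b = c) * ind (exc b ∧ REG cls Prod.snd E σ R b))
      = F * ∑ b ∈ univ.filter (fun b => cls b = c ∧ exc b ∧ REG cls Prod.snd E σ R b), ψ b := by
        rw [Finset.sum_filter, Finset.mul_sum]
        refine Finset.sum_congr rfl fun b _ => ?_
        by_cases h2 : cls b = c ∧ exc b ∧ REG cls Prod.snd E σ R b
        · rw [if_pos h2, ind_of h2.1, ind_of h2.2, hψ]
          field_simp
        · rw [if_neg h2]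
          by_cases h3 : cls b = c
          · rw [ind_not (fun h4 => h2 ⟨h3, h4⟩)]; ring
          · rw [ind_not h3]; ring
    _ ≤ F * (x * (2 ^ 10241 * M) * ∑ b ∈ univ.filter (fun b => cls b = c), ψ b) := h1
    _ = x * (2 ^ 10241 * M) * (F * ∑ b ∈ univ.filter (fun b => cls b = c), ψ b) := by ring
    _ = _ := by
        congr 1
        rw [Finset.sum_filter, Finset.mul_sum]
        refine Finset.sum_congr rfl fun b _ => ?_
        by_cases h3 : cls b = c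
        · rw [if_pos h3, ind_of h3, hψ]
          field_simp
        · rw [if_neg h3, ind_not h3]; ring

variable [Nonempty P]

open Classical in
/-- LEMMA R with the weights `cnt`, summed over the other vertex -/
theorem core_nr {ι : Type*} {e0 E σ R M M2 : ℕ} {s : Fin n → ℕ} (he : e0 ≤ k) (hE : E ≤ k) (hE7 : 7 ≤ E) (hσ : σ ≤ k)
    (hn : 2 ^ σ + 2 * R + 2 * 2 ^ E ≤ 2 ^ (E + 6)) (hM : 2 ^ σ + 2 * R + 2 * 2 ^ E ≤ 2 ^ σ * M)
    (hM2 : 2 ^ e0 + Rs s + 2 ^ σ + R + 2 ^ E + (2 ^ σ + 2 * R + 2 * 2 ^ E) ≤ 2 ^ e0 * M2) {ν : Nd k n}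
    (hc : ∀ i, flr (s i) (ν.2 i) = ν.2 i) {cls : P × V k → ι} {exc : P × V k → P × V k → Prop} {x : ℝ} (hx : 0 ≤ x)
    (hexc : ∀ a b0 : P × V k,
      ((univ.filter fun b : P × V k => exc a b ∧ cls b = cls b0 ∧ flr σ b.2 = flr σ b0.2).card : ℝ) ≤
      x * wa (mc cls Prod.snd b0) (nx σ R b0.2) (2 ^ σ + 2 * R)) :
    ∑ a : P × V k, ∑ b : P × V k, (cnt P e0 s ν (a.2 + b.2) : ℝ) * ind (exc a b ∧ ¬ REG cls Prod.snd E σ R b) ≤
      x * (2 ^ 10241 * M) * M2 * ∑ a : P × V k, ∑ b : P × V k, (cnt P e0 s ν (a.2 + b.2) : ℝ) *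
        ind (1 / 2 ^ 20 < D2 (FP.unif (P × V k)) cls Prod.snd E b) := by
  set F : ℝ := ((fib P s ν.2).card : ℝ) with hF
  have hF0 : 0 ≤ F := Nat.cast_nonneg _
  have hcf : ∀ t, (cnt P e0 s ν t : ℝ) ≤ F := fun t => Nat.cast_le.mpr (Finset.card_filter_le _ _)
  set I : Finset (P × V k) := univ.filter fun b => 1 / 2 ^ 20 < D2 (FP.unif (P × V k)) cls Prod.snd E b with hI
  set n' : ℕ := 2 ^ σ + 2 * R + 2 * 2 ^ E with hn'
  set LW : ℕ := 2 ^ e0 + Rs s + 2 ^ σ + R + 2 ^ E + n' with hLW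
  set wb : V k → V k := fun b => ν.1.1 - ∑ i, ν.2 i - b + (n' : V k) with hwb
  -- one `a`
  have h1 : ∀ a : P × V k, ∑ b : P × V k, (cnt P e0 s ν (a.2 + b.2) : ℝ) *
      ind (exc a b ∧ ¬ REG cls Prod.snd E σ R b) ≤
      F * (x * (2 ^ 10241 * M) * ∑ b ∈ I, ∑ u ∈ range LW, ind (a.2 = wb b.2 - (u : V k))) := by
    intro a
    obtain ⟨ex, hex⟩ : ∃ ex : P × V k → Prop, ∀ b, ex b ↔ (exc a b ∧ cnt P e0 s ν (a.2 + b.2) ≠ 0) :=
      ⟨_, fun _ => Iff.rfl⟩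
    have h2 : ∑ b : P × V k, (cnt P e0 s ν (a.2 + b.2) : ℝ) * ind (exc a b ∧ ¬ REG cls Prod.snd E σ R b) ≤
        F * ((univ.filter fun b : P × V k => ex b ∧ ¬ REG cls Prod.snd E σ R b).card : ℝ) := by
      rw [Finset.card_filter]
      push_cast
      rw [Finset.mul_sum]
      refine Finset.sum_le_sum fun b _ => ?_
      by_cases h3 : cnt P e0 s ν (a.2 + b.2) = 0
      · rw [h3, Nat.cast_zero, zero_mul]
        split_ifs <;> simp [hF0]
      · by_cases h4 : exc a b ∧ ¬ REG cls Prod.snd E σ R b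
        · rw [ind_of h4, if_pos ⟨(hex b).mpr ⟨h4.1, h3⟩, h4.2⟩, mul_one, mul_one]
          exact hcf _
        · rw [ind_not h4, mul_zero]
          split_ifs <;> simp [hF0]
    refine h2.trans (mul_le_mul_of_nonneg_left ?_ hF0)
    have h3 := lemR_loc (cls := cls) (X := Prod.snd) (exc := ex)
      hE hE7 hσ hn hM hx (fun b0 => by
        refine le_trans (Nat.cast_le.mpr (Finset.card_le_card fun b hb => ?_)) (hexc a b0)
        have hb' := (Finset.mem_filter.mp hb).2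
        exact Finset.mem_filter.mpr ⟨Finset.mem_univ b, ((hex b).mp hb'.1).1, hb'.2⟩)
    refine h3.trans (mul_le_mul_of_nonneg_left ?_ (by positivity))
    have hsub : (univ.filter fun b : P × V k => 1 / 2 ^ 20 < D2 (FP.unif (P × V k)) cls Prod.snd E b ∧
        ∃ b1 : P × V k, (ex b1 ∧ ¬ REG cls Prod.snd E σ R b1) ∧
          ∃ i : ℕ, i < 2 ^ σ + 2 * R + 2 * 2 ^ E ∧
          b.2 + ((R : V k) + ((2 ^ E : ℕ) : V k)) = flr σ b1.2 + (i : V k)) ⊆ I := fun b hb =>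
      Finset.mem_filter.mpr ⟨Finset.mem_univ b, (Finset.mem_filter.mp hb).2.1⟩
    rw [Finset.card_eq_sum_ones, Nat.cast_sum]
    refine (Finset.sum_le_sum fun b hb => ?_).trans (Finset.sum_le_sum_of_subset_of_nonneg hsub
      fun b _ _ => Finset.sum_nonneg fun u _ => ind_nonneg (a.2 = wb b.2 - (u : V k)))
    obtain ⟨b1, ⟨hb1, _⟩, i, hi, hbi⟩ := (Finset.mem_filter.mp hb).2.2
    obtain ⟨j, hj, hbj⟩ := supp_j hc ((hex b1).mp hb1).2
    obtain ⟨r, hr, hbr⟩ := flr_add_rem σ b1.2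
    have h4 : flr σ b1.2 = b1.2 - (r : V k) := eq_sub_of_add_eq hbr.symm
    have h5 : a.2 = wb b.2 - ((j + r + R + 2 ^ E + (n' - i) : ℕ) : V k) := by
      have h6 : b.2 = b1.2 - (r : V k) + (i : V k) - ((R : V k) + ((2 ^ E : ℕ) : V k)) := by
        rw [← h4, ← hbi]; ring
      have h7 : ((n' - i : ℕ) : V k) = (n' : V k) - (i : V k) := Nat.cast_sub hi.le
      have h8 : ((j + r + R + 2 ^ E + (n' - i) : ℕ) : V k) =
          (j : V k) + (r : V k) + (R : V k) + ((2 ^ E : ℕ) : V k) + ((n' : V k) - (i : V k)) := by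
        rw [← h7, Nat.cast_add (j + r + R + 2 ^ E), Nat.cast_add (j + r + R), Nat.cast_add (j + r), Nat.cast_add j]
      have h9 : wb b.2 = ν.1.1 - ∑ i, ν.2 i - b.2 + (n' : V k) := rfl
      rw [h8, h9, h6, hbj]
      unfold zz
      ring
    have h6 : j + r + R + 2 ^ E + (n' - i) < LW := by
      have : 0 < i ∨ i = 0 := by omega
      omega
    rw [Nat.cast_one]
    calc (1 : ℝ) = ind (a.2 = wb b.2 - ((j + r + R + 2 ^ E + (n' - i) : ℕ) : V k)) := (ind_of h5).symm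
      _ ≤ ∑ u ∈ range LW, ind (a.2 = wb b.2 - (u : V k)) :=
          Finset.single_le_sum (f := fun u : ℕ => ind (a.2 = wb b.2 - (u : V k)))
            (fun _ _ => ind_nonneg _) (Finset.mem_range.mpr h6)
  -- sum over `a`
  have h2 : ∑ a : P × V k, ∑ b ∈ I, ∑ u ∈ range LW, ind (a.2 = wb b.2 - (u : V k)) =
      (Fintype.card P : ℝ) * LW * I.card := by
    rw [Finset.sum_comm]
    have h3 : ∀ b ∈ I, ∑ a : P × V k, ∑ u ∈ range LW, ind (a.2 = wb b.2 - (u : V k)) = (Fintype.card P : ℝ) * LW := by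
      intro b _
      rw [Finset.sum_comm]
      have h4 : ∀ u ∈ range LW, ∑ a : P × V k, ind (a.2 = wb b.2 - (u : V k)) = (Fintype.card P : ℝ) := by
        intro u _
        rw [Fintype.sum_prod_type]
        simp only
        have h5 : ∑ y : V k, ind (y = wb b.2 - (u : V k)) = 1 := by
          rw [Finset.sum_eq_single (wb b.2 - (u : V k))]
          · exact ind_of rfl
          · intro y _ hy; exact ind_not hy
          · intro h; exact absurd (Finset.mem_univ _) h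
        rw [h5, Finset.sum_const, Finset.card_univ, nsmul_eq_mul, mul_one]
      rw [Finset.sum_congr rfl h4, Finset.sum_const, Finset.card_range, nsmul_eq_mul, mul_comm]
    rw [Finset.sum_congr rfl h3, Finset.sum_const, nsmul_eq_mul, mul_comm]
  have h3 : ∑ a : P × V k, ∑ b : P × V k, (cnt P e0 s ν (a.2 + b.2) : ℝ) *
      ind (1 / 2 ^ 20 < D2 (FP.unif (P × V k)) cls Prod.snd E b) =
      (Fintype.card P : ℝ) * (2 ^ e0 * F) * I.card := by
    rw [Finset.sum_comm]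
    have h4 : ∀ b : P × V k, ∑ a : P × V k, (cnt P e0 s ν (a.2 + b.2) : ℝ) *
        ind (1 / 2 ^ 20 < D2 (FP.unif (P × V k)) cls Prod.snd E b) =
        if 1 / 2 ^ 20 < D2 (FP.unif (P × V k)) cls Prod.snd E b then (Fintype.card P : ℝ) * (2 ^ e0 * F) else 0 := by
      intro b
      rw [← Finset.sum_mul]
      have h5 := sum_cnt_real' (P := P) (c := (e0, s)) he ν b.2
      unfold mass at h5
      simp only at h5
      rw [h5]
      by_cases h6 : 1 / 2 ^ 20 < D2 (FP.unif (P × V k)) cls Prod.snd E b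
      · rw [if_pos h6, ind_of h6, mul_one]
      · rw [if_neg h6, ind_not h6, mul_zero]
    rw [Finset.sum_congr rfl fun b _ => h4 b, ← Finset.sum_filter, Finset.sum_const, nsmul_eq_mul, mul_comm]
  have hLWr : (LW : ℝ) ≤ 2 ^ e0 * M2 := by exact_mod_cast hM2
  calc ∑ a : P × V k, ∑ b : P × V k, (cnt P e0 s ν (a.2 + b.2) : ℝ) * ind (exc a b ∧ ¬ REG cls Prod.snd E σ R b)
      ≤ ∑ a : P × V k, F * (x * (2 ^ 10241 * M) * ∑ b ∈ I, ∑ u ∈ range LW, ind (a.2 = wb b.2 - (u : V k))) :=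
        Finset.sum_le_sum fun a _ => h1 a
    _ = F * (x * (2 ^ 10241 * M) * ((Fintype.card P : ℝ) * LW * I.card)) := by
        rw [← Finset.mul_sum, ← Finset.mul_sum, h2]
    _ ≤ F * (x * (2 ^ 10241 * M) * ((Fintype.card P : ℝ) * (2 ^ e0 * M2) * I.card)) := by
        refine mul_le_mul_of_nonneg_left (mul_le_mul_of_nonneg_left ?_ (by positivity)) hF0
        refine mul_le_mul_of_nonneg_right (mul_le_mul_of_nonneg_left hLWr (Nat.cast_nonneg _)) (Nat.cast_nonneg _)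
    _ = _ := by rw [h3]; ring

/-! ## on the sample space -/

/-- sums over pairs with the first vertex exact -/
theorem sum_pairB {A ι : Type*} [Fintype A] (g : A → A → ℝ) (κ : A → ι) (f : A → A → ℝ) (a0 : A) (c : ι) :
    ∑ a, ∑ b, g a b * (ind ((a, κ b) = (a0, c)) * f a b) = ∑ b, g a0 b * (ind (κ b = c) * f a0 b) := by
  rw [Finset.sum_eq_single a0]
  · refine Finset.sum_congr rfl fun b _ => ?_
    by_cases h : κ b = c
    · rw [ind_of h, ind_of (by rw [h])]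
    · rw [ind_not h, ind_not (fun h' => h (Prod.mk.injEq _ _ _ _ ▸ h' : _ ∧ _).2)]
  · intro a _ ha
    refine Finset.sum_eq_zero fun b _ => ?_
    rw [ind_not (fun h' => ha (Prod.mk.injEq _ _ _ _ ▸ h' : _ ∧ _).1)]
    ring
  · intro h
    exact absurd (Finset.mem_univ _) h

/-- sums over pairs with the second vertex exact -/
theorem sum_pairA {A ι : Type*} [Fintype A] (g : A → A → ℝ) (κ : A → ι) (f : A → A → ℝ) (b0 : A) (c : ι) :
    ∑ a, ∑ b, g a b * (ind ((κ a, b) = (c, b0)) * f a b) = ∑ a, g a b0 * (ind (κ a = c) * f a b0) := by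
  refine Finset.sum_congr rfl fun a _ => ?_
  rw [Finset.sum_eq_single b0]
  · by_cases h : κ a = c
    · rw [ind_of h, ind_of (by rw [h])]
    · rw [ind_not h, ind_not (fun h' => h (Prod.mk.injEq _ _ _ _ ▸ h' : _ ∧ _).1)]
  · intro b _ hb
    rw [ind_not (fun h' => hb (Prod.mk.injEq _ _ _ _ ▸ h' : _ ∧ _).2)]
    ring
  · intro h
    exact absurd (Finset.mem_univ _) h

/-- the geometric conditions at a configuration -/
structure Geo (k N E σ R M M2 : ℕ) (c : Cfg n) : Prop where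
  hc : c.1 ≤ N
  hN : N ≤ k
  hs : ∀ i, c.2 i ≤ k
  hE : E ≤ k
  hE7 : 7 ≤ E
  hσ : σ ≤ k
  hR : 2 ^ c.1 ≤ R
  hl : Rs c.2 + 2 ^ (E - 8) ≤ 2 ^ c.1
  hn : 2 ^ σ + 2 * R + 2 * 2 ^ E ≤ 2 ^ (E + 6)
  hM : 2 ^ σ + 2 * R + 2 * 2 ^ E ≤ 2 ^ σ * M
  hM2 : 2 ^ c.1 + Rs c.2 + 2 ^ σ + R + 2 ^ E + (2 ^ σ + 2 * R + 2 * 2 ^ E) ≤ 2 ^ c.1 * M2

theorem Geo.hM1 {E σ R M M2 : ℕ} {c : Cfg n} (g : Geo k N E σ R M M2 c) :
    2 ^ c.1 + Rs c.2 + 2 ^ σ ≤ 2 ^ σ * M := by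
  have h2 : Rs c.2 ≤ 2 ^ c.1 := le_trans (Nat.le_add_right _ _) g.hl
  have h3 := g.hR
  exact le_trans (by omega) g.hM

open Classical in
/-- C2.3 (c) on the sample space: `a` and the class of `b` known -/
theorem ce_regB {ι : Type*} {E σ R M M2 : ℕ} {c : Cfg n} (g : Geo k N E σ R M M2 c)
    {cls : Nd k n → P × V k → ι} {exc : Nd k n → P × V k → P × V k → Prop} {x : ℝ} (hx : 0 ≤ x) (ω0 : S2 k N n P)
    (hexc : ∀ b0 : P × V k, ((univ.filter fun b : P × V k => exc (Nc c ω0) (va ω0) b ∧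
      cls (Nc c ω0) b = cls (Nc c ω0) b0 ∧ flr σ b.2 = flr σ b0.2).card : ℝ) ≤
      x * wa (mc (cls (Nc c ω0)) Prod.snd b0) (nx σ R b0.2) (2 ^ σ + 2 * R)) :
    (Pu k N n P).ce (fun ω => (Nc c ω, va ω, cls (Nc c ω) (vb ω)))
      (fun ω => ind (exc (Nc c ω) (va ω) (vb ω) ∧ REG (cls (Nc c ω)) Prod.snd E σ R (vb ω))) ω0 ≤
      x * (2 ^ 10241 * M) := by
  have hν := val_Nn (P := P) g.hc c.2 ω0
  have h1 := ce_ab (P := P) g.hc g.hN c.2 (fun ν a b => (a, cls ν b))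
    (fun ν a b => ind (exc ν a b ∧ REG (cls ν) Prod.snd E σ R b)) ω0
  have h2 := core_reg (P := P) (g.hc.trans g.hN) g.hE g.hE7 g.hσ (by have := g.hn; omega) g.hl g.hR g.hM1 hν.2
    (va ω0).2 (cls := cls (Nc c ω0)) (exc := exc (Nc c ω0) (va ω0)) hx hexc (cls (Nc c ω0) (vb ω0))
  unfold Nc at h2 hexc ⊢
  rw [h1, sum_pairB (fun a b => (cnt P c.1 c.2 (Nn c.1 c.2 ω0) (a.2 + b.2) : ℝ)) (cls (Nn c.1 c.2 ω0))
    (fun a b => ind (exc (Nn c.1 c.2 ω0) a b ∧ REG (cls (Nn c.1 c.2 ω0)) Prod.snd E σ R b))]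
  have h3 := sum_pairB (fun a b => (cnt P c.1 c.2 (Nn c.1 c.2 ω0) (a.2 + b.2) : ℝ)) (cls (Nn c.1 c.2 ω0))
    (fun _ _ => 1) (va ω0) (cls (Nn c.1 c.2 ω0) (vb ω0))
  simp only [mul_one] at h3
  rw [h3]
  exact div_le_of_le_mul₀ (Finset.sum_nonneg fun b _ => mul_nonneg (Nat.cast_nonneg _) (ind_nonneg _))
    (by positivity) h2

open Classical in
/-- C2.3 (c) on the sample space: `b` and the class of `a` known -/
theorem ce_regA {ι : Type*} {E σ R M M2 : ℕ} {c : Cfg n} (g : Geo k N E σ R M M2 c)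
    {cls : Nd k n → P × V k → ι} {exc : Nd k n → P × V k → P × V k → Prop} {x : ℝ} (hx : 0 ≤ x) (ω0 : S2 k N n P)
    (hexc : ∀ a0 : P × V k, ((univ.filter fun a : P × V k => exc (Nc c ω0) a (vb ω0) ∧
      cls (Nc c ω0) a = cls (Nc c ω0) a0 ∧ flr σ a.2 = flr σ a0.2).card : ℝ) ≤
      x * wa (mc (cls (Nc c ω0)) Prod.snd a0) (nx σ R a0.2) (2 ^ σ + 2 * R)) :
    (Pu k N n P).ce (fun ω => (Nc c ω, cls (Nc c ω) (va ω), vb ω))
      (fun ω => ind (exc (Nc c ω) (va ω) (vb ω) ∧ REG (cls (Nc c ω)) Prod.snd E σ R (va ω))) ω0 ≤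
      x * (2 ^ 10241 * M) := by
  have hν := val_Nn (P := P) g.hc c.2 ω0
  have h1 := ce_ab (P := P) g.hc g.hN c.2 (fun ν a b => (cls ν a, b))
    (fun ν a b => ind (exc ν a b ∧ REG (cls ν) Prod.snd E σ R a)) ω0
  have h2 := core_reg (P := P) (g.hc.trans g.hN) g.hE g.hE7 g.hσ (by have := g.hn; omega) g.hl g.hR g.hM1 hν.2
    (vb ω0).2 (cls := cls (Nc c ω0)) (exc := fun a => exc (Nc c ω0) a (vb ω0)) hx hexc (cls (Nc c ω0) (va ω0))
  unfold Nc at h2 hexc ⊢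
  rw [h1, sum_pairA (fun a b => (cnt P c.1 c.2 (Nn c.1 c.2 ω0) (a.2 + b.2) : ℝ)) (cls (Nn c.1 c.2 ω0))
    (fun a b => ind (exc (Nn c.1 c.2 ω0) a b ∧ REG (cls (Nn c.1 c.2 ω0)) Prod.snd E σ R a))]
  have h3 := sum_pairA (fun a b => (cnt P c.1 c.2 (Nn c.1 c.2 ω0) (a.2 + b.2) : ℝ)) (cls (Nn c.1 c.2 ω0))
    (fun _ _ => 1) (vb ω0) (cls (Nn c.1 c.2 ω0) (va ω0))
  simp only [mul_one] at h3
  rw [h3]
  simp only [add_comm (vb ω0).2] at h2
  exact div_le_of_le_mul₀ (Finset.sum_nonneg fun b _ => mul_nonneg (Nat.cast_nonneg _) (ind_nonneg _))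
    (by positivity) h2

/-- comparison of two probabilities through the sums over the pairs at every node -/
theorem Pr_le_of_pairs {c : Cfg n} (hc : c.1 ≤ N) (hN : N ≤ k) {s1 s2 : Nd k n → P × V k → P × V k → Prop} {K : ℝ}
    (h : ∀ ω0 : S2 k N n P, ∑ a : P × V k, ∑ b : P × V k, (cnt P c.1 c.2 (Nc c ω0) (a.2 + b.2) : ℝ) *
      ind (s1 (Nc c ω0) a b) ≤
      K * ∑ a : P × V k, ∑ b : P × V k, (cnt P c.1 c.2 (Nc c ω0) (a.2 + b.2) : ℝ) * ind (s2 (Nc c ω0) a b)) :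
    (Pu k N n P).Pr (fun ω => s1 (Nc c ω) (va ω) (vb ω)) ≤ K * (Pu k N n P).Pr (fun ω => s2 (Nc c ω) (va ω) (vb ω)) := by
  have key : ∀ s : Nd k n → P × V k → P × V k → Prop, ∀ ω0 : S2 k N n P,
      (Pu k N n P).ce (fun ω => (Nn c.1 c.2 ω, ())) (fun ω => ind (s (Nn c.1 c.2 ω) (va ω) (vb ω))) ω0 =
      (∑ a : P × V k, ∑ b : P × V k, (cnt P c.1 c.2 (Nn c.1 c.2 ω0) (a.2 + b.2) : ℝ) *
        ind (s (Nn c.1 c.2 ω0) a b)) / ∑ a : P × V k, ∑ b : P × V k,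
        (cnt P c.1 c.2 (Nn c.1 c.2 ω0) (a.2 + b.2) : ℝ) := by
    intro s ω0
    rw [ce_ab hc hN c.2 (fun _ _ _ => ()) (fun ν a b => ind (s ν a b)) ω0]
    congr 1
    · refine Finset.sum_congr rfl fun a _ => Finset.sum_congr rfl fun b _ => ?_
      rw [ind_of rfl, one_mul]
    · refine Finset.sum_congr rfl fun a _ => Finset.sum_congr rfl fun b _ => ?_
      rw [ind_of rfl, mul_one]
  unfold FP.Pr
  rw [← FP.E_ce _ (fun ω => (Nn c.1 c.2 ω, ())) (fun ω => ind (s1 (Nc c ω) (va ω) (vb ω))),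
    ← FP.E_ce _ (fun ω => (Nn c.1 c.2 ω, ())) (fun ω => ind (s2 (Nc c ω) (va ω) (vb ω))), ← FP.E_smul]
  refine FP.E_mono _ fun ω0 _ => ?_
  unfold Nc at h ⊢
  rw [key s1 ω0, key s2 ω0, ← mul_div_assoc]
  exact div_le_div_of_nonneg_right (h ω0) (Finset.sum_nonneg fun a _ => Finset.sum_nonneg fun b _ => Nat.cast_nonneg _)

open Classical in
/-- LEMMA R on the sample space, side `b` -/
theorem pr_nrB {ι : Type*} {E σ R M M2 : ℕ} {c : Cfg n} (g : Geo k N E σ R M M2 c)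
    {cls : Nd k n → P × V k → ι} {exc : Nd k n → P × V k → P × V k → Prop} {x : ℝ} (hx : 0 ≤ x)
    (hexc : ∀ (ω0 : S2 k N n P) (a b0 : P × V k), ((univ.filter fun b : P × V k => exc (Nc c ω0) a b ∧
      cls (Nc c ω0) b = cls (Nc c ω0) b0 ∧ flr σ b.2 = flr σ b0.2).card : ℝ) ≤
      x * wa (mc (cls (Nc c ω0)) Prod.snd b0) (nx σ R b0.2) (2 ^ σ + 2 * R)) :
    (Pu k N n P).Pr (fun ω => exc (Nc c ω) (va ω) (vb ω) ∧ ¬ REG (cls (Nc c ω)) Prod.snd E σ R (vb ω)) ≤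
      x * (2 ^ 10241 * M) * M2 *
        (Pu k N n P).Pr (fun ω => 1 / 2 ^ 20 < D2 (FP.unif (P × V k)) (cls (Nc c ω)) Prod.snd E (vb ω)) := by
  refine Pr_le_of_pairs g.hc g.hN (s1 := fun ν a b => exc ν a b ∧ ¬ REG (cls ν) Prod.snd E σ R b)
    (s2 := fun ν _ b => 1 / 2 ^ 20 < D2 (FP.unif (P × V k)) (cls ν) Prod.snd E b) fun ω0 => ?_
  have hν := val_Nn (P := P) g.hc c.2 ω0
  exact core_nr (P := P) (g.hc.trans g.hN) g.hE g.hE7 g.hσ g.hn g.hM g.hM2 hν.2 hx (hexc ω0)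

open Classical in
/-- LEMMA R on the sample space, side `a` -/
theorem pr_nrA {ι : Type*} {E σ R M M2 : ℕ} {c : Cfg n} (g : Geo k N E σ R M M2 c)
    {cls : Nd k n → P × V k → ι} {exc : Nd k n → P × V k → P × V k → Prop} {x : ℝ} (hx : 0 ≤ x)
    (hexc : ∀ (ω0 : S2 k N n P) (b a0 : P × V k), ((univ.filter fun a : P × V k => exc (Nc c ω0) a b ∧
      cls (Nc c ω0) a = cls (Nc c ω0) a0 ∧ flr σ a.2 = flr σ a0.2).card : ℝ) ≤
      x * wa (mc (cls (Nc c ω0)) Prod.snd a0) (nx σ R a0.2) (2 ^ σ + 2 * R)) :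
    (Pu k N n P).Pr (fun ω => exc (Nc c ω) (va ω) (vb ω) ∧ ¬ REG (cls (Nc c ω)) Prod.snd E σ R (va ω)) ≤
      x * (2 ^ 10241 * M) * M2 *
        (Pu k N n P).Pr (fun ω => 1 / 2 ^ 20 < D2 (FP.unif (P × V k)) (cls (Nc c ω)) Prod.snd E (va ω)) := by
  refine Pr_le_of_pairs g.hc g.hN (s1 := fun ν a b => exc ν a b ∧ ¬ REG (cls ν) Prod.snd E σ R a)
    (s2 := fun ν a _ => 1 / 2 ^ 20 < D2 (FP.unif (P × V k)) (cls ν) Prod.snd E a) fun ω0 => ?_
  have hν := val_Nn (P := P) g.hc c.2 ω0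
  have h1 := core_nr (P := P) (g.hc.trans g.hN) g.hE g.hE7 g.hσ g.hn g.hM g.hM2 hν.2 (cls := cls (Nc c ω0))
    (exc := fun b a => exc (Nc c ω0) a b) hx (hexc ω0)
  rw [Finset.sum_comm, Finset.sum_comm (f := fun a b : P × V k => (cnt P c.1 c.2 (Nc c ω0) (a.2 + b.2) : ℝ) *
    ind (1 / 2 ^ 20 < D2 (FP.unif (P × V k)) (cls (Nc c ω0)) Prod.snd E a))]
  simp only [add_comm] at h1 ⊢
  exact h1

end

end Pool.Agent.GMC
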