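import Pool.Agent.GMC.Inst
import Pool.Agent.GMC.RegM

/-!
# GMC/IR: the exceptional sets of the instance (fields `exA_le`, `exA_reg`, `exA_nr` of `Sys.Hyp`; helper30)

* `geo_cf` : the geometric conditions at every micro time (`4 n ≤ 2^hh`);
* `Ins.exc` : exceptional points of one side for a direction; `Ins.exA_iff`;
* `Ins.card_exc`, `Ins.card_exc_cell` : saturation, in classes of depth `l ≤ j` and on the whole line;
* `sys_exA_le`, `sys_exA_reg`;
* `sys_exA_nr` : LEMMA R on the path, hypothesis = the budget `sbA` of `bA`.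
-/

set_option autoImplicit false
set_option linter.unusedSectionVars false

namespace Pool.Agent.GMC

open Finset Pool.Agent.PWZ Pool.Agent.M3 Pool.Agent.M3.Bin Pool.Agent.M3.Mod

noncomputable section

variable {k N n : ℕ} {P Ξ : Type}

/-- total length of the cells -/
theorem Rs_cf2 {N h : ℕ} (hh : 4 * n ≤ 2 ^ h) (τ : ℕ) : 2 * Rs (cf N h n τ).2 ≤ 2 ^ (cf N h n τ).1 := by
  unfold Rs
  have h1 : ∀ i : Fin n, n * (2 * (2 ^ (cf N h n τ).2 i - 1)) ≤ 2 ^ (cf N h n τ).1 := by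
    intro i
    have h2 := (cf_scale (n := n) N h τ i).2
    rcases Nat.lt_or_ge (cf N h n τ).1 h with h3 | h3
    · have h4 : (cf N h n τ).2 i = 0 := by omega
      rw [h4]
      simp
    · obtain ⟨d, hd⟩ := Nat.exists_eq_add_of_le h3
      have h5 : (cf N h n τ).2 i ≤ d + 1 := by omega
      have h6 : 2 ^ (cf N h n τ).2 i ≤ 2 ^ (d + 1) := Nat.pow_le_pow_right (by norm_num) h5
      rw [pow_succ] at h6
      calc n * (2 * (2 ^ (cf N h n τ).2 i - 1)) ≤ n * (2 * (2 ^ d * 2)) := Nat.mul_le_mul_left _ (by omega)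
        _ = 4 * n * 2 ^ d := by ring
        _ ≤ 2 ^ h * 2 ^ d := Nat.mul_le_mul_right _ hh
        _ = 2 ^ (cf N h n τ).1 := by rw [← pow_add, hd]
  rcases Nat.eq_zero_or_pos n with hn | hn
  · subst hn
    simp
  · have h7 : n * (2 * ∑ i : Fin n, (2 ^ (cf N h n τ).2 i - 1)) ≤ n * 2 ^ (cf N h n τ).1 := by
      rw [Finset.mul_sum, Finset.mul_sum]
      refine (Finset.sum_le_sum fun i _ => h1 i).trans (le_of_eq ?_)
      rw [Finset.sum_const, Finset.card_univ, Fintype.card_fin, smul_eq_mul]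
    exact Nat.le_of_mul_le_mul_left h7 hn

/-- numbers -/
theorem geo_num (e hh : ℕ) : 2 ^ (e - hh) ≤ 2 ^ e ∧ 2 ^ (e + 10) ≤ 2 ^ (e - hh) * 2 ^ (hh + 10) := by
  refine ⟨Nat.pow_le_pow_right (by norm_num) (Nat.sub_le _ _), ?_⟩
  rw [← pow_add]
  exact Nat.pow_le_pow_right (by norm_num) (by omega)

/-- THE GEOMETRIC CONDITIONS at every micro time -/
theorem geo_cf {hh : ℕ} (hN : N ≤ k) (hn : 4 * n ≤ 2 ^ hh) (τ : ℕ) (hE : (cf N hh n τ).1 + 7 ≤ k) :
    Geo k N ((cf N hh n τ).1 + 7) ((cf N hh n τ).1 - hh) (2 ^ ((cf N hh n τ).1 + 7)) (2 ^ (hh + 10)) (2 ^ 10)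
      (cf N hh n τ) := by
  have h0 := Rs_cf2 (n := n) (N := N) hn τ
  have h2 := fun i => cf_snd_le (n := n) N hh τ i
  have h3 := cf_fst_le (n := n) N hh τ
  generalize cf N hh n τ = c at h0 h2 h3 hE ⊢
  obtain ⟨e, s⟩ := c
  simp only at h0 h2 h3 hE ⊢
  obtain ⟨g1, g2⟩ := geo_num e hh
  have h4 : 2 ^ (e + 7) = 128 * 2 ^ e := by rw [pow_add]; norm_num; ring
  have h5 : 2 ^ (e + 10) = 1024 * 2 ^ e := by rw [pow_add]; norm_num; ring
  have h6 : 2 ^ (e + 7 + 6) = 64 * (128 * 2 ^ e) := by rw [pow_add, h4]; norm_num; ring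
  have h7 : 1 ≤ 2 ^ e := Nat.one_le_two_pow
  rw [h5] at g2
  refine ⟨h3, hN, fun i => (h2 i).trans hN, hE, by omega, by omega, Nat.pow_le_pow_right (by norm_num) (by omega), ?_,
    ?_, ?_, ?_⟩
  · simp only
    rcases Nat.eq_zero_or_pos e with h8 | h8
    · rw [h8] at h0 ⊢
      norm_num at h0 ⊢
      omega
    · have h9 : 2 ^ e = 2 * 2 ^ (e + 7 - 8) := by
        rw [← pow_succ']
        congr 1
        omega
      omega
  · rw [h6, h4]; omega
  · rw [h4]; omega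
  · simp only
    rw [h4]; norm_num; omega

/-- number of points of an arc -/
theorem card_arc_le [Fintype P] (x : V k) (l : ℕ) :
    (univ.filter fun b : P × V k => (b.2 - x).val < l).card ≤ Fintype.card P * l := by
  classical
  have h1 : (univ.filter fun b : P × V k => (b.2 - x).val < l) ⊆
      (univ : Finset P) ×ˢ ((range l).image fun i : ℕ => x + (i : V k)) := by
    intro b hb
    rw [mem_product]
    refine ⟨mem_univ _, mem_image.mpr ⟨(b.2 - x).val, mem_range.mpr (mem_filter.mp hb).2, ?_⟩⟩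
    rw [ZMod.natCast_zmod_val]
    ring
  refine (card_le_card h1).trans ?_
  rw [card_product]
  refine Nat.mul_le_mul_left _ ?_
  exact card_image_le.trans (card_range l).le

theorem ir_mn_single {A E : Type*} [NormedAddCommGroup E] [InnerProductSpace ℝ E] (v : A → E) (a : A) : mn v {a} = v a := by
  unfold mn
  simp

/-- membership, any instance -/
theorem ir_mem_filt {A : Type*} (s : Finset A) (q : A → Prop) (i : DecidablePred q) (a : A) :
    a ∈ @Finset.filter A q i s ↔ a ∈ s ∧ q a := mem_filter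

/-- equivalent factors give the same conditional mean -/
theorem ir_ce_equiv {Om κ κ' : Type*} [Fintype Om] (Q : FP Om) {X : Om → κ} {Y : Om → κ'} (h : Fac X Y) (h' : Fac Y X)
    (f : Om → ℝ) (w : Om) : Q.ce X f w = Q.ce Y f w := by
  have h1 : ∀ v, (X v = X w) = (Y v = Y w) := fun v => propext ⟨h v w, h' v w⟩
  unfold FP.ce FP.m
  simp only [h1]

namespace Ins

variable [Fintype P] [Nonempty P] [DecidableEq P] [Fintype Ξ] (I : Ins k N n P Ξ)

theorem ir_top (F : Face k n P Ξ) (t : ℕ) (ν : Nd k n) (a : P × V k) : I.clx F ⊤ t ν a = {a} := by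
  unfold clx
  rw [if_pos rfl]

theorem ir_coe (F : Face k n P Ξ) (i t : ℕ) (ν : Nd k n) (a : P × V k) :
    I.clx F (i : ℕ∞) t ν a = (I.Y F).st t ν i a := by
  unfold clx
  rw [if_neg (ENat.natCast_ne_top i)]
  rfl

/-- exceptional points of depth `j` for the direction `y` -/
def exc (F : Face k n P Ξ) (j t : ℕ) (ν : Nd k n) (y : EE k n P Ξ I.q) (u : P × V k) : Prop :=
  epk I.r j ≤ |inner ℝ (I.vc F t ν u - mn (I.vc F t ν) ((I.Y F).st t ν j u)) y|

/-- the direction of the other side -/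
def dir (F : Face k n P Ξ) (j : ℕ∞) (t : ℕ) (ν : Nd k n) (b : P × V k) : EE k n P Ξ I.q :=
  mn (I.vc F t ν) (I.clx F j t ν b)

theorem exA_iff (i : ℕ) (j : ℕ∞) (t : ℕ) (ω : S2 k N n P) : I.sys.exA I.r i j t ω ↔
    I.exc I.FA i t (I.nu t ω) (I.dir I.FB j t (I.nu t ω) (vb ω)) (va ω) := by
  show epk I.r i ≤ |inner ℝ (mn (I.vc I.FA t (I.nu t ω)) (I.clx I.FA (i : ℕ∞) t (I.nu t ω) (va ω)))
    (mn (I.vc I.FB t (I.nu t ω)) (I.clx I.FB j t (I.nu t ω) (vb ω))) -
    inner ℝ (mn (I.vc I.FA t (I.nu t ω)) (I.clx I.FA ⊤ t (I.nu t ω) (va ω)))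
    (mn (I.vc I.FB t (I.nu t ω)) (I.clx I.FB j t (I.nu t ω) (vb ω)))| ↔ _
  rw [ir_top, ir_mn_single, ir_coe, ← inner_sub_left, ← neg_sub (I.vc I.FA t (I.nu t ω) (va ω)),
    inner_neg_left, abs_neg]
  exact Iff.rfl

variable {I} {p eps0 : ℝ}

theorem ir_norm_vc (h : InsH I p eps0) {F : Face k n P Ξ} (hF : ∀ e g a x ξ z, |F e g a x ξ z| ≤ 1) (t : ℕ)
    (ν : Nd k n) (a : P × V k) : ‖I.vc F t ν a‖ ≤ 1 :=
  GM99.norm_vecc_le _ (wU_nonneg _ _) (wU_sum (fun i => (cf_snd_le N I.hh t i).trans h.hN) ν) _ h.wx0 h.wx1 _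
    (uW_nonneg _ _) (uW_sum ((cf_fst_le N I.hh t).trans h.hN) ν) _ _ fun _ _ _ => hF _ _ _ _ _ _

theorem norm_dir (h : InsH I p eps0) {F : Face k n P Ξ} (hF : ∀ e g a x ξ z, |F e g a x ξ z| ≤ 1) (j : ℕ∞) (t : ℕ)
    (ν : Nd k n) (b : P × V k) : ‖I.dir F j t ν b‖ ≤ 1 := mn_norm_le (ir_norm_vc h hF t ν) _

theorem sat_st (h : InsH I p eps0) (F : Face k n P Ξ) (t : ℕ) (ν : Nd k n) :
    Sat ((I.Y F).dat t ν) ((I.Y F).st t ν) :=
  (I.Y F).sat (fun j => xk_nonneg h.thpos.le j) (fun j => epk_pos h.rpos j) t ν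

open Classical in
/-- SATURATION in a class of depth `l ≤ j` -/
theorem card_exc (h : InsH I p eps0) (F : Face k n P Ξ) {j : ℕ} (hj : j ≤ I.L) (t : ℕ) (ν : Nd k n)
    {y : EE k n P Ξ I.q} (hy : ‖y‖ ≤ 1) {l : ℕ} (hl : l ≤ j) (b0 : P × V k) :
    ((univ.filter fun b : P × V k => I.exc F j t ν y b ∧ (I.Y F).st t ν l b = (I.Y F).st t ν l b0 ∧
      flr (I.sgm t) b.2 = flr (I.sgm t) b0.2).card : ℝ) ≤
      2 * xk I.th j * wa (mc ((I.Y F).st t ν l) Prod.snd b0) (nx (I.sgm t) (I.RR t) b0.2)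
        (2 ^ I.sgm t + 2 * I.RR t) := by
  have hg := (I.Y F).good_st t ν
  have h1 := Sat.card_coarse hg (sat_st h F t ν) (j := j) hj (xk_nonneg h.thpos.le j) ((I.Y F).st t ν l b0)
    (fun b hb => by
      rw [← hg.cls l b0 b hb]
      exact hg.nest_le hl b) b0 hy
  have h2 : (((I.Y F).st t ν l b0 ∩ ((I.Y F).dat t ν).nb b0).card : ℝ) ≤
      wa (mc ((I.Y F).st t ν l) Prod.snd b0) (nx (I.sgm t) (I.RR t) b0.2) (2 ^ I.sgm t + 2 * I.RR t) := by
    refine le_trans (Nat.cast_le.mpr (card_le_card fun b hb => ?_))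
      (nb_card_le ((I.Y F).st t ν l) Prod.snd b0 (nx (I.sgm t) (I.RR t) b0.2) (2 ^ I.sgm t + 2 * I.RR t))
    obtain ⟨hb1, hb2⟩ := mem_inter.mp hb
    exact (ir_mem_filt _ _ _ _).mpr ⟨mem_univ b, hg.cls l b0 b hb1, (mem_filter.mp hb2).2⟩
  refine le_trans ?_ (h1.trans (mul_le_mul_of_nonneg_left h2 (mul_nonneg (by norm_num) (xk_nonneg h.thpos.le j))))
  refine Nat.cast_le.mpr (card_le_card fun b hb => ?_)
  obtain ⟨_, hb1, hb2, hb3⟩ := mem_filter.mp hb
  refine mem_filter.mpr ⟨mem_inter.mpr ⟨?_, mem_filter.mpr ⟨mem_univ b, hb3⟩⟩, hb1⟩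
  rw [← hb2]
  exact hg.self l b

open Classical in
/-- SATURATION on the whole line -/
theorem card_exc_cell (h : InsH I p eps0) (F : Face k n P Ξ) {j : ℕ} (hj : j ≤ I.L) (t : ℕ) (ν : Nd k n)
    {y : EE k n P Ξ I.q} (hy : ‖y‖ ≤ 1) (z : V k) :
    (((univ.filter fun b : P × V k => I.exc F j t ν y b).filter fun b => flr (I.sgm t) b.2 = flr (I.sgm t) z).card : ℝ) ≤
      2 * xk I.th j * 2 ^ (I.hh + 10) * ((Fintype.card P : ℝ) * 2 ^ I.sgm t) := by
  have hx := xk_nonneg h.thpos.le (k := j)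
  have hg := (I.Y F).good_st t ν
  have h1 := Sat.card_coarse hg (sat_st h F t ν) (j := j) hj hx univ (fun b _ => subset_univ _)
    ((Classical.arbitrary P, z) : P × V k) hy
  have h2 : ((univ ∩ ((I.Y F).dat t ν).nb ((Classical.arbitrary P, z) : P × V k)).card : ℝ) ≤
      2 ^ (I.hh + 10) * ((Fintype.card P : ℝ) * 2 ^ I.sgm t) := by
    rw [univ_inter]
    have h3 := card_arc_le (P := P) (nx (I.sgm t) (I.RR t) z) (2 ^ I.sgm t + 2 * I.RR t)
    have h4 : 2 ^ I.sgm t + 2 * I.RR t ≤ 2 ^ (I.hh + 10) * 2 ^ I.sgm t := by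
      obtain ⟨g1, g2⟩ := geo_num (I.cc t).1 I.hh
      have g3 : 2 ^ ((I.cc t).1 + 7) = 128 * 2 ^ (I.cc t).1 := by rw [pow_add]; norm_num; ring
      have g4 : 2 ^ ((I.cc t).1 + 10) = 1024 * 2 ^ (I.cc t).1 := by rw [pow_add]; norm_num; ring
      show 2 ^ ((I.cc t).1 - I.hh) + 2 * 2 ^ ((I.cc t).1 + 7) ≤ 2 ^ (I.hh + 10) * 2 ^ ((I.cc t).1 - I.hh)
      rw [mul_comm (2 ^ (I.hh + 10))]
      rw [g4] at g2
      rw [g3]
      omega
    have h5 : (univ.filter fun b : P × V k => (b.2 - nx (I.sgm t) (I.RR t) z).val < 2 ^ I.sgm t + 2 * I.RR t).card ≤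
        2 ^ (I.hh + 10) * (Fintype.card P * 2 ^ I.sgm t) := by
      refine h3.trans ((Nat.mul_le_mul_left _ h4).trans (le_of_eq ?_))
      ring
    exact_mod_cast h5
  have h6 : 2 * xk I.th j * ((univ ∩ ((I.Y F).dat t ν).nb ((Classical.arbitrary P, z) : P × V k)).card : ℝ) ≤
      2 * xk I.th j * 2 ^ (I.hh + 10) * ((Fintype.card P : ℝ) * 2 ^ I.sgm t) := by
    refine (mul_le_mul_of_nonneg_left h2 (by positivity)).trans (le_of_eq ?_)
    ring
  refine le_trans ?_ (h1.trans h6)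
  refine Nat.cast_le.mpr (card_le_card fun b hb => ?_)
  obtain ⟨hb1, hb2⟩ := mem_filter.mp hb
  exact mem_filter.mpr ⟨mem_inter.mpr ⟨mem_univ b, mem_filter.mpr ⟨mem_univ b, hb2⟩⟩, (mem_filter.mp hb1).2⟩

theorem xt_nonneg (h : InsH I p eps0) (i : ℕ) : 0 ≤ I.xt i :=
  mul_nonneg (mul_nonneg (pow_nonneg (by norm_num) _) (pow_nonneg (by norm_num) _)) (xk_nonneg h.thpos.le i)

/-- numbers -/
theorem num_xt (h : InsH I p eps0) (i : ℕ) {E : ℕ} (hE : E ≤ 10280) :
    2 ^ E * 2 ^ (I.hh + 10) * xk I.th i ≤ I.xt i / 2 := by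
  have hx := xk_nonneg h.thpos.le (k := i)
  unfold xt SS CX
  have h3 : (2 : ℝ) ^ (I.hh + 10) = 2 ^ I.hh * 2 ^ 10 := pow_add _ _ _
  have h4 : (2 : ℝ) ^ (E + 10) ≤ 2 ^ 10299 := pow_le_pow_right₀ (by norm_num) (by omega)
  have h5 : (0 : ℝ) ≤ 2 ^ I.hh * xk I.th i := by positivity
  have h6 := mul_le_mul_of_nonneg_right h4 h5
  have h7 : (2 : ℝ) ^ 10300 = 2 ^ 10299 * 2 := pow_succ _ _
  rw [pow_add] at h6
  rw [h3, h7]
  refine le_trans (le_of_eq ?_) (h6.trans (le_of_eq ?_))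
  · ring
  · ring

open Classical in
/-- the exceptional sets are small given the other vertex -/
theorem exA_le (h : InsH I p eps0) {i : ℕ} (hi : i ≤ I.L) (j : ℕ∞) (t : ℕ) (w : S2 k N n P) :
    (Pu k N n P).ce (I.sys.GB t) (fun v => ind (I.sys.exA I.r i j t v)) w ≤ 2 ^ 3 * 2 ^ (I.hh + 10) * xk I.th i := by
  have hx := xk_nonneg h.thpos.le (k := i)
  rw [ir_ce_equiv (Y := fun v : S2 k N n P => (Nc (I.cc t) v, vb v)) (Pu k N n P) ?_ ?_]
  · have h1 := ce_a_le (P := P) (N := N) (c := I.cc t) (cf_fst_le N I.hh t) h.hN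
      (fun i => (cf_snd_le N I.hh t i).trans h.hN) (Rs_cf (by have := h.hn; omega) t) (j := I.sgm t)
      (by unfold sgm; omega) (by unfold sgm; have := cf_fst_le (n := n) N I.hh t; have := h.hN; unfold cc; omega)
      (fun ν b => univ.filter fun a => I.exc I.FA i t ν (I.dir I.FB j t ν b) a)
      (x := 2 * xk I.th i * 2 ^ (I.hh + 10)) (by positivity) w
      (fun z => by
        refine le_trans (Nat.cast_le.mpr (card_le_card fun b hb => ?_)) (card_exc_cell h I.FA hi t (Nc (I.cc t) w)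
          (norm_dir h h.b.le j t (Nc (I.cc t) w) (vb w)) z)
        rw [mem_filter] at hb ⊢
        exact hb)
    have h2 : (Pu k N n P).ce (fun v : S2 k N n P => (Nc (I.cc t) v, vb v))
        (fun v => ind (I.sys.exA I.r i j t v)) w ≤ 4 * (2 * xk I.th i * 2 ^ (I.hh + 10)) := by
      refine le_trans (le_of_eq (FP.ce_congr _ (fun v _ => ?_) w)) h1
      rw [exA_iff]
      congr 1
      rw [mem_filter]
      simp only [mem_univ, true_and]
      rfl
    refine h2.trans (le_of_eq ?_)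
    ring
  · intro v v' hv
    have h1 : (I.nu t v, I.clx I.FB ⊤ t (I.nu t v) (vb v)) = (I.nu t v', I.clx I.FB ⊤ t (I.nu t v') (vb v')) := hv
    rw [ir_top, ir_top, Prod.mk.injEq, singleton_inj] at h1
    exact Prod.ext h1.1 h1.2
  · intro v v' hv
    have h1 : (Nc (I.cc t) v, vb v) = (Nc (I.cc t) v', vb v') := hv
    rw [Prod.mk.injEq] at h1
    show (I.nu t v, I.clx I.FB ⊤ t (I.nu t v) (vb v)) = (I.nu t v', I.clx I.FB ⊤ t (I.nu t v') (vb v'))
    rw [ir_top, ir_top, h1.2]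
    exact Prod.ext h1.1 rfl

/-- `exA_le` -/
theorem sys_exA_le (h : InsH I p eps0) : ∀ i ≤ I.L, ∀ j, okd I.L j → ∀ t ≤ I.T, ∀ w, (Pu k N n P).p w ≠ 0 →
    (Pu k N n P).ce (I.sys.GB t) (fun v => ind (I.sys.exA I.r i j t v)) w ≤ I.xt i := by
  intro i hi j _ t _ w _
  have h1 := num_xt h i (E := 3) (by norm_num)
  have h2 := xt_nonneg h i
  exact (exA_le h hi j t w).trans (h1.trans (by linarith))

/-- the geometry at the time `t` -/
theorem geo (h : InsH I p eps0) (t : ℕ) (hE : I.Ex t ≤ k) :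
    Geo k N (I.Ex t) (I.sgm t) (I.RR t) (2 ^ (I.hh + 10)) (2 ^ 10) (I.cc t) := geo_cf h.hN h.hn t hE

open Classical in
/-- `exA_reg` -/
theorem sys_exA_reg (h : InsH I p eps0) : ∀ l i, l ≤ i → i ≤ I.L → ∀ j, okd I.L j → ∀ t ≤ I.T, ∀ w,
    (Pu k N n P).p w ≠ 0 →
    (Pu k N n P).ce (I.sys.Ix l ⊤ t) (fun v => ind (I.sys.exA I.r i j t v ∧ I.sys.regA l t v)) w ≤ I.xt i := by
  intro l i hl hi j _ t _ w hw
  have hx := xk_nonneg h.thpos.le (k := i)
  by_cases hE : I.Ex t ≤ k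
  · rw [ir_ce_equiv (Y := fun v : S2 k N n P => (Nc (I.cc t) v, (I.Y I.FA).st t (Nc (I.cc t) v) l (va v), vb v))
      (Pu k N n P) ?_ ?_]
    · have h1 := ce_regA (P := P) (geo h t hE) (cls := fun ν => (I.Y I.FA).st t ν l)
        (exc := fun ν a b => I.exc I.FA i t ν (I.dir I.FB j t ν b) a) (x := 2 * xk I.th i) (by positivity) w
        (fun a0 => by
          refine le_trans (Nat.cast_le.mpr (card_le_card fun b hb => ?_)) (card_exc h I.FA hi t (Nc (I.cc t) w)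
            (norm_dir h h.b.le j t (Nc (I.cc t) w) (vb w)) hl a0)
          exact (ir_mem_filt _ _ _ _).mpr ((ir_mem_filt _ _ _ _).mp hb))
      have h2 : (Pu k N n P).ce (fun v : S2 k N n P => (Nc (I.cc t) v, (I.Y I.FA).st t (Nc (I.cc t) v) l (va v), vb v))
          (fun v => ind (I.sys.exA I.r i j t v ∧ I.sys.regA l t v)) w ≤
          2 * xk I.th i * (2 ^ 10241 * ((2 ^ (I.hh + 10) : ℕ) : ℝ)) := by
        refine le_trans (le_of_eq (FP.ce_congr _ (fun v _ => ?_) w)) h1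
        rw [exA_iff]
        congr 1
        refine propext (and_congr Iff.rfl ?_)
        show (I.Ex t ≤ k ∧ _) ↔ _
        simp only [hE, true_and]
        exact Iff.rfl
      have h3 := num_xt h i (E := 10242) (by norm_num)
      have h4 := xt_nonneg h i
      have h5 : (2 : ℝ) ^ 10242 = 2 ^ 10241 * 2 := pow_succ _ _
      rw [h5] at h3
      refine h2.trans (le_trans (le_of_eq ?_) (h3.trans (by linarith)))
      push_cast
      ring
    · intro v v' hv
      have h1 : (I.nu t v, I.clx I.FA (l : ℕ∞) t (I.nu t v) (va v), I.clx I.FB ⊤ t (I.nu t v) (vb v)) =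
        (I.nu t v', I.clx I.FA (l : ℕ∞) t (I.nu t v') (va v'), I.clx I.FB ⊤ t (I.nu t v') (vb v')) := hv
      rw [ir_top, ir_top, ir_coe, ir_coe] at h1
      have h2 := congrArg Prod.fst h1
      have h3 := congrArg (fun x => x.2.1) h1
      have h4 := singleton_inj.mp (congrArg (fun x => x.2.2) h1)
      exact Prod.ext h2 (Prod.ext h3 h4)
    · intro v v' hv
      have h1 : (Nc (I.cc t) v, (I.Y I.FA).st t (Nc (I.cc t) v) l (va v), vb v) =
        (Nc (I.cc t) v', (I.Y I.FA).st t (Nc (I.cc t) v') l (va v'), vb v') := hv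
      have h2 : I.nu t v = I.nu t v' := congrArg Prod.fst h1
      have h3 : (I.Y I.FA).st t (I.nu t v) l (va v) = (I.Y I.FA).st t (I.nu t v') l (va v') :=
        congrArg (fun x => x.2.1) h1
      have h4 : vb v = vb v' := congrArg (fun x => x.2.2) h1
      show (I.nu t v, I.clx I.FA (l : ℕ∞) t (I.nu t v) (va v), I.clx I.FB ⊤ t (I.nu t v) (vb v)) =
        (I.nu t v', I.clx I.FA (l : ℕ∞) t (I.nu t v') (va v'), I.clx I.FB ⊤ t (I.nu t v') (vb v'))
      rw [ir_top, ir_top, ir_coe, ir_coe, h4]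
      exact Prod.ext h2 (Prod.ext h3 rfl)
  · refine FP.ce_le_const _ (fun v _ => ?_) hw
    rw [ind_not (fun h' => hE h'.2.1)]
    exact xt_nonneg h i

open Classical in
/-- one time: the bound with the probability of irregularity -/
theorem exA_nr1 (h : InsH I p eps0) {l i : ℕ} (hl : l ≤ i) (hi : i ≤ I.L) (j : ℕ∞) (t : ℕ) :
    (Pu k N n P).Pr (fun w => I.sys.exA I.r i j t w ∧ ¬ I.sys.regA l t w) ≤ I.xt i / 2 * min 1 ((Pu k N n P).E (I.sys.bA l t)) := by
  have hx := xk_nonneg h.thpos.le (k := i)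
  have hxt := xt_nonneg h i
  by_cases hE : I.Ex t ≤ k
  · have h1 := pr_nrA (P := P) (geo h t hE) (cls := fun ν => (I.Y I.FA).st t ν l)
      (exc := fun ν a b => I.exc I.FA i t ν (I.dir I.FB j t ν b) a) (x := 2 * xk I.th i) (by positivity)
      (fun w b a0 => by
        refine le_trans (Nat.cast_le.mpr (card_le_card fun b' hb => ?_)) (card_exc h I.FA hi t (Nc (I.cc t) w)
          (norm_dir h h.b.le j t (Nc (I.cc t) w) b) hl a0)
        exact (ir_mem_filt _ _ _ _).mpr ((ir_mem_filt _ _ _ _).mp hb))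
    have h2 : (Pu k N n P).Pr (fun w => I.sys.exA I.r i j t w ∧ ¬ I.sys.regA l t w) =
        (Pu k N n P).Pr (fun w => I.exc I.FA i t (Nc (I.cc t) w) (I.dir I.FB j t (Nc (I.cc t) w) (vb w)) (va w) ∧
          ¬ REG ((I.Y I.FA).st t (Nc (I.cc t) w) l) Prod.snd (I.Ex t) (I.sgm t) (I.RR t) (va w)) := by
      refine FP.Pr_congr _ fun w _ => ?_
      rw [exA_iff]
      refine and_congr Iff.rfl (not_congr ?_)
      show (I.Ex t ≤ k ∧ _) ↔ _
      simp only [hE, true_and]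
      exact Iff.rfl
    have h3 : (Pu k N n P).Pr (fun w => 1 / 2 ^ 20 < D2 (FP.unif (P × V k)) ((I.Y I.FA).st t (Nc (I.cc t) w) l)
        Prod.snd (I.Ex t) (va w)) ≤ min 1 ((Pu k N n P).E (I.sys.bA l t)) := by
      refine le_min (FP.Pr_le_one _ _) (FP.E_mono _ fun w _ => ?_)
      show _ ≤ I.bb2 I.FA l t (I.nu t w) (va w)
      have h4 : I.bb2 I.FA l t (I.nu t w) (va w) = 2 ^ 20 * D2 (FP.unif (P × V k))
          ((I.Y I.FA).st t (Nc (I.cc t) w) l) Prod.snd (I.Ex t) (va w) := by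
        unfold bb2
        rw [if_pos hE]
        rfl
      rw [h4]
      by_cases h5 : 1 / 2 ^ 20 < D2 (FP.unif (P × V k)) ((I.Y I.FA).st t (Nc (I.cc t) w) l) Prod.snd (I.Ex t) (va w)
      · rw [ind_of h5]
        have h6 : (0 : ℝ) < 2 ^ 20 := by positivity
        rw [div_lt_iff₀ h6] at h5
        linarith
      · rw [ind_not h5]
        exact mul_nonneg (by positivity) (D2_nonneg _ _ _ _ _)
    rw [h2]
    refine h1.trans (le_trans (mul_le_mul_of_nonneg_left h3 (by positivity)) ?_)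
    refine mul_le_mul_of_nonneg_right ?_ (le_min zero_le_one (FP.E_nonneg _ fun w _ => ?_))
    · have h4 := num_xt h i (E := 10252) (by norm_num)
      have h5 : (2 : ℝ) ^ 10252 = 2 ^ 10241 * 2 * 2 ^ 10 := by rw [← pow_succ, ← pow_add]
      rw [h5] at h4
      refine le_trans (le_of_eq ?_) h4
      push_cast
      ring
    · show 0 ≤ I.bb2 I.FA l t (I.nu t w) (va w)
      unfold bb2
      rw [if_pos hE]
      exact mul_nonneg (by positivity) (D2_nonneg _ _ _ _ _)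
  · have h1 : (Pu k N n P).E (I.sys.bA l t) = 1 := by
      have h2 : ∀ w, I.sys.bA l t w = 1 := fun w => by
        show I.bb2 I.FA l t (I.nu t w) (va w) = 1
        unfold bb2
        rw [if_neg hE]
      rw [FP.E_congr _ (g := fun _ => 1) fun w _ => h2 w, FP.E_const]
    rw [h1, min_self, mul_one]
    have h2 := num_xt h i (E := 3) (by norm_num)
    refine le_trans ?_ h2
    calc (Pu k N n P).Pr (fun w => I.sys.exA I.r i j t w ∧ ¬ I.sys.regA l t w)
        ≤ (Pu k N n P).Pr (fun w => I.sys.exA I.r i j t w) := FP.E_mono _ fun w _ => ind_mono fun h' => h'.1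
      _ = (Pu k N n P).E ((Pu k N n P).ce (I.sys.GB t) (fun v => ind (I.sys.exA I.r i j t v))) :=
          (FP.E_ce _ _ _).symm
      _ ≤ _ := FP.E_le_const _ fun w _ => exA_le h hi j t w

/-- `exA_nr`: LEMMA R on the path -/
theorem sys_exA_nr (h : InsH I p eps0) (hsb : ∀ l ≤ I.L, ∑ t ∈ range I.T, (Pu k N n P).E (I.sys.bA l t) ≤ I.bud p l) :
    ∀ l i, l ≤ i → i ≤ I.L → ∀ j, okd I.L j →
    ∑ t ∈ range (I.T + 1), (Pu k N n P).Pr (fun w => I.sys.exA I.r i j t w ∧ ¬ I.sys.regA l t w) ≤ I.nr p i l := by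
  intro l i hl hi j _
  have hxt := xt_nonneg h i
  have hpar : Par (CB n) I.r p 1 1 I.th := by
    refine ⟨?_, h.rpos, h.r1, h.p0, zero_le_one, le_rfl, h.thpos, h.th1.le⟩
    unfold CB
    have h1 : (1 : ℝ) ≤ 2 ^ (n + 60) := one_le_pow₀ (by norm_num)
    have h2 : (1 : ℝ) ≤ (n : ℝ) + 1 := by have := Nat.cast_nonneg (α := ℝ) n; linarith
    nlinarith
  have h1 : 1 ≤ I.bud p l := hpar.one_le_Bk l
  have h2 := hsb l (hl.trans hi)
  rw [sum_range_succ]
  have h3 : ∑ t ∈ range I.T, (Pu k N n P).Pr (fun w => I.sys.exA I.r i j t w ∧ ¬ I.sys.regA l t w) ≤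
      I.xt i / 2 * I.bud p l := by
    calc _ ≤ ∑ t ∈ range I.T, I.xt i / 2 * (Pu k N n P).E (I.sys.bA l t) :=
          sum_le_sum fun t _ => (exA_nr1 h hl hi j t).trans
            (mul_le_mul_of_nonneg_left (min_le_right _ _) (by linarith))
      _ = I.xt i / 2 * ∑ t ∈ range I.T, (Pu k N n P).E (I.sys.bA l t) := by rw [mul_sum]
      _ ≤ _ := mul_le_mul_of_nonneg_left h2 (by linarith)
  have h4 : (Pu k N n P).Pr (fun w => I.sys.exA I.r i j I.T w ∧ ¬ I.sys.regA l I.T w) ≤ I.xt i / 2 * I.bud p l :=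
    (exA_nr1 h hl hi j I.T).trans (mul_le_mul_of_nonneg_left ((min_le_left _ _).trans h1) (by linarith))
  unfold nr
  linarith

end Ins

end

end Pool.Agent.GMC
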