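import Pool.Agent.GMC.Step

/-!
# GMC/StepF: C2.4 + C2.5 complete, from `Sys.Hyp` (helper91)

`Sys.swap` (exchange of `a` and `b`), the steps (A), (A'), (B), (M), (M'), (0), (L), and the final theorem `c2_abs`:
`P(exists t <= T, 2 r <= X ⊤ ⊤ t) <= C Qb^c th (1 + log (1/th))`.
-/

set_option autoImplicit false
set_option linter.unusedSectionVars false

namespace Pool.Agent.GMC

open Finset Pool.Agent.PWZ Pool.Agent.M3

noncomputable section

variable {Om : Type*} [Fintype Om] {Nd κA κB : Type*}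

/-- exchange of `a` and `b` -/
def Sys.swap (S : Sys Om Nd κA κB) : Sys Om Nd κB κA where
  nu := S.nu
  D := S.D
  PA := S.PB
  PB := S.PA
  X := fun i j => S.X j i
  Y := fun i j => S.Y j i
  entA := S.entB
  entB := S.entA
  dA := S.dB
  dB := S.dA
  bA := S.bB
  bB := S.bA
  regA := S.regB
  regB := S.regA

section

variable {S : Sys Om Nd κA κB} {P : FP Om} {T L : ℕ} {r q y0 bv : ℝ} {x bud : ℕ → ℝ} {nr : ℕ → ℕ → ℝ}

theorem Sys.swap_fac (S : Sys Om Nd κA κB) (i j : ℕ∞) (t : ℕ) : Fac (S.swap.Ix i j t) (S.Ix j i t) := by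
  intro v w h
  unfold Sys.Ix Sys.swap at h
  unfold Sys.Ix
  simp only [Prod.mk.injEq] at h ⊢
  exact ⟨h.1, h.2.2, h.2.1⟩

theorem Sys.swap_fac' (S : Sys Om Nd κA κB) (i j : ℕ∞) (t : ℕ) : Fac (S.Ix j i t) (S.swap.Ix i j t) := by
  intro v w h
  unfold Sys.Ix at h
  unfold Sys.Ix Sys.swap
  simp only [Prod.mk.injEq] at h ⊢
  exact ⟨h.1, h.2.2, h.2.1⟩

theorem Sys.swap_ce (S : Sys Om Nd κA κB) (P : FP Om) (i j : ℕ∞) (t : ℕ) (f : Om → ℝ) (w : Om) :
    P.ce (S.swap.Ix i j t) f w = P.ce (S.Ix j i t) f w :=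
  P.ce_congr_map (S.swap_fac i j t) (S.swap_fac' i j t) f w

theorem Sys.Hyp.swap (h : S.Hyp P T L r q y0 bv x bud nr) : S.swap.Hyp P T L r q y0 bv x bud nr where
  nuF := h.nuF
  refA := h.refB
  refB := h.refA
  nestA := h.nestB
  nestB := h.nestA
  DF := h.DF
  nuD := h.nuD
  D01 := h.D01
  fairA := h.fairB
  fairB := h.fairA
  XF := fun i j hi hj t ht => (S.swap_fac i j t).trans (h.XF j i hj hi t ht)
  X0 := fun i j => h.X0 j i
  X1 := fun i j => h.X1 j i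
  Y1 := fun i j => h.Y1 j i
  q0 := h.q0
  psd := fun i j hi hj t ht w hw => by
    rw [S.swap_ce, S.swap_ce]; exact h.psd j i hj hi t ht w hw
  contA := h.contB
  contB := h.contA
  entAF := h.entBF
  entBF := h.entAF
  entAtop := h.entBtop
  entBtop := h.entAtop
  entAmono := h.entBmono
  entBmono := h.entAmono
  loss := fun i j hi hj t ht w hw h1 h2 => by
    have := h.loss j i hj hi t ht w hw h2 h1
    show S.Y j i (t + 1) w - (S.dB i (t + 1) w + S.dA j (t + 1) w) ≤ S.X j i (t + 1) w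
    linarith
  dA0 := h.dB0
  dB0 := h.dA0
  dAF := h.dBF
  dBF := h.dAF
  bAF := h.bBF
  bBF := h.bAF
  biasA := fun i hi t ht w hw => by rw [S.swap_ce]; exact h.biasB i hi t ht w hw
  biasB := fun j hj t ht w hw => by rw [S.swap_ce]; exact h.biasA j hj t ht w hw
  bud_mono := h.bud_mono
  bv0 := h.bv0
  sbA := h.sbB
  sbB := h.sbA
  seA := h.seB
  seB := h.seA
  sdA := h.sdB
  sdB := h.sdA
  svA := h.svB
  svB := h.svA
  x0 := h.x0
  x_anti := h.x_anti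
  exA_le := fun i hi j hj t ht w hw => h.exB_le j hj i hi t ht w hw
  exB_le := fun i hi j hj t ht w hw => h.exA_le j hj i hi t ht w hw
  exA_reg := fun l i hli hi j hj t ht w hw => by rw [S.swap_ce]; exact h.exB_reg j hj l i hli hi t ht w hw
  exB_reg := fun i hi l j hlj hj t ht w hw => by rw [S.swap_ce]; exact h.exA_reg l j hlj hj i hi t ht w hw
  exA_nr := fun l i hli hi j hj => h.exB_nr j hj l i hli hi
  exB_nr := fun i hi l j hlj hj => h.exA_nr l j hlj hj i hi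
  y00 := h.y00
  rarA := h.rarB
  rarB := h.rarA

/-- the event `H(i,j)` with threshold `R` -/
def Sys.Hh (S : Sys Om Nd κA κB) (T : ℕ) (R : ℝ) (i j : ℕ∞) (w : Om) : Prop := ∃ t ≤ T, R ≤ S.X i j t w

/-- the bound of one step before division by `g/2` -/
def stB (q bv : ℝ) (x bud : ℕ → ℝ) (nr : ℕ → ℕ → ℝ) (k : ℕ) : ℝ :=
  2 * x k * (9 + (q + 32) * bud (k + 1) + 2 * bv) + 2 * (nr k k + nr (k + 1) k + nr (k + 1) (k + 1))

/-- (A_k) -/
theorem Sys.Hyp.stepA (h : S.Hyp P T L r q y0 bv x bud nr) (hr : 0 < r) {k : ℕ} (hk : k + 1 ≤ L) :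
    gk r (k + 1) / 2 * P.Pr (fun w => S.Hh T (rI r (k + 1)) ⊤ (k + 1 : ℕ) w ∧ ¬ S.Hh T (rI r k) ⊤ k w ∧
      ¬ S.Hh T (rD r k) (k + 1 : ℕ) (k + 1 : ℕ) w) ≤ stB q bv x bud nr k := by
  have hg := gk_pos hr (k + 1)
  have hg12 := gk_ge hr k
  have he := epk_pos hr k
  have he1 := epk_pos hr (k + 1)
  have hea := epk_anti hr (Nat.le_succ k)
  have hs := h.step hk (okd_top L) (Or.inl rfl) (i2 := k + 1) (a1 := k + 1) le_rfl le_rfl (by omega) le_rfl
    (rI r (k + 1) - gk r (k + 1) / 2) (rI r (k + 1)) (rI r k) (rD r k) (by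
      have := le_rI hr (k + 1)
      have : gk r (k + 1) ≤ r := by
        rw [gk_eq]; have := epk_le hr (k + 1); linarith
      linarith)
    (by
      intro t w h1 h2
      by_contra hcon
      push Not at hcon
      unfold Sys.exB at hcon
      have a1 := abs_lt.1 (not_le.1 hcon.1)
      have a2 := abs_lt.1 (not_le.1 hcon.2)
      have e1 := rI_succ r k
      have e2 := rD_eq r k
      have e3 := rM_eq r k
      linarith [a1.1, a1.2, a2.1, a2.2])
    (by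
      intro t w h1 h2
      right
      unfold Sys.exA
      have e1 := rI_succ r k
      rw [abs_sub_comm]
      refine le_trans ?_ (le_abs_self _)
      linarith)
  unfold stB
  have e1 : rI r (k + 1) - (rI r (k + 1) - gk r (k + 1) / 2) = gk r (k + 1) / 2 := by ring
  rw [e1] at hs
  have n1 : 0 ≤ nr k k := le_trans (Finset.sum_nonneg fun t _ => P.Pr_nonneg _)
    (h.exB_nr ⊤ (okd_top L) k k (le_refl k) (by omega))
  have n2 : 0 ≤ nr (k + 1) k := le_trans (Finset.sum_nonneg fun t _ => P.Pr_nonneg _)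
    (h.exB_nr ⊤ (okd_top L) k (k + 1) (Nat.le_succ k) hk)
  refine le_trans hs ?_
  linarith

/-- (B_k) -/
theorem Sys.Hyp.stepB (h : S.Hyp P T L r q y0 bv x bud nr) (hr : 0 < r) {k : ℕ} (hk : k + 1 ≤ L) :
    gk r (k + 1) / 2 * P.Pr (fun w => S.Hh T (rD r k) (k + 1 : ℕ) (k + 1 : ℕ) w ∧ ¬ S.Hh T (rM r k) (k + 1 : ℕ) k w ∧
      ¬ S.Hh T (rM r k) k (k + 1 : ℕ) w) ≤ stB q bv x bud nr k := by
  have hg := gk_pos hr (k + 1)
  have hg12 := gk_ge hr k
  have he := epk_pos hr k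
  have he1 := epk_pos hr (k + 1)
  have hea := epk_anti hr (Nat.le_succ k)
  have hs := h.step hk (okd_nat hk) (Or.inr rfl) (i2 := k) (a1 := k) le_rfl (by omega) le_rfl (by omega)
    (rD r k - gk r (k + 1) / 2) (rD r k) (rM r k) (rM r k) (by
      have := le_rI hr k
      have := rI_le_rM hr k
      have := rD_eq r k
      linarith)
    (by
      intro t w h1 h2
      by_contra hcon
      push Not at hcon
      unfold Sys.exB at hcon
      have a1 := abs_lt.1 (not_le.1 hcon.1)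
      have a2 := abs_lt.1 (not_le.1 hcon.2)
      have e2 := rD_eq r k
      linarith [a1.1, a1.2, a2.1, a2.2])
    (by
      intro t w h1 h2
      by_contra hcon
      push Not at hcon
      unfold Sys.exA at hcon
      have a1 := abs_lt.1 (not_le.1 hcon.1)
      have a2 := abs_lt.1 (not_le.1 hcon.2)
      have e2 := rD_eq r k
      linarith [a1.1, a1.2, a2.1, a2.2])
  unfold stB
  have e1 : rD r k - (rD r k - gk r (k + 1) / 2) = gk r (k + 1) / 2 := by ring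
  rw [e1] at hs
  have n1 : 0 ≤ nr (k + 1) (k + 1) := le_trans (Finset.sum_nonneg fun t _ => P.Pr_nonneg _)
    (h.exB_nr ⊤ (okd_top L) (k + 1) (k + 1) (le_refl _) hk)
  refine le_trans hs ?_
  linarith

/-- (M_k) -/
theorem Sys.Hyp.stepM (h : S.Hyp P T L r q y0 bv x bud nr) (hr : 0 < r) {k : ℕ} (hk : k + 1 ≤ L) :
    P.Pr (fun w => S.Hh T (rM r k) (k + 1 : ℕ) k w ∧ ¬ S.Hh T (rI r k) ⊤ k w) ≤ x (k + 1) + nr (k + 1) (k + 1) := by
  have hkL : k ≤ L := by omega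
  have oi : okd L ((k + 1 : ℕ) : ℕ∞) := okd_nat hk
  have oj : okd L (k : ℕ∞) := okd_nat hkL
  have he1 := epk_pos hr (k + 1)
  -- first time
  set fst : ℕ → Om → Prop := fun t w => rM r k ≤ S.X (k + 1 : ℕ) k t w ∧ ∀ s < t, S.X (k + 1 : ℕ) k s w < rM r k with hfst
  have hfF : ∀ t ≤ T, Fac (S.Ix (k + 1 : ℕ) k t) (fun w => ind (fst t w)) := fun t ht => Fac.ind fun v w hvw => by
    simp only [hfst]
    have e0 : ∀ s ≤ t, S.X (k + 1 : ℕ) k s v = S.X (k + 1 : ℕ) k s w := fun s hs =>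
      h.XF _ _ oi oj s (hs.trans ht) v w (h.Ix_le oi oj hs ht v w hvw)
    rw [e0 t le_rfl]
    refine and_congr Iff.rfl ?_
    constructor
    · intro hh s hs
      rw [← e0 s hs.le]; exact hh s hs
    · intro hh s hs
      rw [e0 s hs.le]; exact hh s hs
  have hdisj : ∀ w, ∑ t ∈ range (T + 1), ind (fst t w) ≤ 1 := by
    intro w
    by_cases hex : ∃ t ∈ range (T + 1), fst t w
    · obtain ⟨t0, ht0, hf0⟩ := hex
      rw [Finset.sum_eq_single t0]
      · exact ind_le_one _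
      · intro t _ hne
        refine ind_not fun hf => ?_
        rcases Nat.lt_or_gt_of_ne hne with hlt | hlt
        · exact absurd hf.1 (not_le.2 (hf0.2 t hlt))
        · exact absurd hf0.1 (not_le.2 (hf.2 t0 hlt))
      · intro hn; exact absurd ht0 hn
    · push Not at hex
      rw [Finset.sum_eq_zero fun t ht => ind_not (hex t ht)]
      norm_num
  have hev : P.Pr (fun w => S.Hh T (rM r k) (k + 1 : ℕ) k w ∧ ¬ S.Hh T (rI r k) ⊤ k w) ≤
      ∑ t ∈ range (T + 1), P.E (fun w => ind (fst t w) * ind (S.exA r (k + 1) k t w)) := by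
    rw [← P.E_sum]
    unfold FP.Pr
    refine P.E_mono fun w _ => ?_
    by_cases hh : S.Hh T (rM r k) (k + 1 : ℕ) k w ∧ ¬ S.Hh T (rI r k) ⊤ k w
    · obtain ⟨h1, h2⟩ := hh
      -- the first time
      have hex : ∃ t, t ≤ T ∧ rM r k ≤ S.X (k + 1 : ℕ) k t w := h1
      classical
      set t0 := Nat.find hex with ht0
      obtain ⟨ht0T, ht0r⟩ := Nat.find_spec hex
      have hmin : ∀ s < t0, S.X (k + 1 : ℕ) k s w < rM r k := by
        intro s hs
        have := Nat.find_min hex hs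
        by_contra hcon
        exact this ⟨by omega, not_lt.1 hcon⟩
      have hf : fst t0 w := ⟨ht0r, hmin⟩
      have hx : S.exA r (k + 1) k t0 w := by
        have h3 : S.X ⊤ k t0 w < rI r k := by
          by_contra hcon
          exact h2 ⟨t0, ht0T, not_lt.1 hcon⟩
        unfold Sys.exA
        refine le_trans ?_ (le_abs_self _)
        have := rM_eq r k
        linarith
      have e1 : ind (fst t0 w) * ind (S.exA r (k + 1) k t0 w) ≤
          ∑ t ∈ range (T + 1), ind (fst t w) * ind (S.exA r (k + 1) k t w) :=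
        Finset.single_le_sum (f := fun t => ind (fst t w) * ind (S.exA r (k + 1) k t w))
          (fun t _ => mul_nonneg (ind_nonneg _) (ind_nonneg _)) (Finset.mem_range.2 (by omega))
      rw [ind_of hf, ind_of hx] at e1
      have := ind_le_one (S.Hh T (rM r k) (k + 1 : ℕ) k w ∧ ¬ S.Hh T (rI r k) ⊤ k w)
      linarith
    · rw [ind_not hh]
      exact Finset.sum_nonneg fun t _ => mul_nonneg (ind_nonneg _) (ind_nonneg _)
  have hone : ∀ t ∈ range (T + 1), P.E (fun w => ind (fst t w) * ind (S.exA r (k + 1) k t w)) ≤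
      x (k + 1) * P.Pr (fst t) + P.Pr (fun w => S.exA r (k + 1) k t w ∧ ¬ S.regA (k + 1) t w) := by
    intro t ht
    have ht' : t ≤ T := Nat.lt_succ_iff.1 (Finset.mem_range.1 ht)
    have e1 : P.E (fun w => ind (fst t w) * ind (S.exA r (k + 1) k t w ∧ S.regA (k + 1) t w)) ≤ x (k + 1) * P.Pr (fst t) :=
      wtx P (hfF t ht') (fun w => ind_nonneg _) fun w hw _ => h.exA_reg' oj (le_refl (k + 1)) hk ht' hw
    have e2 : P.E (fun w => ind (fst t w) * ind (S.exA r (k + 1) k t w)) ≤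
        P.E (fun w => ind (fst t w) * ind (S.exA r (k + 1) k t w ∧ S.regA (k + 1) t w)) +
          P.Pr (fun w => S.exA r (k + 1) k t w ∧ ¬ S.regA (k + 1) t w) := by
      unfold FP.Pr
      rw [← P.E_add]
      refine P.E_mono fun w _ => ?_
      have i0 := ind_nonneg (fst t w)
      have i1 := ind_le_one (fst t w)
      have i2 : ind (S.exA r (k + 1) k t w) ≤ ind (S.exA r (k + 1) k t w ∧ S.regA (k + 1) t w) +
          ind (S.exA r (k + 1) k t w ∧ ¬ S.regA (k + 1) t w) := by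
        refine le_trans (ind_mono ?_) (ind_or_le _ _)
        intro hh
        by_cases hr' : S.regA (k + 1) t w
        · exact Or.inl ⟨hh, hr'⟩
        · exact Or.inr ⟨hh, hr'⟩
      have i3 := ind_nonneg (S.exA r (k + 1) k t w ∧ ¬ S.regA (k + 1) t w)
      nlinarith
    linarith
  have hsum := Finset.sum_le_sum hone
  rw [Finset.sum_add_distrib, ← Finset.mul_sum] at hsum
  have hfs : ∑ t ∈ range (T + 1), P.Pr (fst t) ≤ 1 := by
    unfold FP.Pr
    rw [← P.E_sum]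
    exact P.E_le_const fun w _ => hdisj w
  have hnr := h.exA_nr (k + 1) (k + 1) le_rfl hk k oj
  have hx0 := h.x0 (k + 1)
  nlinarith

/-- (0) -/
theorem Sys.Hyp.step0 (h : S.Hyp P T L r q y0 bv x bud nr) (hr : 0 < r) :
    r / 10 * P.Pr (fun w => S.Hh T (rI r 0) ⊤ (0 : ℕ) w) ≤
      (y0 + x 0) * (1 + (q + 4) * bud 0 + 2 * bv) := by
  have h0L : 0 ≤ L := Nat.zero_le L
  have oi : okd L ⊤ := okd_top L
  have oj : okd L ((0 : ℕ) : ℕ∞) := okd_nat h0L
  have hbv := h.bv0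
  have hq := h.q0
  have hx0 := h.x0 0
  have hy0 := h.y00
  have hbud0 : 0 ≤ bud 0 := le_trans (Finset.sum_nonneg fun t _ => P.Pr_nonneg _) (h.seA 0 h0L)
  set hot : ℕ → Om → Prop := fun _ _ => False with hhot
  set dr : ℕ → Om → Prop := fun _ _ => False with hdr
  set Xm : ℕ → Om → ℝ := S.X ⊤ (0 : ℕ) with hXm
  set ent : ℕ → Om → Prop := fun t w => S.entB ((0 : ℕ) : ℕ∞) t w with hent
  set be2 : ℕ → Om → ℝ := fun t w => P.ce (S.Ix ⊤ (0 : ℕ) t) (S.D (t + 1)) w ^ 2 with hbe2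
  set d : ℕ → Om → ℝ := fun t w => S.dA ⊤ t w + S.dB ((0 : ℕ) : ℕ∞) t w with hd
  set ac : ℕ → Om → Prop := act Xm hot r with hac
  have hpot := pot P (S.Ix ⊤ (0 : ℕ)) T Xm (S.Y ⊤ (0 : ℕ)) d be2 hot dr ent q r (rI r 0) hr.le hq
    (fun s t hst ht => h.Ix_le oi oj hst ht) (fun t ht => h.XF _ _ oi oj t ht)
    (fun t _ v w _ => Iff.rfl) (fun t _ v w _ => Iff.rfl)
    (fun t w => h.X1 _ _ t w) (fun t w => h.Y1 _ _ t w) (fun t w => add_nonneg (h.dA0 _ _ _) (h.dB0 _ _ _))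
    (fun t w => sq_nonneg _) (fun t ht w hw _ _ => h.psd _ _ oi oj t ht w hw)
    (fun t ht w hw _ _ hne => ⟨fun hh => hh, h.loss _ _ oi oj t ht w hw (h.entAtop _ _) hne⟩)
  have hacr : ∀ t w, ac t w → r < S.X ⊤ (0 : ℕ) t w := fun t w hh => hh.2
  -- sparse given `a`
  have sA : ∀ t ≤ T, ∀ w, P.p w ≠ 0 → P.ce (S.GA t) (fun v => ind (ac t v)) w ≤ y0 + x 0 := by
    intro t ht w hw
    have e1 := h.rarA ⊤ oi t ht w hw
    have e2 := h.exB_le ⊤ oi 0 h0L t ht w hw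
    have e3 : P.ce (S.GA t) (fun v => ind (ac t v)) w ≤
        P.ce (S.GA t) (fun v => ind (99 / 100 * r ≤ S.X ⊤ ⊤ t v ∨ S.exB r ⊤ 0 t v)) w := by
      refine P.ce_mono (fun v _ => ind_mono fun hh => ?_) w
      have h1 := hacr t v hh
      by_contra hcon
      push Not at hcon
      unfold Sys.exB at hcon
      have a1 := abs_lt.1 (not_le.1 hcon.2)
      have a2 := epk_le hr 0
      linarith [a1.1, a1.2, hcon.1]
    have e4 := ce_or_le P (S.GA t) (fun v => 99 / 100 * r ≤ S.X ⊤ ⊤ t v) (fun v => S.exB r ⊤ 0 t v) w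
    linarith
  have sB : ∀ t ≤ T, ∀ w, P.p w ≠ 0 → P.ce (S.GB t) (fun v => ind (ac t v)) w ≤ y0 + x 0 := by
    intro t ht w hw
    have e1 := h.rarB ((0 : ℕ) : ℕ∞) oj t ht w hw
    have e3 : P.ce (S.GB t) (fun v => ind (ac t v)) w ≤
        P.ce (S.GB t) (fun v => ind (99 / 100 * r ≤ S.X ⊤ (0 : ℕ) t v)) w := by
      refine P.ce_mono (fun v _ => ind_mono fun hh => ?_) w
      have h1 := hacr t v hh
      have h2 : 99 / 100 * r ≤ r := by linarith
      exact h2.trans h1.le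
    linarith
  have hacF : ∀ t ≤ T, Fac (S.Ix ⊤ (0 : ℕ) t) (fun w => ind (ac t w)) := fun t ht => Fac.ind fun v w hvw => by
    simp only [hac]
    unfold act
    rw [hXm, h.XF _ _ oi oj t ht v w hvw]
  have hs0 : 0 ≤ y0 + x 0 := by linarith
  have l0 : P.Pr (fun w => ac T w) ≤ y0 + x 0 := by
    unfold FP.Pr
    rw [← P.E_ce (S.GA T)]
    exact P.E_le_const fun w hw => sA T (le_refl _) w hw
  have l1 : ∑ t ∈ range T, P.E (fun w => ind (ac t w) * be2 t w) ≤ (y0 + x 0) * bud 0 := by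
    refine le_trans (Finset.sum_le_sum (g := fun t => (y0 + x 0) * P.E (S.bB 0 t)) fun t ht => ?_) ?_
    · have ht' := Finset.mem_range.1 ht
      have hne : ∀ w, P.p w ≠ 0 → 0 ≤ S.bB 0 t w := fun w hw =>
        (sq_nonneg _).trans (h.biasB 0 h0L t ht' w hw)
      set f : Om → ℝ := fun w => max (S.bB 0 t w) 0 with hf
      have hfF : Fac (S.GB t) f := fun v w hvw => by
        show max _ _ = max _ _
        rw [h.bBF 0 h0L t ht' v w hvw]
      have e2 := E_ind_mul_le P hfF (fun w => le_max_right _ _) (sB t ht'.le)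
      have e1 : P.E (fun w => ind (ac t w) * be2 t w) ≤ P.E (fun w => ind (ac t w) * f w) :=
        P.E_mono fun w hw => mul_le_mul_of_nonneg_left ((h.biasB 0 h0L t ht' w hw).trans (le_max_left _ _)) (ind_nonneg _)
      have e4 : P.E f = P.E (S.bB 0 t) :=
        P.E_congr fun w hw => by rw [hf]; simp only []; rw [max_eq_left (hne w hw)]
      rw [e4] at e2
      exact e1.trans e2
    · rw [← Finset.mul_sum]
      exact mul_le_mul_of_nonneg_left (h.sbB 0 h0L) hs0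
  have l2 : ∑ t ∈ range T, P.E (fun w => ind (ac t w) * S.dA ⊤ (t + 1) w) ≤ 2 * (y0 + x 0) * bv := by
    refine le_trans (Finset.sum_le_sum (g := fun t => 2 * (y0 + x 0) * P.E (S.dA ⊤ (t + 1))) fun t ht => ?_) ?_
    · have ht' := Finset.mem_range.1 ht
      exact E_ind_mul_le_two P (h.GA_step ht') (h.fairA t ht') (h.dAF ⊤ oi t ht') (fun w => h.dA0 _ _ _) (sA t ht'.le)
    · rw [← Finset.mul_sum]
      exact mul_le_mul_of_nonneg_left h.svA (by linarith)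
  have l3 : ∑ t ∈ range T, P.E (fun w => ind (ac t w) * S.dB ((0 : ℕ) : ℕ∞) (t + 1) w) ≤ 2 * (y0 + x 0) * bud 0 := by
    refine le_trans (Finset.sum_le_sum (g := fun t => 2 * (y0 + x 0) * P.E (S.dB ((0 : ℕ) : ℕ∞) (t + 1))) fun t ht => ?_) ?_
    · have ht' := Finset.mem_range.1 ht
      exact E_ind_mul_le_two P (h.GB_step ht') (h.fairB t ht') (h.dBF _ oj t ht') (fun w => h.dB0 _ _ _) (sB t ht'.le)
    · rw [← Finset.mul_sum]
      exact mul_le_mul_of_nonneg_left (h.sdB 0 h0L) (by linarith)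
  have l4 : ∑ t ∈ range T, P.E (fun w => ind (ac t w) * ind (ent (t + 1) w)) ≤ 2 * (y0 + x 0) * bud 0 := by
    refine le_trans (Finset.sum_le_sum (g := fun t => 2 * (y0 + x 0) * P.Pr (S.entB ((0 : ℕ) : ℕ∞) (t + 1))) fun t ht => ?_) ?_
    · have ht' := Finset.mem_range.1 ht
      exact E_ind_mul_le_two P (h.GB_step ht') (h.fairB t ht')
        (f := fun w => ind (S.entB ((0 : ℕ) : ℕ∞) (t + 1) w)) (Fac.ind (h.entBF _ oj t ht')) (fun w => ind_nonneg _)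
        (sB t ht'.le)
    · rw [← Finset.mul_sum]
      exact mul_le_mul_of_nonneg_left (h.seB 0 h0L) (by linarith)
  have hsplit : ∑ t ∈ range T, P.E (fun w => ind (act Xm hot r t w) *
      (q * be2 t w + d (t + 1) w + ind (ent (t + 1) w) + ind (dr t w))) ≤
      q * ∑ t ∈ range T, P.E (fun w => ind (ac t w) * be2 t w) +
      ∑ t ∈ range T, P.E (fun w => ind (ac t w) * S.dA ⊤ (t + 1) w) +
      ∑ t ∈ range T, P.E (fun w => ind (ac t w) * S.dB ((0 : ℕ) : ℕ∞) (t + 1) w) +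
      ∑ t ∈ range T, P.E (fun w => ind (ac t w) * ind (ent (t + 1) w)) := by
    rw [Finset.mul_sum, ← Finset.sum_add_distrib, ← Finset.sum_add_distrib, ← Finset.sum_add_distrib]
    refine Finset.sum_le_sum fun t _ => ?_
    rw [← P.E_smul, ← P.E_add, ← P.E_add, ← P.E_add]
    refine le_of_eq (P.E_congr fun w _ => ?_)
    rw [show ind (dr t w) = 0 from ind_not (fun hh => hh)]
    simp only [hd]
    ring
  have hev : P.Pr (fun w => S.Hh T (rI r 0) ⊤ (0 : ℕ) w) ≤ P.Pr (fun w => ∃ t ≤ T, rI r 0 ≤ Xm t w ∧ ¬ hot t w) :=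
    P.Pr_mono fun w _ ⟨t, ht, hR⟩ => ⟨t, ht, hR, fun hh => hh⟩
  have e1 := mul_le_mul_of_nonneg_left l1 hq
  have e2 : rI r 0 - r = r / 10 := by rw [rI_zero]; ring
  rw [e2] at hpot
  have e3 := mul_le_mul_of_nonneg_left hev (show 0 ≤ r / 10 by linarith)
  have e4 : (y0 + x 0) * (1 + (q + 4) * bud 0 + 2 * bv) = (y0 + x 0) + q * ((y0 + x 0) * bud 0) + 2 * (y0 + x 0) * bv +
      2 * (y0 + x 0) * bud 0 + 2 * (y0 + x 0) * bud 0 := by ring
  rw [e4]
  linarith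

/-- (L) -/
theorem Sys.Hyp.stepL (h : S.Hyp P T L r q y0 bv x bud nr) (hr : 0 < r) :
    P.Pr (fun w => S.Hh T (2 * r) ⊤ ⊤ w ∧ ¬ S.Hh T (rI r L) ⊤ L w) ≤ ((T + 1 : ℕ) : ℝ) * x L := by
  have e1 : P.Pr (fun w => S.Hh T (2 * r) ⊤ ⊤ w ∧ ¬ S.Hh T (rI r L) ⊤ L w) ≤
      P.Pr (fun w => ∃ t ∈ range (T + 1), S.exB r ⊤ L t w) := by
    refine P.Pr_mono fun w _ hw => ?_
    obtain ⟨⟨t, ht, h2⟩, h3⟩ := hw
    refine ⟨t, Finset.mem_range.2 (by omega), ?_⟩
    have h4 : S.X ⊤ L t w < rI r L := by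
      by_contra hcon
      exact h3 ⟨t, ht, not_lt.1 hcon⟩
    have h5 := rI_lt hr L
    have h6 := epk_le hr L
    unfold Sys.exB
    rw [abs_sub_comm]
    refine le_trans ?_ (le_abs_self _)
    linarith
  refine e1.trans ((P.Pr_ex_le _ _).trans ?_)
  have e2 : ∀ t ∈ range (T + 1), P.Pr (fun w => S.exB r ⊤ L t w) ≤ x L := by
    intro t ht
    have ht' : t ≤ T := Nat.lt_succ_iff.1 (Finset.mem_range.1 ht)
    unfold FP.Pr
    rw [← P.E_ce (S.GA t)]
    exact P.E_le_const fun w hw => h.exB_le ⊤ (okd_top L) L le_rfl t ht' w hw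
  refine (Finset.sum_le_sum e2).trans (le_of_eq ?_)
  rw [Finset.sum_const, Finset.card_range, nsmul_eq_mul]

end

/-! ## numbers -/

theorem Nk_mono_C {C1 C0 r p : ℝ} (h : C1 ≤ C0) (hp : 0 ≤ p) (k : ℕ) : Nk C1 r p k ≤ Nk C0 r p k := by
  unfold Nk
  refine Finset.sum_le_sum fun j _ => ?_
  refine div_le_div_of_nonneg_right ?_ (sq_nonneg _)
  exact mul_le_mul_of_nonneg_right h (by linarith)

theorem Par.Bk_mono_C {C1 C0 r p q Sc th : ℝ} (hp : Par C1 r p q Sc th) (h : C1 ≤ C0) (k : ℕ) :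
    Bk C1 r p th k ≤ Bk C0 r p th k := by
  have h1 := hp.hC
  have h2 := Nk_mono_C (r := r) h hp.hp k
  have h3 := hp.Nk_nonneg k
  have h4 := hp.log_xk_nonneg k
  unfold Bk
  have h5 : C1 * (1 + Nk C1 r p k) ≤ C0 * (1 + Nk C0 r p k) :=
    mul_le_mul h (by linarith) (by linarith) (by linarith)
  exact mul_le_mul_of_nonneg_right h5 (by linarith)

theorem Par.mono_C {C1 C0 r p q Sc th : ℝ} (hp : Par C1 r p q Sc th) (h : C1 ≤ C0) : Par C0 r p q Sc th :=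
  ⟨hp.hC.trans h, hp.hr, hp.hr1, hp.hp, hp.hq, hp.hS, hp.ht, hp.ht1⟩

/-- the bracket of a step -/
theorem stB_le {C1 r p q Sc th q' bv : ℝ} {c1 L : ℕ} {x bud : ℕ → ℝ} {nr : ℕ → ℕ → ℝ} (hp : Par C1 r p q Sc th)
    (hq' : q' ≤ C1 * Qb r p q Sc ^ c1) (hq0 : 0 ≤ q') (hbv : bv ≤ C1 * Qb r p q Sc ^ c1) (hbv0 : 0 ≤ bv)
    (hx : ∀ k ≤ L, x k ≤ C1 * Qb r p q Sc ^ c1 * xk th k)
    (hbud : ∀ k ≤ L, bud k ≤ C1 * Qb r p q Sc ^ c1 * (1 + Bk C1 r p th k))
    (hnr : ∀ j l, l ≤ j → j ≤ L → nr j l ≤ C1 * Qb r p q Sc ^ c1 * (1 + Bk C1 r p th j) ^ c1 * xk th j)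
    {k : ℕ} (hk : k + 1 ≤ L) (hb0 : 0 ≤ bud (k + 1)) :
    stB q' bv x bud nr k ≤ 94 * C1 ^ 3 * Qb r p q Sc ^ (3 * c1) * (1 + Bk C1 r p th (k + 1)) ^ (c1 + 1) * xk th k := by
  have hQ := hp.one_le_Qb
  have hC := hp.hC
  have hBk := hp.Bk_nonneg (k + 1)
  set M : ℝ := C1 * Qb r p q Sc ^ c1 with hM
  set B : ℝ := 1 + Bk C1 r p th (k + 1) with hB
  have hM1 : 1 ≤ M := one_le_mul_of_one_le_of_one_le hC (one_le_pow₀ hQ)
  have hB1 : 1 ≤ B := by linarith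
  have hxk := xk_nonneg hp.ht.le k
  have hxk1 : xk th (k + 1) ≤ xk th k := xk_anti hp.ht.le hp.ht1 (Nat.le_succ k)
  have hBc : 1 ≤ B ^ c1 := one_le_pow₀ hB1
  have hxx := hx k (by omega)
  have hbb := hbud (k + 1) hk
  rw [← hB] at hbb
  have b1 : 1 + Bk C1 r p th k ≤ B := by have := hp.Bk_mono (Nat.le_succ k); linarith
  have b0 : 0 ≤ 1 + Bk C1 r p th k := by have := hp.Bk_nonneg k; linarith
  have n1 : nr k k ≤ M * B ^ c1 * xk th k := (hnr k k le_rfl (by omega)).trans (by gcongr)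
  have n2 : nr (k + 1) k ≤ M * B ^ c1 * xk th k := (hnr (k + 1) k (Nat.le_succ k) hk).trans (by
    rw [← hB]
    exact mul_le_mul_of_nonneg_left hxk1 (by positivity))
  have n3 : nr (k + 1) (k + 1) ≤ M * B ^ c1 * xk th k := (hnr (k + 1) (k + 1) le_rfl hk).trans (by
    rw [← hB]
    exact mul_le_mul_of_nonneg_left hxk1 (by positivity))
  have hM2 : M ≤ M ^ 2 := by nlinarith
  have hM3 : M ≤ M ^ 3 := by nlinarith
  have hMB : 1 ≤ M ^ 2 * B := one_le_mul_of_one_le_of_one_le (one_le_pow₀ hM1) hB1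
  have hM2B : M ^ 2 ≤ M ^ 2 * B := le_mul_of_one_le_right (by positivity) hB1
  have e1 : 9 + (q' + 32) * bud (k + 1) + 2 * bv ≤ 44 * (M ^ 2 * B) := by
    have t1 : (q' + 32) * bud (k + 1) ≤ (M + 32) * (M * B) := mul_le_mul (by linarith) hbb hb0 (by linarith)
    have t2 : (M + 32) * (M * B) ≤ 33 * (M ^ 2 * B) := by
      have : M * B ≤ M ^ 2 * B := mul_le_mul_of_nonneg_right hM2 (by linarith)
      nlinarith
    nlinarith
  have e0 : 0 ≤ 9 + (q' + 32) * bud (k + 1) + 2 * bv := by positivity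
  have e2 : 2 * x k * (9 + (q' + 32) * bud (k + 1) + 2 * bv) ≤ 88 * (M ^ 3 * B * xk th k) := by
    calc 2 * x k * (9 + (q' + 32) * bud (k + 1) + 2 * bv) ≤ 2 * (M * xk th k) * (44 * (M ^ 2 * B)) :=
          mul_le_mul (by linarith) e1 e0 (by positivity)
      _ = 88 * (M ^ 3 * B * xk th k) := by ring
  have e3 : M ^ 3 * B * xk th k ≤ M ^ 3 * B ^ (c1 + 1) * xk th k := by
    have : B ≤ B ^ (c1 + 1) := le_self_pow₀ hB1 (by omega)
    gcongr
  have e4 : M * B ^ c1 * xk th k ≤ M ^ 3 * B ^ (c1 + 1) * xk th k := by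
    have : B ^ c1 ≤ B ^ (c1 + 1) := pow_le_pow_right₀ hB1 (by omega)
    gcongr
  have e5 : 94 * C1 ^ 3 * Qb r p q Sc ^ (3 * c1) * B ^ (c1 + 1) * xk th k = 94 * (M ^ 3 * B ^ (c1 + 1) * xk th k) := by
    rw [hM, mul_pow, ← pow_mul, mul_comm c1 3]; ring
  rw [e5]
  unfold stB
  linarith

/-- THE ABSTRACT THEOREM C2 -/
theorem c2_abs (C1 : ℝ) (c1 : ℕ) (hC1 : 1 ≤ C1) : ∃ C : ℝ, 0 < C ∧ ∃ c : ℕ,
    ∀ {Om Nd κA κB : Type*} [Fintype Om] (S : Sys Om Nd κA κB) (P : FP Om) (T L : ℕ) (r p q Sc th q' y0 bv : ℝ)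
      (x bud : ℕ → ℝ) (nr : ℕ → ℕ → ℝ) (_ : Par C1 r p q Sc th) (_ : S.Hyp P T L r q' y0 bv x bud nr)
      (_ : q' ≤ C1 * Qb r p q Sc ^ c1) (_ : y0 ≤ C1 * Qb r p q Sc ^ c1 * th) (_ : bv ≤ C1 * Qb r p q Sc ^ c1)
      (_ : ∀ k ≤ L, x k ≤ C1 * Qb r p q Sc ^ c1 * xk th k)
      (_ : ∀ k ≤ L, bud k ≤ C1 * Qb r p q Sc ^ c1 * (1 + Bk C1 r p th k))
      (_ : ∀ j l, l ≤ j → j ≤ L → nr j l ≤ C1 * Qb r p q Sc ^ c1 * (1 + Bk C1 r p th j) ^ c1 * xk th j)
      (_ : ((T + 1 : ℕ) : ℝ) * xk th L ≤ th),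
      P.Pr (fun w => ∃ t ≤ T, 2 * r ≤ S.X ⊤ ⊤ t w) ≤ C * Qb r p q Sc ^ c * (th * (1 + Real.log (1 / th))) := by
  set C0 : ℝ := 3760 * C1 ^ 3 with hC0
  set c0 : ℕ := 4 * c1 + 2 with hc0
  have hC13 : 1 ≤ C1 ^ 3 := one_le_pow₀ hC1
  have hC1C0 : C1 ≤ C0 := by
    have : C1 ≤ C1 ^ 3 := le_self_pow₀ hC1 (by norm_num)
    rw [hC0]; linarith
  have hC01 : 1 ≤ C0 := hC1.trans hC1C0
  obtain ⟨C, hC, c, hchain⟩ := chain C0 c0 hC01
  refine ⟨C, hC, c, ?_⟩
  intro Om Nd κA κB _ S P T L r p q Sc th q' y0 bv x bud nr hp h hq' hy0 hbv hx hbud hnr hT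
  have hpC := hp.mono_C hC1C0
  have hr := hp.hr
  have hQ := hp.one_le_Qb
  have hQ0 : 0 ≤ Qb r p q Sc := by linarith
  have ht := hp.ht
  set U : ℝ := Qb r p q Sc with hU
  -- one step
  have hbud0 : ∀ k, k ≤ L → 0 ≤ bud k := fun k hk =>
    le_trans (Finset.sum_nonneg fun t _ => P.Pr_nonneg _) (h.seA k hk)
  have hone : ∀ k, k + 1 ≤ L → ∀ y : ℝ, gk r (k + 1) / 2 * y ≤ stB q' bv x bud nr k → y ≤ ek C0 c0 r p q Sc th k := by
    intro k hk y hy
    have hb := stB_le hp hq' h.q0 hbv h.bv0 hx hbud hnr hk (hbud0 (k + 1) hk)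
    have hg := gk_pos hr (k + 1)
    have hgi := hp.inv_gk_le (k + 1)
    rw [← hU] at hb hgi
    set B : ℝ := 1 + Bk C1 r p th (k + 1) with hB
    have hBk := hp.Bk_nonneg (k + 1)
    have hB1 : 1 ≤ B := by linarith
    have hxk := xk_nonneg ht.le k
    have e1 : y ≤ 2 * (1 / gk r (k + 1)) * (94 * C1 ^ 3 * U ^ (3 * c1) * B ^ (c1 + 1) * xk th k) := by
      have : y = 2 * (1 / gk r (k + 1)) * (gk r (k + 1) / 2 * y) := by field_simp
      rw [this]
      exact mul_le_mul_of_nonneg_left (hy.trans hb) (by positivity)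
    have e2 : 2 * (1 / gk r (k + 1)) * (94 * C1 ^ 3 * U ^ (3 * c1) * B ^ (c1 + 1) * xk th k) ≤
        2 * (20 * U * B) * (94 * C1 ^ 3 * U ^ (3 * c1) * B ^ (c1 + 1) * xk th k) := by
      have h1 : 1 / gk r (k + 1) ≤ 20 * U * B := hgi.trans (by
        have : Bk C1 r p th (k + 1) ≤ B := by linarith
        gcongr)
      gcongr
    have e3 : 2 * (20 * U * B) * (94 * C1 ^ 3 * U ^ (3 * c1) * B ^ (c1 + 1) * xk th k) =
        C0 * U ^ (3 * c1 + 1) * B ^ (c1 + 2) * xk th k := by rw [hC0]; ring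
    have e4 : C0 * U ^ (3 * c1 + 1) * B ^ (c1 + 2) * xk th k ≤ ek C0 c0 r p q Sc th k := by
      unfold ek
      rw [← hU]
      have h1 : U ^ (3 * c1 + 1) ≤ U ^ c0 := pow_le_pow_right₀ hQ (by omega)
      have h2 : B ^ (c1 + 2) ≤ (1 + Bk C0 r p th (k + 1)) ^ c0 := by
        have h3 := hp.Bk_mono_C hC1C0 (k + 1)
        calc B ^ (c1 + 2) ≤ B ^ c0 := pow_le_pow_right₀ hB1 (by omega)
          _ ≤ (1 + Bk C0 r p th (k + 1)) ^ c0 := pow_le_pow_left₀ (by linarith) (by linarith) _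
      gcongr
    linarith
  have hM : ∀ k, k + 1 ≤ L → ∀ y : ℝ, y ≤ x (k + 1) + nr (k + 1) (k + 1) → y ≤ ek C0 c0 r p q Sc th k := by
    intro k hk y hy
    have h1 := hx (k + 1) hk
    have h2 := hnr (k + 1) (k + 1) le_rfl hk
    set B : ℝ := 1 + Bk C1 r p th (k + 1) with hB
    have hBk := hp.Bk_nonneg (k + 1)
    have hB1 : 1 ≤ B := by linarith
    have hxk := xk_nonneg ht.le k
    have hxk1 : xk th (k + 1) ≤ xk th k := xk_anti ht.le hp.ht1 (Nat.le_succ k)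
    have hBc : 1 ≤ B ^ c1 := one_le_pow₀ hB1
    have hUc : 1 ≤ U ^ c1 := one_le_pow₀ hQ
    have e1 : x (k + 1) ≤ C1 * U ^ c1 * B ^ c1 * xk th k := by
      calc x (k + 1) ≤ C1 * U ^ c1 * 1 * xk th k := by rw [mul_one]; exact h1.trans (by gcongr)
        _ ≤ C1 * U ^ c1 * B ^ c1 * xk th k := by gcongr
    have e2 : nr (k + 1) (k + 1) ≤ C1 * U ^ c1 * B ^ c1 * xk th k := h2.trans (by gcongr)
    have e3 : 2 * (C1 * U ^ c1 * B ^ c1 * xk th k) ≤ ek C0 c0 r p q Sc th k := by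
      unfold ek
      rw [← hU]
      have h1 : U ^ c1 ≤ U ^ c0 := pow_le_pow_right₀ hQ (by omega)
      have h2 : B ^ c1 ≤ (1 + Bk C0 r p th (k + 1)) ^ c0 := by
        have h3 := hp.Bk_mono_C hC1C0 (k + 1)
        calc B ^ c1 ≤ B ^ c0 := pow_le_pow_right₀ hB1 (by omega)
          _ ≤ (1 + Bk C0 r p th (k + 1)) ^ c0 := pow_le_pow_left₀ (by linarith) (by linarith) _
      have h4 : 2 * C1 ≤ C0 := by
        have : C1 ≤ C1 ^ 3 := le_self_pow₀ hC1 (by norm_num)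
        rw [hC0]; linarith
      calc 2 * (C1 * U ^ c1 * B ^ c1 * xk th k) = 2 * C1 * U ^ c1 * B ^ c1 * xk th k := by ring
        _ ≤ C0 * U ^ c0 * (1 + Bk C0 r p th (k + 1)) ^ c0 * xk th k := by gcongr
    linarith
  have hzero : ∀ y : ℝ, r / 10 * y ≤ (y0 + x 0) * (1 + (q' + 4) * bud 0 + 2 * bv) →
      y ≤ 160 * C1 ^ 3 * U ^ (3 * c1 + 1) * (1 + Bk C1 r p th 0) * th := by
    intro y hy
    have h1 := hx 0 (Nat.zero_le L)
    have h2 := hbud 0 (Nat.zero_le L)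
    have h3 := hbud0 0 (Nat.zero_le L)
    have hbv0 := h.bv0
    have hq0 := h.q0
    set M : ℝ := C1 * U ^ c1 with hMd
    set B : ℝ := 1 + Bk C1 r p th 0 with hB
    have hBk := hp.Bk_nonneg 0
    have hB1 : 1 ≤ B := by linarith
    have hM1 : 1 ≤ M := one_le_mul_of_one_le_of_one_le hC1 (one_le_pow₀ hQ)
    have hxk : xk th 0 ≤ th := xk_le_th ht.le hp.ht1 0
    have e1 : y0 + x 0 ≤ 2 * M * th := by nlinarith
    have hM2 : M ≤ M ^ 2 := by nlinarith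
    have hMB : 1 ≤ M ^ 2 * B := one_le_mul_of_one_le_of_one_le (one_le_pow₀ hM1) hB1
    have hM2B : M ^ 2 ≤ M ^ 2 * B := le_mul_of_one_le_right (by positivity) hB1
    have e2 : 1 + (q' + 4) * bud 0 + 2 * bv ≤ 8 * (M ^ 2 * B) := by
      have t1 : (q' + 4) * bud 0 ≤ (M + 4) * (M * B) := mul_le_mul (by linarith) h2 h3 (by linarith)
      have t2 : (M + 4) * (M * B) ≤ 5 * (M ^ 2 * B) := by
        have : M * B ≤ M ^ 2 * B := mul_le_mul_of_nonneg_right hM2 (by linarith)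
        nlinarith
      nlinarith
    have e3 : (y0 + x 0) * (1 + (q' + 4) * bud 0 + 2 * bv) ≤ 2 * M * th * (8 * (M ^ 2 * B)) :=
      mul_le_mul e1 e2 (by positivity) (by positivity)
    have hri := hp.inv_r_le
    rw [← hU] at hri
    have e4 : y ≤ 10 * (1 / r) * (2 * M * th * (8 * (M ^ 2 * B))) := by
      have : y = 10 * (1 / r) * (r / 10 * y) := by field_simp
      rw [this]
      exact mul_le_mul_of_nonneg_left (hy.trans e3) (by positivity)
    have e5 : 10 * (1 / r) * (2 * M * th * (8 * (M ^ 2 * B))) ≤ 10 * U * (2 * M * th * (8 * (M ^ 2 * B))) := by gcongr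
    have e6 : 10 * U * (2 * M * th * (8 * (M ^ 2 * B))) = 160 * C1 ^ 3 * U ^ (3 * c1 + 1) * B * th := by
      rw [hMd]
      have : (U ^ c1) ^ 3 = U ^ (3 * c1) := by rw [← pow_mul, mul_comm]
      rw [pow_succ U (3 * c1), ← this]; ring
    linarith
  refine hchain P r p q Sc th ((T + 1 : ℕ) : ℝ) hpC L hT (fun k => S.Hh T (rI r k) ⊤ k)
    (fun k => S.Hh T (rI r k) k ⊤) (fun k => S.Hh T (rM r k) (k + 1 : ℕ) k) (fun k => S.Hh T (rM r k) k (k + 1 : ℕ))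
    (fun k => S.Hh T (rD r k) (k + 1 : ℕ) (k + 1 : ℕ)) (fun w => ∃ t ≤ T, 2 * r ≤ S.X ⊤ ⊤ t w) ?_ ?_ ?_ ?_ ?_ ?_ ?_
  · have e1 := hzero _ (h.step0 hr)
    have e2 := hzero _ (h.swap.step0 hr)
    have e3 : P.Pr (fun w => S.Hh T (rI r 0) (0 : ℕ) ⊤ w) ≤
        160 * C1 ^ 3 * U ^ (3 * c1 + 1) * (1 + Bk C1 r p th 0) * th := e2
    have e4 : 320 * C1 ^ 3 * U ^ (3 * c1 + 1) * (1 + Bk C1 r p th 0) * th ≤
        C0 * U ^ c0 * (1 + Bk C0 r p th 0) * th := by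
      have h1 : U ^ (3 * c1 + 1) ≤ U ^ c0 := pow_le_pow_right₀ hQ (by omega)
      have h2 := hp.Bk_mono_C hC1C0 0
      have h3 := hp.Bk_nonneg 0
      have h4 : 320 * C1 ^ 3 ≤ C0 := by rw [hC0]; linarith
      gcongr
    have e5 : P.Pr (S.Hh T (rI r 0) ⊤ (0 : ℕ)) + P.Pr (S.Hh T (rI r 0) (0 : ℕ) ⊤) ≤
        C0 * U ^ c0 * (1 + Bk C0 r p th 0) * th := by
      have h5 : 320 * C1 ^ 3 * U ^ (3 * c1 + 1) * (1 + Bk C1 r p th 0) * th =
        160 * C1 ^ 3 * U ^ (3 * c1 + 1) * (1 + Bk C1 r p th 0) * th +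
          160 * C1 ^ 3 * U ^ (3 * c1 + 1) * (1 + Bk C1 r p th 0) * th := by ring
      rw [h5] at e4
      exact (add_le_add e1 e3).trans e4
    exact e5
  · intro k hk
    exact hone k hk _ (h.stepA hr hk)
  · intro k hk
    exact hone k hk _ (h.swap.stepA hr hk)
  · intro k hk
    exact hone k hk _ (h.stepB hr hk)
  · intro k hk
    exact hM k hk _ (h.stepM hr hk)
  · intro k hk
    exact hM k hk _ (h.swap.stepM hr hk)
  · have e1 := h.stepL hr
    have e2 : P.Pr (fun w => (∃ t ≤ T, 2 * r ≤ S.X ⊤ ⊤ t w) ∧ ¬ (S.Hh T (rI r L) ⊤ L w ∨ S.Hh T (rI r L) L ⊤ w)) ≤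
        P.Pr (fun w => S.Hh T (2 * r) ⊤ ⊤ w ∧ ¬ S.Hh T (rI r L) ⊤ L w) :=
      P.Pr_mono fun w _ hw => ⟨hw.1, fun hh => hw.2 (Or.inl hh)⟩
    have h1 := hx L le_rfl
    have hxk := xk_nonneg ht.le L
    have e3 : ((T + 1 : ℕ) : ℝ) * x L ≤ C0 * U ^ c0 * (((T + 1 : ℕ) : ℝ) * xk th L) := by
      have h2 : C1 * U ^ c1 ≤ C0 * U ^ c0 := by
        have : U ^ c1 ≤ U ^ c0 := pow_le_pow_right₀ hQ (by omega)
        gcongr
      calc ((T + 1 : ℕ) : ℝ) * x L ≤ ((T + 1 : ℕ) : ℝ) * (C1 * U ^ c1 * xk th L) := by gcongr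
        _ = C1 * U ^ c1 * (((T + 1 : ℕ) : ℝ) * xk th L) := by ring
        _ ≤ C0 * U ^ c0 * (((T + 1 : ℕ) : ℝ) * xk th L) := by gcongr
    exact e2.trans (e1.trans e3)

end

end Pool.Agent.GMC
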