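import Pool.Agent.GMC.Inst
import Pool.Agent.GMC.StepF

/-!
# GMC/Num: `c2_abs` with the numbers of the instance (helper91)

`c2_ins` : for an instance `I` with `InsH I p eps0`, `(T+1) x_L <= th` and `I.sys.Hyp` with the numbers of Inst, the probability
that the kernel `I.K` ever reaches `2 r` is at most `C Qb^c th (1 + log (1/th))`, `Qb = (1+p)(1+q) 2^hh / r`.
-/

set_option autoImplicit false
set_option linter.unusedSectionVars false

namespace Pool.Agent.GMC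

open Finset Pool.Agent.PWZ Pool.Agent.M3 Pool.Agent.M3.Bin Pool.Agent.M3.Mod
open Pool.Agent.GM99 (Ohc pm kapc)

noncomputable section

/-- the constant `C1` -/
def C1n (n : ℕ) : ℝ := CX + CB n + 2 ^ n + 10

theorem CX_one : 1 ≤ CX := by unfold CX; exact one_le_pow₀ (by norm_num)

theorem CB_one (n : ℕ) : 1 ≤ CB n := by
  unfold CB
  have h1 : (1 : ℝ) ≤ 2 ^ (n + 60) := one_le_pow₀ (by norm_num)
  have h2 : (0 : ℝ) ≤ n := Nat.cast_nonneg n
  nlinarith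

theorem C1n_one (n : ℕ) : 1 ≤ C1n n := by
  have h1 := CX_one; have h2 := CB_one n
  have h3 : (0 : ℝ) < 2 ^ n := by positivity
  unfold C1n; linarith

variable {k N n : ℕ} {P Ξ : Type} [Fintype P] [Nonempty P] [DecidableEq P] [Fintype Ξ]

/-- the ranges of the parameters -/
theorem InsH.par {I : Ins k N n P Ξ} {p eps0 : ℝ} (h : InsH I p eps0) :
    Par (C1n n) I.r p (I.q : ℝ) (2 ^ I.hh) I.th where
  hC := C1n_one n
  hr := h.rpos
  hr1 := h.r1
  hp := h.p0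
  hq := Nat.cast_nonneg _
  hS := one_le_pow₀ (by norm_num)
  ht := h.thpos
  ht1 := h.th1.le

theorem InsH.parB {I : Ins k N n P Ξ} {p eps0 : ℝ} (h : InsH I p eps0) :
    Par (CB n) I.r p (I.q : ℝ) (2 ^ I.hh) I.th where
  hC := CB_one n
  hr := h.rpos
  hr1 := h.r1
  hp := h.p0
  hq := Nat.cast_nonneg _
  hS := one_le_pow₀ (by norm_num)
  ht := h.thpos
  ht1 := h.th1.le

/-- the budgets are monotone -/
theorem InsH.bud_mono {I : Ins k N n P Ξ} {p eps0 : ℝ} (h : InsH I p eps0) (j l : ℕ) (hjl : j ≤ l) :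
    I.bud p j ≤ I.bud p l := h.parB.Bk_mono hjl

theorem InsH.xt_nonneg {I : Ins k N n P Ξ} {p eps0 : ℝ} (h : InsH I p eps0) (j : ℕ) : 0 ≤ I.xt j := by
  have h1 := xk_nonneg h.thpos.le j
  have h2 := CX_one
  unfold Ins.xt Ins.SS
  exact mul_nonneg (mul_nonneg (by linarith) (by positivity)) h1

theorem InsH.xt_anti {I : Ins k N n P Ξ} {p eps0 : ℝ} (h : InsH I p eps0) (j l : ℕ) (hjl : j ≤ l) :
    I.xt l ≤ I.xt j := by
  have h1 := xk_anti h.thpos.le h.th1.le hjl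
  have h2 := CX_one
  have h3 : 0 ≤ CX * 2 ^ I.hh := mul_nonneg (by linarith) (by positivity)
  unfold Ins.xt Ins.SS
  exact mul_le_mul_of_nonneg_left h1 h3

theorem InsH.y0_nonneg {I : Ins k N n P Ξ} {p eps0 : ℝ} (h : InsH I p eps0) : 0 ≤ I.y0 := by
  have h1 := h.thpos; have h2 := h.rpos
  unfold Ins.y0
  positivity

/-- the process of the two exact points is the kernel -/
theorem Ins.X_top (I : Ins k N n P Ξ) (hwx : ∀ ξ, 0 ≤ I.wx ξ) (t : ℕ) (ω : S2 k N n P) :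
    I.sys.X ⊤ ⊤ t ω = I.K t (I.nu t ω) (va ω) (vb ω) := by
  have h1 : ∀ (F : Face k n P Ξ) (a : P × V k), mn (I.vc F t (I.nu t ω)) (I.clx F ⊤ t (I.nu t ω) a) =
      I.vc F t (I.nu t ω) a := by
    intro F a
    unfold Ins.clx mn
    rw [if_pos rfl, Finset.card_singleton, Finset.sum_singleton]
    simp
  show inner ℝ (mn (I.vc I.FA t (I.nu t ω)) (I.clx I.FA ⊤ t (I.nu t ω) (va ω)))
    (mn (I.vc I.FB t (I.nu t ω)) (I.clx I.FB ⊤ t (I.nu t ω) (vb ω))) = _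
  rw [h1, h1]
  unfold Ins.vc Ins.K
  exact GM99.inner_vecc _ (fun i x => wU_nonneg _ _ i x) _ hwx _ (fun z => uW_nonneg _ _ z) _ _ _

/-- THE THEOREM C2 FOR AN INSTANCE -/
theorem c2_ins (n : ℕ) : ∃ C : ℝ, 0 < C ∧ ∃ c : ℕ,
    ∀ {k N : ℕ} {P Ξ : Type} [Fintype P] [Nonempty P] [DecidableEq P] [Fintype Ξ] (I : Ins k N n P Ξ) (p eps0 : ℝ)
      (_ : InsH I p eps0)
      (_ : I.sys.Hyp (Pu k N n P) I.T I.L I.r (I.q : ℝ) I.y0 (2 ^ n * p) I.xt (I.bud p) (I.nr p))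
      (_ : ((I.T + 1 : ℕ) : ℝ) * xk I.th I.L ≤ I.th),
      (Pu k N n P).Pr (fun ω => ∃ t ≤ I.T, 2 * I.r ≤ I.K t (I.nu t ω) (va ω) (vb ω)) ≤
        C * Qb I.r p I.q (2 ^ I.hh) ^ c * (I.th * (1 + Real.log (1 / I.th))) := by
  obtain ⟨C, hC, c, H⟩ := c2_abs (C1n n) 1 (C1n_one n)
  refine ⟨C, hC, c, ?_⟩
  intro k N P Ξ _ _ _ _ I p eps0 h hyp hL
  have hp := h.par
  have hQ := hp.one_le_Qb
  have hCX := CX_one
  have hCB := CB_one n
  have h2n : (1 : ℝ) ≤ 2 ^ n := one_le_pow₀ (by norm_num)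
  have hC1 : C1n n = CX + CB n + 2 ^ n + 10 := rfl
  have hth := h.thpos
  have hr := h.rpos
  have hS := hp.S_le
  have hB : ∀ l, I.bud p l ≤ Bk (C1n n) I.r p I.th l := fun l =>
    h.parB.Bk_mono_C (by rw [hC1]; linarith) l
  have hB0 : ∀ l, 0 ≤ Bk (C1n n) I.r p I.th l := fun l => hp.Bk_nonneg l
  have hbud0 : ∀ l, 0 ≤ I.bud p l := fun l => h.parB.Bk_nonneg l
  have hx : ∀ j, I.xt j ≤ C1n n * Qb I.r p I.q (2 ^ I.hh) ^ 1 * xk I.th j := by
    intro j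
    have h1 := xk_nonneg hth.le j
    unfold Ins.xt Ins.SS
    have h2 : CX * 2 ^ I.hh ≤ C1n n * Qb I.r p I.q (2 ^ I.hh) ^ 1 := by
      rw [pow_one]
      exact mul_le_mul (by rw [hC1]; linarith) hS (by positivity) (by linarith)
    exact mul_le_mul_of_nonneg_right h2 h1
  have hres := H I.sys (Pu k N n P) I.T I.L I.r p (I.q : ℝ) (2 ^ I.hh) I.th (I.q : ℝ) I.y0 (2 ^ n * p) I.xt (I.bud p)
    (I.nr p) hp hyp ?_ ?_ ?_ (fun j _ => hx j) ?_ ?_ hL
  · refine le_trans (le_of_eq ?_) hres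
    refine (Pu k N n P).Pr_congr fun ω _ => ?_
    refine exists_congr fun t => and_congr Iff.rfl ?_
    rw [I.X_top h.wx0]
  · have h1 := hp.q_le
    rw [pow_one]
    nlinarith
  · have h1 := hp.inv_r_le
    unfold Ins.y0
    rw [pow_one]
    have h2 : 10 * I.th / I.r = 10 * (1 / I.r) * I.th := by ring
    rw [h2]
    refine mul_le_mul_of_nonneg_right ?_ hth.le
    have h3 : 0 ≤ 1 / I.r := by positivity
    exact mul_le_mul (by rw [hC1]; linarith) h1 h3 (by linarith)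
  · have h1 := hp.p_le
    have h2 := h.p0
    rw [pow_one]
    exact mul_le_mul (by rw [hC1]; linarith) (by linarith) h2 (by linarith)
  · intro l _
    have h1 := hB l
    have h2 := hB0 l
    rw [pow_one]
    have h3 : 1 ≤ C1n n * Qb I.r p I.q (2 ^ I.hh) := one_le_mul_of_one_le_of_one_le (C1n_one n) hQ
    nlinarith
  · intro j l hlj _
    unfold Ins.nr
    have h1 := hx j
    have h2 : I.bud p l ≤ (1 + Bk (C1n n) I.r p I.th j) ^ 1 := by
      rw [pow_one]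
      have := hB l
      have := hp.Bk_mono hlj
      linarith
    have h3 := xk_nonneg hth.le j
    calc I.xt j * I.bud p l ≤ (C1n n * Qb I.r p I.q (2 ^ I.hh) ^ 1 * xk I.th j) * (1 + Bk (C1n n) I.r p I.th j) ^ 1 :=
          mul_le_mul h1 h2 (hbud0 l) (by
            have := C1n_one n
            have : 0 ≤ C1n n := by linarith
            have : 0 ≤ Qb I.r p I.q (2 ^ I.hh) := by linarith
            positivity)
      _ = C1n n * Qb I.r p I.q (2 ^ I.hh) ^ 1 * (1 + Bk (C1n n) I.r p I.th j) ^ 1 * xk I.th j := by ring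

/-- the same instance with the maximal depth `L` -/
def Ins.wL (I : Ins k N n P Ξ) (L : ℕ) : Ins k N n P Ξ := { I with L := L }

theorem InsH.wL {I : Ins k N n P Ξ} {p eps0 : ℝ} (h : InsH I p eps0) (L : ℕ) : InsH (I.wL L) p eps0 where
  hN := h.hN
  hn := h.hn
  hh := h.hh
  q1 := h.q1
  eps00 := h.eps00
  rr := h.rr
  rpos := h.rpos
  r1 := h.r1
  thpos := h.thpos
  th1 := h.th1
  p0 := h.p0
  wx0 := h.wx0
  wx1 := h.wx1
  a := ⟨h.a.le, h.a.ver, h.a.pt⟩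
  b := ⟨h.b.le, h.b.ver, h.b.pt⟩

/-- THE THEOREM C2, final form: from the assembly `hasm` (all fields of `Sys.Hyp` for every instance) -/
theorem c2_fin (n : ℕ)
    (hasm : ∀ {k N : ℕ} {P Ξ : Type} [Fintype P] [Nonempty P] [DecidableEq P] [Fintype Ξ] (I : Ins k N n P Ξ)
      (p eps0 : ℝ), InsH I p eps0 →
      I.sys.Hyp (Pu k N n P) I.T I.L I.r (I.q : ℝ) I.y0 (2 ^ n * p) I.xt (I.bud p) (I.nr p)) :
    ∃ C : ℝ, 0 < C ∧ ∃ c : ℕ,
    ∀ {k N : ℕ} {P Ξ : Type} [Fintype P] [Nonempty P] [DecidableEq P] [Fintype Ξ] (I : Ins k N n P Ξ) (p eps0 : ℝ),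
      InsH I p eps0 →
      (Pu k N n P).Pr (fun ω => ∃ t ≤ I.T, 2 * I.r ≤ I.K t (I.nu t ω) (va ω) (vb ω)) ≤
        C * Qb I.r p I.q (2 ^ I.hh) ^ c * (I.th * (1 + Real.log (1 / I.th))) := by
  obtain ⟨C, hC, c, H⟩ := c2_ins n
  refine ⟨C, hC, c, ?_⟩
  intro k N P Ξ _ _ _ _ I p eps0 h
  obtain ⟨L, hL⟩ := exists_depth (K' := ((I.T + 1 : ℕ) : ℝ)) h.thpos h.th1
  have hw := h.wL L
  exact H (I.wL L) p eps0 hw (hasm (I.wL L) p eps0 hw) hL

end

end Pool.Agent.GMC
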