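import Pool.Agent.GMC.Swap
import Pool.Agent.GMC.IA
import Pool.Agent.GMC.IB
import Pool.Agent.GMC.IH
import Pool.Agent.GMC.IR
import Pool.Agent.GMC.Num
import Pool.Agent.GMC.EnerX
import Pool.Agent.GMC.IC
import Pool.Agent.GMC.BiasI

/-!
# GMC/Asm: assembly of `Sys.Hyp` for the instance (helper41)
-/

set_option autoImplicit false
set_option linter.unusedSectionVars false

namespace Pool.Agent.GMC

open Finset Pool.Agent.PWZ Pool.Agent.M3 Pool.Agent.M3.Bin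

noncomputable section

variable {k N n : ℕ} {P Ξ : Type} [Fintype P] [Nonempty P] [DecidableEq P] [Fintype Ξ]

theorem Ins.hypS (I : Ins k N n P Ξ) {p eps0 : ℝ} (h : InsH I p eps0) :
    I.sys.HypS (Pu k N n P) I.T I.L I.q I.y0 (2 ^ n * p) I.xt (I.bud p) where
  nuF := I.sys_nuF
  DF := I.sys_DF
  nuD := I.sys_nuD h
  D01 := I.sys_D01
  XF := I.sys_XF
  X0 := I.sys_X0 h
  X1 := I.sys_X1 h
  Y1 := I.sys_Y1 h
  q0 := Nat.cast_nonneg _
  psd := I.sys_psd h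
  loss := I.sys_loss h
  bud_mono := I.bud_mono h
  bv0 := I.bv0 h
  x0 := I.x0 h
  x_anti := I.x_anti h
  y00 := I.y00 h

/-- the class process of the A side -/
theorem Ins.hypCA (I : Ins k N n P Ξ) {p eps0 : ℝ} (h : InsH I p eps0) :
    CSys.Hyp (Pu k N n P) (I.Y I.FA) I.T va I.nu (I.cst I.FA) (2 ^ (n + 1) * p) :=
  Ins.hypA h

theorem Ins.hA (I : Ins k N n P Ξ) {p eps0 : ℝ} (h : InsH I p eps0) :
    I.sys.HypA (Pu k N n P) I.T I.L I.r I.y0 (2 ^ n * p) I.xt (I.bud p) (I.nr p) where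
  refA := I.sys_refA h
  nestA := I.sys_nestA
  fairA := I.sys_fairA h
  contA := Ins.sys_contA h
  entAF := Ins.sys_entAF
  entAtop := Ins.sys_entAtop
  entAmono := Ins.sys_entAmono
  dA0 := Ins.sys_dA0 h
  dAF := Ins.sys_dAF
  bAF := fun i _ t _ v w hvw => by
    have h0 := (I.GA_iff t v w).1 hvw
    have h1 : I.nu t v = I.nu t w := congrArg Prod.fst h0
    have h2 : va v = va w := congrArg Prod.snd h0
    show I.bb2 I.FA i t (I.nu t v) (va v) = I.bb2 I.FA i t (I.nu t w) (va w)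
    rw [h1, h2]
  biasA := fun i _ t ht w _ => I.biasA h i ht w
  sbA := fun i _ => I.sbA h (I.hypCA h) i
  seA := Ins.sys_seA h
  sdA := Ins.sys_sdA h
  svA := sys_svA h
  exA_le := Ins.sys_exA_le h
  exA_reg := Ins.sys_exA_reg h
  exA_nr := Ins.sys_exA_nr h (fun l _ => I.sbA h (I.hypCA h) l)
  rarA := fun i _ t _ w _ => I.sys_rarA h i t w

/-- ALL HYPOTHESES of the abstract theorem hold for the instance -/
theorem Ins.hyp (I : Ins k N n P Ξ) {p eps0 : ℝ} (h : InsH I p eps0) :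
    I.sys.Hyp (Pu k N n P) I.T I.L I.r I.q I.y0 (2 ^ n * p) I.xt (I.bud p) (I.nr p) :=
  I.hyp_of_A (I.hypS h) (I.hA h) (I.swap.hA h.swap)

/-- THEOREM C2 (pairs are cold, every m) in the model `S2` with coins -/
theorem c2_main (n : ℕ) : ∃ C : ℝ, 0 < C ∧ ∃ c : ℕ,
    ∀ {k N : ℕ} {P Ξ : Type} [Fintype P] [Nonempty P] [DecidableEq P] [Fintype Ξ] (I : Ins k N n P Ξ) (p eps0 : ℝ),
      InsH I p eps0 →
      (Pu k N n P).Pr (fun w => ∃ t ≤ I.T, 2 * I.r ≤ I.K t (I.nu t w) (va w) (vb w)) ≤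
        C * Qb I.r p I.q (2 ^ I.hh) ^ c * (I.th * (1 + Real.log (1 / I.th))) :=
  c2_fin n fun I _ _ h => I.hyp h

end

end Pool.Agent.GMC
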