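import Pool.Agent.M3.Bin.Defs

/-!
# Two shifted grids and the biases of the bits (C2.2 (e))

* `gp k s v` = position of `v` in the grid `s` (`s = 0`: shift `0`, `s = 1`: shift `[2^k / 3]`), the cell of length `2^e`
  is `gp k s v / 2^e`.  `arc_cell`: every arc of length `l`, `4 l ≤ 2^e`, `e ≤ k`, lies in one cell of one of the two grids.
* `Kok`: the weighted average of every function over the cell of `v0` differs from the uniform average by at most
  `TV f * D`.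
* `bias_kernel`: `psi`, `phi` supported in an arc, `sum psi = 2^e / 128`, `sum phi = 0`, variations `≤ 2`, `≤ 4`:
  `|sum m phi| ≤ 1024 * D * sum m psi`.
* `bias_avg`: the averaged form.
-/

set_option autoImplicit false

namespace Pool.Agent.GMC

open Finset Pool.Agent.M3.Bin

noncomputable section

variable {k : ℕ}

/-- shift of the grid `s` -/
def gsh (k : ℕ) (s : Fin 2) : V k := if s = 0 then 0 else ((2 ^ k / 3 : ℕ) : V k)

/-- position in the grid `s` -/
def gp (k : ℕ) (s : Fin 2) (v : V k) : ℕ := (v - gsh k s).val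

theorem gp_lt (s : Fin 2) (v : V k) : gp k s v < 2 ^ k := ZMod.val_lt _

/-- the point with a given position -/
theorem gp_inv (s : Fin 2) (v : V k) : (gp k s v : V k) + gsh k s = v := by
  unfold gp
  rw [ZMod.natCast_zmod_val]; ring

theorem gp_add (s : Fin 2) (v : V k) {i : ℕ} (h : gp k s v + i < 2 ^ k) :
    gp k s (v + (i : V k)) = gp k s v + i := by
  unfold gp at h ⊢
  have e1 : v + (i : V k) - gsh k s = (((v - gsh k s).val + i : ℕ) : V k) := by
    push_cast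
    rw [ZMod.natCast_zmod_val]; ring
  rw [e1, ZMod.val_cast_of_lt h]

/-- arithmetic of the two shifts -/
theorem two_grids {k e u w l : ℕ} (he : e ≤ k) (hu : (w + 2 ^ k / 3) % 2 ^ k = u) (hl : 4 * l ≤ 2 ^ e) :
    u % 2 ^ e + l ≤ 2 ^ e ∨ w % 2 ^ e + l ≤ 2 ^ e := by
  by_contra hc
  push Not at hc
  obtain ⟨h0, h1⟩ := hc
  set c := 2 ^ k / 3 with hcdef
  set E := 2 ^ e with hE
  have hEpos : 0 < E := by positivity
  obtain ⟨M, hM⟩ : ∃ M, 2 ^ k = E * M := ⟨2 ^ (k - e), by rw [hE, ← pow_add]; congr 1; omega⟩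
  have hmod : u % E = (w % E + c % E) % E := by
    rw [← hu, hM, Nat.mod_mul_right_mod, Nat.add_mod]
  have h3 : 2 ^ k = 3 * c + 2 ^ k % 3 := by rw [hcdef]; omega
  have h3' : 2 ^ k % 3 ≠ 0 := by
    intro h
    have h4 := (Nat.Prime.dvd_of_dvd_pow Nat.prime_three (Nat.dvd_of_mod_eq_zero h))
    omega
  have h3'' : 2 ^ k % 3 < 3 := Nat.mod_lt _ (by norm_num)
  set δ := 2 ^ k % 3 with hδ
  set c' := c % E with hc'
  have hcE : c' < E := Nat.mod_lt _ hEpos
  have hw : w % E < E := Nat.mod_lt _ hEpos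
  have hdiv : E ∣ 3 * c' + δ := by
    have h5 : 3 * c' + δ + E * (3 * (c / E)) = E * M := by
      rw [← hM, h3]
      have := Nat.div_add_mod c E
      rw [← hc'] at this
      nlinarith
    have h6 : E ∣ (3 * c' + δ + E * (3 * (c / E))) := by rw [h5]; exact Dvd.intro _ rfl
    exact (Nat.dvd_add_left (Dvd.intro _ rfl)).mp h6
  rcases lt_or_ge (w % E + c') E with h7 | h7
  · rw [Nat.mod_eq_of_lt h7] at hmod
    have h8 : 3 * c' + δ < E := by omega
    have := Nat.le_of_dvd (by omega) hdiv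
    omega
  · have h8 : (w % E + c') % E = w % E + c' - E := by
      rw [Nat.mod_eq_sub_mod h7, Nat.mod_eq_of_lt (by omega)]
    rw [h8] at hmod
    have h9 : E - c' < l := by omega
    have h10 : 3 * c' + δ = 3 * E - (3 * (E - c') - δ) := by omega
    have hdiv2 : E ∣ 3 * (E - c') - δ := by
      rw [h10] at hdiv
      have h11 : E ∣ 3 * E := Dvd.intro_left _ rfl
      exact (Nat.dvd_sub_iff_right (by omega) h11).mp hdiv
    have := Nat.le_of_dvd (by omega) hdiv2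
    omega

/-- every short arc lies in a cell of one of the two grids -/
theorem arc_cell {e l : ℕ} (he : e ≤ k) (hl : 4 * l ≤ 2 ^ e) (x : V k) :
    ∃ s : Fin 2, ∀ i < l, gp k s (x + (i : V k)) = gp k s x + i ∧
      gp k s (x + (i : V k)) / 2 ^ e = gp k s x / 2 ^ e := by
  have hmain : ∃ s : Fin 2, gp k s x % 2 ^ e + l ≤ 2 ^ e := by
    have h := two_grids (k := k) (u := gp k 0 x) (w := gp k 1 x) he ?_ hl
    · rcases h with h | h
      · exact ⟨0, h⟩
      · exact ⟨1, h⟩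
    · have h1 : ((gp k 1 x + 2 ^ k / 3 : ℕ) : V k) = x := by
        have := gp_inv 1 x
        unfold gsh at this
        push_cast at this ⊢
        simpa using this
      have h2 : gp k 0 x = x.val := by unfold gp gsh; simp
      have h3 := congrArg ZMod.val h1
      rw [ZMod.val_natCast] at h3
      rw [h2, h3]
  obtain ⟨s, hs⟩ := hmain
  refine ⟨s, fun i hi => ?_⟩
  have hEpos : 0 < 2 ^ e := by positivity
  have hd := Nat.div_add_mod (gp k s x) (2 ^ e)
  have hlt : gp k s x + i < 2 ^ k := by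
    have h1 : gp k s x / 2 ^ e < 2 ^ (k - e) := by
      rw [Nat.div_lt_iff_lt_mul hEpos, ← pow_add, show k - e + e = k by omega]
      exact gp_lt s x
    have h2 : 2 ^ k = 2 ^ e * 2 ^ (k - e) := by rw [← pow_add]; congr 1; omega
    rw [h2]
    have h3 : 2 ^ e * (gp k s x / 2 ^ e + 1) ≤ 2 ^ e * 2 ^ (k - e) := Nat.mul_le_mul_left _ h1
    rw [Nat.mul_add, Nat.mul_one] at h3
    omega
  have h1 := gp_add s x hlt
  refine ⟨h1, ?_⟩
  rw [h1]
  have h4 : gp k s x + i = (gp k s x % 2 ^ e + i) + 2 ^ e * (gp k s x / 2 ^ e) := by omega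
  rw [h4, Nat.add_mul_div_left _ _ hEpos, Nat.div_eq_of_lt (by omega), zero_add]

/-- the cell of length `2^e` of `v0` in the grid `s` -/
def gc (k : ℕ) (s : Fin 2) (e : ℕ) (v0 : V k) : Finset (V k) :=
  univ.filter fun v => gp k s v / 2 ^ e = gp k s v0 / 2 ^ e

theorem mem_gc {s : Fin 2} {e : ℕ} {v0 v : V k} : v ∈ gc k s e v0 ↔ gp k s v / 2 ^ e = gp k s v0 / 2 ^ e := by
  unfold gc; simp

/-- total variation on the circle -/
def TV (f : V k → ℝ) : ℝ := ∑ v, |f (v + 1) - f v|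

theorem TV_nonneg (f : V k → ℝ) : 0 ≤ TV f := Finset.sum_nonneg fun _ _ => abs_nonneg _

/-- discrepancy bound for the weights `m` in the cell of `v0` -/
def Kok (m : V k → ℝ) (s : Fin 2) (e : ℕ) (v0 : V k) (D : ℝ) : Prop :=
  ∀ f : V k → ℝ, |(∑ v ∈ gc k s e v0, m v * f v) / (∑ v ∈ gc k s e v0, m v) -
    (∑ v ∈ gc k s e v0, f v) / 2 ^ e| ≤ TV f * D

/-- `psi` and `phi` vanish outside the arc -/
def SuppArc (f : V k → ℝ) (x : V k) (l : ℕ) : Prop := ∀ v, f v ≠ 0 → ∃ i < l, v = x + (i : V k)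

theorem sum_gc_eq {f : V k → ℝ} {x : V k} {l e : ℕ} {s : Fin 2} (hf : SuppArc f x l)
    (hs : ∀ i < l, gp k s (x + (i : V k)) / 2 ^ e = gp k s x / 2 ^ e) {i0 : ℕ} (hi0 : i0 < l)
    (m : V k → ℝ) : ∑ v ∈ gc k s e (x + (i0 : V k)), m v * f v = ∑ v, m v * f v := by
  refine Finset.sum_subset (Finset.subset_univ _) fun v _ hv => ?_
  by_contra h
  have h1 : f v ≠ 0 := fun h0 => h (by rw [h0, mul_zero])
  obtain ⟨i, hi, rfl⟩ := hf v h1
  exact hv (mem_gc.mpr ((hs i hi).trans (hs i0 hi0).symm))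

/-- the bias of a bit, unnormalised form -/
theorem bias_kernel {e l : ℕ} (he : e ≤ k) (hl : 4 * l ≤ 2 ^ e) {m psi phi : V k → ℝ} (hm : ∀ v, 0 ≤ m v)
    {x : V k} (hψ : SuppArc psi x l) (hφ : SuppArc phi x l)
    (hψ1 : ∑ v, psi v = 2 ^ e / 128) (hφ0 : ∑ v, phi v = 0) (hTψ : TV psi ≤ 2) (hTφ : TV phi ≤ 4)
    (hle : |∑ v, m v * phi v| ≤ ∑ v, m v * psi v) {i0 : ℕ} (hi0 : i0 < l) {D : ℝ} (hD : 0 ≤ D)
    (hK : ∀ s, Kok m s e (x + (i0 : V k)) D) :
    |∑ v, m v * phi v| ≤ 1024 * D * ∑ v, m v * psi v := by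
  obtain ⟨s, hs⟩ := arc_cell he hl x
  have hs' : ∀ i < l, gp k s (x + (i : V k)) / 2 ^ e = gp k s x / 2 ^ e := fun i hi => (hs i hi).2
  have h1 := hK s psi
  have h2 := hK s phi
  have e1 := sum_gc_eq hψ hs' hi0 m
  have e2 := sum_gc_eq hφ hs' hi0 m
  have e3 : ∑ v ∈ gc k s e (x + (i0 : V k)), psi v = ∑ v, psi v := by
    have := sum_gc_eq hψ hs' hi0 (fun _ => 1)
    simpa using this
  have e4 : ∑ v ∈ gc k s e (x + (i0 : V k)), phi v = ∑ v, phi v := by
    have := sum_gc_eq hφ hs' hi0 (fun _ => 1)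
    simpa using this
  rw [e1, e3, hψ1] at h1
  rw [e2, e4, hφ0, zero_div, sub_zero] at h2
  have e5 : (2 : ℝ) ^ e / 128 / 2 ^ e = 1 / 128 := by field_simp
  rw [e5] at h1
  set A := ∑ v, m v * psi v
  set B := ∑ v, m v * phi v
  set W := ∑ v ∈ gc k s e (x + (i0 : V k)), m v with hW
  have hW0 : 0 ≤ W := Finset.sum_nonneg fun v _ => hm v
  rcases hW0.eq_or_lt with hW00 | hWpos
  · -- no mass in the cell
    have hz : ∀ v ∈ gc k s e (x + (i0 : V k)), m v = 0 :=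
      (Finset.sum_eq_zero_iff_of_nonneg fun v _ => hm v).mp hW00.symm
    have hB : B = 0 := by
      rw [← e2]
      exact Finset.sum_eq_zero fun v hv => by rw [hz v hv, zero_mul]
    have hA : 0 ≤ A := (abs_nonneg _).trans hle
    rw [hB, abs_zero]; positivity
  have h1' : |A / W - 1 / 128| ≤ 2 * D := h1.trans (mul_le_mul_of_nonneg_right hTψ hD)
  have h2' : |B / W| ≤ 4 * D := h2.trans (mul_le_mul_of_nonneg_right hTφ hD)
  rw [abs_div, abs_of_pos hWpos, div_le_iff₀ hWpos] at h2'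
  have h3 := (abs_le.mp h1').1
  have h4 : 1 / 128 - 2 * D ≤ A / W := by linarith
  rw [le_div_iff₀ hWpos] at h4
  have hA0 : 0 ≤ A := (abs_nonneg _).trans hle
  rcases le_or_gt D (1 / 512) with hD1 | hD1
  · have h5 : 1 / 256 * W ≤ A := by nlinarith
    calc |B| ≤ 4 * D * W := h2'
      _ = 1024 * D * (1 / 256 * W) := by ring
      _ ≤ 1024 * D * A := mul_le_mul_of_nonneg_left h5 (by positivity)
  · calc |B| ≤ A := hle
      _ = 1 * A := (one_mul _).symm
      _ ≤ 1024 * D * A := mul_le_mul_of_nonneg_right (by linarith) hA0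

variable {A B : Type*}

/-- the average over the compatible points, one known point -/
theorem bias_one (P : Finset A) {psi phi : A → ℝ} (hψ : ∀ a, 0 ≤ psi a) {K : ℝ} {D : A → ℝ}
    (h : ∀ a0 ∈ P, psi a0 ≠ 0 → |∑ a ∈ P, phi a| ≤ K * D a0 * ∑ a ∈ P, psi a)
    (habs : |∑ a ∈ P, phi a| ≤ ∑ a ∈ P, psi a) :
    (∑ a ∈ P, phi a) ^ 2 ≤ (∑ a ∈ P, psi a) * (K ^ 2 * ∑ a ∈ P, psi a * D a ^ 2) := by
  set X := ∑ a ∈ P, phi a
  set Y := ∑ a ∈ P, psi a with hY
  have hY0 : 0 ≤ Y := Finset.sum_nonneg fun a _ => hψ a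
  rcases hY0.eq_or_lt with h0 | hYpos
  · have hX : X = 0 := by
      rw [← h0] at habs
      exact abs_eq_zero.mp (le_antisymm habs (abs_nonneg _))
    rw [hX, ← h0]; simp
  have h1 : Y * X ^ 2 ≤ Y * (Y * (K ^ 2 * ∑ a ∈ P, psi a * D a ^ 2)) := by
    have h2 : ∀ a ∈ P, psi a * X ^ 2 ≤ psi a * (K ^ 2 * D a ^ 2 * Y ^ 2) := by
      intro a ha
      by_cases hz : psi a = 0
      · rw [hz, zero_mul, zero_mul]
      · refine mul_le_mul_of_nonneg_left ?_ (hψ a)
        have h3 := h a ha hz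
        have h4 := pow_le_pow_left₀ (abs_nonneg _) h3 2
        rw [sq_abs] at h4
        calc X ^ 2 ≤ _ := h4
          _ = _ := by ring
    have h5 := Finset.sum_le_sum h2
    rw [← Finset.sum_mul, ← hY] at h5
    refine h5.trans (le_of_eq ?_)
    rw [Finset.mul_sum, Finset.mul_sum, Finset.mul_sum]
    refine Finset.sum_congr rfl fun a _ => ?_
    ring
  exact le_of_mul_le_mul_left h1 hYpos

/-- the averaged form, both classes -/
theorem bias_avg (P : Finset A) (P' : Finset B) {psi phi : A → B → ℝ} (hψ : ∀ a b, 0 ≤ psi a b) {K : ℝ}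
    {D : A → ℝ}
    (h : ∀ b ∈ P', ∀ a0 ∈ P, psi a0 b ≠ 0 → |∑ a ∈ P, phi a b| ≤ K * D a0 * ∑ a ∈ P, psi a b)
    (habs : ∀ b ∈ P', |∑ a ∈ P, phi a b| ≤ ∑ a ∈ P, psi a b) :
    (∑ b ∈ P', ∑ a ∈ P, phi a b) ^ 2 ≤
      (∑ b ∈ P', ∑ a ∈ P, psi a b) * (K ^ 2 * ∑ b ∈ P', ∑ a ∈ P, psi a b * D a ^ 2) := by
  have h1 : ∀ b ∈ P', (∑ a ∈ P, phi a b) ^ 2 ≤
      (∑ a ∈ P, psi a b) * (K ^ 2 * ∑ a ∈ P, psi a b * D a ^ 2) := fun b hb =>
    bias_one P (fun a => hψ a b) (h b hb) (habs b hb)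
  have h2 := Finset.sum_sq_le_sum_mul_sum_of_sq_le_mul P' (r := fun b => ∑ a ∈ P, phi a b)
    (f := fun b => ∑ a ∈ P, psi a b) (g := fun b => K ^ 2 * ∑ a ∈ P, psi a b * D a ^ 2)
    (fun b _ => Finset.sum_nonneg fun a _ => hψ a b)
    (fun b _ => mul_nonneg (sq_nonneg K) (Finset.sum_nonneg fun a _ => mul_nonneg (hψ a b) (sq_nonneg _)))
    h1
  refine h2.trans (le_of_eq ?_)
  rw [← Finset.mul_sum]

end

end Pool.Agent.GMC
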