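import Pool.Agent.GMC.Mod
import Pool.Agent.GMC.BiasF

/-!
# GMC/BiasM: biases of the bits in the model of C2 (helper24)

Configuration `c`, step `st` from `up st c` to `c`, node `ν = Nc (up st c) ω0`, `sb st c ω` = the bit as a sign.
`bias_A`: given (node, class of `a`, `b` exactly) the bias of the bit satisfies
`bias^2 ≤ 2^20 * D2 (unif (P × V k)) (cls ν) snd (e0 + 7) (va ω0)`, `e0` = exponent of the window at `ν`, provided
`e0 + 7 ≤ k`, scales `s i ≤ k` and `sum (2^(s i) - 1) ≤ 31 * 2^e0`; `bias_B` with `a` and `b` exchanged.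
-/

set_option autoImplicit false
set_option linter.unusedSectionVars false

namespace Pool.Agent.GMC

open Finset Pool.Agent.PWZ Pool.Agent.M3 Pool.Agent.M3.Bin Pool.Agent.M3.Mod

noncomputable section

variable {k N n : ℕ} {P : Type} [Fintype P] [Nonempty P]

/-- the bit as a sign -/
def sb (st : Option (Fin n)) (c : Cfg n) (ω : S2 k N n P) : ℝ := if bs st c ω = 0 then 1 else -1

/-- the sign as a function of the next node -/
def sbn (st : Option (Fin n)) (c : Cfg n) (ν : Nd k n) : ℝ :=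
  @ite ℝ (ν = chd st c 0 (prt st c ν)) (Classical.propDecidable _) 1 (-1)

omit [Fintype P] [Nonempty P] in
theorem sb_eq {st : Option (Fin n)} {c : Cfg n} (hok : Ok k N st c) (ω : S2 k N n P) :
    sb st c ω = sbn st c (Nc c ω) := by
  unfold sb sbn
  rw [prt_Nc]
  have h1 := Nc_eq st c ω
  have h2 := bs_lt st c ω
  have h3 := chd_ne hok (Nc (up st c) ω)
  by_cases h : bs st c ω = 0
  · rw [h] at h1
    rw [if_pos h, if_pos h1]
  · have h4 : bs st c ω = 1 := by omega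
    rw [h4] at h1
    rw [if_neg h, if_neg]
    intro h5
    exact h3 (h5.symm.trans h1)

theorem sbn_chd {st : Option (Fin n)} {c : Cfg n} (hok : Ok k N st c) {ν : Nd k n}
    (hν : Val N (up st c).1 (up st c).2 ν) :
    sbn st c (chd st c 0 ν) = 1 ∧ sbn st c (chd st c 1 ν) = -1 := by
  unfold sbn
  rw [prt_chd hok hν (by norm_num), prt_chd hok hν (by norm_num)]
  refine ⟨if_pos rfl, if_neg ?_⟩
  intro h
  exact chd_ne hok ν h.symm

/-- the kernel of a node, as a function of the first vertex -/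
def psM (P : Type) [Fintype P] (c : Cfg n) (ν : Nd k n) (b v : V k) : ℝ :=
  (cnt P c.1 c.2 ν (v + b) : ℝ) / (fib P c.2 ν.2).card

/-- difference of the kernels of the two children -/
def phM (P : Type) [Fintype P] (st : Option (Fin n)) (c : Cfg n) (ν : Nd k n) (b v : V k) : ℝ :=
  ((cnt P c.1 c.2 (chd st c 0 ν) (v + b) : ℝ) - cnt P c.1 c.2 (chd st c 1 ν) (v + b)) /
    (fib P (up st c).2 ν.2).card

theorem sum_shift (f : V k → ℝ) (b : V k) : ∑ v, f (v + b) = ∑ v, f v :=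
  Equiv.sum_comp (Equiv.addRight b) f

theorem TV_shift (f : V k → ℝ) (b : V k) : TV (fun v => f (v + b)) = TV f := by
  unfold TV
  rw [← sum_shift (fun v => |f (v + 1) - f v|) b]
  refine Finset.sum_congr rfl fun v _ => ?_
  simp only
  rw [add_right_comm]

/-- sum of the kernel -/
theorem sum_psM {c : Cfg n} (he : c.1 ≤ k) (hs : ∀ i, c.2 i ≤ k) (ν : Nd k n) (b : V k) :
    ∑ v, psM P c ν b v = 2 ^ c.1 := by
  unfold psM
  rw [← Finset.sum_div, sum_shift (fun v => (cnt P c.1 c.2 ν v : ℝ)) b]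
  have h := sum_cnt_V (P := P) he c.2 ν
  have h1 : ∑ v : V k, (cnt P c.1 c.2 ν v : ℝ) = 2 ^ c.1 * (fib P c.2 ν.2).card := by exact_mod_cast h
  have h2 : ((fib P c.2 ν.2).card : ℝ) ≠ 0 := Nat.cast_ne_zero.mpr (card_fib_pos hs ν.2).ne'
  rw [h1]
  field_simp

theorem TV_psM {c : Cfg n} (hs : ∀ i, c.2 i ≤ k) (ν : Nd k n) (b : V k) : TV (psM P c ν b) ≤ 2 := by
  refine (TV_shift (fun v => (cnt P c.1 c.2 ν v : ℝ) / (fib P c.2 ν.2).card) b).le.trans ?_
  unfold TV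
  have h2 : (0 : ℝ) < (fib P c.2 ν.2).card := Nat.cast_pos.mpr (card_fib_pos hs ν.2)
  have h3 := var_cnt (P := P) c.1 c.2 ν
  have h4 : ∀ v : V k, |(cnt P c.1 c.2 ν (v + 1) : ℝ) / (fib P c.2 ν.2).card -
      (cnt P c.1 c.2 ν v : ℝ) / (fib P c.2 ν.2).card| =
      |(cnt P c.1 c.2 ν (v + 1) : ℝ) - cnt P c.1 c.2 ν v| / (fib P c.2 ν.2).card := by
    intro v
    rw [← sub_div, abs_div, abs_of_pos h2]
  simp only [h4]
  rw [← Finset.sum_div, div_le_iff₀ h2]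
  exact h3

theorem card_fib_le {s s' : Fin n → ℕ} (hs : ∀ i, s i ≤ k) (hs' : ∀ i, s' i ≤ k) (h : ∀ i, s i ≤ s' i)
    (c c' : Fin n → V k) : (fib P s c).card ≤ (fib P s' c').card := by
  rw [card_fib hs, card_fib hs']
  exact Finset.prod_le_prod' fun i _ => Nat.mul_le_mul_left _ (Nat.pow_le_pow_right (by norm_num) (h i))

theorem card_fib_eq {s : Fin n → ℕ} (hs : ∀ i, s i ≤ k) (c c' : Fin n → V k) :
    (fib P s c).card = (fib P s c').card := by
  rw [card_fib hs, card_fib hs]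

theorem sum_phM {st : Option (Fin n)} {c : Cfg n} (he : c.1 ≤ k) (hs : ∀ i, c.2 i ≤ k) (ν : Nd k n) (b : V k) :
    ∑ v, phM P st c ν b v = 0 := by
  unfold phM
  rw [← Finset.sum_div, Finset.sum_sub_distrib,
    sum_shift (fun v => (cnt P c.1 c.2 (chd st c 0 ν) v : ℝ)) b,
    sum_shift (fun v => (cnt P c.1 c.2 (chd st c 1 ν) v : ℝ)) b]
  have h0 := sum_cnt_V (P := P) he c.2 (chd st c 0 ν)
  have h1 := sum_cnt_V (P := P) he c.2 (chd st c 1 ν)
  rw [card_fib_eq hs _ (chd st c 0 ν).2] at h1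
  have h2 : ∑ v : V k, (cnt P c.1 c.2 (chd st c 0 ν) v : ℝ) = ∑ v : V k, (cnt P c.1 c.2 (chd st c 1 ν) v : ℝ) := by
    have : ∑ v : V k, cnt P c.1 c.2 (chd st c 0 ν) v = ∑ v : V k, cnt P c.1 c.2 (chd st c 1 ν) v := by
      rw [h0, h1]
    exact_mod_cast this
  rw [h2, sub_self, zero_div]

theorem TV_phM {st : Option (Fin n)} {c : Cfg n} (hs : ∀ i, (up st c).2 i ≤ k) (ν : Nd k n) (b : V k) :
    TV (phM P st c ν b) ≤ 4 := by
  refine (TV_shift (fun v => ((cnt P c.1 c.2 (chd st c 0 ν) v : ℝ) -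
    cnt P c.1 c.2 (chd st c 1 ν) v) / (fib P (up st c).2 ν.2).card) b).le.trans ?_
  unfold TV
  have h2 : (0 : ℝ) < (fib P (up st c).2 ν.2).card := Nat.cast_pos.mpr (card_fib_pos hs ν.2)
  have h3 := var_cnt (P := P) c.1 c.2 (chd st c 0 ν)
  have h3' := var_cnt (P := P) c.1 c.2 (chd st c 1 ν)
  have hs' : ∀ i, c.2 i ≤ k := fun i => ((Nc_le_up st c).2 i).trans (hs i)
  have h5 : ((fib P c.2 (chd st c 0 ν).2).card : ℝ) ≤ (fib P (up st c).2 ν.2).card := by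
    exact_mod_cast card_fib_le hs' hs (Nc_le_up st c).2 _ _
  have h5' : ((fib P c.2 (chd st c 1 ν).2).card : ℝ) ≤ (fib P (up st c).2 ν.2).card := by
    exact_mod_cast card_fib_le hs' hs (Nc_le_up st c).2 _ _
  have h4 : ∀ v : V k, |((cnt P c.1 c.2 (chd st c 0 ν) (v + 1) : ℝ) - cnt P c.1 c.2 (chd st c 1 ν) (v + 1)) /
      (fib P (up st c).2 ν.2).card - ((cnt P c.1 c.2 (chd st c 0 ν) v : ℝ) - cnt P c.1 c.2 (chd st c 1 ν) v) /
      (fib P (up st c).2 ν.2).card| ≤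
      (|(cnt P c.1 c.2 (chd st c 0 ν) (v + 1) : ℝ) - cnt P c.1 c.2 (chd st c 0 ν) v| +
      |(cnt P c.1 c.2 (chd st c 1 ν) (v + 1) : ℝ) - cnt P c.1 c.2 (chd st c 1 ν) v|) /
        (fib P (up st c).2 ν.2).card := by
    intro v
    rw [← sub_div, abs_div, abs_of_pos h2]
    refine div_le_div_of_nonneg_right ?_ h2.le
    have h6 : (cnt P c.1 c.2 (chd st c 0 ν) (v + 1) : ℝ) - cnt P c.1 c.2 (chd st c 1 ν) (v + 1) -
        ((cnt P c.1 c.2 (chd st c 0 ν) v : ℝ) - cnt P c.1 c.2 (chd st c 1 ν) v) =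
        ((cnt P c.1 c.2 (chd st c 0 ν) (v + 1) : ℝ) - cnt P c.1 c.2 (chd st c 0 ν) v) -
        ((cnt P c.1 c.2 (chd st c 1 ν) (v + 1) : ℝ) - cnt P c.1 c.2 (chd st c 1 ν) v) := by ring
    rw [h6]
    exact abs_sub _ _
  refine (Finset.sum_le_sum fun v _ => h4 v).trans ?_
  rw [← Finset.sum_div, div_le_iff₀ h2, Finset.sum_add_distrib]
  linarith

theorem phM_le {st : Option (Fin n)} {c : Cfg n} (hok : Ok k N st c) (hc : (up st c).1 ≤ N) (hN : N ≤ k)
    {ν : Nd k n} (hν : Val N (up st c).1 (up st c).2 ν) (b v : V k) :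
    |phM P st c ν b v| ≤ psM P (up st c) ν b v := by
  unfold phM psM
  rw [abs_div, abs_of_nonneg (show (0 : ℝ) ≤ ((fib P (up st c).2 ν.2).card : ℝ) from Nat.cast_nonneg _)]
  refine div_le_div_of_nonneg_right ?_ (Nat.cast_nonneg _)
  rw [cnt_step hok hc hN hν]
  push_cast
  have h0 : (0 : ℝ) ≤ cnt P c.1 c.2 (chd st c 0 ν) (v + b) := Nat.cast_nonneg _
  have h1 : (0 : ℝ) ≤ cnt P c.1 c.2 (chd st c 1 ν) (v + b) := Nat.cast_nonneg _
  rw [abs_le]; constructor <;> linarith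

/-- length of the arc -/
def arcL (c : Cfg n) : ℕ := 2 ^ c.1 + ∑ i, (2 ^ (c.2 i) - 1)

/-- first point of the arc -/
def arc0 (c : Cfg n) (ν : Nd k n) : V k := ν.1.1 - ∑ i, flr (c.2 i) (ν.2 i) - ((arcL c - 1 : ℕ) : V k)

/-- the kernel lives on an arc -/
theorem supp_cnt (P : Type) [Fintype P] (c : Cfg n) (ν : Nd k n) {t : V k} (ht : cnt P c.1 c.2 ν t ≠ 0) :
    ∃ i < arcL c, t = arc0 c ν + (i : V k) := by
  unfold cnt at ht
  obtain ⟨o, ho⟩ := Finset.card_pos.mp (Nat.pos_of_ne_zero ht)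
  rw [Finset.mem_filter, mem_fib] at ho
  obtain ⟨hc, hv⟩ := ho
  have hso : so o = ∑ i, flr (c.2 i) (ν.2 i) + ((∑ i, (o i).2.val % 2 ^ (c.2 i) : ℕ) : V k) := by
    unfold so
    push_cast
    rw [← Finset.sum_add_distrib]
    refine Finset.sum_congr rfl fun i _ => ?_
    rw [← hc i]
    unfold flr
    rw [sub_add_cancel]
  have hu : ∑ i, (o i).2.val % 2 ^ (c.2 i) ≤ ∑ i, (2 ^ (c.2 i) - 1) :=
    Finset.sum_le_sum fun i _ => Nat.le_sub_one_of_lt (Nat.mod_lt _ (by positivity))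
  have ht' : t = ν.1.1 - so o - (((ν.1.1 - t - so o).val : ℕ) : V k) := by
    rw [ZMod.natCast_zmod_val]; ring
  obtain ⟨r, hr⟩ : ∃ r, r = (ν.1.1 - t - so o).val := ⟨_, rfl⟩
  rw [← hr] at hv ht'
  have hL : arcL c = 2 ^ c.1 + ∑ i, (2 ^ (c.2 i) - 1) := rfl
  have hp : 0 < 2 ^ c.1 := by positivity
  refine ⟨arcL c - 1 - (∑ i, (o i).2.val % 2 ^ (c.2 i) + r), by omega, ?_⟩
  have hle : ∑ i, (o i).2.val % 2 ^ (c.2 i) + r ≤ arcL c - 1 := by omega
  rw [Nat.cast_sub hle, ht', hso]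
  unfold arc0
  push_cast
  ring

theorem supp_psM (c : Cfg n) (ν : Nd k n) (b : V k) : SuppArc (psM P c ν b) (arc0 c ν - b) (arcL c) := by
  intro v hv
  unfold psM at hv
  have h1 : cnt P c.1 c.2 ν (v + b) ≠ 0 := by
    intro h0
    rw [h0] at hv
    simp at hv
  obtain ⟨i, hi, h2⟩ := supp_cnt P c ν h1
  refine ⟨i, hi, ?_⟩
  rw [← add_sub_cancel_right v b, h2]; ring

theorem supp_phM {st : Option (Fin n)} {c : Cfg n} (hok : Ok k N st c) (hc : (up st c).1 ≤ N) (hN : N ≤ k)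
    {ν : Nd k n} (hν : Val N (up st c).1 (up st c).2 ν) (b : V k) :
    SuppArc (phM P st c ν b) (arc0 (up st c) ν - b) (arcL (up st c)) := by
  intro v hv
  refine supp_psM (P := P) (up st c) ν b v ?_
  intro h0
  have h1 := phM_le (P := P) hok hc hN hν b v
  rw [h0] at h1
  exact hv (abs_eq_zero.mp (le_antisymm h1 (abs_nonneg _)))

/-- the sample point itself is compatible -/
theorem cnt_pos {e0 : ℕ} (he : e0 ≤ N) (hN : N ≤ k) (s : Fin n → ℕ) (ω0 : S2 k N n P) :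
    cnt P e0 s (Nn e0 s ω0) ((va ω0).2 + (vb ω0).2) ≠ 0 := by
  intro h0
  have h1 := card_node (P := P) he hN (val_Nn he s ω0) (va ω0) (vb ω0)
  rw [h0] at h1
  have h2 : ind ((va ω0 = va ω0 ∧ vb ω0 = vb ω0) ∧ Nn e0 s ω0 = Nn e0 s ω0) ≤
      ∑ ω : S2 k N n P, ind ((va ω = va ω0 ∧ vb ω = vb ω0) ∧ Nn e0 s ω = Nn e0 s ω0) :=
    Finset.single_le_sum (f := fun ω : S2 k N n P => ind ((va ω = va ω0 ∧ vb ω = vb ω0) ∧ Nn e0 s ω = Nn e0 s ω0))
      (fun _ _ => ind_nonneg _) (Finset.mem_univ ω0)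
  rw [h1, ind_of ⟨⟨rfl, rfl⟩, rfl⟩] at h2
  norm_num at h2

/-- hypotheses on a step -/
structure StepOk (k N : ℕ) (st : Option (Fin n)) (c : Cfg n) : Prop where
  ok : Ok k N st c
  le : (up st c).1 ≤ N
  nk : N ≤ k
  sc : ∀ i, (up st c).2 i ≤ k
  e7 : (up st c).1 + 7 ≤ k
  ar : ∑ i, (2 ^ ((up st c).2 i) - 1) ≤ 31 * 2 ^ (up st c).1

/-- static form: class `T` of the first vertex, `b` known, `a0` in the class and compatible -/
theorem bias_st {st : Option (Fin n)} {c : Cfg n} (h : StepOk k N st c) {ν : Nd k n}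
    (hν : Val N (up st c).1 (up st c).2 ν) {κ : Type*} (cls : P × V k → κ) {a0 : P × V k} {T : Finset (P × V k)}
    (hT : ∀ a, a ∈ T ↔ cls a = cls a0) {b : V k} (hcp : cnt P (up st c).1 (up st c).2 ν (a0.2 + b) ≠ 0) :
    |∑ a ∈ T, ((cnt P c.1 c.2 (chd st c 0 ν) (a.2 + b) : ℝ) - cnt P c.1 c.2 (chd st c 1 ν) (a.2 + b))| ≤
      1024 * Real.sqrt (D2 (FP.unif (P × V k)) cls Prod.snd ((up st c).1 + 7) a0) *
        ∑ a ∈ T, (cnt P (up st c).1 (up st c).2 ν (a.2 + b) : ℝ) := by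
  have hek : (up st c).1 ≤ k := h.le.trans h.nk
  have hs' : ∀ i, c.2 i ≤ k := fun i => ((Nc_le_up st c).2 i).trans (h.sc i)
  have hl : 4 * arcL (up st c) ≤ 2 ^ ((up st c).1 + 7) := by
    unfold arcL
    have := h.ar
    rw [pow_add]
    omega
  have hF : (0 : ℝ) < (fib P (up st c).2 ν.2).card := Nat.cast_pos.mpr (card_fib_pos h.sc ν.2)
  have hsum : ∑ v, psM P (up st c) ν b v = 2 ^ ((up st c).1 + 7) / 128 := by
    rw [sum_psM hek h.sc, pow_add]
    norm_num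
  obtain ⟨i, hi, hx⟩ := supp_cnt P (up st c) ν hcp
  have key := bias_unif (k := k) cls (Prod.snd : P × V k → V k) h.e7 hl (psi := psM P (up st c) ν b)
    (phi := phM P st c ν b) (x := arc0 (up st c) ν - b) (supp_psM (up st c) ν b) (supp_phM h.ok h.le h.nk hν b)
    hsum (sum_phM ((Nc_le_up st c).1.trans hek) hs' ν b) (TV_psM h.sc ν b) (TV_phM h.sc ν b)
    (phM_le h.ok h.le h.nk hν b) (a0 := a0)
    ⟨i, hi, by rw [← add_sub_cancel_right a0.2 b, hx]; ring⟩ hT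
  unfold psM phM at key
  rw [← Finset.sum_div, ← Finset.sum_div, abs_div, abs_of_pos hF, ← mul_div_assoc,
    div_le_div_iff_of_pos_right hF] at key
  exact key

/-- BIAS GIVEN (node, class of `a`, `b` exactly) -/
theorem bias_A {st : Option (Fin n)} {c : Cfg n} (h : StepOk k N st c) {κ : Type*}
    (cls : Nd k n → P × V k → κ) (ω0 : S2 k N n P) :
    (Pu k N n P).ce (fun ω => (Nc (up st c) ω, (cls (Nc (up st c) ω) (va ω), vb ω))) (sb st c) ω0 ^ 2 ≤
      2 ^ 20 * D2 (FP.unif (P × V k)) (cls (Nc (up st c) ω0)) Prod.snd ((up st c).1 + 7) (va ω0) := by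
  classical
  have hν : Val N (up st c).1 (up st c).2 (Nc (up st c) ω0) := val_Nn h.le _ ω0
  have hcp : cnt P (up st c).1 (up st c).2 (Nc (up st c) ω0) ((va ω0).2 + (vb ω0).2) ≠ 0 :=
    cnt_pos h.le h.nk _ ω0
  have hce := ce_ab_step (P := P) h.ok h.le h.nk (fun ν a b => (cls ν a, b)) (fun ν' _ _ => sbn st c ν') ω0
  have hfun : (fun ω : S2 k N n P => sbn st c (Nc c ω)) = sb st c := by
    funext ω
    exact (sb_eq h.ok ω).symm
  rw [hfun] at hce
  rw [hce]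
  set ν := Nc (up st c) ω0 with hνd
  obtain ⟨hb0, hb1⟩ := sbn_chd h.ok hν
  rw [hb0, hb1]
  set T : Finset (P × V k) := univ.filter fun a => cls ν a = cls ν (va ω0) with hTd
  have hT : ∀ a, a ∈ T ↔ cls ν a = cls ν (va ω0) := fun a => by rw [hTd, Finset.mem_filter]; simp
  have hsum : ∀ (g : P × V k → P × V k → ℝ) (r : ℝ),
      ∑ a, ∑ b, g a b * (ind ((cls ν a, b) = (cls ν (va ω0), vb ω0)) * r) = ∑ a ∈ T, g a (vb ω0) * r := by
    intro g r
    have h1 : ∀ a : P × V k, ∑ b, g a b * (ind ((cls ν a, b) = (cls ν (va ω0), vb ω0)) * r) =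
        g a (vb ω0) * (ind (cls ν a = cls ν (va ω0)) * r) := by
      intro a
      rw [Finset.sum_eq_single (vb ω0)]
      · congr 2
        refine congrArg _ (propext ?_)
        simp
      · intro b _ hb
        rw [ind_not (fun h' => hb (Prod.mk.injEq _ _ _ _ ▸ h' : _ ∧ _).2)]
        ring
      · intro h'
        exact absurd (Finset.mem_univ _) h'
    rw [Finset.sum_congr rfl fun a _ => h1 a, ← Finset.sum_subset (Finset.subset_univ T)]
    · refine Finset.sum_congr rfl fun a ha => ?_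
      rw [ind_of ((hT a).mp ha), one_mul]
    · intro a _ ha
      rw [ind_not (fun h' => ha ((hT a).mpr h'))]
      ring
  have hden : ∑ a, ∑ b, (cnt P (up st c).1 (up st c).2 ν (a.2 + b.2) : ℝ) *
      ind ((cls ν a, b) = (cls ν (va ω0), vb ω0)) =
      ∑ a ∈ T, (cnt P (up st c).1 (up st c).2 ν (a.2 + (vb ω0).2) : ℝ) := by
    have := hsum (fun a b => (cnt P (up st c).1 (up st c).2 ν (a.2 + b.2) : ℝ)) 1
    simpa using this
  rw [hsum (fun a b => (cnt P c.1 c.2 (chd st c 0 ν) (a.2 + b.2) : ℝ)),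
    hsum (fun a b => (cnt P c.1 c.2 (chd st c 1 ν) (a.2 + b.2) : ℝ)), hden]
  have hkey := bias_st h hν (cls ν) hT hcp
  have hnum : ∑ a ∈ T, (cnt P c.1 c.2 (chd st c 0 ν) (a.2 + (vb ω0).2) : ℝ) * 1 +
      ∑ a ∈ T, (cnt P c.1 c.2 (chd st c 1 ν) (a.2 + (vb ω0).2) : ℝ) * (-1) =
      ∑ a ∈ T, ((cnt P c.1 c.2 (chd st c 0 ν) (a.2 + (vb ω0).2) : ℝ) -
        cnt P c.1 c.2 (chd st c 1 ν) (a.2 + (vb ω0).2)) := by
    rw [← Finset.sum_add_distrib]
    refine Finset.sum_congr rfl fun a _ => ?_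
    ring
  rw [hnum]
  set A := ∑ a ∈ T, ((cnt P c.1 c.2 (chd st c 0 ν) (a.2 + (vb ω0).2) : ℝ) -
        cnt P c.1 c.2 (chd st c 1 ν) (a.2 + (vb ω0).2))
  set B := ∑ a ∈ T, (cnt P (up st c).1 (up st c).2 ν (a.2 + (vb ω0).2) : ℝ) with hB
  have hB0 : 0 < B := by
    have h1 : (0 : ℝ) < cnt P (up st c).1 (up st c).2 ν ((va ω0).2 + (vb ω0).2) :=
      Nat.cast_pos.mpr (Nat.pos_of_ne_zero hcp)
    exact lt_of_lt_of_le h1 (Finset.single_le_sum
      (f := fun a : P × V k => (cnt P (up st c).1 (up st c).2 ν (a.2 + (vb ω0).2) : ℝ))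
      (fun _ _ => Nat.cast_nonneg _) ((hT _).mpr rfl))
  have h2 : |A / B| ≤ 1024 * Real.sqrt (D2 (FP.unif (P × V k)) (cls ν) Prod.snd ((up st c).1 + 7) (va ω0)) := by
    rw [abs_div, abs_of_pos hB0, div_le_iff₀ hB0]
    exact hkey
  have h3 := pow_le_pow_left₀ (abs_nonneg _) h2 2
  rw [sq_abs, mul_pow, Real.sq_sqrt (D2_nonneg _ _ _ _ _)] at h3
  norm_num at h3 ⊢
  exact h3

/-- BIAS GIVEN (node, `a` exactly, class of `b`) -/
theorem bias_B {st : Option (Fin n)} {c : Cfg n} (h : StepOk k N st c) {κ : Type*}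
    (cls : Nd k n → P × V k → κ) (ω0 : S2 k N n P) :
    (Pu k N n P).ce (fun ω => (Nc (up st c) ω, (va ω, cls (Nc (up st c) ω) (vb ω)))) (sb st c) ω0 ^ 2 ≤
      2 ^ 20 * D2 (FP.unif (P × V k)) (cls (Nc (up st c) ω0)) Prod.snd ((up st c).1 + 7) (vb ω0) := by
  classical
  have hν : Val N (up st c).1 (up st c).2 (Nc (up st c) ω0) := val_Nn h.le _ ω0
  have hcp : cnt P (up st c).1 (up st c).2 (Nc (up st c) ω0) ((va ω0).2 + (vb ω0).2) ≠ 0 :=
    cnt_pos h.le h.nk _ ω0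
  have hce := ce_ab_step (P := P) h.ok h.le h.nk (fun ν a b => (a, cls ν b)) (fun ν' _ _ => sbn st c ν') ω0
  have hfun : (fun ω : S2 k N n P => sbn st c (Nc c ω)) = sb st c := by
    funext ω
    exact (sb_eq h.ok ω).symm
  rw [hfun] at hce
  rw [hce]
  set ν := Nc (up st c) ω0 with hνd
  obtain ⟨hb0, hb1⟩ := sbn_chd h.ok hν
  rw [hb0, hb1]
  set T : Finset (P × V k) := univ.filter fun b => cls ν b = cls ν (vb ω0) with hTd
  have hT : ∀ b, b ∈ T ↔ cls ν b = cls ν (vb ω0) := fun b => by rw [hTd, Finset.mem_filter]; simp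
  have hsum : ∀ (g : P × V k → P × V k → ℝ) (r : ℝ),
      ∑ a, ∑ b, g a b * (ind ((a, cls ν b) = (va ω0, cls ν (vb ω0))) * r) = ∑ b ∈ T, g (va ω0) b * r := by
    intro g r
    rw [Finset.sum_eq_single (va ω0)]
    · rw [← Finset.sum_subset (Finset.subset_univ T)]
      · refine Finset.sum_congr rfl fun b hb => ?_
        rw [ind_of (by rw [(hT b).mp hb]), one_mul]
      · intro b _ hb
        rw [ind_not (fun h' => hb ((hT b).mpr (Prod.mk.injEq _ _ _ _ ▸ h' : _ ∧ _).2))]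
        ring
    · intro a _ ha
      refine Finset.sum_eq_zero fun b _ => ?_
      rw [ind_not (fun h' => ha (Prod.mk.injEq _ _ _ _ ▸ h' : _ ∧ _).1)]
      ring
    · intro h'
      exact absurd (Finset.mem_univ _) h'
  have hden : ∑ a, ∑ b, (cnt P (up st c).1 (up st c).2 ν (a.2 + b.2) : ℝ) *
      ind ((a, cls ν b) = (va ω0, cls ν (vb ω0))) =
      ∑ b ∈ T, (cnt P (up st c).1 (up st c).2 ν (b.2 + (va ω0).2) : ℝ) := by
    have := hsum (fun a b => (cnt P (up st c).1 (up st c).2 ν (a.2 + b.2) : ℝ)) 1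
    simp only [mul_one] at this
    rw [this]
    exact Finset.sum_congr rfl fun b _ => by rw [add_comm]
  rw [hsum (fun a b => (cnt P c.1 c.2 (chd st c 0 ν) (a.2 + b.2) : ℝ)),
    hsum (fun a b => (cnt P c.1 c.2 (chd st c 1 ν) (a.2 + b.2) : ℝ)), hden]
  have hcp' : cnt P (up st c).1 (up st c).2 ν ((vb ω0).2 + (va ω0).2) ≠ 0 := by
    rw [add_comm]; exact hcp
  have hkey := bias_st h hν (cls ν) hT hcp'
  have hnum : ∑ b ∈ T, (cnt P c.1 c.2 (chd st c 0 ν) ((va ω0).2 + b.2) : ℝ) * 1 +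
      ∑ b ∈ T, (cnt P c.1 c.2 (chd st c 1 ν) ((va ω0).2 + b.2) : ℝ) * (-1) =
      ∑ b ∈ T, ((cnt P c.1 c.2 (chd st c 0 ν) (b.2 + (va ω0).2) : ℝ) -
        cnt P c.1 c.2 (chd st c 1 ν) (b.2 + (va ω0).2)) := by
    rw [← Finset.sum_add_distrib]
    refine Finset.sum_congr rfl fun b _ => ?_
    rw [add_comm b.2]
    ring
  rw [hnum]
  set A := ∑ b ∈ T, ((cnt P c.1 c.2 (chd st c 0 ν) (b.2 + (va ω0).2) : ℝ) -
        cnt P c.1 c.2 (chd st c 1 ν) (b.2 + (va ω0).2))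
  set B := ∑ b ∈ T, (cnt P (up st c).1 (up st c).2 ν (b.2 + (va ω0).2) : ℝ) with hB
  have hB0 : 0 < B := by
    have h1 : (0 : ℝ) < cnt P (up st c).1 (up st c).2 ν ((vb ω0).2 + (va ω0).2) :=
      Nat.cast_pos.mpr (Nat.pos_of_ne_zero hcp')
    exact lt_of_lt_of_le h1 (Finset.single_le_sum
      (f := fun b : P × V k => (cnt P (up st c).1 (up st c).2 ν (b.2 + (va ω0).2) : ℝ))
      (fun _ _ => Nat.cast_nonneg _) ((hT _).mpr rfl))
  have h2 : |A / B| ≤ 1024 * Real.sqrt (D2 (FP.unif (P × V k)) (cls ν) Prod.snd ((up st c).1 + 7) (vb ω0)) := by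
    rw [abs_div, abs_of_pos hB0, div_le_iff₀ hB0]
    exact hkey
  have h3 := pow_le_pow_left₀ (abs_nonneg _) h2 2
  rw [sq_abs, mul_pow, Real.sq_sqrt (D2_nonneg _ _ _ _ _)] at h3
  norm_num at h3 ⊢
  exact h3

end

end Pool.Agent.GMC
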