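import Pool.Agent.GMC.BitC
import Pool.Agent.GMC.Mod3

/-!
# GMC/BitM: one bit, versions and removals in the model (helper67)

`fa τ ν a`, `fb τ ν b` : the functions (versions) of the points `a`, `b` at the node `ν` of the time `τ`; `S`, `T` classes.

* `XV N h q fa fb τ ν S T` : value of the pair of classes at the node of the time `τ`;
* `YV N h q fa fb τ ν' S T` : value at the node `ν'` of the time `τ + 1` with the versions of the time `τ` (parent node);
* `XV_nonneg`, `XV_le_one`, `YV_nonneg`, `YV_le_one`;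
* `psd_model` : one bit, any index which determines the node and the two classes;
* `vcost` : cost of the versions, `loss_model` : versions and removals.
-/

set_option autoImplicit false
set_option linter.unusedSectionVars false

namespace Pool.Agent.GMC

open Finset Pool.Agent.PWZ Pool.Agent.M3 Pool.Agent.M3.Bin Pool.Agent.M3.Mod Pool.Agent.GM99

noncomputable section

variable {k N n : ℕ} {P : Type}

/-- functions of the points at the nodes of all times -/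
abbrev Vers (k n : ℕ) (P : Type) : Type := ℕ → Nd k n → P × V k → (Fin n → P × V k) → V k → ℝ

section law

variable [Fintype P]

/-- VALUE of a pair of classes at the node of the time `τ` -/
def XV (N h q : ℕ) (fa fb : Vers k n P) (τ : ℕ) (ν : Nd k n) (S T : Finset (P × V k)) : ℝ :=
  kA (wU (cf N h n τ) ν) (uW (cf N h n τ) ν) q (fa τ ν) (fb τ ν) S T

/-- VALUE at the node `ν` of the time `τ + 1` with the versions of the time `τ` -/
def YV (N h q : ℕ) (fa fb : Vers k n P) (τ : ℕ) (ν : Nd k n) (S T : Finset (P × V k)) : ℝ :=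
  kA (wU (cf N h n (τ + 1)) ν) (uW (cf N h n (τ + 1)) ν) q (fa τ (parT N h n τ ν)) (fb τ (parT N h n τ ν)) S T

/-- cost of the versions of the point `a` between the times `τ` and `τ + 1` -/
def vcost (N h : ℕ) (fa : Vers k n P) (τ : ℕ) (ν : Nd k n) (a : P × V k) : ℝ :=
  2 ^ n * pm (wU (cf N h n (τ + 1)) ν) fun x => ind (fa τ (parT N h n τ ν) a x ≠ fa (τ + 1) ν a x)

variable [Nonempty P]

theorem cf_le_k {h τ : ℕ} (hN : N ≤ k) : (cf N h n τ).1 ≤ k ∧ ∀ i, (cf N h n τ).2 i ≤ k :=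
  ⟨(cf_fst_le _ _ _).trans hN, fun _ => (cf_snd_le _ _ _ _).trans hN⟩

theorem XV_nonneg (h q : ℕ) (fa fb : Vers k n P) (τ : ℕ) (ν : Nd k n) (S T : Finset (P × V k)) :
    0 ≤ XV N h q fa fb τ ν S T := kA_nonneg _ (wU_nonneg _ _) _ _ _ _ _ _

theorem YV_nonneg (h q : ℕ) (fa fb : Vers k n P) (τ : ℕ) (ν : Nd k n) (S T : Finset (P × V k)) :
    0 ≤ YV N h q fa fb τ ν S T := kA_nonneg _ (wU_nonneg _ _) _ _ _ _ _ _

theorem XV_le_one (hN : N ≤ k) {h q : ℕ} {fa fb : Vers k n P} (hfa : ∀ τ ν a x z, |fa τ ν a x z| ≤ 1)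
    (hfb : ∀ τ ν a x z, |fb τ ν a x z| ≤ 1) (τ : ℕ) (ν : Nd k n) (S T : Finset (P × V k)) :
    XV N h q fa fb τ ν S T ≤ 1 :=
  kA_le_one _ (wU_nonneg _ _) (wU_sum (cf_le_k hN).2 _) _ (uW_nonneg _ _) (uW_sum (cf_le_k hN).1 _) _ _ _
    (hfa _ _) (hfb _ _) _ _

theorem YV_le_one (hN : N ≤ k) {h q : ℕ} {fa fb : Vers k n P} (hfa : ∀ τ ν a x z, |fa τ ν a x z| ≤ 1)
    (hfb : ∀ τ ν a x z, |fb τ ν a x z| ≤ 1) (τ : ℕ) (ν : Nd k n) (S T : Finset (P × V k)) :
    YV N h q fa fb τ ν S T ≤ 1 :=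
  kA_le_one _ (wU_nonneg _ _) (wU_sum (cf_le_k hN).2 _) _ (uW_nonneg _ _) (uW_sum (cf_le_k hN).1 _) _ _ _
    (hfa _ _) (hfb _ _) _ _

theorem vcost_nonneg (h : ℕ) (fa : Vers k n P) (τ : ℕ) (ν : Nd k n) (a : P × V k) : 0 ≤ vcost N h fa τ ν a :=
  mul_nonneg (by positivity) (pm_nonneg _ (wU_nonneg _ _) fun _ => ind_nonneg _)

/-- the step of the kernels: any step, any functions -/
theorem kA_chd (hN : N ≤ k) {st : Option (Fin n)} {c : Cfg n} (hok : Ok k N st c) (hc2 : ∀ i, (up st c).2 i ≤ k)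
    {ν : Nd k n} (hν : Val N (up st c).1 (up st c).2 ν) {q : ℕ} (hq : 1 ≤ q)
    (F G : P × V k → (Fin n → P × V k) → V k → ℝ)
    (hF : ∀ a x z, |F a x z| ≤ 1) (hG : ∀ a x z, |G a x z| ≤ 1) (S T : Finset (P × V k)) (hc1 : (up st c).1 ≤ k)
    (be : ℝ) (hbe : |be| ≤ 1) :
    kA (wU (up st c) ν) (uW (up st c) ν) q F G S T - q * be ^ 2 ≤
      (1 + be) / 2 * kA (wU c (chd st c 0 ν)) (uW c (chd st c 0 ν)) q F G S T +
        (1 - be) / 2 * kA (wU c (chd st c 1 ν)) (uW c (chd st c 1 ν)) q F G S T := by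
  cases st with
  | none =>
    rw [wU_noise, wU_noise]
    have h1 : c.1 + 1 ≤ k := by
      unfold Ok at hok
      exact le_trans hok hN
    exact kA_win _ (wU_nonneg _ _) (wU_sum hc2 _) _ _ _ (uW_half h1 ν) (uW_nonneg _ _) (uW_sum hc1 _) be hbe q F G hF
      hG S T
  | some i =>
    rw [wU_upd i c 0 ν, wU_upd i c 1 ν, uW_cell, uW_cell]
    have h1 : c.2 i + 1 ≤ k := hok
    have h2 : flr (c.2 i + 1) (ν.2 i) = ν.2 i := by
      have := hν.2 i
      unfold up at this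
      simp only [Function.update_self] at this
      exact this
    exact kA_bit _ (wU_nonneg _ _) (wU_sum hc2 _) i _ _ (fun x => wU_half h1 h2 x) be _ (uW_nonneg _ _)
      (uW_sum hc1 _) hq F G hF hG S T

/-- ONE BIT in the model: `I` any index which determines the node and the two classes -/
theorem psd_model {h τ q : ℕ} (hN : N ≤ k) (hτ : τ < (n + 1) * N) (hq : 1 ≤ q) {fa fb : Vers k n P}
    (hfa : ∀ τ ν a x z, |fa τ ν a x z| ≤ 1) (hfb : ∀ τ ν a x z, |fb τ ν a x z| ≤ 1) {κ : Type*}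
    {I : S2 k N n P → κ} {S T : S2 k N n P → Finset (P × V k)} (hI : Fac I (Nc (cf N h n τ))) (hS : Fac I S)
    (hT : Fac I T) (ω : S2 k N n P) :
    XV N h q fa fb τ (Nc (cf N h n τ) ω) (S ω) (T ω) - q * (Pu k N n P).ce I (sgT N h n τ) ω ^ 2 ≤
      (Pu k N n P).ce I (fun ω => YV N h q fa fb τ (Nc (cf N h n (τ + 1)) ω) (S ω) (T ω)) ω := by
  by_cases h0 : cf N h n (τ + 1) = cf N h n τ
  · refine psd_triv _ (Pu_ne ω) (Nat.cast_nonneg _) fun v _ hv => ?_
    unfold YV XV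
    rw [parT_Nc hN hτ, h0, hI v ω hv, hS v ω hv, hT v ω hv]
  · have h2 := cf_step' (h := h) hN hτ h0
    have h3 : (up (stp n τ) (cf N h n (τ + 1))).1 ≤ N := by rw [h2.1]; exact cf_fst_le _ _ _
    have hν : Val N (up (stp n τ) (cf N h n (τ + 1))).1 (up (stp n τ) (cf N h n (τ + 1))).2 (Nc (cf N h n τ) ω) := by
      rw [h2.1]
      exact val_Nn (cf_fst_le _ _ _) _ ω
    have h4 : ∀ v : S2 k N n P, sgT N h n τ v = if bs (stp n τ) (cf N h n (τ + 1)) v = 0 then 1 else -1 := by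
      intro v
      unfold sgT
      rw [if_neg h0, sg_Nc h2.2 h3]
    have h5 : ∀ v : S2 k N n P, Nc (cf N h n (τ + 1)) v =
        chd (stp n τ) (cf N h n (τ + 1)) (bs (stp n τ) (cf N h n (τ + 1)) v) (Nc (cf N h n τ) v) := by
      intro v
      have := Nc_eq (stp n τ) (cf N h n (τ + 1)) v
      rwa [h2.1] at this
    refine psd_ce (Pu k N n P) (Pu_ne ω)
      (y1 := kA (wU (cf N h n (τ + 1)) (chd (stp n τ) (cf N h n (τ + 1)) 0 (Nc (cf N h n τ) ω)))
        (uW (cf N h n (τ + 1)) (chd (stp n τ) (cf N h n (τ + 1)) 0 (Nc (cf N h n τ) ω))) q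
        (fa τ (Nc (cf N h n τ) ω)) (fb τ (Nc (cf N h n τ) ω)) (S ω) (T ω))
      (y2 := kA (wU (cf N h n (τ + 1)) (chd (stp n τ) (cf N h n (τ + 1)) 1 (Nc (cf N h n τ) ω)))
        (uW (cf N h n (τ + 1)) (chd (stp n τ) (cf N h n (τ + 1)) 1 (Nc (cf N h n τ) ω))) q
        (fa τ (Nc (cf N h n τ) ω)) (fb τ (Nc (cf N h n τ) ω)) (S ω) (T ω)) (fun v _ hv => ?_) (fun be hbe => ?_)
    · unfold YV
      rw [parT_Nc hN hτ, h4 v, h5 v, hI v ω hv, hS v ω hv, hT v ω hv]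
      have h6 := bs_lt (stp n τ) (cf N h n (τ + 1)) v
      rcases (by omega : bs (stp n τ) (cf N h n (τ + 1)) v = 0 ∨ bs (stp n τ) (cf N h n (τ + 1)) v = 1) with h7 | h7
      · left
        rw [h7]
        exact ⟨if_pos rfl, rfl⟩
      · right
        rw [h7]
        exact ⟨if_neg one_ne_zero, rfl⟩
    · unfold XV
      have h6 := kA_chd hN h2.2 (by rw [h2.1]; exact (cf_le_k hN).2) hν hq (fa τ (Nc (cf N h n τ) ω))
        (fb τ (Nc (cf N h n τ) ω)) (hfa _ _) (hfb _ _) (S ω) (T ω) (by rw [h2.1]; exact (cf_le_k hN).1) be hbe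
      rw [h2.1] at h6
      exact h6

/-- VERSIONS AND REMOVALS in the model -/
theorem loss_model {h τ q : ℕ} (hN : N ≤ k) {fa fb : Vers k n P}
    (hfa : ∀ τ ν a x z, |fa τ ν a x z| ≤ 1) (hfb : ∀ τ ν a x z, |fb τ ν a x z| ≤ 1) (ν : Nd k n)
    {S S' T T' : Finset (P × V k)} (hS : S' ⊆ S) (hS0 : S'.Nonempty) (hT : T' ⊆ T) (hT0 : T'.Nonempty) :
    YV N h q fa fb τ ν S T - ((avs S (vcost N h fa τ ν) + rmv S S') + (avs T (vcost N h fb τ ν) + rmv T T')) ≤
      XV N h q fa fb (τ + 1) ν S' T' :=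
  kA_loss _ (wU_nonneg _ _) (wU_sum (cf_le_k hN).2 _) _ (uW_nonneg _ _) (uW_sum (cf_le_k hN).1 _) q _ _ _ _
    (hfa _ _) (hfb _ _) (hfa _ _) (hfb _ _) hS hS0 hT hT0

end law

end

end Pool.Agent.GMC
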