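import Pool.Agent.GMC.BitC
import Pool.Agent.GM99.KernC
import Pool.Agent.GMC.Mod3

/-!
# GMC/BitX: one bit, versions and removals, kernels with coins (helper67)

Port of Bit, BitC, BitM to `kapc`.  `v` = weights of the coin.

* `pc_coord`, `kapc_le_one`, `kapc_ver` : `|kapc f - kapc g| ≤ 2^n pm w (∑ ξ, v ξ * 1[f x ξ ≠ g x ξ])`;
* `kAc` : value of a pair of classes; `kAc_bit`, `kAc_win`, `kAc_ver`, `kAc_rem`, `kAc_loss`, `inner_mn_vecc`;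
* in the model: `XVc`, `YVc`, `vcostc`, `kAc_chd` (one micro step), `psd_modelc`, `loss_modelc`.
-/

set_option autoImplicit false
set_option linter.unusedSectionVars false

namespace Pool.Agent.GMC

open Finset Pool.Agent.PWZ Pool.Agent.M3 Pool.Agent.M3.Bin Pool.Agent.M3.Mod Pool.Agent.GM99

noncomputable section

section kern

variable {X Z Ξ : Type*} [Fintype X] [Fintype Z] [Fintype Ξ] {n : ℕ}

/-- mean of a function of one coin -/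
theorem pc_coord (n : ℕ) (v : Ξ → ℝ) (hv1 : ∑ ξ, v ξ = 1) (e0 : Fin n → Bool) (g : Ξ → ℝ) :
    pc n v (fun ζ => g (ζ e0)) = ∑ ξ, v ξ * g ξ := by
  rw [pc_resample n v hv1 e0]
  simp only [Function.update_self]
  exact pc_const n v hv1 _

theorem pc_sub (n : ℕ) (v : Ξ → ℝ) (g h : ((Fin n → Bool) → Ξ) → ℝ) :
    pc n v (fun ξ => g ξ - h ξ) = pc n v g - pc n v h := by
  unfold pc
  rw [← Finset.sum_sub_distrib]
  exact Finset.sum_congr rfl fun ξ _ => by ring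

theorem abs_pc_le (n : ℕ) (v : Ξ → ℝ) (hv : ∀ ξ, 0 ≤ v ξ) (g : ((Fin n → Bool) → Ξ) → ℝ) :
    |pc n v g| ≤ pc n v fun ξ => |g ξ| := by
  unfold pc
  refine (Finset.abs_sum_le_sum_abs _ _).trans (Finset.sum_le_sum fun x _ => ?_)
  rw [abs_mul, abs_of_nonneg (Finset.prod_nonneg fun i _ => hv _)]

theorem kapc_le_one (w : Fin n → X → ℝ) (hw : ∀ i x, 0 ≤ w i x) (hs : ∀ i, ∑ x, w i x = 1) (v : Ξ → ℝ)
    (hv : ∀ ξ, 0 ≤ v ξ) (hv1 : ∑ ξ, v ξ = 1) (u : Z → ℝ)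
    (hu : ∀ z, 0 ≤ u z) (hu1 : ∑ z, u z = 1) (q : ℕ) (f : (Fin n → X) → Ξ → Z → ℝ) (hf : ∀ x ξ z, |f x ξ z| ≤ 1) :
    kapc w v u q f ≤ 1 := by
  have h1 : kapc w v u q f ≤ pm w fun _ => pm w fun _ => pc n v fun _ => (1 : ℝ) := by
    unfold kapc
    refine pm_mono _ hw fun x => pm_mono _ hw fun y => pc_mono n v hv fun ξ => ?_
    rw [← (even_two_mul q).pow_abs]
    refine pow_le_one₀ (abs_nonneg _) ?_
    refine (Finset.abs_sum_le_sum_abs _ _).trans ?_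
    rw [← hu1]
    refine Finset.sum_le_sum fun z _ => ?_
    rw [abs_mul, abs_of_nonneg (hu z), Finset.abs_prod]
    exact mul_le_of_le_one_right (hu z) (Finset.prod_le_one (fun _ _ => abs_nonneg _) fun e _ => hf _ _ _)
  refine h1.trans (le_of_eq ?_)
  rw [pc_const n v hv1, pm_congr w fun _ => pm_const w hs 1, pm_const w hs]

/-- VERSIONS with coins -/
theorem kapc_ver (w : Fin n → X → ℝ) (hw : ∀ i x, 0 ≤ w i x) (hs : ∀ i, ∑ x, w i x = 1) (v : Ξ → ℝ)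
    (hv : ∀ ξ, 0 ≤ v ξ) (hv1 : ∑ ξ, v ξ = 1) (u : Z → ℝ)
    (hu : ∀ z, 0 ≤ u z) (hu1 : ∑ z, u z = 1) (q : ℕ) (f g : (Fin n → X) → Ξ → Z → ℝ) (hf : ∀ x ξ z, |f x ξ z| ≤ 1)
    (hg : ∀ x ξ z, |g x ξ z| ≤ 1) :
    |kapc w v u q f - kapc w v u q g| ≤ 2 ^ n * pm w fun x => ∑ ξ, v ξ * ind (f x ξ ≠ g x ξ) := by
  have hP : ∀ (h : (Fin n → X) → Ξ → Z → ℝ), (∀ x ξ z, |h x ξ z| ≤ 1) → ∀ (x y : Fin n → X) (ξ : (Fin n → Bool) → Ξ),
      0 ≤ (∑ z, u z * ∏ e : Fin n → Bool, h (mixp x y e) (ξ e) z) ^ (2 * q) ∧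
        (∑ z, u z * ∏ e : Fin n → Bool, h (mixp x y e) (ξ e) z) ^ (2 * q) ≤ 1 := by
    intro h hh x y ξ
    refine ⟨(even_two_mul q).pow_nonneg _, ?_⟩
    rw [← (even_two_mul q).pow_abs]
    refine pow_le_one₀ (abs_nonneg _) ?_
    refine (Finset.abs_sum_le_sum_abs _ _).trans ?_
    rw [← hu1]
    refine Finset.sum_le_sum fun z _ => ?_
    rw [abs_mul, abs_of_nonneg (hu z), Finset.abs_prod]
    exact mul_le_of_le_one_right (hu z) (Finset.prod_le_one (fun _ _ => abs_nonneg _) fun e _ => hh _ _ _)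
  have hpt : ∀ (x y : Fin n → X) (ξ : (Fin n → Bool) → Ξ),
      |(∑ z, u z * ∏ e : Fin n → Bool, f (mixp x y e) (ξ e) z) ^ (2 * q) -
      (∑ z, u z * ∏ e : Fin n → Bool, g (mixp x y e) (ξ e) z) ^ (2 * q)| ≤
        ∑ e : Fin n → Bool, ind (f (mixp x y e) (ξ e) ≠ g (mixp x y e) (ξ e)) := by
    intro x y ξ
    by_cases h : ∀ e : Fin n → Bool, f (mixp x y e) (ξ e) = g (mixp x y e) (ξ e)
    · have h1 : (∑ z, u z * ∏ e : Fin n → Bool, f (mixp x y e) (ξ e) z) =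
          ∑ z, u z * ∏ e : Fin n → Bool, g (mixp x y e) (ξ e) z := by
        refine Finset.sum_congr rfl fun z _ => ?_
        congr 1
        exact Finset.prod_congr rfl fun e _ => by rw [h e]
      rw [h1, sub_self, abs_zero]
      exact Finset.sum_nonneg fun e _ => ind_nonneg _
    · push Not at h
      obtain ⟨e, he⟩ := h
      have h1 : (1 : ℝ) ≤ ∑ e : Fin n → Bool, ind (f (mixp x y e) (ξ e) ≠ g (mixp x y e) (ξ e)) := by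
        rw [← ind_of he]
        exact Finset.single_le_sum (f := fun e : Fin n → Bool => ind (f (mixp x y e) (ξ e) ≠ g (mixp x y e) (ξ e)))
          (fun e _ => ind_nonneg _) (Finset.mem_univ e)
      refine le_trans ?_ h1
      obtain ⟨a1, a2⟩ := hP f hf x y ξ
      obtain ⟨b1, b2⟩ := hP g hg x y ξ
      rw [abs_le]
      constructor <;> linarith
  have h1 : |kapc w v u q f - kapc w v u q g| ≤
      pm w fun x => pm w fun y => pc n v fun ξ =>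
        ∑ e : Fin n → Bool, ind (f (mixp x y e) (ξ e) ≠ g (mixp x y e) (ξ e)) := by
    unfold kapc
    rw [← pm_sub]
    refine (abs_pm_le w hw _).trans (pm_mono _ hw fun x => ?_)
    rw [← pm_sub]
    refine (abs_pm_le w hw _).trans (pm_mono _ hw fun y => ?_)
    rw [← pc_sub]
    exact (abs_pc_le n v hv _).trans (pc_mono n v hv fun ξ => hpt x y ξ)
  refine h1.trans (le_of_eq ?_)
  have h0 : ∀ x y : Fin n → X, (pc n v fun ξ => ∑ e : Fin n → Bool, ind (f (mixp x y e) (ξ e) ≠ g (mixp x y e) (ξ e))) =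
      ∑ e : Fin n → Bool, ∑ ξ, v ξ * ind (f (mixp x y e) ξ ≠ g (mixp x y e) ξ) := by
    intro x y
    rw [pc_sum]
    exact Finset.sum_congr rfl fun e _ => pc_coord n v hv1 e (fun ξ => ind (f (mixp x y e) ξ ≠ g (mixp x y e) ξ))
  have h2 : (pm w fun x => pm w fun y => pc n v fun ξ =>
      ∑ e : Fin n → Bool, ind (f (mixp x y e) (ξ e) ≠ g (mixp x y e) (ξ e))) =
      ∑ e : Fin n → Bool, pm w fun x => pm w fun y => ∑ ξ, v ξ * ind (f (mixp x y e) ξ ≠ g (mixp x y e) ξ) := by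
    rw [← pm_sum]
    refine pm_congr w fun x => ?_
    rw [← pm_sum]
    exact pm_congr w fun y => h0 x y
  rw [h2, Finset.sum_congr rfl fun e _ => pm_mixp w hs e (fun x => ∑ ξ, v ξ * ind (f x ξ ≠ g x ξ)), Finset.sum_const,
    Finset.card_univ, nsmul_eq_mul]
  simp

/-- one bit of one coordinate, additive form -/
theorem kapc_bit' (w : Fin n → X → ℝ) (hw : ∀ i x, 0 ≤ w i x) (hs : ∀ i, ∑ x, w i x = 1) (p : Fin n) (w1 w2 : X → ℝ)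
    (h12 : ∀ x, w p x = (w1 x + w2 x) / 2) (be : ℝ) (v : Ξ → ℝ) (hv : ∀ ξ, 0 ≤ v ξ) (hv1 : ∑ ξ, v ξ = 1)
    (u : Z → ℝ) (hu : ∀ z, 0 ≤ u z) (hu1 : ∑ z, u z = 1) {q : ℕ}
    (hq : 1 ≤ q) (f : (Fin n → X) → Ξ → Z → ℝ) (hf : ∀ x ξ z, |f x ξ z| ≤ 1) :
    kapc w v u q f - q * be ^ 2 ≤ (1 + be) / 2 * kapc (Function.update w p w1) v u q f +
      (1 - be) / 2 * kapc (Function.update w p w2) v u q f := by
  refine le_trans ?_ (kapc_bit w hw p w1 w2 h12 be v u hu q f)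
  have h1 := kapc_le_one w hw hs v hv hv1 u hu hu1 q f hf
  have h2 := kapc_nonneg w hw v hv u q f
  have h3 : (1 : ℝ) ≤ q := by exact_mod_cast hq
  nlinarith [sq_nonneg be, mul_nonneg (sq_nonneg be) (sub_nonneg.2 h1), mul_nonneg (sq_nonneg be) (sub_nonneg.2 h3)]

/-- the bit of the window, additive form -/
theorem kapc_win' (w : Fin n → X → ℝ) (hw : ∀ i x, 0 ≤ w i x) (hs : ∀ i, ∑ x, w i x = 1) (v : Ξ → ℝ)
    (hv : ∀ ξ, 0 ≤ v ξ) (hv1 : ∑ ξ, v ξ = 1) (u u1 u2 : Z → ℝ)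
    (h12 : ∀ z, u z = (u1 z + u2 z) / 2) (hu : ∀ z, 0 ≤ u z) (hu1 : ∑ z, u z = 1) (be : ℝ) (hbe : |be| ≤ 1) (q : ℕ)
    (f : (Fin n → X) → Ξ → Z → ℝ) (hf : ∀ x ξ z, |f x ξ z| ≤ 1) :
    kapc w v u q f - q * be ^ 2 ≤ (1 + be) / 2 * kapc w v u1 q f + (1 - be) / 2 * kapc w v u2 q f := by
  refine le_trans ?_ (kapc_win w hw v hv u u1 u2 h12 be hbe q f)
  have h1 := kapc_le_one w hw hs v hv hv1 u hu hu1 q f hf
  have h2 := kapc_nonneg w hw v hv u q f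
  have h3 : be ^ 2 ≤ 1 := by rw [← sq_abs]; exact pow_le_one₀ (abs_nonneg _) hbe
  have h4 : 1 + (q : ℝ) * (-be ^ 2) ≤ (1 + -be ^ 2) ^ q := one_add_mul_le_pow (by linarith) q
  have h5 : (1 - be ^ 2) ^ q = (1 + -be ^ 2) ^ q := by ring
  rw [h5]
  have h6 : (1 + (q : ℝ) * (-be ^ 2)) * kapc w v u q f ≤ (1 + -be ^ 2) ^ q * kapc w v u q f :=
    mul_le_mul_of_nonneg_right h4 h2
  have h7 : 0 ≤ (q : ℝ) * be ^ 2 * (1 - kapc w v u q f) :=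
    mul_nonneg (mul_nonneg (Nat.cast_nonneg _) (sq_nonneg _)) (by linarith)
  nlinarith

end kern

/-! ## values of pairs of classes -/

section kA

variable {X Z Ξ A B : Type*} [Fintype X] [Fintype Z] [Fintype Ξ] {n : ℕ}

/-- VALUE OF A PAIR OF CLASSES, with coins -/
def kAc (w : Fin n → X → ℝ) (v : Ξ → ℝ) (u : Z → ℝ) (q : ℕ) (F : A → (Fin n → X) → Ξ → Z → ℝ)
    (G : B → (Fin n → X) → Ξ → Z → ℝ) (S : Finset A) (T : Finset B) : ℝ :=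
  avs S fun a => avs T fun b => kapc w v u q fun x ξ z => F a x ξ z * G b x ξ z

/-- version loss of a class -/
def vlossc (w : Fin n → X → ℝ) (v : Ξ → ℝ) (F F' : A → (Fin n → X) → Ξ → Z → ℝ) (S : Finset A) : ℝ :=
  avs S fun a => 2 ^ n * pm w fun x => ∑ ξ, v ξ * ind (F a x ξ ≠ F' a x ξ)

theorem kAc_single (w : Fin n → X → ℝ) (v : Ξ → ℝ) (u : Z → ℝ) (q : ℕ) (F : A → (Fin n → X) → Ξ → Z → ℝ)
    (G : B → (Fin n → X) → Ξ → Z → ℝ) (a : A) (b : B) :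
    kAc w v u q F G {a} {b} = kapc w v u q fun x ξ z => F a x ξ z * G b x ξ z := by
  unfold kAc
  rw [avs_singleton, avs_singleton]

theorem kAc_nonneg (w : Fin n → X → ℝ) (hw : ∀ i x, 0 ≤ w i x) (v : Ξ → ℝ) (hv : ∀ ξ, 0 ≤ v ξ) (u : Z → ℝ) (q : ℕ)
    (F : A → (Fin n → X) → Ξ → Z → ℝ) (G : B → (Fin n → X) → Ξ → Z → ℝ) (S : Finset A) (T : Finset B) :
    0 ≤ kAc w v u q F G S T :=
  avs_nonneg fun _ _ => avs_nonneg fun _ _ => kapc_nonneg w hw v hv u q _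

theorem kAc_le_one (w : Fin n → X → ℝ) (hw : ∀ i x, 0 ≤ w i x) (hs : ∀ i, ∑ x, w i x = 1) (v : Ξ → ℝ)
    (hv : ∀ ξ, 0 ≤ v ξ) (hv1 : ∑ ξ, v ξ = 1) (u : Z → ℝ)
    (hu : ∀ z, 0 ≤ u z) (hu1 : ∑ z, u z = 1) (q : ℕ) (F : A → (Fin n → X) → Ξ → Z → ℝ)
    (G : B → (Fin n → X) → Ξ → Z → ℝ)
    (hF : ∀ a x ξ z, |F a x ξ z| ≤ 1) (hG : ∀ b x ξ z, |G b x ξ z| ≤ 1) (S : Finset A) (T : Finset B) :
    kAc w v u q F G S T ≤ 1 :=
  avs_le_const zero_le_one fun _ _ => avs_le_const zero_le_one fun _ _ =>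
    kapc_le_one w hw hs v hv hv1 u hu hu1 q _ fun _ _ _ => abs_mul_le_one' (hF _ _ _ _) (hG _ _ _ _)

theorem kAc_lin {w w1 w2 : Fin n → X → ℝ} {v : Ξ → ℝ} {u u1 u2 : Z → ℝ} {q : ℕ} {F : A → (Fin n → X) → Ξ → Z → ℝ}
    {G : B → (Fin n → X) → Ξ → Z → ℝ} {S : Finset A} {T : Finset B} {d c1 c2 : ℝ} (hd : 0 ≤ d)
    (h : ∀ a ∈ S, ∀ b ∈ T, kapc w v u q (fun x ξ z => F a x ξ z * G b x ξ z) - d ≤
      c1 * kapc w1 v u1 q (fun x ξ z => F a x ξ z * G b x ξ z) +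
        c2 * kapc w2 v u2 q (fun x ξ z => F a x ξ z * G b x ξ z)) :
    kAc w v u q F G S T - d ≤ c1 * kAc w1 v u1 q F G S T + c2 * kAc w2 v u2 q F G S T := by
  have h1 : kAc w v u q F G S T ≤ avs S fun a => avs T fun b =>
      ((c1 * kapc w1 v u1 q (fun x ξ z => F a x ξ z * G b x ξ z) +
        c2 * kapc w2 v u2 q (fun x ξ z => F a x ξ z * G b x ξ z)) + d) :=
    avs_mono fun a ha => avs_mono fun b hb => by have := h a ha b hb; linarith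
  have h2 : (avs S fun a => avs T fun b =>
      ((c1 * kapc w1 v u1 q (fun x ξ z => F a x ξ z * G b x ξ z) +
        c2 * kapc w2 v u2 q (fun x ξ z => F a x ξ z * G b x ξ z)) + d)) =
      c1 * kAc w1 v u1 q F G S T + c2 * kAc w2 v u2 q F G S T + avs S fun _ => avs T fun _ => d := by
    unfold kAc
    rw [← avs_smul, ← avs_smul, ← avs_add, ← avs_add]
    refine avs_congr fun a _ => ?_
    rw [← avs_smul, ← avs_smul, ← avs_add, ← avs_add]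
  have h3 : (avs S fun _ => avs T fun _ => d) ≤ d :=
    avs_le_const hd fun _ _ => avs_le_const hd fun _ _ => le_rfl
  linarith

/-- ONE BIT of one coordinate -/
theorem kAc_bit (w : Fin n → X → ℝ) (hw : ∀ i x, 0 ≤ w i x) (hs : ∀ i, ∑ x, w i x = 1) (p : Fin n) (w1 w2 : X → ℝ)
    (h12 : ∀ x, w p x = (w1 x + w2 x) / 2) (be : ℝ) (v : Ξ → ℝ) (hv : ∀ ξ, 0 ≤ v ξ) (hv1 : ∑ ξ, v ξ = 1)
    (u : Z → ℝ) (hu : ∀ z, 0 ≤ u z) (hu1 : ∑ z, u z = 1) {q : ℕ}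
    (hq : 1 ≤ q) (F : A → (Fin n → X) → Ξ → Z → ℝ) (G : B → (Fin n → X) → Ξ → Z → ℝ)
    (hF : ∀ a x ξ z, |F a x ξ z| ≤ 1) (hG : ∀ b x ξ z, |G b x ξ z| ≤ 1) (S : Finset A) (T : Finset B) :
    kAc w v u q F G S T - q * be ^ 2 ≤ (1 + be) / 2 * kAc (Function.update w p w1) v u q F G S T +
      (1 - be) / 2 * kAc (Function.update w p w2) v u q F G S T :=
  kAc_lin (mul_nonneg (Nat.cast_nonneg _) (sq_nonneg _)) fun _ _ _ _ =>
    kapc_bit' w hw hs p w1 w2 h12 be v hv hv1 u hu hu1 hq _ fun _ _ _ => abs_mul_le_one' (hF _ _ _ _) (hG _ _ _ _)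

/-- THE BIT OF THE WINDOW -/
theorem kAc_win (w : Fin n → X → ℝ) (hw : ∀ i x, 0 ≤ w i x) (hs : ∀ i, ∑ x, w i x = 1) (v : Ξ → ℝ)
    (hv : ∀ ξ, 0 ≤ v ξ) (hv1 : ∑ ξ, v ξ = 1) (u u1 u2 : Z → ℝ)
    (h12 : ∀ z, u z = (u1 z + u2 z) / 2) (hu : ∀ z, 0 ≤ u z) (hu1 : ∑ z, u z = 1) (be : ℝ) (hbe : |be| ≤ 1) (q : ℕ)
    (F : A → (Fin n → X) → Ξ → Z → ℝ) (G : B → (Fin n → X) → Ξ → Z → ℝ)
    (hF : ∀ a x ξ z, |F a x ξ z| ≤ 1) (hG : ∀ b x ξ z, |G b x ξ z| ≤ 1) (S : Finset A) (T : Finset B) :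
    kAc w v u q F G S T - q * be ^ 2 ≤ (1 + be) / 2 * kAc w v u1 q F G S T + (1 - be) / 2 * kAc w v u2 q F G S T :=
  kAc_lin (mul_nonneg (Nat.cast_nonneg _) (sq_nonneg _)) fun _ _ _ _ =>
    kapc_win' w hw hs v hv hv1 u u1 u2 h12 hu hu1 be hbe q _ fun _ _ _ => abs_mul_le_one' (hF _ _ _ _) (hG _ _ _ _)

theorem ver_nonneg (w : Fin n → X → ℝ) (hw : ∀ i x, 0 ≤ w i x) {v : Ξ → ℝ} (hv : ∀ ξ, 0 ≤ v ξ)
    (f g : (Fin n → X) → Ξ → Z → ℝ) : 0 ≤ 2 ^ n * pm w fun x => ∑ ξ, v ξ * ind (f x ξ ≠ g x ξ) :=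
  mul_nonneg (by positivity) (pm_nonneg w hw fun _ => Finset.sum_nonneg fun _ _ => mul_nonneg (hv _) (ind_nonneg _))

theorem vlossc_nonneg (w : Fin n → X → ℝ) (hw : ∀ i x, 0 ≤ w i x) {v : Ξ → ℝ} (hv : ∀ ξ, 0 ≤ v ξ)
    (F F' : A → (Fin n → X) → Ξ → Z → ℝ) (S : Finset A) : 0 ≤ vlossc w v F F' S :=
  avs_nonneg fun _ _ => ver_nonneg w hw hv _ _

/-- VERSIONS -/
theorem kAc_ver (w : Fin n → X → ℝ) (hw : ∀ i x, 0 ≤ w i x) (hs : ∀ i, ∑ x, w i x = 1) (v : Ξ → ℝ)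
    (hv : ∀ ξ, 0 ≤ v ξ) (hv1 : ∑ ξ, v ξ = 1) (u : Z → ℝ)
    (hu : ∀ z, 0 ≤ u z) (hu1 : ∑ z, u z = 1) (q : ℕ) (F F' : A → (Fin n → X) → Ξ → Z → ℝ)
    (G G' : B → (Fin n → X) → Ξ → Z → ℝ) (hF : ∀ a x ξ z, |F a x ξ z| ≤ 1) (hG : ∀ b x ξ z, |G b x ξ z| ≤ 1)
    (hF' : ∀ a x ξ z, |F' a x ξ z| ≤ 1) (hG' : ∀ b x ξ z, |G' b x ξ z| ≤ 1) (S : Finset A) (T : Finset B) :
    |kAc w v u q F G S T - kAc w v u q F' G' S T| ≤ vlossc w v F F' S + vlossc w v G G' T := by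
  have h0 : ∀ a b, |kapc w v u q (fun x ξ z => F a x ξ z * G b x ξ z) -
      kapc w v u q (fun x ξ z => F' a x ξ z * G' b x ξ z)| ≤
      2 ^ n * (pm w fun x => ∑ ξ, v ξ * ind (F a x ξ ≠ F' a x ξ)) +
        2 ^ n * (pm w fun x => ∑ ξ, v ξ * ind (G b x ξ ≠ G' b x ξ)) := by
    intro a b
    refine (kapc_ver w hw hs v hv hv1 u hu hu1 q _ _ (fun _ _ _ => abs_mul_le_one' (hF _ _ _ _) (hG _ _ _ _))
      (fun _ _ _ => abs_mul_le_one' (hF' _ _ _ _) (hG' _ _ _ _))).trans ?_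
    rw [← mul_add, ← pm_add]
    refine mul_le_mul_of_nonneg_left (pm_mono w hw fun x => ?_) (by positivity)
    rw [← Finset.sum_add_distrib]
    refine Finset.sum_le_sum fun ξ _ => ?_
    rw [← mul_add]
    refine mul_le_mul_of_nonneg_left ((ind_mono fun h => ?_).trans (ind_or_le _ _)) (hv ξ)
    by_contra hc
    push Not at hc
    exact h (by rw [hc.1, hc.2])
  have h1 : |kAc w v u q F G S T - kAc w v u q F' G' S T| ≤ avs S fun a => avs T fun b =>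
      (2 ^ n * (pm w fun x => ∑ ξ, v ξ * ind (F a x ξ ≠ F' a x ξ)) +
        2 ^ n * (pm w fun x => ∑ ξ, v ξ * ind (G b x ξ ≠ G' b x ξ))) := by
    unfold kAc
    rw [← avs_sub]
    refine (abs_avs_le _ _).trans (avs_mono fun a _ => ?_)
    rw [← avs_sub]
    exact (abs_avs_le _ _).trans (avs_mono fun b _ => h0 a b)
  refine h1.trans ?_
  have h2 : (avs S fun a => avs T fun b =>
      (2 ^ n * (pm w fun x => ∑ ξ, v ξ * ind (F a x ξ ≠ F' a x ξ)) +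
        2 ^ n * (pm w fun x => ∑ ξ, v ξ * ind (G b x ξ ≠ G' b x ξ)))) =
      (avs S fun a => avs T fun _ => 2 ^ n * (pm w fun x => ∑ ξ, v ξ * ind (F a x ξ ≠ F' a x ξ))) +
        avs S fun _ => avs T fun b => 2 ^ n * (pm w fun x => ∑ ξ, v ξ * ind (G b x ξ ≠ G' b x ξ)) := by
    rw [← avs_add]
    exact avs_congr fun a _ => avs_add _ _ _
  rw [h2]
  refine add_le_add ?_ ?_
  · refine avs_mono fun a _ => ?_
    exact avs_le_const (ver_nonneg w hw hv _ _) fun _ _ => le_rfl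
  · exact avs_le_const (vlossc_nonneg w hw hv G G' T) fun _ _ => le_rfl

/-- REMOVALS -/
theorem kAc_rem (w : Fin n → X → ℝ) (hw : ∀ i x, 0 ≤ w i x) (hs : ∀ i, ∑ x, w i x = 1) (v : Ξ → ℝ)
    (hv : ∀ ξ, 0 ≤ v ξ) (hv1 : ∑ ξ, v ξ = 1) (u : Z → ℝ)
    (hu : ∀ z, 0 ≤ u z) (hu1 : ∑ z, u z = 1) (q : ℕ) (F : A → (Fin n → X) → Ξ → Z → ℝ)
    (G : B → (Fin n → X) → Ξ → Z → ℝ)
    (hF : ∀ a x ξ z, |F a x ξ z| ≤ 1) (hG : ∀ b x ξ z, |G b x ξ z| ≤ 1) {S S' : Finset A} {T T' : Finset B}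
    (hS : S' ⊆ S) (hS0 : S'.Nonempty) (hT : T' ⊆ T) (hT0 : T'.Nonempty) :
    kAc w v u q F G S T ≤ kAc w v u q F G S' T' + (rmv S S' + rmv T T') := by
  have hk0 : ∀ a b, 0 ≤ kapc w v u q (fun x ξ z => F a x ξ z * G b x ξ z) := fun a b => kapc_nonneg w hw v hv u q _
  have hk1 : ∀ a b, kapc w v u q (fun x ξ z => F a x ξ z * G b x ξ z) ≤ 1 := fun a b =>
    kapc_le_one w hw hs v hv hv1 u hu hu1 q _ fun _ _ _ => abs_mul_le_one' (hF _ _ _ _) (hG _ _ _ _)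
  have h1 : kAc w v u q F G S T ≤ kAc w v u q F G S' T + rmv S S' :=
    avs_rem hS hS0 (fun a _ => avs_nonneg fun b _ => hk0 a b)
      (fun a _ => avs_le_const zero_le_one fun b _ => hk1 a b)
  have h2 : kAc w v u q F G S' T ≤ kAc w v u q F G S' T' + rmv T T' := by
    unfold kAc
    rw [avs_comm, avs_comm (S := S') (T := T')]
    exact avs_rem hT hT0 (fun b _ => avs_nonneg fun a _ => hk0 a b)
      (fun b _ => avs_le_const zero_le_one fun a _ => hk1 a b)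
  linarith

/-- LOSS OF A STEP -/
theorem kAc_loss (w : Fin n → X → ℝ) (hw : ∀ i x, 0 ≤ w i x) (hs : ∀ i, ∑ x, w i x = 1) (v : Ξ → ℝ)
    (hv : ∀ ξ, 0 ≤ v ξ) (hv1 : ∑ ξ, v ξ = 1) (u : Z → ℝ)
    (hu : ∀ z, 0 ≤ u z) (hu1 : ∑ z, u z = 1) (q : ℕ) (F F' : A → (Fin n → X) → Ξ → Z → ℝ)
    (G G' : B → (Fin n → X) → Ξ → Z → ℝ) (hF : ∀ a x ξ z, |F a x ξ z| ≤ 1) (hG : ∀ b x ξ z, |G b x ξ z| ≤ 1)
    (hF' : ∀ a x ξ z, |F' a x ξ z| ≤ 1) (hG' : ∀ b x ξ z, |G' b x ξ z| ≤ 1) {S S' : Finset A} {T T' : Finset B}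
    (hS : S' ⊆ S) (hS0 : S'.Nonempty) (hT : T' ⊆ T) (hT0 : T'.Nonempty) :
    kAc w v u q F G S T - ((vlossc w v F F' S + rmv S S') + (vlossc w v G G' T + rmv T T')) ≤
      kAc w v u q F' G' S' T' := by
  have h1 := kAc_ver w hw hs v hv hv1 u hu hu1 q F F' G G' hF hG hF' hG' S T
  have h2 := kAc_rem w hw hs v hv hv1 u hu hu1 q F' G' hF' hG' hS hS0 hT hT0
  have h3 := (abs_le.1 h1).2
  linarith

/-- the inner product of two class means -/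
theorem inner_mn_vecc (w : Fin n → X → ℝ) (hw : ∀ i x, 0 ≤ w i x) (v : Ξ → ℝ) (hv : ∀ ξ, 0 ≤ v ξ)
    (u : Z → ℝ) (hu : ∀ z, 0 ≤ u z) (q : ℕ)
    (F : A → (Fin n → X) → Ξ → Z → ℝ) (G : B → (Fin n → X) → Ξ → Z → ℝ) (S : Finset A) (T : Finset B) :
    inner ℝ (mn (fun a => vecc w v u q (F a)) S) (mn (fun b => vecc w v u q (G b)) T) = kAc w v u q F G S T := by
  rw [mn_eq_mS, mn_eq_mS, inner_mS_vecc w hw v hv u hu]
  unfold kAc avs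
  simp only [Finset.mul_sum]
  refine Finset.sum_congr rfl fun a _ => Finset.sum_congr rfl fun b _ => ?_
  ring

end kA

/-! ## the model -/

section model

variable {k N n : ℕ} {P Ξ : Type}

/-- functions of the points at the nodes of all times, with coins -/
abbrev Versc (k n : ℕ) (P Ξ : Type) : Type := ℕ → Nd k n → P × V k → (Fin n → P × V k) → Ξ → V k → ℝ

variable [Fintype P] [Fintype Ξ]

/-- VALUE of a pair of classes at the node of the time `τ` -/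
def XVc (N h q : ℕ) (wx : Ξ → ℝ) (fa fb : Versc k n P Ξ) (τ : ℕ) (ν : Nd k n) (S T : Finset (P × V k)) : ℝ :=
  kAc (wU (cf N h n τ) ν) wx (uW (cf N h n τ) ν) q (fa τ ν) (fb τ ν) S T

/-- VALUE at the node `ν` of the time `τ + 1` with the versions of the time `τ` -/
def YVc (N h q : ℕ) (wx : Ξ → ℝ) (fa fb : Versc k n P Ξ) (τ : ℕ) (ν : Nd k n) (S T : Finset (P × V k)) : ℝ :=
  kAc (wU (cf N h n (τ + 1)) ν) wx (uW (cf N h n (τ + 1)) ν) q (fa τ (parT N h n τ ν)) (fb τ (parT N h n τ ν)) S T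

/-- cost of the versions of the point `a` between the times `τ` and `τ + 1` -/
def vcostc (N h : ℕ) (wx : Ξ → ℝ) (fa : Versc k n P Ξ) (τ : ℕ) (ν : Nd k n) (a : P × V k) : ℝ :=
  2 ^ n * pm (wU (cf N h n (τ + 1)) ν) fun x => ∑ ξ, wx ξ * ind (fa τ (parT N h n τ ν) a x ξ ≠ fa (τ + 1) ν a x ξ)

variable [Nonempty P]

theorem cf_le_k' {h τ : ℕ} (hN : N ≤ k) : (cf N h n τ).1 ≤ k ∧ ∀ i, (cf N h n τ).2 i ≤ k :=
  ⟨(cf_fst_le _ _ _).trans hN, fun _ => (cf_snd_le _ _ _ _).trans hN⟩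

theorem XVc_nonneg (h q : ℕ) {wx : Ξ → ℝ} (hwx : ∀ ξ, 0 ≤ wx ξ) (fa fb : Versc k n P Ξ) (τ : ℕ) (ν : Nd k n)
    (S T : Finset (P × V k)) : 0 ≤ XVc N h q wx fa fb τ ν S T := kAc_nonneg _ (wU_nonneg _ _) _ hwx _ _ _ _ _ _

theorem YVc_nonneg (h q : ℕ) {wx : Ξ → ℝ} (hwx : ∀ ξ, 0 ≤ wx ξ) (fa fb : Versc k n P Ξ) (τ : ℕ) (ν : Nd k n)
    (S T : Finset (P × V k)) : 0 ≤ YVc N h q wx fa fb τ ν S T := kAc_nonneg _ (wU_nonneg _ _) _ hwx _ _ _ _ _ _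

theorem XVc_le_one (hN : N ≤ k) {h q : ℕ} {wx : Ξ → ℝ} (hwx : ∀ ξ, 0 ≤ wx ξ) (hwx1 : ∑ ξ, wx ξ = 1)
    {fa fb : Versc k n P Ξ} (hfa : ∀ τ ν a x ξ z, |fa τ ν a x ξ z| ≤ 1)
    (hfb : ∀ τ ν a x ξ z, |fb τ ν a x ξ z| ≤ 1) (τ : ℕ) (ν : Nd k n) (S T : Finset (P × V k)) :
    XVc N h q wx fa fb τ ν S T ≤ 1 :=
  kAc_le_one _ (wU_nonneg _ _) (wU_sum (cf_le_k' hN).2 _) _ hwx hwx1 _ (uW_nonneg _ _) (uW_sum (cf_le_k' hN).1 _) _ _ _
    (hfa _ _) (hfb _ _) _ _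

theorem YVc_le_one (hN : N ≤ k) {h q : ℕ} {wx : Ξ → ℝ} (hwx : ∀ ξ, 0 ≤ wx ξ) (hwx1 : ∑ ξ, wx ξ = 1)
    {fa fb : Versc k n P Ξ} (hfa : ∀ τ ν a x ξ z, |fa τ ν a x ξ z| ≤ 1)
    (hfb : ∀ τ ν a x ξ z, |fb τ ν a x ξ z| ≤ 1) (τ : ℕ) (ν : Nd k n) (S T : Finset (P × V k)) :
    YVc N h q wx fa fb τ ν S T ≤ 1 :=
  kAc_le_one _ (wU_nonneg _ _) (wU_sum (cf_le_k' hN).2 _) _ hwx hwx1 _ (uW_nonneg _ _) (uW_sum (cf_le_k' hN).1 _) _ _ _
    (hfa _ _) (hfb _ _) _ _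

theorem vcostc_nonneg (h : ℕ) {wx : Ξ → ℝ} (hwx : ∀ ξ, 0 ≤ wx ξ) (fa : Versc k n P Ξ) (τ : ℕ) (ν : Nd k n)
    (a : P × V k) : 0 ≤ vcostc N h wx fa τ ν a := ver_nonneg _ (wU_nonneg _ _) hwx _ _

/-- ONE MICRO STEP: any step, any functions -/
theorem kAc_chd {A B : Type*} (hN : N ≤ k) {st : Option (Fin n)} {c : Cfg n} (hok : Ok k N st c)
    (hc1 : (up st c).1 ≤ k) (hc2 : ∀ i, (up st c).2 i ≤ k)
    {ν : Nd k n} (hν : Val N (up st c).1 (up st c).2 ν) {q : ℕ} (hq : 1 ≤ q) {wx : Ξ → ℝ} (hwx : ∀ ξ, 0 ≤ wx ξ)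
    (hwx1 : ∑ ξ, wx ξ = 1) (F : A → (Fin n → P × V k) → Ξ → V k → ℝ) (G : B → (Fin n → P × V k) → Ξ → V k → ℝ)
    (hF : ∀ a x ξ z, |F a x ξ z| ≤ 1) (hG : ∀ a x ξ z, |G a x ξ z| ≤ 1) (S : Finset A) (T : Finset B)
    (be : ℝ) (hbe : |be| ≤ 1) :
    kAc (wU (up st c) ν) wx (uW (up st c) ν) q F G S T - q * be ^ 2 ≤
      (1 + be) / 2 * kAc (wU c (chd st c 0 ν)) wx (uW c (chd st c 0 ν)) q F G S T +
        (1 - be) / 2 * kAc (wU c (chd st c 1 ν)) wx (uW c (chd st c 1 ν)) q F G S T := by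
  cases st with
  | none =>
    rw [wU_noise, wU_noise]
    have h1 : c.1 + 1 ≤ k := by
      unfold Ok at hok
      exact le_trans hok hN
    exact kAc_win _ (wU_nonneg _ _) (wU_sum hc2 _) _ hwx hwx1 _ _ _ (uW_half h1 ν) (uW_nonneg _ _) (uW_sum hc1 _)
      be hbe q F G hF hG S T
  | some i =>
    rw [wU_upd i c 0 ν, wU_upd i c 1 ν, uW_cell, uW_cell]
    have h1 : c.2 i + 1 ≤ k := hok
    have h2 : flr (c.2 i + 1) (ν.2 i) = ν.2 i := by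
      have := hν.2 i
      unfold up at this
      simp only [Function.update_self] at this
      exact this
    exact kAc_bit _ (wU_nonneg _ _) (wU_sum hc2 _) i _ _ (fun x => wU_half h1 h2 x) be _ hwx hwx1 _ (uW_nonneg _ _)
      (uW_sum hc1 _) hq F G hF hG S T

/-- ONE BIT in the model: `I` any index which determines the node and the two classes -/
theorem psd_modelc {h τ q : ℕ} (hN : N ≤ k) (hτ : τ < (n + 1) * N) (hq : 1 ≤ q) {wx : Ξ → ℝ} (hwx : ∀ ξ, 0 ≤ wx ξ)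
    (hwx1 : ∑ ξ, wx ξ = 1) {fa fb : Versc k n P Ξ}
    (hfa : ∀ τ ν a x ξ z, |fa τ ν a x ξ z| ≤ 1) (hfb : ∀ τ ν a x ξ z, |fb τ ν a x ξ z| ≤ 1) {κ : Type*}
    {I : S2 k N n P → κ} {S T : S2 k N n P → Finset (P × V k)} (hI : Fac I (Nc (cf N h n τ))) (hS : Fac I S)
    (hT : Fac I T) (ω : S2 k N n P) :
    XVc N h q wx fa fb τ (Nc (cf N h n τ) ω) (S ω) (T ω) - q * (Pu k N n P).ce I (sgT N h n τ) ω ^ 2 ≤
      (Pu k N n P).ce I (fun ω => YVc N h q wx fa fb τ (Nc (cf N h n (τ + 1)) ω) (S ω) (T ω)) ω := by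
  by_cases h0 : cf N h n (τ + 1) = cf N h n τ
  · refine psd_triv _ (Pu_ne ω) (Nat.cast_nonneg _) fun v _ hv => ?_
    unfold YVc XVc
    rw [parT_Nc hN hτ, h0, hI v ω hv, hS v ω hv, hT v ω hv]
  · have h2 := cf_step' (h := h) hN hτ h0
    have h3 : (up (stp n τ) (cf N h n (τ + 1))).1 ≤ N := by rw [h2.1]; exact cf_fst_le _ _ _
    have hν : Val N (up (stp n τ) (cf N h n (τ + 1))).1 (up (stp n τ) (cf N h n (τ + 1))).2 (Nc (cf N h n τ) ω) := by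
      rw [h2.1]
      exact val_Nn (cf_fst_le _ _ _) _ ω
    have h4 : ∀ v : S2 k N n P, sgT N h n τ v = if bs (stp n τ) (cf N h n (τ + 1)) v = 0 then 1 else -1 := by
      intro v
      unfold sgT
      rw [if_neg h0, sg_Nc h2.2 h3]
    have h5 : ∀ v : S2 k N n P, Nc (cf N h n (τ + 1)) v =
        chd (stp n τ) (cf N h n (τ + 1)) (bs (stp n τ) (cf N h n (τ + 1)) v) (Nc (cf N h n τ) v) := by
      intro v
      have := Nc_eq (stp n τ) (cf N h n (τ + 1)) v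
      rwa [h2.1] at this
    refine psd_ce (Pu k N n P) (Pu_ne ω)
      (y1 := kAc (wU (cf N h n (τ + 1)) (chd (stp n τ) (cf N h n (τ + 1)) 0 (Nc (cf N h n τ) ω))) wx
        (uW (cf N h n (τ + 1)) (chd (stp n τ) (cf N h n (τ + 1)) 0 (Nc (cf N h n τ) ω))) q
        (fa τ (Nc (cf N h n τ) ω)) (fb τ (Nc (cf N h n τ) ω)) (S ω) (T ω))
      (y2 := kAc (wU (cf N h n (τ + 1)) (chd (stp n τ) (cf N h n (τ + 1)) 1 (Nc (cf N h n τ) ω))) wx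
        (uW (cf N h n (τ + 1)) (chd (stp n τ) (cf N h n (τ + 1)) 1 (Nc (cf N h n τ) ω))) q
        (fa τ (Nc (cf N h n τ) ω)) (fb τ (Nc (cf N h n τ) ω)) (S ω) (T ω)) (fun v _ hv => ?_) (fun be hbe => ?_)
    · unfold YVc
      rw [parT_Nc hN hτ, h4 v, h5 v, hI v ω hv, hS v ω hv, hT v ω hv]
      have h6 := bs_lt (stp n τ) (cf N h n (τ + 1)) v
      rcases (by omega : bs (stp n τ) (cf N h n (τ + 1)) v = 0 ∨ bs (stp n τ) (cf N h n (τ + 1)) v = 1) with h7 | h7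
      · left
        rw [h7]
        exact ⟨if_pos rfl, rfl⟩
      · right
        rw [h7]
        exact ⟨if_neg one_ne_zero, rfl⟩
    · unfold XVc
      have h6 := kAc_chd hN h2.2 (by rw [h2.1]; exact (cf_le_k' hN).1) (by rw [h2.1]; exact (cf_le_k' hN).2) hν hq hwx
        hwx1 (fa τ (Nc (cf N h n τ) ω)) (fb τ (Nc (cf N h n τ) ω)) (hfa _ _) (hfb _ _) (S ω) (T ω) be hbe
      rw [h2.1] at h6
      exact h6

/-- VERSIONS AND REMOVALS in the model -/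
theorem loss_modelc {h τ q : ℕ} (hN : N ≤ k) {wx : Ξ → ℝ} (hwx : ∀ ξ, 0 ≤ wx ξ)
    (hwx1 : ∑ ξ, wx ξ = 1) {fa fb : Versc k n P Ξ}
    (hfa : ∀ τ ν a x ξ z, |fa τ ν a x ξ z| ≤ 1) (hfb : ∀ τ ν a x ξ z, |fb τ ν a x ξ z| ≤ 1) (ν : Nd k n)
    {S S' T T' : Finset (P × V k)} (hS : S' ⊆ S) (hS0 : S'.Nonempty) (hT : T' ⊆ T) (hT0 : T'.Nonempty) :
    YVc N h q wx fa fb τ ν S T - ((avs S (vcostc N h wx fa τ ν) + rmv S S') + (avs T (vcostc N h wx fb τ ν) + rmv T T')) ≤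
      XVc N h q wx fa fb (τ + 1) ν S' T' :=
  kAc_loss _ (wU_nonneg _ _) (wU_sum (cf_le_k' hN).2 _) _ hwx hwx1 _ (uW_nonneg _ _) (uW_sum (cf_le_k' hN).1 _) q _ _ _ _
    (hfa _ _) (hfb _ _) (hfa _ _) (hfb _ _) hS hS0 hT hT0

end model

end

end Pool.Agent.GMC
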