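import Pool.Agent.GMC.Inst
import Pool.Agent.GMC.Rare
import Pool.Agent.GM.Transfer2

/-!
# GMC/BriH: the hypotheses of C2 (`InsH`) from the model `GM/Sq`, and the conclusion back in `Sq` (helper83)

`a ≠ b` vertices, `o : Enu n a b` the others, offset `s`, families `R i` (`FOn {i}ᶜ`, `FLe 1`), product tests `GM.PT` of
the faces `a` and `b`, rounding `h`; `insU` : the data of C2 (no coins; `FA` = the family of `a` which misses `b` =
`R b`, `FB` = `R a`), product tests at exact nodes and cells of scale `e - (h' + 3)`.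

* `insU_H` : `InsH (insU ..) p eps0`, `p` = number of changes of version in `Sq`;
* `K_insU` : the kernel `I.K` at a sample point is `GM.TS` (GM/Transfer2) at the node of the point of `Sq`;
* `pair_of_S2` : a bound of `Pu.Pr (∃ t ≤ T, 2 r ≤ I.K ..)` is a bound of `Pm.Pr (∃ t ≤ T, 2 r ≤ TS ..)`.
-/

set_option autoImplicit false
set_option linter.unusedSectionVars false

namespace Pool.Agent.GMC

open Finset Pool.Agent.PWZ Pool.Agent.M3 Pool.Agent.M3.Bin Pool.Agent.M3.Mod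

noncomputable section

variable {k N n : ℕ} {ι Θ P : Type} [Fintype ι] [DecidableEq ι]

/-- THE DATA of C2 of the pair `a`, `b` -/
def insU {a b : ι} (N : ℕ) (o : Enu n a b) (s : V k) (h h' hh q L : ℕ) (r th : ℝ) (R : ι → GM.Fam k ι P) :
    Ins k N n P Unit where
  h := h'
  hh := hh
  q := q
  L := L
  r := r
  th := th
  wx := fun _ => 1
  FA := fun e g xa x _ z => FmA o s h (R b) e g xa x z
  FB := fun e g xb x _ z => FmB o s h (R a) e g xb x z

theorem ind_le_of_imp {p q : Prop} (h : p → q) : ind p ≤ ind q := by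
  by_cases h1 : p
  · rw [ind_of h1, ind_of (h h1)]
  · rw [ind_not h1]
    exact ind_nonneg _

/-- sums over the micro times of a function which vanishes inside the macro steps -/
theorem sum_macroU (N n : ℕ) {f : ℕ → ℝ} {g : ℕ → ℝ} (h0 : ∀ t, t % (n + 1) ≠ 0 → f t = 0)
    (h1 : ∀ t < N, f ((n + 1) * t) ≤ g t) : ∑ t ∈ range ((n + 1) * N), f t ≤ ∑ t ∈ range N, g t := by
  induction N with
  | zero => simp
  | succ N ih =>
    have e1 : (n + 1) * (N + 1) = (n + 1) * N + (n + 1) := by ring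
    rw [e1, Finset.sum_range_add, Finset.sum_range_succ g]
    refine add_le_add (ih fun t ht => h1 t (by omega)) ?_
    rw [Finset.sum_range_succ']
    have h2 : ∀ t ∈ range n, f ((n + 1) * N + (t + 1)) = 0 := by
      intro t ht
      refine h0 _ ?_
      rw [Nat.mul_add_mod, Nat.mod_eq_of_lt (by have := Finset.mem_range.mp ht; omega)]
      omega
    rw [Finset.sum_eq_zero h2, zero_add, Nat.add_zero]
    exact h1 N (Nat.lt_succ_self N)

section law

variable [Fintype Θ] [Nonempty Θ] [Fintype P] [Nonempty P]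

/-- a function of `Sq` which does not depend on the public randomness -/
theorem E_bri_const {a b : ι} (hab : a ≠ b) (o : Enu n a b) (f : GM.Sq k N ι Θ P → ℝ) (g : S2 k N n P → ℝ)
    (hfg : ∀ θ ω, f (ptS hab o θ ω) = g ω) : (GM.Pm : FP (GM.Sq k N ι Θ P)).E f = (Pu k N n P).E g := by
  rw [E_bri hab o]
  simp only [hfg]
  exact FP.E_const _ _

/-- number of changes of version of one face -/
theorem ver_le {a b : ι} (hab : a ≠ b) (o : Enu n a b) (s : V k) {h h' hh q L : ℕ} {r th : ℝ}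
    {R : ι → GM.Fam k ι P} (F : Face k n P Unit) (vx : S2 k N n P → P × V k) (R0 : GM.Fam k ι P)
    (hF : ∀ (θ : Θ) e (ω : S2 k N n P), F e (nd e (ct ω) (nw ω)) (vx ω) (vo ω) () =
      fun z => GM.fv s h R0 e (ptS hab o θ ω) (z + s)) {p : ℝ}
    (hp : ∑ t ∈ range N, (GM.Pm : FP (GM.Sq k N ι Θ P)).E (fun ω => ind (GM.fv s h R0 (N - t) ω ≠
      GM.fv s h R0 (N - (t + 1)) ω)) ≤ p) :
    ∑ t ∈ range ((n + 1) * N), (Pu k N n P).E (fun ω => ∑ ξ : Unit, (fun _ => (1 : ℝ)) ξ *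
      ind ((insU N o s h h' hh q L r th R).ver F t ((insU N o s h h' hh q L r th R).nu t ω) (vx ω) (vo ω) ξ ≠
        (insU N o s h h' hh q L r th R).ver F (t + 1) ((insU N o s h h' hh q L r th R).nu (t + 1) ω) (vx ω) (vo ω) ξ)) ≤
      p := by
  refine le_trans (sum_macroU N n (g := fun t => (GM.Pm : FP (GM.Sq k N ι Θ P)).E (fun ω =>
    ind (GM.fv s h R0 (N - t) ω ≠ GM.fv s h R0 (N - (t + 1)) ω))) ?_ ?_) hp
  · intro t ht
    refine (FP.E_congr _ (fun ω _ => ?_)).trans (FP.E_const _ (0 : ℝ))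
    rw [Fintype.sum_unique, one_mul]
    refine ind_not (not_not.mpr ?_)
    have h1 : (cf N hh n (t + 1)).1 = (cf N hh n t).1 := by
      rw [cf_fst_succ, if_neg ht, Nat.sub_zero]
    change F (cf N hh n t).1 (nd (cf N hh n t).1 (ct ω) (nw ω)) (vx ω) (vo ω) () =
      F (cf N hh n (t + 1)).1 (nd (cf N hh n (t + 1)).1 (ct ω) (nw ω)) (vx ω) (vo ω) ()
    rw [h1]
  · intro t ht
    obtain ⟨θ0⟩ := (inferInstance : Nonempty Θ)
    have h1 : (cf N hh n ((n + 1) * t)).1 = N - t := by rw [cf_macro]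
    have h2 : (cf N hh n ((n + 1) * t + 1)).1 = N - (t + 1) := by
      rw [cf_fst_succ, h1, if_pos (Nat.mul_mod_right _ _)]
      omega
    have h3 : (GM.Pm : FP (GM.Sq k N ι Θ P)).E (fun ω => ind (GM.fv s h R0 (N - t) ω ≠ GM.fv s h R0 (N - (t + 1)) ω)) =
        (Pu k N n P).E (fun ω => ind (GM.fv s h R0 (N - t) (ptS hab o θ0 ω) ≠
          GM.fv s h R0 (N - (t + 1)) (ptS hab o θ0 ω))) := by
      refine E_bri_const hab o _ _ fun θ ω => ?_
      have h4 : ∀ e, GM.fv s h R0 e (ptS hab o θ ω) = GM.fv s h R0 e (ptS hab o θ0 ω) := by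
        intro e
        unfold GM.fv
        rw [Gm_pt', Gm_pt']
        rfl
      rw [h4, h4]
    rw [h3]
    refine FP.E_mono _ fun ω _ => ?_
    rw [Fintype.sum_unique, one_mul]
    refine ind_le_of_imp fun h5 h6 => h5 ?_
    change F (cf N hh n ((n + 1) * t)).1 (nd (cf N hh n ((n + 1) * t)).1 (ct ω) (nw ω)) (vx ω) (vo ω) () =
      F (cf N hh n ((n + 1) * t + 1)).1 (nd (cf N hh n ((n + 1) * t + 1)).1 (ct ω) (nw ω)) (vx ω) (vo ω) ()
    rw [h1, h2, hF θ0, hF θ0, h6]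

/-- the product tests -/
theorem pt_le {h' : ℕ} {G : Fm k n P} {θ r : ℝ} (hPT : PTx h' N G θ r) (F0 : P × V k → (Fin n → P × V k) → V k → ℝ)
    (hF0 : ∀ a x d, |F0 a x d| ≤ 1) {e : ℕ} (he : e ≤ N) (g : V k × ℕ) (a' : P × V k) (ca : V k) (c : Fin n → V k)
    (v : Fin n → P × V k → (Fin n → P × V k) → V k → ℝ) (hv : ∀ i a x z, |v i a x z| ≤ 1)
    (hvi : ∀ i a x y, (∀ j, j ≠ i → x j = y j) → ∀ z, v i a x z = v i a y z) :
    ∑ a ∈ SC (P := P) h' e ca, ∑ x ∈ Fintype.piFinset fun i => SC (P := P) h' e (c i), ∑ ξ : Unit, (fun _ => (1 : ℝ)) ξ *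
      ind (r ≤ |av e g.1 (fun d => G e g a x d * F0 a' x d * ∏ i, v i a x d)|) ≤
    θ * ((SC (P := P) h' e ca).card * (Fintype.piFinset fun i => SC (P := P) h' e (c i)).card) := by
  classical
  have h1 := hPT e he g ca c (F0 a') v (fun x d => hF0 _ _ _) hv hvi
  rw [Finset.card_product] at h1
  push_cast at h1
  refine le_trans (le_of_eq ?_) h1
  rw [← Finset.sum_product', Finset.card_filter]
  push_cast
  refine Finset.sum_congr rfl fun q _ => ?_
  rw [Fintype.sum_unique, one_mul]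
  have h2 : (fun d => G e g q.1 q.2 d * F0 a' q.2 d * ∏ i, v i q.1 q.2 d) =
      fun d => G e g q.1 q.2 d * (F0 a' q.2 d * ∏ i, v i q.1 q.2 d) := by
    funext d
    ring
  simp only [h2]
  unfold ind
  split_ifs <;> simp

/-- **InsH from the product tests of `GM/Model`** -/
theorem insU_H {a b : ι} (hab : a ≠ b) (o : Enu n a b) (s : V k) {h h' hh q L : ℕ} {r th p eps0 : ℝ}
    {R : ι → GM.Fam k ι P} (hN : N ≤ k) (hn : 4 * n ≤ 2 ^ hh) (hhh : hh ≤ h' + 3) (hh' : h ≤ h') (hq : 1 ≤ q)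
    (hR : ∀ i, GM.FOn ({i}ᶜ : Set ι) (R i)) (hR1 : ∀ i, GM.FLe 1 (R i)) {θ r0 H : ℝ} (hθ : 0 ≤ θ) (hH : 1 ≤ H)
    (hPa : GM.PT a h N (R a) θ r0 H) (hPb : GM.PT b h N (R b) θ r0 H)
    (hth : th = θ * 2 ^ ((h' - h) * (n + 1))) (heps : eps0 = r0 + 2 * ((2 : ℝ) ^ h)⁻¹) (heps0 : 0 ≤ eps0)
    (hr : 4 * eps0 ^ (2 * q) ≤ r) (hrpos : 0 < r) (hr1 : r ≤ 1) (hthpos : 0 < th) (hth1 : th < 1) (hp0 : 0 ≤ p)
    (hpa : ∑ t ∈ range N, (GM.Pm : FP (GM.Sq k N ι Θ P)).E (fun ω => ind (GM.fv s h (R a) (N - t) ω ≠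
      GM.fv s h (R a) (N - (t + 1)) ω)) ≤ p)
    (hpb : ∑ t ∈ range N, (GM.Pm : FP (GM.Sq k N ι Θ P)).E (fun ω => ind (GM.fv s h (R b) (N - t) ω ≠
      GM.fv s h (R b) (N - (t + 1)) ω)) ≤ p) :
    InsH (insU N o s h h' hh q L r th R) p eps0 where
  hN := hN
  hn := hn
  hh := hhh
  q1 := hq
  eps00 := heps0
  rr := hr
  rpos := hrpos
  r1 := hr1
  thpos := hthpos
  th1 := hth1
  p0 := hp0
  wx0 := fun _ => zero_le_one
  wx1 := by rw [Fintype.sum_unique]; rfl
  a := {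
    le := fun e g xa x _ z => hR1 b _ _ _ _
    ver := ver_le (Θ := Θ) hab o s (insU N o s h h' hh q L r th R).FA va (R b)
      (fun θ e ω => by
        funext z
        exact (fv_A hab o s θ h e (hR b) ω z).symm) hpb
    pt := by
      intro e he g a' ca c v hv hvi
      have h1 := PTx_A hh' hN hab o s (hR b) (hR1 b) hθ hH hPb
      rw [← hth, ← heps] at h1
      exact pt_le h1 (fun y x d => FmB o s h (R a) e g y x d) (fun _ _ _ => hR1 a _ _ _ _) he g a' ca c v hv hvi }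
  b := {
    le := fun e g xa x _ z => hR1 a _ _ _ _
    ver := ver_le (Θ := Θ) hab o s (insU N o s h h' hh q L r th R).FB vb (R a)
      (fun θ e ω => by
        funext z
        exact (fv_B hab o s θ h e (hR a) ω z).symm) hpa
    pt := by
      intro e he g a' ca c v hv hvi
      have h1 := PTx_B hh' hN hab o s (hR a) (hR1 a) hθ hH hPa
      rw [← hth, ← heps] at h1
      exact pt_le h1 (fun y x d => FmA o s h (R b) e g y x d) (fun _ _ _ => hR1 b _ _ _ _) he g a' ca c v hv hvi }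

end law

/-! ## the kernel -/

/-- no coin -/
theorem kapc_unit {X Z : Type*} [Fintype X] [Fintype Z] (w : Fin n → X → ℝ) (u : Z → ℝ) (q : ℕ)
    (f : (Fin n → X) → Z → ℝ) :
    GM99.kapc w (fun _ : Unit => (1 : ℝ)) u q (fun x _ z => f x z) = GM99.kap w u q f := by
  unfold GM99.kapc GM99.kap
  refine GM99.pm_congr _ fun x => GM99.pm_congr _ fun y => ?_
  unfold GM99.pc
  rw [Fintype.sum_unique, Finset.prod_const_one, one_mul]

/-- the argument moved by the offset -/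
theorem kap_shift {X : Type*} [Fintype X] (w : Fin n → X → ℝ) (u : V k → ℝ) (s : V k) (q : ℕ)
    (f : (Fin n → X) → V k → ℝ) :
    GM99.kap w (fun z => u (z + s)) q (fun x z => f x (z + s)) = GM99.kap w u q f := by
  unfold GM99.kap
  refine GM99.pm_congr _ fun x => GM99.pm_congr _ fun y => ?_
  congr 1
  exact Equiv.sum_comp (Equiv.addRight s) (fun z => u z * ∏ e : Fin n → Bool, f (GM99.mixp x y e) z)

/-- the others of the pair -/
def oth {a b : ι} (o : Enu n a b) (j : Fin n) : ι := (o j).1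

theorem oth_inj {a b : ι} (o : Enu n a b) : Function.Injective (oth o) := fun _ _ h =>
  o.injective (Subtype.ext h)

theorem oth_range {a b : ι} (o : Enu n a b) (j : ι) : j ∈ ({a, b} : Finset ι) ↔ j ∉ Set.range (oth o) := by
  rw [Finset.mem_insert, Finset.mem_singleton]
  constructor
  · rintro h ⟨i, hi⟩
    have h1 := (o i).2
    have h2 : (o i).1 = j := hi
    rw [h2] at h1
    rcases h with h | h
    · exact h1.1 h
    · exact h1.2 h
  · intro h
    rcases cases_o o j with h1 | h1 | ⟨i, h1⟩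
    · exact Or.inl h1
    · exact Or.inr h1
    · exact absurd ⟨i, h1.symm⟩ h

theorem exo_oth {a b : ι} (o : Enu n a b) (x : ι → P × V k) (om : Fin n → P × V k) (i : ι) (hi : i = a ∨ i = b) :
    GM.exo (oth o) x om i = x i := by
  refine GM.exo_not _ _ ((oth_range o i).mp ?_)
  rw [Finset.mem_insert, Finset.mem_singleton]
  exact hi

section law2

variable [Fintype Θ] [Nonempty Θ] [Fintype P] [Nonempty P]

/-- **the kernel of C2 at a sample point is the kernel `TS` at the point of `Sq`** -/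
theorem K_insU {a b : ι} (hab : a ≠ b) (o : Enu n a b) (s : V k) {h h' hh q L : ℕ} {r th : ℝ}
    {R : ι → GM.Fam k ι P} (hR : ∀ i, GM.FOn ({i}ᶜ : Set ι) (R i)) (t : ℕ) (θ : Θ) (ω : S2 k N n P) :
    (insU N o s h h' hh q L r th R).K t ((insU N o s h h' hh q L r th R).nu t ω) (va ω) (vb ω) =
      GM.TS s h R {a, b} (oth o) q (cf N hh n t) (ptS hab o θ ω) := by
  have hw : GMC.wU (P := P) (cf N hh n t) (Nc (cf N hh n t) ω) = wU (cf N hh n t) (GM.nuc s (oth o) (cf N hh n t) (ptS hab o θ ω)) := by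
    funext i x
    unfold wU
    have h1 : (GM.nuc s (oth o) (cf N hh n t) (ptS hab o θ ω)).2 i = (Nc (cf N hh n t) ω).2 i := by
      change flr _ (GM.vx (o i).1 (ptS hab o θ ω)).2 = flr _ (vo ω i).2
      rw [vx_pt_o]
    rw [h1]
  have hu : GMC.uW (cf N hh n t) (Nc (cf N hh n t) ω) =
      fun z => uW (cf N hh n t) (GM.nuc s (oth o) (cf N hh n t) (ptS hab o θ ω)) (z + s) := by
    funext z
    unfold uW
    have h1 : (GM.nuc s (oth o) (cf N hh n t) (ptS hab o θ ω)).1.1 = (Nc (cf N hh n t) ω).1.1 + s := by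
      change (GM.Yn s (cf N hh n t).1 (ptS hab o θ ω)).1 = _
      rw [Yn_pt]
      rfl
    rw [h1, add_sub_add_right_eq_sub]
  change GM99.kapc (wU (cf N hh n t) (Nc (cf N hh n t) ω)) (fun _ : Unit => (1 : ℝ)) (uW (cf N hh n t) (Nc (cf N hh n t) ω)) q
    (fun x _ z => FmA o s h (R b) (cf N hh n t).1 (Nc (cf N hh n t) ω).1 (va ω) x z *
      FmB o s h (R a) (cf N hh n t).1 (Nc (cf N hh n t) ω).1 (vb ω) x z) = _
  rw [kapc_unit, hw, hu]
  unfold GM.TS
  refine Eq.trans ?_ (kap_shift _ _ s q _)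
  congr 1
  funext x z
  rw [Finset.prod_pair hab, mul_comm]
  have hG : GM.Gm s h (cf N hh n t).1 (ptS hab o θ ω) = rnd s h (cf N hh n t).1 (Nc (cf N hh n t) ω).1 :=
    Gm_pt' hab o s θ h _ ω
  rw [hG]
  unfold FmA FmB
  have ha : GM.vx a (ptS hab o θ ω) = va ω := vx_pt_a hab o θ ω
  have hb : GM.vx b (ptS hab o θ ω) = vb ω := vx_pt_b hab o θ ω
  have hex : ∀ i, i ≠ b → gl o (va ω) (va ω) x i = GM.exo (oth o) (GM.vs (ptS hab o θ ω)) x i := by
    intro i hi
    rcases cases_o o i with h1 | h1 | ⟨j, h1⟩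
    · rw [h1, gl_a, exo_oth o _ _ _ (Or.inl rfl)]
      exact ha.symm
    · exact absurd h1 hi
    · rw [h1, gl_o]
      exact (GM.exo_o (oth_inj o) _ _ j).symm
  have hex' : ∀ i, i ≠ a → gl o (vb ω) (vb ω) x i = GM.exo (oth o) (GM.vs (ptS hab o θ ω)) x i := by
    intro i hi
    rcases cases_o o i with h1 | h1 | ⟨j, h1⟩
    · exact absurd h1 hi
    · rw [h1, gl_b hab, exo_oth o _ _ _ (Or.inr rfl)]
      exact hb.symm
    · rw [h1, gl_o]
      exact (GM.exo_o (oth_inj o) _ _ j).symm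
  have e1 := congrFun (hR a (cf N hh n t).1 (rnd s h (cf N hh n t).1 (Nc (cf N hh n t) ω).1) hex') (z + s)
  have e2 := congrFun (hR b (cf N hh n t).1 (rnd s h (cf N hh n t).1 (Nc (cf N hh n t) ω).1) hex) (z + s)
  rw [e1, e2]

/-- **back to `Sq`** -/
theorem pair_of_S2 {a b : ι} (hab : a ≠ b) (o : Enu n a b) (s : V k) {h h' hh q L : ℕ} {r th : ℝ}
    {R : ι → GM.Fam k ι P} (hR : ∀ i, GM.FOn ({i}ᶜ : Set ι) (R i)) {x : ℝ}
    (hx : (Pu k N n P).Pr (fun ω => ∃ t ≤ (n + 1) * N, 2 * r ≤ (insU N o s h h' hh q L r th R).K t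
      ((insU N o s h h' hh q L r th R).nu t ω) (va ω) (vb ω)) ≤ x) :
    (GM.Pm : FP (GM.Sq k N ι Θ P)).Pr (fun ω => ∃ t ≤ (n + 1) * N,
      2 * r ≤ GM.TS s h R {a, b} (oth o) q (cf N hh n t) ω) ≤ x := by
  refine Pr_bri hab o fun θ => ?_
  refine le_trans (le_of_eq ?_) hx
  unfold FP.Pr
  refine FP.E_congr _ fun ω _ => ?_
  congr 1
  refine propext (exists_congr fun t => and_congr_right fun _ => ?_)
  rw [K_insU hab o s hR t θ ω]

end law2

end

end Pool.Agent.GMC
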