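import Pool.Agent.GMC.Hp

/-!
# GMC/C3Id: the identities of row C (C3.3 and note 3712 (0), (1)), every number of known vertices (helper45)

`W` = known vertices, labels `L J : Om → Λ` (`J : Finset W`), `N` = known variable (exact known vertices and path); all
entropies are AT THE POINT `N w` (GMC/Hp).  `Lf S` = the family of the labels of the index sets in `S`,
`sz r` = index sets of size `r`, `szlt r` = of size `< r`, `J.ssubsets` = proper subsets.
* `MM r` = `∑ |I| = r, H(L_I | L_<I) - H(L_(r) | L_(<r))`, `cI I v` = `I(v; L_I | L_<I)`;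
* `MM_nonneg`; `MM_digit` (one more known variable `K`: digit), `digit_all`;
* `MM_add_lt`, `MM_add_eq`, `MM_add_gt` : an addition at `K0` (label `K0` refined, the others unchanged);
* `mp_add_lt`, `mp_add_self`, `mp_add_other` : the functional `m_I^+ = I(L_I; W | L_<I)`; `MM_le_mp` : leave one out.
-/

set_option autoImplicit false
set_option linter.unusedSectionVars false

namespace Pool.Agent.GMC

open Finset Pool.Agent.PWZ Pool.Agent.M3 Pool.Agent.M3.FP

noncomputable section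

variable {Om : Type*} [Fintype Om] (P : FP Om)
variable {W Λ ν ν' : Type*} [Fintype W] [DecidableEq W]

/-- the labels of the index sets in `S` -/
def Lf (L : Finset W → Om → Λ) (S : Finset (Finset W)) (w : Om) : S → Λ := fun J => L J.1 w

/-- index sets of size `r` -/
def sz (W : Type*) [Fintype W] [DecidableEq W] (r : ℕ) : Finset (Finset W) := univ.filter fun J => J.card = r

/-- index sets of size `< r` -/
def szlt (W : Type*) [Fintype W] [DecidableEq W] (r : ℕ) : Finset (Finset W) := univ.filter fun J => J.card < r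

theorem mem_sz {r : ℕ} {J : Finset W} : J ∈ sz W r ↔ J.card = r := by simp [sz]

theorem mem_szlt {r : ℕ} {J : Finset W} : J ∈ szlt W r ↔ J.card < r := by simp [szlt]

theorem Lf_one (L : Finset W → Om → Λ) {S : Finset (Finset W)} {J : Finset W} (h : J ∈ S) : Fac (Lf L S) (L J) := by
  intro x y hxy
  exact congrFun hxy ⟨J, h⟩

theorem Lf_of {κ : Type*} {X : Om → κ} (L : Finset W → Om → Λ) {S : Finset (Finset W)} (h : ∀ J ∈ S, Fac X (L J)) :
    Fac X (Lf L S) := by
  intro x y hxy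
  funext J
  exact h J.1 J.2 x y hxy

theorem Lf_sub (L : Finset W → Om → Λ) {S S' : Finset (Finset W)} (h : S' ⊆ S) : Fac (Lf L S) (Lf L S') :=
  Lf_of L fun _ hJ => Lf_one L (h hJ)

theorem Lf_eq {L L' : Finset W → Om → Λ} {S : Finset (Finset W)} (h : ∀ J ∈ S, L' J = L J) : Lf L' S = Lf L S := by
  funext w J
  unfold Lf
  rw [h J.1 J.2]

/-- `M_r` at a point -/
def MM (L : Finset W → Om → Λ) (N : Om → ν) (r : ℕ) (w : Om) : ℝ :=
  ∑ I ∈ sz W r, hp P (L I) (Lf L I.ssubsets) N w - hp P (Lf L (sz W r)) (Lf L (szlt W r)) N w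

/-- `c_I(v)` at a point -/
def cI {κ : Type*} (L : Finset W → Om → Λ) (N : Om → ν) (I : Finset W) (v : Om → κ) (w : Om) : ℝ :=
  ip P v (L I) (Lf L I.ssubsets) N w

/-- `m_I^+` at a point, `X` = the family of labels whose index does not contain `I` -/
def mp {κ : Type*} (L : Finset W → Om → Λ) (N : Om → ν) (I : Finset W) (X : Om → κ) (w : Om) : ℝ :=
  ip P (L I) X (Lf L I.ssubsets) N w

theorem MM_fac (L : Finset W → Om → Λ) (N : Om → ν) (r : ℕ) : Fac N (MM P L N r) := by
  unfold MM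
  exact (Fac.finsum _ (fun I _ => hp_fac P (L I) _ N)).sub (hp_fac P _ _ N)

theorem cI_nonneg {κ : Type*} (L : Finset W → Om → Λ) (N : Om → ν) (I : Finset W) (v : Om → κ) {w : Om}
    (hw : P.p w ≠ 0) : 0 ≤ cI P L N I v w := ip_nonneg P _ _ _ N hw

theorem mp_nonneg {κ : Type*} (L : Finset W → Om → Λ) (N : Om → ν) (I : Finset W) (X : Om → κ) {w : Om}
    (hw : P.p w ≠ 0) : 0 ≤ mp P L N I X w := ip_nonneg P _ _ _ N hw

theorem ssub_lt {I J : Finset W} {r : ℕ} (hI : I.card = r) (hJ : J ∈ I.ssubsets) : J ∈ szlt W r := by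
  rw [mem_szlt, ← hI]
  exact Finset.card_lt_card (Finset.mem_ssubsets.1 hJ)

/-- the labels of one more index set -/
theorem hp_insert {ι : Type*} (L : Finset W → Om → Λ) (Z : Om → ι) (N : Om → ν) {S : Finset (Finset W)} {I : Finset W}
    {w : Om} (hw : P.p w ≠ 0) :
    hp P (Lf L (insert I S)) Z N w = hp P (Lf L S) Z N w + hp P (L I) (fun u => (Lf L S u, Z u)) N w := by
  rw [← hp_chain P (L I) (Lf L S) Z N hw]
  refine hp_congr P ?_ (Fac.fst _ _) (Fac.refl _) ?_ (Fac.fst _ _) (Fac.refl _) w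
  · refine (Fac.fst _ _).trans (Fac.prod (Lf_one L (mem_insert_self _ _)) (Lf_sub L (subset_insert _ _)))
  · refine (Fac.fst _ _).trans (Lf_of L fun J hJ => ?_)
    rcases mem_insert.1 hJ with h | h
    · rw [h]; exact Fac.fst _ _
    · exact (Fac.snd _ _).trans (Lf_one L h)

theorem hp_empty {ι : Type*} (L : Finset W → Om → Λ) (Z : Om → ι) (N : Om → ν) {w : Om} (hw : P.p w ≠ 0) :
    hp P (Lf L ∅) Z N w = 0 := by
  have h1 : Fac Z (Lf L ∅) := Lf_of L fun J hJ => absurd hJ (notMem_empty J)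
  have h2 := hp_chain P (Lf L (∅ : Finset (Finset W))) Z (fun _ : Om => ()) N hw
  have h3 : hp P (fun u => (Lf L (∅ : Finset (Finset W)) u, Z u)) (fun _ : Om => ()) N w = hp P Z (fun _ : Om => ()) N w := by
    refine hp_congr P ((Fac.fst _ _).trans (Fac.snd _ _)) (Fac.fst _ _) (Fac.refl _)
      ((Fac.fst _ _).trans (h1.prod (Fac.refl Z))) (Fac.fst _ _) (Fac.refl _) w
  have h4 : hp P (Lf L (∅ : Finset (Finset W))) (fun u => (Z u, (fun _ : Om => ()) u)) N w = hp P (Lf L ∅) Z N w := by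
    refine hp_congr P (Fac.fst _ _) ((Fac.fst _ _).trans (Fac.fst _ _)) (Fac.refl _) (Fac.fst _ _)
      ((Fac.fst _ _).trans ((Fac.refl Z).prod (Fac.const Z ()))) (Fac.refl _) w
  rw [h3, h4] at h2
  linarith

theorem MM_nonneg (L : Finset W → Om → Λ) (N : Om → ν) (r : ℕ) {w : Om} (hw : P.p w ≠ 0) : 0 ≤ MM P L N r w := by
  have key : ∀ S : Finset (Finset W), S ⊆ sz W r → hp P (Lf L S) (Lf L (szlt W r)) N w ≤
      ∑ I ∈ S, hp P (L I) (Lf L I.ssubsets) N w := by
    intro S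
    induction S using Finset.induction_on with
    | empty => intro _; rw [hp_empty P L _ N hw, Finset.sum_empty]
    | insert I S hI ih =>
      intro h
      rw [hp_insert P L _ N hw, Finset.sum_insert hI]
      have h1 := ih ((subset_insert _ _).trans h)
      have h2 : hp P (L I) (fun u => (Lf L S u, Lf L (szlt W r) u)) N w ≤ hp P (L I) (Lf L I.ssubsets) N w := by
        refine hp_anti P (L I) N ?_ hw
        refine (Fac.fst _ _).trans ((Fac.snd _ _).trans (Lf_sub L fun J hJ => ?_))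
        exact ssub_lt (mem_sz.1 (h (mem_insert_self _ _))) hJ
      linarith
  unfold MM
  have := key (sz W r) (Subset.refl _)
  linarith

/-- conditioning on one more variable which everybody knows -/
theorem hp_swap {κ ι ι' : Type*} (X : Om → κ) (Z : Om → ι) (K : Om → ι') (N : Om → ν) (w : Om) :
    hp P X (fun u => (Z u, K u)) N w = hp P X (fun u => (K u, Z u)) N w := by
  refine hp_congr P (Fac.fst _ _) ?_ (Fac.refl _) (Fac.fst _ _) ?_ (Fac.refl _) w
  · intro x y h; simp only [Prod.mk.injEq] at h ⊢; tauto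
  · intro x y h; simp only [Prod.mk.injEq] at h ⊢; tauto

/-- DIGIT: the known variable `N` is refined to `K` -/
theorem MM_digit (L : Finset W → Om → Λ) {N : Om → ν} {K : Om → ν'} (h : Fac K N) (r : ℕ) {w : Om} (hw : P.p w ≠ 0) :
    P.ce N (MM P L K r) w = MM P L N r w + ip P K (Lf L (sz W r)) (Lf L (szlt W r)) N w -
      ∑ I ∈ sz W r, cI P L N I K w := by
  have e1 : (MM P L K r) = fun u => (fun u => ∑ I ∈ sz W r, (fun I u => hp P (L I) (Lf L I.ssubsets) K u) I u) u -
      hp P (Lf L (sz W r)) (Lf L (szlt W r)) K u := rfl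
  rw [e1, P.ce_sub, P.ce_sum, ce_hp P _ _ h]
  have e2 : ∀ I ∈ sz W r, P.ce N (fun u => hp P (L I) (Lf L I.ssubsets) K u) w =
      hp P (L I) (Lf L I.ssubsets) N w - cI P L N I K w := by
    intro I _
    have e3 := ce_hp P (L I) (Lf L I.ssubsets) h w
    have e4 : P.ce N (fun u => hp P (L I) (Lf L I.ssubsets) K u) w = P.ce N (hp P (L I) (Lf L I.ssubsets) K) w := rfl
    rw [e4, e3, hp_swap]
    unfold cI
    rw [ip_comm P _ _ _ N hw]
    unfold ip
    ring
  rw [Finset.sum_congr rfl e2, Finset.sum_sub_distrib, hp_swap]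
  unfold MM
  rw [ip_comm P K _ _ N hw]
  unfold ip
  ring

/-- one more size -/
theorem ip_szlt_succ {κ : Type*} (L : Finset W → Om → Λ) (N : Om → ν) (D : Om → κ) (r : ℕ) {w : Om} (hw : P.p w ≠ 0) :
    ip P D (Lf L (szlt W (r + 1))) (fun _ => ()) N w = ip P D (Lf L (szlt W r)) (fun _ => ()) N w +
      ip P D (Lf L (sz W r)) (Lf L (szlt W r)) N w := by
  rw [ip_comm P D _ _ N hw, ip_comm P D _ _ N hw, ip_comm P D _ _ N hw]
  have h := ip_chain P (Lf L (sz W r)) (Lf L (szlt W r)) D (fun _ : Om => ()) N hw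
  have h1 : ip P (fun u => (Lf L (sz W r) u, Lf L (szlt W r) u)) D (fun _ : Om => ()) N w =
      ip P (Lf L (szlt W (r + 1))) D (fun _ : Om => ()) N w := by
    refine ip_congr P ?_ (Fac.fst _ _) (Fac.fst _ _) (Fac.refl _) ?_ (Fac.fst _ _) (Fac.fst _ _) (Fac.refl _) w
    · refine (Fac.fst _ _).trans (Lf_of L fun J hJ => ?_)
      rw [mem_szlt] at hJ
      rcases Nat.lt_or_ge J.card r with h2 | h2
      · exact (Fac.snd _ _).trans (Lf_one L (mem_szlt.2 h2))
      · exact (Fac.fst _ _).trans (Lf_one L (mem_sz.2 (by omega)))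
    · refine (Fac.fst _ _).trans (Fac.prod (Lf_sub L fun J hJ => ?_) (Lf_sub L fun J hJ => ?_))
      · rw [mem_sz] at hJ; rw [mem_szlt]; omega
      · rw [mem_szlt] at hJ ⊢; omega
  have h2 : ip P (Lf L (sz W r)) D (fun u => (Lf L (szlt W r) u, (fun _ : Om => ()) u)) N w =
      ip P (Lf L (sz W r)) D (Lf L (szlt W r)) N w := by
    refine ip_congr P (Fac.fst _ _) (Fac.fst _ _) ((Fac.fst _ _).trans (Fac.fst _ _)) (Fac.refl _) (Fac.fst _ _)
      (Fac.fst _ _) ((Fac.fst _ _).trans ((Fac.refl _).prod (Fac.const _ ()))) (Fac.refl _) w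
  rw [h1, h2] at h
  exact h

/-- DIGIT, all sizes: `I(D; all) = ∑ c_I(D) + ∑ Delta M_r` -/
theorem digit_all (L : Finset W → Om → Λ) {N : Om → ν} {K : Om → ν'} (h : Fac K N) (k : ℕ) {w : Om} (hw : P.p w ≠ 0) :
    ip P K (Lf L (szlt W k)) (fun _ => ()) N w =
      ∑ r ∈ range k, (∑ I ∈ sz W r, cI P L N I K w + (P.ce N (MM P L K r) w - MM P L N r w)) := by
  have h0 : ∀ r, ∑ I ∈ sz W r, cI P L N I K w + (P.ce N (MM P L K r) w - MM P L N r w) =
      ip P K (Lf L (sz W r)) (Lf L (szlt W r)) N w := by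
    intro r
    rw [MM_digit P L h r hw]
    ring
  rw [Finset.sum_congr rfl (fun r _ => h0 r)]
  induction k with
  | zero =>
    rw [Finset.range_zero, Finset.sum_empty]
    have e1 : szlt W 0 = ∅ := by
      ext J
      simp [szlt]
    rw [ip_comm P K _ _ N hw, e1]
    unfold ip
    rw [hp_empty P L _ N hw, hp_empty P L _ N hw]
    ring
  | succ k ih => rw [Finset.sum_range_succ, ← ih, ip_szlt_succ P L N K k hw]

/-! ## additions -/

/-- `L'` arises from `L` by an addition at `K0` -/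
structure Add (L L' : Finset W → Om → Λ) (K0 : Finset W) : Prop where
  fac : Fac (L' K0) (L K0)
  oth : ∀ J, J ≠ K0 → L' J = L J

variable {L L' : Finset W → Om → Λ} {K0 : Finset W}

/-- the family of new labels = old labels and the new label at `K0` -/
theorem Add.Lf_new (h : Add L L' K0) {S : Finset (Finset W)} (hS : K0 ∈ S) :
    Fac (Lf L' S) (fun u => (L' K0 u, Lf L S u)) := by
  refine (Lf_one L' hS).prod (Lf_of L fun J hJ => ?_)
  by_cases hJ0 : J = K0
  · rw [hJ0]; exact (Lf_one L' hS).trans h.fac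
  · rw [← h.oth J hJ0]; exact Lf_one L' hJ

theorem Add.Lf_old (h : Add L L' K0) (S : Finset (Finset W)) :
    Fac (fun u => (L' K0 u, Lf L S u)) (Lf L' S) := by
  refine Lf_of L' fun J hJ => ?_
  by_cases hJ0 : J = K0
  · rw [hJ0]; exact Fac.fst _ _
  · rw [h.oth J hJ0]; exact (Fac.snd _ _).trans (Lf_one L hJ)

theorem Add.Lf_same (h : Add L L' K0) {S : Finset (Finset W)} (hS : K0 ∉ S) : Lf L' S = Lf L S :=
  Lf_eq fun J hJ => h.oth J (fun h0 => hS (h0 ▸ hJ))

/-- smaller sizes do not change -/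
theorem Add.MM_lt (h : Add L L' K0) (N : Om → ν) {r : ℕ} (hr : r < K0.card) (w : Om) : MM P L' N r w = MM P L N r w := by
  have h1 : K0 ∉ sz W r := by rw [mem_sz]; omega
  have h2 : K0 ∉ szlt W r := by rw [mem_szlt]; omega
  unfold MM
  rw [h.Lf_same h1, h.Lf_same h2]
  congr 1
  refine Finset.sum_congr rfl (fun I hI => ?_)
  have h3 : K0 ∉ I.ssubsets := fun h3 => h2 (ssub_lt (mem_sz.1 hI) h3)
  rw [h.Lf_same h3, h.oth I (fun h4 => h1 (h4 ▸ hI))]

/-- the entropy of a refined label -/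
theorem hp_refine {κ ι κ' : Type*} {X : Om → κ} {X' : Om → κ'} (Z : Om → ι) (N : Om → ν) (h : Fac X' X) {w : Om}
    (hw : P.p w ≠ 0) : hp P X' Z N w = hp P X Z N w + hp P X' (fun u => (X u, Z u)) N w := by
  rw [← hp_chain P X' X Z N hw]
  exact hp_congr P ((Fac.fst _ _).trans ((Fac.refl _).prod h)) (Fac.fst _ _) (Fac.refl _)
    ((Fac.fst _ _).trans (Fac.fst _ _)) (Fac.fst _ _) (Fac.refl _) w

/-- the size of `K0` itself: `Delta M_s = I(v; L_(<=s) | L_(<=K0)) >= 0` -/
theorem Add.MM_eq (h : Add L L' K0) (N : Om → ν) {w : Om} (hw : P.p w ≠ 0) :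
    MM P L' N K0.card w = MM P L N K0.card w +
      ip P (L' K0) (Lf L (szlt W (K0.card + 1))) (Lf L K0.powerset) N w := by
  set s := K0.card with hs
  have h1 : K0 ∈ sz W s := mem_sz.2 rfl
  have h2 : K0 ∉ szlt W s := by rw [mem_szlt]; omega
  have e1 : ∑ I ∈ sz W s, hp P (L' I) (Lf L' I.ssubsets) N w = ∑ I ∈ sz W s, hp P (L I) (Lf L I.ssubsets) N w +
      hp P (L' K0) (fun u => (L K0 u, Lf L K0.ssubsets u)) N w := by
    rw [← Finset.add_sum_erase _ _ h1, ← Finset.add_sum_erase (sz W s) (fun I => hp P (L I) (Lf L I.ssubsets) N w) h1]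
    have e2 : ∑ I ∈ (sz W s).erase K0, hp P (L' I) (Lf L' I.ssubsets) N w =
        ∑ I ∈ (sz W s).erase K0, hp P (L I) (Lf L I.ssubsets) N w := by
      refine Finset.sum_congr rfl (fun I hI => ?_)
      rw [mem_erase] at hI
      have h3 : K0 ∉ I.ssubsets := fun h3 => h2 (ssub_lt (mem_sz.1 hI.2) h3)
      rw [h.Lf_same h3, h.oth I hI.1]
    have h4 : K0 ∉ K0.ssubsets := fun h4 => (Finset.mem_ssubsets.1 h4).2 (Subset.refl _)
    rw [e2, h.Lf_same h4, hp_refine P (Lf L K0.ssubsets) N h.fac hw]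
    ring
  have e3 : hp P (Lf L' (sz W s)) (Lf L' (szlt W s)) N w = hp P (Lf L (sz W s)) (Lf L (szlt W s)) N w +
      hp P (L' K0) (fun u => (Lf L (sz W s) u, Lf L (szlt W s) u)) N w := by
    rw [h.Lf_same h2, ← hp_chain P (L' K0) (Lf L (sz W s)) (Lf L (szlt W s)) N hw]
    exact hp_congr P ((Fac.fst _ _).trans (h.Lf_new h1)) (Fac.fst _ _) (Fac.refl _)
      ((Fac.fst _ _).trans (h.Lf_old _)) (Fac.fst _ _) (Fac.refl _) w
  have e4 : hp P (L' K0) (fun u => (L K0 u, Lf L K0.ssubsets u)) N w = hp P (L' K0) (Lf L K0.powerset) N w := by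
    refine hp_congr P (Fac.fst _ _) ?_ (Fac.refl _) (Fac.fst _ _) ?_ (Fac.refl _) w
    · refine (Fac.fst _ _).trans (Lf_of L fun J hJ => ?_)
      by_cases hJ0 : J = K0
      · rw [hJ0]; exact Fac.fst _ _
      · refine (Fac.snd _ _).trans (Lf_one L ?_)
        rw [Finset.mem_ssubsets]
        exact Finset.ssubset_iff_subset_ne.2 ⟨Finset.mem_powerset.1 hJ, hJ0⟩
    · refine (Fac.fst _ _).trans (Fac.prod (Lf_one L (Finset.mem_powerset.2 (Subset.refl _))) (Lf_sub L fun J hJ => ?_))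
      exact Finset.mem_powerset.2 (Finset.mem_ssubsets.1 hJ).1
  have e5 : hp P (L' K0) (fun u => (Lf L (sz W s) u, Lf L (szlt W s) u)) N w =
      hp P (L' K0) (fun u => (Lf L (szlt W (s + 1)) u, Lf L K0.powerset u)) N w := by
    refine hp_congr P (Fac.fst _ _) ?_ (Fac.refl _) (Fac.fst _ _) ?_ (Fac.refl _) w
    · have hJ : ∀ J : Finset W, J.card ≤ s → Fac (fun u => (Lf L (sz W s) u, Lf L (szlt W s) u)) (L J) := by
        intro J hJ
        rcases Nat.lt_or_ge J.card s with h3 | h3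
        · exact (Fac.snd _ _).trans (Lf_one L (mem_szlt.2 h3))
        · exact (Fac.fst _ _).trans (Lf_one L (mem_sz.2 (by omega)))
      refine (Fac.fst _ _).trans (Fac.prod (Lf_of L fun J hJ' => hJ J ?_) (Lf_of L fun J hJ' => hJ J ?_))
      · rw [mem_szlt] at hJ'; omega
      · exact Finset.card_le_card (Finset.mem_powerset.1 hJ')
    · refine (Fac.fst _ _).trans ((Fac.fst _ _).trans (Fac.prod (Lf_sub L fun J hJ => ?_) (Lf_sub L fun J hJ => ?_)))
      · rw [mem_sz] at hJ; rw [mem_szlt]; omega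
      · rw [mem_szlt] at hJ ⊢; omega
  unfold MM ip
  rw [e1, e3, e4, e5]
  ring

/-- larger sizes: `Delta M_r = I(v; L_(r) | L_(<r)) - ∑ c_I(v)` -/
theorem Add.MM_gt (h : Add L L' K0) (N : Om → ν) {r : ℕ} (hr : K0.card < r) {w : Om} (hw : P.p w ≠ 0) :
    MM P L' N r w = MM P L N r w + ip P (L' K0) (Lf L (sz W r)) (Lf L (szlt W r)) N w -
      ∑ I ∈ (sz W r).filter (fun I => K0 ⊂ I), cI P L N I (L' K0) w := by
  have h1 : K0 ∉ sz W r := by rw [mem_sz]; omega
  have h2 : K0 ∈ szlt W r := mem_szlt.2 hr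
  have e1 : ∀ I ∈ sz W r, hp P (L' I) (Lf L' I.ssubsets) N w = hp P (L I) (Lf L I.ssubsets) N w -
      (if K0 ⊂ I then cI P L N I (L' K0) w else 0) := by
    intro I hI
    rw [h.oth I (fun h3 => h1 (h3 ▸ hI))]
    by_cases h3 : K0 ⊂ I
    · rw [if_pos h3]
      have h4 : K0 ∈ I.ssubsets := Finset.mem_ssubsets.2 h3
      have e2 : hp P (L I) (Lf L' I.ssubsets) N w = hp P (L I) (fun u => (L' K0 u, Lf L I.ssubsets u)) N w :=
        hp_congr P (Fac.fst _ _) ((Fac.fst _ _).trans (h.Lf_new h4)) (Fac.refl _) (Fac.fst _ _)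
          ((Fac.fst _ _).trans (h.Lf_old _)) (Fac.refl _) w
      rw [e2]
      unfold cI
      rw [ip_comm P _ _ _ N hw]
      unfold ip
      ring
    · rw [if_neg h3, sub_zero, h.Lf_same (fun h4 => h3 (Finset.mem_ssubsets.1 h4))]
  have e3 : hp P (Lf L' (sz W r)) (Lf L' (szlt W r)) N w = hp P (Lf L (sz W r)) (Lf L (szlt W r)) N w -
      ip P (L' K0) (Lf L (sz W r)) (Lf L (szlt W r)) N w := by
    rw [h.Lf_same h1]
    have e2 : hp P (Lf L (sz W r)) (Lf L' (szlt W r)) N w =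
        hp P (Lf L (sz W r)) (fun u => (L' K0 u, Lf L (szlt W r) u)) N w :=
      hp_congr P (Fac.fst _ _) ((Fac.fst _ _).trans (h.Lf_new h2)) (Fac.refl _) (Fac.fst _ _)
        ((Fac.fst _ _).trans (h.Lf_old _)) (Fac.refl _) w
    rw [e2, ip_comm P (L' K0) _ _ N hw]
    unfold ip
    ring
  unfold MM
  rw [Finset.sum_congr rfl e1, Finset.sum_sub_distrib, e3, Finset.sum_filter]
  ring

/-! ## the functional `m_I^+` -/

/-- conditioning on `v`: `I(X; Y | v, Z) = I(X; Y | Z) + I(X; v | Y, Z) - I(X; v | Z)` -/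
theorem ip_cond {κ κ' ι ι' : Type*} (X : Om → κ) (Y : Om → κ') (v : Om → ι') (Z : Om → ι) (N : Om → ν) (w : Om) :
    ip P X Y (fun u => (v u, Z u)) N w = ip P X Y Z N w + ip P X v (fun u => (Y u, Z u)) N w - ip P X v Z N w := by
  have h : hp P X (fun u => (Y u, (fun u => (v u, Z u)) u)) N w = hp P X (fun u => (v u, (fun u => (Y u, Z u)) u)) N w := by
    refine hp_congr P (Fac.fst _ _) ?_ (Fac.refl _) (Fac.fst _ _) ?_ (Fac.refl _) w
    · intro x y h; simp only [Prod.mk.injEq] at h ⊢; tauto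
    · intro x y h; simp only [Prod.mk.injEq] at h ⊢; tauto
  unfold ip
  rw [h]
  ring

/-- addition at a proper subset of `I`: the only loss is `c_I(v)` -/
theorem Add.mp_lt {κ : Type*} (h : Add L L' K0) (N : Om → ν) {I : Finset W} (hI : K0 ⊂ I) (X : Om → κ) {w : Om}
    (hw : P.p w ≠ 0) : mp P L' N I X w = mp P L N I X w +
      ip P (L I) (L' K0) (fun u => (X u, Lf L I.ssubsets u)) N w - cI P L N I (L' K0) w := by
  have h1 : I ≠ K0 := fun h0 => by rw [h0] at hI; exact hI.2 (Subset.refl _)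
  have h4 : K0 ∈ I.ssubsets := Finset.mem_ssubsets.2 hI
  unfold mp cI
  rw [h.oth I h1, ip_comm P (L' K0) (L I) _ N hw]
  have e := ip_cond P (L I) X (L' K0) (Lf L I.ssubsets) N w
  rw [← e]
  exact ip_congr P (Fac.fst _ _) (Fac.fst _ _) ((Fac.fst _ _).trans (h.Lf_new h4)) (Fac.refl _) (Fac.fst _ _)
    (Fac.fst _ _) ((Fac.fst _ _).trans (h.Lf_old _)) (Fac.refl _) w

/-- addition at `I` itself: no loss -/
theorem Add.mp_self {κ : Type*} (h : Add L L' K0) (N : Om → ν) (X : Om → κ) {w : Om} (hw : P.p w ≠ 0) :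
    mp P L N K0 X w ≤ mp P L' N K0 X w := by
  have h4 : K0 ∉ K0.ssubsets := fun h4 => (Finset.mem_ssubsets.1 h4).2 (Subset.refl _)
  unfold mp
  rw [h.Lf_same h4]
  exact ip_mono P X _ N ((Fac.fst _ _).trans h.fac) hw

/-- a finer family `X'` and no change of `L_I`, `L_<I`: no loss -/
theorem mp_other {κ κ' : Type*} (L : Finset W → Om → Λ) (N : Om → ν) (I : Finset W) {X : Om → κ} {X' : Om → κ'}
    (hX : Fac X' X) {w : Om} (hw : P.p w ≠ 0) : mp P L N I X w ≤ mp P L N I X' w := by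
  unfold mp
  rw [ip_comm P (L I) X _ N hw, ip_comm P (L I) X' _ N hw]
  exact ip_mono P (L I) _ N ((Fac.fst _ _).trans hX) hw

/-- if `K0` is not contained in `I`, then `L_I`, `L_<I` do not change -/
theorem Add.mp_same {κ : Type*} (h : Add L L' K0) (N : Om → ν) {I : Finset W} (hI : ¬ K0 ⊆ I) (X : Om → κ) (w : Om) :
    mp P L' N I X w = mp P L N I X w := by
  unfold mp
  have h1 : I ≠ K0 := fun h0 => hI (h0 ▸ Subset.refl _)
  rw [h.oth I h1, h.Lf_same (fun h4 => hI (Finset.mem_ssubsets.1 h4).1)]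

/-- DIGIT for `m_I^+`: the loss is at most `c_I(D)` -/
theorem mp_digit {κ : Type*} (L : Finset W → Om → Λ) {N : Om → ν} {K : Om → ν'} (h : Fac K N) (I : Finset W)
    (X : Om → κ) {w : Om} (hw : P.p w ≠ 0) :
    P.ce N (mp P L K I X) w = mp P L N I X w + ip P (L I) K (fun u => (X u, Lf L I.ssubsets u)) N w -
      cI P L N I K w := by
  unfold mp cI
  rw [ce_ip P (L I) X _ h w, ip_comm P K (L I) _ N hw, ← ip_cond P (L I) X K (Lf L I.ssubsets) N w]
  refine ip_congr P (Fac.fst _ _) (Fac.fst _ _) ?_ (Fac.refl _) (Fac.fst _ _) (Fac.fst _ _) ?_ (Fac.refl _) w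
  · intro x y h; simp only [Prod.mk.injEq] at h ⊢; tauto
  · intro x y h; simp only [Prod.mk.injEq] at h ⊢; tauto

/-- LEAVE ONE OUT: `M_s ≤ ∑ m_I^+` -/
theorem MM_le_mp {κ : Type*} (L : Finset W → Om → Λ) (N : Om → ν) (s : ℕ) (X : Finset W → Om → κ)
    (hX : ∀ I J : Finset W, I.card = s → J.card ≤ s → J ≠ I → Fac (X I) (L J)) {w : Om} (hw : P.p w ≠ 0) :
    MM P L N s w ≤ ∑ I ∈ sz W s, mp P L N I (X I) w := by
  have key : ∀ S : Finset (Finset W), S ⊆ sz W s →
      ∑ I ∈ S, hp P (L I) (fun u => (X I u, Lf L I.ssubsets u)) N w ≤ hp P (Lf L S) (Lf L (szlt W s)) N w := by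
    intro S
    induction S using Finset.induction_on with
    | empty => intro _; rw [hp_empty P L _ N hw, Finset.sum_empty]
    | insert I S hI ih =>
      intro h
      rw [hp_insert P L _ N hw, Finset.sum_insert hI]
      have h1 := ih ((subset_insert _ _).trans h)
      have hIs : I.card = s := mem_sz.1 (h (mem_insert_self _ _))
      have h2 : hp P (L I) (fun u => (X I u, Lf L I.ssubsets u)) N w ≤
          hp P (L I) (fun u => (Lf L S u, Lf L (szlt W s) u)) N w := by
        refine hp_anti P (L I) N ?_ hw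
        refine (Fac.fst _ _).trans ((Fac.fst _ _).trans (Fac.prod (Lf_of L fun J hJ => ?_) (Lf_of L fun J hJ => ?_)))
        · refine hX I J hIs (mem_sz.1 (h (mem_insert_of_mem hJ))).le (fun h0 => hI (h0 ▸ hJ))
        · rw [mem_szlt] at hJ
          exact hX I J hIs hJ.le (fun h0 => by rw [h0] at hJ; omega)
      linarith
  have h := key (sz W s) (Subset.refl _)
  unfold MM mp ip
  rw [Finset.sum_sub_distrib]
  linarith

end

end Pool.Agent.GMC
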