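import Pool.Agent.GMC.C3Id

/-!
# GMC/C3Op: operations which refine ALL labels at once (row C, block CM, CM.2 (O1)-(O3); helper45)

`OpN L L' N` : every label `L' I` determines `L I` (given the known variable `N`).  `cO L L' N I = I(L'_<I ; L_I | L_<I)`.
* `O1` : `I(A;X|Z) - I(Z';A|Z) <= I(A';X'|Z')` for refinements `A', X', Z'`; `O1_step` : with a digit `K` before;
* `MM_op`, `MM_op_ge` (O2) : `M_r(L') >= M_r(L) - ∑ cO`;
* `MM_step` : digit and operation together; `O3` : the sum over all sizes, `MM_zero`.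
-/

set_option autoImplicit false
set_option linter.unusedSectionVars false

namespace Pool.Agent.GMC

open Finset Pool.Agent.PWZ Pool.Agent.M3 Pool.Agent.M3.FP

noncomputable section

variable {Om : Type*} [Fintype Om] (P : FP Om)
variable {W Λ Λ' ν ν' : Type*} [Fintype W] [DecidableEq W]

/-- an OPERATION: every label is refined (given the known variable) -/
def OpN (L : Finset W → Om → Λ) (L' : Finset W → Om → Λ') (N : Om → ν) : Prop :=
  ∀ I, Fac (fun u => (L' I u, N u)) (L I)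

/-- the loss `c_I` of an operation -/
def cO (L : Finset W → Om → Λ) (L' : Finset W → Om → Λ') (N : Om → ν) (I : Finset W) (w : Om) : ℝ :=
  ip P (Lf L' I.ssubsets) (L I) (Lf L I.ssubsets) N w

theorem cO_nonneg (L : Finset W → Om → Λ) (L' : Finset W → Om → Λ') (N : Om → ν) (I : Finset W) {w : Om}
    (hw : P.p w ≠ 0) : 0 ≤ cO P L L' N I w := ip_nonneg P _ _ _ N hw

theorem cO_fac (L : Finset W → Om → Λ) (L' : Finset W → Om → Λ') (N : Om → ν) (I : Finset W) : Fac N (cO P L L' N I) :=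
  ip_fac P _ _ _ N

theorem cI_fac {κ : Type*} (L : Finset W → Om → Λ) (N : Om → ν) (I : Finset W) (v : Om → κ) : Fac N (cI P L N I v) :=
  ip_fac P _ _ _ N

theorem OpN.Lf {L : Finset W → Om → Λ} {L' : Finset W → Om → Λ'} {N : Om → ν} (h : OpN L L' N) (S : Finset (Finset W)) :
    Fac (fun u => (Lf L' S u, N u)) (Lf L S) := by
  refine Lf_of L fun J hJ => ?_
  refine Fac.trans (Fac.prod ?_ (Fac.snd _ _)) (h J)
  exact (Fac.fst _ _).trans (Lf_one L' hJ)

/-- the entropy of a refined variable -/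
theorem hp_refine' {κ ι κ' : Type*} {X : Om → κ} {X' : Om → κ'} (Z : Om → ι) (N : Om → ν)
    (h : Fac (fun u => (X' u, Z u, N u)) X) {w : Om} (hw : P.p w ≠ 0) :
    hp P X' Z N w = hp P X Z N w + hp P X' (fun u => (X u, Z u)) N w := by
  rw [← hp_chain P X' X Z N hw]
  refine hp_congr P ((Fac.fst _ _).prod h) (Fac.fst _ _) (Fac.refl _) ?_ (Fac.fst _ _) (Fac.refl _) w
  exact (Fac.fst _ _).trans (Fac.fst X' X)

/-- (O1): the only loss of `I(A;X|Z)` under refinements is `I(Z';A|Z)` -/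
theorem O1 {κ₁ κ₂ κ₃ κ₄ κ₅ κ₆ : Type*} {A : Om → κ₁} {A' : Om → κ₂} {X : Om → κ₃} {X' : Om → κ₄} {Z : Om → κ₅}
    {Z' : Om → κ₆} (N : Om → ν) (hA : Fac (fun u => (A' u, N u)) A) (hX : Fac (fun u => (X' u, N u)) X)
    (hZ : Fac (fun u => (Z' u, N u)) Z) {w : Om} (hw : P.p w ≠ 0) :
    ip P A X Z N w - ip P Z' A Z N w ≤ ip P A' X' Z' N w := by
  have h1 : ip P A X Z' N w ≤ ip P A' X Z' N w := by
    refine ip_mono P X Z' N ?_ hw
    exact Fac.trans (Fac.prod (Fac.fst _ _) ((Fac.snd _ _).trans (Fac.snd _ _))) hA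
  have h2 : ip P A' X Z' N w ≤ ip P A' X' Z' N w := by
    rw [ip_comm P A' X Z' N hw, ip_comm P A' X' Z' N hw]
    refine ip_mono P A' Z' N ?_ hw
    exact Fac.trans (Fac.prod (Fac.fst _ _) ((Fac.snd _ _).trans (Fac.snd _ _))) hX
  have h3 : ip P A X Z' N w = ip P A X (fun u => (Z' u, Z u)) N w := by
    refine ip_congr P (Fac.fst _ _) (Fac.fst _ _) (Fac.prod (Fac.fst _ _) hZ) (Fac.refl _) (Fac.fst _ _) (Fac.fst _ _)
      ((Fac.fst _ _).trans (Fac.fst _ _)) (Fac.refl _) w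
  have h4 := ip_cond P A X Z' Z N w
  have h5 := ip_nonneg P A Z' (fun u => (X u, Z u)) N hw
  rw [ip_comm P Z' A Z N hw]
  linarith

/-- (O1) with a digit before: known variable `N`, then `K`, then the refinement -/
theorem O1_step {κ₁ κ₂ κ₃ κ₄ κ₅ κ₆ : Type*} {A : Om → κ₁} {A' : Om → κ₂} {X : Om → κ₃} {X' : Om → κ₄} {Z : Om → κ₅}
    {Z' : Om → κ₆} {N : Om → ν} {K : Om → ν'} (h : Fac K N) (hA : Fac (fun u => (A' u, K u)) A)
    (hX : Fac (fun u => (X' u, K u)) X) (hZ : Fac (fun u => (Z' u, K u)) Z) {w : Om} (hw : P.p w ≠ 0) :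
    ip P A X Z N w - ip P K A Z N w - P.ce N (ip P Z' A Z K) w ≤ P.ce N (ip P A' X' Z' K) w := by
  have h1 : P.ce N (fun v => ip P A X Z K v - ip P Z' A Z K v) w ≤ P.ce N (ip P A' X' Z' K) w :=
    P.ce_mono (fun v hv => O1 P K hA hX hZ hv) w
  rw [P.ce_sub] at h1
  have h2 := ce_ip P A X Z h w
  have h3 : ip P A X (fun u => (Z u, K u)) N w = ip P A X (fun u => (K u, Z u)) N w := by
    refine ip_congr P (Fac.fst _ _) (Fac.fst _ _) ?_ (Fac.refl _) (Fac.fst _ _) (Fac.fst _ _) ?_ (Fac.refl _) w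
    · intro x y hxy; simp only [Prod.mk.injEq] at hxy ⊢; tauto
    · intro x y hxy; simp only [Prod.mk.injEq] at hxy ⊢; tauto
  have h4 := ip_cond P A X K Z N w
  have h5 := ip_nonneg P A K (fun u => (X u, Z u)) N hw
  have h6 := ip_comm P K A Z N hw
  have h7 : P.ce N (fun v => ip P A X Z K v) w = P.ce N (ip P A X Z K) w := rfl
  have h8 : P.ce N (fun v => ip P Z' A Z K v) w = P.ce N (ip P Z' A Z K) w := rfl
  rw [h7, h8] at h1
  linarith

theorem hp_gen {κ₁ κ₂ κ₃ κ₄ : Type*} {X : Om → κ₁} {X' : Om → κ₂} {Z : Om → κ₃} {Z' : Om → κ₄} {N : Om → ν}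
    (hX : Fac (fun u => (X' u, N u)) X) (hZ : Fac (fun u => (Z' u, N u)) Z) {w : Om} (hw : P.p w ≠ 0) :
    hp P X' Z' N w = hp P X Z N w - ip P Z' X Z N w + hp P X' (fun u => (X u, Z' u)) N w := by
  rw [hp_refine' P Z' N (Fac.trans (Fac.prod (Fac.fst _ _) ((Fac.snd _ _).trans (Fac.snd _ _))) hX) hw,
    ip_comm P Z' X Z N hw]
  unfold ip
  have e : hp P X Z' N w = hp P X (fun u => (Z' u, Z u)) N w :=
    hp_congr P (Fac.fst _ _) (Fac.prod (Fac.fst _ _) hZ) (Fac.refl _) (Fac.fst _ _)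
      ((Fac.fst _ _).trans (Fac.fst _ _)) (Fac.refl _) w
  rw [e]
  ring

/-- (O2), the identity -/
theorem MM_op {L : Finset W → Om → Λ} {L' : Finset W → Om → Λ'} {N : Om → ν} (h : OpN L L' N) (r : ℕ) {w : Om}
    (hw : P.p w ≠ 0) :
    MM P L' N r w = MM P L N r w - ∑ I ∈ sz W r, cO P L L' N I w +
      ip P (Lf L' (szlt W r)) (Lf L (sz W r)) (Lf L (szlt W r)) N w +
      (∑ I ∈ sz W r, hp P (L' I) (fun u => (L I u, Lf L' I.ssubsets u)) N w -
        hp P (Lf L' (sz W r)) (fun u => (Lf L (sz W r) u, Lf L' (szlt W r) u)) N w) := by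
  have e1 : ∑ I ∈ sz W r, hp P (L' I) (Lf L' I.ssubsets) N w = ∑ I ∈ sz W r, hp P (L I) (Lf L I.ssubsets) N w -
      ∑ I ∈ sz W r, cO P L L' N I w + ∑ I ∈ sz W r, hp P (L' I) (fun u => (L I u, Lf L' I.ssubsets u)) N w := by
    rw [← Finset.sum_sub_distrib, ← Finset.sum_add_distrib]
    refine Finset.sum_congr rfl fun I _ => ?_
    rw [hp_gen P (h I) (h.Lf I.ssubsets) hw]
    rfl
  have e2 := hp_gen P (h.Lf (sz W r)) (h.Lf (szlt W r)) hw
  unfold MM
  rw [e1, e2]
  ring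

/-- the bracket of (O2) is nonnegative -/
theorem op_bracket (L : Finset W → Om → Λ) (L' : Finset W → Om → Λ') (N : Om → ν) (r : ℕ) {w : Om} (hw : P.p w ≠ 0) :
    hp P (Lf L' (sz W r)) (fun u => (Lf L (sz W r) u, Lf L' (szlt W r) u)) N w ≤
      ∑ I ∈ sz W r, hp P (L' I) (fun u => (L I u, Lf L' I.ssubsets u)) N w := by
  have key : ∀ S : Finset (Finset W), S ⊆ sz W r →
      hp P (Lf L' S) (fun u => (Lf L (sz W r) u, Lf L' (szlt W r) u)) N w ≤
        ∑ I ∈ S, hp P (L' I) (fun u => (L I u, Lf L' I.ssubsets u)) N w := by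
    intro S
    induction S using Finset.induction_on with
    | empty => intro _; rw [hp_empty P L' _ N hw, Finset.sum_empty]
    | insert I S hI ih =>
      intro h
      rw [hp_insert P L' _ N hw, Finset.sum_insert hI]
      have h1 := ih ((subset_insert _ _).trans h)
      have hIr : I ∈ sz W r := h (mem_insert_self _ _)
      have h2 : hp P (L' I) (fun u => (Lf L' S u, (fun u => (Lf L (sz W r) u, Lf L' (szlt W r) u)) u)) N w ≤
          hp P (L' I) (fun u => (L I u, Lf L' I.ssubsets u)) N w := by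
        refine hp_anti P (L' I) N ?_ hw
        refine (Fac.fst _ _).trans ((Fac.snd _ _).trans (Fac.prod ?_ ?_))
        · exact (Fac.fst _ _).trans (Lf_one L hIr)
        · refine (Fac.snd _ _).trans (Lf_sub L' fun J hJ => ?_)
          exact ssub_lt (mem_sz.1 hIr) hJ
      linarith
  exact key (sz W r) (Subset.refl _)

/-- (O2) -/
theorem MM_op_ge {L : Finset W → Om → Λ} {L' : Finset W → Om → Λ'} {N : Om → ν} (h : OpN L L' N) (r : ℕ) {w : Om}
    (hw : P.p w ≠ 0) : MM P L N r w - ∑ I ∈ sz W r, cO P L L' N I w ≤ MM P L' N r w := by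
  rw [MM_op P h r hw]
  have h1 := ip_nonneg P (Lf L' (szlt W r)) (Lf L (sz W r)) (Lf L (szlt W r)) N hw
  have h2 := op_bracket P L L' N r hw
  linarith

/-- digit and operation together -/
theorem MM_step {L : Finset W → Om → Λ} {L' : Finset W → Om → Λ'} {N : Om → ν} {K : Om → ν'} (h : Fac K N)
    (ho : OpN L L' K) (r : ℕ) {w : Om} (hw : P.p w ≠ 0) :
    MM P L N r w + ip P K (Lf L (sz W r)) (Lf L (szlt W r)) N w - ∑ I ∈ sz W r, cI P L N I K w -
      ∑ I ∈ sz W r, P.ce N (cO P L L' K I) w ≤ P.ce N (MM P L' K r) w := by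
  have h1 : P.ce N (fun v => (MM P L K r) v - (fun v => ∑ I ∈ sz W r, (fun I v => cO P L L' K I v) I v) v) w ≤
      P.ce N (MM P L' K r) w := P.ce_mono (fun v hv => MM_op_ge P ho r hv) w
  rw [P.ce_sub, P.ce_sum] at h1
  have h2 := MM_digit P L h r hw
  have h3 : P.ce N (fun v => (MM P L K r) v) w = P.ce N (MM P L K r) w := rfl
  have h4 : ∑ I ∈ sz W r, P.ce N (fun v => cO P L L' K I v) w = ∑ I ∈ sz W r, P.ce N (cO P L L' K I) w := rfl
  rw [h2, h4] at h1
  linarith

theorem sz_zero : sz W 0 = {∅} := by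
  ext J
  rw [mem_sz, Finset.card_eq_zero, Finset.mem_singleton]

theorem szlt_zero : szlt W 0 = ∅ := by
  ext J
  simp [szlt]

theorem MM_zero (L : Finset W → Om → Λ) (N : Om → ν) {w : Om} : MM P L N 0 w = 0 := by
  unfold MM
  rw [sz_zero, szlt_zero, Finset.sum_singleton, sub_eq_zero]
  have e : (∅ : Finset W).ssubsets = ∅ := by
    ext J
    rw [Finset.mem_ssubsets]
    simp
  rw [e]
  refine hp_congr P ?_ (Fac.fst _ _) (Fac.refl _) ?_ (Fac.fst _ _) (Fac.refl _) w
  · refine (Fac.fst _ _).trans (Lf_of L fun J hJ => ?_)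
    rw [Finset.mem_singleton.1 hJ]
    exact Fac.refl _
  · exact (Fac.fst _ _).trans (Lf_one L (Finset.mem_singleton_self _))

/-- (O3): the information of the digit is paid by the growth of the `M_r`, up to the losses `c_I` -/
theorem O3 {L : Finset W → Om → Λ} {L' : Finset W → Om → Λ'} {N : Om → ν} {K : Om → ν'} (h : Fac K N)
    (ho : OpN L L' K) (k : ℕ) {w : Om} (hw : P.p w ≠ 0) :
    ip P K (Lf L (szlt W k)) (fun _ => ()) N w ≤
      ∑ r ∈ range k, (P.ce N (MM P L' K r) w - MM P L N r w) +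
      ∑ r ∈ range k, ∑ I ∈ sz W r, (cI P L N I K w + P.ce N (cO P L L' K I) w) := by
  rw [digit_all P L h k hw, ← Finset.sum_add_distrib]
  refine Finset.sum_le_sum fun r _ => ?_
  have h1 := MM_step P h ho r hw
  have h2 := MM_digit P L h r hw
  rw [h2, Finset.sum_add_distrib]
  linarith

end

end Pool.Agent.GMC
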