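import Pool.Agent.M3.FPMart

/-!
# GMC/C3Pot: the abstract potential of C3.5 with `R` branches (row C, general m; helper45)

`F = (max (pi + ∑ r, A r, (R+1) A_1, .., (R+1) A_R) - ρ)_+`, filtration `K t`, saturated states at the times `t ≤ T`.
`al0 t`, `al r t` = `pi`, `A r` still alive after the decision of the time `t` (functions of `K t`, decreasing in `t`; deaths
decided at `t + 1` drop the values at the time `t + 1`, so use PREDICTED deaths: a flag may be lowered as soon as a child
would be hot).  Losses: `l0 (t+1)`, `l r (t+1)` nonnegative functions on the space, compared with the OLD state: they are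
counted only if `al0 t`, `ρ/(R+1) ≤ pi t` (branch 0) resp. `al r t`, `ρ/(R+1) ≤ A r t` (branch `r`).
* `c3pot` : `ρ P(∃ t ≤ T, al0 t, 2ρ ≤ pi t) ≤ E[end] + ∑ losses + ∑ deaths`.
-/

set_option autoImplicit false
set_option linter.unusedSectionVars false

namespace Pool.Agent.GMC

open Finset Pool.Agent.PWZ Pool.Agent.M3

noncomputable section

variable {Om : Type*} [Fintype Om]

/-- the branches -/
def br {R : ℕ} (o : Option (Fin R)) (p : ℝ) (a : Fin R → ℝ) : ℝ :=
  match o with
  | none => p + ∑ r, a r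
  | some r => ((R : ℝ) + 1) * a r

/-- the potential function -/
def FF {R : ℕ} (ρ p : ℝ) (a : Fin R → ℝ) : ℝ :=
  (univ : Finset (Option (Fin R))).sup' ⟨none, mem_univ _⟩ (fun o => max (br o p a - ρ) 0)

theorem br_le_FF {R : ℕ} (ρ p : ℝ) (a : Fin R → ℝ) (o : Option (Fin R)) : br o p a - ρ ≤ FF ρ p a := by
  unfold FF
  exact (le_max_left _ _).trans (Finset.le_sup' (fun o => max (br o p a - ρ) 0) (mem_univ o))

theorem FF_nonneg {R : ℕ} (ρ p : ℝ) (a : Fin R → ℝ) : 0 ≤ FF ρ p a := by
  unfold FF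
  exact (le_max_right _ _).trans (Finset.le_sup' (fun o => max (br o p a - ρ) 0) (mem_univ none))

/-- either the potential vanishes or it is one of the branches, and then `pi` resp. `A r` is large -/
theorem FF_cases {R : ℕ} {ρ p : ℝ} {a : Fin R → ℝ} :
    FF ρ p a = 0 ∨ (FF ρ p a = p + ∑ r, a r - ρ ∧ ρ / ((R : ℝ) + 1) ≤ p) ∨
      ∃ r, FF ρ p a = ((R : ℝ) + 1) * a r - ρ ∧ ρ / ((R : ℝ) + 1) ≤ a r := by
  have hR : (0 : ℝ) < (R : ℝ) + 1 := by positivity
  obtain ⟨o, -, ho⟩ := Finset.exists_mem_eq_sup' (s := (univ : Finset (Option (Fin R)))) ⟨none, mem_univ _⟩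
    (fun o => max (br o p a - ρ) 0)
  have hF : FF ρ p a = max (br o p a - ρ) 0 := ho
  rcases le_or_gt (br o p a - ρ) 0 with h | h
  · left; rw [hF, max_eq_right h]
  have hF' : FF ρ p a = br o p a - ρ := by rw [hF, max_eq_left h.le]
  right
  cases o with
  | none =>
    left
    have h1 : FF ρ p a = p + ∑ r, a r - ρ := hF'
    refine ⟨h1, ?_⟩
    have h2 : ∀ r, ((R : ℝ) + 1) * a r ≤ p + ∑ r, a r := by
      intro r
      have h3 := br_le_FF ρ p a (some r)
      have h4 : br (some r) p a = ((R : ℝ) + 1) * a r := rfl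
      rw [h4, h1] at h3
      linarith
    have h5 : ((R : ℝ) + 1) * ∑ r, a r ≤ (R : ℝ) * (p + ∑ r, a r) := by
      rw [Finset.mul_sum]
      refine (Finset.sum_le_sum (fun r _ => h2 r)).trans (le_of_eq ?_)
      rw [Finset.sum_const, Finset.card_univ, Fintype.card_fin, nsmul_eq_mul]
    rw [div_le_iff₀ hR]
    have h6 : br none p a = p + ∑ r, a r := rfl
    rw [h6] at h
    nlinarith
  | some r =>
    right
    refine ⟨r, hF', ?_⟩
    rw [div_le_iff₀ hR]
    have h6 : br (some r) p a = ((R : ℝ) + 1) * a r := rfl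
    rw [h6] at h
    linarith

/-- the potential is Lipschitz -/
theorem FF_lip {R : ℕ} {ρ p p' : ℝ} {a a' : Fin R → ℝ} (hp : p' ≤ p) (ha : ∀ r, a' r ≤ a r) :
    FF ρ p a ≤ FF ρ p' a' + (p - p') + ((R : ℝ) + 1) * ∑ r, (a r - a' r) := by
  have hR : (0 : ℝ) ≤ (R : ℝ) := by positivity
  have h0 : 0 ≤ ∑ r, (a r - a' r) := Finset.sum_nonneg (fun r _ => by have := ha r; linarith)
  unfold FF
  refine Finset.sup'_le _ _ (fun o _ => ?_)
  have hnn := FF_nonneg ρ p' a'
  have hbr := br_le_FF ρ p' a' o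
  unfold FF at hnn hbr
  refine max_le ?_ ?_
  · cases o with
    | none =>
      have h1 : br none p a = p + ∑ r, a r := rfl
      have h2 : br none p' a' = p' + ∑ r, a' r := rfl
      rw [h1]
      rw [h2] at hbr
      have h3 : ∑ r, (a r - a' r) = ∑ r, a r - ∑ r, a' r := Finset.sum_sub_distrib _ _
      rw [h3] at h0 ⊢
      nlinarith
    | some r =>
      have h1 : br (some r) p a = ((R : ℝ) + 1) * a r := rfl
      have h2 : br (some r) p' a' = ((R : ℝ) + 1) * a' r := rfl
      rw [h1]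
      rw [h2] at hbr
      have h3 : a r - a' r ≤ ∑ r, (a r - a' r) :=
        Finset.single_le_sum (f := fun r => a r - a' r) (fun s _ => by have := ha s; linarith) (mem_univ r)
      nlinarith
  · nlinarith

/-- an upper bound of the potential -/
theorem FF_le {R : ℕ} {ρ p : ℝ} {a : Fin R → ℝ} (hp : 0 ≤ p) (ha : ∀ r, 0 ≤ a r) (hρ : 0 ≤ ρ) :
    FF ρ p a ≤ p + ((R : ℝ) + 1) * ∑ r, a r := by
  have h := FF_lip (ρ := ρ) (p := p) (p' := 0) (a := a) (a' := fun _ => 0) hp ha
  have h1 : FF ρ 0 (fun _ : Fin R => (0 : ℝ)) = 0 := by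
    refine le_antisymm ?_ (FF_nonneg _ _ _)
    unfold FF
    refine Finset.sup'_le _ _ (fun o _ => ?_)
    refine max_le ?_ le_rfl
    cases o with
    | none => simp [br]; linarith
    | some r => simp [br]; linarith
  rw [h1] at h
  simpa using h

/-- THE POTENTIAL LEMMA with `R` branches -/
theorem c3pot (P : FP Om) {κ : ℕ → Type*} (K : ∀ t, Om → κ t) (T R : ℕ) (pi : ℕ → Om → ℝ) (A : Fin R → ℕ → Om → ℝ)
    (al0 : ℕ → Om → Prop) (al : Fin R → ℕ → Om → Prop) (l0 : ℕ → Om → ℝ) (l : Fin R → ℕ → Om → ℝ) (ρ : ℝ) (hρ : 0 < ρ)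
    (hK : Filt K) (hpi : ∀ t, Fac (K t) (pi t)) (hA : ∀ r t, Fac (K t) (A r t))
    (hal0 : ∀ t v w, K t v = K t w → (al0 t v ↔ al0 t w)) (hal : ∀ r t v w, K t v = K t w → (al r t v ↔ al r t w))
    (hal0m : ∀ t w, al0 (t + 1) w → al0 t w) (halm : ∀ r t w, al r (t + 1) w → al r t w)
    (hpi0 : ∀ t w, 0 ≤ pi t w) (hA0 : ∀ r t w, 0 ≤ A r t w) (hl0 : ∀ t w, 0 ≤ l0 t w) (hl : ∀ r t w, 0 ≤ l r t w)
    (h0 : ∀ t < T, ∀ w, P.p w ≠ 0 → al0 t w → ρ / ((R : ℝ) + 1) ≤ pi t w →
      pi t w + ∑ r, ind (al r t w) * A r t w ≤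
        P.ce (K t) (fun v => ind (al0 t v) * pi (t + 1) v + ∑ r, ind (al r t v) * A r (t + 1) v + l0 (t + 1) v) w)
    (h1 : ∀ r, ∀ t < T, ∀ w, P.p w ≠ 0 → al r t w → ρ / ((R : ℝ) + 1) ≤ A r t w →
      A r t w ≤ P.ce (K t) (fun v => ind (al r t v) * A r (t + 1) v + l r (t + 1) v) w) :
    ρ * P.Pr (fun w => ∃ t ≤ T, al0 t w ∧ 2 * ρ ≤ pi t w) ≤
      P.E (fun w => ind (al0 T w) * pi T w + ((R : ℝ) + 1) * ∑ r, ind (al r T w) * A r T w) +
      ∑ t ∈ range T, (P.E (fun w => ind (al0 t w ∧ ρ / ((R : ℝ) + 1) ≤ pi t w) * l0 (t + 1) w) +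
        ((R : ℝ) + 1) * ∑ r, P.E (fun w => ind (al r t w ∧ ρ / ((R : ℝ) + 1) ≤ A r t w) * l r (t + 1) w)) +
      ∑ t ∈ range T, (P.E (fun w => ind (al0 t w ∧ ¬ al0 (t + 1) w) * pi (t + 1) w) +
        ((R : ℝ) + 1) * ∑ r, P.E (fun w => ind (al r t w ∧ ¬ al r (t + 1) w) * A r (t + 1) w)) := by
  have hR : (0 : ℝ) < (R : ℝ) + 1 := by positivity
  set G : ℕ → Om → ℝ := fun t w => FF ρ (ind (al0 t w) * pi t w) (fun r => ind (al r t w) * A r t w) with hG
  set G' : ℕ → Om → ℝ := fun t w => FF ρ (ind (al0 t w) * pi (t + 1) w) (fun r => ind (al r t w) * A r (t + 1) w) with hG'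
  set hit : ℕ → Om → Prop := fun t w => ∃ s ≤ t, al0 s w ∧ 2 * ρ ≤ pi s w with hhit
  have hp0 : ∀ t w, 0 ≤ ind (al0 t w) * pi t w := fun t w => mul_nonneg (ind_nonneg _) (hpi0 t w)
  have ha0 : ∀ t w r, 0 ≤ ind (al r t w) * A r t w := fun t w r => mul_nonneg (ind_nonneg _) (hA0 r t w)
  have hG0 : ∀ t w, 0 ≤ G t w := fun t w => FF_nonneg _ _ _
  have hG0' : ∀ t w, 0 ≤ G' t w := fun t w => FF_nonneg _ _ _
  have hhitF : ∀ t v w, K t v = K t w → (hit t v ↔ hit t w) := by
    intro t v w hvw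
    simp only [hhit]
    refine exists_congr fun s => ?_
    constructor
    · rintro ⟨hs, ha, hb⟩
      have hs' : K s v = K s w := hK.le hs v w hvw
      exact ⟨hs, (hal0 s v w hs').1 ha, by rw [← hpi s v w hs']; exact hb⟩
    · rintro ⟨hs, ha, hb⟩
      have hs' : K s v = K s w := hK.le hs v w hvw
      exact ⟨hs, (hal0 s v w hs').2 ha, by rw [hpi s v w hs']; exact hb⟩
  have hGF : ∀ t, Fac (K t) (G t) := by
    intro t v w hvw
    simp only [hG]
    have e1 : ind (al0 t v) = ind (al0 t w) := by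
      rw [show (al0 t v) = (al0 t w) from propext (hal0 t v w hvw)]
    have e2 : ∀ r, ind (al r t v) = ind (al r t w) := fun r => by
      rw [show (al r t v) = (al r t w) from propext (hal r t v w hvw)]
    rw [e1, hpi t v w hvw]
    congr 1
    funext r
    rw [e2, hA r t v w hvw]
  set L0 : ℕ → Om → ℝ := fun t w => ind (al0 t w ∧ ρ / ((R : ℝ) + 1) ≤ pi t w) * l0 (t + 1) w +
    ((R : ℝ) + 1) * ∑ r, ind (al r t w ∧ ρ / ((R : ℝ) + 1) ≤ A r t w) * l r (t + 1) w with hL0
  set D0 : ℕ → Om → ℝ := fun t w => ind (al0 t w ∧ ¬ al0 (t + 1) w) * pi (t + 1) w +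
    ((R : ℝ) + 1) * ∑ r, ind (al r t w ∧ ¬ al r (t + 1) w) * A r (t + 1) w with hD0
  have hL00 : ∀ t w, 0 ≤ L0 t w := by
    intro t w
    refine add_nonneg (mul_nonneg (ind_nonneg _) (hl0 _ _)) (mul_nonneg hR.le
      (Finset.sum_nonneg fun r _ => mul_nonneg (ind_nonneg _) (hl r _ _)))
  have hD00 : ∀ t w, 0 ≤ D0 t w := by
    intro t w
    refine add_nonneg (mul_nonneg (ind_nonneg _) (hpi0 _ _)) (mul_nonneg hR.le
      (Finset.sum_nonneg fun r _ => mul_nonneg (ind_nonneg _) (hA0 r _ _)))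
  -- Jensen: the old value is at most the conditional mean of the new one plus the loss
  have hJ : ∀ t < T, ∀ w, P.p w ≠ 0 → G t w ≤ P.ce (K t) (fun v => G' t v + L0 t v) w := by
    intro t ht w hw
    have hge0 : 0 ≤ P.ce (K t) (fun v => G' t v + L0 t v) w :=
      P.ce_nonneg (fun v _ => add_nonneg (hG0' t v) (hL00 t v)) w
    rcases FF_cases (ρ := ρ) (p := ind (al0 t w) * pi t w) (a := fun r => ind (al r t w) * A r t w) with h | ⟨h, hbig⟩ | ⟨r, h, hbig⟩
    · show FF ρ _ _ ≤ _
      rw [h]; exact hge0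
    · -- branch 0
      have hal : al0 t w := by
        by_contra hn
        rw [ind_not hn, zero_mul] at hbig
        have : 0 < ρ / ((R : ℝ) + 1) := by positivity
        linarith
      have hpi1 : ρ / ((R : ℝ) + 1) ≤ pi t w := by rw [ind_of hal, one_mul] at hbig; exact hbig
      show FF ρ _ _ ≤ _
      rw [h, ind_of hal, one_mul]
      have h2 := h0 t ht w hw hal hpi1
      have h3 : P.ce (K t) (fun v => ind (al0 t v) * pi (t + 1) v + ∑ r, ind (al r t v) * A r (t + 1) v +
          l0 (t + 1) v) w ≤ P.ce (K t) (fun v => (G' t v + L0 t v) + ρ) w := by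
        unfold FP.ce
        refine div_le_div_of_nonneg_right ?_ (P.m_nonneg _ _)
        refine P.E_mono (fun v _ => ?_)
        by_cases hv : K t v = K t w
        · rw [ind_of hv, one_mul, one_mul]
          have h4 := br_le_FF ρ (ind (al0 t v) * pi (t + 1) v) (fun r => ind (al r t v) * A r (t + 1) v) none
          have h5 : br none (ind (al0 t v) * pi (t + 1) v) (fun r => ind (al r t v) * A r (t + 1) v) =
            ind (al0 t v) * pi (t + 1) v + ∑ r, ind (al r t v) * A r (t + 1) v := rfl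
          rw [h5] at h4
          have h6 : l0 (t + 1) v ≤ L0 t v := by
            have hh : al0 t v ∧ ρ / ((R : ℝ) + 1) ≤ pi t v :=
              ⟨(hal0 t v w hv).2 hal, by rw [hpi t v w hv]; exact hpi1⟩
            simp only [hL0]
            rw [ind_of hh, one_mul]
            have : 0 ≤ ((R : ℝ) + 1) * ∑ r, ind (al r t v ∧ ρ / ((R : ℝ) + 1) ≤ A r t v) * l r (t + 1) v :=
              mul_nonneg hR.le (Finset.sum_nonneg fun r _ => mul_nonneg (ind_nonneg _) (hl r _ _))
            linarith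
          simp only [hG']
          linarith
        · rw [ind_not hv]; simp
      have h9 := P.ce_add (K t) (fun v => G' t v + L0 t v) (fun _ => ρ) w
      rw [P.ce_const (K t) ρ hw] at h9
      linarith
    · -- branch r
      have halr : al r t w := by
        by_contra hn
        rw [ind_not hn, zero_mul] at hbig
        have : 0 < ρ / ((R : ℝ) + 1) := by positivity
        linarith
      have hA1 : ρ / ((R : ℝ) + 1) ≤ A r t w := by rw [ind_of halr, one_mul] at hbig; exact hbig
      show FF ρ _ _ ≤ _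
      rw [h, ind_of halr, one_mul]
      have h2 := h1 r t ht w hw halr hA1
      have h3 : ((R : ℝ) + 1) * P.ce (K t) (fun v => ind (al r t v) * A r (t + 1) v + l r (t + 1) v) w ≤
          P.ce (K t) (fun v => (G' t v + L0 t v) + ρ) w := by
        rw [← P.ce_smul]
        unfold FP.ce
        refine div_le_div_of_nonneg_right ?_ (P.m_nonneg _ _)
        refine P.E_mono (fun v _ => ?_)
        by_cases hv : K t v = K t w
        · rw [ind_of hv, one_mul, one_mul]
          have h4 := br_le_FF ρ (ind (al0 t v) * pi (t + 1) v) (fun r => ind (al r t v) * A r (t + 1) v) (some r)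
          have h5 : br (some r) (ind (al0 t v) * pi (t + 1) v) (fun r => ind (al r t v) * A r (t + 1) v) =
            ((R : ℝ) + 1) * (ind (al r t v) * A r (t + 1) v) := rfl
          rw [h5] at h4
          have h6 : ((R : ℝ) + 1) * l r (t + 1) v ≤ L0 t v := by
            have hh : al r t v ∧ ρ / ((R : ℝ) + 1) ≤ A r t v :=
              ⟨(hal r t v w hv).2 halr, by rw [hA r t v w hv]; exact hA1⟩
            have h7 : ind (al r t v ∧ ρ / ((R : ℝ) + 1) ≤ A r t v) * l r (t + 1) v ≤
                ∑ r, ind (al r t v ∧ ρ / ((R : ℝ) + 1) ≤ A r t v) * l r (t + 1) v :=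
              Finset.single_le_sum (f := fun r => ind (al r t v ∧ ρ / ((R : ℝ) + 1) ≤ A r t v) * l r (t + 1) v)
                (fun s _ => mul_nonneg (ind_nonneg _) (hl s _ _)) (mem_univ r)
            rw [ind_of hh, one_mul] at h7
            have h8 : 0 ≤ ind (al0 t v ∧ ρ / ((R : ℝ) + 1) ≤ pi t v) * l0 (t + 1) v :=
              mul_nonneg (ind_nonneg _) (hl0 _ _)
            simp only [hL0]
            have := mul_le_mul_of_nonneg_left h7 hR.le
            linarith
          simp only [hG']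
          rw [mul_add]
          linarith
        · rw [ind_not hv]; simp
      have h9 := P.ce_add (K t) (fun v => G' t v + L0 t v) (fun _ => ρ) w
      rw [P.ce_const (K t) ρ hw] at h9
      have := mul_le_mul_of_nonneg_left h2 hR.le
      linarith
  -- the decision at `t + 1`
  have hD : ∀ t w, G' t w ≤ G (t + 1) w + D0 t w := by
    intro t w
    have hlo : ∀ (a b : Prop), (b → a) → ∀ x : ℝ, ind a * x - ind b * x = ind (a ∧ ¬ b) * x := by
      intro a b hab x
      by_cases ha : a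
      · by_cases hb : b
        · rw [ind_of ha, ind_of hb, ind_not (fun h => h.2 hb)]; ring
        · rw [ind_of ha, ind_not hb, ind_of ⟨ha, hb⟩]; ring
      · rw [ind_not ha, ind_not (fun hb => ha (hab hb)), ind_not (fun h => ha h.1)]; ring
    have hle : ∀ (a b : Prop), (b → a) → ∀ x : ℝ, 0 ≤ x → ind b * x ≤ ind a * x := fun a b hab x hx =>
      mul_le_mul_of_nonneg_right (ind_mono hab) hx
    have h := FF_lip (ρ := ρ) (p := ind (al0 t w) * pi (t + 1) w) (p' := ind (al0 (t + 1) w) * pi (t + 1) w)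
      (a := fun r => ind (al r t w) * A r (t + 1) w) (a' := fun r => ind (al r (t + 1) w) * A r (t + 1) w)
      (hle _ _ (hal0m t w) _ (hpi0 _ _)) (fun r => hle _ _ (halm r t w) _ (hA0 r _ _))
    rw [hlo _ _ (hal0m t w)] at h
    have h2 : ∑ r, (ind (al r t w) * A r (t + 1) w - ind (al r (t + 1) w) * A r (t + 1) w) =
        ∑ r, ind (al r t w ∧ ¬ al r (t + 1) w) * A r (t + 1) w :=
      Finset.sum_congr rfl (fun r _ => hlo _ _ (halm r t w) _)
    rw [h2] at h
    simp only [hG', hG, hD0]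
    linarith
  -- one step
  have step : ∀ t < T, P.E (fun w => ind (hit t w) * G t w) ≤
      P.E (fun w => ind (hit t w) * G (t + 1) w) + (P.E (L0 t) + P.E (D0 t)) := by
    intro t ht
    have hind : Fac (K t) (fun w => ind (hit t w)) := Fac.ind (fun v w hvw => hhitF t v w hvw)
    have e1 : P.E (fun w => ind (hit t w) * G t w) ≤
        P.E (fun w => ind (hit t w) * P.ce (K t) (fun v => G' t v + L0 t v) w) :=
      P.E_mono (fun w hw => mul_le_mul_of_nonneg_left (hJ t ht w hw) (ind_nonneg _))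
    rw [P.E_mul_ce hind] at e1
    refine e1.trans ?_
    rw [← P.E_add, ← P.E_add]
    refine P.E_mono (fun w _ => ?_)
    have h2 := hD t w
    have h3 := ind_nonneg (hit t w)
    have h4 := ind_le_one (hit t w)
    have h5 := hL00 t w
    have h6 := hD00 t w
    have h7 : ind (hit t w) * (G' t w + L0 t w) ≤ ind (hit t w) * (G (t + 1) w + D0 t w + L0 t w) :=
      mul_le_mul_of_nonneg_left (by linarith) h3
    nlinarith
  -- new hits
  have hnew : ∀ t, P.E (fun w => ind (hit t w) * G (t + 1) w) + ρ * (P.Pr (hit (t + 1)) - P.Pr (hit t)) ≤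
      P.E (fun w => ind (hit (t + 1) w) * G (t + 1) w) := by
    intro t
    have e1 : ρ * (P.Pr (hit (t + 1)) - P.Pr (hit t)) = P.E (fun w => ρ * (ind (hit (t + 1) w) - ind (hit t w))) := by
      rw [P.E_smul, P.E_sub]
      rfl
    rw [e1, ← P.E_add]
    refine P.E_mono (fun w _ => ?_)
    by_cases ha : hit t w
    · have hb : hit (t + 1) w := by
        obtain ⟨s, hs, h⟩ := ha
        exact ⟨s, by omega, h⟩
      rw [ind_of ha, ind_of hb]; linarith
    · by_cases hb : hit (t + 1) w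
      · rw [ind_not ha, ind_of hb]
        obtain ⟨s, hs, h2, h3⟩ := hb
        have hst : s = t + 1 := by
          by_contra hne
          exact ha ⟨s, by omega, h2, h3⟩
        subst hst
        have h4 := br_le_FF ρ (ind (al0 (t + 1) w) * pi (t + 1) w) (fun r => ind (al r (t + 1) w) * A r (t + 1) w) none
        have h5 : br none (ind (al0 (t + 1) w) * pi (t + 1) w) (fun r => ind (al r (t + 1) w) * A r (t + 1) w) =
          ind (al0 (t + 1) w) * pi (t + 1) w + ∑ r, ind (al r (t + 1) w) * A r (t + 1) w := rfl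
        rw [h5, ind_of h2, one_mul] at h4
        have h6 : 0 ≤ ∑ r, ind (al r (t + 1) w) * A r (t + 1) w :=
          Finset.sum_nonneg (fun r _ => ha0 (t + 1) w r)
        have h7 : G (t + 1) w = FF ρ (pi (t + 1) w) (fun r => ind (al r (t + 1) w) * A r (t + 1) w) := by
          simp only [hG]
          rw [ind_of h2, one_mul]
        rw [h7]
        linarith
      · rw [ind_not ha, ind_not hb]; linarith
  have hbase : ρ * P.Pr (hit 0) ≤ P.E (fun w => ind (hit 0 w) * G 0 w) := by
    rw [show ρ * P.Pr (hit 0) = P.E (fun w => ρ * ind (hit 0 w)) from (P.E_smul _ _).symm]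
    refine P.E_mono (fun w _ => ?_)
    by_cases ha : hit 0 w
    · rw [ind_of ha]
      obtain ⟨s, hs, h2, h3⟩ := ha
      have hs0 : s = 0 := by omega
      subst hs0
      have h4 := br_le_FF ρ (ind (al0 0 w) * pi 0 w) (fun r => ind (al r 0 w) * A r 0 w) none
      have h5 : br none (ind (al0 0 w) * pi 0 w) (fun r => ind (al r 0 w) * A r 0 w) =
        ind (al0 0 w) * pi 0 w + ∑ r, ind (al r 0 w) * A r 0 w := rfl
      rw [h5, ind_of h2, one_mul] at h4
      have h6 : 0 ≤ ∑ r, ind (al r 0 w) * A r 0 w := Finset.sum_nonneg (fun r _ => ha0 0 w r)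
      have h7 : G 0 w = FF ρ (pi 0 w) (fun r => ind (al r 0 w) * A r 0 w) := by
        simp only [hG]
        rw [ind_of h2, one_mul]
      rw [h7]
      linarith
    · rw [ind_not ha]; linarith
  have main : ∀ n ≤ T, ρ * P.Pr (hit n) ≤ P.E (fun w => ind (hit n w) * G n w) +
      ∑ t ∈ range n, (P.E (L0 t) + P.E (D0 t)) := by
    intro n
    induction n with
    | zero => intro _; simpa using hbase
    | succ n ih =>
      intro hn
      have h2 := ih (by omega)
      have h3 := step n (by omega)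
      have h4 := hnew n
      rw [Finset.sum_range_succ]
      nlinarith
  have hfin := main T le_rfl
  have hend : P.E (fun w => ind (hit T w) * G T w) ≤
      P.E (fun w => ind (al0 T w) * pi T w + ((R : ℝ) + 1) * ∑ r, ind (al r T w) * A r T w) := by
    refine P.E_mono (fun w _ => ?_)
    have h2 := FF_le (ρ := ρ) (hp0 T w) (ha0 T w) hρ.le
    have h3 := mul_le_mul_of_nonneg_right (ind_le_one (hit T w)) (hG0 T w)
    rw [one_mul] at h3
    exact h3.trans h2
  have hsplit : ∀ t, P.E (L0 t) = P.E (fun w => ind (al0 t w ∧ ρ / ((R : ℝ) + 1) ≤ pi t w) * l0 (t + 1) w) +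
        ((R : ℝ) + 1) * ∑ r, P.E (fun w => ind (al r t w ∧ ρ / ((R : ℝ) + 1) ≤ A r t w) * l r (t + 1) w) := by
    intro t
    simp only [hL0]
    rw [P.E_add, P.E_smul, P.E_sum univ (fun r w => ind (al r t w ∧ ρ / ((R : ℝ) + 1) ≤ A r t w) * l r (t + 1) w)]
  have hsplit' : ∀ t, P.E (D0 t) = P.E (fun w => ind (al0 t w ∧ ¬ al0 (t + 1) w) * pi (t + 1) w) +
        ((R : ℝ) + 1) * ∑ r, P.E (fun w => ind (al r t w ∧ ¬ al r (t + 1) w) * A r (t + 1) w) := by
    intro t
    simp only [hD0]
    rw [P.E_add, P.E_smul, P.E_sum univ (fun r w => ind (al r t w ∧ ¬ al r (t + 1) w) * A r (t + 1) w)]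
  rw [Finset.sum_add_distrib] at hfin
  simp_rw [hsplit, hsplit'] at hfin
  refine hfin.trans ?_
  linarith

end

end Pool.Agent.GMC
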