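import Pool.Agent.M3.FP

/-!
# GMC/Chain: the chain C2.5 (pairs are cold, every m), numbers and induction (K6, helper91)

Depth `k = 0, 1, .., L`; one STEP has the index `k` and goes from the depth `k` to the depth `k + 1`.

NUMBERS.
* `xk th k = th ^ (2 ^ (k + 1))` (sparseness of the depth `k`), `epk r k = r / (1000 (k+1)^2)` (accuracy),
  `gk r k = r / (20 (k+1)^2)` (gain of threshold);
* thresholds `rI r k = r(inf,k) = r(k,inf)`, `rM r k = r(k+1,k) = r(k,k+1)`, `rD r k = r(k+1,k+1)`;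
* `Nk = sum_(j<=k) C0 (1+p) / eps_j^2`, `Bk = C0 (1 + Nk) (1 + log (1/x_k))`;
* `Qb = (1+p)(1+q) S / r` (`S = 2^h'`), `ek = C0 Qb^c0 (1 + B_(k+1))^c0 x_k` = allowed error of the step `k`.

EVENTS (predicates): `HI k = H(inf,k)`, `HJ k = H(k,inf)`, `HM k = H(k+1,k)`, `HN k = H(k,k+1)`, `HD k = H(k+1,k+1)`,
`HT = H(inf,inf)`.

`chain_set` : the induction; `chain` : the final bound `P(HT) <= C Qb^c th (1 + log (1/th))`, `C`, `c` depend on `C0`, `c0`.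
-/

set_option autoImplicit false
set_option linter.unusedSectionVars false

namespace Pool.Agent.GMC

open Finset Pool.Agent.PWZ Pool.Agent.M3

noncomputable section

/-! ## numbers -/

/-- sparseness of the depth `k` -/
def xk (th : ℝ) (k : ℕ) : ℝ := th ^ (2 ^ (k + 1))

/-- accuracy of the depth `k` -/
def epk (r : ℝ) (k : ℕ) : ℝ := r / (1000 * ((k : ℝ) + 1) ^ 2)

/-- gain of threshold of the depth `k` -/
def gk (r : ℝ) (k : ℕ) : ℝ := r / (20 * ((k : ℝ) + 1) ^ 2)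

/-- `r(inf,k) = r(k,inf)` -/
def rI (r : ℝ) (k : ℕ) : ℝ := 11 / 10 * r + ∑ j ∈ range k, (2 * epk r (j + 1) + 2 * gk r (j + 1))

/-- `r(k+1,k) = r(k,k+1)` -/
def rM (r : ℝ) (k : ℕ) : ℝ := rI r k + 2 * epk r (k + 1)

/-- `r(k+1,k+1)` -/
def rD (r : ℝ) (k : ℕ) : ℝ := rM r k + gk r (k + 1)

theorem rI_zero (r : ℝ) : rI r 0 = 11 / 10 * r := by unfold rI; simp

theorem rI_succ (r : ℝ) (k : ℕ) : rI r (k + 1) = rD r k + gk r (k + 1) := by
  unfold rD rM rI; rw [Finset.sum_range_succ]; ring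

theorem rM_eq (r : ℝ) (k : ℕ) : rM r k = rI r k + 2 * epk r (k + 1) := rfl

theorem rD_eq (r : ℝ) (k : ℕ) : rD r k = rM r k + gk r (k + 1) := rfl

theorem epk_pos {r : ℝ} (hr : 0 < r) (k : ℕ) : 0 < epk r k := by unfold epk; positivity

theorem gk_pos {r : ℝ} (hr : 0 < r) (k : ℕ) : 0 < gk r k := by unfold gk; positivity

theorem gk_eq (r : ℝ) (k : ℕ) : gk r k = 50 * epk r k := by
  have h : ((k : ℝ) + 1) ^ 2 ≠ 0 := by positivity
  unfold gk epk; field_simp; ring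

theorem epk_anti {r : ℝ} (hr : 0 < r) {j k : ℕ} (h : j ≤ k) : epk r k ≤ epk r j := by
  unfold epk
  have h1 : (j : ℝ) ≤ k := by exact_mod_cast h
  have h2 : (0 : ℝ) ≤ j := Nat.cast_nonneg j
  apply div_le_div_of_nonneg_left hr.le (by positivity)
  nlinarith

/-- the accuracy of the depth `k` is small against the gain of the depth `k + 1` -/
theorem gk_ge {r : ℝ} (hr : 0 < r) (k : ℕ) : 12 * epk r k ≤ gk r (k + 1) := by
  unfold gk epk
  have h2 : (0 : ℝ) ≤ k := Nat.cast_nonneg k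
  rw [mul_div_assoc', div_le_div_iff₀ (by positivity) (by positivity)]
  push_cast
  have h3 : (0 : ℝ) ≤ (k : ℝ) ^ 2 := by positivity
  have h4 : 12 * (20 * ((k : ℝ) + 1 + 1) ^ 2) ≤ 1000 * ((k : ℝ) + 1) ^ 2 := by nlinarith
  nlinarith

theorem epk_le {r : ℝ} (hr : 0 < r) (k : ℕ) : epk r k ≤ r / 1000 := by
  have h := epk_anti hr (Nat.zero_le k)
  unfold epk at h ⊢
  norm_num at h ⊢
  exact h

theorem rI_le_rM {r : ℝ} (hr : 0 < r) (k : ℕ) : rI r k ≤ rM r k := by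
  have := epk_pos hr (k + 1); unfold rM; linarith

theorem rM_le_rD {r : ℝ} (hr : 0 < r) (k : ℕ) : rM r k ≤ rD r k := by
  have := gk_pos hr (k + 1); unfold rD; linarith

theorem rD_le_rI {r : ℝ} (hr : 0 < r) (k : ℕ) : rD r k ≤ rI r (k + 1) := by
  have := gk_pos hr (k + 1); rw [rI_succ]; linarith

theorem rI_mono {r : ℝ} (hr : 0 < r) {j k : ℕ} (h : j ≤ k) : rI r j ≤ rI r k := by
  induction h with
  | refl => exact le_refl _
  | step _ ih => exact ih.trans ((rI_le_rM hr _).trans ((rM_le_rD hr _).trans (rD_le_rI hr _)))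

theorem le_rI {r : ℝ} (hr : 0 < r) (k : ℕ) : 11 / 10 * r ≤ rI r k := by
  have h := rI_mono hr (Nat.zero_le k)
  rwa [rI_zero] at h

theorem sum_inv_sq_le (k : ℕ) : ∑ j ∈ range k, 1 / (((j : ℝ) + 1 + 1) ^ 2) ≤ 1 - 1 / ((k : ℝ) + 1) := by
  induction k with
  | zero => simp
  | succ n ih =>
    rw [Finset.sum_range_succ]
    have h2 : (0 : ℝ) ≤ n := Nat.cast_nonneg n
    have h3 : 1 / (((n : ℝ) + 1 + 1) ^ 2) ≤ 1 / ((n : ℝ) + 1) - 1 / ((n : ℝ) + 1 + 1) := by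
      rw [div_sub_div _ _ (by positivity) (by positivity), div_le_div_iff₀ (by positivity) (by positivity)]
      nlinarith
    push_cast
    linarith

theorem rI_lt {r : ℝ} (hr : 0 < r) (k : ℕ) : rI r k < 13 / 10 * r := by
  have h1 : ∑ j ∈ range k, (2 * epk r (j + 1) + 2 * gk r (j + 1)) = 102 * (r / 1000) * ∑ j ∈ range k, 1 / (((j : ℝ) + 1 + 1) ^ 2) := by
    rw [Finset.mul_sum]
    refine Finset.sum_congr rfl fun j _ => ?_
    rw [gk_eq]
    unfold epk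
    have h : ((j : ℝ) + 1 + 1) ^ 2 ≠ 0 := by positivity
    push_cast
    field_simp
    ring
  have h2 := sum_inv_sq_le k
  have h3 : (0 : ℝ) < 1 / ((k : ℝ) + 1) := by positivity
  unfold rI
  rw [h1]
  nlinarith

theorem rM_lt {r : ℝ} (hr : 0 < r) (k : ℕ) : rM r k < 13 / 10 * r :=
  (rM_le_rD hr k).trans_lt ((rD_le_rI hr k).trans_lt (rI_lt hr _))

theorem rD_lt {r : ℝ} (hr : 0 < r) (k : ℕ) : rD r k < 13 / 10 * r :=
  (rD_le_rI hr k).trans_lt (rI_lt hr _)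

/-! ### sparseness -/

theorem xk_nonneg {th : ℝ} (h : 0 ≤ th) (k : ℕ) : 0 ≤ xk th k := pow_nonneg h _

theorem xk_pos {th : ℝ} (h : 0 < th) (k : ℕ) : 0 < xk th k := pow_pos h _

theorem xk_zero (th : ℝ) : xk th 0 = th ^ 2 := by unfold xk; norm_num

theorem xk_succ (th : ℝ) (k : ℕ) : xk th (k + 1) = xk th k ^ 2 := by
  unfold xk; rw [← pow_mul]; congr 1

theorem xk_le_one {th : ℝ} (h : 0 ≤ th) (h1 : th ≤ 1) (k : ℕ) : xk th k ≤ 1 := pow_le_one₀ h h1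

theorem xk_anti {th : ℝ} (h : 0 ≤ th) (h1 : th ≤ 1) {j k : ℕ} (hjk : j ≤ k) : xk th k ≤ xk th j := by
  unfold xk
  exact pow_le_pow_of_le_one h h1 (Nat.pow_le_pow_right (by norm_num) (by omega))

theorem xk_le_th {th : ℝ} (h : 0 ≤ th) (h1 : th ≤ 1) (k : ℕ) : xk th k ≤ th := by
  unfold xk
  calc th ^ (2 ^ (k + 1)) ≤ th ^ 1 := pow_le_pow_of_le_one h h1 Nat.one_le_two_pow
    _ = th := pow_one _

theorem log_inv_xk (th : ℝ) (k : ℕ) : Real.log (1 / xk th k) = 2 ^ (k + 1) * Real.log (1 / th) := by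
  unfold xk
  rw [one_div, one_div, Real.log_inv, Real.log_inv, Real.log_pow]
  push_cast
  ring

/-! ### budgets -/

/-- bound for the number of entries of depth `<= k` -/
def Nk (C0 r p : ℝ) (k : ℕ) : ℝ := ∑ j ∈ range (k + 1), C0 * (1 + p) / epk r j ^ 2

/-- bound for the entropies of depth `<= k` -/
def Bk (C0 r p th : ℝ) (k : ℕ) : ℝ := C0 * (1 + Nk C0 r p k) * (1 + Real.log (1 / xk th k))

/-- the basic large number -/
def Qb (r p q S : ℝ) : ℝ := (1 + p) * (1 + q) * S / r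

/-- allowed error of the step from `k` to `k + 1` -/
def ek (C0 : ℝ) (c0 : ℕ) (r p q S th : ℝ) (k : ℕ) : ℝ :=
  C0 * Qb r p q S ^ c0 * (1 + Bk C0 r p th (k + 1)) ^ c0 * xk th k

/-- ranges of the parameters -/
structure Par (C0 r p q S th : ℝ) : Prop where
  hC : 1 ≤ C0
  hr : 0 < r
  hr1 : r ≤ 1
  hp : 0 ≤ p
  hq : 0 ≤ q
  hS : 1 ≤ S
  ht : 0 < th
  ht1 : th ≤ 1

section Par

variable {C0 r p q S th : ℝ}

theorem Par.log_nonneg (h : Par C0 r p q S th) : 0 ≤ Real.log (1 / th) :=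
  Real.log_nonneg (by rw [one_div]; exact (one_le_inv₀ h.ht).2 h.ht1)

theorem Par.log_xk_nonneg (h : Par C0 r p q S th) (k : ℕ) : 0 ≤ Real.log (1 / xk th k) := by
  rw [log_inv_xk]; exact mul_nonneg (by positivity) h.log_nonneg

theorem Par.Nk_nonneg (h : Par C0 r p q S th) (k : ℕ) : 0 ≤ Nk C0 r p k := by
  have h1 := h.hC; have h2 := h.hp
  exact Finset.sum_nonneg fun j _ => by positivity

theorem Par.Nk_mono (h : Par C0 r p q S th) {j k : ℕ} (hjk : j ≤ k) : Nk C0 r p j ≤ Nk C0 r p k := by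
  have h1 := h.hC; have h2 := h.hp
  exact Finset.sum_le_sum_of_subset_of_nonneg (Finset.range_subset_range.2 (by omega)) fun i _ _ => by positivity

theorem Par.Bk_nonneg (h : Par C0 r p q S th) (k : ℕ) : 0 ≤ Bk C0 r p th k := by
  have h1 := h.hC; have h2 := h.Nk_nonneg k; have h3 := h.log_xk_nonneg k
  unfold Bk; positivity

theorem Par.Bk_mono (h : Par C0 r p q S th) {j k : ℕ} (hjk : j ≤ k) : Bk C0 r p th j ≤ Bk C0 r p th k := by
  unfold Bk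
  have h1 := h.hC; have h2 := h.Nk_nonneg j; have h3 := h.Nk_mono hjk; have h4 := h.log_xk_nonneg j
  have h6 : (2 : ℝ) ^ (j + 1) ≤ 2 ^ (k + 1) := pow_le_pow_right₀ (by norm_num) (by omega)
  have h5 : Real.log (1 / xk th j) ≤ Real.log (1 / xk th k) := by
    rw [log_inv_xk, log_inv_xk]
    exact mul_le_mul_of_nonneg_right h6 h.log_nonneg
  have h7 : C0 * (1 + Nk C0 r p j) ≤ C0 * (1 + Nk C0 r p k) := mul_le_mul_of_nonneg_left (by linarith) (by linarith)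
  have h8 : 0 ≤ C0 * (1 + Nk C0 r p k) := mul_nonneg (by linarith) (by linarith)
  exact mul_le_mul h7 (by linarith) (by linarith) h8

theorem Par.Nk_le_Bk (h : Par C0 r p q S th) (k : ℕ) : 1 + Nk C0 r p k ≤ Bk C0 r p th k := by
  have h1 := h.hC; have h2 := h.Nk_nonneg k; have h4 := h.log_xk_nonneg k
  unfold Bk
  have h5 : 1 * (1 + Nk C0 r p k) ≤ C0 * (1 + Nk C0 r p k) := mul_le_mul_of_nonneg_right h1 (by linarith)
  have h6 : C0 * (1 + Nk C0 r p k) * 1 ≤ C0 * (1 + Nk C0 r p k) * (1 + Real.log (1 / xk th k)) :=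
    mul_le_mul_of_nonneg_left (by linarith) (by linarith)
  linarith

theorem Par.one_le_Bk (h : Par C0 r p q S th) (k : ℕ) : 1 ≤ Bk C0 r p th k := by
  have := h.Nk_nonneg k; have := h.Nk_le_Bk k; linarith

theorem Par.one_le_Qb (h : Par C0 r p q S th) : 1 ≤ Qb r p q S := by
  have h1 := h.hr; have h2 := h.hr1; have h3 := h.hp; have h4 := h.hq; have h5 := h.hS
  unfold Qb
  rw [le_div_iff₀ h1, one_mul]
  have h6 : (1 : ℝ) ≤ (1 + p) * (1 + q) := by nlinarith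
  nlinarith

theorem Par.inv_r_le (h : Par C0 r p q S th) : 1 / r ≤ Qb r p q S := by
  have h1 := h.hr; have h3 := h.hp; have h4 := h.hq; have h5 := h.hS
  unfold Qb
  rw [div_le_div_iff_of_pos_right h1]
  have h6 : (1 : ℝ) ≤ (1 + p) * (1 + q) := by nlinarith
  nlinarith

theorem Par.S_le (h : Par C0 r p q S th) : S ≤ Qb r p q S := by
  have h1 := h.hr; have h2 := h.hr1; have h3 := h.hp; have h4 := h.hq; have h5 := h.hS
  unfold Qb
  rw [le_div_iff₀ h1]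
  have h6 : (1 : ℝ) ≤ (1 + p) * (1 + q) := by nlinarith
  nlinarith

theorem Par.p_le (h : Par C0 r p q S th) : 1 + p ≤ Qb r p q S := by
  have h1 := h.hr; have h2 := h.hr1; have h3 := h.hp; have h4 := h.hq; have h5 := h.hS
  unfold Qb
  rw [le_div_iff₀ h1]
  have h6 : (1 + p) * r ≤ 1 + p := by nlinarith
  have h7 : (1 + p) * 1 ≤ (1 + p) * ((1 + q) * S) := mul_le_mul_of_nonneg_left (by nlinarith) (by linarith)
  linarith

theorem Par.q_le (h : Par C0 r p q S th) : 1 + q ≤ Qb r p q S := by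
  have h1 := h.hr; have h2 := h.hr1; have h3 := h.hp; have h4 := h.hq; have h5 := h.hS
  unfold Qb
  rw [le_div_iff₀ h1]
  have h6 : (1 + q) * r ≤ 1 + q := by nlinarith
  have h7 : (1 + q) * 1 ≤ (1 + q) * ((1 + p) * S) := mul_le_mul_of_nonneg_left (by nlinarith) (by linarith)
  linarith

/-- `k` is below `N_k` -/
theorem Par.k_le_Nk (h : Par C0 r p q S th) (k : ℕ) : 1000000 * ((k : ℝ) + 1) ^ 4 ≤ Nk C0 r p k := by
  have h1 := h.hC; have h2 := h.hp; have h3 := h.hr; have h4 := h.hr1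
  have h5 : C0 * (1 + p) / epk r k ^ 2 ≤ Nk C0 r p k :=
    Finset.single_le_sum (f := fun j => C0 * (1 + p) / epk r j ^ 2) (fun j _ => by positivity)
      (Finset.mem_range.2 (Nat.lt_succ_self k))
  refine le_trans ?_ h5
  have h6 := epk_pos h3 k
  rw [le_div_iff₀ (by positivity)]
  have h7 : 1000000 * ((k : ℝ) + 1) ^ 4 * epk r k ^ 2 = r ^ 2 := by
    unfold epk
    have : ((k : ℝ) + 1) ^ 2 ≠ 0 := by positivity
    field_simp
    ring
  rw [h7]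
  have h8 : r ^ 2 ≤ 1 := by nlinarith
  nlinarith

theorem Par.ksq_le_Bk (h : Par C0 r p q S th) (k : ℕ) : ((k : ℝ) + 1) ^ 2 ≤ Bk C0 r p th k := by
  have h1 := h.k_le_Nk k; have h2 := h.Nk_le_Bk k
  have h3 : (0 : ℝ) ≤ k := Nat.cast_nonneg k
  have h4 : ((k : ℝ) + 1) ^ 2 ≤ 1000000 * ((k : ℝ) + 1) ^ 4 := by
    have : (1 : ℝ) ≤ ((k : ℝ) + 1) ^ 2 := by nlinarith
    nlinarith
  linarith

/-- `1 / g_k` and `1 / eps_k` are allowed factors -/
theorem Par.inv_epk_le (h : Par C0 r p q S th) (k : ℕ) : 1 / epk r k ≤ 1000 * Qb r p q S * Bk C0 r p th k := by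
  have h1 := h.ksq_le_Bk k; have h2 := h.inv_r_le; have h3 := h.hr; have h4 := h.one_le_Qb
  have h5 : 1 / epk r k = 1000 * (1 / r) * ((k : ℝ) + 1) ^ 2 := by
    unfold epk
    have : ((k : ℝ) + 1) ^ 2 ≠ 0 := by positivity
    field_simp
  rw [h5]
  have h6 : 0 ≤ 1 / r := by positivity
  gcongr

theorem Par.inv_gk_le (h : Par C0 r p q S th) (k : ℕ) : 1 / gk r k ≤ 20 * Qb r p q S * Bk C0 r p th k := by
  have h1 := h.inv_epk_le k; have h3 := epk_pos h.hr k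
  rw [gk_eq]
  have h5 : 1 / (50 * epk r k) = 1 / 50 * (1 / epk r k) := by field_simp
  rw [h5]
  linarith

theorem Par.Nk_le (h : Par C0 r p q S th) (k : ℕ) :
    Nk C0 r p k ≤ 1000000 * C0 * Qb r p q S ^ 3 * ((k : ℝ) + 1) ^ 5 := by
  have h1 := h.hC; have h2 := h.hp; have h3 := h.hr; have h4 := h.hr1
  have hQ := h.one_le_Qb
  have hi := h.inv_r_le
  have hpq := h.p_le
  have h6 : ∀ j ∈ range (k + 1), C0 * (1 + p) / epk r j ^ 2 ≤ 1000000 * C0 * Qb r p q S ^ 3 * ((k : ℝ) + 1) ^ 4 := by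
    intro j hj
    have hj' : (j : ℝ) ≤ k := by exact_mod_cast Nat.lt_succ_iff.1 (Finset.mem_range.1 hj)
    have hj0 : (0 : ℝ) ≤ j := Nat.cast_nonneg j
    have h7 : C0 * (1 + p) / epk r j ^ 2 = 1000000 * C0 * ((1 + p) * (1 / r) * (1 / r)) * ((j : ℝ) + 1) ^ 4 := by
      unfold epk
      have : ((j : ℝ) + 1) ^ 2 ≠ 0 := by positivity
      field_simp
      ring
    rw [h7]
    have h8 : (1 + p) * (1 / r) * (1 / r) ≤ Qb r p q S ^ 3 := by
      have : 0 ≤ 1 / r := by positivity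
      calc (1 + p) * (1 / r) * (1 / r) ≤ Qb r p q S * Qb r p q S * Qb r p q S := by gcongr
        _ = Qb r p q S ^ 3 := by ring
    gcongr
  calc Nk C0 r p k ≤ ∑ _j ∈ range (k + 1), 1000000 * C0 * Qb r p q S ^ 3 * ((k : ℝ) + 1) ^ 4 := Finset.sum_le_sum h6
    _ = 1000000 * C0 * Qb r p q S ^ 3 * ((k : ℝ) + 1) ^ 5 := by
      rw [Finset.sum_const, Finset.card_range, nsmul_eq_mul, Nat.cast_add, Nat.cast_one]; ring

/-- the size of `B_k` -/
theorem Par.Bk_le (h : Par C0 r p q S th) (k : ℕ) :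
    1 + Bk C0 r p th k ≤ 4000000 * C0 ^ 2 * Qb r p q S ^ 3 * (((k : ℝ) + 1) ^ 5 * 2 ^ (k + 1)) * (1 + Real.log (1 / th)) := by
  have h1 := h.hC; have hQ := h.one_le_Qb; have hN := h.Nk_le k; have hN0 := h.Nk_nonneg k; have hl := h.log_nonneg
  have hk : (0 : ℝ) ≤ k := Nat.cast_nonneg k
  have h2 : (1 : ℝ) ≤ 2 ^ (k + 1) := one_le_pow₀ (by norm_num)
  have h3 : (1 : ℝ) ≤ ((k : ℝ) + 1) ^ 5 := one_le_pow₀ (by linarith)
  have h4 : 1 ≤ Qb r p q S ^ 3 := one_le_pow₀ hQ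
  have hone : 1 ≤ C0 * Qb r p q S ^ 3 * ((k : ℝ) + 1) ^ 5 := by
    have := one_le_mul_of_one_le_of_one_le (one_le_mul_of_one_le_of_one_le h1 h4) h3
    exact this
  have h5 : 1 + Nk C0 r p k ≤ 1000001 * (C0 * Qb r p q S ^ 3 * ((k : ℝ) + 1) ^ 5) := by linarith
  have h6 : 1 + Real.log (1 / xk th k) ≤ 2 ^ (k + 1) * (1 + Real.log (1 / th)) := by
    rw [log_inv_xk]; nlinarith
  have h7 : 0 ≤ Real.log (1 / xk th k) := h.log_xk_nonneg k
  have h8 : Bk C0 r p th k ≤ C0 * (1000001 * (C0 * Qb r p q S ^ 3 * ((k : ℝ) + 1) ^ 5)) * (2 ^ (k + 1) * (1 + Real.log (1 / th))) := by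
    unfold Bk
    have : 0 ≤ C0 := by linarith
    have : 0 ≤ Qb r p q S := by linarith
    gcongr
  have h9 : 1 ≤ C0 * (C0 * Qb r p q S ^ 3 * ((k : ℝ) + 1) ^ 5) * (2 ^ (k + 1) * (1 + Real.log (1 / th))) := by
    have a1 : 1 ≤ 2 ^ (k + 1) * (1 + Real.log (1 / th)) := one_le_mul_of_one_le_of_one_le h2 (by linarith)
    exact one_le_mul_of_one_le_of_one_le (one_le_mul_of_one_le_of_one_le h1 hone) a1
  nlinarith

end Par

/-! ## the sum of the errors -/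

theorem log_pow_le (c : ℕ) {th : ℝ} (h : 0 < th) (h1 : th ≤ 1) :
    (1 + Real.log (1 / th)) ^ c * th ≤ Real.exp 1 * (Nat.factorial c : ℝ) := by
  have hl : 0 ≤ Real.log (1 / th) := Real.log_nonneg (by rw [one_div]; exact (one_le_inv₀ h).2 h1)
  have h2 := Real.pow_div_factorial_le_exp (1 + Real.log (1 / th)) (by linarith) c
  have h3 : (0 : ℝ) < (Nat.factorial c : ℝ) := by exact_mod_cast Nat.factorial_pos c
  rw [div_le_iff₀ h3, Real.exp_add, Real.exp_log (by positivity)] at h2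
  calc (1 + Real.log (1 / th)) ^ c * th ≤ Real.exp 1 * (1 / th) * (Nat.factorial c : ℝ) * th :=
        mul_le_mul_of_nonneg_right h2 h.le
    _ = Real.exp 1 * (Nat.factorial c : ℝ) := by field_simp

theorem nat_pow_le (m n : ℕ) : (n : ℝ) ^ m ≤ (Nat.factorial m : ℝ) / Real.log 2 ^ m * 2 ^ n := by
  have hl : 0 < Real.log 2 := Real.log_pos (by norm_num)
  have h3 : (0 : ℝ) < (Nat.factorial m : ℝ) := by exact_mod_cast Nat.factorial_pos m
  have h2 := Real.pow_div_factorial_le_exp ((n : ℝ) * Real.log 2) (by positivity) m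
  have h4 : Real.exp ((n : ℝ) * Real.log 2) = 2 ^ n := by
    rw [mul_comm, Real.exp_mul, Real.exp_log (by norm_num), Real.rpow_natCast]
  rw [h4, div_le_iff₀ h3, mul_pow] at h2
  rw [div_mul_eq_mul_div, le_div_iff₀ (by positivity)]
  linarith

/-- the constant of the series -/
def serC (c : ℕ) : ℝ := 4 * 2 ^ c * ((Nat.factorial (6 * c + 1) : ℝ) / Real.log 2 ^ (6 * c + 1))

theorem serC_nonneg (c : ℕ) : 0 ≤ serC c := by
  have hl : 0 < Real.log 2 := Real.log_pos (by norm_num)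
  unfold serC; positivity

theorem ser_le (c k : ℕ) :
    ((((k : ℝ) + 2) ^ 5 * 2 ^ (k + 2)) ^ c) * (1 / 2) ^ (2 ^ (k + 1) - 2) ≤ serC c * (1 / 2) ^ k := by
  have hl : 0 < Real.log 2 := Real.log_pos (by norm_num)
  set n : ℕ := 2 ^ (k + 1) with hn
  have h1 : k + 2 ≤ n := by
    have := Nat.lt_two_pow_self (n := k + 1)
    omega
  have hn2 : 2 ≤ n := by omega
  have h1' : (k : ℝ) + 2 ≤ n := by exact_mod_cast h1
  have h2 : (2 : ℝ) ^ (k + 2) = 2 * n := by rw [hn]; push_cast; ring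
  have h3 : (2 : ℝ) ^ k ≤ n := by
    rw [hn]; push_cast
    exact pow_le_pow_right₀ (by norm_num) (by omega)
  have hk : (0 : ℝ) ≤ k := Nat.cast_nonneg k
  have h4 := nat_pow_le (6 * c + 1) n
  have h5 : (((k : ℝ) + 2) ^ 5 * 2 ^ (k + 2)) ^ c ≤ 2 ^ c * (n : ℝ) ^ (6 * c) := by
    rw [h2]
    calc (((k : ℝ) + 2) ^ 5 * (2 * (n : ℝ))) ^ c ≤ ((n : ℝ) ^ 5 * (2 * (n : ℝ))) ^ c := by gcongr
      _ = 2 ^ c * (n : ℝ) ^ (6 * c) := by
        rw [show (n : ℝ) ^ 5 * (2 * (n : ℝ)) = 2 * (n : ℝ) ^ 6 by ring, mul_pow, ← pow_mul]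
  have h6 : ((1 : ℝ) / 2) ^ (n - 2) * 2 ^ n = 4 := by
    rw [one_div, inv_pow]
    have : (2 : ℝ) ^ n = 2 ^ (n - 2) * 4 := by
      rw [show (4 : ℝ) = 2 ^ 2 by norm_num, ← pow_add]; congr 1; omega
    rw [this]
    field_simp
  have h7 : ((1 : ℝ) / 2) ^ k * 2 ^ k = 1 := by
    rw [← mul_pow]; norm_num
  have hpos : (0 : ℝ) < 2 ^ k := by positivity
  have hA : 0 ≤ ((1 : ℝ) / 2) ^ (n - 2) := by positivity
  refine le_of_mul_le_mul_right ?_ hpos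
  calc (((k : ℝ) + 2) ^ 5 * 2 ^ (k + 2)) ^ c * (1 / 2) ^ (n - 2) * 2 ^ k
      ≤ 2 ^ c * (n : ℝ) ^ (6 * c) * (1 / 2) ^ (n - 2) * n := by gcongr
    _ = 2 ^ c * (1 / 2) ^ (n - 2) * (n : ℝ) ^ (6 * c + 1) := by ring
    _ ≤ 2 ^ c * (1 / 2) ^ (n - 2) * ((Nat.factorial (6 * c + 1) : ℝ) / Real.log 2 ^ (6 * c + 1) * 2 ^ n) := by gcongr
    _ = 2 ^ c * ((Nat.factorial (6 * c + 1) : ℝ) / Real.log 2 ^ (6 * c + 1)) * ((1 / 2) ^ (n - 2) * 2 ^ n) := by ring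
    _ = serC c := by rw [h6]; unfold serC; ring
    _ = serC c * (1 / 2) ^ k * 2 ^ k := by rw [mul_assoc, h7, mul_one]

/-- the constant of `sum_ek_le` -/
def sumC (C0 : ℝ) (c0 : ℕ) : ℝ :=
  2 * (C0 * (4000000 * C0 ^ 2) ^ c0 * (Real.exp 1 * (Nat.factorial c0 : ℝ)) * serC c0)

theorem sumC_nonneg {C0 : ℝ} (h : 1 ≤ C0) (c0 : ℕ) : 0 ≤ sumC C0 c0 := by
  have := serC_nonneg c0
  have : 0 ≤ C0 := by linarith
  unfold sumC; positivity

section Sum

variable {C0 r p q S th : ℝ}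

theorem Par.ek_nonneg (h : Par C0 r p q S th) (c0 k : ℕ) : 0 ≤ ek C0 c0 r p q S th k := by
  have h1 := h.hC; have h2 := h.one_le_Qb; have h3 := h.Bk_nonneg (k + 1); have h4 := xk_nonneg h.ht.le k
  have : 0 ≤ C0 := by linarith
  have : 0 ≤ Qb r p q S := by linarith
  unfold ek; positivity

theorem Par.ek_le (h : Par C0 r p q S th) (h2 : th ≤ 1 / 2) (c0 k : ℕ) :
    ek C0 c0 r p q S th k ≤ C0 * (4000000 * C0 ^ 2) ^ c0 * (Real.exp 1 * (Nat.factorial c0 : ℝ)) * serC c0 *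
      (1 / 2) ^ k * Qb r p q S ^ (4 * c0) * th := by
  have hC := h.hC; have hQ := h.one_le_Qb; have hB := h.Bk_nonneg (k + 1); have hl := h.log_nonneg
  have hC0 : 0 ≤ C0 := by linarith
  have hQ0 : 0 ≤ Qb r p q S := by linarith
  have ht := h.ht
  have hB1 : 1 + Bk C0 r p th (k + 1) ≤ 4000000 * C0 ^ 2 * Qb r p q S ^ 3 * (((k : ℝ) + 2) ^ 5 * 2 ^ (k + 2)) *
      (1 + Real.log (1 / th)) := by
    have := h.Bk_le (k + 1)
    push_cast at this
    rw [show (k : ℝ) + 1 + 1 = (k : ℝ) + 2 by ring] at this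
    exact this
  have hx : xk th k ≤ th * th * (1 / 2) ^ (2 ^ (k + 1) - 2) := by
    unfold xk
    have hn : 2 ≤ 2 ^ (k + 1) := by
      have := Nat.lt_two_pow_self (n := k + 1)
      omega
    calc th ^ (2 ^ (k + 1)) = th * th * th ^ (2 ^ (k + 1) - 2) := by
          rw [← pow_two, ← pow_add]; congr 1; omega
      _ ≤ th * th * (1 / 2) ^ (2 ^ (k + 1) - 2) := by gcongr
  have hlog := log_pow_le c0 h.ht h.ht1
  have hser := ser_le c0 k
  have hserC := serC_nonneg c0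
  unfold ek
  calc C0 * Qb r p q S ^ c0 * (1 + Bk C0 r p th (k + 1)) ^ c0 * xk th k
      ≤ C0 * Qb r p q S ^ c0 * (4000000 * C0 ^ 2 * Qb r p q S ^ 3 * (((k : ℝ) + 2) ^ 5 * 2 ^ (k + 2)) *
        (1 + Real.log (1 / th))) ^ c0 * (th * th * (1 / 2) ^ (2 ^ (k + 1) - 2)) := by
        have := xk_nonneg h.ht.le k
        gcongr
    _ = C0 * (4000000 * C0 ^ 2) ^ c0 * (Qb r p q S ^ c0 * (Qb r p q S ^ 3) ^ c0) *
        ((((k : ℝ) + 2) ^ 5 * 2 ^ (k + 2)) ^ c0 * (1 / 2) ^ (2 ^ (k + 1) - 2)) *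
        ((1 + Real.log (1 / th)) ^ c0 * th) * th := by
        rw [mul_pow, mul_pow, mul_pow]; ring
    _ ≤ C0 * (4000000 * C0 ^ 2) ^ c0 * (Qb r p q S ^ c0 * (Qb r p q S ^ 3) ^ c0) *
        (serC c0 * (1 / 2) ^ k) * (Real.exp 1 * (Nat.factorial c0 : ℝ)) * th := by
        gcongr
    _ = C0 * (4000000 * C0 ^ 2) ^ c0 * (Real.exp 1 * (Nat.factorial c0 : ℝ)) * serC c0 *
        (1 / 2) ^ k * Qb r p q S ^ (4 * c0) * th := by
        rw [← pow_mul, ← pow_add, show c0 + 3 * c0 = 4 * c0 by ring]; ring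

theorem Par.sum_ek_le (h : Par C0 r p q S th) (h2 : th ≤ 1 / 2) (c0 L : ℕ) :
    ∑ k ∈ range L, ek C0 c0 r p q S th k ≤ sumC C0 c0 * Qb r p q S ^ (4 * c0) * th := by
  have hC := h.hC; have hQ := h.one_le_Qb
  have hC0 : 0 ≤ C0 := by linarith
  have hQ0 : 0 ≤ Qb r p q S := by linarith
  have ht := h.ht
  have hserC := serC_nonneg c0
  set A : ℝ := C0 * (4000000 * C0 ^ 2) ^ c0 * (Real.exp 1 * (Nat.factorial c0 : ℝ)) * serC c0 with hA
  have hA0 : 0 ≤ A := by positivity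
  have h3 : ∑ k ∈ range L, ((1 : ℝ) / 2) ^ k ≤ 2 := by
    have := sum_geometric_two_le L
    exact this
  calc ∑ k ∈ range L, ek C0 c0 r p q S th k
      ≤ ∑ k ∈ range L, A * (1 / 2) ^ k * Qb r p q S ^ (4 * c0) * th := Finset.sum_le_sum fun k _ => h.ek_le h2 c0 k
    _ = A * (∑ k ∈ range L, ((1 : ℝ) / 2) ^ k) * Qb r p q S ^ (4 * c0) * th := by
        rw [Finset.mul_sum, Finset.sum_mul, Finset.sum_mul]
    _ ≤ A * 2 * Qb r p q S ^ (4 * c0) * th := by gcongr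
    _ = sumC C0 c0 * Qb r p q S ^ (4 * c0) * th := by unfold sumC; rw [← hA]; ring

end Sum

/-! ## the induction -/

variable {Om : Type*} [Fintype Om]

theorem chain_set (P : FP Om) (L : ℕ) (HI HJ HM HN HD : ℕ → Om → Prop) (u0 : ℝ) (e : ℕ → ℝ)
    (h0 : P.Pr (HI 0) + P.Pr (HJ 0) ≤ u0)
    (hA : ∀ k < L, P.Pr (fun w => HI (k + 1) w ∧ ¬ HI k w ∧ ¬ HD k w) ≤ e k)
    (hA' : ∀ k < L, P.Pr (fun w => HJ (k + 1) w ∧ ¬ HJ k w ∧ ¬ HD k w) ≤ e k)
    (hB : ∀ k < L, P.Pr (fun w => HD k w ∧ ¬ HM k w ∧ ¬ HN k w) ≤ e k)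
    (hM : ∀ k < L, P.Pr (fun w => HM k w ∧ ¬ HI k w) ≤ e k)
    (hN : ∀ k < L, P.Pr (fun w => HN k w ∧ ¬ HJ k w) ≤ e k) :
    P.Pr (fun w => HI L w ∨ HJ L w) ≤ u0 + 5 * ∑ k ∈ range L, e k := by
  induction L with
  | zero =>
    simp only [Finset.range_zero, Finset.sum_empty, mul_zero, add_zero]
    exact (P.Pr_or_le _ _).trans h0
  | succ L ih =>
    have ih' := ih (fun k hk => hA k (by omega)) (fun k hk => hA' k (by omega)) (fun k hk => hB k (by omega))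
      (fun k hk => hM k (by omega)) (fun k hk => hN k (by omega))
    have a1 := hA L (Nat.lt_succ_self L); have a2 := hA' L (Nat.lt_succ_self L)
    have a3 := hB L (Nat.lt_succ_self L); have a4 := hM L (Nat.lt_succ_self L)
    have a5 := hN L (Nat.lt_succ_self L)
    have hinc : P.Pr (fun w => HI (L + 1) w ∨ HJ (L + 1) w) ≤ P.Pr (fun w => (HI L w ∨ HJ L w) ∨
        ((HI (L + 1) w ∧ ¬ HI L w ∧ ¬ HD L w) ∨ ((HJ (L + 1) w ∧ ¬ HJ L w ∧ ¬ HD L w) ∨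
          ((HD L w ∧ ¬ HM L w ∧ ¬ HN L w) ∨ ((HM L w ∧ ¬ HI L w) ∨ (HN L w ∧ ¬ HJ L w)))))) := by
      refine P.Pr_mono fun w _ hw => ?_
      by_cases b1 : HI L w
      · exact Or.inl (Or.inl b1)
      by_cases b2 : HJ L w
      · exact Or.inl (Or.inr b2)
      by_cases b3 : HM L w
      · exact Or.inr (Or.inr (Or.inr (Or.inr (Or.inl ⟨b3, b1⟩))))
      by_cases b4 : HN L w
      · exact Or.inr (Or.inr (Or.inr (Or.inr (Or.inr ⟨b4, b2⟩))))
      by_cases b5 : HD L w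
      · exact Or.inr (Or.inr (Or.inr (Or.inl ⟨b5, b3, b4⟩)))
      rcases hw with hw | hw
      · exact Or.inr (Or.inl ⟨hw, b1, b5⟩)
      · exact Or.inr (Or.inr (Or.inl ⟨hw, b2, b5⟩))
    have c1 := P.Pr_or_le (fun w => HI L w ∨ HJ L w)
      (fun w => (HI (L + 1) w ∧ ¬ HI L w ∧ ¬ HD L w) ∨ ((HJ (L + 1) w ∧ ¬ HJ L w ∧ ¬ HD L w) ∨
          ((HD L w ∧ ¬ HM L w ∧ ¬ HN L w) ∨ ((HM L w ∧ ¬ HI L w) ∨ (HN L w ∧ ¬ HJ L w)))))
    have c2 := P.Pr_or_le (fun w => HI (L + 1) w ∧ ¬ HI L w ∧ ¬ HD L w)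
      (fun w => (HJ (L + 1) w ∧ ¬ HJ L w ∧ ¬ HD L w) ∨
          ((HD L w ∧ ¬ HM L w ∧ ¬ HN L w) ∨ ((HM L w ∧ ¬ HI L w) ∨ (HN L w ∧ ¬ HJ L w))))
    have c3 := P.Pr_or_le (fun w => HJ (L + 1) w ∧ ¬ HJ L w ∧ ¬ HD L w)
      (fun w => (HD L w ∧ ¬ HM L w ∧ ¬ HN L w) ∨ ((HM L w ∧ ¬ HI L w) ∨ (HN L w ∧ ¬ HJ L w)))
    have c4 := P.Pr_or_le (fun w => HD L w ∧ ¬ HM L w ∧ ¬ HN L w)
      (fun w => (HM L w ∧ ¬ HI L w) ∨ (HN L w ∧ ¬ HJ L w))
    have c5 := P.Pr_or_le (fun w => HM L w ∧ ¬ HI L w) (fun w => HN L w ∧ ¬ HJ L w)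
    rw [Finset.sum_range_succ]
    linarith

/-- THE CHAIN.  Inputs: (0) `h0`, the steps `hA .. hN` (error `ek`), the last approximation `hT`, `K' x_L <= th`. -/
theorem chain (C0 : ℝ) (c0 : ℕ) (hC0 : 1 ≤ C0) : ∃ C : ℝ, 0 < C ∧ ∃ c : ℕ,
    ∀ {Om : Type*} [Fintype Om] (P : FP Om) (r p q S th K' : ℝ) (_ : Par C0 r p q S th) (L : ℕ)
      (_ : K' * xk th L ≤ th) (HI HJ HM HN HD : ℕ → Om → Prop) (HT : Om → Prop)
      (_ : P.Pr (HI 0) + P.Pr (HJ 0) ≤ C0 * Qb r p q S ^ c0 * (1 + Bk C0 r p th 0) * th)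
      (_ : ∀ k < L, P.Pr (fun w => HI (k + 1) w ∧ ¬ HI k w ∧ ¬ HD k w) ≤ ek C0 c0 r p q S th k)
      (_ : ∀ k < L, P.Pr (fun w => HJ (k + 1) w ∧ ¬ HJ k w ∧ ¬ HD k w) ≤ ek C0 c0 r p q S th k)
      (_ : ∀ k < L, P.Pr (fun w => HD k w ∧ ¬ HM k w ∧ ¬ HN k w) ≤ ek C0 c0 r p q S th k)
      (_ : ∀ k < L, P.Pr (fun w => HM k w ∧ ¬ HI k w) ≤ ek C0 c0 r p q S th k)
      (_ : ∀ k < L, P.Pr (fun w => HN k w ∧ ¬ HJ k w) ≤ ek C0 c0 r p q S th k)
      (_ : P.Pr (fun w => HT w ∧ ¬ (HI L w ∨ HJ L w)) ≤ C0 * Qb r p q S ^ c0 * (K' * xk th L)),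
      P.Pr HT ≤ C * Qb r p q S ^ c * (th * (1 + Real.log (1 / th))) := by
  have hS0 := sumC_nonneg hC0 c0
  refine ⟨2 + C0 + 8000000 * C0 ^ 3 + 5 * sumC C0 c0, by positivity, 4 * c0 + 3, ?_⟩
  intro Om _ P r p q S th K' h L hK HI HJ HM HN HD HT h0 hA hA' hB hM hN hT
  have hQ := h.one_le_Qb
  have hQ0 : 0 ≤ Qb r p q S := by linarith
  have hl := h.log_nonneg
  have ht := h.ht
  have hpow : ∀ n ≤ 4 * c0 + 3, Qb r p q S ^ n ≤ Qb r p q S ^ (4 * c0 + 3) := fun n hn => pow_le_pow_right₀ hQ hn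
  have hQ1 : 1 ≤ Qb r p q S ^ (4 * c0 + 3) := one_le_pow₀ hQ
  set Y : ℝ := Qb r p q S ^ (4 * c0 + 3) * (th * (1 + Real.log (1 / th))) with hY
  have hY1 : Qb r p q S ^ (4 * c0 + 3) * th ≤ Y := by
    rw [hY]
    refine mul_le_mul_of_nonneg_left ?_ (by linarith)
    nlinarith
  have hY0 : 0 ≤ Y := le_trans (by positivity) hY1
  have hgoal : (2 + C0 + 8000000 * C0 ^ 3 + 5 * sumC C0 c0) * Qb r p q S ^ (4 * c0 + 3) * (th * (1 + Real.log (1 / th))) =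
      2 * Y + C0 * Y + 8000000 * C0 ^ 3 * Y + 5 * (sumC C0 c0 * Y) := by rw [hY]; ring
  rw [hgoal]
  have hC0' : 0 ≤ C0 := by linarith
  have n1 : 0 ≤ C0 * Y := mul_nonneg hC0' hY0
  have n2 : 0 ≤ 8000000 * C0 ^ 3 * Y := by positivity
  have n3 : 0 ≤ sumC C0 c0 * Y := mul_nonneg hS0 hY0
  by_cases h2 : th ≤ 1 / 2
  · have hU := chain_set P L HI HJ HM HN HD _ _ h0 hA hA' hB hM hN
    have hsum := h.sum_ek_le h2 c0 L
    have e1 : P.Pr HT ≤ P.Pr (fun w => (HT w ∧ ¬ (HI L w ∨ HJ L w)) ∨ (HI L w ∨ HJ L w)) := by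
      refine P.Pr_mono fun w _ hw => ?_
      by_cases b : HI L w ∨ HJ L w
      · exact Or.inr b
      · exact Or.inl ⟨hw, b⟩
    have e2 := P.Pr_or_le (fun w => HT w ∧ ¬ (HI L w ∨ HJ L w)) (fun w => HI L w ∨ HJ L w)
    have e3 : C0 * Qb r p q S ^ c0 * (K' * xk th L) ≤ C0 * Y := by
      calc C0 * Qb r p q S ^ c0 * (K' * xk th L) ≤ C0 * Qb r p q S ^ (4 * c0 + 3) * th := by
            have := hpow c0 (by omega)
            calc C0 * Qb r p q S ^ c0 * (K' * xk th L) ≤ C0 * Qb r p q S ^ c0 * th := by gcongr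
              _ ≤ C0 * Qb r p q S ^ (4 * c0 + 3) * th := by gcongr
        _ = C0 * (Qb r p q S ^ (4 * c0 + 3) * th) := by ring
        _ ≤ C0 * Y := mul_le_mul_of_nonneg_left hY1 hC0'
    have e4 : C0 * Qb r p q S ^ c0 * (1 + Bk C0 r p th 0) * th ≤ 8000000 * C0 ^ 3 * Y := by
      have hb := h.Bk_le 0
      norm_num at hb
      have hb' : 1 + Bk C0 r p th 0 ≤ 4000000 * C0 ^ 2 * Qb r p q S ^ 3 * 2 * (1 + Real.log (1 / th)) := by
        rw [one_div, Real.log_inv]; exact hb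
      calc C0 * Qb r p q S ^ c0 * (1 + Bk C0 r p th 0) * th
          ≤ C0 * Qb r p q S ^ c0 * (4000000 * C0 ^ 2 * Qb r p q S ^ 3 * 2 * (1 + Real.log (1 / th))) * th := by gcongr
        _ = 8000000 * C0 ^ 3 * (Qb r p q S ^ (c0 + 3) * (th * (1 + Real.log (1 / th)))) := by rw [pow_add]; ring
        _ ≤ 8000000 * C0 ^ 3 * Y := by
          rw [hY]
          have := hpow (c0 + 3) (by omega)
          gcongr
    have e5 : ∑ k ∈ range L, ek C0 c0 r p q S th k ≤ sumC C0 c0 * Y := by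
      calc ∑ k ∈ range L, ek C0 c0 r p q S th k ≤ sumC C0 c0 * Qb r p q S ^ (4 * c0) * th := hsum
        _ ≤ sumC C0 c0 * Qb r p q S ^ (4 * c0 + 3) * th := by
          have := hpow (4 * c0) (by omega)
          gcongr
        _ = sumC C0 c0 * (Qb r p q S ^ (4 * c0 + 3) * th) := by ring
        _ ≤ sumC C0 c0 * Y := mul_le_mul_of_nonneg_left hY1 hS0
    linarith
  · push Not at h2
    have e1 := P.Pr_le_one HT
    have e2 : 1 / 2 * 1 ≤ Qb r p q S ^ (4 * c0 + 3) * th := by nlinarith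
    linarith

/-- the depth `L` exists -/
theorem exists_depth {th K' : ℝ} (h : 0 < th) (h1 : th < 1) : ∃ L : ℕ, K' * xk th L ≤ th := by
  have h2 : Filter.Tendsto (fun L : ℕ => K' * xk th L) Filter.atTop (nhds (K' * 0)) := by
    refine Filter.Tendsto.const_mul K' ?_
    have h3 := tendsto_pow_atTop_nhds_zero_of_lt_one h.le h1
    have h4 : Filter.Tendsto (fun L : ℕ => 2 ^ (L + 1)) Filter.atTop Filter.atTop := by
      refine Filter.tendsto_atTop_mono (fun L => ?_) Filter.tendsto_id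
      have := Nat.lt_two_pow_self (n := L + 1)
      simp only [id]
      omega
    exact h3.comp h4
  rw [mul_zero] at h2
  exact ((h2.eventually (gt_mem_nhds h)).exists).imp fun L hL => hL.le

end

end Pool.Agent.GMC
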