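import Mathlib

/-!
# GMC.Cls: the classes of one node (C2.2 of row C, general m), static part

`V` = the line, `E` = a real Hilbert space, `vec a` = the vector of the point `a` at the node.  A STATE `S : St V`
gives the class `S k a` of depth `k` of every point `a` (`Good S` : partitions, nested in `k`).  `spl S j T` = split of
depth `j` with the set `T` (all depths `k ≥ j` are split).  DATA of the rule at a node: `Dat V E` = vectors, cells
`al i`, neighbourhoods `nb i`, densities `x j`, accuracies `eps j`, maximal depth `L`.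

* `Vio D S j T` : violation; `nxt D S` : one slot (one violating split, or nothing); `cj`, `cT` its depth and its set;
* `iter_sat` : after `nmax` slots nothing is violated; `Sat.card_le` : SATURATION (two-sided);
* `energy_split` : the energy at all depths `≥ j` grows by `∑_(a ∈ T) |m(S' k a) - m(S k a)|^2`, `energy_gain` : by
  `|T| eps_j^2` at the depth `j` of a violating split;
* `lam`, `sum_lam` : relative removals, `∑_a lam = |T|`; `mn_move` : stayers move by `≤ 2 lam`.
-/

set_option autoImplicit false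
set_option linter.unusedSectionVars false

namespace Pool.Agent.GMC

open Finset

/-- a state: the class of depth `k` of the point `a` -/
abbrev St (V : Type*) := ℕ → V → Finset V

/-- partitions, nested in the depth -/
structure Good {V : Type*} (S : St V) : Prop where
  self : ∀ k a, a ∈ S k a
  cls : ∀ k a b, b ∈ S k a → S k b = S k a
  nest : ∀ k a, S (k + 1) a ⊆ S k a

/-- a split of depth `j` with the set `T` -/
def spl {V : Type*} [DecidableEq V] (S : St V) (j : ℕ) (T : Finset V) : St V := fun k a =>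
  if k < j then S k a else if a ∈ T then S k a ∩ T else S k a \ T

section basic

variable {V : Type*} [DecidableEq V] {S : St V}

theorem Good.symm (h : Good S) {k : ℕ} {a b : V} (hb : b ∈ S k a) : a ∈ S k b := by
  rw [h.cls k a b hb]; exact h.self k a

theorem Good.mem_iff (h : Good S) {k : ℕ} {a b : V} : b ∈ S k a ↔ a ∈ S k b := ⟨h.symm, h.symm⟩

theorem Good.nest_le (h : Good S) {k l : ℕ} (hkl : k ≤ l) (a : V) : S l a ⊆ S k a := by
  induction l, hkl using Nat.le_induction with
  | base => exact subset_rfl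
  | succ l _ ih => exact (h.nest l a).trans ih

theorem spl_of_lt {j k : ℕ} (hk : k < j) (T : Finset V) (a : V) : spl S j T k a = S k a := by
  unfold spl; rw [if_pos hk]

theorem spl_mem {j k : ℕ} (hk : j ≤ k) {T : Finset V} {a : V} (ha : a ∈ T) : spl S j T k a = S k a ∩ T := by
  unfold spl; rw [if_neg (not_lt.mpr hk), if_pos ha]

theorem spl_notMem {j k : ℕ} (hk : j ≤ k) {T : Finset V} {a : V} (ha : a ∉ T) : spl S j T k a = S k a \ T := by
  unfold spl; rw [if_neg (not_lt.mpr hk), if_neg ha]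

theorem spl_sub (S : St V) (j : ℕ) (T : Finset V) (k : ℕ) (a : V) : spl S j T k a ⊆ S k a := by
  unfold spl
  split_ifs
  · exact subset_rfl
  · exact inter_subset_left
  · exact sdiff_subset

theorem Good.spl (h : Good S) (j : ℕ) (T : Finset V) : Good (spl S j T) := by
  refine ⟨fun k a => ?_, fun k a b hb => ?_, fun k a => ?_⟩
  · by_cases hk : k < j
    · rw [spl_of_lt hk]; exact h.self k a
    · by_cases ha : a ∈ T
      · rw [spl_mem (not_lt.mp hk) ha]; exact mem_inter.mpr ⟨h.self k a, ha⟩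
      · rw [spl_notMem (not_lt.mp hk) ha]; exact mem_sdiff.mpr ⟨h.self k a, ha⟩
  · by_cases hk : k < j
    · rw [spl_of_lt hk] at hb ⊢
      rw [spl_of_lt hk]
      exact h.cls k a b hb
    · have hk' := not_lt.mp hk
      by_cases ha : a ∈ T
      · rw [spl_mem hk' ha] at hb
        obtain ⟨h1, h2⟩ := mem_inter.mp hb
        rw [spl_mem hk' ha, spl_mem hk' h2, h.cls k a b h1]
      · rw [spl_notMem hk' ha] at hb
        obtain ⟨h1, h2⟩ := mem_sdiff.mp hb
        rw [spl_notMem hk' ha, spl_notMem hk' h2, h.cls k a b h1]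
  · by_cases hk : k + 1 < j
    · rw [spl_of_lt hk, spl_of_lt (by omega)]; exact h.nest k a
    · have hk1 : j ≤ k + 1 := not_lt.mp hk
      by_cases hk2 : k < j
      · rw [spl_of_lt hk2]
        exact (spl_sub S j T (k + 1) a).trans (h.nest k a)
      · have hk3 := not_lt.mp hk2
        by_cases ha : a ∈ T
        · rw [spl_mem hk1 ha, spl_mem hk3 ha]
          exact inter_subset_inter_right (h.nest k a)
        · rw [spl_notMem hk1 ha, spl_notMem hk3 ha]
          exact sdiff_subset_sdiff (h.nest k a) subset_rfl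

end basic

/-! ## averages over classes -/

section avg

variable {V : Type*} [Fintype V] [DecidableEq V]

/-- averages over the classes of a partition -/
theorem sum_avg {Q : V → Finset V} (hs : ∀ a, a ∈ Q a) (hc : ∀ a b, b ∈ Q a → Q b = Q a) (h : V → ℝ) :
    ∑ a, ((Q a).card : ℝ)⁻¹ * ∑ b ∈ Q a, h b = ∑ b, h b := by
  have h1 : ∀ a, ((Q a).card : ℝ)⁻¹ * ∑ b ∈ Q a, h b = ∑ b, if a ∈ Q b then ((Q b).card : ℝ)⁻¹ * h b else 0 := by
    intro a
    rw [mul_sum, ← sum_filter]
    refine sum_congr ?_ (fun b hb => ?_)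
    · ext b
      simp only [mem_filter, mem_univ, true_and]
      constructor
      · intro hb; rw [hc a b hb]; exact hs a
      · intro hb; rw [hc b a hb]; exact hs b
    · have hb' : a ∈ Q b := (mem_filter.mp hb).2
      rw [hc b a hb']
  rw [sum_congr rfl (fun a _ => h1 a), sum_comm]
  refine sum_congr rfl (fun b _ => ?_)
  rw [← sum_filter, sum_const, nsmul_eq_mul]
  have h2 : univ.filter (fun a => a ∈ Q b) = Q b := by ext a; simp
  rw [h2]
  have h3 : ((Q b).card : ℝ) ≠ 0 := by
    rw [Nat.cast_ne_zero]; exact card_ne_zero_of_mem (hs b)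
  field_simp

end avg

/-! ## the vectors -/

section vec

variable {V : Type*} [Fintype V] [DecidableEq V] {E : Type*} [NormedAddCommGroup E] [InnerProductSpace ℝ E]

/-- the mean vector of a set -/
noncomputable def mn (vec : V → E) (S : Finset V) : E := ((S.card : ℝ)⁻¹) • ∑ a ∈ S, vec a

omit [Fintype V] [DecidableEq V] in
theorem mn_norm_le {vec : V → E} (hv : ∀ a, ‖vec a‖ ≤ 1) (S : Finset V) : ‖mn vec S‖ ≤ 1 := by
  unfold mn
  rw [norm_smul, norm_inv, Real.norm_natCast]
  rcases S.eq_empty_or_nonempty with h | h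
  · rw [h]; simp
  · have hc : (0 : ℝ) < S.card := by exact_mod_cast h.card_pos
    rw [inv_mul_le_one₀ hc]
    refine (norm_sum_le _ _).trans ?_
    refine (sum_le_sum (fun a _ => hv a)).trans ?_
    simp

omit [Fintype V] [DecidableEq V] in
theorem card_smul_mn (vec : V → E) (S : Finset V) : (S.card : ℝ) • mn vec S = ∑ a ∈ S, vec a := by
  unfold mn
  rcases S.eq_empty_or_nonempty with h | h
  · rw [h]; simp
  · have hc : (S.card : ℝ) ≠ 0 := by exact_mod_cast h.card_pos.ne'
    rw [smul_smul, mul_inv_cancel₀ hc, one_smul]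

omit [Fintype V] [DecidableEq V] in
theorem inner_mn (vec : V → E) (S : Finset V) (y : E) :
    inner ℝ (mn vec S) y = ((S.card : ℝ))⁻¹ * ∑ a ∈ S, inner ℝ (vec a) y := by
  unfold mn
  rw [real_inner_smul_left, sum_inner]

/-- energy of a partition (not normalised) -/
noncomputable def eng (vec : V → E) (Q : V → Finset V) : ℝ := ∑ a, ‖mn vec (Q a)‖ ^ 2

/-- Pythagoras for a refinement `Q' ≤ Q` -/
theorem eng_refine (vec : V → E) {Q Q' : V → Finset V} (hs : ∀ a, a ∈ Q a) (hc : ∀ a b, b ∈ Q a → Q b = Q a)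
    (hs' : ∀ a, a ∈ Q' a) (hc' : ∀ a b, b ∈ Q' a → Q' b = Q' a) (hsub : ∀ a, Q' a ⊆ Q a) :
    eng vec Q' = eng vec Q + ∑ a, ‖mn vec (Q' a) - mn vec (Q a)‖ ^ 2 := by
  have key : ∀ R : V → Finset V, (∀ a, a ∈ R a) → (∀ a b, b ∈ R a → R b = R a) → (∀ a, R a ⊆ Q a) →
      ∑ a, inner ℝ (mn vec (R a)) (mn vec (Q a)) = ∑ b, inner ℝ (vec b) (mn vec (Q b)) := by
    intro R hRs hRc hRQ
    rw [← sum_avg hRs hRc (fun b => inner ℝ (vec b) (mn vec (Q b)))]
    refine sum_congr rfl (fun a _ => ?_)
    rw [inner_mn]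
    congr 1
    refine sum_congr rfl (fun b hb => ?_)
    rw [hc a b (hRQ a hb)]
  have h1 := key Q' hs' hc' hsub
  have h2 := key Q hs hc (fun a => subset_rfl)
  unfold eng
  rw [← sum_add_distrib]
  have h3 : ∀ a, ‖mn vec (Q a)‖ ^ 2 + ‖mn vec (Q' a) - mn vec (Q a)‖ ^ 2 =
      ‖mn vec (Q' a)‖ ^ 2 + (2 * ‖mn vec (Q a)‖ ^ 2 - 2 * inner ℝ (mn vec (Q' a)) (mn vec (Q a))) := by
    intro a
    rw [norm_sub_sq_real]; ring
  rw [sum_congr rfl (fun a _ => h3 a), sum_add_distrib, sum_sub_distrib, ← mul_sum, ← mul_sum, h1]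
  have h4 : ∑ a, ‖mn vec (Q a)‖ ^ 2 = ∑ b, inner ℝ (vec b) (mn vec (Q b)) := by
    rw [← h2]
    exact sum_congr rfl (fun a _ => (real_inner_self_eq_norm_sq _).symm)
  rw [h4]; ring

/-- energy after a split, any depth `k ≥ j` -/
theorem energy_split (vec : V → E) {S : St V} (hS : Good S) (j : ℕ) (T : Finset V) (k : ℕ) :
    eng vec (spl S j T k) = eng vec (S k) + ∑ a, ‖mn vec (spl S j T k a) - mn vec (S k a)‖ ^ 2 :=
  eng_refine vec (hS.self k) (hS.cls k) ((hS.spl j T).self k) ((hS.spl j T).cls k) (spl_sub S j T k)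

/-- relative removal of the split `T` in the class of `a` -/
noncomputable def lam (S : St V) (T : Finset V) (k : ℕ) (a : V) : ℝ := ((S k a ∩ T).card : ℝ) / (S k a).card

omit [Fintype V] in
theorem lam_nonneg (S : St V) (T : Finset V) (k : ℕ) (a : V) : 0 ≤ lam S T k a := by unfold lam; positivity

omit [Fintype V] in
theorem lam_le_one (S : St V) (T : Finset V) (k : ℕ) (a : V) : lam S T k a ≤ 1 := by
  unfold lam
  refine div_le_one_of_le₀ ?_ (Nat.cast_nonneg _)
  exact_mod_cast card_le_card inter_subset_left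

/-- total removal -/
theorem sum_lam {S : St V} (hS : Good S) (T : Finset V) (k : ℕ) : ∑ a, lam S T k a = T.card := by
  have h := sum_avg (hS.self k) (hS.cls k) (fun b => if b ∈ T then (1 : ℝ) else 0)
  have h2 : ∑ b : V, (if b ∈ T then (1 : ℝ) else 0) = T.card := by
    rw [← sum_filter]; simp
  rw [h2] at h
  rw [← h]
  refine sum_congr rfl (fun a _ => ?_)
  unfold lam
  rw [div_eq_inv_mul, ← sum_filter]
  congr 1
  simp [Finset.filter_mem_eq_inter]

/-- the mean of a class is the mixture of the two parts -/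
theorem mn_mix (vec : V → E) (C T : Finset V) (hC : C.Nonempty) :
    mn vec C = (((C ∩ T).card : ℝ) / C.card) • mn vec (C ∩ T) + (1 - ((C ∩ T).card : ℝ) / C.card) • mn vec (C \ T) := by
  have hc : (C.card : ℝ) ≠ 0 := by exact_mod_cast hC.card_pos.ne'
  have h1 : (1 - ((C ∩ T).card : ℝ) / C.card) = ((C \ T).card : ℝ) / C.card := by
    have h2 : (C.card : ℝ) = (C ∩ T).card + (C \ T).card := by
      exact_mod_cast (card_inter_add_card_sdiff C T).symm
    field_simp
    linarith
  rw [h1, div_eq_inv_mul, div_eq_inv_mul, ← smul_smul, ← smul_smul, card_smul_mn, card_smul_mn, ← smul_add]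
  unfold mn
  congr 1
  rw [add_comm, ← sum_union (disjoint_sdiff_inter C T), sdiff_union_inter]

/-- stayers move by at most `2 lam` -/
theorem mn_move {vec : V → E} (hv : ∀ a, ‖vec a‖ ≤ 1) {S : St V} (hS : Good S) {j k : ℕ} (hk : j ≤ k)
    {T : Finset V} {a : V} (ha : a ∉ T) : ‖mn vec (spl S j T k a) - mn vec (S k a)‖ ≤ 2 * lam S T k a := by
  rw [spl_notMem hk ha]
  set C := S k a with hC
  have hne : C.Nonempty := ⟨a, hS.self k a⟩
  have h1 : mn vec (C \ T) - mn vec C = lam S T k a • (mn vec (C \ T) - mn vec (C ∩ T)) := by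
    rw [mn_mix vec C T hne]
    unfold lam
    rw [← hC]
    module
  rw [h1, norm_smul, Real.norm_of_nonneg (lam_nonneg S T k a), mul_comm]
  refine mul_le_mul_of_nonneg_right ?_ (lam_nonneg S T k a)
  refine (norm_sub_le _ _).trans ?_
  have := mn_norm_le hv (C \ T)
  have := mn_norm_le hv (C ∩ T)
  linarith

end vec

/-! ## the rule -/

/-- the data of the rule at one node -/
structure Dat (V E : Type*) where
  /-- the vectors of the points -/
  vec : V → E
  /-- small cells, indexed by a type of indices (the points) -/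
  al : V → Finset V
  /-- neighbourhoods of the small cells -/
  nb : V → Finset V
  /-- densities -/
  x : ℕ → ℝ
  /-- accuracies -/
  eps : ℕ → ℝ
  /-- maximal depth -/
  L : ℕ

section rule

variable {V : Type*} [Fintype V] [DecidableEq V] {E : Type*} [NormedAddCommGroup E] [InnerProductSpace ℝ E]

open Classical in
/-- the points of the cell `i` in the class of `a0` which deviate in the direction `y` -/
noncomputable def dev (D : Dat V E) (S : St V) (j : ℕ) (a0 i : V) (y : E) : Finset V :=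
  (S j a0 ∩ D.al i).filter fun a => D.eps j ≤ inner ℝ (D.vec a - mn D.vec (S j a0)) y

/-- a violation of the rule of depth `j` -/
def Vio (D : Dat V E) (S : St V) (j : ℕ) (T : Finset V) : Prop :=
  j ≤ D.L ∧ ∃ a0 i y, ‖y‖ ≤ 1 ∧ T = dev D S j a0 i y ∧ D.x j * ((S j a0 ∩ D.nb i).card : ℝ) < T.card

/-- saturated state -/
def Sat (D : Dat V E) (S : St V) : Prop := ∀ j T, ¬ Vio D S j T

omit [Fintype V] in
theorem dev_sub (D : Dat V E) (S : St V) (j : ℕ) (a0 i : V) (y : E) : dev D S j a0 i y ⊆ S j a0 :=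
  (filter_subset _ _).trans inter_subset_left

omit [Fintype V] in
theorem Vio.nonempty {D : Dat V E} (hx : ∀ j, 0 ≤ D.x j) {S : St V} {j : ℕ} {T : Finset V} (h : Vio D S j T) :
    T.Nonempty := by
  obtain ⟨_, a0, i, y, _, _, h2⟩ := h
  have h3 : (0 : ℝ) < T.card := lt_of_le_of_lt (mul_nonneg (hx j) (Nat.cast_nonneg _)) h2
  exact card_pos.mp (by exact_mod_cast h3)

omit [Fintype V] in
/-- the mean of the part deviates -/
theorem Vio.mean {D : Dat V E} (hx : ∀ j, 0 ≤ D.x j) {S : St V} {j : ℕ} {T : Finset V} (h : Vio D S j T) :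
    ∃ a0, T ⊆ S j a0 ∧ (∃ i, T ⊆ D.al i ∧ D.x j * ((S j a0 ∩ D.nb i).card : ℝ) < T.card) ∧
      D.eps j ≤ ‖mn D.vec T - mn D.vec (S j a0)‖ := by
  have hne := h.nonempty hx
  obtain ⟨_, a0, i, y, hy, h1, h2⟩ := h
  refine ⟨a0, ?_, ⟨i, ?_, h2⟩, ?_⟩
  · rw [h1]; exact dev_sub D S j a0 i y
  · rw [h1]; exact (filter_subset _ _).trans inter_subset_right
  · have hc : (0 : ℝ) < T.card := by exact_mod_cast hne.card_pos
    have h3 : ∀ a ∈ T, D.eps j ≤ inner ℝ (D.vec a - mn D.vec (S j a0)) y := by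
      intro a ha
      rw [h1] at ha
      exact (mem_filter.mp ha).2
    have h4 : inner ℝ (mn D.vec T - mn D.vec (S j a0)) y =
        (T.card : ℝ)⁻¹ * ∑ a ∈ T, inner ℝ (D.vec a - mn D.vec (S j a0)) y := by
      rw [inner_sub_left, inner_mn]
      have h5 : ∑ a ∈ T, inner ℝ (D.vec a - mn D.vec (S j a0)) y =
          ∑ a ∈ T, inner ℝ (D.vec a) y - T.card * inner ℝ (mn D.vec (S j a0)) y := by
        rw [sum_congr rfl (fun a _ => inner_sub_left _ _ _), sum_sub_distrib, sum_const, nsmul_eq_mul]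
      rw [h5]
      field_simp
    have h6 : D.eps j ≤ inner ℝ (mn D.vec T - mn D.vec (S j a0)) y := by
      rw [h4, ← div_eq_inv_mul, le_div_iff₀ hc]
      calc D.eps j * T.card = ∑ _a ∈ T, D.eps j := by rw [sum_const, nsmul_eq_mul]; ring
        _ ≤ _ := sum_le_sum h3
    refine h6.trans ((real_inner_le_norm _ _).trans ?_)
    calc ‖mn D.vec T - mn D.vec (S j a0)‖ * ‖y‖ ≤ ‖mn D.vec T - mn D.vec (S j a0)‖ * 1 :=
          mul_le_mul_of_nonneg_left hy (norm_nonneg _)
      _ = _ := mul_one _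

omit [Fintype V] in
/-- a violating set is a proper part of the class -/
theorem Vio.ne {D : Dat V E} (hx : ∀ j, 0 ≤ D.x j) (he : ∀ j, 0 < D.eps j) {S : St V} {j : ℕ} {T : Finset V}
    (h : Vio D S j T) : ∃ a0, T ⊆ S j a0 ∧ T ≠ S j a0 ∧ T.Nonempty := by
  obtain ⟨a0, h1, _, h2⟩ := h.mean hx
  refine ⟨a0, h1, fun h3 => ?_, h.nonempty hx⟩
  rw [h3, sub_self, norm_zero] at h2
  exact absurd h2 (not_le.mpr (he j))

/-- size of a state: decreases at every split -/
def siz (L : ℕ) (S : St V) : ℕ := ∑ k ∈ range (L + 1), ∑ a, (S k a).card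

theorem siz_lt {L : ℕ} {S : St V} (hS : Good S) {j : ℕ} (hj : j ≤ L) {T : Finset V} {a0 : V} (hT : T ⊆ S j a0)
    (hne : T ≠ S j a0) (hT0 : T.Nonempty) : siz L (spl S j T) < siz L S := by
  unfold siz
  refine sum_lt_sum (fun k _ => sum_le_sum (fun a _ => card_le_card (spl_sub S j T k a))) ?_
  refine ⟨j, mem_range.mpr (by omega), ?_⟩
  obtain ⟨b, hb⟩ := hT0
  refine sum_lt_sum (fun a _ => card_le_card (spl_sub S j T j a)) ⟨b, mem_univ b, ?_⟩
  rw [spl_mem le_rfl hb]
  have h1 : S j b = S j a0 := hS.cls j a0 b (hT hb)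
  rw [h1, inter_eq_right.mpr hT]
  exact card_lt_card (Finset.ssubset_iff_subset_ne.mpr ⟨hT, hne⟩)

open Classical in
/-- the chosen violating pair, `(0, ∅)` if there is none -/
noncomputable def cho (D : Dat V E) (S : St V) : ℕ × Finset V :=
  if h : ∃ q : ℕ × Finset V, Vio D S q.1 q.2 then h.choose else (0, ∅)

/-- depth of the split of the slot -/
noncomputable def cj (D : Dat V E) (S : St V) : ℕ := (cho D S).1

/-- set of the split of the slot -/
noncomputable def cT (D : Dat V E) (S : St V) : Finset V := (cho D S).2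

/-- one slot of the rule -/
noncomputable def nxt (D : Dat V E) (S : St V) : St V := spl S (cj D S) (cT D S)

omit [Fintype V] in
theorem cho_vio {D : Dat V E} {S : St V} (h : ¬ Sat D S) : Vio D S (cj D S) (cT D S) := by
  have h1 : ∃ q : ℕ × Finset V, Vio D S q.1 q.2 := by
    unfold Sat at h
    push Not at h
    obtain ⟨j, T, h2⟩ := h
    exact ⟨(j, T), h2⟩
  unfold cj cT cho
  rw [dif_pos h1]
  exact h1.choose_spec

omit [Fintype V] in
theorem cT_sat {D : Dat V E} {S : St V} (h : Sat D S) : cT D S = ∅ := by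
  have h1 : ¬ ∃ q : ℕ × Finset V, Vio D S q.1 q.2 := by
    rintro ⟨q, hq⟩
    exact h _ _ hq
  unfold cT cho
  rw [dif_neg h1]

omit [Fintype V] in
theorem nxt_sat {D : Dat V E} {S : St V} (h : Sat D S) : nxt D S = S := by
  unfold nxt
  rw [cT_sat h]
  funext k a
  unfold spl
  simp

omit [Fintype V] in
/-- `cT` is empty or a violating set -/
theorem cho_cases (D : Dat V E) (S : St V) : cT D S = ∅ ∨ Vio D S (cj D S) (cT D S) := by
  by_cases h : Sat D S
  · exact Or.inl (cT_sat h)
  · exact Or.inr (cho_vio h)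

omit [Fintype V] in
theorem Good.nxt {S : St V} (h : Good S) (D : Dat V E) : Good (nxt D S) := h.spl _ _

omit [Fintype V] in
theorem Good.iter {S : St V} (h : Good S) (D : Dat V E) (n : ℕ) : Good ((GMC.nxt D)^[n] S) := by
  induction n with
  | zero => exact h
  | succ n ih => rw [Function.iterate_succ_apply']; exact ih.nxt D

/-- number of slots of a node -/
def nmax (V : Type*) [Fintype V] (L : ℕ) : ℕ := (L + 1) * (Fintype.card V * Fintype.card V) + 1

/-- SATURATION is reached -/
theorem iter_sat {D : Dat V E} (hx : ∀ j, 0 ≤ D.x j) (he : ∀ j, 0 < D.eps j) {S : St V} (hS : Good S) :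
    Sat D ((nxt D)^[nmax V D.L] S) := by
  by_contra hcon
  have hsat : ∀ n, Sat D ((nxt D)^[n] S) → Sat D ((nxt D)^[n + 1] S) := by
    intro n h
    rw [Function.iterate_succ_apply', nxt_sat h]; exact h
  have hns : ∀ n ≤ nmax V D.L, ¬ Sat D ((nxt D)^[n] S) := by
    intro n hn h
    refine hcon ?_
    obtain ⟨d, hd⟩ := Nat.exists_eq_add_of_le hn
    have : ∀ d, Sat D ((nxt D)^[n + d] S) := by
      intro d
      induction d with
      | zero => exact h
      | succ d ih => exact hsat _ ih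
    rw [hd]
    exact this d
  have hsz : ∀ n ≤ nmax V D.L, n + siz D.L ((nxt D)^[n] S) ≤ siz D.L S := by
    intro n
    induction n with
    | zero => intro _; simp
    | succ n ih =>
      intro hn
      have h1 := ih (by omega)
      have h2 := cho_vio (hns n (by omega))
      obtain ⟨a0, h3, h4, h5⟩ := h2.ne hx he
      have h6 : siz D.L (nxt D ((nxt D)^[n] S)) < siz D.L ((nxt D)^[n] S) :=
        siz_lt (L := D.L) (hS.iter D n) h2.1 h3 h4 h5
      rw [Function.iterate_succ_apply']
      omega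
  have h1 := hsz (nmax V D.L) le_rfl
  have h2 : siz D.L S ≤ (D.L + 1) * (Fintype.card V * Fintype.card V) := by
    unfold siz
    calc ∑ k ∈ range (D.L + 1), ∑ a, (S k a).card ≤ ∑ _k ∈ range (D.L + 1), ∑ _a : V, Fintype.card V :=
          sum_le_sum (fun k _ => sum_le_sum (fun a _ => card_le_univ _))
      _ = (D.L + 1) * (Fintype.card V * Fintype.card V) := by
          rw [sum_const, sum_const, card_range, card_univ, smul_eq_mul, smul_eq_mul]
  unfold nmax at h1
  omega

open Classical in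
omit [Fintype V] in
/-- SATURATION, two-sided -/
theorem Sat.card_le {D : Dat V E} {S : St V} (h : Sat D S) {j : ℕ} (hj : j ≤ D.L) (a0 i : V) {y : E} (hy : ‖y‖ ≤ 1) :
    (((S j a0 ∩ D.al i).filter fun a => D.eps j ≤ |inner ℝ (D.vec a - mn D.vec (S j a0)) y|).card : ℝ) ≤
      2 * D.x j * ((S j a0 ∩ D.nb i).card : ℝ) := by
  have h1 : ∀ z : E, ‖z‖ ≤ 1 → ((dev D S j a0 i z).card : ℝ) ≤ D.x j * ((S j a0 ∩ D.nb i).card : ℝ) := by
    intro z hz
    by_contra hcon
    exact h j _ ⟨hj, a0, i, z, hz, rfl, not_le.mp hcon⟩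
  have h2 : (S j a0 ∩ D.al i).filter (fun a => D.eps j ≤ |inner ℝ (D.vec a - mn D.vec (S j a0)) y|) ⊆
      dev D S j a0 i y ∪ dev D S j a0 i (-y) := by
    intro a ha
    obtain ⟨h3, h4⟩ := mem_filter.mp ha
    rw [mem_union]
    unfold dev
    rw [mem_filter, mem_filter, inner_neg_right]
    rcases le_abs.mp h4 with h5 | h5
    · exact Or.inl ⟨h3, h5⟩
    · exact Or.inr ⟨h3, h5⟩
  have h3 := card_le_card h2
  have h4 := card_union_le (dev D S j a0 i y) (dev D S j a0 i (-y))
  have h5 : (((S j a0 ∩ D.al i).filter fun a => D.eps j ≤ |inner ℝ (D.vec a - mn D.vec (S j a0)) y|).card : ℝ) ≤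
      (dev D S j a0 i y).card + (dev D S j a0 i (-y)).card := by exact_mod_cast h3.trans h4
  have h6 := h1 y hy
  have h7 := h1 (-y) (by rw [norm_neg]; exact hy)
  linarith

/-- energy gain of a violating split at its own depth -/
theorem energy_gain {D : Dat V E} (hx : ∀ j, 0 ≤ D.x j) (he : ∀ j, 0 < D.eps j) {S : St V} (hS : Good S) {j : ℕ}
    {T : Finset V} (h : Vio D S j T) :
    eng D.vec (S j) + T.card * D.eps j ^ 2 ≤ eng D.vec (spl S j T j) := by
  rw [energy_split D.vec hS j T j]
  obtain ⟨a0, h1, _, h2⟩ := h.mean hx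
  have h3 : ∑ a ∈ T, D.eps j ^ 2 ≤ ∑ a ∈ T, ‖mn D.vec (spl S j T j a) - mn D.vec (S j a)‖ ^ 2 := by
    refine sum_le_sum (fun a ha => ?_)
    have e1 : S j a = S j a0 := hS.cls j a0 a (h1 ha)
    rw [spl_mem le_rfl ha, e1, inter_eq_right.mpr h1]
    exact pow_le_pow_left₀ (he j).le h2 2
  have h4 : ∑ a ∈ T, ‖mn D.vec (spl S j T j a) - mn D.vec (S j a)‖ ^ 2 ≤
      ∑ a, ‖mn D.vec (spl S j T j a) - mn D.vec (S j a)‖ ^ 2 :=
    sum_le_sum_of_subset_of_nonneg (subset_univ T) (fun a _ _ => sq_nonneg _)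
  rw [sum_const, nsmul_eq_mul] at h3
  linarith

end rule

end Pool.Agent.GMC
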