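import Pool.Agent.GMC.Inst
import Pool.Agent.GMC.BitX

/-!
# GMC/Clx (namespace Ck): the classes of depth `i : ℕ∞`, entries and losses of the instance (helper67)

`clx_top`, `clx_coe`, `mem_clx`, `clx_ne`, `clx_cls`, `clx_nest`, `clx_par`, `clx_stay`, `clx_eq_nest`, `clx_eq_par`, `clx_cont`;
`en_top`, `en_coe`, `en_mono`; `cv_eq`, `cv_nonneg`, `ls_eq`, `ls_nonneg`, `ls_rmv`, `ls_top`, `ls_coe`.
-/

set_option autoImplicit false
set_option linter.unusedSectionVars false

namespace Pool.Agent.GMC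

open Finset Pool.Agent.PWZ Pool.Agent.M3 Pool.Agent.M3.Bin Pool.Agent.M3.Mod
open Pool.Agent.GM99 (Ohc pm kapc)

noncomputable section

open Classical in
/-- the relative removal of a filter -/
theorem rmv_filter {A : Type*} {S : Finset A} (hS : S.Nonempty) (p : A → Prop) :
    rmv S (S.filter fun u => ¬ p u) = avs S fun u => ind (p u) := by
  have h0 : (0 : ℝ) < S.card := by exact_mod_cast hS.card_pos
  have h1 : ∑ u ∈ S, ind (p u) = ((S.filter fun u => p u).card : ℝ) := by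
    rw [Finset.card_filter]
    push_cast
    refine Finset.sum_congr rfl fun u _ => ?_
    by_cases h : p u
    · rw [ind_of h, if_pos h]
    · rw [ind_not h, if_neg h]
  have h2 : ((S.filter fun u => p u).card : ℝ) + ((S.filter fun u => ¬ p u).card : ℝ) = S.card := by
    have := Finset.card_filter_add_card_filter_not (s := S) (fun u => p u)
    exact_mod_cast this
  unfold rmv avs
  rw [h1]
  field_simp
  linarith

variable {k N n : ℕ} {P Ξ : Type} [Fintype P] [DecidableEq P] [Fintype Ξ]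

namespace Ck

variable {I : Ins k N n P Ξ}

/-! ## the classes of depth `i : ℕ∞` -/

theorem clx_top (F : Face k n P Ξ) (t : ℕ) (ν : Nd k n) (a : P × V k) : I.clx F ⊤ t ν a = {a} := if_pos rfl

theorem clx_coe (F : Face k n P Ξ) (i t : ℕ) (ν : Nd k n) (a : P × V k) :
    I.clx F (i : ℕ∞) t ν a = (I.Y F).st t ν i a := by
  unfold Ins.clx
  rw [if_neg (ENat.natCast_ne_top i), ENat.toNat_natCast]

theorem en_top (F : Face k n P Ξ) (t : ℕ) (ν : Nd k n) (a : P × V k) : ¬ I.en F ⊤ t ν a := fun h => h.1 rfl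

theorem en_coe (F : Face k n P Ξ) (i t : ℕ) (ν : Nd k n) (a : P × V k) :
    I.en F (i : ℕ∞) t ν a ↔ (I.Y F).ent i t ν a := by
  unfold Ins.en
  rw [ENat.toNat_natCast]
  exact ⟨fun h => h.2, fun h => ⟨ENat.natCast_ne_top i, h⟩⟩

theorem mem_clx (F : Face k n P Ξ) (i : ℕ∞) (t : ℕ) (ν : Nd k n) (a : P × V k) : a ∈ I.clx F i t ν a := by
  induction i using ENat.recTopCoe with
  | top => rw [clx_top]; exact Finset.mem_singleton_self a
  | coe i => rw [clx_coe]; exact ((I.Y F).good_st t ν).self i a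

theorem clx_ne (F : Face k n P Ξ) (i : ℕ∞) (t : ℕ) (ν : Nd k n) (a : P × V k) : (I.clx F i t ν a).Nonempty :=
  ⟨a, mem_clx F i t ν a⟩

theorem clx_cls {F : Face k n P Ξ} {i : ℕ∞} {t : ℕ} {ν : Nd k n} {a b : P × V k} (h : b ∈ I.clx F i t ν a) :
    I.clx F i t ν b = I.clx F i t ν a := by
  induction i using ENat.recTopCoe with
  | top =>
    rw [clx_top, Finset.mem_singleton] at h
    rw [h]
  | coe i =>
    rw [clx_coe] at h ⊢
    rw [clx_coe]
    exact ((I.Y F).good_st t ν).cls i a b h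

theorem clx_nest {F : Face k n P Ξ} {i j : ℕ∞} (hij : i ≤ j) (t : ℕ) (ν : Nd k n) (a : P × V k) :
    I.clx F j t ν a ⊆ I.clx F i t ν a := by
  induction j using ENat.recTopCoe with
  | top =>
    rw [clx_top, Finset.singleton_subset_iff]
    exact mem_clx F i t ν a
  | coe j =>
    induction i using ENat.recTopCoe with
    | top => exact absurd hij (not_le.2 (ENat.natCast_lt_top j))
    | coe i =>
      rw [clx_coe, clx_coe]
      exact ((I.Y F).good_st t ν).nest_le (Nat.cast_le.1 hij) a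

theorem clx_par (F : Face k n P Ξ) (i : ℕ∞) (t : ℕ) (ν : Nd k n) (a : P × V k) :
    I.clx F i (t + 1) ν a ⊆ I.clx F i t (parT N I.hh n t ν) a := by
  induction i using ENat.recTopCoe with
  | top => rw [clx_top, clx_top]
  | coe i =>
    rw [clx_coe, clx_coe]
    exact (I.Y F).sub_par t ν i a

open Classical in
theorem clx_stay {F : Face k n P Ξ} {i : ℕ∞} {t : ℕ} {ν : Nd k n} {a : P × V k} (h : ¬ I.en F i (t + 1) ν a) :
    I.clx F i (t + 1) ν a = (I.clx F i t (parT N I.hh n t ν) a).filter fun u => ¬ I.en F i (t + 1) ν u := by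
  induction i using ENat.recTopCoe with
  | top =>
    rw [clx_top, clx_top, Finset.filter_singleton, if_pos (en_top F (t + 1) ν a)]
  | coe i =>
    rw [en_coe] at h
    rw [clx_coe, clx_coe]
    have h1 := (I.Y F).stay_eq h
    rw [h1]
    ext u
    rw [Finset.mem_filter, Finset.mem_filter, en_coe]
    exact Iff.rfl

/-- equal classes at a node: equal coarser classes -/
theorem clx_eq_nest {F : Face k n P Ξ} {i j : ℕ∞} (hij : i ≤ j) {t : ℕ} {ν : Nd k n} {a b : P × V k}
    (h : I.clx F j t ν a = I.clx F j t ν b) : I.clx F i t ν a = I.clx F i t ν b := by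
  refine clx_cls (clx_nest hij t ν b ?_)
  rw [← h]
  exact mem_clx F j t ν a

/-- equal classes at a node: equal classes at the parent -/
theorem clx_eq_par {F : Face k n P Ξ} {i : ℕ∞} {t : ℕ} {ν : Nd k n} {a b : P × V k}
    (h : I.clx F i (t + 1) ν a = I.clx F i (t + 1) ν b) :
    I.clx F i t (parT N I.hh n t ν) a = I.clx F i t (parT N I.hh n t ν) b := by
  refine clx_cls (clx_par F i t ν b ?_)
  rw [← h]
  exact mem_clx F i (t + 1) ν a

/-- no entries: the new class is determined by the old class -/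
theorem clx_cont {F : Face k n P Ξ} {i : ℕ∞} {t : ℕ} {ν : Nd k n} {a b : P × V k}
    (hab : I.clx F i t (parT N I.hh n t ν) a = I.clx F i t (parT N I.hh n t ν) b) (ha : ¬ I.en F i (t + 1) ν a)
    (hb : ¬ I.en F i (t + 1) ν b) : I.clx F i (t + 1) ν a = I.clx F i (t + 1) ν b := by
  rw [clx_stay ha, clx_stay hb, hab]

/-! ## the losses -/

theorem cv_eq (F : Face k n P Ξ) (t : ℕ) (ν : Nd k n) (a : P × V k) :
    I.cv F t ν a = vcostc N I.hh I.wx (I.ver F) t ν a := rfl

theorem cv_nonneg (hwx : ∀ ξ, 0 ≤ I.wx ξ) (F : Face k n P Ξ) (t : ℕ) (ν : Nd k n) (a : P × V k) : 0 ≤ I.cv F t ν a :=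
  ver_nonneg _ (wU_nonneg _ _) hwx _ _

theorem ls_eq (F : Face k n P Ξ) (i : ℕ∞) (t : ℕ) (ν : Nd k n) (a : P × V k) :
    I.ls F i t ν a = avs (I.clx F i t (parT N I.hh n t ν) a) (I.cv F t ν) +
      avs (I.clx F i t (parT N I.hh n t ν) a) (fun u => ind (I.en F i (t + 1) ν u)) := by
  rw [← avs_add]
  rfl

theorem ls_nonneg (hwx : ∀ ξ, 0 ≤ I.wx ξ) (F : Face k n P Ξ) (i : ℕ∞) (t : ℕ) (ν : Nd k n) (a : P × V k) : 0 ≤ I.ls F i t ν a := by
  rw [ls_eq]
  exact add_nonneg (avs_nonneg fun _ _ => cv_nonneg hwx _ _ _ _) (avs_nonneg fun _ _ => ind_nonneg _)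

open Classical in
theorem ls_rmv {F : Face k n P Ξ} {i : ℕ∞} {t : ℕ} {ν : Nd k n} {a : P × V k} (h : ¬ I.en F i (t + 1) ν a) :
    I.ls F i t ν a = avs (I.clx F i t (parT N I.hh n t ν) a) (vcostc N I.hh I.wx (I.ver F) t ν) +
      rmv (I.clx F i t (parT N I.hh n t ν) a) (I.clx F i (t + 1) ν a) := by
  rw [ls_eq, clx_stay h, rmv_filter (clx_ne F i t _ a)]
  rfl

theorem ls_top (F : Face k n P Ξ) (t : ℕ) (ν : Nd k n) (a : P × V k) : I.ls F ⊤ t ν a = I.cv F t ν a := by
  rw [ls_eq, clx_top, avs_singleton, avs_singleton, ind_not (en_top F (t + 1) ν a), add_zero]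

theorem ls_coe (F : Face k n P Ξ) (i t : ℕ) (ν : Nd k n) (a : P × V k) :
    I.ls F (i : ℕ∞) t ν a = (I.Y F).lsc (fun τ => I.cv F (τ - 1)) i (t + 1) ν a := by
  rw [CSys.lsc_eq, ls_eq, ← avs_add, clx_coe]
  refine avs_congr fun u _ => ?_
  rw [Nat.add_sub_cancel]
  congr 1
  exact congrArg ind (propext (en_coe F i (t + 1) ν u))

/-- entries are monotone in the depth -/
theorem en_mono {F : Face k n P Ξ} {i j : ℕ∞} (hij : i ≤ j) (hj : j ≠ ⊤) {t : ℕ} {ν : Nd k n} {a : P × V k}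
    (h : I.en F i t ν a) : I.en F j t ν a := by
  refine ⟨hj, (I.Y F).ent_mono ?_ h.2⟩
  exact ENat.toNat_le_toNat hij hj

end Ck

end

end Pool.Agent.GMC
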