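import Pool.Agent.GMC.BiasF

/-!
# From the path space to the line of one vertex, and the sum over the times

* `GG_static`, `D2_static`: `a` uniform on `A` and independent of the node `nd`; class `c (nd) (a)`: the irregularity
  computed on the path space given (node, class) is the irregularity of the partition `c (nd)` of `A`.
* `sum_GG7`: classes of exponent `e`, cells of exponent `e + 7`.
* `sum_D2`: several micro times per level, both grids.
-/

set_option autoImplicit false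

namespace Pool.Agent.GMC

open Finset Pool.Agent.PWZ Pool.Agent.M3 Pool.Agent.M3.Bin

noncomputable section

variable {k : ℕ} {Om : Type*} [Fintype Om]

section static

variable {A Nd ι : Type*} [Fintype A] [Nonempty A]

/-- `a` is uniform and independent of `nd` -/
structure UI (P : FP Om) (a : Om → A) (nd : Om → Nd) : Prop where
  indep : P.Indep a nd
  uni : ∀ f : A → ℝ, P.E (fun w => f (a w)) = (FP.unif A).E f

theorem UI.ce_static {P : FP Om} {a : Om → A} {nd : Om → Nd} (h : UI P a nd) {κ : Type*}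
    (ξ : Nd → A → κ) (f : Nd → A → ℝ) {w : Om} (hw : P.p w ≠ 0) :
    P.ce (fun u => (nd u, ξ (nd u) (a u))) (fun u => f (nd u) (a u)) w =
      (FP.unif A).ce (ξ (nd w)) (f (nd w)) (a w) := by
  have key : ∀ g : A → ℝ, P.E (fun u => ind (nd u = nd w) * g (a u)) =
      P.Pr (fun u => nd u = nd w) * (FP.unif A).E g := by
    intro g
    have h1 := h.indep (fun u => g (a u)) (fun u => PWZ.ind (nd u = nd w)) (fun x y hxy => by simp only [hxy])
      (Fac.ind (fun x y hxy => by rw [hxy]))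
    rw [h.uni] at h1
    rw [mul_comm (P.Pr _)]
    unfold FP.Pr
    rw [← h1]
    exact P.E_congr (fun u _ => mul_comm _ _)
  have hnd : 0 < P.Pr (fun u => nd u = nd w) := P.m_pos nd hw
  have e1 : P.E (fun v => ind ((nd v, ξ (nd v) (a v)) = (nd w, ξ (nd w) (a w))) * f (nd v) (a v)) =
      P.Pr (fun u => nd u = nd w) * (FP.unif A).E (fun x => PWZ.ind (ξ (nd w) x = ξ (nd w) (a w)) * f (nd w) x) := by
    rw [← key]
    refine P.E_congr (fun u _ => ?_)
    rw [Prod.mk.injEq, ind_and]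
    by_cases hu : nd u = nd w
    · rw [hu]; ring
    · rw [ind_not hu]; ring
  have e2 : P.m (fun u => (nd u, ξ (nd u) (a u))) w =
      P.Pr (fun u => nd u = nd w) * (FP.unif A).m (ξ (nd w)) (a w) := by
    unfold FP.m
    rw [← key]
    refine P.E_congr (fun u _ => ?_)
    rw [Prod.mk.injEq, ind_and]
    by_cases hu : nd u = nd w
    · rw [hu]
    · rw [ind_not hu]; ring
  unfold FP.ce
  rw [e1, e2, mul_div_mul_left _ _ hnd.ne']

theorem UI.bb_static {P : FP Om} {a : Om → A} {nd : Om → Nd} (h : UI P a nd) (c : Nd → A → ι) (v : A → ℕ)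
    (σ : ℕ) {w : Om} (hw : P.p w ≠ 0) :
    bb P (fun u => (nd u, c (nd u) (a u))) (fun u => v (a u)) σ w =
      bb (FP.unif A) (c (nd w)) v σ (a w) := by
  have h1 := h.ce_static (fun n x => (c n x, v x / 2 ^ (σ + 1))) (fun _ x => pb v σ x) hw
  unfold bb
  have h2 : P.ce (XC (fun u => (nd u, c (nd u) (a u))) (fun u => v (a u)) (σ + 1)) (pb (fun u => v (a u)) σ) w =
      P.ce (fun u => (nd u, (c (nd u) (a u), v (a u) / 2 ^ (σ + 1)))) (fun u => pb v σ (a u)) w := by
    refine P.ce_congr_map ?_ ?_ _ w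
    · intro x y hxy
      unfold XC at hxy
      simp only [Prod.mk.injEq] at hxy ⊢
      tauto
    · intro x y hxy
      unfold XC
      simp only [Prod.mk.injEq] at hxy ⊢
      tauto
  rw [h2, h1]
  rfl

theorem UI.GG_static {P : FP Om} {a : Om → A} {nd : Om → Nd} (h : UI P a nd) (c : Nd → A → ι) (v : A → ℕ)
    (τ : ℕ) {w : Om} (hw : P.p w ≠ 0) :
    GG P (fun u => (nd u, c (nd u) (a u))) (fun u => v (a u)) τ w =
      GG (FP.unif A) (c (nd w)) v τ (a w) := by
  unfold GG
  refine Finset.sum_congr rfl (fun j _ => ?_)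
  congr 2
  have h1 := h.ce_static (fun n x => (c n x, v x / 2 ^ τ)) (fun n x => bb (FP.unif A) (c n) v (τ - 1 - j) x ^ 2) hw
  have h2 : P.ce (XC (fun u => (nd u, c (nd u) (a u))) (fun u => v (a u)) τ)
      (fun u => bb P (fun u => (nd u, c (nd u) (a u))) (fun u => v (a u)) (τ - 1 - j) u ^ 2) w =
      P.ce (fun u => (nd u, (c (nd u) (a u), v (a u) / 2 ^ τ)))
        (fun u => bb (FP.unif A) (c (nd u)) v (τ - 1 - j) (a u) ^ 2) w := by
    rw [P.ce_congr (g := fun u => bb (FP.unif A) (c (nd u)) v (τ - 1 - j) (a u) ^ 2)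
      (fun u hu => by rw [h.bb_static c v (τ - 1 - j) hu]) w]
    refine P.ce_congr_map ?_ ?_ _ w
    · intro x y hxy
      unfold XC at hxy
      simp only [Prod.mk.injEq] at hxy ⊢
      tauto
    · intro x y hxy
      unfold XC
      simp only [Prod.mk.injEq] at hxy ⊢
      tauto
  rw [h2, h1]
  rfl

theorem UI.D2_static {P : FP Om} {a : Om → A} {nd : Om → Nd} (h : UI P a nd) (c : Nd → A → ι) (X : A → V k)
    (e : ℕ) {w : Om} (hw : P.p w ≠ 0) :
    D2 P (fun u => (nd u, c (nd u) (a u))) (fun u => X (a u)) e w =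
      D2 (FP.unif A) (c (nd w)) X e (a w) := by
  unfold D2
  refine Finset.sum_congr rfl (fun s _ => ?_)
  exact h.GG_static c (fun x => gp k s (X x)) e hw

end static

section sums

variable {κ ι : Type*}

/-- classes of exponent `e`, cells of exponent `e + 7` -/
theorem sum_GG7 (P : FP Om) (N : Om → κ) (L : ℕ → Om → ι) (v : Om → ℕ) (K : ℕ)
    (hfair : ∀ σ < K + 7, ∀ w, P.p w ≠ 0 → P.ce (fun w => (N w, v w / 2 ^ (σ + 1))) (pb v σ) w = 0)
    (hL : ∀ e < K, Fac (fun w => (N w, L e w)) (L (e + 1))) :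
    ∑ e ∈ range (K + 1), P.E (GG P (fun w => (N w, L e w)) v (e + 7)) ≤
      64 * (P.Hc (L K) (fun w => (N w, v w / 2 ^ (K + 7))) +
        ∑ e ∈ range K, P.Hc (L e) (fun w => ((N w, L (e + 1) w), v w / 2 ^ (e + 7)))) := by
  have h := sum_GG_le P N (fun τ => L (τ - 7)) v (K + 7) hfair (by
    intro τ hτ
    rcases lt_or_ge τ 7 with h7 | h7
    · have e1 : τ - 7 = 0 := by omega
      have e2 : τ + 1 - 7 = 0 := by omega
      rw [e1, e2]
      exact Fac.snd _ _
    · have e2 : τ + 1 - 7 = (τ - 7) + 1 := by omega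
      rw [e2]
      exact hL (τ - 7) (by omega))
  have h1 : ∑ e ∈ range (K + 1), P.E (GG P (fun w => (N w, L e w)) v (e + 7)) ≤
      ∑ τ ∈ range (K + 7 + 1), P.E (GG P (fun w => (N w, L (τ - 7) w)) v τ) := by
    rw [show K + 7 + 1 = 7 + (K + 1) by ring,
      Finset.sum_range_add (fun τ => P.E (GG P (fun w => (N w, L (τ - 7) w)) v τ)) 7 (K + 1)]
    have h2 : 0 ≤ ∑ τ ∈ range 7, P.E (GG P (fun w => (N w, L (τ - 7) w)) v τ) :=
      Finset.sum_nonneg fun τ _ => P.E_nonneg fun w _ => GG_nonneg _ _ _ _ _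
    have h3 : ∑ x ∈ range (K + 1), P.E (GG P (fun w => (N w, L (7 + x - 7) w)) v (7 + x)) =
        ∑ e ∈ range (K + 1), P.E (GG P (fun w => (N w, L e w)) v (e + 7)) := by
      refine Finset.sum_congr rfl (fun x _ => ?_)
      rw [Nat.add_sub_cancel_left, Nat.add_comm 7 x]
    rw [h3]
    linarith
  refine (h1.trans h).trans (le_of_eq ?_)
  congr 1
  have h4 : rr P N (L (K + 7 - 7)) v (K + 7) = P.Hc (L K) (fun w => (N w, v w / 2 ^ (K + 7))) := by
    unfold rr
    rw [Nat.add_sub_cancel]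
  rw [h4]
  congr 1
  rw [show K + 7 = 7 + K by ring, Finset.sum_range_add
    (fun τ => P.Hc (L (τ - 7)) (fun w => ((N w, L (τ + 1 - 7) w), v w / 2 ^ τ))) 7 K]
  have h5 : ∑ τ ∈ range 7, P.Hc (L (τ - 7)) (fun w => ((N w, L (τ + 1 - 7) w), v w / 2 ^ τ)) = 0 := by
    refine Finset.sum_eq_zero (fun τ hτ => ?_)
    have hτ' := Finset.mem_range.mp hτ
    have e1 : τ - 7 = 0 := by omega
    have e2 : τ + 1 - 7 = 0 := by omega
    rw [e1, e2]
    refine le_antisymm ?_ (P.Hc_nonneg _ _)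
    have h6 : P.Hc (L 0) (fun w => ((N w, L 0 w), v w / 2 ^ τ)) ≤ P.Hc (L 0) (L 0) :=
      P.Hc_anti (L 0) (((Fac.fst _ _).trans (Fac.snd _ _)))
    have h7 : P.Hc (L 0) (L 0) = 0 := by
      unfold FP.Hc
      rw [P.H_congr (X := fun w => (L 0 w, L 0 w)) (Y := L 0) (Fac.fst _ _) ((Fac.refl _).prod (Fac.refl _)), sub_self]
    linarith
  rw [h5, zero_add]
  refine Finset.sum_congr rfl (fun x _ => ?_)
  rw [Nat.add_sub_cancel_left, show 7 + x + 1 - 7 = x + 1 by omega, Nat.add_comm 7 x]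

/-- both grids and the micro times `j < J` of every level -/
theorem sum_D2 (P : FP Om) (N : Om → κ) (J : ℕ) (L : ℕ → ℕ → Om → ι) (X : Om → V k) (K : ℕ)
    (hfair : ∀ s : Fin 2, ∀ σ < K + 7, ∀ w, P.p w ≠ 0 →
      P.ce (fun w => (N w, gp k s (X w) / 2 ^ (σ + 1))) (pb (fun w => gp k s (X w)) σ) w = 0)
    (hL : ∀ j < J, ∀ e < K, Fac (fun w => (N w, L j e w)) (L j (e + 1))) {B : ℝ}
    (hB : ∀ s : Fin 2, ∀ j < J, P.Hc (L j K) (fun w => (N w, gp k s (X w) / 2 ^ (K + 7))) +
        ∑ e ∈ range K, P.Hc (L j e) (fun w => ((N w, L j (e + 1) w), gp k s (X w) / 2 ^ (e + 7))) ≤ B) :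
    ∑ j ∈ range J, ∑ e ∈ range (K + 1), P.E (D2 P (fun w => (N w, L j e w)) X (e + 7)) ≤
      128 * J * B := by
  have h1 : ∀ j ∈ range J, ∑ e ∈ range (K + 1), P.E (D2 P (fun w => (N w, L j e w)) X (e + 7)) ≤ 128 * B := by
    intro j hj
    have hj' := Finset.mem_range.mp hj
    have h2 : ∀ s : Fin 2, ∑ e ∈ range (K + 1),
        P.E (GG P (fun w => (N w, L j e w)) (fun w => gp k s (X w)) (e + 7)) ≤ 64 * B := by
      intro s
      have h3 := sum_GG7 P N (L j) (fun w => gp k s (X w)) K (hfair s) (hL j hj')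
      have h4 := hB s j hj'
      linarith
    have h3 : ∑ e ∈ range (K + 1), P.E (D2 P (fun w => (N w, L j e w)) X (e + 7)) =
        ∑ s : Fin 2, ∑ e ∈ range (K + 1),
          P.E (GG P (fun w => (N w, L j e w)) (fun w => gp k s (X w)) (e + 7)) := by
      rw [Finset.sum_comm]
      refine Finset.sum_congr rfl (fun e _ => ?_)
      have : D2 P (fun w => (N w, L j e w)) X (e + 7) = fun w => ∑ s ∈ (univ : Finset (Fin 2)),
          (fun (s : Fin 2) w => GG P (fun w => (N w, L j e w)) (fun w => gp k s (X w)) (e + 7) w) s w := rfl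
      rw [this, P.E_sum]
    rw [h3, Fin.sum_univ_two]
    linarith [h2 0, h2 1]
  refine (Finset.sum_le_sum h1).trans (le_of_eq ?_)
  rw [Finset.sum_const, Finset.card_range, nsmul_eq_mul]
  ring

end sums

end

end Pool.Agent.GMC
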