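import Pool.Agent.GMC.DSum
import Pool.Agent.GMC.BiasM
import Pool.Agent.GMC.ClsDyn
import Pool.Agent.GMC.Mod3

/-!
# GMC/DSumM: the biases along the micro sequence and their sum (helper24)

* `fair_pos`: the bits of the position are fair for the uniform law;
* `UI_a`, `UI_b`, `D2_node`, `tm`, `sum_line` (abstract in the vertex `x`, either `va` or `vb`);
* `bv Y N h n i t a ν`: the bound of the square of the bias; `biasA_T`, `biasB_T`; `sum_bA`, `sum_bB`.
-/

set_option autoImplicit false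
set_option linter.unusedSectionVars false

namespace Pool.Agent.GMC

open Finset Pool.Agent.PWZ Pool.Agent.M3 Pool.Agent.M3.Bin Pool.Agent.M3.Mod

noncomputable section

variable {k N n : ℕ} {P : Type}

/-! ## fair bits of the position -/

/-- flip the bit `σ` -/
def flipN (σ m : ℕ) : ℕ := if m / 2 ^ σ % 2 = 0 then m + 2 ^ σ else m - 2 ^ σ

theorem flipN_div (σ m : ℕ) : flipN σ m / 2 ^ σ = (if m / 2 ^ σ % 2 = 0 then m / 2 ^ σ + 1 else m / 2 ^ σ - 1) ∧
    flipN σ m % 2 ^ σ = m % 2 ^ σ := by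
  have hp : 0 < 2 ^ σ := by positivity
  have hd := Nat.div_add_mod m (2 ^ σ)
  have hr := Nat.mod_lt m hp
  unfold flipN
  split_ifs with h
  · constructor
    · rw [Nat.add_div_right _ hp]
    · rw [Nat.add_mod_right]
  · have h1 : 1 ≤ m / 2 ^ σ := by
      generalize m / 2 ^ σ = x at h
      omega
    have h2 : m - 2 ^ σ = 2 ^ σ * (m / 2 ^ σ - 1) + m % 2 ^ σ := by
      have h3 : 2 ^ σ * (m / 2 ^ σ) = 2 ^ σ * (m / 2 ^ σ - 1) + 2 ^ σ := by
        conv_lhs => rw [show m / 2 ^ σ = (m / 2 ^ σ - 1) + 1 by omega]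
        ring
      omega
    constructor
    · rw [h2, Nat.mul_add_div hp, Nat.div_eq_of_lt hr, Nat.add_zero]
    · rw [h2, Nat.mul_add_mod, Nat.mod_eq_of_lt hr]

theorem flipN_div_succ (σ m : ℕ) : flipN σ m / 2 ^ (σ + 1) = m / 2 ^ (σ + 1) := by
  rw [pow_succ, ← Nat.div_div_eq_div_mul, ← Nat.div_div_eq_div_mul, (flipN_div σ m).1]
  generalize m / 2 ^ σ = x
  split_ifs with h <;> omega

theorem flipN_bit (σ m : ℕ) : flipN σ m / 2 ^ σ % 2 = 1 - m / 2 ^ σ % 2 := by
  rw [(flipN_div σ m).1]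
  generalize m / 2 ^ σ = x
  split_ifs with h <;> omega

theorem flipN_flipN (σ m : ℕ) : flipN σ (flipN σ m) = m := by
  have h1 := flipN_div σ m
  have h2 := flipN_div σ (flipN σ m)
  have h3 := flipN_bit σ m
  have hd := Nat.div_add_mod m (2 ^ σ)
  have hd' := Nat.div_add_mod (flipN σ (flipN σ m)) (2 ^ σ)
  rw [h2.2, h1.2] at hd'
  have h4 : flipN σ (flipN σ m) / 2 ^ σ = m / 2 ^ σ := by
    rw [h2.1, h3, h1.1]
    generalize m / 2 ^ σ = x
    split_ifs <;> omega
  rw [h4] at hd'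
  omega

theorem flipN_lt {σ m : ℕ} (hσ : σ + 1 ≤ k) (hm : m < 2 ^ k) : flipN σ m < 2 ^ k := by
  have h1 := flipN_div_succ σ m
  have hp : 0 < 2 ^ (σ + 1) := by positivity
  have h2 : 2 ^ k = 2 ^ (k - (σ + 1)) * 2 ^ (σ + 1) := by rw [← pow_add]; congr 1; omega
  rw [h2] at hm ⊢
  rw [← Nat.div_lt_iff_lt_mul hp] at hm ⊢
  rw [h1]
  exact hm

section law

variable [Fintype P] [Nonempty P]

theorem fair_pos (s : Fin 2) {σ : ℕ} (hσ : σ + 1 ≤ k) (a0 : P × V k) :
    (FP.unif (P × V k)).ce (fun a => gp k s a.2 / 2 ^ (σ + 1)) (pb (fun a => gp k s a.2) σ) a0 = 0 := by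
  unfold FP.ce
  rw [FP.unif_E]
  have h0 : ∑ a : P × V k, ind (gp k s a.2 / 2 ^ (σ + 1) = gp k s a0.2 / 2 ^ (σ + 1)) *
      pb (fun a : P × V k => gp k s a.2) σ a = 0 := by
    classical
    refine Finset.sum_involution (fun a _ => (a.1, pt k s (flipN σ (gp k s a.2)))) ?_ ?_ ?_ ?_
    · intro a _
      have h1 : gp k s (pt k s (flipN σ (gp k s a.2))) = flipN σ (gp k s a.2) :=
        gp_pt (flipN_lt hσ (gp_lt s a.2))
      have h2 : gp k s a.2 / 2 ^ σ % 2 < 2 := Nat.mod_lt _ (by norm_num)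
      have h4 := flipN_bit σ (gp k s a.2)
      simp only [pb, h1, flipN_div_succ]
      rcases (by omega : gp k s a.2 / 2 ^ σ % 2 = 0 ∨ gp k s a.2 / 2 ^ σ % 2 = 1) with h3 | h3
      · rw [h3] at h4
        simp only [h3, h4]
        norm_num
      · rw [h3] at h4
        simp only [h3, h4]
        norm_num
    · intro a _ _ h
      have h1 : gp k s (pt k s (flipN σ (gp k s a.2))) = flipN σ (gp k s a.2) :=
        gp_pt (flipN_lt hσ (gp_lt s a.2))
      have h2 := congrArg (fun b : P × V k => gp k s b.2) h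
      simp only at h2
      rw [h1] at h2
      have h3 := flipN_bit σ (gp k s a.2)
      rw [h2] at h3
      omega
    · intro a _
      exact Finset.mem_univ _
    · intro a _
      have h1 : gp k s (pt k s (flipN σ (gp k s a.2))) = flipN σ (gp k s a.2) :=
        gp_pt (flipN_lt hσ (gp_lt s a.2))
      simp only
      rw [h1, flipN_flipN, pt_gp]
  rw [h0, zero_div, zero_div]

/-! ## the two vertices -/

theorem UI_a (c : Cfg n) : UI (Pu k N n P) va (Nc c) := by
  refine ⟨indep_a_Nc c, fun f => ?_⟩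
  rw [unif_a (X := fun _ : S2 k N n P => ()) (Fac.const _ _) (fun _ v => f v), FP.unif_E, FP.E_const]
  rw [div_eq_inv_mul]

theorem UI_b (c : Cfg n) : UI (Pu k N n P) vb (Nc c) := by
  refine ⟨indep_b_Nc c, fun f => ?_⟩
  rw [unif_b (X := fun _ : S2 k N n P => ()) (Fac.const _ _) (fun _ v => f v), FP.unif_E, FP.E_const]
  rw [div_eq_inv_mul]

end law

/-- full path or current node -/
theorem D2_node {Om ι : Type*} [Fintype Om] (Q : FP Om) {κ ι₂ ι₃ : Type*} {x : Om → κ} {φ : Om → ι₂} {ψ : Om → ι₃}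
    (h : Q.Indep x ψ) (hφ : Fac ψ φ) {L : Om → ι} (hL : Fac (fun w => (x w, φ w)) L) {X : Om → V k}
    (hX : Fac x X) (e : ℕ) {w : Om} (hw : Q.p w ≠ 0) :
    D2 Q (fun w => (ψ w, L w)) X e w = D2 Q (fun w => (φ w, L w)) X e w := by
  unfold D2
  refine Finset.sum_congr rfl (fun s _ => ?_)
  exact GG_node Q h (Fac.refl ψ) hφ hL (hX.comp (fun v => gp k s v)) e hw

/-- the time of exponent `e` in the residue class `j` -/
def tm (N n j e : ℕ) : ℕ := (n + 1) * (N - e - (if j = 0 then 0 else 1)) + j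

theorem cf_tm (h : ℕ) {j e : ℕ} (hj : j ≤ n) (he : e + 1 ≤ N) : (cf N h n (tm N n j e)).1 = e := by
  unfold cf tm
  simp only
  rw [Nat.add_assoc, Nat.mul_add_div (Nat.succ_pos n)]
  by_cases h0 : j = 0
  · rw [if_pos h0, h0, Nat.zero_add, Nat.div_eq_of_lt (Nat.lt_succ_self n)]
    omega
  · rw [if_neg h0]
    have h1 : (j + n) / (n + 1) = 1 := Nat.div_eq_of_lt_le (by omega) (by omega)
    rw [h1]
    omega

theorem tm_succ {j e : ℕ} (he : e + 2 ≤ N) : tm N n j e = tm N n j (e + 1) + (n + 1) := by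
  unfold tm
  have h1 : N - e - (if j = 0 then 0 else 1) = (N - (e + 1) - (if j = 0 then 0 else 1)) + 1 := by
    split_ifs <;> omega
  rw [h1, Nat.mul_add]
  omega

theorem tm_le {j e : ℕ} (hj : j ≤ n) (he : e + 1 ≤ N) : tm N n j e ≤ (n + 1) * N := by
  unfold tm
  by_cases h0 : j = 0
  · rw [if_pos h0, h0, Nat.add_zero]
    exact Nat.mul_le_mul_left _ (by omega)
  · rw [if_neg h0]
    have h1 : (n + 1) * (N - e - 1) + (n + 1) ≤ (n + 1) * N := by
      rw [← Nat.mul_succ]
      exact Nat.mul_le_mul_left _ (by omega)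
    omega

/-- the exponents decrease -/
theorem cf_fst_anti (h : ℕ) {t t' : ℕ} (ht : t ≤ t') : (cf N h n t').1 ≤ (cf N h n t).1 := by
  unfold cf
  simp only
  have := Nat.div_le_div_right (c := n + 1) (show t + n ≤ t' + n by omega)
  omega

/-- every time is one of the `tm` -/
theorem tm_cover {h t : ℕ} (ht : t < (n + 1) * N) (he : (cf N h n t).1 < N) :
    tm N n (t % (n + 1)) (cf N h n t).1 = t := by
  have hpos : 0 < n + 1 := Nat.succ_pos n
  have hd := Nat.div_add_mod t (n + 1)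
  have hr := Nat.mod_lt t hpos
  have hq : t / (n + 1) < N := by
    rw [Nat.div_lt_iff_lt_mul hpos, mul_comm]
    exact ht
  set q := t / (n + 1)
  set r := t % (n + 1)
  have h1 : (t + n) / (n + 1) = q + (r + n) / (n + 1) := by
    rw [← hd, Nat.add_assoc, Nat.mul_add_div hpos]
  have he' : (cf N h n t).1 = N - (q + (r + n) / (n + 1)) := by
    unfold cf
    simp only
    rw [h1]
  rw [he'] at he ⊢
  unfold tm
  by_cases h0 : r = 0
  · rw [if_pos h0]
    have h2 : (r + n) / (n + 1) = 0 := Nat.div_eq_of_lt (by omega)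
    rw [h2]
    have h3 : N - (N - (q + 0)) - 0 = q := by omega
    rw [h3]
    omega
  · rw [if_neg h0]
    have h2 : (r + n) / (n + 1) = 1 := Nat.div_eq_of_lt_le (by omega) (by omega)
    rw [h2]
    have h3 : N - (N - (q + 1)) - 1 = q := by omega
    rw [h3]
    omega

section line

variable [Fintype P] [Nonempty P] [DecidableEq (P × V k)] {E : Type*} [NormedAddCommGroup E] [InnerProductSpace ℝ E]
variable {Y : CSys (P × V k) E (Nd k n)} {cst : ℕ → Nd k n → P × V k → ℝ} {Cp : ℝ} {h : ℕ}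
variable {x : S2 k N n P → P × V k}

/-- the classes refine -/
theorem ref_le (H : CSys.Hyp (Pu k N n P) Y ((n + 1) * N) x (fun t => Nc (cf N h n t)) cst Cp) (i : ℕ) {t t' : ℕ}
    (htt : t ≤ t') (ht' : t' ≤ (n + 1) * N) (w : S2 k N n P) (a : P × V k) :
    Y.st t' (Nc (cf N h n t') w) i a ⊆ Y.st t (Nc (cf N h n t) w) i a := by
  induction t', htt using Nat.le_induction with
  | base => exact subset_rfl
  | succ t' h1 ih =>
    have h2 := Y.sub_pre (t' + 1) (Nc (cf N h n (t' + 1)) w) i a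
    rw [H.pre_succ (show t' < (n + 1) * N by omega) w] at h2
    exact h2.trans (ih (by omega))

theorem filt_le (h : ℕ) {t t' : ℕ} (htt : t ≤ t') :
    Fac (Nc (k := k) (N := N) (P := P) (cf N h n t')) (Nc (cf N h n t)) := by
  induction t', htt using Nat.le_induction with
  | base => exact Fac.refl _
  | succ t' _ ih => exact Fac.trans (filt_cf (k := k) (n := n) (P := P) N h t') ih

theorem fac_cls (H : CSys.Hyp (Pu k N n P) Y ((n + 1) * N) x (fun t => Nc (cf N h n t)) cst Cp) (i : ℕ) {t t' : ℕ}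
    (htt : t ≤ t') (ht' : t' ≤ (n + 1) * N) :
    Fac (fun w => (Nc (cf N h n ((n + 1) * N)) w, Y.st t' (Nc (cf N h n t') w) i (x w)))
      (fun w => Y.st t (Nc (cf N h n t) w) i (x w)) := by
  intro v w hvw
  simp only [Prod.mk.injEq] at hvw
  obtain ⟨h1, h2⟩ := hvw
  have e1 : Nc (cf N h n t') v = Nc (cf N h n t') w := filt_le h ht' v w h1
  have e2 : Nc (cf N h n t) v = Nc (cf N h n t) w := filt_le h (htt.trans ht') v w h1
  simp only
  rw [e2]
  rw [e1] at h2
  have h3 : x w ∈ Y.st t' (Nc (cf N h n t') w) i (x v) := by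
    rw [h2]; exact (Y.good_st _ _).self i (x w)
  exact ((Y.good_st t _).cls i (x v) (x w) (ref_le H i htt ht' w (x v) h3)).symm

/-- SUM OVER THE TIMES of the mean discrepancies of one line -/
theorem sum_line (H : CSys.Hyp (Pu k N n P) Y ((n + 1) * N) x (fun t => Nc (cf N h n t)) cst Cp)
    (hUI : ∀ c : Cfg n, UI (Pu k N n P) x (Nc c)) {K : ℕ} (hK : K + 1 ≤ N) (hK7 : K + 7 ≤ k)
    (hx1 : ∀ j, Y.x j ≤ 1)
    (hnb : ∀ t ≤ (n + 1) * N, ∀ w : S2 k N n P, ∀ (i u v : P × V k) (s : Fin 2), u ∈ Y.al t (Nc (cf N h n t) w) i →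
      gp k s u.2 / 2 ^ ((cf N h n t).1 + 7) = gp k s v.2 / 2 ^ ((cf N h n t).1 + 7) →
      v ∈ Y.nb t (Nc (cf N h n t) w) i) (i : ℕ) :
    ∑ j ∈ range (n + 1), ∑ e ∈ range (K + 1), (Pu k N n P).E (fun w =>
      D2 (FP.unif (P × V k)) (fun a => Y.st (tm N n j e) (Nc (cf N h n (tm N n j e)) w) i a) Prod.snd (e + 7) (x w)) ≤
      128 * (n + 1) * ((1 + Real.log (1 / Y.x i)) * CSys.Nk Y Cp i) := by
  set T := (n + 1) * N with hT
  set Q := Pu k N n P with hQ
  set Nf : S2 k N n P → Nd k n := Nc (cf N h n T) with hNf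
  have hxi := H.hx i
  have hlog : 0 ≤ 1 + Real.log (1 / Y.x i) := by
    have h1 : 0 ≤ Real.log (1 / Y.x i) := Real.log_nonneg (by rw [le_div_iff₀ hxi]; linarith [hx1 i])
    linarith
  have hFN : ∀ t ≤ T, Fac Nf (Nc (k := k) (N := N) (P := P) (cf N h n t)) := fun t ht => filt_le h ht
  -- the cells
  have hCc : ∀ (s : Fin 2) (t e : ℕ), t ≤ T → e ≤ (cf N h n t).1 → ∀ w : S2 k N n P, ∀ i : P × V k,
      ∀ u ∈ Y.al t (Nc (cf N h n t) w) i, ∀ v : P × V k, gp k s u.2 / 2 ^ (e + 7) = gp k s v.2 / 2 ^ (e + 7) → v ∈ Y.nb t (Nc (cf N h n t) w) i := by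
    intro s t e ht he w i u hu v huv
    refine hnb t ht w i u v s hu ?_
    have h1 : 2 ^ ((cf N h n t).1 + 7) = 2 ^ (e + 7) * 2 ^ ((cf N h n t).1 - e) := by
      rw [← pow_add]; congr 1; omega
    rw [h1, ← Nat.div_div_eq_div_mul, ← Nat.div_div_eq_div_mul, huv]
  have hmain := sum_D2 Q Nf (n + 1) (fun j e w => Y.st (tm N n j e) (Nc (cf N h n (tm N n j e)) w) i (x w))
    (fun w => (x w).2) K
    (by
      intro s σ hσ w hw
      have h1 := (hUI (cf N h n T)).ce_static (fun _ a => gp k s a.2 / 2 ^ (σ + 1))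
        (fun _ a => pb (fun a : P × V k => gp k s a.2) σ a) hw
      rw [fair_pos s (by omega)] at h1
      exact h1)
    (by
      intro j hj e he
      have h1 : tm N n j (e + 1) ≤ tm N n j e := by rw [tm_succ (j := j) (e := e) (by omega)]; omega
      exact fac_cls H i h1 (tm_le (by omega) (by omega)))
    (B := (1 + Real.log (1 / Y.x i)) * CSys.Nk Y Cp i)
    (by
      intro s j hj
      have hjn : j ≤ n := by omega
      have hcf : ∀ e ≤ K, (cf N h n (tm N n j e)).1 = e := fun e he => cf_tm h hjn (by omega)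
      have hst := H.ent_start (N := Nf) (C := fun a : P × V k => gp k s a.2 / 2 ^ (K + 7)) (n := tm N n j K)
        (tm_le hjn hK) hFN
        (by
          intro t ht w i u hu v huv
          refine hCc s t K (ht.trans (tm_le hjn hK)) ?_ w i u hu v huv
          have := cf_fst_anti (N := N) (n := n) h ht
          rw [hcf K le_rfl] at this
          exact this) i
      have hbl : ∀ e < K, Q.Hc (fun w => Y.st (tm N n j e) (Nc (cf N h n (tm N n j e)) w) i (x w))
          (fun w => ((Nf w, Y.st (tm N n j (e + 1)) (Nc (cf N h n (tm N n j (e + 1))) w) i (x w)),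
            gp k s (x w).2 / 2 ^ (e + 7))) ≤
          (1 + Real.log (1 / Y.x i)) * ∑ l ∈ range (n + 1), Q.E (fun w => Y.nent i (tm N n j (e + 1) + l + 1)
            (Nc (cf N h n (tm N n j (e + 1) + l + 1)) w) (x w)) := by
        intro e he
        have h1 : tm N n j e = tm N n j (e + 1) + (n + 1) := tm_succ (by omega)
        have h2 := H.ent_block (N := Nf) (C := fun a : P × V k => gp k s a.2 / 2 ^ (e + 7)) (t1 := tm N n j (e + 1))
          (n := n + 1) (by rw [← h1]; exact tm_le hjn (by omega)) hFN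
          (by
            intro t _ ht w i u hu v huv
            rw [← h1] at ht
            refine hCc s t e (ht.trans (tm_le hjn (by omega))) ?_ w i u hu v huv
            have := cf_fst_anti (N := N) (n := n) h ht
            rw [hcf e he.le] at this
            exact this) i
        rw [h1]
        refine le_trans (le_of_eq ?_) h2
        refine Q.Hc_congr (Fac.fst _ _) ?_ (Fac.fst _ _) ?_
        · intro v w hvw
          simp only [Prod.mk.injEq] at hvw ⊢
          tauto
        · intro v w hvw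
          simp only [Prod.mk.injEq] at hvw ⊢
          tauto
      have hblS := Finset.sum_le_sum (fun e (he : e ∈ range K) => hbl e (Finset.mem_range.mp he))
      rw [← Finset.mul_sum] at hblS
      have htel : ∀ m ≤ K, ∑ t ∈ range (tm N n j K + 1), Q.E (fun w => Y.nent i t (Nc (cf N h n t) w) (x w)) +
          ∑ e ∈ Finset.Ico m K, ∑ l ∈ range (n + 1), Q.E (fun w => Y.nent i (tm N n j (e + 1) + l + 1)
            (Nc (cf N h n (tm N n j (e + 1) + l + 1)) w) (x w)) =
          ∑ t ∈ range (tm N n j m + 1), Q.E (fun w => Y.nent i t (Nc (cf N h n t) w) (x w)) := by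
        intro m hm
        induction hd : K - m generalizing m with
        | zero =>
          have : m = K := by omega
          rw [this, Finset.Ico_self, Finset.sum_empty, add_zero]
        | succ d ih =>
          have h1 := ih (m + 1) (by omega) (by omega)
          rw [Finset.sum_eq_sum_Ico_succ_bot (by omega : m < K)]
          have h2 : tm N n j m = tm N n j (m + 1) + (n + 1) := tm_succ (by omega)
          rw [h2, show tm N n j (m + 1) + (n + 1) + 1 = (tm N n j (m + 1) + 1) + (n + 1) by ring,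
            Finset.sum_range_add (fun t => Q.E (fun w => Y.nent i t (Nc (cf N h n t) w) (x w)))
              (tm N n j (m + 1) + 1) (n + 1), ← h1]
          have h3 : ∀ l, tm N n j (m + 1) + 1 + l = tm N n j (m + 1) + l + 1 := fun l => by ring
          simp only [h3]
          ring
      have ht0 := htel 0 (Nat.zero_le _)
      have hle : ∑ t ∈ range (tm N n j 0 + 1), Q.E (fun w => Y.nent i t (Nc (cf N h n t) w) (x w)) ≤
          CSys.Nk Y Cp i := by
        refine le_trans ?_ (H.nent_le i)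
        refine Finset.sum_le_sum_of_subset_of_nonneg (Finset.range_mono ?_)
          (fun t _ _ => Q.E_nonneg fun w _ => Y.nent_nonneg _ _ _ _)
        have := tm_le (N := N) (n := n) hjn (show 0 + 1 ≤ N by omega)
        omega
      have h5 : Q.Hc (fun w => Y.st (tm N n j K) (Nc (cf N h n (tm N n j K)) w) i (x w))
          (fun w => (Nf w, gp k s (x w).2 / 2 ^ (K + 7))) ≤
          (1 + Real.log (1 / Y.x i)) * ∑ t ∈ range (tm N n j K + 1),
            Q.E (fun w => Y.nent i t (Nc (cf N h n t) w) (x w)) := hst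
      have h6 := mul_le_mul_of_nonneg_left hle hlog
      rw [← ht0, mul_add, ← Finset.range_eq_Ico] at h6
      linarith)
  have hcast : (128 : ℝ) * ((n + 1 : ℕ) : ℝ) * ((1 + Real.log (1 / Y.x i)) * CSys.Nk Y Cp i) =
      128 * (n + 1) * ((1 + Real.log (1 / Y.x i)) * CSys.Nk Y Cp i) := by push_cast; ring
  rw [hcast] at hmain
  refine le_trans (le_of_eq ?_) hmain
  refine Finset.sum_congr rfl fun j hj => Finset.sum_congr rfl fun e he => Q.E_congr fun w hw => ?_
  have hj' := Finset.mem_range.mp hj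
  have he' := Finset.mem_range.mp he
  have h1 := (hUI (cf N h n (tm N n j e))).D2_static (fun ν a => Y.st (tm N n j e) ν i a) (Prod.snd : P × V k → V k)
    (e + 7) hw
  rw [← h1]
  symm
  refine D2_node Q (hUI (cf N h n T)).indep (hFN _ (tm_le (by omega) (by omega))) ?_ ?_ (e + 7) hw
  · intro v w hvw
    simp only [Prod.mk.injEq] at hvw
    simp only
    rw [hvw.1, hvw.2]
  · intro v w hvw
    simp only
    rw [hvw]

/-- THE BOUND of the square of the bias at the time `t` -/
def bvv (N h n : ℕ) (Y : CSys (P × V k) E (Nd k n)) (i t : ℕ) (ν : Nd k n) (a : P × V k) : ℝ :=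
  if (cf N h n t).1 + 7 ≤ k ∧ (cf N h n t).1 < N then
    2 ^ 20 * D2 (FP.unif (P × V k)) (fun a => Y.st t ν i a) Prod.snd ((cf N h n t).1 + 7) a
  else 1

theorem bvv_nonneg (N h n : ℕ) (Y : CSys (P × V k) E (Nd k n)) (i t : ℕ) (ν : Nd k n) (a : P × V k) :
    0 ≤ bvv N h n Y i t ν a := by
  unfold bvv
  split_ifs
  · exact mul_nonneg (by norm_num) (D2_nonneg _ _ _ _ _)
  · norm_num

/-- SUM OVER THE TIMES of the bounds of the biases -/
theorem sum_bvv (H : CSys.Hyp (Pu k N n P) Y ((n + 1) * N) x (fun t => Nc (cf N h n t)) cst Cp)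
    (hUI : ∀ c : Cfg n, UI (Pu k N n P) x (Nc c)) (hN : N ≤ k) (hCp : 0 ≤ Cp)
    (hx1 : ∀ j, Y.x j ≤ 1)
    (hnb : ∀ t ≤ (n + 1) * N, ∀ w : S2 k N n P, ∀ (i u v : P × V k) (s : Fin 2), u ∈ Y.al t (Nc (cf N h n t) w) i →
      gp k s u.2 / 2 ^ ((cf N h n t).1 + 7) = gp k s v.2 / 2 ^ ((cf N h n t).1 + 7) →
      v ∈ Y.nb t (Nc (cf N h n t) w) i) (i : ℕ) :
    ∑ t ∈ range ((n + 1) * N), (Pu k N n P).E (fun w => bvv N h n Y i t (Nc (cf N h n t) w) (x w)) ≤
      2 ^ 27 * (n + 1) * ((1 + Real.log (1 / Y.x i)) * CSys.Nk Y Cp i) + (7 * (n + 1) + 1) := by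
  classical
  have hxi := H.hx i
  have hlog : 0 ≤ 1 + Real.log (1 / Y.x i) := by
    have h1 : 0 ≤ Real.log (1 / Y.x i) := Real.log_nonneg (by rw [le_div_iff₀ hxi]; linarith [hx1 i])
    linarith
  have hNk : 0 ≤ CSys.Nk Y Cp i := by
    unfold CSys.Nk
    exact Finset.sum_nonneg fun j _ => by positivity
  have hB0 : 0 ≤ (1 + Real.log (1 / Y.x i)) * CSys.Nk Y Cp i := mul_nonneg hlog hNk
  set T := (n + 1) * N with hT
  set Q := Pu k N n P with hQ
  set G : Finset ℕ := (range T).filter fun t => (cf N h n t).1 + 7 ≤ k ∧ (cf N h n t).1 < N with hG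
  set G' : Finset ℕ := (range T).filter fun t => ¬ ((cf N h n t).1 + 7 ≤ k ∧ (cf N h n t).1 < N) with hG'
  rw [← Finset.sum_filter_add_sum_filter_not (range T) (fun t => (cf N h n t).1 + 7 ≤ k ∧ (cf N h n t).1 < N)]
  -- bad times
  have hbad : ∑ t ∈ G', Q.E (fun w => bvv N h n Y i t (Nc (cf N h n t) w) (x w)) ≤ 7 * (n + 1) + 1 := by
    have h1 : ∀ t ∈ G', Q.E (fun w => bvv N h n Y i t (Nc (cf N h n t) w) (x w)) = 1 := by
      intro t ht
      have h2 := (Finset.mem_filter.mp ht).2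
      unfold bvv
      simp only [if_neg h2]
      exact Q.E_const 1
    rw [Finset.sum_congr rfl h1, Finset.sum_const, nsmul_eq_mul, mul_one]
    have h2 : G' ⊆ range (7 * (n + 1) + 1) := by
      intro t ht
      rw [hG', Finset.mem_filter, Finset.mem_range] at ht
      rw [Finset.mem_range]
      obtain ⟨ht1, ht2⟩ := ht
      by_contra hc
      have h3 : 7 ≤ (t + n) / (n + 1) := by
        rw [Nat.le_div_iff_mul_le (Nat.succ_pos n)]
        omega
      apply ht2
      have hN1 : 1 ≤ N := by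
        rcases Nat.eq_zero_or_pos N with h4 | h4
        · rw [hT, h4, Nat.mul_zero] at ht1; omega
        · exact h4
      have h5 : (t + n) / (n + 1) ≤ N := by
        have h6 : t + n < (n + 1) * (N + 1) := by rw [Nat.mul_add, Nat.mul_one]; omega
        have h7 : (t + n) / (n + 1) < N + 1 :=
          (Nat.div_lt_iff_lt_mul (Nat.succ_pos n)).mpr (by rw [mul_comm]; exact h6)
        omega
      have h8 : (cf N h n t).1 = N - (t + n) / (n + 1) := rfl
      rw [h8]
      constructor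
      · omega
      · omega
    have h3 := Finset.card_le_card h2
    rw [Finset.card_range] at h3
    exact_mod_cast h3
  -- good times
  have hgood : ∑ t ∈ G, Q.E (fun w => bvv N h n Y i t (Nc (cf N h n t) w) (x w)) ≤
      2 ^ 27 * (n + 1) * ((1 + Real.log (1 / Y.x i)) * CSys.Nk Y Cp i) := by
    rcases G.eq_empty_or_nonempty with hGe | ⟨t0, ht0⟩
    · rw [hGe, Finset.sum_empty]
      have : (0 : ℝ) ≤ n := Nat.cast_nonneg _
      positivity
    have ht0' := Finset.mem_filter.mp ht0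
    have hk7 : 7 ≤ k := by omega
    have hN1 : 1 ≤ N := by omega
    set K := min (N - 1) (k - 7) with hK
    have hK1 : K + 1 ≤ N := by omega
    have hK7 : K + 7 ≤ k := by omega
    have hsl := sum_line H hUI hK1 hK7 hx1 hnb i
    set F : ℕ → ℕ → ℝ := fun j e => Q.E (fun w =>
      D2 (FP.unif (P × V k)) (fun a => Y.st (tm N n j e) (Nc (cf N h n (tm N n j e)) w) i a) Prod.snd (e + 7) (x w)) with hF
    have hF0 : ∀ j e, 0 ≤ F j e := fun j e => Q.E_nonneg fun w _ => D2_nonneg _ _ _ _ _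
    have h1 : ∀ t ∈ G, Q.E (fun w => bvv N h n Y i t (Nc (cf N h n t) w) (x w)) =
        2 ^ 20 * F (t % (n + 1)) (cf N h n t).1 := by
      intro t ht
      have h2 := Finset.mem_filter.mp ht
      have h3 := tm_cover (Finset.mem_range.mp h2.1) h2.2.2
      rw [hF]
      simp only
      rw [h3, ← Q.E_smul]
      unfold bvv
      simp only [if_pos h2.2]
    rw [Finset.sum_congr rfl h1, ← Finset.mul_sum]
    have h2 : ∑ t ∈ G, F (t % (n + 1)) (cf N h n t).1 ≤ ∑ j ∈ range (n + 1), ∑ e ∈ range (K + 1), F j e := by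
      rw [← Finset.sum_product']
      have hinj : Set.InjOn (fun t => (t % (n + 1), (cf N h n t).1)) (G : Set ℕ) := by
        intro t ht t' ht' htt
        have g1 := Finset.mem_filter.mp (Finset.mem_coe.mp ht)
        have g2 := Finset.mem_filter.mp (Finset.mem_coe.mp ht')
        simp only [Prod.mk.injEq] at htt
        have g3 := tm_cover (Finset.mem_range.mp g1.1) g1.2.2
        have g4 := tm_cover (Finset.mem_range.mp g2.1) g2.2.2
        rw [← g3, ← g4, htt.1, htt.2]
      have h3 : ∑ t ∈ G, F (t % (n + 1)) (cf N h n t).1 =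
          ∑ p ∈ G.image (fun t => (t % (n + 1), (cf N h n t).1)), F p.1 p.2 := by
        rw [Finset.sum_image hinj]
      rw [h3]
      refine Finset.sum_le_sum_of_subset_of_nonneg ?_ (fun p _ _ => hF0 _ _)
      intro p hp
      obtain ⟨t, ht, rfl⟩ := Finset.mem_image.mp hp
      have g1 := Finset.mem_filter.mp ht
      rw [Finset.mem_product, Finset.mem_range, Finset.mem_range]
      refine ⟨Nat.mod_lt _ (Nat.succ_pos n), ?_⟩
      show (cf N h n t).1 < K + 1
      omega
    have h3 := h2.trans hsl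
    have h4 : (2 : ℝ) ^ 27 * (n + 1) * ((1 + Real.log (1 / Y.x i)) * CSys.Nk Y Cp i) =
        2 ^ 20 * (128 * (n + 1) * ((1 + Real.log (1 / Y.x i)) * CSys.Nk Y Cp i)) := by norm_num; ring
    rw [h4]
    exact mul_le_mul_of_nonneg_left h3 (by norm_num)
  exact add_le_add hgood hbad

end line

section bias

variable [Fintype P] [Nonempty P] {h : ℕ}

theorem stepOk_cf {t : ℕ} (hN : N ≤ k) (hh : 2 * n ≤ 2 ^ h) (ht : t < (n + 1) * N)
    (h0 : cf N h n (t + 1) ≠ cf N h n t) (h7 : (cf N h n t).1 + 7 ≤ k) :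
    StepOk k N (stp n t) (cf N h n (t + 1)) := by
  obtain ⟨h1, h2⟩ := cf_step' (k := k) hN ht h0
  refine ⟨h2, ?_, hN, ?_, ?_, ?_⟩
  · rw [h1]; exact cf_fst_le _ _ _
  · intro i; rw [h1]; exact (cf_snd_le _ _ _ _).trans hN
  · rw [h1]; exact h7
  · rw [h1]
    have := Rs_cf (n := n) (N := N) hh t
    unfold Rs at this
    omega

theorem sgT_eq {t : ℕ} (hN : N ≤ k) (ht : t < (n + 1) * N) (h0 : cf N h n (t + 1) ≠ cf N h n t) :
    (sgT N h n t : S2 k N n P → ℝ) = sb (stp n t) (cf N h n (t + 1)) := by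
  funext ω
  obtain ⟨h1, h2⟩ := cf_step' (k := k) hN ht h0
  unfold sgT sb
  rw [if_neg h0]
  exact sg_Nc h2 (by rw [h1]; exact cf_fst_le _ _ _) ω

theorem ce_sgT_sq_le_one {κ : Type*} (X : S2 k N n P → κ) (t : ℕ) (ω0 : S2 k N n P) :
    (Pu k N n P).ce X (sgT N h n t) ω0 ^ 2 ≤ 1 := by
  have h1 : (Pu k N n P).ce X (sgT N h n t) ω0 ≤ 1 :=
    (Pu k N n P).ce_le_const (fun w _ => by rcases sgT_val h t w with h2 | h2 | h2 <;> rw [h2] <;> norm_num) (Pu_ne ω0)
  have h2 : -1 ≤ (Pu k N n P).ce X (sgT N h n t) ω0 := by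
    have h3 : (Pu k N n P).ce X (fun w => - sgT N h n t w) ω0 ≤ 1 :=
      (Pu k N n P).ce_le_const (fun w _ => by
        rcases sgT_val h t w with h2 | h2 | h2 <;> rw [h2] <;> norm_num) (Pu_ne ω0)
    rw [(Pu k N n P).ce_neg] at h3
    linarith
  nlinarith

variable [DecidableEq (P × V k)] {E : Type*} [NormedAddCommGroup E] [InnerProductSpace ℝ E]

/-- BIAS of the step `t -> t+1` given (node, class of `a` of depth `i`, `b` exactly) -/
theorem biasA_T (Y : CSys (P × V k) E (Nd k n)) (hN : N ≤ k) (hh : 2 * n ≤ 2 ^ h) (i : ℕ) {t : ℕ}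
    (ht : t < (n + 1) * N) (ω0 : S2 k N n P) :
    (Pu k N n P).ce (fun ω => (Nc (cf N h n t) ω, (Y.st t (Nc (cf N h n t) ω) i (va ω), vb ω))) (sgT N h n t) ω0 ^ 2 ≤
      bvv N h n Y i t (Nc (cf N h n t) ω0) (va ω0) := by
  by_cases h0 : cf N h n (t + 1) = cf N h n t
  · have h1 : (sgT N h n t : S2 k N n P → ℝ) = fun _ => 0 := by
      funext ω; unfold sgT; rw [if_pos h0]
    rw [h1, (Pu k N n P).ce_const _ 0 (Pu_ne ω0)]
    norm_num
    exact bvv_nonneg _ _ _ _ _ _ _ _
  unfold bvv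
  split_ifs with h7
  · have hso := stepOk_cf (n := n) (k := k) hN hh ht h0 h7.1
    have h1 := bias_A hso (fun ν a => Y.st t ν i a) ω0
    rw [(cf_step' (k := k) hN ht h0).1] at h1
    rw [sgT_eq hN ht h0]
    exact h1
  · exact ce_sgT_sq_le_one _ _ _

/-- BIAS of the step `t -> t+1` given (node, `a` exactly, class of `b` of depth `i`) -/
theorem biasB_T (Y : CSys (P × V k) E (Nd k n)) (hN : N ≤ k) (hh : 2 * n ≤ 2 ^ h) (i : ℕ) {t : ℕ}
    (ht : t < (n + 1) * N) (ω0 : S2 k N n P) :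
    (Pu k N n P).ce (fun ω => (Nc (cf N h n t) ω, (va ω, Y.st t (Nc (cf N h n t) ω) i (vb ω)))) (sgT N h n t) ω0 ^ 2 ≤
      bvv N h n Y i t (Nc (cf N h n t) ω0) (vb ω0) := by
  by_cases h0 : cf N h n (t + 1) = cf N h n t
  · have h1 : (sgT N h n t : S2 k N n P → ℝ) = fun _ => 0 := by
      funext ω; unfold sgT; rw [if_pos h0]
    rw [h1, (Pu k N n P).ce_const _ 0 (Pu_ne ω0)]
    norm_num
    exact bvv_nonneg _ _ _ _ _ _ _ _
  unfold bvv
  split_ifs with h7
  · have hso := stepOk_cf (n := n) (k := k) hN hh ht h0 h7.1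
    have h1 := bias_B hso (fun ν a => Y.st t ν i a) ω0
    rw [(cf_step' (k := k) hN ht h0).1] at h1
    rw [sgT_eq hN ht h0]
    exact h1
  · exact ce_sgT_sq_le_one _ _ _

end bias

end

end Pool.Agent.GMC
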