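import Pool.Agent.GMC.Wgt
import Pool.Agent.GMC.ClsDyn

/-!
# GMC/Ener: the ENERGY HYPOTHESIS of the class process in the model (helper28)

`F t ν a om z` = the function of the face through `a` used at the micro time `t` at the node `ν` (version included).

* `vecM q F h t ν a` : the vector of the point `a` (GM99 `vec` with the weights of the node);
* `cstM F h τ ν v` : cost of the versions, `2^(n+1)` times the mass of the completions whose function has changed;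
* `energy_model` : field `en` of `CSys.Hyp`; `sum_cst_a`, `sum_cst_b` : field `hc`.
-/

set_option autoImplicit false
set_option linter.unusedSectionVars false

namespace Pool.Agent.GMC

open Finset Pool.Agent.PWZ Pool.Agent.M3 Pool.Agent.M3.Bin Pool.Agent.M3.Mod Pool.Agent.GM99

noncomputable section

variable {k N n : ℕ} {P : Type} [Fintype P] [Nonempty P]

/-- functions of a face at all micro times and nodes -/
abbrev FacT (k n : ℕ) (P : Type) : Type := ℕ → Nd k n → P × V k → (Fin n → P × V k) → V k → ℝ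

/-- the vector of a point at a node -/
def vecM (N : ℕ) (q : ℕ) (F : FacT k n P) (h : ℕ) (t : ℕ) (ν : Nd k n) (a : P × V k) :
    EuclideanSpace ℝ (Oh (P × V k) (V k) n q) :=
  vec (wU (cf N h n t) ν) (uW (cf N h n t) ν) q (F t ν a)

/-- cost of the versions at the time `τ ≥ 1` -/
def cstM (N : ℕ) (F : FacT k n P) (h : ℕ) (τ : ℕ) (ν : Nd k n) (v : P × V k) : ℝ :=
  2 * (2 ^ n * pm (wU (cf N h n τ) ν) fun x => ind (F (τ - 1) (parT N h n (τ - 1) ν) v x ≠ F τ ν v x))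

theorem cstM_nonneg (F : FacT k n P) (h τ : ℕ) (ν : Nd k n) (v : P × V k) : 0 ≤ cstM N F h τ ν v := by
  unfold cstM
  have := pm_nonneg (wU (cf N h n τ) ν) (fun i x => wU_nonneg _ _ i x)
    (f := fun x => ind (F (τ - 1) (parT N h n (τ - 1) ν) v x ≠ F τ ν v x)) (fun x => ind_nonneg _)
  positivity

theorem norm_mn_vecM (q : ℕ) (F : FacT k n P) (h t : ℕ) (ν : Nd k n) (C : Finset (P × V k)) :
    ‖mn (vecM N q F h t ν) C‖ ^ 2 = kA (wU (cf N h n t) ν) (uW (cf N h n t) ν) q (F t ν) (F t ν) C C := by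
  have h1 : mn (vecM N q F h t ν) C = mS (fun a => vec (wU (cf N h n t) ν) (uW (cf N h n t) ν) q (F t ν a)) C := rfl
  rw [← real_inner_self_eq_norm_sq, h1, inner_mS_vec _ (fun i x => wU_nonneg _ _ i x) _ (fun z => uW_nonneg _ _ z)]
  unfold kA avs
  rw [mul_assoc, Finset.mul_sum]

/-- THE ENERGY HYPOTHESIS: static classes, one micro step -/
theorem energy_model {h t : ℕ} (hN : N ≤ k) (ht : t < (n + 1) * N) {q : ℕ} (hq : 1 ≤ q) (F : FacT k n P)
    (hF : ∀ t ν a x z, |F t ν a x z| ≤ 1) (C : Finset (P × V k)) (ω : S2 k N n P) :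
    ‖mn (vecM N q F h t (Nc (cf N h n t) ω)) C‖ ^ 2 ≤
      (Pu k N n P).ce (Nc (cf N h n t)) (fun ω' => ‖mn (vecM N q F h (t + 1) (Nc (cf N h n (t + 1)) ω')) C‖ ^ 2 +
        (C.card : ℝ)⁻¹ * ∑ v ∈ C, cstM N F h (t + 1) (Nc (cf N h n (t + 1)) ω') v) ω := by
  rw [fair_nd hN ht (fun ν => ‖mn (vecM N q F h (t + 1) ν) C‖ ^ 2 +
        (C.card : ℝ)⁻¹ * ∑ v ∈ C, cstM N F h (t + 1) ν v)]
  have hk : N ≤ k := hN
  have hb : ∀ b < 2, kA (wU (cf N h n (t + 1)) (chT N h n t b (Nc (cf N h n t) ω)))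
      (uW (cf N h n (t + 1)) (chT N h n t b (Nc (cf N h n t) ω))) q
      (F t (Nc (cf N h n t) ω)) (F t (Nc (cf N h n t) ω)) C C ≤
      ‖mn (vecM N q F h (t + 1) (chT N h n t b (Nc (cf N h n t) ω))) C‖ ^ 2 +
        (C.card : ℝ)⁻¹ * ∑ v ∈ C, cstM N F h (t + 1) (chT N h n t b (Nc (cf N h n t) ω)) v := by
    intro b hb
    set ν' := chT N h n t b (Nc (cf N h n t) ω) with hν'
    have hpar : parT N h n t ν' = Nc (cf N h n t) ω := parT_chT hb hN ht ω
    have h1 := kA_ver (wU (cf N h n (t + 1)) ν') (fun i x => wU_nonneg _ _ i x)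
      (fun i => wU_sum (fun i => (cf_snd_le _ _ _ _).trans hk) ν' i)
      (uW (cf N h n (t + 1)) ν') (fun z => uW_nonneg _ _ z) (uW_sum ((cf_fst_le _ _ _).trans hk) ν') q
      (F t (Nc (cf N h n t) ω)) (F (t + 1) ν') (F t (Nc (cf N h n t) ω)) (F (t + 1) ν')
      (fun a x z => hF _ _ a x z) (fun a x z => hF _ _ a x z) (fun a x z => hF _ _ a x z)
      (fun a x z => hF _ _ a x z) C C
    have h2 := (abs_le.1 h1).2
    rw [norm_mn_vecM]
    have h3 : (C.card : ℝ)⁻¹ * ∑ v ∈ C, cstM N F h (t + 1) ν' v =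
        vloss (wU (cf N h n (t + 1)) ν') (F t (Nc (cf N h n t) ω)) (F (t + 1) ν') C +
        vloss (wU (cf N h n (t + 1)) ν') (F t (Nc (cf N h n t) ω)) (F (t + 1) ν') C := by
      unfold cstM vloss avs
      rw [← Finset.mul_sum, Nat.add_sub_cancel, hpar]
      ring
    rw [h3]
    linarith
  have h0 := hb 0 (by norm_num)
  have h1 := hb 1 (by norm_num)
  have h2 := kA_stepT (h := h) hN ht ω (be := 0) (by norm_num) hq (F t (Nc (cf N h n t) ω))
    (F t (Nc (cf N h n t) ω)) (fun a x z => hF _ _ a x z) (fun a x z => hF _ _ a x z) C C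
  rw [norm_mn_vecM]
  have h3 : (q : ℝ) * (0 : ℝ) ^ 2 = 0 := by ring
  rw [h3] at h2
  linarith

/-- COST OF THE VERSIONS, vertex `a` -/
theorem sum_cst_a {h T : ℕ} (hN : N ≤ k) (hT : T ≤ (n + 1) * N) (F : FacT k n P) {p : ℝ}
    (hp : ∑ t ∈ range T, (Pu k N n P).Pr (fun ω =>
      F t (Nc (cf N h n t) ω) (va ω) (vo ω) ≠ F (t + 1) (Nc (cf N h n (t + 1)) ω) (va ω) (vo ω)) ≤ p) :
    ∑ t ∈ range T, (Pu k N n P).E (fun ω => cstM N F h (t + 1) (Nc (cf N h n (t + 1)) ω) (va ω)) ≤ 2 ^ (n + 1) * p := by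
  have h1 : ∀ t ∈ range T, (Pu k N n P).E (fun ω => cstM N F h (t + 1) (Nc (cf N h n (t + 1)) ω) (va ω)) =
      2 ^ (n + 1) * (Pu k N n P).Pr (fun ω =>
        F t (Nc (cf N h n t) ω) (va ω) (vo ω) ≠ F (t + 1) (Nc (cf N h n (t + 1)) ω) (va ω) (vo ω)) := by
    intro t ht
    have ht' : t < (n + 1) * N := lt_of_lt_of_le (Finset.mem_range.1 ht) hT
    have h2 := E_ao (P := P) (k := k) (N := N) (c := cf N h n (t + 1)) (fun i => (cf_snd_le _ _ _ _).trans hN)
      (fun ν a x => ind (F t (parT N h n t ν) a x ≠ F (t + 1) ν a x))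
    unfold cstM
    rw [Nat.add_sub_cancel]
    rw [FP.E_smul, FP.E_smul, h2, pow_succ]
    unfold FP.Pr
    have h3 : (fun ω : S2 k N n P => ind (F t (parT N h n t (Nc (cf N h n (t + 1)) ω)) (va ω) (vo ω) ≠
        F (t + 1) (Nc (cf N h n (t + 1)) ω) (va ω) (vo ω))) = fun ω => ind (F t (Nc (cf N h n t) ω) (va ω) (vo ω) ≠
        F (t + 1) (Nc (cf N h n (t + 1)) ω) (va ω) (vo ω)) := by
      funext ω
      rw [parT_Nc hN ht']
    rw [h3]
    ring
  rw [Finset.sum_congr rfl h1, ← Finset.mul_sum]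
  exact mul_le_mul_of_nonneg_left hp (by positivity)

/-- COST OF THE VERSIONS, vertex `b` -/
theorem sum_cst_b {h T : ℕ} (hN : N ≤ k) (hT : T ≤ (n + 1) * N) (F : FacT k n P) {p : ℝ}
    (hp : ∑ t ∈ range T, (Pu k N n P).Pr (fun ω =>
      F t (Nc (cf N h n t) ω) (vb ω) (vo ω) ≠ F (t + 1) (Nc (cf N h n (t + 1)) ω) (vb ω) (vo ω)) ≤ p) :
    ∑ t ∈ range T, (Pu k N n P).E (fun ω => cstM N F h (t + 1) (Nc (cf N h n (t + 1)) ω) (vb ω)) ≤ 2 ^ (n + 1) * p := by
  have h1 : ∀ t ∈ range T, (Pu k N n P).E (fun ω => cstM N F h (t + 1) (Nc (cf N h n (t + 1)) ω) (vb ω)) =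
      2 ^ (n + 1) * (Pu k N n P).Pr (fun ω =>
        F t (Nc (cf N h n t) ω) (vb ω) (vo ω) ≠ F (t + 1) (Nc (cf N h n (t + 1)) ω) (vb ω) (vo ω)) := by
    intro t ht
    have ht' : t < (n + 1) * N := lt_of_lt_of_le (Finset.mem_range.1 ht) hT
    have h2 := E_bo (P := P) (k := k) (N := N) (c := cf N h n (t + 1)) (fun i => (cf_snd_le _ _ _ _).trans hN)
      (fun ν a x => ind (F t (parT N h n t ν) a x ≠ F (t + 1) ν a x))
    unfold cstM
    rw [Nat.add_sub_cancel]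
    rw [FP.E_smul, FP.E_smul, h2, pow_succ]
    unfold FP.Pr
    have h3 : (fun ω : S2 k N n P => ind (F t (parT N h n t (Nc (cf N h n (t + 1)) ω)) (vb ω) (vo ω) ≠
        F (t + 1) (Nc (cf N h n (t + 1)) ω) (vb ω) (vo ω))) = fun ω => ind (F t (Nc (cf N h n t) ω) (vb ω) (vo ω) ≠
        F (t + 1) (Nc (cf N h n (t + 1)) ω) (vb ω) (vo ω)) := by
      funext ω
      rw [parT_Nc hN ht']
    rw [h3]
    ring
  rw [Finset.sum_congr rfl h1, ← Finset.mul_sum]
  exact mul_le_mul_of_nonneg_left hp (by positivity)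

end

end Pool.Agent.GMC
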