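import Pool.Agent.GMC.BiasI

/-!
# GMC/ID: the fields `bAF`, `biasA`, `sbA` of `Sys.HypA` for `Ins.sys` (helper24)
-/

set_option autoImplicit false
set_option linter.unusedSectionVars false

namespace Pool.Agent.GMC.Ins

open Finset Pool.Agent.PWZ Pool.Agent.M3 Pool.Agent.M3.Bin Pool.Agent.M3.Mod

noncomputable section

variable {k N n : ℕ} {P Ξ : Type} [Fintype P] [Fintype Ξ] [DecidableEq P] [Nonempty P]

theorem sys_bAF (I : Ins k N n P Ξ) (i t : ℕ) : Fac (I.sys.GA t) (I.sys.bA i t) := by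
  intro v w hvw
  simp only [Sys.GA, sys, clx, Prod.mk.injEq, if_true, Finset.singleton_inj] at hvw
  show I.bb2 I.FA i t (I.nu t v) (va v) = I.bb2 I.FA i t (I.nu t w) (va w)
  rw [hvw.1, hvw.2]

theorem sys_biasA (I : Ins k N n P Ξ) {p eps0 : ℝ} (h : InsH I p eps0) (i : ℕ) {t : ℕ} (ht : t < I.T) (w : S2 k N n P) :
    (Pu k N n P).ce (I.sys.Ix i ⊤ t) (I.sys.D (t + 1)) w ^ 2 ≤ I.sys.bA i t w := I.biasA h i ht w

theorem sys_sbA (I : Ins k N n P Ξ) {p eps0 : ℝ} (h : InsH I p eps0) {cst : ℕ → Nd k n → P × V k → ℝ}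
    (H : CSys.Hyp (Pu k N n P) (I.Y I.FA) I.T va I.nu cst (2 ^ (n + 1) * p)) (i : ℕ) :
    ∑ t ∈ range I.T, (Pu k N n P).E (I.sys.bA i t) ≤ I.bud p i := I.sbA h H i

end

end Pool.Agent.GMC.Ins
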