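import Pool.Agent.M3.FPInfo

/-!
# GMC/LemD: Lemma D of C2.2, part 2 (the telescope), abstract form (helper41)

`P` = uniform law of the hidden vertex (or any finite probability), ONE node path.  Classes `cls s` (micro time `s`,
refining with `s`), cells `cell E` (`cell E` finer than `cell (E+1)`), `cell 0` = the exact point: everything is a function
of it.  `lg E` = log of the size of a cell.

`RR s E = lg E - Hc (cell 0 | cls s, cell E)` = mean KL of the law of the point in `class ∩ cell` against the uniform law of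
the cell; `KLj j s = RR s (E s) - RR s (E s - j)` = mean KL of the next `j` bits; `ent s = Hc (cls (s+1) | cls s, cell (E (s+1)))`.

* `KLj_sum`   : `∑_(s<S) KLj j s ≤ 2 j L B`;
* `KLj_total` : `∑_(s<S) ∑_(1≤j≤J) θ^j KLj j s ≤ 2 L B θ/(1-θ)^2`.
-/

set_option autoImplicit false
set_option linter.unusedSectionVars false

namespace Pool.Agent.GMC

open Finset Pool.Agent.PWZ Pool.Agent.M3

noncomputable section

variable {Om : Type*} [Fintype Om] {κ ι : Type*}

/-- mean KL of the law of the point in class and cell against the uniform law of the cell -/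
def RR (P : FP Om) (lg : ℕ → ℝ) (cell : ℕ → Om → κ) (cls : ℕ → Om → ι) (s E : ℕ) : ℝ :=
  lg E - P.Hc (cell 0) (fun w => (cls s w, cell E w))

/-- mean KL of the next `j` bits -/
def KLj (P : FP Om) (lg : ℕ → ℝ) (cell : ℕ → Om → κ) (cls : ℕ → Om → ι) (E : ℕ → ℕ) (j s : ℕ) : ℝ :=
  RR P lg cell cls s (E s) - RR P lg cell cls s (E s - j)

/-- entropy of the splits of one micro time, given the cell of this time -/
def ent (P : FP Om) (cell : ℕ → Om → κ) (cls : ℕ → Om → ι) (E : ℕ → ℕ) (s : ℕ) : ℝ :=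
  P.Hc (cls (s + 1)) (fun w => (cls s w, cell (E (s + 1)) w))

theorem ent_nonneg (P : FP Om) (cell : ℕ → Om → κ) (cls : ℕ → Om → ι) (E : ℕ → ℕ) (s : ℕ) : 0 ≤ ent P cell cls E s :=
  P.Hc_nonneg _ _

/-- the hypotheses -/
structure Tel (P : FP Om) (lg : ℕ → ℝ) (cell : ℕ → Om → κ) (cls : ℕ → Om → ι) (E : ℕ → ℕ) (L : ℕ) (B : ℝ) : Prop where
  /-- classes refine -/
  hcls : ∀ s, Fac (cls (s + 1)) (cls s)
  /-- the point determines the classes -/
  hpt : ∀ s, Fac (cell 0) (cls s)
  /-- cells are nested -/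
  hcell : ∀ e, Fac (cell e) (cell (e + 1))
  /-- one more bit has entropy at most the difference of the sizes -/
  hbit : ∀ e, P.Hc (cell e) (cell (e + 1)) ≤ lg (e + 1) - lg e
  /-- nothing is known at the start -/
  hstart : ∀ e, RR P lg cell cls 0 e ≤ 0
  /-- points have size one -/
  hlg0 : 0 ≤ lg 0
  /-- the scale decreases -/
  hE : ∀ s, E (s + 1) ≤ E s
  /-- ... by `j` in `j L` micro times -/
  hEL : ∀ s j, E (s + j * L) ≤ E s - j
  /-- total entropy -/
  hB : ∀ n, ∑ s ∈ range n, ent P cell cls E s ≤ B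

namespace Tel

variable {P : FP Om} {lg : ℕ → ℝ} {cell : ℕ → Om → κ} {cls : ℕ → Om → ι} {E : ℕ → ℕ} {L : ℕ} {B : ℝ}

theorem cell_le (h : Tel P lg cell cls E L B) {e e' : ℕ} (he : e ≤ e') : Fac (cell e) (cell e') := by
  induction e', he using Nat.le_induction with
  | base => exact Fac.refl _
  | succ n _ ih => exact ih.trans (h.hcell n)

theorem E_anti (h : Tel P lg cell cls E L B) {s s' : ℕ} (hs : s ≤ s') : E s' ≤ E s := by
  induction s', hs using Nat.le_induction with
  | base => exact le_refl _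
  | succ n _ ih => exact (h.hE n).trans ih

/-- `RR` increases with the scale -/
theorem RR_succ (h : Tel P lg cell cls E L B) (s e : ℕ) : RR P lg cell cls s e ≤ RR P lg cell cls s (e + 1) := by
  unfold RR
  have h1 : P.Hc (cell 0) (fun w => (cls s w, cell (e + 1) w)) =
      P.Hc (cell e) (fun w => (cls s w, cell (e + 1) w)) + P.Hc (cell 0) (fun w => (cls s w, cell e w)) := by
    have h2 := P.Hc_chain (cell 0) (cell e) (fun w => (cls s w, cell (e + 1) w))
    have h3 : P.Hc (fun w => (cell 0 w, cell e w)) (fun w => (cls s w, cell (e + 1) w)) =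
        P.Hc (cell 0) (fun w => (cls s w, cell (e + 1) w)) := by
      refine P.Hc_congr ?_ (Fac.refl _) ?_ (Fac.refl _)
      · exact (Fac.fst _ _).trans (Fac.fst _ _)
      · exact (Fac.fst _ _).trans ((Fac.refl _).prod (h.cell_le (Nat.zero_le e)))
    have h4 : P.Hc (cell 0) (fun w => (cell e w, cls s w, cell (e + 1) w)) =
        P.Hc (cell 0) (fun w => (cls s w, cell e w)) := by
      refine P.Hc_congr (Fac.fst _ _) ?_ (Fac.fst _ _) ?_
      · intro v w hv; simp only [Prod.mk.injEq] at hv ⊢; exact ⟨hv.2.1, hv.1⟩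
      · intro v w hv
        simp only [Prod.mk.injEq] at hv ⊢
        exact ⟨hv.2, hv.1, h.hcell e v w hv.2⟩
    rw [← h3, h2, h4]
  have h5 : P.Hc (cell e) (fun w => (cls s w, cell (e + 1) w)) ≤ lg (e + 1) - lg e :=
    (P.Hc_anti (cell e) (Fac.snd (cls s) (cell (e + 1)))).trans (h.hbit e)
  linarith

theorem RR_mono (h : Tel P lg cell cls E L B) (s : ℕ) {e e' : ℕ} (he : e ≤ e') :
    RR P lg cell cls s e ≤ RR P lg cell cls s e' := by
  induction e', he using Nat.le_induction with
  | base => exact le_refl _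
  | succ n _ ih => exact ih.trans (h.RR_succ s n)

theorem RR_nonneg (h : Tel P lg cell cls E L B) (s e : ℕ) : 0 ≤ RR P lg cell cls s e := by
  refine le_trans ?_ (h.RR_mono s (Nat.zero_le e))
  unfold RR
  have h1 : P.Hc (cell 0) (fun w => (cls s w, cell 0 w)) ≤ 0 := by
    unfold FP.Hc
    have h2 : P.H (fun w => (cell 0 w, cls s w, cell 0 w)) ≤ P.H (fun w => (cls s w, cell 0 w)) :=
      P.H_mono ((Fac.snd _ _).prod (Fac.refl _))
    linarith
  have := h.hlg0
  linarith

theorem KLj_nonneg (h : Tel P lg cell cls E L B) (j s : ℕ) : 0 ≤ KLj P lg cell cls E j s := by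
  unfold KLj
  have := h.RR_mono s (Nat.sub_le (E s) j)
  linarith

/-- at a fixed scale `RR` increases by the entropies of the splits -/
theorem RR_time (h : Tel P lg cell cls E L B) (s e : ℕ) (he : e ≤ E (s + 1)) :
    RR P lg cell cls (s + 1) e ≤ RR P lg cell cls s e + ent P cell cls E s := by
  unfold RR ent
  have h1 : P.Hc (cell 0) (fun w => (cls s w, cell e w)) =
      P.Hc (cls (s + 1)) (fun w => (cls s w, cell e w)) +
        P.Hc (cell 0) (fun w => (cls (s + 1) w, cell e w)) := by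
    have h2 := P.Hc_chain (cell 0) (cls (s + 1)) (fun w => (cls s w, cell e w))
    have h3 : P.Hc (fun w => (cell 0 w, cls (s + 1) w)) (fun w => (cls s w, cell e w)) =
        P.Hc (cell 0) (fun w => (cls s w, cell e w)) := by
      refine P.Hc_congr ?_ (Fac.refl _) ?_ (Fac.refl _)
      · exact (Fac.fst _ _).trans (Fac.fst _ _)
      · exact (Fac.fst _ _).trans ((Fac.refl _).prod (h.hpt (s + 1)))
    have h4 : P.Hc (cell 0) (fun w => (cls (s + 1) w, cls s w, cell e w)) =
        P.Hc (cell 0) (fun w => (cls (s + 1) w, cell e w)) := by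
      refine P.Hc_congr (Fac.fst _ _) ?_ (Fac.fst _ _) ?_
      · intro v w hv; simp only [Prod.mk.injEq] at hv ⊢; exact ⟨hv.1, hv.2.2⟩
      · intro v w hv
        simp only [Prod.mk.injEq] at hv ⊢
        exact ⟨hv.1, h.hcls s v w hv.1, hv.2⟩
    rw [← h3, h2, h4]
  have h5 : P.Hc (cls (s + 1)) (fun w => (cls s w, cell e w)) ≤
      P.Hc (cls (s + 1)) (fun w => (cls s w, cell (E (s + 1)) w)) := by
    refine P.Hc_anti _ ?_
    exact (Fac.fst _ _).prod ((Fac.snd _ _).trans (h.cell_le he))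
  linarith

/-- several micro times -/
theorem RR_times (h : Tel P lg cell cls E L B) (s n e : ℕ) (he : e ≤ E (s + n)) :
    RR P lg cell cls (s + n) e ≤ RR P lg cell cls s e + ∑ u ∈ range n, ent P cell cls E (s + u) := by
  induction n with
  | zero => simp
  | succ n ih =>
    have h1 : e ≤ E (s + n) := he.trans (h.E_anti (by omega))
    have h2 := ih h1
    have h3 := h.RR_time (s + n) e (by rw [show s + n + 1 = s + (n + 1) by ring]; exact he)
    rw [Finset.sum_range_succ, show s + (n + 1) = s + n + 1 by ring]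
    linarith

theorem B_nonneg (h : Tel P lg cell cls E L B) : 0 ≤ B := by
  have := h.hB 0
  simpa using this

theorem RR_le_B (h : Tel P lg cell cls E L B) (s : ℕ) : RR P lg cell cls s (E s) ≤ B := by
  have h1 := h.RR_times 0 s (E s) (by rw [Nat.zero_add])
  rw [Nat.zero_add] at h1
  have h2 := h.hstart (E s)
  have h3 := h.hB s
  simp only [Nat.zero_add] at h1
  linarith

/-- the next `j` bits -/
theorem KLj_le (h : Tel P lg cell cls E L B) (j s : ℕ) :
    KLj P lg cell cls E j s ≤ RR P lg cell cls s (E s) - RR P lg cell cls (s + j * L) (E (s + j * L)) +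
      ∑ u ∈ range (j * L), ent P cell cls E (s + u) := by
  unfold KLj
  have h1 := h.RR_times s (j * L) (E (s + j * L)) (le_refl _)
  have h2 := h.RR_mono s (h.hEL s j)
  linarith

/-- LEMMA D, the telescope -/
theorem KLj_sum (h : Tel P lg cell cls E L B) (j S : ℕ) :
    ∑ s ∈ range S, KLj P lg cell cls E j s ≤ 2 * (j * L : ℕ) * B := by
  set Φ : ℕ → ℝ := fun s => RR P lg cell cls s (E s) with hΦ
  have h1 : ∑ s ∈ range S, KLj P lg cell cls E j s ≤
      (∑ s ∈ range S, Φ s - ∑ s ∈ range S, Φ (s + j * L)) +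
        ∑ s ∈ range S, ∑ u ∈ range (j * L), ent P cell cls E (s + u) := by
    rw [← Finset.sum_sub_distrib, ← Finset.sum_add_distrib]
    exact Finset.sum_le_sum (fun s _ => h.KLj_le j s)
  have h2 : ∑ s ∈ range S, Φ s - ∑ s ∈ range S, Φ (s + j * L) ≤ (j * L : ℕ) * B := by
    have e1 : ∑ s ∈ range (j * L + S), Φ s = ∑ s ∈ range (j * L), Φ s + ∑ s ∈ range S, Φ (j * L + s) :=
      Finset.sum_range_add _ _ _
    have e2 : ∑ s ∈ range S, Φ s ≤ ∑ s ∈ range (j * L + S), Φ s := by
      refine Finset.sum_le_sum_of_subset_of_nonneg ?_ (fun s _ _ => h.RR_nonneg s _)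
      intro s hs
      rw [Finset.mem_range] at hs ⊢
      omega
    have e3 : ∑ s ∈ range (j * L), Φ s ≤ (j * L : ℕ) * B := by
      have := Finset.sum_le_card_nsmul (range (j * L)) Φ B (fun s _ => h.RR_le_B s)
      rw [Finset.card_range, nsmul_eq_mul] at this
      exact this
    have e4 : ∑ s ∈ range S, Φ (s + j * L) = ∑ s ∈ range S, Φ (j * L + s) :=
      Finset.sum_congr rfl (fun s _ => by rw [Nat.add_comm])
    linarith
  have h3 : ∑ s ∈ range S, ∑ u ∈ range (j * L), ent P cell cls E (s + u) ≤ (j * L : ℕ) * B := by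
    rw [Finset.sum_comm]
    have e1 : ∀ u ∈ range (j * L), ∑ s ∈ range S, ent P cell cls E (s + u) ≤ B := by
      intro u _
      have e2 : ∑ s ∈ range (u + S), ent P cell cls E s =
          ∑ s ∈ range u, ent P cell cls E s + ∑ s ∈ range S, ent P cell cls E (u + s) :=
        Finset.sum_range_add _ _ _
      have e3 : 0 ≤ ∑ s ∈ range u, ent P cell cls E s := Finset.sum_nonneg (fun s _ => ent_nonneg _ _ _ _ _)
      have e4 := h.hB (u + S)
      have e5 : ∑ s ∈ range S, ent P cell cls E (s + u) = ∑ s ∈ range S, ent P cell cls E (u + s) :=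
        Finset.sum_congr rfl (fun s _ => by rw [Nat.add_comm])
      linarith
    have := Finset.sum_le_card_nsmul (range (j * L)) _ B e1
    rw [Finset.card_range, nsmul_eq_mul] at this
    exact this
  linarith

/-- finite sums of `(j+1) θ^(j+1)` -/
theorem sum_j_pow {θ : ℝ} (h0 : 0 ≤ θ) (h1 : θ < 1) (J : ℕ) :
    ∑ j ∈ range J, ((j : ℝ) + 1) * θ ^ (j + 1) ≤ θ / (1 - θ) ^ 2 := by
  have hp : 0 < 1 - θ := by linarith
  have h2 : ∀ J : ℕ, ∑ j ∈ range J, ((j : ℝ) + 1) * θ ^ (j + 1) =
      (θ - ((J : ℝ) + 1) * θ ^ (J + 1) + (J : ℝ) * θ ^ (J + 2)) / (1 - θ) ^ 2 := by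
    intro J
    induction J with
    | zero => simp
    | succ J ih =>
      rw [Finset.sum_range_succ, ih]
      push_cast
      field_simp
      ring
  rw [h2]
  have h3 : (J : ℝ) * θ ^ (J + 2) ≤ ((J : ℝ) + 1) * θ ^ (J + 1) := by
    have e1 : θ ^ (J + 2) ≤ θ ^ (J + 1) := pow_le_pow_of_le_one h0 h1.le (by omega)
    have e2 : 0 ≤ θ ^ (J + 1) := pow_nonneg h0 _
    have e3 : (0 : ℝ) ≤ J := Nat.cast_nonneg J
    nlinarith
  gcongr
  linarith

/-- LEMMA D, sum over the number of bits -/
theorem KLj_total (h : Tel P lg cell cls E L B) {θ : ℝ} (h0 : 0 ≤ θ) (h1 : θ < 1) (J S : ℕ) :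
    ∑ s ∈ range S, ∑ j ∈ range J, θ ^ (j + 1) * KLj P lg cell cls E (j + 1) s ≤
      2 * L * B * (θ / (1 - θ) ^ 2) := by
  rw [Finset.sum_comm]
  have h2 : ∀ j ∈ range J, ∑ s ∈ range S, θ ^ (j + 1) * KLj P lg cell cls E (j + 1) s ≤
      2 * L * B * (((j : ℝ) + 1) * θ ^ (j + 1)) := by
    intro j _
    rw [← Finset.mul_sum]
    have e1 := h.KLj_sum (j + 1) S
    have e2 : 0 ≤ θ ^ (j + 1) := pow_nonneg h0 _
    have e3 := mul_le_mul_of_nonneg_left e1 e2
    push_cast at e3
    linarith
  have h3 := Finset.sum_le_sum h2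
  rw [← Finset.mul_sum] at h3
  have h4 := sum_j_pow h0 h1 J
  have h5 : 0 ≤ 2 * (L : ℝ) * B := by
    have := h.B_nonneg
    positivity
  exact h3.trans (mul_le_mul_of_nonneg_left h4 h5)

end Tel

end

end Pool.Agent.GMC
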