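import Pool.Agent.M3.Model3

/-!
# GMC/Mod: the model of C2 (pairs are cold, every m), micro steps (helper27)

Conventions of `M3/Model`, `M3/Bin/Defs`: `V k = ZMod (2^k)`, noise `w < 2^N`, `N ≤ k`, window of exponent `e0`:
`y - [0, 2^e0)`, `y = pos e0 z w = z + w % 2^e0`, digits above = `w / 2^e0`; a vertex is `(p, v) : P × V k` (`p` private
randomness, may be `Unit`).

SAMPLE SPACE `S2 k N n P`: `va`, `vb` the two vertices, `vo` the `n` others, `nw` the noise, all uniform; law `Pu`.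
CONFIGURATION `c = (e0, s) : Cfg n`: `e0` exponent of the noise, `s i` scale of the cell of the `i`-th other vertex.
NODE `Nc c ω = Nn e0 s ω = ((y, w / 2^e0), cells)`, type `Nd k n`; admissible nodes `Val N e0 s ν`.
`fib P s c` = the values of `vo` in the product of cells, `cnt P e0 s ν t` = number of those with `y - t - sum` in
`[0, 2^e0)`; the number of sample points with `va = a`, `vb = b`, node `ν` is `cnt P e0 s ν (a.2 + b.2)` (`card_node`);
so `psi_ν(u) = cnt P e0 s ν u / (fib P s ν.2).card`.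

* LAW OF (a, b) GIVEN THE NODE: `sum_ab`, `ce_ab` (conditional expectations given the node and a function `Y` of
  `(node, a, b)`, e.g. `a`, the class of `a`, the class of `b`, both classes);
* MICRO STEP `st : Option (Fin n)` (`none` = noise, `some i` = cell of the vertex `i`) from `up st c` to `c`: children
  `chd st c 0 ν`, `chd st c 1 ν`, bit `bs st c ω`, `Nc_eq`, `prt_Nc`, `chd_ne`, `val_chd`, `ind_up`, `cnt_step`;
* ONE STEP AHEAD: `sum_ab_step`, `ce_ab_step`;
* masses: `card_fib`, `sum_cnt` (row sums), `sum_cnt_V`, `cnt_le`, `var_cnt` (variation on the circle at most 2).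
-/

set_option autoImplicit false
set_option linter.unusedSectionVars false

namespace Pool.Agent.GMC

open Finset Pool.Agent.PWZ Pool.Agent.M3 Pool.Agent.M3.Bin Pool.Agent.M3.Mod

noncomputable section

/-- sample space: `a`, `b`, the other `n` vertices, the noise -/
abbrev S2 (k N n : ℕ) (P : Type) := ((P × V k) × (P × V k) × (Fin n → P × V k)) × Fin (2 ^ N)

/-- nodes -/
abbrev Nd (k n : ℕ) := (V k × ℕ) × (Fin n → V k)

variable {k N n : ℕ} {P : Type}

/-- the vertex `a` -/
def va (ω : S2 k N n P) : P × V k := ω.1.1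

/-- the vertex `b` -/
def vb (ω : S2 k N n P) : P × V k := ω.1.2.1

/-- the other vertices -/
def vo (ω : S2 k N n P) : Fin n → P × V k := ω.1.2.2

/-- the noise -/
def nw (ω : S2 k N n P) : ℕ := ω.2.val

/-- sum of the other vertices -/
def so (o : Fin n → P × V k) : V k := ∑ i, (o i).2

/-- the centre -/
def ct (ω : S2 k N n P) : V k := (va ω).2 + (vb ω).2 + so (vo ω)

/-- THE NODE of the configuration `(e0, s)` -/
def Nn (e0 : ℕ) (s : Fin n → ℕ) (ω : S2 k N n P) : Nd k n :=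
  (nd e0 (ct ω) (nw ω), fun i => flr (s i) (vo ω i).2)

theorem nw_lt (ω : S2 k N n P) : nw ω < 2 ^ N := ω.2.isLt

theorem Nn_fst (e0 : ℕ) (s : Fin n → ℕ) (ω : S2 k N n P) : (Nn e0 s ω).1 = nd e0 (ct ω) (nw ω) := rfl

theorem Nn_y (e0 : ℕ) (s : Fin n → ℕ) (ω : S2 k N n P) : (Nn e0 s ω).1.1 = Bin.pos e0 (ct ω) (nw ω) := rfl

theorem Nn_dig (e0 : ℕ) (s : Fin n → ℕ) (ω : S2 k N n P) : (Nn e0 s ω).1.2 = nw ω / 2 ^ e0 := rfl

theorem Nn_cel (e0 : ℕ) (s : Fin n → ℕ) (ω : S2 k N n P) (i : Fin n) :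
    (Nn e0 s ω).2 i = flr (s i) (vo ω i).2 := rfl

/-! ## the filtration -/

/-- exact nodes of the noise -/
theorem nd_le {e e' : ℕ} (h : e' ≤ e) {z z' : V k} {w w' : ℕ} (hn : nd e' z w = nd e' z' w') :
    nd e z w = nd e z' w' := by
  induction e, h using Nat.le_induction with
  | base => exact hn
  | succ e _ ih => rw [← pnd_nd, ← pnd_nd, ih]

theorem fac_Nn {e0 e0' : ℕ} {s s' : Fin n → ℕ} (he : e0' ≤ e0) (hs : ∀ i, s' i ≤ s i) :
    Fac (Nn (k := k) (N := N) (P := P) e0' s') (Nn e0 s) := by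
  intro v w h
  unfold Nn at h ⊢
  rw [Prod.mk.injEq] at h ⊢
  refine ⟨nd_le he h.1, funext fun i => ?_⟩
  exact flr_mono_eq (hs i) (congrFun h.2 i)

/-! ## the completions of a node -/

section law

variable [Fintype P]

/-- the other vertices in their cells -/
def fib (P : Type) [Fintype P] (s : Fin n → ℕ) (c : Fin n → V k) : Finset (Fin n → P × V k) :=
  Fintype.piFinset fun i => CL (P := P) (s i) (c i)

theorem mem_fib (s : Fin n → ℕ) (c : Fin n → V k) (o : Fin n → P × V k) :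
    o ∈ fib P s c ↔ ∀ i, flr (s i) (o i).2 = flr (s i) (c i) := by
  unfold fib
  rw [Fintype.mem_piFinset]
  refine forall_congr' fun i => ?_
  unfold CL
  rw [Finset.mem_filter]
  simp

/-- number of completions `o` of the node with `y - t - sum o` in `[0, 2^e0)` -/
def cnt (P : Type) [Fintype P] (e0 : ℕ) (s : Fin n → ℕ) (ν : Nd k n) (t : V k) : ℕ :=
  ((fib P s ν.2).filter fun o => (ν.1.1 - t - so o).val < 2 ^ e0).card

/-- admissible nodes: digits above `< 2^(N - e0)`, cells aligned -/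
def Val (N e0 : ℕ) (s : Fin n → ℕ) (ν : Nd k n) : Prop :=
  ν.1.2 < 2 ^ (N - e0) ∧ ∀ i, flr (s i) (ν.2 i) = ν.2 i

omit [Fintype P] in
theorem val_Nn {e0 : ℕ} (he : e0 ≤ N) (s : Fin n → ℕ) (ω : S2 k N n P) : Val N e0 s (Nn e0 s ω) := by
  refine ⟨?_, fun i => flr_flr le_rfl _⟩
  rw [Nn_dig, Nat.div_lt_iff_lt_mul (by positivity), ← pow_add, Nat.sub_add_cancel he]
  exact nw_lt ω

/-- `a`, `b`, node fixed: the number of sample points -/
theorem card_node {e0 : ℕ} (he : e0 ≤ N) (hN : N ≤ k) {s : Fin n → ℕ} {ν : Nd k n} (hν : Val N e0 s ν)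
    (a b : P × V k) :
    ∑ ω : S2 k N n P, ind ((va ω = a ∧ vb ω = b) ∧ Nn e0 s ω = ν) = (cnt P e0 s ν (a.2 + b.2) : ℝ) := by
  classical
  have hcard : ∑ ω : S2 k N n P, ind ((va ω = a ∧ vb ω = b) ∧ Nn e0 s ω = ν) =
      (((univ : Finset (S2 k N n P)).filter fun ω => (va ω = a ∧ vb ω = b) ∧ Nn e0 s ω = ν).card : ℝ) := by
    rw [Finset.card_filter]
    push_cast
    refine Finset.sum_congr rfl fun ω _ => ?_
    unfold ind
    split_ifs <;> simp
  rw [hcard]
  congr 1
  obtain ⟨hu, hal⟩ := hν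
  have hpow : 2 ^ (N - e0) * 2 ^ e0 = 2 ^ N := by rw [← pow_add, Nat.sub_add_cancel he]
  have hle : (2 : ℕ) ^ e0 ≤ 2 ^ k := Nat.pow_le_pow_right (by norm_num) (he.trans hN)
  have hlt : ∀ r : ℕ, ν.1.2 * 2 ^ e0 + r % 2 ^ e0 < 2 ^ N := by
    intro r
    have h2 : r % 2 ^ e0 < 2 ^ e0 := Nat.mod_lt _ (by positivity)
    calc ν.1.2 * 2 ^ e0 + r % 2 ^ e0 < ν.1.2 * 2 ^ e0 + 2 ^ e0 := by omega
      _ = (ν.1.2 + 1) * 2 ^ e0 := by ring
      _ ≤ 2 ^ (N - e0) * 2 ^ e0 := Nat.mul_le_mul_right _ hu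
      _ = 2 ^ N := hpow
  unfold cnt
  refine Finset.card_nbij' (fun ω => vo ω)
    (fun o => ((a, b, o), ⟨ν.1.2 * 2 ^ e0 + (ν.1.1 - (a.2 + b.2) - so o).val % 2 ^ e0, hlt _⟩)) ?_ ?_ ?_ ?_
  · intro ω hω
    rw [Finset.mem_coe, Finset.mem_filter] at hω
    obtain ⟨_, ⟨ha, hb⟩, hn⟩ := hω
    rw [Finset.mem_coe, Finset.mem_filter, mem_fib]
    refine ⟨fun i => ?_, ?_⟩
    · rw [← hn, Nn_cel, flr_flr le_rfl]
    · rw [← hn, Nn_y]
      unfold Bin.pos ct
      rw [ha, hb]
      have h1 : a.2 + b.2 + so (vo ω) + ((nw ω % 2 ^ e0 : ℕ) : V k) - (a.2 + b.2) - so (vo ω) =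
          ((nw ω % 2 ^ e0 : ℕ) : V k) := by abel
      have h2 : nw ω % 2 ^ e0 < 2 ^ e0 := Nat.mod_lt _ (by positivity)
      rw [h1, ZMod.val_natCast_of_lt (lt_of_lt_of_le h2 hle)]
      exact h2
  · intro o ho
    rw [Finset.mem_coe, Finset.mem_filter, mem_fib] at ho
    obtain ⟨hc, hv⟩ := ho
    rw [Finset.mem_coe, Finset.mem_filter]
    refine ⟨Finset.mem_univ _, ⟨rfl, rfl⟩, ?_⟩
    have hm : (ν.1.2 * 2 ^ e0 + (ν.1.1 - (a.2 + b.2) - so o).val % 2 ^ e0) % 2 ^ e0 =
        (ν.1.1 - (a.2 + b.2) - so o).val := by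
      rw [Nat.mul_comm, Nat.mul_add_mod, Nat.mod_mod, Nat.mod_eq_of_lt hv]
    have hd : (ν.1.2 * 2 ^ e0 + (ν.1.1 - (a.2 + b.2) - so o).val % 2 ^ e0) / 2 ^ e0 = ν.1.2 := by
      rw [Nat.mul_comm, Nat.mul_add_div (by positivity), Nat.div_eq_of_lt (Nat.mod_lt _ (by positivity)), Nat.add_zero]
    refine Prod.ext (Prod.ext ?_ ?_) (funext fun i => ?_)
    · rw [Nn_y]
      unfold Bin.pos ct nw va vb vo
      simp only
      rw [hm, ZMod.natCast_zmod_val]
      abel
    · exact hd
    · rw [Nn_cel]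
      exact (hc i).trans (hal i)
  · intro ω hω
    rw [Finset.mem_coe, Finset.mem_filter] at hω
    obtain ⟨_, ⟨ha, hb⟩, hn⟩ := hω
    refine Prod.ext (Prod.ext ha.symm (Prod.ext hb.symm rfl)) (Fin.ext ?_)
    simp only
    have h1 : ν.1.1 - (a.2 + b.2) - so (vo ω) = ((nw ω % 2 ^ e0 : ℕ) : V k) := by
      rw [← hn, Nn_y]
      unfold Bin.pos ct
      rw [ha, hb]
      abel
    have h2 : nw ω % 2 ^ e0 < 2 ^ e0 := Nat.mod_lt _ (by positivity)
    have h3 : ν.1.2 = nw ω / 2 ^ e0 := by rw [← hn, Nn_dig]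
    rw [h1, ZMod.val_natCast_of_lt (lt_of_lt_of_le h2 hle), Nat.mod_mod, h3]
    exact Nat.div_add_mod' _ _
  · intro o ho
    rfl

/-! ## the law -/

variable [Nonempty P]

/-- the law -/
def Pu (k N n : ℕ) (P : Type) [Fintype P] [Nonempty P] : FP (S2 k N n P) := FP.unif _

theorem Pu_ne (ω : S2 k N n P) : (Pu k N n P).p ω ≠ 0 := FP.unif_ne _ ω

/-- sums over the sample points of a node -/
theorem sum_ab {e0 : ℕ} (he : e0 ≤ N) (hN : N ≤ k) {s : Fin n → ℕ} {ν : Nd k n} (hν : Val N e0 s ν)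
    (g : P × V k → P × V k → ℝ) :
    ∑ ω : S2 k N n P, ind (Nn e0 s ω = ν) * g (va ω) (vb ω) =
      ∑ a, ∑ b, (cnt P e0 s ν (a.2 + b.2) : ℝ) * g a b := by
  have h1 : ∀ ω : S2 k N n P, ind (Nn e0 s ω = ν) * g (va ω) (vb ω) =
      ∑ a : P × V k, ∑ b : P × V k, ind ((va ω = a ∧ vb ω = b) ∧ Nn e0 s ω = ν) * g a b := by
    intro ω
    rw [Finset.sum_eq_single (va ω), Finset.sum_eq_single (vb ω)]
    · congr 1
      by_cases h : Nn e0 s ω = ν
      · rw [ind_of h, ind_of ⟨⟨rfl, rfl⟩, h⟩]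
      · rw [ind_not h, ind_not (fun h' => h h'.2)]
    · intro b _ hb
      rw [ind_not (fun h' => hb h'.1.2.symm), zero_mul]
    · intro h
      exact absurd (Finset.mem_univ _) h
    · intro a _ ha
      refine Finset.sum_eq_zero fun b _ => ?_
      rw [ind_not (fun h' => ha h'.1.1.symm), zero_mul]
    · intro h
      exact absurd (Finset.mem_univ _) h
  rw [Finset.sum_congr rfl fun ω _ => h1 ω, Finset.sum_comm]
  refine Finset.sum_congr rfl fun a _ => ?_
  rw [Finset.sum_comm]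
  refine Finset.sum_congr rfl fun b _ => ?_
  rw [← Finset.sum_mul, ← card_node he hN hν a b]

/-- conditional expectation as a ratio of sums over the sample points -/
theorem ce_sum {κ : Type*} (X : S2 k N n P → κ) (f : S2 k N n P → ℝ) (ω0 : S2 k N n P) :
    (Pu k N n P).ce X f ω0 = (∑ ω, ind (X ω = X ω0) * f ω) / ∑ ω, ind (X ω = X ω0) := by
  have hc : (Fintype.card (S2 k N n P) : ℝ) ≠ 0 := Nat.cast_ne_zero.mpr Fintype.card_ne_zero
  unfold FP.ce FP.m Pu
  rw [FP.unif_E, FP.unif_E, div_div_div_cancel_right₀ hc]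

/-- LAW OF (a, b) GIVEN THE NODE and a function `Y` of `(node, a, b)` -/
theorem ce_ab {e0 : ℕ} (he : e0 ≤ N) (hN : N ≤ k) (s : Fin n → ℕ) {κ : Type*}
    (Y : Nd k n → P × V k → P × V k → κ) (f : Nd k n → P × V k → P × V k → ℝ) (ω0 : S2 k N n P) :
    (Pu k N n P).ce (fun ω => (Nn e0 s ω, Y (Nn e0 s ω) (va ω) (vb ω)))
        (fun ω => f (Nn e0 s ω) (va ω) (vb ω)) ω0 =
      (∑ a, ∑ b, (cnt P e0 s (Nn e0 s ω0) (a.2 + b.2) : ℝ) *
        (ind (Y (Nn e0 s ω0) a b = Y (Nn e0 s ω0) (va ω0) (vb ω0)) * f (Nn e0 s ω0) a b)) /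
      ∑ a, ∑ b, (cnt P e0 s (Nn e0 s ω0) (a.2 + b.2) : ℝ) *
        ind (Y (Nn e0 s ω0) a b = Y (Nn e0 s ω0) (va ω0) (vb ω0)) := by
  have hν := val_Nn he s ω0
  rw [ce_sum, ← sum_ab he hN hν (fun a b => ind (Y (Nn e0 s ω0) a b = Y (Nn e0 s ω0) (va ω0) (vb ω0)) *
    f (Nn e0 s ω0) a b), ← sum_ab he hN hν (fun a b => ind (Y (Nn e0 s ω0) a b = Y (Nn e0 s ω0) (va ω0) (vb ω0)))]
  have h0 : ∀ ω : S2 k N n P, ind ((Nn e0 s ω, Y (Nn e0 s ω) (va ω) (vb ω)) =
      (Nn e0 s ω0, Y (Nn e0 s ω0) (va ω0) (vb ω0))) = ind (Nn e0 s ω = Nn e0 s ω0) *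
      ind (Y (Nn e0 s ω0) (va ω) (vb ω) = Y (Nn e0 s ω0) (va ω0) (vb ω0)) := by
    intro ω
    by_cases h : Nn e0 s ω = Nn e0 s ω0
    · rw [ind_of h, one_mul, h]
      refine congrArg _ (propext ?_)
      simp
    · rw [ind_not h, zero_mul, ind_not]
      intro h'
      exact h (Prod.mk.injEq _ _ _ _ ▸ h' : _ ∧ _).1
  congr 1
  · refine Finset.sum_congr rfl fun ω _ => ?_
    rw [h0]
    by_cases h : Nn e0 s ω = Nn e0 s ω0
    · rw [h]
      ring
    · rw [ind_not h]
      ring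
  · exact Finset.sum_congr rfl fun ω _ => h0 ω

/-! ## micro steps: from the configuration `up st c` to the configuration `c` -/

/-- configurations -/
abbrev Cfg (n : ℕ) := ℕ × (Fin n → ℕ)

/-- the configuration before the step: `none` = noise, `some i` = cell of the vertex `i` -/
def up (st : Option (Fin n)) (c : Cfg n) : Cfg n :=
  match st with
  | none => (c.1 + 1, c.2)
  | some i => (c.1, Function.update c.2 i (c.2 i + 1))

/-- the two children -/
def chd (st : Option (Fin n)) (c : Cfg n) (b : ℕ) (ν : Nd k n) : Nd k n :=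
  match st with
  | none => ((ν.1.1 - ((b * 2 ^ c.1 : ℕ) : V k), 2 * ν.1.2 + b), ν.2)
  | some i => (ν.1, Function.update ν.2 i (ν.2 i + ((b * 2 ^ (c.2 i) : ℕ) : V k)))

/-- the bit of the step -/
def bs (st : Option (Fin n)) (c : Cfg n) (ω : S2 k N n P) : ℕ :=
  match st with
  | none => bit c.1 (nw ω)
  | some i => bit (c.2 i) (vo ω i).2.val

/-- the node of a configuration -/
def Nc (c : Cfg n) (ω : S2 k N n P) : Nd k n := Nn c.1 c.2 ω

omit [Fintype P] [Nonempty P] in
theorem bs_lt (st : Option (Fin n)) (c : Cfg n) (ω : S2 k N n P) : bs st c ω < 2 := by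
  unfold bs bit
  cases st <;> exact Nat.mod_lt _ (by norm_num)

/-- an aligned point is aligned at the smaller scales -/
theorem flr_al_le {j j' : ℕ} (h : j ≤ j') {v : V k} (hv : flr j' v = v) : flr j v = v := by
  have h1 := flr_val j' v
  rw [hv] at h1
  have h2 : v.val % 2 ^ j' = 0 := by
    have := Nat.mod_le v.val (2 ^ j')
    omega
  have h3 : v.val % 2 ^ j = 0 :=
    Nat.mod_eq_zero_of_dvd ((pow_dvd_pow 2 h).trans (Nat.dvd_of_mod_eq_zero h2))
  unfold flr
  rw [h3, Nat.cast_zero, sub_zero]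

/-- a half cell -/
theorem flr_half (j : ℕ) (v : V k) : flr j v = flr (j + 1) v + ((bit j v.val * 2 ^ j : ℕ) : V k) := by
  unfold flr bit
  rw [mod_pow_succ]
  push_cast
  ring

omit [Fintype P] [Nonempty P] in
/-- the new node -/
theorem Nc_eq (st : Option (Fin n)) (c : Cfg n) (ω : S2 k N n P) :
    Nc c ω = chd st c (bs st c ω) (Nc (up st c) ω) := by
  cases st with
  | none =>
    unfold Nc chd bs up
    simp only
    refine Prod.ext (Prod.ext ?_ ?_) rfl
    · simp only [Nn_y]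
      rw [pos_succ]
      abel
    · simp only [Nn_dig]
      unfold bit
      rw [pow_succ, ← Nat.div_div_eq_div_mul]
      omega
  | some i =>
    unfold Nc chd bs up
    simp only
    refine Prod.ext rfl (funext fun l => ?_)
    by_cases hl : l = i
    · subst hl
      simp only [Nn_cel, Function.update_self]
      exact flr_half _ _
    · simp only [Nn_cel, Function.update_of_ne hl]

omit [Fintype P] [Nonempty P] in
theorem Nc_le_up (st : Option (Fin n)) (c : Cfg n) : c.1 ≤ (up st c).1 ∧ ∀ i, c.2 i ≤ (up st c).2 i := by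
  cases st with
  | none => exact ⟨Nat.le_succ _, fun i => le_rfl⟩
  | some i =>
    refine ⟨le_rfl, fun l => ?_⟩
    unfold up
    simp only
    by_cases hl : l = i
    · subst hl
      rw [Function.update_self]
      exact Nat.le_succ _
    · rw [Function.update_of_ne hl]

omit [Fintype P] [Nonempty P] in
theorem fac_Nc_up (st : Option (Fin n)) (c : Cfg n) : Fac (Nc (k := k) (N := N) (P := P) c) (Nc (up st c)) :=
  fac_Nn (Nc_le_up st c).1 (Nc_le_up st c).2

/-- the step is not trivial: scales in range -/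
def Ok (k N : ℕ) (st : Option (Fin n)) (c : Cfg n) : Prop :=
  match st with
  | none => c.1 + 1 ≤ N
  | some i => c.2 i + 1 ≤ k

theorem two_pow_ne_zero {j : ℕ} (hj : j + 1 ≤ k) : ((2 ^ j : ℕ) : V k) ≠ 0 := by
  intro h
  rw [ZMod.natCast_eq_zero_iff] at h
  have h1 := Nat.le_of_dvd (by positivity) h
  have h2 : (2 : ℕ) ^ j < 2 ^ k := Nat.pow_lt_pow_right (by norm_num) (by omega)
  omega

/-- the two children are different -/
theorem chd_ne {st : Option (Fin n)} {c : Cfg n} (hok : Ok k N st c) (ν : Nd k n) :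
    chd st c 0 ν ≠ chd st c 1 ν := by
  intro h
  cases st with
  | none =>
    unfold chd at h
    simp only [Prod.mk.injEq] at h
    omega
  | some i =>
    unfold chd at h
    simp only [Prod.mk.injEq] at h
    have h1 := congrFun h.2 i
    simp only [Function.update_self, zero_mul, Nat.cast_zero, add_zero, one_mul] at h1
    exact two_pow_ne_zero hok (left_eq_add.mp h1)

/-- the parent -/
def prt (st : Option (Fin n)) (c : Cfg n) (ν : Nd k n) : Nd k n :=
  match st with
  | none => ((ν.1.1 + ((ν.1.2 % 2 * 2 ^ c.1 : ℕ) : V k), ν.1.2 / 2), ν.2)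
  | some i => (ν.1, Function.update ν.2 i (flr (c.2 i + 1) (ν.2 i)))

omit [Fintype P] [Nonempty P] in
theorem prt_Nc (st : Option (Fin n)) (c : Cfg n) (ω : S2 k N n P) : prt st c (Nc c ω) = Nc (up st c) ω := by
  cases st with
  | none =>
    unfold prt Nc up
    simp only
    refine Prod.ext ?_ rfl
    exact pnd_nd c.1 (ct ω) (nw ω)
  | some i =>
    unfold prt Nc up
    simp only
    refine Prod.ext rfl (funext fun l => ?_)
    by_cases hl : l = i
    · subst hl
      simp only [Nn_cel, Function.update_self]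
      exact flr_flr (Nat.le_succ _) _
    · simp only [Nn_cel, Function.update_of_ne hl]

theorem prt_chd {st : Option (Fin n)} {c : Cfg n} (hok : Ok k N st c) {ν : Nd k n}
    (hν : Val N (up st c).1 (up st c).2 ν) {b : ℕ} (hb : b < 2) : prt st c (chd st c b ν) = ν := by
  cases st with
  | none =>
    unfold prt chd
    simp only
    have h1 : (2 * ν.1.2 + b) % 2 = b := by omega
    have h2 : (2 * ν.1.2 + b) / 2 = ν.1.2 := by omega
    rw [h1, h2, sub_add_cancel]
  | some i =>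
    unfold prt chd
    simp only
    refine Prod.ext rfl (funext fun l => ?_)
    by_cases hl : l = i
    · subst hl
      simp only [Function.update_self]
      have h3 := hν.2 l
      unfold up at h3
      simp only [Function.update_self] at h3
      refine flr_aligned_add hok _ h3 _ ?_
      rw [pow_succ]
      nlinarith [Nat.two_pow_pos (c.2 l)]
    · simp only [Function.update_of_ne hl]

theorem val_chd {st : Option (Fin n)} {c : Cfg n} (hok : Ok k N st c) {ν : Nd k n}
    (hν : Val N (up st c).1 (up st c).2 ν) {b : ℕ} (hb : b < 2) : Val N c.1 c.2 (chd st c b ν) := by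
  cases st with
  | none =>
    unfold up at hν
    unfold chd
    refine ⟨?_, hν.2⟩
    have h1 := hν.1
    simp only at h1 ⊢
    have h2 : N - c.1 = (N - (c.1 + 1)) + 1 := by unfold Ok at hok; simp only at hok; omega
    rw [h2, pow_succ]
    omega
  | some i =>
    unfold up at hν
    unfold chd
    refine ⟨hν.1, fun l => ?_⟩
    simp only
    by_cases hl : l = i
    · subst hl
      have h3 := hν.2 l
      simp only [Function.update_self] at h3 ⊢
      rw [flr_add_mul le_rfl, flr_al_le (Nat.le_succ _) h3]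
    · have h3 := hν.2 l
      simp only [Function.update_of_ne hl] at h3 ⊢
      exact h3

omit [Fintype P] [Nonempty P] in
/-- the fibre of a node is the union of the fibres of its children -/
theorem ind_up {st : Option (Fin n)} {c : Cfg n} (hok : Ok k N st c) {ν : Nd k n}
    (hν : Val N (up st c).1 (up st c).2 ν) (ω : S2 k N n P) :
    ind (Nc (up st c) ω = ν) = ind (Nc c ω = chd st c 0 ν) + ind (Nc c ω = chd st c 1 ν) := by
  by_cases h : Nc (up st c) ω = ν
  · rw [ind_of h]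
    have h1 := Nc_eq st c ω
    rw [h] at h1
    have h2 := bs_lt st c ω
    have h3 := chd_ne hok ν
    rcases (by omega : bs st c ω = 0 ∨ bs st c ω = 1) with h4 | h4
    · rw [h4] at h1
      rw [ind_of h1, ind_not (fun h5 => h3 (h1.symm.trans h5))]
      ring
    · rw [h4] at h1
      rw [ind_of h1, ind_not (fun h5 => h3 (h5.symm.trans h1))]
      ring
  · rw [ind_not h, ind_not, ind_not]
    · ring
    · intro h5
      refine h ?_
      rw [← prt_Nc st c ω, h5, prt_chd hok hν (by norm_num)]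
    · intro h5
      refine h ?_
      rw [← prt_Nc st c ω, h5, prt_chd hok hν (by norm_num)]

/-- sums over the sample points of a node, functions of the next node -/
theorem sum_ab_step {st : Option (Fin n)} {c : Cfg n} (hok : Ok k N st c) (hc : c.1 ≤ N) (hN : N ≤ k) {ν : Nd k n}
    (hν : Val N (up st c).1 (up st c).2 ν) (g : Nd k n → P × V k → P × V k → ℝ) :
    ∑ ω : S2 k N n P, ind (Nc (up st c) ω = ν) * g (Nc c ω) (va ω) (vb ω) =
      (∑ a, ∑ b, (cnt P c.1 c.2 (chd st c 0 ν) (a.2 + b.2) : ℝ) * g (chd st c 0 ν) a b) +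
      ∑ a, ∑ b, (cnt P c.1 c.2 (chd st c 1 ν) (a.2 + b.2) : ℝ) * g (chd st c 1 ν) a b := by
  rw [← sum_ab hc hN (val_chd hok hν (by norm_num)) (g (chd st c 0 ν)),
    ← sum_ab hc hN (val_chd hok hν (by norm_num)) (g (chd st c 1 ν)), ← Finset.sum_add_distrib]
  refine Finset.sum_congr rfl fun ω _ => ?_
  rw [ind_up hok hν ω, add_mul]
  change ind (Nc c ω = chd st c 0 ν) * _ + ind (Nc c ω = chd st c 1 ν) * _ =
    ind (Nc c ω = chd st c 0 ν) * _ + ind (Nc c ω = chd st c 1 ν) * _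
  congr 1
  · by_cases h : Nc c ω = chd st c 0 ν
    · rw [h]
    · rw [ind_not h]; ring
  · by_cases h : Nc c ω = chd st c 1 ν
    · rw [h]
    · rw [ind_not h]; ring

/-- the number of completions is additive over the children (at every sum `t` of two vertices) -/
theorem cnt_step {st : Option (Fin n)} {c : Cfg n} (hok : Ok k N st c) (hc : (up st c).1 ≤ N) (hN : N ≤ k)
    {ν : Nd k n} (hν : Val N (up st c).1 (up st c).2 ν) (t : V k) :
    cnt P (up st c).1 (up st c).2 ν t = cnt P c.1 c.2 (chd st c 0 ν) t + cnt P c.1 c.2 (chd st c 1 ν) t := by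
  obtain ⟨p0⟩ := (inferInstance : Nonempty P)
  have h0 := card_node (P := P) hc hN hν (p0, t) (p0, 0)
  have hc' : c.1 ≤ N := (Nc_le_up st c).1.trans hc
  have h1 := card_node (P := P) hc' hN (val_chd hok hν (by norm_num : (0 : ℕ) < 2)) (p0, t) (p0, 0)
  have h2 := card_node (P := P) hc' hN (val_chd hok hν (by norm_num : (1 : ℕ) < 2)) (p0, t) (p0, 0)
  simp only [add_zero] at h0 h1 h2
  have h3 : (cnt P (up st c).1 (up st c).2 ν t : ℝ) =
      cnt P c.1 c.2 (chd st c 0 ν) t + cnt P c.1 c.2 (chd st c 1 ν) t := by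
    rw [← h0, ← h1, ← h2, ← Finset.sum_add_distrib]
    refine Finset.sum_congr rfl fun ω _ => ?_
    rw [ind_and (va ω = (p0, t) ∧ vb ω = (p0, 0)), ind_and (va ω = (p0, t) ∧ vb ω = (p0, 0)),
      ind_and (va ω = (p0, t) ∧ vb ω = (p0, 0)), ← mul_add]
    congr 1
    exact ind_up hok hν ω
  exact_mod_cast h3

/-- ONE STEP AHEAD: conditional expectation of a function of (next node, a, b) given (node, `Y` (node, a, b)) -/
theorem ce_ab_step {st : Option (Fin n)} {c : Cfg n} (hok : Ok k N st c) (hc : (up st c).1 ≤ N) (hN : N ≤ k)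
    {κ : Type*} (Y : Nd k n → P × V k → P × V k → κ) (f : Nd k n → P × V k → P × V k → ℝ) (ω0 : S2 k N n P) :
    (Pu k N n P).ce (fun ω => (Nc (up st c) ω, Y (Nc (up st c) ω) (va ω) (vb ω)))
        (fun ω => f (Nc c ω) (va ω) (vb ω)) ω0 =
      ((∑ a, ∑ b, (cnt P c.1 c.2 (chd st c 0 (Nc (up st c) ω0)) (a.2 + b.2) : ℝ) *
        (ind (Y (Nc (up st c) ω0) a b = Y (Nc (up st c) ω0) (va ω0) (vb ω0)) * f (chd st c 0 (Nc (up st c) ω0)) a b)) +
      ∑ a, ∑ b, (cnt P c.1 c.2 (chd st c 1 (Nc (up st c) ω0)) (a.2 + b.2) : ℝ) *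
        (ind (Y (Nc (up st c) ω0) a b = Y (Nc (up st c) ω0) (va ω0) (vb ω0)) * f (chd st c 1 (Nc (up st c) ω0)) a b)) /
      ∑ a, ∑ b, (cnt P (up st c).1 (up st c).2 (Nc (up st c) ω0) (a.2 + b.2) : ℝ) *
        ind (Y (Nc (up st c) ω0) a b = Y (Nc (up st c) ω0) (va ω0) (vb ω0)) := by
  have hν : Val N (up st c).1 (up st c).2 (Nc (up st c) ω0) := val_Nn hc _ ω0
  have hc' : c.1 ≤ N := (Nc_le_up st c).1.trans hc
  set ν := Nc (up st c) ω0 with hνd
  rw [ce_sum, ← sum_ab_step hok hc' hN hν (fun ν' a b => ind (Y ν a b = Y ν (va ω0) (vb ω0)) * f ν' a b),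
    ← sum_ab hc hN hν (fun a b => ind (Y ν a b = Y ν (va ω0) (vb ω0)))]
  have h0 : ∀ ω : S2 k N n P, ind ((Nc (up st c) ω, Y (Nc (up st c) ω) (va ω) (vb ω)) =
      (ν, Y ν (va ω0) (vb ω0))) = ind (Nc (up st c) ω = ν) *
      ind (Y ν (va ω) (vb ω) = Y ν (va ω0) (vb ω0)) := by
    intro ω
    by_cases h : Nc (up st c) ω = ν
    · rw [ind_of h, one_mul, h]
      refine congrArg _ (propext ?_)
      simp
    · rw [ind_not h, zero_mul, ind_not]
      intro h'
      exact h (Prod.mk.injEq _ _ _ _ ▸ h' : _ ∧ _).1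
  congr 1
  · refine Finset.sum_congr rfl fun ω _ => ?_
    rw [h0]
    ring
  · exact Finset.sum_congr rfl fun ω _ => h0 ω

/-! ## masses -/

omit [Nonempty P] in
theorem card_CL {j : ℕ} (hj : j ≤ k) (v : V k) : (CL (P := P) j v).card = Fintype.card P * 2 ^ j := by
  unfold CL
  have h1 : (univ.filter fun x : P × V k => flr j x.2 = flr j v) =
      (univ : Finset P) ×ˢ (univ.filter fun v' : V k => flr j v' = flr j v) := by
    ext x
    simp
  rw [h1, Finset.card_product, card_cell hj, Finset.card_univ]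

omit [Nonempty P] in
theorem card_fib {s : Fin n → ℕ} (hs : ∀ i, s i ≤ k) (c : Fin n → V k) :
    (fib P s c).card = ∏ i, (Fintype.card P * 2 ^ (s i)) := by
  unfold fib
  rw [Fintype.card_piFinset]
  exact Finset.prod_congr rfl fun i _ => card_CL (hs i) _

theorem card_fib_pos {s : Fin n → ℕ} (hs : ∀ i, s i ≤ k) (c : Fin n → V k) : 0 < (fib P s c).card := by
  rw [card_fib hs]
  exact Finset.prod_pos fun i _ => Nat.mul_pos Fintype.card_pos (Nat.two_pow_pos _)

omit [Nonempty P] in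
theorem cnt_le (e0 : ℕ) (s : Fin n → ℕ) (ν : Nd k n) (t : V k) : cnt P e0 s ν t ≤ (fib P s ν.2).card :=
  Finset.card_filter_le _ _

/-- a window -/
theorem card_win {e : ℕ} (he : e ≤ k) (z : V k) : ((univ : Finset (V k)).filter fun v => (z - v).val < 2 ^ e).card = 2 ^ e := by
  have hle : (2 : ℕ) ^ e ≤ 2 ^ k := Nat.pow_le_pow_right (by norm_num) he
  conv_rhs => rw [← Finset.card_range (2 ^ e)]
  refine Finset.card_nbij' (fun v => (z - v).val) (fun r : ℕ => z - (r : V k)) ?_ ?_ ?_ ?_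
  · intro v hv
    rw [Finset.mem_coe, Finset.mem_filter] at hv
    exact Finset.mem_coe.2 (Finset.mem_range.2 hv.2)
  · intro r hr
    rw [Finset.mem_coe, Finset.mem_range] at hr
    rw [Finset.mem_coe, Finset.mem_filter]
    refine ⟨Finset.mem_univ _, ?_⟩
    rw [sub_sub_cancel, ZMod.val_natCast_of_lt (lt_of_lt_of_le hr hle)]
    exact hr
  · intro v _
    simp only
    rw [ZMod.natCast_zmod_val, sub_sub_cancel]
  · intro r hr
    rw [Finset.mem_coe, Finset.mem_range] at hr
    simp only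
    rw [sub_sub_cancel, ZMod.val_natCast_of_lt (lt_of_lt_of_le hr hle)]

omit [Nonempty P] in
/-- sum of the number of completions over the group -/
theorem sum_cnt_V {e0 : ℕ} (he : e0 ≤ k) (s : Fin n → ℕ) (ν : Nd k n) :
    ∑ t : V k, cnt P e0 s ν t = 2 ^ e0 * (fib P s ν.2).card := by
  unfold cnt
  simp only [Finset.card_filter]
  rw [Finset.sum_comm]
  have h1 : ∀ o : Fin n → P × V k, ∑ t : V k, (if (ν.1.1 - t - so o).val < 2 ^ e0 then 1 else 0) = 2 ^ e0 := by
    intro o
    rw [← Finset.card_filter]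
    refine Eq.trans ?_ (card_win he (ν.1.1 - so o))
    congr 1
    ext t
    rw [Finset.mem_filter, Finset.mem_filter, sub_right_comm]
  rw [Finset.sum_congr rfl fun o _ => h1 o, Finset.sum_const, smul_eq_mul, mul_comm]

omit [Nonempty P] in
/-- ROW SUMS: `a` exact, `b` free -/
theorem sum_cnt {e0 : ℕ} (he : e0 ≤ k) (s : Fin n → ℕ) (ν : Nd k n) (v : V k) :
    ∑ b : P × V k, cnt P e0 s ν (v + b.2) = Fintype.card P * (2 ^ e0 * (fib P s ν.2).card) := by
  rw [Fintype.sum_prod_type]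
  simp only
  rw [Finset.sum_const, Finset.card_univ, smul_eq_mul]
  congr 1
  rw [← sum_cnt_V he s ν]
  exact Equiv.sum_comp (Equiv.addLeft v) (fun t => cnt P e0 s ν t)

/-- variation of the indicator of a window -/
theorem var_win (z : V k) (L : ℕ) :
    ∑ t : V k, |(if (z - (t + 1)).val < L then (1 : ℝ) else 0) - (if (z - t).val < L then (1 : ℝ) else 0)| ≤ 2 := by
  have h1 : ∀ t : V k, |(if (z - (t + 1)).val < L then (1 : ℝ) else 0) - (if (z - t).val < L then (1 : ℝ) else 0)| ≤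
      (if t = z then (1 : ℝ) else 0) + (if t = z - (L : V k) then (1 : ℝ) else 0) := by
    intro t
    by_cases h0 : z - t = 0
    · have ht : t = z := (sub_eq_zero.mp h0).symm
      rw [if_pos ht]
      have h2 : (0 : ℝ) ≤ (if t = z - (L : V k) then (1 : ℝ) else 0) := by split_ifs <;> norm_num
      have h3 : |(if (z - (t + 1)).val < L then (1 : ℝ) else 0) - (if (z - t).val < L then (1 : ℝ) else 0)| ≤ 1 := by
        split_ifs <;> norm_num
      linarith
    · have hv : (z - t).val ≠ 0 := fun h => h0 ((ZMod.val_eq_zero _).mp h)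
      obtain ⟨m, hm⟩ := Nat.exists_eq_succ_of_ne_zero hv
      have hmk : m < 2 ^ k := by
        have := ZMod.val_lt (z - t)
        omega
      have h4 : (z - (t + 1)) = (m : V k) := by
        have h5 : z - t = ((m + 1 : ℕ) : V k) := by
          rw [← Nat.succ_eq_add_one, ← hm, ZMod.natCast_zmod_val]
        rw [← sub_sub, h5]
        push_cast
        ring
      rw [h4, ZMod.val_natCast_of_lt hmk, hm]
      by_cases hL : m + 1 = L
      · have h6 : t = z - (L : V k) := by
          have h5 : z - t = ((m + 1 : ℕ) : V k) := by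
            rw [← Nat.succ_eq_add_one, ← hm, ZMod.natCast_zmod_val]
          rw [← hL, ← h5, sub_sub_cancel]
        rw [if_pos h6]
        have h2 : (0 : ℝ) ≤ (if t = z then (1 : ℝ) else 0) := by split_ifs <;> norm_num
        have h3 : |(if m < L then (1 : ℝ) else 0) - (if m.succ < L then (1 : ℝ) else 0)| ≤ 1 := by
          split_ifs <;> norm_num
        linarith
      · have h7 : (m < L ↔ m.succ < L) := by omega
        have h2 : (0 : ℝ) ≤ (if t = z then (1 : ℝ) else 0) := by split_ifs <;> norm_num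
        have h3 : (0 : ℝ) ≤ (if t = z - (L : V k) then (1 : ℝ) else 0) := by split_ifs <;> norm_num
        simp only [h7, sub_self, abs_zero]
        linarith
  refine (Finset.sum_le_sum fun t _ => h1 t).trans ?_
  rw [Finset.sum_add_distrib, Finset.sum_ite_eq', Finset.sum_ite_eq', if_pos (Finset.mem_univ _),
    if_pos (Finset.mem_univ _)]
  norm_num

omit [Nonempty P] in
theorem cnt_eq_sum (e0 : ℕ) (s : Fin n → ℕ) (ν : Nd k n) (t : V k) :
    (cnt P e0 s ν t : ℝ) = ∑ o ∈ fib P s ν.2, (if (ν.1.1 - so o - t).val < 2 ^ e0 then (1 : ℝ) else 0) := by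
  unfold cnt
  rw [Finset.card_filter]
  push_cast
  refine Finset.sum_congr rfl fun o _ => ?_
  rw [sub_right_comm]

omit [Nonempty P] in
/-- VARIATION on the circle -/
theorem var_cnt (e0 : ℕ) (s : Fin n → ℕ) (ν : Nd k n) :
    ∑ t : V k, |(cnt P e0 s ν (t + 1) : ℝ) - cnt P e0 s ν t| ≤ 2 * (fib P s ν.2).card := by
  have h1 : ∀ t : V k, |(cnt P e0 s ν (t + 1) : ℝ) - cnt P e0 s ν t| ≤
      ∑ o ∈ fib P s ν.2, |(if (ν.1.1 - so o - (t + 1)).val < 2 ^ e0 then (1 : ℝ) else 0) -
        (if (ν.1.1 - so o - t).val < 2 ^ e0 then (1 : ℝ) else 0)| := by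
    intro t
    rw [cnt_eq_sum, cnt_eq_sum, ← Finset.sum_sub_distrib]
    exact Finset.abs_sum_le_sum_abs _ _
  refine (Finset.sum_le_sum fun t _ => h1 t).trans ?_
  rw [Finset.sum_comm]
  refine (Finset.sum_le_sum fun o _ => var_win (ν.1.1 - so o) (2 ^ e0)).trans (le_of_eq ?_)
  rw [Finset.sum_const, nsmul_eq_mul]
  ring

end law

end

end Pool.Agent.GMC
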