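import Pool.Agent.M3.Model2

/-!
# GMC/Reg: regular classes, chain of overlapping cells, static part of Lemma R (C2.3 (b), (c) of row C; helper30)

`V k = ZMod (2^k)`; `m : V k → ℝ` weights of a class (number of members over a position); `wa m x l` = mass of the arc
`x, .., x+l-1`; `cl σ E v` = left end of the cell of exponent `E` of `v` in the grid with shift `σ`.
`RgC K lmin E σ m v` : the class is regular in the cell of `v`: every sub-arc of length at least `lmin` has at least the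
proportion `1/K` of the mass of the cell (this follows from discrepancy `≤ 2^(-11)`, `RgC_of_prefix`).
`irr` : the position lies in an irregular cell of one of the grids; `ma` : mass of the irregular positions.
-/

set_option autoImplicit false
set_option linter.unusedSectionVars false

namespace Pool.Agent.GMC

open Finset Pool.Agent.M3.Bin

noncomputable section

/-! ## chains on the integers -/

/-- the arcs of length at most `ℓ` have at most `K` times the mass of their sub-arcs of length `≥ lmin`, up to `w` -/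
def Dbl (g : ℕ → ℝ) (n ℓ lmin : ℕ) (K w : ℝ) : Prop :=
  ∀ a a' b' b, a ≤ a' → a' + lmin ≤ b' → b' ≤ b → b ≤ n → b ≤ a + ℓ →
    ∑ i ∈ Ico a b, g i ≤ K * ∑ i ∈ Ico a' b', g i + w

theorem sum_Ico_mono {g : ℕ → ℝ} {n : ℕ} (hg : ∀ i < n, 0 ≤ g i) {a a' b' b : ℕ} (h1 : a ≤ a') (h2 : b' ≤ b)
    (h3 : b ≤ n) : ∑ i ∈ Ico a' b', g i ≤ ∑ i ∈ Ico a b, g i :=
  Finset.sum_le_sum_of_subset_of_nonneg (Finset.Ico_subset_Ico h1 h2) fun i hi _ =>
    hg i ((Finset.mem_Ico.mp hi).2.trans_le h3)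

theorem ext_right {g : ℕ → ℝ} {n ℓ lmin : ℕ} {K w : ℝ} (hg : ∀ i < n, 0 ≤ g i) (hK : 0 ≤ K) (hw : 0 ≤ w)
    (h : Dbl g n ℓ lmin K w) {a b : ℕ} (hab : a + lmin ≤ b) (hb : b ≤ n) (hℓ : lmin ≤ ℓ) (j : ℕ) :
    ∑ i ∈ Ico a (min n (b + j * (ℓ - lmin))), g i + w ≤ (K + 2) ^ j * (∑ i ∈ Ico a b, g i + w) := by
  induction j with
  | zero => simp [min_eq_right hb]
  | succ j ih =>
    set c := min n (b + j * (ℓ - lmin)) with hc
    set d := min n (b + (j + 1) * (ℓ - lmin)) with hd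
    have hbc : b ≤ c := le_min hb (Nat.le_add_right _ _)
    have hcd : c ≤ d := min_le_min le_rfl (by nlinarith [Nat.zero_le (ℓ - lmin)])
    have hdc : d ≤ c + (ℓ - lmin) := by
      rcases min_choice n (b + j * (ℓ - lmin)) with h1 | h1
      · rw [hc, h1]; exact (min_le_left _ _).trans (Nat.le_add_right _ _)
      · rw [hc, h1]; refine (min_le_right _ _).trans (le_of_eq ?_); ring
    have hdn : d ≤ n := min_le_left _ _
    have h1 := h (c - lmin) (c - lmin) c d le_rfl (by omega) hcd hdn (by omega)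
    have h2 : ∑ i ∈ Ico (c - lmin) c, g i ≤ ∑ i ∈ Ico a c, g i :=
      sum_Ico_mono hg (by omega) le_rfl (hcd.trans hdn)
    have h3 : ∑ i ∈ Ico c d, g i ≤ ∑ i ∈ Ico (c - lmin) d, g i := sum_Ico_mono hg (by omega) le_rfl hdn
    have h4 := Finset.sum_Ico_consecutive g (m := a) (n := c) (k := d) (by omega) hcd
    have h5 : 0 ≤ ∑ i ∈ Ico a c, g i := Finset.sum_nonneg fun i hi => hg i (by
      have := (Finset.mem_Ico.mp hi).2; omega)
    have h6 := mul_le_mul_of_nonneg_left h2 hK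
    calc ∑ i ∈ Ico a d, g i + w ≤ (K + 2) * (∑ i ∈ Ico a c, g i + w) := by
          rw [← h4]; nlinarith [mul_nonneg hK hw]
      _ ≤ (K + 2) * ((K + 2) ^ j * (∑ i ∈ Ico a b, g i + w)) := mul_le_mul_of_nonneg_left ih (by linarith)
      _ = _ := by rw [pow_succ]; ring

theorem ext_left {g : ℕ → ℝ} {n ℓ lmin : ℕ} {K w : ℝ} (hg : ∀ i < n, 0 ≤ g i) (hK : 0 ≤ K) (hw : 0 ≤ w)
    (h : Dbl g n ℓ lmin K w) {a b : ℕ} (hab : a + lmin ≤ b) (hb : b ≤ n) (hℓ : lmin ≤ ℓ) (j : ℕ) :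
    ∑ i ∈ Ico (a - j * (ℓ - lmin)) b, g i + w ≤ (K + 2) ^ j * (∑ i ∈ Ico a b, g i + w) := by
  induction j with
  | zero => simp
  | succ j ih =>
    set c := a - j * (ℓ - lmin) with hc
    set d := a - (j + 1) * (ℓ - lmin) with hd
    have hdc : d = c - (ℓ - lmin) := by rw [hd, hc, Nat.sub_sub]; congr 1; ring
    have hca : c ≤ a := Nat.sub_le _ _
    have h1 := h d c (c + lmin) (c + lmin) (by omega) le_rfl le_rfl (by omega) (by omega)
    have h2 : ∑ i ∈ Ico c (c + lmin), g i ≤ ∑ i ∈ Ico c b, g i := sum_Ico_mono hg le_rfl (by omega) hb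
    have h3 : ∑ i ∈ Ico d c, g i ≤ ∑ i ∈ Ico d (c + lmin), g i := sum_Ico_mono hg le_rfl (by omega) (by omega)
    have h4 := Finset.sum_Ico_consecutive g (m := d) (n := c) (k := b) (by omega) (by omega)
    have h5 : 0 ≤ ∑ i ∈ Ico c b, g i := Finset.sum_nonneg fun i hi => hg i (by
      have := (Finset.mem_Ico.mp hi).2; omega)
    have h6 := mul_le_mul_of_nonneg_left h2 hK
    calc ∑ i ∈ Ico d b, g i + w ≤ (K + 2) * (∑ i ∈ Ico c b, g i + w) := by
          rw [← h4]; nlinarith [mul_nonneg hK hw]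
      _ ≤ (K + 2) * ((K + 2) ^ j * (∑ i ∈ Ico a b, g i + w)) := mul_le_mul_of_nonneg_left ih (by linarith)
      _ = _ := by rw [pow_succ]; ring

/-- the whole arc is at most a constant times any sub-arc of length `≥ lmin` -/
theorem ext_all {g : ℕ → ℝ} {n ℓ lmin : ℕ} {K w : ℝ} (hg : ∀ i < n, 0 ≤ g i) (hK : 0 ≤ K) (hw : 0 ≤ w)
    (h : Dbl g n ℓ lmin K w) {a b : ℕ} (hab : a + lmin ≤ b) (hb : b ≤ n) (hℓ : lmin ≤ ℓ) {j : ℕ}
    (hj : n ≤ j * (ℓ - lmin)) :
    ∑ i ∈ range n, g i ≤ (K + 2) ^ (2 * j) * (∑ i ∈ Ico a b, g i + w) := by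
  have h1 := ext_right hg hK hw h hab hb hℓ j
  have e1 : min n (b + j * (ℓ - lmin)) = n := min_eq_left (by omega)
  rw [e1] at h1
  have h2 := ext_left hg hK hw h (a := a) (b := n) (by omega) le_rfl hℓ j
  have e2 : a - j * (ℓ - lmin) = 0 := by omega
  rw [e2, ← Finset.range_eq_Ico] at h2
  calc ∑ i ∈ range n, g i ≤ ∑ i ∈ range n, g i + w := by linarith
    _ ≤ (K + 2) ^ j * (∑ i ∈ Ico a n, g i + w) := h2
    _ ≤ (K + 2) ^ j * ((K + 2) ^ j * (∑ i ∈ Ico a b, g i + w)) := mul_le_mul_of_nonneg_left h1 (by positivity)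
    _ = _ := by rw [two_mul, pow_add]; ring

/-! ## arcs and cells -/

variable {k : ℕ}

/-- mass of the arc `x, .., x+l-1` -/
def wa (m : V k → ℝ) (x : V k) (l : ℕ) : ℝ := ∑ i ∈ range l, m (x + (i : V k))

theorem wa_nonneg {m : V k → ℝ} (hm : ∀ v, 0 ≤ m v) (x : V k) (l : ℕ) : 0 ≤ wa m x l :=
  Finset.sum_nonneg fun _ _ => hm _

/-- a sub-arc in terms of the big arc -/
theorem wa_sub (m : V k → ℝ) (x : V k) (o l : ℕ) : wa m (x + (o : V k)) l = ∑ i ∈ Ico o (o + l), m (x + (i : V k)) := by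
  unfold wa
  rw [Finset.sum_Ico_eq_sum_range, Nat.add_sub_cancel_left]
  refine Finset.sum_congr rfl fun i _ => ?_
  rw [Nat.cast_add, add_assoc]

theorem wa_le {m : V k → ℝ} (hm : ∀ v, 0 ≤ m v) (x : V k) {o l L : ℕ} (h : o + l ≤ L) :
    wa m (x + (o : V k)) l ≤ wa m x L := by
  rw [wa_sub]
  unfold wa
  rw [Finset.range_eq_Ico]
  exact Finset.sum_le_sum_of_subset_of_nonneg (Finset.Ico_subset_Ico (Nat.zero_le _) h) fun _ _ _ => hm _

/-- left end of the cell of exponent `E` of `v` in the grid with shift `σ` -/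
def cl (σ : V k) (E : ℕ) (v : V k) : V k := v - (((v - σ).val % 2 ^ E : ℕ) : V k)

theorem cl_add (σ : V k) (E : ℕ) (v : V k) : cl σ E v + (((v - σ).val % 2 ^ E : ℕ) : V k) = v := by
  unfold cl; ring

/-- points of an arc inside one cell have the same cell -/
theorem cl_eq_of_arc {σ : V k} {E : ℕ} {x : V k} {i : ℕ} (h1 : (x + (i : V k) - σ).val = (x - σ).val + i)
    (h2 : (x + (i : V k) - σ).val / 2 ^ E = (x - σ).val / 2 ^ E) :
    (x - σ).val % 2 ^ E + i < 2 ^ E ∧ cl σ E (x + (i : V k)) = cl σ E x := by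
  have hp : 0 < 2 ^ E := Nat.two_pow_pos E
  rw [h1] at h2
  have d1 := Nat.div_add_mod ((x - σ).val) (2 ^ E)
  have d2 := Nat.div_add_mod ((x - σ).val + i) (2 ^ E)
  rw [h2] at d2
  have hmod : ((x - σ).val + i) % 2 ^ E = (x - σ).val % 2 ^ E + i := by omega
  constructor
  · rw [← hmod]; exact Nat.mod_lt _ hp
  · unfold cl
    rw [h1, hmod, Nat.cast_add]
    ring

/-- the points of a cell: offset and cell -/
theorem cell_pt {E : ℕ} (hE : E ≤ k) (σ v : V k) {o : ℕ} (ho : o < 2 ^ E) :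
    cl σ E (cl σ E v + (o : V k)) = cl σ E v ∧ (cl σ E v + (o : V k) - σ).val % 2 ^ E = o := by
  set u := (v - σ).val with hu
  have hp : 0 < 2 ^ E := Nat.two_pow_pos E
  have hult : u < 2 ^ k := ZMod.val_lt _
  have hdm := Nat.div_add_mod u (2 ^ E)
  have hcs : cl σ E v - σ = ((2 ^ E * (u / 2 ^ E) : ℕ) : V k) := by
    have h1 : ((u : ℕ) : V k) = v - σ := by rw [hu, ZMod.natCast_zmod_val]
    have h2 : ((2 ^ E * (u / 2 ^ E) : ℕ) : V k) + ((u % 2 ^ E : ℕ) : V k) = v - σ := by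
      rw [← Nat.cast_add, hdm, h1]
    unfold cl
    rw [← hu, eq_sub_of_add_eq h2]
    ring
  have hlt : 2 ^ E * (u / 2 ^ E) + o < 2 ^ k := by
    have h1 : 2 ^ k = 2 ^ E * 2 ^ (k - E) := by rw [← pow_add]; congr 1; omega
    have h2 : u / 2 ^ E < 2 ^ (k - E) := by
      rw [Nat.div_lt_iff_lt_mul hp, mul_comm, ← h1]; exact hult
    rw [h1]
    calc 2 ^ E * (u / 2 ^ E) + o < 2 ^ E * (u / 2 ^ E) + 2 ^ E := by omega
      _ = 2 ^ E * (u / 2 ^ E + 1) := by ring
      _ ≤ _ := Nat.mul_le_mul_left _ h2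
  have hval : (cl σ E v + (o : V k) - σ).val = 2 ^ E * (u / 2 ^ E) + o := by
    have h1 : cl σ E v + (o : V k) - σ = ((2 ^ E * (u / 2 ^ E) + o : ℕ) : V k) := by
      rw [Nat.cast_add, ← hcs]; ring
    rw [h1, ZMod.val_natCast, Nat.mod_eq_of_lt hlt]
  have hmod : (cl σ E v + (o : V k) - σ).val % 2 ^ E = o := by
    rw [hval, Nat.mul_add_mod, Nat.mod_eq_of_lt ho]
  refine ⟨?_, hmod⟩
  have : cl σ E (cl σ E v + (o : V k)) = cl σ E v + (o : V k) -
    (((cl σ E v + (o : V k) - σ).val % 2 ^ E : ℕ) : V k) := rfl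
  rw [this, hmod]
  ring

/-- the class with weights `m` is regular in the cell of `v` -/
def RgC (K : ℝ) (lmin E : ℕ) (σ : V k) (m : V k → ℝ) (v : V k) : Prop :=
  ∀ o l : ℕ, o + l ≤ 2 ^ E → lmin ≤ l → wa m (cl σ E v) (2 ^ E) ≤ K * wa m (cl σ E v + (o : V k)) l

theorem RgC_congr {K : ℝ} {lmin E : ℕ} {σ : V k} {m : V k → ℝ} {v v' : V k} (h : cl σ E v = cl σ E v') :
    RgC K lmin E σ m v ↔ RgC K lmin E σ m v' := by
  unfold RgC
  rw [h]

/-- the position lies in an irregular cell of one of the grids -/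
def irr {ι : Type*} (K : ℝ) (lmin E : ℕ) (sh : ι → V k) (m : V k → ℝ) (v : V k) : Prop :=
  ∃ s, ¬ RgC K lmin E (sh s) m v

open Classical in
/-- the part of the weights on irregular positions -/
def mi {ι : Type*} (K : ℝ) (lmin E : ℕ) (sh : ι → V k) (m : V k → ℝ) (v : V k) : ℝ :=
  if irr K lmin E sh m v then m v else 0

/-- the grids: every arc of length `l`, `4 l ≤ 2^E`, lies in one cell of one grid -/
def Grids {ι : Type*} (E : ℕ) (sh : ι → V k) : Prop :=
  ∀ (x : V k) (l : ℕ), 4 * l ≤ 2 ^ E → ∃ s, ∀ i : ℕ, i < l → (x + (i : V k) - sh s).val = (x - sh s).val + i ∧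
    (x + (i : V k) - sh s).val / 2 ^ E = (x - sh s).val / 2 ^ E

theorem mi_nonneg {ι : Type*} {K : ℝ} {lmin E : ℕ} {sh : ι → V k} {m : V k → ℝ} (hm : ∀ v, 0 ≤ m v) (v : V k) :
    0 ≤ mi K lmin E sh m v := by
  unfold mi
  split_ifs
  · exact hm v
  · exact le_rfl

theorem mi_le {ι : Type*} {K : ℝ} {lmin E : ℕ} {sh : ι → V k} {m : V k → ℝ} (hm : ∀ v, 0 ≤ m v) (v : V k) :
    mi K lmin E sh m v ≤ m v := by
  unfold mi
  split_ifs
  · exact le_rfl
  · exact hm v

/-- one arc of length at most `2^E / 4` -/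
theorem arc_step {ι : Type*} {K : ℝ} {lmin E : ℕ} {sh : ι → V k} (hG : Grids E sh) {m : V k → ℝ}
    (hm : ∀ v, 0 ≤ m v) (x : V k) {l : ℕ} (hl : 4 * l ≤ 2 ^ E) {o' l' : ℕ} (h' : o' + l' ≤ l) (hl' : lmin ≤ l')
    (hK : 0 ≤ K) (hl0 : 0 < l) :
    wa m x l ≤ K * wa m (x + (o' : V k)) l' + wa (mi K lmin E sh m) x l ∧
      ((∀ s, RgC K lmin E (sh s) m x) → wa m x l ≤ K * wa m (x + (o' : V k)) l') := by
  obtain ⟨s, hs⟩ := hG x l hl
  have hreg : RgC K lmin E (sh s) m x → wa m x l ≤ K * wa m (x + (o' : V k)) l' := by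
    intro hr
    have h1 := (cl_eq_of_arc (hs (l - 1) (by omega)).1 (hs (l - 1) (by omega)).2).1
    set o := (x - sh s).val % 2 ^ E with ho
    have hx : cl (sh s) E x + (o : V k) = x := cl_add _ _ _
    have h2 := hr (o + o') l' (by omega) hl'
    rw [Nat.cast_add, ← add_assoc, hx] at h2
    have h3 := wa_le hm (cl (sh s) E x) (o := o) (l := l) (L := 2 ^ E) (by omega)
    rw [hx] at h3
    exact h3.trans h2
  have hnn := mul_nonneg hK (wa_nonneg hm (x + (o' : V k)) l')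
  refine ⟨?_, fun h => hreg (h s)⟩
  by_cases hr : RgC K lmin E (sh s) m x
  · have h1 := hreg hr
    have h2 := wa_nonneg (mi_nonneg (K := K) (lmin := lmin) (E := E) (sh := sh) hm) x l
    linarith
  · have h1 : wa m x l = wa (mi K lmin E sh m) x l := by
      unfold wa
      refine Finset.sum_congr rfl fun i hi => ?_
      have hi' := Finset.mem_range.mp hi
      have hc := (cl_eq_of_arc (hs i hi').1 (hs i hi').2).2
      have : irr K lmin E sh m (x + (i : V k)) := ⟨s, fun h => hr ((RgC_congr hc).mp h)⟩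
      unfold mi
      rw [if_pos this]
    linarith

/-- CHAIN, regular case: if all cells which meet the arc `x, .., x+n-1` are regular -/
theorem chain_reg {ι : Type*} {K : ℝ} {lmin E : ℕ} {sh : ι → V k} (hG : Grids E sh) {m : V k → ℝ}
    (hm : ∀ v, 0 ≤ m v) (hK : 0 ≤ K) {ℓ : ℕ} (hℓ : 4 * ℓ ≤ 2 ^ E) (hlm : lmin ≤ ℓ) {x : V k} {n : ℕ}
    (hR : ∀ i : ℕ, i < n → ∀ s, RgC K lmin E (sh s) m (x + (i : V k))) {j : ℕ} (hj : n ≤ j * (ℓ - lmin)) {o l : ℕ}
    (ho : o + l ≤ n) (hl : lmin ≤ l) :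
    wa m x n ≤ (K + 2) ^ (2 * j) * wa m (x + (o : V k)) l := by
  have hD : Dbl (fun i => m (x + (i : V k))) n ℓ lmin K 0 := by
    intro a a' b' b h1 h2 h3 h4 h5
    rw [add_zero]
    rcases Nat.eq_or_lt_of_le (show a ≤ b by omega) with h0 | h0
    · rw [h0, Finset.Ico_self, Finset.sum_empty]
      exact mul_nonneg hK (Finset.sum_nonneg fun _ _ => hm _)
    have h6 := (arc_step (K := K) (lmin := lmin) hG hm (x + (a : V k)) (l := b - a) (by omega) (o' := a' - a)
      (l' := b' - a') (by omega) (by omega) hK (by omega)).2 (hR a (by omega))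
    rw [wa_sub, show a + (b - a) = b by omega, add_assoc, ← Nat.cast_add, wa_sub,
      show a + (a' - a) = a' by omega, show a' + (b' - a') = b' by omega] at h6
    exact h6
  have h := ext_all (g := fun i => m (x + (i : V k))) (fun i _ => hm _) hK le_rfl hD (a := o) (b := o + l)
    (by omega) ho hlm hj
  rw [add_zero, ← wa_sub] at h
  exact h

/-- CHAIN, general case: up to the mass of the irregular positions of the arc -/
theorem chain_irr {ι : Type*} {K : ℝ} {lmin E : ℕ} {sh : ι → V k} (hG : Grids E sh) {m : V k → ℝ}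
    (hm : ∀ v, 0 ≤ m v) (hK : 0 ≤ K) {ℓ : ℕ} (hℓ : 4 * ℓ ≤ 2 ^ E) (hlm : lmin ≤ ℓ) {x : V k} {n : ℕ}
    {j : ℕ} (hj : n ≤ j * (ℓ - lmin)) {o l : ℕ} (ho : o + l ≤ n) (hl : lmin ≤ l) :
    wa m x n ≤ (K + 2) ^ (2 * j) * (wa m (x + (o : V k)) l + wa (mi K lmin E sh m) x n) := by
  have hmi : ∀ v, 0 ≤ mi K lmin E sh m v := mi_nonneg hm
  have hD : Dbl (fun i => m (x + (i : V k))) n ℓ lmin K (wa (mi K lmin E sh m) x n) := by
    intro a a' b' b h1 h2 h3 h4 h5
    rcases Nat.eq_or_lt_of_le (show a ≤ b by omega) with h0 | h0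
    · rw [h0, Finset.Ico_self, Finset.sum_empty]
      exact add_nonneg (mul_nonneg hK (Finset.sum_nonneg fun _ _ => hm _)) (wa_nonneg hmi _ _)
    have h6 := (arc_step (K := K) (lmin := lmin) hG hm (x + (a : V k)) (l := b - a) (by omega) (o' := a' - a)
      (l' := b' - a') (by omega) (by omega) hK (by omega)).1
    have h7 : wa (mi K lmin E sh m) (x + (a : V k)) (b - a) ≤ wa (mi K lmin E sh m) x n :=
      wa_le hmi x (by omega)
    rw [wa_sub, show a + (b - a) = b by omega, add_assoc, ← Nat.cast_add, wa_sub,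
      show a + (a' - a) = a' by omega, show a' + (b' - a') = b' by omega] at h6
    exact h6.trans (by linarith)
  have h := ext_all (g := fun i => m (x + (i : V k))) (fun i _ => hm _) hK (wa_nonneg hmi x n) hD (a := o)
    (b := o + l) (by omega) ho hlm hj
  rw [← wa_sub] at h
  exact h

/-- NOT REGULAR: if a cell which meets the arc is irregular, the mass of the arc is at most a constant times the mass of
the irregular positions of the arc enlarged by one cell on both sides -/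
theorem chain_not_reg {ι : Type*} {K : ℝ} {lmin E : ℕ} {sh : ι → V k} (hE : E ≤ k) (hG : Grids E sh) {m : V k → ℝ}
    (hm : ∀ v, 0 ≤ m v) (hK : 0 ≤ K) {ℓ : ℕ} (hℓ : 4 * ℓ ≤ 2 ^ E) (hlm : lmin ≤ ℓ) {x : V k} {n : ℕ}
    (hR : ∃ i : ℕ, i < n ∧ irr K lmin E sh m (x + (i : V k))) {j : ℕ} (hj : n + 2 * 2 ^ E ≤ j * (ℓ - lmin)) :
    wa m x n ≤ 2 * (K + 2) ^ (2 * j) * wa (mi K lmin E sh m) (x - ((2 ^ E : ℕ) : V k)) (n + 2 * 2 ^ E) := by
  obtain ⟨i, hi, s, hs⟩ := hR
  have hp : 0 < 2 ^ E := Nat.two_pow_pos E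
  have hmi : ∀ v, 0 ≤ mi K lmin E sh m v := mi_nonneg hm
  set y : V k := x - ((2 ^ E : ℕ) : V k) with hy
  set r := (x + (i : V k) - sh s).val % 2 ^ E with hr
  have hr1 : r < 2 ^ E := Nat.mod_lt _ hp
  -- the irregular cell
  set c : V k := cl (sh s) E (x + (i : V k)) with hc
  have hc1 : y + ((2 ^ E + i - r : ℕ) : V k) = c := by
    have h1 : c + (r : V k) = x + (i : V k) := cl_add _ _ _
    rw [Nat.cast_sub (by omega), Nat.cast_add, hy]
    rw [eq_sub_of_add_eq h1]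
    ring
  have hirr : ∀ o : ℕ, o < 2 ^ E → irr K lmin E sh m (c + (o : V k)) := by
    intro o ho
    refine ⟨s, fun h => hs ?_⟩
    exact (RgC_congr (cell_pt hE (sh s) (x + (i : V k)) ho).1).mp h
  have hwc : wa m c (2 ^ E) = wa (mi K lmin E sh m) c (2 ^ E) := by
    unfold wa
    refine Finset.sum_congr rfl fun o ho => ?_
    unfold mi
    rw [if_pos (hirr o (Finset.mem_range.mp ho))]
  have hcl : wa (mi K lmin E sh m) c (2 ^ E) ≤ wa (mi K lmin E sh m) y (n + 2 * 2 ^ E) := by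
    rw [← hc1]
    exact wa_le hmi y (by omega)
  have h1 := chain_irr (K := K) (lmin := lmin) hG hm hK hℓ hlm (x := y) (n := n + 2 * 2 ^ E) hj
    (o := 2 ^ E + i - r) (l := 2 ^ E) (by omega) (by omega)
  rw [hc1, hwc] at h1
  have h2 : wa m x n ≤ wa m y (n + 2 * 2 ^ E) := by
    have h3 : y + ((2 ^ E : ℕ) : V k) = x := by rw [hy]; ring
    have h4 := wa_le hm y (o := 2 ^ E) (l := n) (L := n + 2 * 2 ^ E) (by omega)
    rwa [h3] at h4
  have h5 : 0 ≤ (K + 2) ^ (2 * j) := by positivity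
  calc wa m x n ≤ wa m y (n + 2 * 2 ^ E) := h2
    _ ≤ _ := h1
    _ ≤ (K + 2) ^ (2 * j) * (wa (mi K lmin E sh m) y (n + 2 * 2 ^ E) + wa (mi K lmin E sh m) y (n + 2 * 2 ^ E)) :=
        mul_le_mul_of_nonneg_left (by linarith) h5
    _ = _ := by ring

end

end Pool.Agent.GMC
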