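import Pool.Agent.GMC.StepK

/-!
# GMC/Step: the general step (A_k), (B_k) of C2.5 from `Sys.Hyp` (helper91)

`Sys.Hyp.step` : main index `(i, k+1)` (`i = ⊤` or `i = k+1`), kill indices `(i, k)` and `(i2, k+1)`.
-/

set_option autoImplicit false
set_option linter.unusedSectionVars false

namespace Pool.Agent.GMC

open Finset Pool.Agent.PWZ Pool.Agent.M3

noncomputable section

variable {Om : Type*} [Fintype Om] {Nd κA κB : Type*}

theorem okd_top (L : ℕ) : okd L ⊤ := Or.inl rfl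

theorem okd_nat {L k : ℕ} (h : k ≤ L) : okd L (k : ℕ∞) := Or.inr ⟨k, h, rfl⟩

section

variable {S : Sys Om Nd κA κB} {P : FP Om} {T L : ℕ} {r q y0 bv : ℝ} {x bud : ℕ → ℝ} {nr : ℕ → ℕ → ℝ}

/-- the indices are filtrations -/
theorem Sys.Hyp.Ix_step (h : S.Hyp P T L r q y0 bv x bud nr) {i j : ℕ∞} (hi : okd L i) (hj : okd L j) {t : ℕ}
    (ht : t < T) : Fac (S.Ix i j (t + 1)) (S.Ix i j t) := by
  intro v w hvw
  unfold Sys.Ix at hvw ⊢
  simp only [Prod.mk.injEq] at hvw ⊢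
  obtain ⟨h1, h2, h3⟩ := hvw
  exact ⟨h.nuF t ht v w h1, h.refA i hi t ht v w (Prod.ext h1 h2), h.refB j hj t ht v w (Prod.ext h1 h3)⟩

theorem Sys.Hyp.Ix_le (h : S.Hyp P T L r q y0 bv x bud nr) {i j : ℕ∞} (hi : okd L i) (hj : okd L j) {s t : ℕ}
    (hst : s ≤ t) (ht : t ≤ T) : Fac (S.Ix i j t) (S.Ix i j s) := by
  induction t with
  | zero => have : s = 0 := by omega
            subst this; exact Fac.refl _
  | succ t ih =>
    rcases Nat.lt_or_ge s (t + 1) with h' | h'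
    · exact (h.Ix_step hi hj (by omega)).trans (ih (by omega) (by omega))
    · have : s = t + 1 := by omega
      subst this; exact Fac.refl _

/-- the finer index determines the coarser one -/
theorem Sys.Hyp.Ix_nest (h : S.Hyp P T L r q y0 bv x bud nr) {i j i' j' : ℕ∞} (hi : okd L i) (hj : okd L j)
    (hi' : okd L i') (hj' : okd L j') (hii : i' ≤ i) (hjj : j' ≤ j) {t : ℕ} (ht : t ≤ T) :
    Fac (S.Ix i j t) (S.Ix i' j' t) := by
  intro v w hvw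
  unfold Sys.Ix at hvw ⊢
  simp only [Prod.mk.injEq] at hvw ⊢
  obtain ⟨h1, h2, h3⟩ := hvw
  exact ⟨h1, h.nestA i' i hi' hi hii t ht v w (Prod.ext h1 h2), h.nestB j' j hj' hj hjj t ht v w (Prod.ext h1 h3)⟩

theorem Sys.Ix_nu (S : Sys Om Nd κA κB) (i j : ℕ∞) (t : ℕ) : Fac (S.Ix i j t) (S.nu t) := by
  intro v w hvw
  unfold Sys.Ix at hvw
  simp only [Prod.mk.injEq] at hvw
  exact hvw.1

/-- continuation: same index, same bit, no entry -/
theorem Sys.Hyp.Ix_cont (h : S.Hyp P T L r q y0 bv x bud nr) {i j : ℕ∞} (hi : okd L i) (hj : okd L j) {t : ℕ}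
    (ht : t < T) {v w : Om} (h1 : S.Ix i j t v = S.Ix i j t w) (h2 : S.D (t + 1) v = S.D (t + 1) w)
    (hv : ¬ (S.entA i (t + 1) v ∨ S.entB j (t + 1) v)) (hw : ¬ (S.entA i (t + 1) w ∨ S.entB j (t + 1) w)) :
    S.Ix i j (t + 1) v = S.Ix i j (t + 1) w := by
  unfold Sys.Ix at h1 ⊢
  simp only [Prod.mk.injEq] at h1 ⊢
  obtain ⟨a1, a2, a3⟩ := h1
  push Not at hv hw
  have hn := h.nuD t ht v w a1 h2
  exact ⟨hn, h.contA i hi t ht v w hn a2 hv.1 hw.1, h.contB j hj t ht v w hn a3 hv.2 hw.2⟩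

/-- squares of biases of a pair index -/
theorem Sys.Hyp.bias_le (h : S.Hyp P T L r q y0 bv x bud nr) {i : ℕ∞} (hi : okd L i) {j : ℕ} (hj : j ≤ L) {t : ℕ}
    (ht : t < T) {w : Om} (_ : P.p w ≠ 0) :
    P.ce (S.Ix i j t) (S.D (t + 1)) w ^ 2 ≤ P.ce (S.Ix i j t) (S.bB j t) w := by
  have hF : Fac (S.Ix ⊤ j t) (S.Ix i j t) := h.Ix_nest (okd_top L) (okd_nat hj) hi (okd_nat hj) le_top le_rfl ht.le
  rw [← P.ce_tower hF (S.D (t + 1))]
  have h1 := P.ce_sq_le (S.Ix i j t) (P.ce (S.Ix ⊤ j t) (S.D (t + 1))) w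
  have h2 : P.ce (S.Ix i j t) (fun v => P.ce (S.Ix ⊤ j t) (S.D (t + 1)) v ^ 2) w ≤ P.ce (S.Ix i j t) (S.bB j t) w :=
    P.ce_mono (fun v hv => h.biasB j hj t ht v hv) w
  exact h1.trans h2

theorem Sys.Hyp.E_bias_le (h : S.Hyp P T L r q y0 bv x bud nr) {i : ℕ∞} (hi : okd L i) {j : ℕ} (hj : j ≤ L) :
    ∑ t ∈ range T, P.E (fun w => P.ce (S.Ix i j t) (S.D (t + 1)) w ^ 2) ≤ bud j := by
  refine le_trans (Finset.sum_le_sum fun t ht => ?_) (h.sbB j hj)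
  rw [← P.E_ce (S.Ix i j t) (S.bB j t)]
  exact P.E_mono fun w hw => h.bias_le hi hj (Finset.mem_range.1 ht) hw

/-- the exceptional `b` given a pair index -/
theorem Sys.Hyp.exB_reg' (h : S.Hyp P T L r q y0 bv x bud nr) {i : ℕ∞} (hi : okd L i) {l j : ℕ} (hlj : l ≤ j) (hj : j ≤ L)
    {t : ℕ} (ht : t ≤ T) {w : Om} (hw : P.p w ≠ 0) :
    P.ce (S.Ix i l t) (fun v => ind (S.exB r i j t v ∧ S.regB l t v)) w ≤ x j := by
  have hF : Fac (S.Ix ⊤ l t) (S.Ix i l t) :=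
    h.Ix_nest (okd_top L) (okd_nat (hlj.trans hj)) hi (okd_nat (hlj.trans hj)) le_top le_rfl ht
  rw [← P.ce_tower hF]
  exact P.ce_le_const (fun v hv => h.exB_reg i hi l j hlj hj t ht v hv) hw

theorem Sys.Hyp.exA_reg' (h : S.Hyp P T L r q y0 bv x bud nr) {j : ℕ∞} (hj : okd L j) {l i : ℕ} (hli : l ≤ i) (hi : i ≤ L)
    {t : ℕ} (ht : t ≤ T) {w : Om} (hw : P.p w ≠ 0) :
    P.ce (S.Ix l j t) (fun v => ind (S.exA r i j t v ∧ S.regA l t v)) w ≤ x i := by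
  have hF : Fac (S.Ix l ⊤ t) (S.Ix l j t) :=
    h.Ix_nest (okd_nat (hli.trans hi)) (okd_top L) (okd_nat (hli.trans hi)) hj le_rfl le_top ht
  rw [← P.ce_tower hF]
  exact P.ce_le_const (fun v hv => h.exA_reg l i hli hi j hj t ht v hv) hw

/-- union of two events under a conditional expectation -/
theorem ce_or_le (P : FP Om) {κ : Type*} (X : Om → κ) (s u : Om → Prop) (w : Om) :
    P.ce X (fun v => ind (s v ∨ u v)) w ≤ P.ce X (fun v => ind (s v)) w + P.ce X (fun v => ind (u v)) w := by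
  rw [← P.ce_add]
  exact P.ce_mono (fun v _ => ind_or_le _ _) w

/-- weights, same time -/
theorem E_ind_mul_le (P : FP Om) {κ : Type*} {G : Om → κ} {f : Om → ℝ} (hf : Fac G f) (hf0 : ∀ w, 0 ≤ f w) {s : Om → Prop}
    {y : ℝ} (hs : ∀ w, P.p w ≠ 0 → P.ce G (fun v => ind (s v)) w ≤ y) :
    P.E (fun w => ind (s w) * f w) ≤ y * P.E f := by
  have h := wtx P hf hf0 (s := s) (x := y) (fun w hw _ => hs w hw)
  refine le_trans (le_of_eq ?_) h
  exact P.E_congr fun w _ => mul_comm _ _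

/-- weights, next time -/
theorem E_ind_mul_le_two (P : FP Om) {κ κ' : Type*} {G : Om → κ} {G' : Om → κ'} (hGG : Fac G' G)
    (hm : ∀ w, P.p w ≠ 0 → P.m G w ≤ 2 * P.m G' w) {f : Om → ℝ} (hf : Fac G' f) (hf0 : ∀ w, 0 ≤ f w) {s : Om → Prop}
    {y : ℝ} (hs : ∀ w, P.p w ≠ 0 → P.ce G (fun v => ind (s v)) w ≤ y) :
    P.E (fun w => ind (s w) * f w) ≤ 2 * y * P.E f := by
  refine E_ind_mul_le P hf hf0 fun w hw => ?_
  have h1 := ce_two P hGG (f := fun v => ind (s v)) (fun _ _ => ind_nonneg _) hw (hm w hw)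
  have h2 := hs w hw
  linarith

theorem Sys.Hyp.GA_step (h : S.Hyp P T L r q y0 bv x bud nr) {t : ℕ} (ht : t < T) : Fac (S.GA (t + 1)) (S.GA t) := by
  intro v w hvw
  unfold Sys.GA at hvw ⊢
  simp only [Prod.mk.injEq] at hvw ⊢
  exact ⟨h.nuF t ht v w hvw.1, h.refA ⊤ (okd_top L) t ht v w (Prod.ext hvw.1 hvw.2)⟩

theorem Sys.Hyp.GB_step (h : S.Hyp P T L r q y0 bv x bud nr) {t : ℕ} (ht : t < T) : Fac (S.GB (t + 1)) (S.GB t) := by
  intro v w hvw
  unfold Sys.GB at hvw ⊢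
  simp only [Prod.mk.injEq] at hvw ⊢
  exact ⟨h.nuF t ht v w hvw.1, h.refB ⊤ (okd_top L) t ht v w (Prod.ext hvw.1 hvw.2)⟩

/-- THE GENERAL STEP.  Main index `(i, k+1)`, kill indices `(i, k)` and `(i2, k+1)`. -/
theorem Sys.Hyp.step (h : S.Hyp P T L r q y0 bv x bud nr) {k : ℕ} (hk : k + 1 ≤ L) {i : ℕ∞} (hi : okd L i)
    (hi' : i = ⊤ ∨ i = ((k + 1 : ℕ) : ℕ∞)) {i2 a1 : ℕ} (hi2 : i2 ≤ a1) (ha1 : a1 ≤ k + 1) (hka : k ≤ a1)
    (hent2 : i2 ≤ k + 1) (c R ρ1 ρ2 : ℝ) (hc : 0 ≤ c)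
    (hB : ∀ t w, S.X i k t w < ρ1 → c < S.X i (k + 1 : ℕ) t w → S.exB r i k t w ∨ S.exB r i (k + 1) t w)
    (hA : ∀ t w, S.X i2 (k + 1 : ℕ) t w < ρ2 → c < S.X i (k + 1 : ℕ) t w →
      S.exA r a1 (k + 1 : ℕ) t w ∨ S.exA r (k + 1) (k + 1 : ℕ) t w) :
    (R - c) * P.Pr (fun w => (∃ t ≤ T, R ≤ S.X i (k + 1 : ℕ) t w) ∧ ¬ (∃ t ≤ T, ρ1 ≤ S.X i k t w) ∧
      ¬ (∃ t ≤ T, ρ2 ≤ S.X i2 (k + 1 : ℕ) t w)) ≤
      2 * x k * (9 + (q + 32) * bud (k + 1) + 2 * bv) + (nr k k + nr (k + 1) k) + (nr a1 i2 + nr (k + 1) i2) := by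
  have hkL : k ≤ L := by omega
  have ha1L : a1 ≤ L := by omega
  have hi2L : i2 ≤ L := by omega
  have oj : okd L ((k + 1 : ℕ) : ℕ∞) := okd_nat hk
  have ojk : okd L (k : ℕ∞) := okd_nat hkL
  have oi2 : okd L (i2 : ℕ∞) := okd_nat hi2L
  have hi2i : (i2 : ℕ∞) ≤ i := by
    rcases hi' with e | e
    · rw [e]; exact le_top
    · rw [e]; exact_mod_cast hent2
  have hkk : ((k : ℕ) : ℕ∞) ≤ ((k + 1 : ℕ) : ℕ∞) := by exact_mod_cast Nat.le_succ k
  -- numbers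
  have hx0 := h.x0 k
  have hxk1 : x (k + 1) ≤ x k := h.x_anti k (k + 1) (Nat.le_succ k)
  have hxa1 : x a1 ≤ x k := h.x_anti k a1 hka
  have hbk : bud k ≤ bud (k + 1) := h.bud_mono k (k + 1) (Nat.le_succ k)
  have hbi2 : bud i2 ≤ bud (k + 1) := h.bud_mono i2 (k + 1) hent2
  have hbud0 : 0 ≤ bud (k + 1) := by
    refine le_trans (Finset.sum_nonneg fun t _ => P.Pr_nonneg _) (h.seA (k + 1) hk)
  have hbv := h.bv0
  have hq := h.q0
  -- events
  set hot : ℕ → Om → Prop := fun t w => (∃ s ≤ t, ρ1 ≤ S.X i k s w) ∨ (∃ s ≤ t, ρ2 ≤ S.X i2 (k + 1 : ℕ) s w) with hhot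
  set Xm : ℕ → Om → ℝ := S.X i (k + 1 : ℕ) with hXm
  set ent : ℕ → Om → Prop := fun t w => S.entA ((k + 1 : ℕ) : ℕ∞) t w ∨ S.entB ((k + 1 : ℕ) : ℕ∞) t w with hent
  set ent1 : ℕ → Om → Prop := fun t w => S.entA i t w ∨ S.entB (k : ℕ∞) t w with hent1
  set ent2 : ℕ → Om → Prop := fun t w => S.entA (i2 : ℕ∞) t w ∨ S.entB ((k + 1 : ℕ) : ℕ∞) t w with hent2d
  set dr1 : ℕ → Om → Prop := drp P (S.Ix i k) (S.X i k) S.D ρ1 ent1 with hdr1
  set dr2 : ℕ → Om → Prop := drp P (S.Ix i2 (k + 1 : ℕ)) (S.X i2 (k + 1 : ℕ)) S.D ρ2 ent2 with hdr2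
  set dr : ℕ → Om → Prop := fun t w => dr1 t w ∨ dr2 t w with hdr
  set be2 : ℕ → Om → ℝ := fun t w => P.ce (S.Ix i (k + 1 : ℕ) t) (S.D (t + 1)) w ^ 2 with hbe2
  set d : ℕ → Om → ℝ := fun t w => S.dA i t w + S.dB ((k + 1 : ℕ) : ℕ∞) t w with hd
  set ac : ℕ → Om → Prop := act Xm hot c with hac
  -- entries of `a` of the depth `i` are entries of the depth `k+1`
  have hentA : ∀ t w, S.entA i t w → S.entA ((k + 1 : ℕ) : ℕ∞) t w := by
    intro t w hh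
    rcases hi' with e | e
    · rw [e] at hh; exact absurd hh (h.entAtop t w)
    · rw [e] at hh; exact hh
  have hent1' : ∀ t w, ent1 t w → ent t w := by
    intro t w hh
    rcases hh with hh | hh
    · exact Or.inl (hentA t w hh)
    · exact Or.inr (h.entBmono _ _ ojk oj hkk (ENat.natCast_ne_top _) t w hh)
  have hent2' : ∀ t w, ent2 t w → ent t w := by
    intro t w hh
    rcases hh with hh | hh
    · exact Or.inl (h.entAmono _ _ oi2 oj (by exact_mod_cast hent2) (ENat.natCast_ne_top _) t w hh)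
    · exact Or.inr hh
  -- active implies exceptional
  have hacB : ∀ t w, ac t w → S.exB r i k t w ∨ S.exB r i (k + 1) t w := by
    intro t w ha
    obtain ⟨hnh, hcx⟩ := ha
    refine hB t w ?_ hcx
    by_contra hcon
    exact hnh (Or.inl ⟨t, le_refl _, not_lt.1 hcon⟩)
  have hacA : ∀ t w, ac t w → S.exA r a1 (k + 1 : ℕ) t w ∨ S.exA r (k + 1) (k + 1 : ℕ) t w := by
    intro t w ha
    obtain ⟨hnh, hcx⟩ := ha
    refine hA t w ?_ hcx
    by_contra hcon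
    exact hnh (Or.inr ⟨t, le_refl _, not_lt.1 hcon⟩)
  -- filtration
  have hFs : ∀ s t, s ≤ t → t ≤ T → Fac (S.Ix i (k + 1 : ℕ) t) (S.Ix i (k + 1 : ℕ) s) :=
    fun s t hst ht => h.Ix_le hi oj hst ht
  have hF1 : ∀ t ≤ T, Fac (S.Ix i (k + 1 : ℕ) t) (S.Ix i k t) := fun t ht => h.Ix_nest hi oj hi ojk le_rfl hkk ht
  have hF2 : ∀ t ≤ T, Fac (S.Ix i (k + 1 : ℕ) t) (S.Ix i2 (k + 1 : ℕ) t) := fun t ht => h.Ix_nest hi oj oi2 oj hi2i le_rfl ht
  have hhotF : ∀ t ≤ T, ∀ v w, S.Ix i (k + 1 : ℕ) t v = S.Ix i (k + 1 : ℕ) t w → (hot t v ↔ hot t w) := by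
    intro t ht v w hvw
    have e1 : ∀ s ≤ t, S.X i k s v = S.X i k s w := fun s hs =>
      h.XF i k hi ojk s (hs.trans ht) v w (hF1 s (hs.trans ht) v w (hFs s t hs ht v w hvw))
    have e2 : ∀ s ≤ t, S.X i2 (k + 1 : ℕ) s v = S.X i2 (k + 1 : ℕ) s w := fun s hs =>
      h.XF i2 (k + 1 : ℕ) oi2 oj s (hs.trans ht) v w (hF2 s (hs.trans ht) v w (hFs s t hs ht v w hvw))
    constructor
    · rintro (⟨s, hs, h'⟩ | ⟨s, hs, h'⟩)
      · exact Or.inl ⟨s, hs, by rw [← e1 s hs]; exact h'⟩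
      · exact Or.inr ⟨s, hs, by rw [← e2 s hs]; exact h'⟩
    · rintro (⟨s, hs, h'⟩ | ⟨s, hs, h'⟩)
      · exact Or.inl ⟨s, hs, by rw [e1 s hs]; exact h'⟩
      · exact Or.inr ⟨s, hs, by rw [e2 s hs]; exact h'⟩
  have hdrF : ∀ t ≤ T, ∀ v w, S.Ix i (k + 1 : ℕ) t v = S.Ix i (k + 1 : ℕ) t w → (dr t v ↔ dr t w) := by
    intro t ht v w hvw
    simp only [hdr, hdr1, hdr2]
    rw [drp_fac P _ _ _ _ _ t v w (hF1 t ht v w hvw), drp_fac P _ _ _ _ _ t v w (hF2 t ht v w hvw)]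
  have hXF : ∀ t ≤ T, Fac (S.Ix i (k + 1 : ℕ) t) (Xm t) := fun t ht => h.XF i _ hi oj t ht
  have hacF : ∀ t ≤ T, Fac (S.Ix i (k + 1 : ℕ) t) (fun w => ind (ac t w)) := fun t ht => Fac.ind fun v w hvw => by
    simp only [hac]
    unfold act
    rw [hXF t ht v w hvw, hhotF t ht v w hvw]
  -- the potential lemma
  have hpot := pot P (S.Ix i (k + 1 : ℕ)) T Xm (S.Y i (k + 1 : ℕ)) d be2 hot dr ent q c R hc hq hFs hXF hhotF hdrF
    (fun t w => h.X1 _ _ t w) (fun t w => h.Y1 _ _ t w) (fun t w => add_nonneg (h.dA0 _ _ _) (h.dB0 _ _ _))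
    (fun t w => sq_nonneg _) (fun t ht w hw _ _ => h.psd i _ hi oj t ht w hw)
    (by
      intro t ht w hw ha hnd hne
      obtain ⟨hnh, hcx⟩ := ha
      refine ⟨?_, ?_⟩
      · rintro (⟨s, hs, h'⟩ | ⟨s, hs, h'⟩)
        · rcases Nat.lt_or_ge s (t + 1) with hst | hst
          · exact hnh (Or.inl ⟨s, by omega, h'⟩)
          · have : s = t + 1 := by omega
            subst this
            exact hnd (Or.inl (Or.inr ⟨w, hw, rfl, fun hh => hne (hent1' _ _ hh), h'⟩))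
        · rcases Nat.lt_or_ge s (t + 1) with hst | hst
          · exact hnh (Or.inr ⟨s, by omega, h'⟩)
          · have : s = t + 1 := by omega
            subst this
            exact hnd (Or.inr (Or.inr ⟨w, hw, rfl, fun hh => hne (hent2' _ _ hh), h'⟩))
      · exact h.loss i _ hi oj t ht w hw (fun hh => hne (Or.inl (hentA _ _ hh))) (fun hh => hne (Or.inr hh)))
  -- sparse bounds of the active set
  have sA : ∀ t ≤ T, ∀ w, P.p w ≠ 0 → P.ce (S.GA t) (fun v => ind (ac t v)) w ≤ 2 * x k := by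
    intro t ht w hw
    have e1 := h.exB_le i hi k hkL t ht w hw
    have e2 := h.exB_le i hi (k + 1) hk t ht w hw
    have e3 : P.ce (S.GA t) (fun v => ind (ac t v)) w ≤
        P.ce (S.GA t) (fun v => ind (S.exB r i k t v ∨ S.exB r i (k + 1) t v)) w :=
      P.ce_mono (fun v _ => ind_mono (hacB t v)) w
    have e4 := ce_or_le P (S.GA t) (fun v => S.exB r i k t v) (fun v => S.exB r i (k + 1) t v) w
    linarith
  have sB : ∀ t ≤ T, ∀ w, P.p w ≠ 0 → P.ce (S.GB t) (fun v => ind (ac t v)) w ≤ 2 * x k := by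
    intro t ht w hw
    have e1 := h.exA_le a1 ha1L _ oj t ht w hw
    have e2 := h.exA_le (k + 1) hk _ oj t ht w hw
    have e3 : P.ce (S.GB t) (fun v => ind (ac t v)) w ≤
        P.ce (S.GB t) (fun v => ind (S.exA r a1 (k + 1 : ℕ) t v ∨ S.exA r (k + 1) (k + 1 : ℕ) t v)) w :=
      P.ce_mono (fun v _ => ind_mono (hacA t v)) w
    have e4 := ce_or_le P (S.GB t) (fun v => S.exA r a1 (k + 1 : ℕ) t v) (fun v => S.exA r (k + 1) (k + 1 : ℕ) t v) w
    linarith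
  -- the last time
  have l0 : P.Pr (fun w => ac T w) ≤ 2 * x k := by
    unfold FP.Pr
    rw [← P.E_ce (S.GA T)]
    exact P.E_le_const fun w hw => sA T (le_refl _) w hw
  -- biases
  have l1 : ∑ t ∈ range T, P.E (fun w => ind (ac t w) * be2 t w) ≤ 2 * x k * bud (k + 1) := by
    refine le_trans (Finset.sum_le_sum (g := fun t => 2 * x k * P.E (S.bB (k + 1) t)) fun t ht => ?_) ?_
    · have ht' := Finset.mem_range.1 ht
      have e1 : P.E (fun w => ind (ac t w) * be2 t w) ≤ P.E (fun w => ind (ac t w) * S.bB (k + 1) t w) := by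
        rw [← P.E_mul_ce (hacF t ht'.le) (S.bB (k + 1) t)]
        exact P.E_mono fun w hw => mul_le_mul_of_nonneg_left (h.bias_le hi hk ht' hw) (ind_nonneg _)
      by_cases hne : ∃ w, P.p w ≠ 0 ∧ S.bB (k + 1) t w < 0
      · -- impossible: `bB` is a bound of a square
        obtain ⟨w, hw, hlt⟩ := hne
        have := h.biasB (k + 1) hk t ht' w hw
        have := sq_nonneg (P.ce (S.Ix ⊤ (k + 1 : ℕ) t) (S.D (t + 1)) w)
        linarith
      · push Not at hne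
        -- replace `bB` by its positive part
        set f : Om → ℝ := fun w => max (S.bB (k + 1) t w) 0 with hf
        have hfF : Fac (S.GB t) f := fun v w hvw => by
          show max _ _ = max _ _
          rw [h.bBF (k + 1) hk t ht' v w hvw]
        have e2 := E_ind_mul_le P hfF (fun w => le_max_right _ _) (sB t ht'.le)
        have e3 : P.E (fun w => ind (ac t w) * f w) = P.E (fun w => ind (ac t w) * S.bB (k + 1) t w) :=
          P.E_congr fun w hw => by rw [hf]; simp only []; rw [max_eq_left (hne w hw)]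
        have e4 : P.E f = P.E (S.bB (k + 1) t) :=
          P.E_congr fun w hw => by rw [hf]; simp only []; rw [max_eq_left (hne w hw)]
        rw [e3, e4] at e2
        exact e1.trans e2
    · rw [← Finset.mul_sum]
      exact mul_le_mul_of_nonneg_left (h.sbB (k + 1) hk) (by linarith)
  -- versions and removals
  have l2 : ∑ t ∈ range T, P.E (fun w => ind (ac t w) * S.dA i (t + 1) w) ≤ 2 * (2 * x k) * (bv + bud (k + 1)) := by
    refine le_trans (Finset.sum_le_sum (g := fun t => 2 * (2 * x k) * P.E (S.dA i (t + 1))) fun t ht => ?_) ?_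
    · have ht' := Finset.mem_range.1 ht
      exact E_ind_mul_le_two P (h.GA_step ht') (h.fairA t ht') (h.dAF i hi t ht') (fun w => h.dA0 _ _ _) (sA t ht'.le)
    · rw [← Finset.mul_sum]
      refine mul_le_mul_of_nonneg_left ?_ (by linarith)
      rcases hi' with e | e
      · rw [e]; have := h.svA; linarith
      · rw [e]; have := h.sdA (k + 1) hk; linarith
  have l3 : ∑ t ∈ range T, P.E (fun w => ind (ac t w) * S.dB ((k + 1 : ℕ) : ℕ∞) (t + 1) w) ≤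
      2 * (2 * x k) * bud (k + 1) := by
    refine le_trans (Finset.sum_le_sum (g := fun t => 2 * (2 * x k) * P.E (S.dB ((k + 1 : ℕ) : ℕ∞) (t + 1))) fun t ht => ?_) ?_
    · have ht' := Finset.mem_range.1 ht
      exact E_ind_mul_le_two P (h.GB_step ht') (h.fairB t ht') (h.dBF _ oj t ht') (fun w => h.dB0 _ _ _) (sB t ht'.le)
    · rw [← Finset.mul_sum]
      exact mul_le_mul_of_nonneg_left (h.sdB (k + 1) hk) (by linarith)
  -- entries
  have l4 : ∑ t ∈ range T, P.E (fun w => ind (ac t w) * ind (ent (t + 1) w)) ≤ 2 * (2 * x k) * (2 * bud (k + 1)) := by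
    refine le_trans (Finset.sum_le_sum (g := fun t => 2 * (2 * x k) * (P.Pr (S.entA ((k + 1 : ℕ) : ℕ∞) (t + 1)) +
      P.Pr (S.entB ((k + 1 : ℕ) : ℕ∞) (t + 1)))) fun t ht => ?_) ?_
    · have ht' := Finset.mem_range.1 ht
      have e1 := E_ind_mul_le_two P (h.GA_step ht') (h.fairA t ht')
        (f := fun w => ind (S.entA ((k + 1 : ℕ) : ℕ∞) (t + 1) w)) (Fac.ind (h.entAF _ oj t ht')) (fun w => ind_nonneg _)
        (sA t ht'.le)
      have e2 := E_ind_mul_le_two P (h.GB_step ht') (h.fairB t ht')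
        (f := fun w => ind (S.entB ((k + 1 : ℕ) : ℕ∞) (t + 1) w)) (Fac.ind (h.entBF _ oj t ht')) (fun w => ind_nonneg _)
        (sB t ht'.le)
      have e3 : P.E (fun w => ind (ac t w) * ind (ent (t + 1) w)) ≤
          P.E (fun w => ind (ac t w) * ind (S.entA ((k + 1 : ℕ) : ℕ∞) (t + 1) w)) +
            P.E (fun w => ind (ac t w) * ind (S.entB ((k + 1 : ℕ) : ℕ∞) (t + 1) w)) := by
        rw [← P.E_add]
        refine P.E_mono fun w _ => ?_
        rw [← mul_add]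
        exact mul_le_mul_of_nonneg_left (ind_or_le _ _) (ind_nonneg _)
      unfold FP.Pr
      linarith
    · rw [← Finset.mul_sum, Finset.sum_add_distrib]
      refine mul_le_mul_of_nonneg_left ?_ (by linarith)
      have := h.seA (k + 1) hk
      have := h.seB (k + 1) hk
      linarith
  -- kill index 1
  have sumE1 : ∑ t ∈ range T, P.Pr (ent1 (t + 1)) ≤ 2 * bud (k + 1) := by
    refine le_trans (Finset.sum_le_sum (g := fun t => P.Pr (S.entA ((k + 1 : ℕ) : ℕ∞) (t + 1)) +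
      P.Pr (S.entB ((k + 1 : ℕ) : ℕ∞) (t + 1))) fun t _ => ?_) ?_
    · exact (P.Pr_mono fun w _ hw => hent1' _ _ hw).trans (P.Pr_or_le _ _)
    · rw [Finset.sum_add_distrib]
      have := h.seA (k + 1) hk
      have := h.seB (k + 1) hk
      linarith
  have sumE2 : ∑ t ∈ range T, P.Pr (ent2 (t + 1)) ≤ 2 * bud (k + 1) := by
    refine le_trans (Finset.sum_le_sum (g := fun t => P.Pr (S.entA ((k + 1 : ℕ) : ℕ∞) (t + 1)) +
      P.Pr (S.entB ((k + 1 : ℕ) : ℕ∞) (t + 1))) fun t _ => ?_) ?_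
    · exact (P.Pr_mono fun w _ hw => hent2' _ _ hw).trans (P.Pr_or_le _ _)
    · rw [Finset.sum_add_distrib]
      have := h.seA (k + 1) hk
      have := h.seB (k + 1) hk
      linarith
  have nrsub : ∀ (f : ℕ → ℝ), (∀ t, 0 ≤ f t) → ∑ t ∈ range T, f t ≤ ∑ t ∈ range (T + 1), f t := by
    intro f hf
    rw [Finset.sum_range_succ]; linarith [hf T]
  have l5 : ∑ t ∈ range T, P.E (fun w => ind (ac t w) * ind (dr1 t w)) ≤
      2 * x k * (4 * bud (k + 1) + 4 * (1 + 2 * bud (k + 1))) + (nr k k + nr (k + 1) k) := by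
    refine kill_cost P (S.Ix i k) S.nu T (S.X i k) S.D ρ1 ent1 ac (S.regB k) (2 * x k) (nr k k + nr (k + 1) k)
      (bud (k + 1)) (2 * bud (k + 1)) (by linarith) (fun t ht => h.Ix_step hi ojk ht) (fun t ht => h.XF i k hi ojk t ht)
      (fun t ht => S.Ix_nu i k t) (fun t ht w => h.D01 t ht w)
      (fun t ht v w h1 h2 h3 h4 => h.Ix_cont hi ojk ht h1 h2 h3 h4) ?_ ?_ ?_ ?_ sumE1
    · intro t ht w ha s hs
      by_contra hcon
      exact ha.1 (Or.inl ⟨s, hs, not_lt.1 hcon⟩)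
    · intro t ht w hw
      have e1 := h.exB_reg' hi (le_refl k) hkL ht.le hw
      have e2 := h.exB_reg' hi (Nat.le_succ k) hk ht.le hw
      have e3 : P.ce (S.Ix i k t) (fun v => ind (ac t v ∧ S.regB k t v)) w ≤
          P.ce (S.Ix i k t) (fun v => ind ((S.exB r i k t v ∧ S.regB k t v) ∨ (S.exB r i (k + 1) t v ∧ S.regB k t v))) w :=
        P.ce_mono (fun v _ => ind_mono fun hh => (hacB t v hh.1).elim (fun a => Or.inl ⟨a, hh.2⟩) (fun a => Or.inr ⟨a, hh.2⟩)) w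
      have e4 := ce_or_le P (S.Ix i k t) (fun v => S.exB r i k t v ∧ S.regB k t v)
        (fun v => S.exB r i (k + 1) t v ∧ S.regB k t v) w
      linarith
    · have e1 := h.exB_nr i hi k k (le_refl k) hkL
      have e2 := h.exB_nr i hi k (k + 1) (Nat.le_succ k) hk
      have e1' := nrsub (fun t => P.Pr (fun w => S.exB r i k t w ∧ ¬ S.regB k t w)) (fun t => P.Pr_nonneg _)
      have e2' := nrsub (fun t => P.Pr (fun w => S.exB r i (k + 1) t w ∧ ¬ S.regB k t w)) (fun t => P.Pr_nonneg _)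
      have e3 : ∑ t ∈ range T, P.Pr (fun w => ac t w ∧ ¬ S.regB k t w) ≤
          ∑ t ∈ range T, (P.Pr (fun w => S.exB r i k t w ∧ ¬ S.regB k t w) +
            P.Pr (fun w => S.exB r i (k + 1) t w ∧ ¬ S.regB k t w)) :=
        Finset.sum_le_sum fun t _ => (P.Pr_mono fun w _ hh =>
          (hacB t w hh.1).elim (fun a => Or.inl ⟨a, hh.2⟩) (fun a => Or.inr ⟨a, hh.2⟩)).trans (P.Pr_or_le _ _)
      rw [Finset.sum_add_distrib] at e3
      linarith
    · exact (h.E_bias_le hi hkL).trans hbk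
  have l6 : ∑ t ∈ range T, P.E (fun w => ind (ac t w) * ind (dr2 t w)) ≤
      2 * x k * (4 * bud (k + 1) + 4 * (1 + 2 * bud (k + 1))) + (nr a1 i2 + nr (k + 1) i2) := by
    refine kill_cost P (S.Ix i2 (k + 1 : ℕ)) S.nu T (S.X i2 (k + 1 : ℕ)) S.D ρ2 ent2 ac (S.regA i2) (2 * x k)
      (nr a1 i2 + nr (k + 1) i2)
      (bud (k + 1)) (2 * bud (k + 1)) (by linarith) (fun t ht => h.Ix_step oi2 oj ht) (fun t ht => h.XF _ _ oi2 oj t ht)
      (fun t ht => S.Ix_nu _ _ t) (fun t ht w => h.D01 t ht w)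
      (fun t ht v w h1 h2 h3 h4 => h.Ix_cont oi2 oj ht h1 h2 h3 h4) ?_ ?_ ?_ ?_ sumE2
    · intro t ht w ha s hs
      by_contra hcon
      exact ha.1 (Or.inr ⟨s, hs, not_lt.1 hcon⟩)
    · intro t ht w hw
      have e1 := h.exA_reg' oj hi2 ha1L ht.le hw
      have e2 := h.exA_reg' oj hent2 hk ht.le hw
      have e3 : P.ce (S.Ix i2 (k + 1 : ℕ) t) (fun v => ind (ac t v ∧ S.regA i2 t v)) w ≤
          P.ce (S.Ix i2 (k + 1 : ℕ) t) (fun v => ind ((S.exA r a1 (k + 1 : ℕ) t v ∧ S.regA i2 t v) ∨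
            (S.exA r (k + 1) (k + 1 : ℕ) t v ∧ S.regA i2 t v))) w :=
        P.ce_mono (fun v _ => ind_mono fun hh => (hacA t v hh.1).elim (fun a => Or.inl ⟨a, hh.2⟩) (fun a => Or.inr ⟨a, hh.2⟩)) w
      have e4 := ce_or_le P (S.Ix i2 (k + 1 : ℕ) t) (fun v => S.exA r a1 (k + 1 : ℕ) t v ∧ S.regA i2 t v)
        (fun v => S.exA r (k + 1) (k + 1 : ℕ) t v ∧ S.regA i2 t v) w
      linarith
    · have e1 := h.exA_nr i2 a1 hi2 ha1L _ oj
      have e2 := h.exA_nr i2 (k + 1) hent2 hk _ oj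
      have e1' := nrsub (fun t => P.Pr (fun w => S.exA r a1 (k + 1 : ℕ) t w ∧ ¬ S.regA i2 t w)) (fun t => P.Pr_nonneg _)
      have e2' := nrsub (fun t => P.Pr (fun w => S.exA r (k + 1) (k + 1 : ℕ) t w ∧ ¬ S.regA i2 t w)) (fun t => P.Pr_nonneg _)
      have e3 : ∑ t ∈ range T, P.Pr (fun w => ac t w ∧ ¬ S.regA i2 t w) ≤
          ∑ t ∈ range T, (P.Pr (fun w => S.exA r a1 (k + 1 : ℕ) t w ∧ ¬ S.regA i2 t w) +
            P.Pr (fun w => S.exA r (k + 1) (k + 1 : ℕ) t w ∧ ¬ S.regA i2 t w)) :=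
        Finset.sum_le_sum fun t _ => (P.Pr_mono fun w _ hh =>
          (hacA t w hh.1).elim (fun a => Or.inl ⟨a, hh.2⟩) (fun a => Or.inr ⟨a, hh.2⟩)).trans (P.Pr_or_le _ _)
      rw [Finset.sum_add_distrib] at e3
      linarith
    · exact h.E_bias_le oi2 hk
  -- all losses together
  have hsplit : ∑ t ∈ range T, P.E (fun w => ind (act Xm hot c t w) *
      (q * be2 t w + d (t + 1) w + ind (ent (t + 1) w) + ind (dr t w))) ≤
      q * ∑ t ∈ range T, P.E (fun w => ind (ac t w) * be2 t w) +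
      ∑ t ∈ range T, P.E (fun w => ind (ac t w) * S.dA i (t + 1) w) +
      ∑ t ∈ range T, P.E (fun w => ind (ac t w) * S.dB ((k + 1 : ℕ) : ℕ∞) (t + 1) w) +
      ∑ t ∈ range T, P.E (fun w => ind (ac t w) * ind (ent (t + 1) w)) +
      ∑ t ∈ range T, P.E (fun w => ind (ac t w) * ind (dr1 t w)) +
      ∑ t ∈ range T, P.E (fun w => ind (ac t w) * ind (dr2 t w)) := by
    rw [Finset.mul_sum, ← Finset.sum_add_distrib, ← Finset.sum_add_distrib, ← Finset.sum_add_distrib,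
      ← Finset.sum_add_distrib, ← Finset.sum_add_distrib]
    refine Finset.sum_le_sum fun t _ => ?_
    rw [← P.E_smul, ← P.E_add, ← P.E_add, ← P.E_add, ← P.E_add, ← P.E_add]
    refine P.E_mono fun w _ => ?_
    have e1 := ind_or_le (dr1 t w) (dr2 t w)
    have e2 : 0 ≤ ind (ac t w) := ind_nonneg _
    have e3 : ind (act Xm hot c t w) * (q * be2 t w + d (t + 1) w + ind (ent (t + 1) w) + ind (dr t w)) ≤
        ind (ac t w) * (q * be2 t w + d (t + 1) w + ind (ent (t + 1) w) + (ind (dr1 t w) + ind (dr2 t w))) :=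
      mul_le_mul_of_nonneg_left (by linarith) e2
    refine e3.trans (le_of_eq ?_)
    simp only [hd]
    ring
  -- the event
  have hev : P.Pr (fun w => (∃ t ≤ T, R ≤ S.X i (k + 1 : ℕ) t w) ∧ ¬ (∃ t ≤ T, ρ1 ≤ S.X i k t w) ∧
      ¬ (∃ t ≤ T, ρ2 ≤ S.X i2 (k + 1 : ℕ) t w)) ≤ P.Pr (fun w => ∃ t ≤ T, R ≤ Xm t w ∧ ¬ hot t w) := by
    refine P.Pr_mono fun w _ hw => ?_
    obtain ⟨⟨t, ht, hR⟩, h1, h2⟩ := hw
    refine ⟨t, ht, hR, ?_⟩
    rintro (⟨s, hs, h'⟩ | ⟨s, hs, h'⟩)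
    · exact h1 ⟨s, hs.trans ht, h'⟩
    · exact h2 ⟨s, hs.trans ht, h'⟩
  have hPr1 := P.Pr_nonneg (fun w => (∃ t ≤ T, R ≤ S.X i (k + 1 : ℕ) t w) ∧ ¬ (∃ t ≤ T, ρ1 ≤ S.X i k t w) ∧
      ¬ (∃ t ≤ T, ρ2 ≤ S.X i2 (k + 1 : ℕ) t w))
  have hfin : (R - c) * P.Pr (fun w => ∃ t ≤ T, R ≤ Xm t w ∧ ¬ hot t w) ≤
      2 * x k * (9 + (q + 32) * bud (k + 1) + 2 * bv) + (nr k k + nr (k + 1) k) + (nr a1 i2 + nr (k + 1) i2) := by
    have e1 := mul_le_mul_of_nonneg_left l1 hq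
    have e2 : 2 * x k * (9 + (q + 32) * bud (k + 1) + 2 * bv) = 2 * x k + q * (2 * x k * bud (k + 1)) +
        2 * (2 * x k) * (bv + bud (k + 1)) + 2 * (2 * x k) * bud (k + 1) + 2 * (2 * x k) * (2 * bud (k + 1)) +
        (2 * x k * (4 * bud (k + 1) + 4 * (1 + 2 * bud (k + 1)))) * 2 := by ring
    rw [e2]
    linarith
  by_cases hRc : 0 ≤ R - c
  · exact (mul_le_mul_of_nonneg_left hev hRc).trans hfin
  · push Not at hRc
    have e1 : (R - c) * P.Pr (fun w => (∃ t ≤ T, R ≤ S.X i (k + 1 : ℕ) t w) ∧ ¬ (∃ t ≤ T, ρ1 ≤ S.X i k t w) ∧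
      ¬ (∃ t ≤ T, ρ2 ≤ S.X i2 (k + 1 : ℕ) t w)) ≤ 0 := mul_nonpos_of_nonpos_of_nonneg hRc.le hPr1
    have e2 : 0 ≤ 2 * x k * (9 + (q + 32) * bud (k + 1) + 2 * bv) := by positivity
    have n1 : 0 ≤ nr k k := le_trans (Finset.sum_nonneg fun t _ => P.Pr_nonneg _) (h.exB_nr i hi k k (le_refl k) hkL)
    have n2 : 0 ≤ nr (k + 1) k := le_trans (Finset.sum_nonneg fun t _ => P.Pr_nonneg _) (h.exB_nr i hi k (k + 1) (Nat.le_succ k) hk)
    have n3 : 0 ≤ nr a1 i2 := le_trans (Finset.sum_nonneg fun t _ => P.Pr_nonneg _) (h.exA_nr i2 a1 hi2 ha1L _ oj)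
    have n4 : 0 ≤ nr (k + 1) i2 := le_trans (Finset.sum_nonneg fun t _ => P.Pr_nonneg _) (h.exA_nr i2 (k + 1) hent2 hk _ oj)
    linarith

end

end

end Pool.Agent.GMC
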