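import Pool.Agent.GMC.Sys

/-!
# GMC/StepK: the cost of one kill index (C2.4 (iv)), abstract (helper91)

`J t` = kill index, `Z t` its process, `ρ` its threshold, `D (t+1)` the bit, `ent (t+1)` its entries.
`drp` : times at which the potential is dropped (bias > 1/2, or a continuing child is hot); `kill_cost`.
-/

set_option autoImplicit false
set_option linter.unusedSectionVars false

namespace Pool.Agent.GMC

open Finset Pool.Agent.PWZ Pool.Agent.M3

noncomputable section

variable {Om : Type*} [Fintype Om]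

/-- conditional expectations depend on the fibre only -/
theorem ce_mono_fibre (P : FP Om) {κ : Type*} {X : Om → κ} {f g : Om → ℝ} {w : Om}
    (h : ∀ v, P.p v ≠ 0 → X v = X w → f v ≤ g v) : P.ce X f w ≤ P.ce X g w := by
  unfold FP.ce
  have h0 := P.m_nonneg X w
  refine div_le_div_of_nonneg_right (P.E_mono fun v hv => ?_) h0
  by_cases hx : X v = X w
  · rw [ind_of hx, one_mul, one_mul]; exact h v hv hx
  · rw [ind_not hx, zero_mul, zero_mul]

/-- the times at which the potential is dropped because of the kill index `J` -/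
def drp (P : FP Om) {κ : Type*} (J : ℕ → Om → κ) (Z D : ℕ → Om → ℝ) (ρ : ℝ) (ent : ℕ → Om → Prop) (t : ℕ) (w : Om) :
    Prop :=
  1 / 2 < |P.ce (J t) (D (t + 1)) w| ∨ ∃ v, P.p v ≠ 0 ∧ J t v = J t w ∧ ¬ ent (t + 1) v ∧ ρ ≤ Z (t + 1) v

theorem drp_fac (P : FP Om) {κ : Type*} (J : ℕ → Om → κ) (Z D : ℕ → Om → ℝ) (ρ : ℝ) (ent : ℕ → Om → Prop) (t : ℕ)
    (v w : Om) (h : J t v = J t w) : drp P J Z D ρ ent t v ↔ drp P J Z D ρ ent t w := by
  unfold drp
  rw [P.ce_fac (J t) (D (t + 1)) v w h, h]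

/-- a value of the bit has conditional probability at least 1/4 if the bias is at most 1/2 -/
theorem quarter (P : FP Om) {κ ν : Type*} {J : Om → κ} {nu : Om → ν} (hnu : Fac J nu) {D : Om → ℝ} {w v : Om}
    (hw : P.p w ≠ 0) (hv : J v = J w)
    (hD : (∀ v, nu v = nu w → D v = 0) ∨ (∀ v, nu v = nu w → D v = 1 ∨ D v = -1))
    (hb : |P.ce J D w| ≤ 1 / 2) : 1 / 4 ≤ P.ce J (fun u => ind (D u = D v)) w := by
  have hb' := abs_le.1 hb
  have hvn : nu v = nu w := hnu v w hv
  rcases hD with h0 | h1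
  · have h2 : P.ce J (fun _ => (1 : ℝ)) w ≤ P.ce J (fun u => ind (D u = D v)) w := by
      refine ce_mono_fibre P fun u _ hu => ?_
      rw [ind_of (by rw [h0 u (hnu u w hu), h0 v hvn])]
    rw [P.ce_const J 1 hw] at h2
    linarith
  · rcases h1 v hvn with e | e
    · have h2 : P.ce J (fun u => 1 / 2 + 1 / 2 * D u) w ≤ P.ce J (fun u => ind (D u = D v)) w := by
        refine ce_mono_fibre P fun u _ hu => ?_
        rcases h1 u (hnu u w hu) with e' | e'
        · rw [ind_of (by rw [e, e']), e']; norm_num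
        · rw [e']
          have := ind_nonneg ((-1 : ℝ) = D v)
          linarith
      rw [P.ce_add J (fun _ => (1 / 2 : ℝ)) (fun u => 1 / 2 * D u), P.ce_const J _ hw, P.ce_smul J (1 / 2) D] at h2
      linarith
    · have h2 : P.ce J (fun u => 1 / 2 + -(1 / 2) * D u) w ≤ P.ce J (fun u => ind (D u = D v)) w := by
        refine ce_mono_fibre P fun u _ hu => ?_
        rcases h1 u (hnu u w hu) with e' | e'
        · rw [e']
          have := ind_nonneg ((1 : ℝ) = D v)
          linarith
        · rw [ind_of (by rw [e, e']), e']; norm_num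
      rw [P.ce_add J (fun _ => (1 / 2 : ℝ)) (fun u => -(1 / 2) * D u), P.ce_const J _ hw, P.ce_smul J (-(1 / 2)) D] at h2
      linarith

/-- THE COST OF A KILL INDEX -/
theorem kill_cost (P : FP Om) {κ ν : Type*} (J : ℕ → Om → κ) (nu : ℕ → Om → ν) (T : ℕ) (Z D : ℕ → Om → ℝ) (ρ : ℝ)
    (ent act reg : ℕ → Om → Prop) (x NR b e : ℝ) (hx : 0 ≤ x)
    (hJ : ∀ t < T, Fac (J (t + 1)) (J t))
    (hZF : ∀ t ≤ T, Fac (J t) (Z t))
    (hnu : ∀ t < T, Fac (J t) (nu t))
    (hD : ∀ t < T, ∀ w, (∀ v, nu t v = nu t w → D (t + 1) v = 0) ∨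
      (∀ v, nu t v = nu t w → D (t + 1) v = 1 ∨ D (t + 1) v = -1))
    (hcont : ∀ t < T, ∀ v w, J t v = J t w → D (t + 1) v = D (t + 1) w → ¬ ent (t + 1) v → ¬ ent (t + 1) w →
      J (t + 1) v = J (t + 1) w)
    (hact : ∀ t < T, ∀ w, act t w → ∀ s ≤ t, Z s w < ρ)
    (hreg : ∀ t < T, ∀ w, P.p w ≠ 0 → P.ce (J t) (fun v => ind (act t v ∧ reg t v)) w ≤ x)
    (hnr : ∑ t ∈ range T, P.Pr (fun w => act t w ∧ ¬ reg t w) ≤ NR)
    (hb : ∑ t ∈ range T, P.E (fun w => P.ce (J t) (D (t + 1)) w ^ 2) ≤ b)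
    (he : ∑ t ∈ range T, P.Pr (ent (t + 1)) ≤ e) :
    ∑ t ∈ range T, P.E (fun w => ind (act t w) * ind (drp P J Z D ρ ent t w)) ≤ x * (4 * b + 4 * (1 + e)) + NR := by
  set kil : ℕ → Om → Prop := fun t w => ∃ s ≤ t, ρ ≤ Z s w with hkil
  set bad : ℕ → Om → Prop := fun t w => 1 / 2 < |P.ce (J t) (D (t + 1)) w| with hbad
  set pre : ℕ → Om → Prop := fun t w => (∃ v, P.p v ≠ 0 ∧ J t v = J t w ∧ ¬ ent (t + 1) v ∧ ρ ≤ Z (t + 1) v) ∧
    ¬ bad t w with hpre
  -- J is a filtration
  have hJs : ∀ s t, s ≤ t → t ≤ T → Fac (J t) (J s) := by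
    intro s t hst
    induction t with
    | zero => intro _; have : s = 0 := by omega
              subst this; exact Fac.refl _
    | succ t ih =>
      intro ht
      rcases Nat.lt_or_ge s (t + 1) with h | h
      · exact (hJ t (by omega)).trans (ih (by omega) (by omega))
      · have : s = t + 1 := by omega
        subst this; exact Fac.refl _
  have hkF : ∀ t ≤ T, ∀ v w, J t v = J t w → (kil t v ↔ kil t w) := by
    intro t ht v w hvw
    simp only [hkil]
    refine exists_congr fun s => ?_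
    constructor
    · rintro ⟨hs, h⟩
      exact ⟨hs, by rw [← hZF s (hs.trans ht) v w (hJs s t hs ht v w hvw)]; exact h⟩
    · rintro ⟨hs, h⟩
      exact ⟨hs, by rw [hZF s (hs.trans ht) v w (hJs s t hs ht v w hvw)]; exact h⟩
  have hbF : ∀ t, ∀ v w, J t v = J t w → (bad t v ↔ bad t w) := by
    intro t v w hvw
    simp only [hbad]
    rw [P.ce_fac (J t) (D (t + 1)) v w hvw]
  have hpF : ∀ t ≤ T, ∀ v w, J t v = J t w → (pre t v ↔ pre t w) := by
    intro t _ v w hvw
    simp only [hpre]
    rw [hbF t v w hvw, hvw]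
  have hq : ∀ t < T, ∀ w, P.p w ≠ 0 → ¬ kil t w → pre t w →
      1 / 4 ≤ P.ce (J t) (fun v => ind (kil (t + 1) v ∨ ent (t + 1) v)) w := by
    intro t ht w hw _ hp
    obtain ⟨⟨v, hv, hvw, hve, hvZ⟩, hnb⟩ := hp
    have h1 := quarter P (hnu t ht) hw hvw (hD t ht w) (not_lt.1 hnb)
    refine h1.trans (ce_mono_fibre P fun u _ hu => ?_)
    by_cases hDu : D (t + 1) u = D (t + 1) v
    · refine ind_mono (fun _ => ?_)
      by_cases hue : ent (t + 1) u
      · exact Or.inr hue
      · left
        have hJe := hcont t ht u v (hu.trans hvw.symm) hDu hue hve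
        exact ⟨t + 1, le_refl _, by rw [hZF (t + 1) ht u v hJe]; exact hvZ⟩
    · rw [ind_not hDu]; exact ind_nonneg _
  have c1 := pre_count P J T kil pre ent (fun t _ w ⟨s, hs, h⟩ => ⟨s, by omega, h⟩) hkF hpF hq
  have c2 := bad_count P T (fun t => P.ce (J t) (D (t + 1)))
  -- one time
  have step : ∀ t ∈ range T, P.E (fun w => ind (act t w) * ind (drp P J Z D ρ ent t w)) ≤
      x * (P.Pr (fun w => bad t w) + P.Pr (fun w => ¬ kil t w ∧ pre t w)) + P.Pr (fun w => act t w ∧ ¬ reg t w) := by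
    intro t ht
    have ht' := Finset.mem_range.1 ht
    set f : Om → ℝ := fun w => ind (¬ kil t w ∧ drp P J Z D ρ ent t w) with hf
    have hfF : Fac (J t) f := Fac.ind (fun v w hvw => by
      rw [hkF t ht'.le v w hvw, drp_fac P J Z D ρ ent t v w hvw])
    have e1 : P.E (fun w => ind (act t w) * ind (drp P J Z D ρ ent t w)) ≤
        P.E (fun w => f w * ind (act t w ∧ reg t w)) + P.Pr (fun w => act t w ∧ ¬ reg t w) := by
      unfold FP.Pr
      rw [← P.E_add]
      refine P.E_mono fun w _ => ?_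
      by_cases ha : act t w
      · by_cases hd : drp P J Z D ρ ent t w
        · by_cases hr : reg t w
          · have hnk : ¬ kil t w := by
              rintro ⟨s, hs, h⟩
              exact absurd (hact t ht' w ha s hs) (not_lt.2 h)
            rw [ind_of ha, ind_of hd, hf]
            simp only []
            rw [ind_of (⟨hnk, hd⟩ : ¬ kil t w ∧ drp P J Z D ρ ent t w), ind_of (⟨ha, hr⟩ : act t w ∧ reg t w)]
            have := ind_nonneg (act t w ∧ ¬ reg t w)
            linarith
          · rw [ind_of ha, ind_of hd, ind_of (⟨ha, hr⟩ : act t w ∧ ¬ reg t w)]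
            have h1 := ind_nonneg (¬ kil t w ∧ drp P J Z D ρ ent t w)
            have h2 := ind_nonneg (act t w ∧ reg t w)
            have := mul_nonneg h1 h2
            linarith
        · rw [ind_not hd, mul_zero]
          have h1 := ind_nonneg (¬ kil t w ∧ drp P J Z D ρ ent t w)
          have h2 := ind_nonneg (act t w ∧ reg t w)
          have h3 := ind_nonneg (act t w ∧ ¬ reg t w)
          have := mul_nonneg h1 h2
          linarith
      · rw [ind_not ha, zero_mul]
        have h1 := ind_nonneg (¬ kil t w ∧ drp P J Z D ρ ent t w)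
        have h2 := ind_nonneg (act t w ∧ reg t w)
        have h3 := ind_nonneg (act t w ∧ ¬ reg t w)
        have := mul_nonneg h1 h2
        linarith
    have e2 : P.E (fun w => f w * ind (act t w ∧ reg t w)) ≤ x * P.E f :=
      wtx P hfF (fun w => ind_nonneg _) (fun w hw _ => hreg t ht' w hw)
    have e3 : P.E f ≤ P.Pr (fun w => bad t w) + P.Pr (fun w => ¬ kil t w ∧ pre t w) := by
      refine le_trans ?_ (P.Pr_or_le _ _)
      unfold FP.Pr
      refine P.E_mono fun w _ => ind_mono ?_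
      rintro ⟨hk, hd⟩
      by_cases hb : bad t w
      · exact Or.inl hb
      · rcases hd with hd | hd
        · exact absurd hd hb
        · exact Or.inr ⟨hk, hd, hb⟩
    have := mul_le_mul_of_nonneg_left e3 hx
    linarith
  have tot := Finset.sum_le_sum step
  rw [Finset.sum_add_distrib, ← Finset.mul_sum, Finset.sum_add_distrib] at tot
  have hfin : x * (∑ t ∈ range T, P.Pr (fun w => bad t w) + ∑ t ∈ range T, P.Pr (fun w => ¬ kil t w ∧ pre t w)) ≤
      x * (4 * b + 4 * (1 + e)) := by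
    refine mul_le_mul_of_nonneg_left ?_ hx
    linarith
  linarith

end

end Pool.Agent.GMC
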