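import Pool.Agent.GMC.Inst
import Pool.Agent.GMC.StepF
import Pool.Agent.GMC.Wgt

/-!
# GMC/Swap: the B side of `Sys.Hyp` from the A side (helper41)

`Sys.HypS` : the symmetric fields, `Sys.HypA` : the fields of the A side; `Sys.Hyp.of_AB` : `HypS S`, `HypA S`, `HypA S.swap` give
`Hyp S`.  `Sys.pull S σ` : the system read through a bijection of the sample space; `HypA.pull`.
`Ins.sys_swap` : `I.swap.sys = I.sys.swap.pull swAB`;  `Ins.hyp_of_A` : the A side for `I` and `I.swap` gives everything.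
`InsH.swap` : the hypotheses for `I.swap`.
-/

set_option autoImplicit false
set_option linter.unusedSectionVars false

namespace Pool.Agent.GMC

open Finset Pool.Agent.PWZ Pool.Agent.M3 Pool.Agent.M3.Bin

noncomputable section

section abstr

variable {Om : Type*} [Fintype Om] {Nd κA κB : Type*}

/-- the symmetric fields of `Sys.Hyp` -/
structure Sys.HypS (S : Sys Om Nd κA κB) (P : FP Om) (T L : ℕ) (q y0 bv : ℝ) (x bud : ℕ → ℝ) : Prop where
  nuF : ∀ t < T, Fac (S.nu (t + 1)) (S.nu t)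
  DF : ∀ t < T, Fac (S.nu (t + 1)) (S.D (t + 1))
  nuD : ∀ t < T, ∀ v w, S.nu t v = S.nu t w → S.D (t + 1) v = S.D (t + 1) w → S.nu (t + 1) v = S.nu (t + 1) w
  D01 : ∀ t < T, ∀ w, (∀ v, S.nu t v = S.nu t w → S.D (t + 1) v = 0) ∨
    (∀ v, S.nu t v = S.nu t w → S.D (t + 1) v = 1 ∨ S.D (t + 1) v = -1)
  XF : ∀ i j, okd L i → okd L j → ∀ t ≤ T, Fac (S.Ix i j t) (S.X i j t)
  X0 : ∀ i j t w, 0 ≤ S.X i j t w
  X1 : ∀ i j t w, S.X i j t w ≤ 1
  Y1 : ∀ i j t w, S.Y i j t w ≤ 1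
  q0 : 0 ≤ q
  psd : ∀ i j, okd L i → okd L j → ∀ t < T, ∀ w, P.p w ≠ 0 →
    S.X i j t w - q * P.ce (S.Ix i j t) (S.D (t + 1)) w ^ 2 ≤ P.ce (S.Ix i j t) (S.Y i j (t + 1)) w
  loss : ∀ i j, okd L i → okd L j → ∀ t < T, ∀ w, P.p w ≠ 0 → ¬ S.entA i (t + 1) w → ¬ S.entB j (t + 1) w →
    S.Y i j (t + 1) w - (S.dA i (t + 1) w + S.dB j (t + 1) w) ≤ S.X i j (t + 1) w
  bud_mono : ∀ k l, k ≤ l → bud k ≤ bud l
  bv0 : 0 ≤ bv
  x0 : ∀ k, 0 ≤ x k
  x_anti : ∀ k l, k ≤ l → x l ≤ x k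
  y00 : 0 ≤ y0

/-- the fields of the A side -/
structure Sys.HypA (S : Sys Om Nd κA κB) (P : FP Om) (T L : ℕ) (r y0 bv : ℝ) (x bud : ℕ → ℝ) (nr : ℕ → ℕ → ℝ) :
    Prop where
  refA : ∀ i, okd L i → ∀ t < T, Fac (fun w => (S.nu (t + 1) w, S.PA i (t + 1) w)) (S.PA i t)
  nestA : ∀ i j, okd L i → okd L j → i ≤ j → ∀ t ≤ T, Fac (fun w => (S.nu t w, S.PA j t w)) (S.PA i t)
  fairA : ∀ t < T, ∀ w, P.p w ≠ 0 → P.m (S.GA t) w ≤ 2 * P.m (S.GA (t + 1)) w
  contA : ∀ i, okd L i → ∀ t < T, ∀ v w, S.nu (t + 1) v = S.nu (t + 1) w → S.PA i t v = S.PA i t w →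
    ¬ S.entA i (t + 1) v → ¬ S.entA i (t + 1) w → S.PA i (t + 1) v = S.PA i (t + 1) w
  entAF : ∀ i, okd L i → ∀ t < T, ∀ v w, S.GA (t + 1) v = S.GA (t + 1) w → (S.entA i (t + 1) v ↔ S.entA i (t + 1) w)
  entAtop : ∀ t w, ¬ S.entA ⊤ t w
  entAmono : ∀ i j, okd L i → okd L j → i ≤ j → j ≠ ⊤ → ∀ t w, S.entA i t w → S.entA j t w
  dA0 : ∀ i t w, 0 ≤ S.dA i t w
  dAF : ∀ i, okd L i → ∀ t < T, Fac (S.GA (t + 1)) (S.dA i (t + 1))
  bAF : ∀ i ≤ L, ∀ t < T, Fac (S.GA t) (S.bA i t)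
  biasA : ∀ i ≤ L, ∀ t < T, ∀ w, P.p w ≠ 0 → P.ce (S.Ix i ⊤ t) (S.D (t + 1)) w ^ 2 ≤ S.bA i t w
  sbA : ∀ i ≤ L, ∑ t ∈ range T, P.E (S.bA i t) ≤ bud i
  seA : ∀ i ≤ L, ∑ t ∈ range T, P.Pr (S.entA i (t + 1)) ≤ bud i
  sdA : ∀ i : ℕ, i ≤ L → ∑ t ∈ range T, P.E (S.dA i (t + 1)) ≤ bud i
  svA : ∑ t ∈ range T, P.E (S.dA ⊤ (t + 1)) ≤ bv
  exA_le : ∀ i ≤ L, ∀ j, okd L j → ∀ t ≤ T, ∀ w, P.p w ≠ 0 → P.ce (S.GB t) (fun v => ind (S.exA r i j t v)) w ≤ x i
  exA_reg : ∀ l i, l ≤ i → i ≤ L → ∀ j, okd L j → ∀ t ≤ T, ∀ w, P.p w ≠ 0 →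
    P.ce (S.Ix l ⊤ t) (fun v => ind (S.exA r i j t v ∧ S.regA l t v)) w ≤ x i
  exA_nr : ∀ l i, l ≤ i → i ≤ L → ∀ j, okd L j →
    ∑ t ∈ range (T + 1), P.Pr (fun w => S.exA r i j t w ∧ ¬ S.regA l t w) ≤ nr i l
  rarA : ∀ i, okd L i → ∀ t ≤ T, ∀ w, P.p w ≠ 0 → P.ce (S.GA t) (fun v => ind (99 / 100 * r ≤ S.X i ⊤ t v)) w ≤ y0

variable {S : Sys Om Nd κA κB} {P : FP Om} {T L : ℕ} {r q y0 bv : ℝ} {x bud : ℕ → ℝ} {nr : ℕ → ℕ → ℝ}

theorem Sys.Hyp.of_AB (h : S.HypS P T L q y0 bv x bud) (hA : S.HypA P T L r y0 bv x bud nr)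
    (hB : S.swap.HypA P T L r y0 bv x bud nr) : S.Hyp P T L r q y0 bv x bud nr where
  nuF := h.nuF
  refA := hA.refA
  refB := hB.refA
  nestA := hA.nestA
  nestB := hB.nestA
  DF := h.DF
  nuD := h.nuD
  D01 := h.D01
  fairA := hA.fairA
  fairB := hB.fairA
  XF := h.XF
  X0 := h.X0
  X1 := h.X1
  Y1 := h.Y1
  q0 := h.q0
  psd := h.psd
  contA := hA.contA
  contB := hB.contA
  entAF := hA.entAF
  entBF := hB.entAF
  entAtop := hA.entAtop
  entBtop := hB.entAtop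
  entAmono := hA.entAmono
  entBmono := hB.entAmono
  loss := h.loss
  dA0 := hA.dA0
  dB0 := hB.dA0
  dAF := hA.dAF
  dBF := hB.dAF
  bAF := hA.bAF
  bBF := hB.bAF
  biasA := hA.biasA
  biasB := fun j hj t ht w hw => by
    have := hB.biasA j hj t ht w hw
    rw [S.swap_ce] at this
    exact this
  bud_mono := h.bud_mono
  bv0 := h.bv0
  sbA := hA.sbA
  sbB := hB.sbA
  seA := hA.seA
  seB := hB.seA
  sdA := hA.sdA
  sdB := hB.sdA
  svA := hA.svA
  svB := hB.svA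
  x0 := h.x0
  x_anti := h.x_anti
  exA_le := hA.exA_le
  exB_le := fun i hi j hj t ht w hw => hB.exA_le j hj i hi t ht w hw
  exA_reg := hA.exA_reg
  exB_reg := fun i hi l j hlj hj t ht w hw => by
    have := hB.exA_reg l j hlj hj i hi t ht w hw
    rw [S.swap_ce] at this
    exact this
  exA_nr := hA.exA_nr
  exB_nr := fun i hi l j hlj hj => hB.exA_nr l j hlj hj i hi
  y00 := h.y00
  rarA := hA.rarA
  rarB := hB.rarA

/-! ## a bijection of the sample space -/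

/-- the system read through a bijection -/
def Sys.pull (S : Sys Om Nd κA κB) (σ : Om ≃ Om) : Sys Om Nd κA κB where
  nu := fun t w => S.nu t (σ w)
  D := fun t w => S.D t (σ w)
  PA := fun i t w => S.PA i t (σ w)
  PB := fun i t w => S.PB i t (σ w)
  X := fun i j t w => S.X i j t (σ w)
  Y := fun i j t w => S.Y i j t (σ w)
  entA := fun i t w => S.entA i t (σ w)
  entB := fun i t w => S.entB i t (σ w)
  dA := fun i t w => S.dA i t (σ w)
  dB := fun i t w => S.dB i t (σ w)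
  bA := fun i t w => S.bA i t (σ w)
  bB := fun i t w => S.bB i t (σ w)
  regA := fun i t w => S.regA i t (σ w)
  regB := fun i t w => S.regB i t (σ w)

theorem Fac.of_pull {κ ι : Type*} (σ : Om ≃ Om) {X : Om → κ} {f : Om → ι} (h : Fac (fun w => X (σ w)) (fun w => f (σ w))) :
    Fac X f := by
  intro v w hvw
  have := h (σ.symm v) (σ.symm w) (by simpa using hvw)
  simpa using this

/-- the law is invariant under `σ` -/
def Inv (P : FP Om) (σ : Om ≃ Om) : Prop := ∀ w, P.p (σ w) = P.p w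

theorem Inv.E {σ : Om ≃ Om} (h : Inv P σ) (f : Om → ℝ) : P.E (fun w => f (σ w)) = P.E f := by
  unfold FP.E
  rw [← Equiv.sum_comp σ (fun w => P.p w * f w)]
  exact Finset.sum_congr rfl fun w _ => by rw [h w]

theorem Inv.m {κ : Type*} {σ : Om ≃ Om} (h : Inv P σ) (X : Om → κ) (w : Om) : P.m (fun w => X (σ w)) w = P.m X (σ w) :=
  h.E (fun v => ind (X v = X (σ w)))

theorem Inv.ce {κ : Type*} {σ : Om ≃ Om} (h : Inv P σ) (X : Om → κ) (f : Om → ℝ) (w : Om) :
    P.ce (fun w => X (σ w)) (fun w => f (σ w)) w = P.ce X f (σ w) := by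
  unfold FP.ce
  rw [h.m X w]
  congr 1
  exact h.E (fun v => ind (X v = X (σ w)) * f v)

theorem Inv.Pr {σ : Om ≃ Om} (h : Inv P σ) (s : Om → Prop) : P.Pr (fun w => s (σ w)) = P.Pr s :=
  h.E (fun v => ind (s v))

theorem Sys.HypA.of_pull {σ : Om ≃ Om} (hP : Inv P σ) (h : (S.pull σ).HypA P T L r y0 bv x bud nr) :
    S.HypA P T L r y0 bv x bud nr where
  refA := fun i hi t ht => Fac.of_pull σ (h.refA i hi t ht)
  nestA := fun i j hi hj hij t ht => Fac.of_pull σ (h.nestA i j hi hj hij t ht)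
  fairA := fun t ht w hw => by
    have h1 := h.fairA t ht (σ.symm w) (by rw [← hP, Equiv.apply_symm_apply]; exact hw)
    have h2 : ∀ s, P.m ((S.pull σ).GA s) (σ.symm w) = P.m (S.GA s) w := by
      intro s
      have := hP.m (S.GA s) (σ.symm w)
      rw [Equiv.apply_symm_apply] at this
      exact this
    rw [h2, h2] at h1
    exact h1
  contA := fun i hi t ht v w h1 h2 h3 h4 => by
    have := h.contA i hi t ht (σ.symm v) (σ.symm w)
    simp only [Sys.pull, Equiv.apply_symm_apply] at this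
    exact this h1 h2 h3 h4
  entAF := fun i hi t ht v w h1 => by
    have := h.entAF i hi t ht (σ.symm v) (σ.symm w)
    simp only [Sys.pull, Sys.GA, Equiv.apply_symm_apply] at this
    exact this h1
  entAtop := fun t w => by
    have := h.entAtop t (σ.symm w)
    simp only [Sys.pull, Equiv.apply_symm_apply] at this
    exact this
  entAmono := fun i j hi hj hij hj' t w => by
    have := h.entAmono i j hi hj hij hj' t (σ.symm w)
    simp only [Sys.pull, Equiv.apply_symm_apply] at this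
    exact this
  dA0 := fun i t w => by
    have := h.dA0 i t (σ.symm w)
    simp only [Sys.pull, Equiv.apply_symm_apply] at this
    exact this
  dAF := fun i hi t ht => Fac.of_pull σ (h.dAF i hi t ht)
  bAF := fun i hi t ht => Fac.of_pull σ (h.bAF i hi t ht)
  biasA := fun i hi t ht w hw => by
    have h1 := h.biasA i hi t ht (σ.symm w) (by rw [← hP, Equiv.apply_symm_apply]; exact hw)
    have h2 := hP.ce (S.Ix i ⊤ t) (S.D (t + 1)) (σ.symm w)
    rw [Equiv.apply_symm_apply] at h2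
    rw [← h2]
    have h3 : (S.pull σ).bA i t (σ.symm w) = S.bA i t w := by simp [Sys.pull]
    rw [h3] at h1
    exact h1
  sbA := fun i hi => by
    refine le_trans (le_of_eq (Finset.sum_congr rfl fun t _ => ?_)) (h.sbA i hi)
    exact (hP.E (S.bA i t)).symm
  seA := fun i hi => by
    refine le_trans (le_of_eq (Finset.sum_congr rfl fun t _ => ?_)) (h.seA i hi)
    exact (hP.Pr (S.entA i (t + 1))).symm
  sdA := fun i hi => by
    refine le_trans (le_of_eq (Finset.sum_congr rfl fun t _ => ?_)) (h.sdA i hi)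
    exact (hP.E (S.dA i (t + 1))).symm
  svA := by
    refine le_trans (le_of_eq (Finset.sum_congr rfl fun t _ => ?_)) h.svA
    exact (hP.E (S.dA ⊤ (t + 1))).symm
  exA_le := fun i hi j hj t ht w hw => by
    have h1 := h.exA_le i hi j hj t ht (σ.symm w) (by rw [← hP, Equiv.apply_symm_apply]; exact hw)
    have h2 := hP.ce (S.GB t) (fun v => ind (S.exA r i j t v)) (σ.symm w)
    rw [Equiv.apply_symm_apply] at h2
    rw [← h2]
    exact h1
  exA_reg := fun l i hl hi j hj t ht w hw => by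
    have h1 := h.exA_reg l i hl hi j hj t ht (σ.symm w) (by rw [← hP, Equiv.apply_symm_apply]; exact hw)
    have h2 := hP.ce (S.Ix l ⊤ t) (fun v => ind (S.exA r i j t v ∧ S.regA l t v)) (σ.symm w)
    rw [Equiv.apply_symm_apply] at h2
    rw [← h2]
    exact h1
  exA_nr := fun l i hl hi j hj => by
    refine le_trans (le_of_eq (Finset.sum_congr rfl fun t _ => ?_)) (h.exA_nr l i hl hi j hj)
    exact (hP.Pr (fun w => S.exA r i j t w ∧ ¬ S.regA l t w)).symm
  rarA := fun i hi t ht w hw => by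
    have h1 := h.rarA i hi t ht (σ.symm w) (by rw [← hP, Equiv.apply_symm_apply]; exact hw)
    have h2 := hP.ce (S.GA t) (fun v => ind (99 / 100 * r ≤ S.X i ⊤ t v)) (σ.symm w)
    rw [Equiv.apply_symm_apply] at h2
    rw [← h2]
    exact h1

end abstr

/-! ## the instance -/

variable {k N n : ℕ} {P Ξ : Type} [Fintype P] [Nonempty P] [DecidableEq P] [Fintype Ξ]

theorem inv_sw : Inv (Pu k N n P) swAB := fun w => by
  unfold Pu
  simp [FP.unif]

omit [DecidableEq P] [Fintype Ξ] [Nonempty P] [Fintype P] in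
theorem Ins.nu_sw (I : Ins k N n P Ξ) (t : ℕ) (ω : S2 k N n P) : I.nu t (swAB ω) = I.nu t ω := Nc_sw _ _

theorem sgT_sw (hh t : ℕ) (ω : S2 k N n P) : sgT N hh n t (swAB ω) = sgT N hh n t ω := by
  unfold sgT
  rw [Nc_sw]

/-- the instance of `I.swap` -/
theorem Ins.sys_swap (I : Ins k N n P Ξ) : I.swap.sys = I.sys.swap.pull swAB := by
  unfold Ins.sys Sys.swap Sys.pull
  congr 1
  all_goals
    first
    | (funext t ω; exact (I.nu_sw t ω).symm)
    | (funext t ω; cases t with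
        | zero => rfl
        | succ t => exact (sgT_sw _ _ _).symm)
    | (funext i t ω; simp only [I.nu_sw, va_sw, vb_sw]; rfl)
    | (funext i j t ω; simp only [I.nu_sw, va_sw, vb_sw]; exact real_inner_comm _ _)
    | (funext i t ω; cases t with
        | zero => rfl
        | succ t => simp only [I.nu_sw, va_sw, vb_sw]; rfl)
    | (funext i j t ω; cases t with
        | zero => rfl
        | succ t => simp only [I.nu_sw, va_sw, vb_sw]; exact real_inner_comm _ _)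

theorem FaceH.sw {I : Ins k N n P Ξ} {F G : Face k n P Ξ} {p eps0 : ℝ} {vx vx' : S2 k N n P → P × V k}
    (hv : ∀ ω, vx' ω = vx (swAB ω)) (h : FaceH I vx F G p eps0) : FaceH I.swap vx' F G p eps0 where
  le := h.le
  ver := by
    refine le_trans (le_of_eq (Finset.sum_congr rfl fun t _ => ?_)) h.ver
    rw [← E_sw (fun ω => ∑ ξ, I.wx ξ *
      ind (I.ver F t (I.nu t ω) (vx ω) (vo ω) ξ ≠ I.ver F (t + 1) (I.nu (t + 1) ω) (vx ω) (vo ω) ξ))]
    refine FP.E_congr _ fun ω _ => ?_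
    refine Finset.sum_congr rfl fun ξ _ => ?_
    rw [I.nu_sw, I.nu_sw, vo_sw, ← hv]
    rfl
  pt := h.pt

theorem InsH.swap {I : Ins k N n P Ξ} {p eps0 : ℝ} (h : InsH I p eps0) : InsH I.swap p eps0 where
  hN := h.hN
  hn := h.hn
  hh := h.hh
  q1 := h.q1
  eps00 := h.eps00
  rr := h.rr
  rpos := h.rpos
  r1 := h.r1
  thpos := h.thpos
  th1 := h.th1
  p0 := h.p0
  wx0 := h.wx0
  wx1 := h.wx1
  a := h.b.sw fun _ => rfl
  b := h.a.sw fun _ => rfl

/-- ALL of `Sys.Hyp` from the symmetric fields and the A side for all instances -/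
theorem Ins.hyp_of_A (I : Ins k N n P Ξ) {L : ℕ} {r q y0 bv : ℝ} {x bud : ℕ → ℝ} {nr : ℕ → ℕ → ℝ}
    (h : I.sys.HypS (Pu k N n P) I.T L q y0 bv x bud) (hA : I.sys.HypA (Pu k N n P) I.T L r y0 bv x bud nr)
    (hB : I.swap.sys.HypA (Pu k N n P) I.T L r y0 bv x bud nr) :
    I.sys.Hyp (Pu k N n P) I.T L r q y0 bv x bud nr := by
  refine Sys.Hyp.of_AB h hA ?_
  rw [I.sys_swap] at hB
  exact Sys.HypA.of_pull inv_sw hB

end

end Pool.Agent.GMC
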